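import Pool.Agent.W_448s7_h27.HangC
import Pool.Agent.W_448fs_h63.SG

/-!
Shifted shapes with an arbitrary poset hung below the end of the first row.
-/

namespace Pool.Agent.GaussPoset

set_option linter.unusedSectionVars false

open Finset Yg

universe u v

section Sub

variable {Q : Type u} [Fintype Q] [PartialOrder Q] [DecidableEq Q]

/-- order of the window polynomial of a shifted shape with a poset hung below the end `x1` of the
first row -/
theorem shift_junk_dvd (t1 : Q → Prop) [DecidablePred t1] (co : Q → ℕ × ℕ)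
    (x1 : Q) (hx11 : ¬ t1 x1)
    (hlow1 : ∀ x y, x ≤ y → t1 y → t1 x)
    (hh1 : ∀ x y, t1 x → ¬ t1 y → (x ≤ y ↔ x1 ≤ y))
    (hinj : ∀ x y, ¬ t1 x → ¬ t1 y → co x = co y → x = y)
    (hge : ∀ x, ¬ t1 x → (co x).1 ≤ (co x).2)
    (hle : ∀ x y, ¬ t1 x → ¬ t1 y → (x ≤ y ↔ co y ≤ co x))
    (hdown : ∀ x, ¬ t1 x → ∀ c ≤ co x, c.1 ≤ c.2 → ∃ y, ¬ t1 y ∧ co y = c)
    (hr1 : (∃ x, t1 x) → (co x1).1 = 0 ∧ ∀ y, ¬ t1 y → y ≠ x1 → (co y).2 < (co x1).2)
    {i : ℕ} (hcell : ∃ x, ¬ t1 x ∧ co x = (2 * (i / 2), i)) :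
    (1 + Polynomial.X : Polynomial (PowerSeries ℤ)) ^ (i / 2 + 1) ∣ W Q i := by
  classical
  refine dvd_W_of_hang' t1 x1 hx11 hlow1 hh1 fun a ha => ?_
  let co' : Hang {x : Q // ¬ t1 x} (Fin a)ᵒᵈ ⟨x1, hx11⟩ → ℕ × ℕ :=
    Sum.elim (fun x => co (x : Q)) (fun k => (0, (co x1).2 + 1 + (OrderDual.ofDual k).val))
  have hA : 0 < a → (co x1).1 = 0 ∧ ∀ y, ¬ t1 y → y ≠ x1 → (co y).2 < (co x1).2 := by
    intro h0
    rcases ha with h | h
    · omega
    · exact hr1 h
  have hA' : 0 < a → ∀ y, ¬ t1 y → (co y).2 ≤ (co x1).2 := by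
    intro h0 y h1
    by_cases hy : y = x1
    · rw [hy]
    · exact ((hA h0).2 y h1 hy).le
  refine shift_dvd_cell co' ?_ ?_ ?_ ?_ ?_
  · -- injective
    rintro (x | x) (y | y) hxy
    · have h := hinj x y x.2 y.2 hxy
      have h' : x = y := Subtype.ext h
      subst h'
      rfl
    · exfalso
      have h : co (x : Q) = (0, (co x1).2 + 1 + (OrderDual.ofDual y).val) := hxy
      have := hA' (by have := (OrderDual.ofDual y).2; omega) x x.2
      rw [h] at this
      simp only at this
      omega
    · exfalso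
      have h : co (y : Q) = (0, (co x1).2 + 1 + (OrderDual.ofDual x).val) := hxy.symm
      have := hA' (by have := (OrderDual.ofDual x).2; omega) y y.2
      rw [h] at this
      simp only at this
      omega
    · have h : ((0 : ℕ), (co x1).2 + 1 + (OrderDual.ofDual x).val) =
        (0, (co x1).2 + 1 + (OrderDual.ofDual y).val) := hxy
      have h' : x = y := by
        apply OrderDual.ofDual.injective
        apply Fin.ext
        have := (Prod.mk.injEq _ _ _ _ ▸ h).2
        omega
      subst h'
      rfl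
  · rintro (x | x)
    · exact hge x x.2
    · exact Nat.zero_le _
  · -- order
    rintro (x | x) (y | y)
    · exact hle x y x.2 y.2
    · constructor
      · intro h
        exact h.elim
      · intro h
        exfalso
        have h' : ((0 : ℕ), (co x1).2 + 1 + (OrderDual.ofDual y).val) ≤ co (x : Q) := h
        have := hA' (by have := (OrderDual.ofDual y).2; omega) x x.2
        have h3 := h'.2
        simp only at h3
        omega
    · have h0 : 0 < a := by have := (OrderDual.ofDual x).2; omega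
      have hl := hle x1 y hx11 y.2
      constructor
      · intro h
        have h1 : x1 ≤ (y : Q) := h
        have h2 := hl.mp h1
        refine ⟨?_, ?_⟩
        · have := h2.1
          rw [(hA h0).1] at this
          exact this
        · have := h2.2
          change (co (y : Q)).2 ≤ (co x1).2 + 1 + (OrderDual.ofDual x).val
          omega
      · intro h
        change x1 ≤ (y : Q)
        rw [hl]
        refine ⟨?_, hA' h0 y y.2⟩
        rw [(hA h0).1]
        exact h.1
    · constructor
      · intro h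
        refine ⟨le_rfl, ?_⟩
        have h1 : OrderDual.ofDual y ≤ OrderDual.ofDual x := h
        have h2 : (OrderDual.ofDual y).val ≤ (OrderDual.ofDual x).val := h1
        change (co x1).2 + 1 + (OrderDual.ofDual y).val ≤ (co x1).2 + 1 + (OrderDual.ofDual x).val
        omega
      · intro h
        have h2 : (co x1).2 + 1 + (OrderDual.ofDual y).val ≤
          (co x1).2 + 1 + (OrderDual.ofDual x).val := h.2
        change OrderDual.ofDual y ≤ OrderDual.ofDual x
        rw [Fin.le_def]
        omega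
  · -- lower set of cells
    have hcells : ∀ c : ℕ × ℕ, (∃ y, ¬ t1 y ∧ co y = c) → ∃ y, co' y = c := by
      rintro c ⟨y, hy1, hy3⟩
      exact ⟨Sum.inl ⟨y, hy1⟩, hy3⟩
    rintro (x | x) c hcx hcs
    · exact hcells c (hdown x x.2 c hcx hcs)
    · have h1 : c ≤ ((0 : ℕ), (co x1).2 + 1 + (OrderDual.ofDual x).val) := hcx
      have h0 : 0 < a := by have := (OrderDual.ofDual x).2; omega
      obtain ⟨c1, c2⟩ := c
      have h2 : c1 ≤ 0 := h1.1
      have h3 : c2 ≤ (co x1).2 + 1 + (OrderDual.ofDual x).val := h1.2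
      have h4 : c1 = 0 := by omega
      subst h4
      by_cases h5 : c2 ≤ (co x1).2
      · refine hcells _ (hdown x1 hx11 _ ⟨Nat.zero_le _, h5⟩ (Nat.zero_le _))
      · refine ⟨Sum.inr (OrderDual.toDual ⟨c2 - ((co x1).2 + 1), ?_⟩), ?_⟩
        · have := (OrderDual.ofDual x).2
          omega
        · change ((0 : ℕ), (co x1).2 + 1 + (c2 - ((co x1).2 + 1))) = (0, c2)
          congr 1
          omega
  · obtain ⟨x, h1, h3⟩ := hcell
    exact ⟨Sum.inl ⟨x, h1⟩, h3⟩

end Sub

end Pool.Agent.GaussPoset
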