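import Pool.Agent.W_448s7_h27.BalD

/-!
# The balance lemma, second version: statement, and bounds of the lines
-/

namespace Pool.Agent.GaussPoset.Bal

/-- **The balance lemma** with all own junk.  The costs `v w` are relative: cost minus
`(j + 1 - w)²`. -/
theorem no_balance2 {j v0 v1 v2 v3 : ℤ} (hj : 17 ≤ j) (c0 : v0 ≤ 10 * j - 40)
    (c1 : v1 ≤ 10 * (j - 1) - 40) (c2 : v2 ≤ 10 * (j - 2) - 40) (c3 : v3 ≤ 10 * (j - 3) - 40)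
    (X : ℤ → ℤ → Prop) (hX : ∀ κ g, X κ g → Ln2 j v0 v1 v2 v3 κ g)
    (o0 : ∃ κ g, X κ g ∧ Odd κ ∧ κ * j + g = v0)
    (e0 : ∃ κ g, X κ g ∧ Even κ ∧ κ * j + g = v0)
    (o1 : (∃ κ g, X κ g ∧ Odd κ ∧ κ * (j - 1) + g = v1) ∨ OddNoise (j - 1) v1)
    (e1 : (∃ κ g, X κ g ∧ Even κ ∧ κ * (j - 1) + g = v1) ∨ Noise (j + 1 - 1) v1 ∨
      EvenNoise (j - 1) v1)
    (o2 : (∃ κ g, X κ g ∧ Odd κ ∧ κ * (j - 2) + g = v2) ∨ OddNoise (j - 2) v2 ∨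
      (j = 18 ∧ v2 = 113))
    (e2 : (∃ κ g, X κ g ∧ Even κ ∧ κ * (j - 2) + g = v2) ∨ Noise (j + 1 - 2) v2 ∨
      EvenNoise (j - 2) v2)
    (o3 : (∃ κ g, X κ g ∧ Odd κ ∧ κ * (j - 3) + g = v3) ∨ OddNoise (j - 3) v3 ∨
      (j = 18 ∧ v3 = 94))
    (e3 : (∃ κ g, X κ g ∧ Even κ ∧ κ * (j - 3) + g = v3) ∨ Noise (j + 1 - 3) v3 ∨
      EvenNoise (j - 3) v3) : False := by
  have nl : ∀ {w v : ℤ}, 1 ≤ w → w ≤ 3 → v ≤ 10 * (j - w) - 40 → Noise (j + 1 - w) v →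
      ∃ κ g, EN κ g ∧ v = κ * (j - w) + g := by
    intro w v hw hw3 hc hn
    obtain ⟨κ, g, h1, h2⟩ := hn.nl (by omega) (by linarith)
    refine ⟨κ, g, Or.inl h1, ?_⟩
    rw [h2]
    ring
  refine BSys.false (X := X) ⟨c0, c1, c2, c3, hX, o0, e0, ?_, ?_, ?_, ?_, ?_, ?_⟩ hj
  · exact o1.imp id fun h => h.on (by omega) c1
  · rcases e1 with h | h | h
    · exact Or.inl h
    · exact Or.inr (nl le_rfl (by norm_num) c1 h)
    · exact Or.inr (h.en (by omega) c1)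
  · exact o2.imp id (Or.imp (fun h => h.on (by omega) c2) id)
  · rcases e2 with h | h | h
    · exact Or.inl h
    · exact Or.inr (nl (by norm_num) (by norm_num) c2 h)
    · exact Or.inr (h.en (by omega) c2)
  · exact o3.imp id (Or.imp (fun h => h.on (by omega) c3) id)
  · rcases e3 with h | h | h
    · exact Or.inl h
    · exact Or.inr (nl (by norm_num) (by norm_num) c3 h)
    · exact Or.inr (h.en (by omega) c3)

/-- bounds of the total depth `C` of `m` extra elements in one component -/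
def Part2 (j m C : ℤ) : Prop := 0 ≤ m ∧ (C ≤ 3 * m + 10 ∨ 2 * C ≤ j)

/-- a member of a cheapest class below the cap has slope at most `10` -/
lemma slope_le2 {j q m C m1 m2 C1 C2 w : ℤ} (hj : 17 ≤ j) (hq : 0 ≤ q) (hw : 0 ≤ w) (hw3 : w ≤ 3)
    (hm : m1 + m2 ≤ m) (hp1 : Part2 j m1 C1) (hp2 : Part2 j m2 C2) (hC : C ≤ C1 + C2)
    (hv : (2 * q + m) * (j - w) + (q * q + 2 * q - C) ≤ 10 * (j - w) - 40) : 2 * q + m ≤ 10 := by
  by_contra hc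
  obtain ⟨n1, hp1⟩ := hp1
  obtain ⟨n2, hp2⟩ := hp2
  have h2 : 0 ≤ q * q + 2 * q := by nlinarith
  -- `(κ - 10) (j - w) + 40 ≤ C ≤ 3 m + 20` or so
  have h1 : (2 * q + m - 10) * (j - w) ≤ C - 40 := by nlinarith
  have h4 : (2 * q + m - 10) * 14 ≤ (2 * q + m - 10) * (j - w) :=
    mul_le_mul_of_nonneg_left (by omega) (by omega)
  have h5 : 1 * (j - w) ≤ (2 * q + m - 10) * (j - w) :=
    mul_le_mul_of_nonneg_right (by omega) (by omega)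
  rcases hp1 with a1 | a1 <;> rcases hp2 with b1 | b1
  · omega
  · nlinarith
  · nlinarith
  · omega

/-- the bounds of a cross line of level `> j + 1` which is cheapest at window `w` -/
theorem ln2_pos {j v0 v1 v2 v3 q m C m1 m2 C1 C2 w κ g : ℤ} (hj : 17 ≤ j) (hq : 1 ≤ q)
    (hw : 0 ≤ w) (hw3 : w ≤ 3) (hm : m1 + m2 ≤ m) (hp1 : Part2 j m1 C1) (hp2 : Part2 j m2 C2)
    (hC : C ≤ C1 + C2) (hCl : -((q - 1) * m) ≤ C) (hm0 : m = 0 → C = 0)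
    (hκ : κ = 2 * q + m) (hg : g = q * q + 2 * q - C)
    (hv : κ * (j - w) + g ≤ 10 * (j - w) - 40)
    (t0 : v0 ≤ κ * j + g) (t1 : v1 ≤ κ * (j - 1) + g) (t2 : v2 ≤ κ * (j - 2) + g)
    (t3 : v3 ≤ κ * (j - 3) + g) : Ln2 j v0 v1 v2 v3 κ g := by
  subst hκ hg
  have h10 := slope_le2 hj (by omega) hw hw3 hm hp1 hp2 hC hv
  obtain ⟨n1, hp1⟩ := hp1
  obtain ⟨n2, hp2⟩ := hp2
  have hmn : 0 ≤ m := by omega
  have h3 : 3 ≤ q * q + 2 * q := by nlinarith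
  have hlow : -(2 * j + 9) ≤ q * q + 2 * q - C := by
    rcases hp1 with a1 | a1 <;> rcases hp2 with b1 | b1 <;> omega
  have hlow2 : 31 ≤ j → -(j + 19) ≤ q * q + 2 * q - C := by
    intro h31
    rcases hp1 with a1 | a1 <;> rcases hp2 with b1 | b1 <;> omega
  refine ⟨by omega, h10, ?_, ?_, ?_, ?_, t0, t1, t2, t3⟩
  · exact Or.inl hlow
  · exact hlow2
  · split_ifs with h
    · nlinarith
    · have h1 : 1 ≤ m := by omega
      nlinarith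
  · intro h6
    have h7 : (q = 1 ∧ m = 4) ∨ (q = 2 ∧ m = 2) ∨ (q = 3 ∧ m = 0) := by omega
    rcases h7 with ⟨rfl, rfl⟩ | ⟨rfl, rfl⟩ | ⟨rfl, rfl⟩
    · left; omega
    · left; omega
    · right
      have := hm0 rfl
      omega

/-- the ends of the level `j` which are not folds: (number of extra elements, total depth) -/
def NEnd2 (j a d : ℤ) : Prop :=
  (a = 0 ∧ d = 0) ∨ (a = 1 ∧ 1 ≤ d ∧ (d ≤ 7 ∨ 2 * d ≤ j)) ∨ (a = 3 ∧ d = 9) ∨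
    (a = 5 ∧ d = 20) ∨ (a = 5 ∧ d = 25)

/-- joins of the level `j + 1` between two such ends are below the cap at the windows `0, …, 3` -/
lemma cap_of2 {j a d a' d' w : ℤ} (hj : 17 ≤ j) (hw3 : w ≤ 3) (h : NEnd2 j a d)
    (h' : NEnd2 j a' d') : (a + a') * (j - w) - (d + d') ≤ 10 * (j - w) - 40 := by
  unfold NEnd2 at h h'
  rcases h with ⟨rfl, hd⟩ | ⟨rfl, hd⟩ | ⟨rfl, hd⟩ | ⟨rfl, hd⟩ | ⟨rfl, hd⟩ <;>
    rcases h' with ⟨rfl, hd'⟩ | ⟨rfl, hd'⟩ | ⟨rfl, hd'⟩ | ⟨rfl, hd'⟩ | ⟨rfl, hd'⟩ <;> omega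

/-- the bounds of a cross line of level `j + 1` -/
theorem ln2_zero {j v0 v1 v2 v3 a d a' d' κ g : ℤ} (hj : 17 ≤ j) (h : NEnd2 j a d)
    (h' : NEnd2 j a' d') (hκ : κ = a + a') (hg : g = -(d + d'))
    (t0 : v0 ≤ κ * j + g) (t1 : v1 ≤ κ * (j - 1) + g) (t2 : v2 ≤ κ * (j - 2) + g)
    (t3 : v3 ≤ κ * (j - 3) + g) : Ln2 j v0 v1 v2 v3 κ g := by
  unfold NEnd2 at h h'
  subst hκ hg
  refine ⟨by omega, by omega, by omega, by omega, ?_, by omega, t0, t1, t2, t3⟩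
  rcases h with ⟨rfl, hd⟩ | ⟨rfl, hd⟩ | ⟨rfl, hd⟩ | ⟨rfl, hd⟩ | ⟨rfl, hd⟩ <;>
    rcases h' with ⟨rfl, hd'⟩ | ⟨rfl, hd'⟩ | ⟨rfl, hd'⟩ | ⟨rfl, hd'⟩ | ⟨rfl, hd'⟩ <;> norm_num <;>
    omega

end Pool.Agent.GaussPoset.Bal
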