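import Pool.Agent.W_448s7_h27.HangD
import Pool.Agent.W_448fw_h5.FwH

/-!
Component data for the far window theorem, with junk hung below the straight ends.
-/

namespace Pool.Agent.GaussPoset

set_option linter.unusedSectionVars false

open Polynomial Finset

universe u

variable {P : Type u} [Fintype P] [PartialOrder P] [DecidableEq P]
variable {ι : Type*}

/-- the junk `J` hangs below the natural element `x1` of the component `k` -/
structure Junk (R : Finset P) (cp : P → ι) (k : ι) (J : P → Prop) (x1 : P) : Prop where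
  mem : ∀ x, J x → x ∉ R ∧ cp x = k ∧ x < x1
  low : ∀ x y, x ≤ y → x ∉ R → J y → J x
  anc : ∀ x y, J x → x ≤ y → J y ∨ x1 ≤ y

/-- coordinates of the elements of the component `k` outside `R` and outside `J` -/
structure CoordJ (R : Finset P) (cp : P → ι) (k : ι) (J : P → Prop) (S : ℕ × ℕ → Prop)
    (co : P → ℕ × ℕ) : Prop where
  inj : ∀ x y, x ∉ R → y ∉ R → cp x = k → cp y = k → ¬ J x → ¬ J y → co x = co y → x = y
  le_iff : ∀ x y, x ∉ R → y ∉ R → cp x = k → cp y = k → ¬ J x → ¬ J y → (x ≤ y ↔ co y ≤ co x)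
  mem : ∀ x, x ∉ R → cp x = k → ¬ J x → S (co x)
  low : ∀ x, x ∉ R → cp x = k → ¬ J x → ∀ c ≤ co x, S c →
    ∃ y, y ∉ R ∧ cp y = k ∧ ¬ J y ∧ co y = c
  lev : ∀ x, x ∉ R → cp x = k → ¬ J x → Pool.Agent.GaussPoset.lev x = (co x).1 + (co x).2

section Cells

variable {R : Finset P} {cp : P → ι} {k : ι} {S : ℕ × ℕ → Prop} {co : P → ℕ × ℕ}
  {i b α β : ℕ} {θ : P → ℕ} {B : P → Prop} {J1 J2 : P → Prop} {x1 x2 : P}

/-- component data from coordinates, general form with junk -/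
theorem compDataJ_cells (hgr : GradedBelow P) (hcp : ∀ x y, x ≤ y → x ∉ R → cp x = cp y)
    (h1 : Junk R cp k J1 x1) (h2 : Junk R cp k J2 x2)
    (H : CoordJ R cp k (fun x => J1 x ∨ J2 x) S co)
    (hB : ∀ x, x ∉ R → cp x = k → (B x ↔ ¬ (J1 x ∨ J2 x) ∧ co x = (α, β)))
    (hθ : ∀ x, x ∉ R → cp x = k → ¬ (J1 x ∨ J2 x) → θ x = ((co x).1 - α) + ((co x).2 - β))
    (hθJ : ∀ x, J1 x ∨ J2 x → θ x = lev x - i)
    (hle : ∀ x, x ∉ R → cp x = k → ¬ (J1 x ∨ J2 x) →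
      ((co x).1 - α) + ((co x).2 - β) ≤ ((co x).1 + (co x).2) - i)
    (hθ1 : (∃ x, J1 x) → lev x1 - i ≤ θ x1) (hθ2 : (∃ x, J2 x) → lev x2 - i ≤ θ x2)
    (hclean : ∀ D, Good i R B D → ∀ _ : DecidableEq ι,
      (1 + X : Polynomial (PowerSeries ℤ)) ^ b ∣ W {x : {x : P // x ∉ D} // cp (x : P) = k} i) :
    CompData R cp k i b θ B where
  clean := hclean
  lev := by
    intro x hx hk hx1
    by_cases hJ : J1 x ∨ J2 x
    · rw [hθJ x hJ] at hx1
      omega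
    · rw [hθ x hx hk hJ] at hx1
      have h2 := hle x hx hk hJ
      rw [H.lev x hx hk hJ]
      omega
  base := by
    intro x hx hk hx1 y hyx hy hBy
    have hyk : cp y = k := by rw [hcp y x hyx hy]; exact hk
    obtain ⟨hyJ, hco⟩ := (hB y hy hyk).mp hBy
    have hxJ : ¬ (J1 x ∨ J2 x) := by
      rintro (h | h)
      · exact hyJ (Or.inl (h1.low y x hyx hy h))
      · exact hyJ (Or.inr (h2.low y x hyx hy h))
    have h3 := (H.le_iff y x hy hx hyk hk hyJ hxJ).mp hyx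
    rw [hco] at h3
    rw [hθ x hx hk hxJ] at hx1
    have h4 : (co x).1 ≤ α := h3.1
    have h5 : (co x).2 ≤ β := h3.2
    omega
  step := by
    intro x hx hk hx1 y hyx hy x' hx' hyx' hn
    have hyk : cp y = k := by rw [hcp y x hyx hy]; exact hk
    have hxk' : cp x' = k := by rw [← hcp y x' hyx'.1.le hy]; exact hyk
    have h4 := hgr.lev_covBy hyx'
    have hlyx : lev x ≤ lev y := by
      rcases eq_or_lt_of_le hyx with h | h
      · rw [h]
      · exact (lev_strictAnti h).le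
    -- junk case
    have key : ∀ (J : P → Prop) (z : P), Junk R cp k J z → (∀ x, J x → J1 x ∨ J2 x) →
        ((∃ x, J x) → lev z - i ≤ θ z) → J y → θ x ≤ θ x' + 1 := by
      intro J z hJ hJs hz hJy
      rcases hJ.anc y x hJy hyx with hJx | hzx
      · -- x is junk
        rw [hθJ x (hJs x hJx)]
        rcases hJ.anc y x' hJy hyx'.1.le with hJx' | hzx'
        · rw [hθJ x' (hJs x' hJx')]
          omega
        · have hyz := (hJ.mem y hJy).2.2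
          have hzx'' : z = x' := by
            by_contra hne
            exact hyx'.2 hyz (lt_of_le_of_ne hzx' hne)
          have := hz ⟨y, hJy⟩
          rw [hzx''] at this
          omega
      · exfalso
        rcases hJ.anc y x' hJy hyx'.1.le with hJx' | hzx'
        · exact hn ((hJ.mem x' hJx').2.2.le.trans hzx)
        · have hyz := (hJ.mem y hJy).2.2
          have hzx'' : z = x' := by
            by_contra hne
            exact hyx'.2 hyz (lt_of_le_of_ne hzx' hne)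
          exact hn (hzx'' ▸ hzx)
    by_cases hyJ : J1 y ∨ J2 y
    · rcases hyJ with h | h
      · exact key J1 x1 h1 (fun _ h => Or.inl h) hθ1 h
      · exact key J2 x2 h2 (fun _ h => Or.inr h) hθ2 h
    · have hxJ : ¬ (J1 x ∨ J2 x) := by
        rintro (h | h)
        · exact hyJ (Or.inl (h1.low y x hyx hy h))
        · exact hyJ (Or.inr (h2.low y x hyx hy h))
      have hxJ' : ¬ (J1 x' ∨ J2 x') := by
        rintro (h | h)
        · exact hyJ (Or.inl (h1.low y x' hyx'.1.le hy h))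
        · exact hyJ (Or.inr (h2.low y x' hyx'.1.le hy h))
      have h5 := (H.le_iff y x hy hx hyk hk hyJ hxJ).mp hyx
      have h3 := (H.le_iff y x' hy hx' hyk hxk' hyJ hxJ').mp hyx'.1.le
      rw [H.lev y hy hyk hyJ, H.lev x' hx' hxk' hxJ'] at h4
      have h6 : ¬ co x ≤ co x' := fun h => hn ((H.le_iff x' x hx' hx hxk' hk hxJ' hxJ).mpr h)
      have h6 : ¬ ((co x).1 ≤ (co x').1 ∧ (co x).2 ≤ (co x').2) := h6
      have h7 : (co x).1 ≤ (co y).1 := h5.1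
      have h8 : (co x).2 ≤ (co y).2 := h5.2
      have h9 : (co x').1 ≤ (co y).1 := h3.1
      have h10 : (co x').2 ≤ (co y).2 := h3.2
      rw [hθ x hx hk hxJ, hθ x' hx' hxk' hxJ']
      omega
  le := by
    intro x hx hk
    by_cases hJ : J1 x ∨ J2 x
    · rw [hθJ x hJ]
    · rw [hθ x hx hk hJ, H.lev x hx hk hJ]
      exact hle x hx hk hJ

lemma CoordJ.base_not_mem {J : P → Prop} (H : CoordJ R cp k J S co)
    (hB : ∀ x, x ∉ R → cp x = k → (B x ↔ ¬ J x ∧ co x = (α, β)))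
    {D : Finset P} (hD : Good i R B D)
    (hcell : ∃ x, x ∉ R ∧ cp x = k ∧ ¬ J x ∧ co x = (α, β)) :
    ∃ y, y ∉ D ∧ cp y = k ∧ ¬ J y ∧ co y = (α, β) := by
  obtain ⟨x, hx, hk, hJ, hcx⟩ := hcell
  exact ⟨x, fun h => hD.2.2.2 x h ((hB x hx hk).mpr ⟨hJ, hcx⟩), hk, hJ, hcx⟩

/-- the element below which the junk hangs, in the part outside `D` -/
lemma junk_end {J J' : P → Prop} {x1 : P} (h1 : Junk R cp k J x1)
    (hx1 : x1 ∉ R ∧ cp x1 = k ∧ ¬ J x1 ∧ ¬ J' x1)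
    {D : Finset P} (hD : Good i R B D) {f : P → ℕ} {g : P → ℕ}
    (hr1 : (∃ x, J x) → g x1 = 0 ∧ ∀ y, y ∉ R → cp y = k → ¬ J y → ¬ J' y → y ≠ x1 → f y < f x1)
    (z : {x : {x : P // x ∉ D} // cp (x : P) = k}) (hz : ¬ J z.1.1) (hz' : ¬ J' z.1.1) :
    ∃ w : {x : {x : P // x ∉ D} // cp (x : P) = k}, ¬ J w.1.1 ∧ ¬ J' w.1.1 ∧
      (∀ x y : {x : {x : P // x ∉ D} // cp (x : P) = k}, J x.1.1 → ¬ J y.1.1 →
        (x ≤ y ↔ w ≤ y)) ∧
      ((∃ x : {x : {x : P // x ∉ D} // cp (x : P) = k}, J x.1.1) → g w.1.1 = 0 ∧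
        ∀ y : {x : {x : P // x ∉ D} // cp (x : P) = k}, ¬ J y.1.1 → ¬ J' y.1.1 → y ≠ w →
          f y.1.1 < f w.1.1) := by
  by_cases hx : x1 ∈ D
  · have hno : ∀ x : {x : {x : P // x ∉ D} // cp (x : P) = k}, ¬ J x.1.1 := by
      intro x hJ
      exact x.1.2 (hD.1 _ _ (h1.mem _ hJ).2.2.le hx)
    exact ⟨z, hz, hz', fun x y hJ _ => (hno x hJ).elim, fun ⟨x, hJ⟩ => (hno x hJ).elim⟩
  · refine ⟨⟨⟨x1, hx⟩, hx1.2.1⟩, hx1.2.2.1, hx1.2.2.2, ?_, ?_⟩
    · intro x y hJ hJy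
      constructor
      · intro hxy
        exact (h1.anc _ _ hJ hxy).resolve_left hJy
      · intro hxy
        exact (h1.mem _ hJ).2.2.le.trans hxy
    · rintro ⟨x, hJ⟩
      obtain ⟨h3, h4⟩ := hr1 ⟨_, hJ⟩
      refine ⟨h3, fun y hy hy' hne => ?_⟩
      refine h4 y.1.1 (fun h => y.1.2 (hD.2.1 h)) y.2 hy hy' fun h => hne ?_
      exact Subtype.ext (Subtype.ext h)

/-- straight shapes with junk below the ends of the first row and of the first column -/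
theorem compDataJ_straight (hgr : GradedBelow P) (hcp : ∀ x y, x ≤ y → x ∉ R → cp x = cp y)
    (h1 : Junk R cp k J1 x1) (h2 : Junk R cp k J2 x2)
    (hx1 : x1 ∉ R ∧ cp x1 = k ∧ ¬ J1 x1 ∧ ¬ J2 x1) (hx2 : x2 ∉ R ∧ cp x2 = k ∧ ¬ J2 x2 ∧ ¬ J1 x2)
    (H : CoordJ R cp k (fun x => J1 x ∨ J2 x) (fun _ => True) co)
    (hr1 : (∃ x, J1 x) → (co x1).1 = 0 ∧
      ∀ y, y ∉ R → cp y = k → ¬ J1 y → ¬ J2 y → y ≠ x1 → (co y).2 < (co x1).2)
    (hr2 : (∃ x, J2 x) → (co x2).2 = 0 ∧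
      ∀ y, y ∉ R → cp y = k → ¬ J2 y → ¬ J1 y → y ≠ x2 → (co y).1 < (co x2).1)
    (hb1 : 1 ≤ b) (hbi : b ≤ i + 1)
    (hB : ∀ x, x ∉ R → cp x = k → (B x ↔ ¬ (J1 x ∨ J2 x) ∧ co x = (b - 1, i)))
    (hcell : ∃ x, x ∉ R ∧ cp x = k ∧ ¬ (J1 x ∨ J2 x) ∧ co x = (b - 1, i))
    (hθ : ∀ x, x ∉ R → cp x = k → ¬ (J1 x ∨ J2 x) →
      θ x = ((co x).1 - (b - 1)) + ((co x).2 - i))
    (hθJ : ∀ x, J1 x ∨ J2 x → θ x = lev x - i)
    (hrows : b = i + 1 ∨ ∀ x, x ∉ R → cp x = k → ¬ (J1 x ∨ J2 x) → (co x).1 ≤ b - 1) :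
    CompData R cp k i b θ B := by
  have hx1' : ¬ (J1 x1 ∨ J2 x1) := by rintro (h | h); exacts [hx1.2.2.1 h, hx1.2.2.2 h]
  have hx2' : ¬ (J1 x2 ∨ J2 x2) := by rintro (h | h); exacts [hx2.2.2.2 h, hx2.2.2.1 h]
  refine compDataJ_cells hgr hcp h1 h2 H hB hθ hθJ ?_ ?_ ?_ ?_
  · intro x hx hk hJ
    rcases hrows with h | h
    · omega
    · have := h x hx hk hJ
      omega
  · intro hex
    rw [hθ x1 hx1.1 hx1.2.1 hx1', H.lev x1 hx1.1 hx1.2.1 hx1', (hr1 hex).1]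
    omega
  · intro hex
    rw [hθ x2 hx2.1 hx2.2.1 hx2', H.lev x2 hx2.1 hx2.2.1 hx2', (hr2 hex).1]
    omega
  · intro D hD hdec
    classical
    have hR : ∀ x : {x : P // x ∉ D}, (x : P) ∉ R := fun x h => x.2 (hD.2.1 h)
    obtain ⟨z, hzD, hzk, hzJ, hzc⟩ := CoordJ.base_not_mem H hB hD hcell
    obtain ⟨w1, hw1, hw1', hh1, hrr1⟩ := junk_end h1 hx1 hD (f := fun x => (co x).2)
      (g := fun x => (co x).1) hr1 ⟨⟨z, hzD⟩, hzk⟩ (fun h => hzJ (Or.inl h)) (fun h => hzJ (Or.inr h))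
    obtain ⟨w2, hw2, hw2', hh2, hrr2⟩ := junk_end h2 hx2 hD (f := fun x => (co x).1)
      (g := fun x => (co x).2) hr2 ⟨⟨z, hzD⟩, hzk⟩ (fun h => hzJ (Or.inr h)) (fun h => hzJ (Or.inl h))
    refine young_junk_dvd (Q := {x : {x : P // x ∉ D} // cp (x : P) = k})
      (fun x => J1 x.1.1) (fun x => J2 x.1.1) (fun x => co x.1.1) w1 w2 hw1 hw1' hw2' hw2
      (fun x y hxy hy => h1.low _ _ hxy (hR _) hy) (fun x y hxy hy => h2.low _ _ hxy (hR _) hy)
      hh1 hh2 ?_ ?_ ?_ hrr1 (fun h => ?_) hbi ?_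
    · intro x y hx hx' hy hy' hxy
      exact Subtype.ext (Subtype.ext (H.inj _ _ (hR _) (hR _) x.2 y.2
        (by rintro (h | h); exacts [hx h, hx' h]) (by rintro (h | h); exacts [hy h, hy' h]) hxy))
    · intro x y hx hx' hy hy'
      exact H.le_iff _ _ (hR _) (hR _) x.2 y.2
        (by rintro (h | h); exacts [hx h, hx' h]) (by rintro (h | h); exacts [hy h, hy' h])
    · intro x hx hx' c hc
      have hxJ : ¬ (J1 x.1.1 ∨ J2 x.1.1) := by rintro (h | h); exacts [hx h, hx' h]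
      obtain ⟨y, hy, hyk, hyJ, hcy⟩ := H.low _ (hR x.1) x.2 hxJ c hc trivial
      have hyD : y ∉ D := by
        intro h
        refine x.1.2 (hD.1 _ y ?_ h)
        rw [H.le_iff _ y (hR _) hy x.2 hyk hxJ hyJ, hcy]
        exact hc
      exact ⟨⟨⟨y, hyD⟩, hyk⟩, fun h => hyJ (Or.inl h), fun h => hyJ (Or.inr h), hcy⟩
    · obtain ⟨h3, h4⟩ := hrr2 h
      exact ⟨h3, fun y hy hy' hne => h4 y hy' hy hne⟩
    · intro s hs
      have : s = b - 1 := by omega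
      rw [this]
      exact ⟨⟨⟨z, hzD⟩, hzk⟩, fun h => hzJ (Or.inl h), fun h => hzJ (Or.inr h), hzc⟩

/-- shifted shapes with junk below the end of the first row -/
theorem compDataJ_shifted (hgr : GradedBelow P) (hcp : ∀ x y, x ≤ y → x ∉ R → cp x = cp y)
    (h1 : Junk R cp k J1 x1)
    (hx1 : x1 ∉ R ∧ cp x1 = k ∧ ¬ J1 x1)
    (H : CoordJ R cp k J1 (fun c => c.1 ≤ c.2) co)
    (hr1 : (∃ x, J1 x) → (co x1).1 = 0 ∧
      ∀ y, y ∉ R → cp y = k → ¬ J1 y → y ≠ x1 → (co y).2 < (co x1).2)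
    (hB : ∀ x, x ∉ R → cp x = k → (B x ↔ ¬ J1 x ∧ co x = (2 * (i / 2), i)))
    (hcell : ∃ x, x ∉ R ∧ cp x = k ∧ ¬ J1 x ∧ co x = (2 * (i / 2), i))
    (hθ : ∀ x, x ∉ R → cp x = k → ¬ J1 x →
      θ x = ((co x).1 - 2 * (i / 2)) + ((co x).2 - i))
    (hθJ : ∀ x, J1 x → θ x = lev x - i) :
    CompData R cp k i (i / 2 + 1) θ B := by
  have hsimp : (fun x => J1 x ∨ J1 x) = J1 := by funext x; simp
  refine compDataJ_cells (J1 := J1) (J2 := J1) (x1 := x1) (x2 := x1) (S := fun c => c.1 ≤ c.2)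
    (co := co) (α := 2 * (i / 2)) (β := i) hgr hcp h1 h1 (by rw [hsimp]; exact H) ?_ ?_ ?_ ?_ ?_ ?_ ?_
  · intro x hx hk
    rw [or_self]
    exact hB x hx hk
  · intro x hx hk
    rw [or_self]
    exact hθ x hx hk
  · intro x
    rw [or_self]
    exact hθJ x
  · intro x hx hk hJ
    rw [or_self] at hJ
    have := H.mem x hx hk hJ
    omega
  · intro hex
    rw [hθ x1 hx1.1 hx1.2.1 hx1.2.2, H.lev x1 hx1.1 hx1.2.1 hx1.2.2, (hr1 hex).1]
    omega
  · intro hex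
    rw [hθ x1 hx1.1 hx1.2.1 hx1.2.2, H.lev x1 hx1.1 hx1.2.1 hx1.2.2, (hr1 hex).1]
    omega
  · intro D hD hdec
    classical
    have hR : ∀ x : {x : P // x ∉ D}, (x : P) ∉ R := fun x h => x.2 (hD.2.1 h)
    obtain ⟨z, hzD, hzk, hzJ, hzc⟩ := CoordJ.base_not_mem H hB hD hcell
    obtain ⟨w1, hw1, -, hh1, hrr1⟩ := junk_end (J' := J1) h1 ⟨hx1.1, hx1.2.1, hx1.2.2, hx1.2.2⟩ hD
      (f := fun x => (co x).2) (g := fun x => (co x).1)
      (fun h => ⟨(hr1 h).1, fun y hy hyk hJ _ hne => (hr1 h).2 y hy hyk hJ hne⟩)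
      ⟨⟨z, hzD⟩, hzk⟩ hzJ hzJ
    refine shift_junk_dvd (Q := {x : {x : P // x ∉ D} // cp (x : P) = k})
      (fun x => J1 x.1.1) (fun x => co x.1.1) w1 hw1
      (fun x y hxy hy => h1.low _ _ hxy (hR _) hy) hh1 ?_ ?_ ?_ ?_ (fun h => ?_) ?_
    · intro x y hx hy hxy
      exact Subtype.ext (Subtype.ext (H.inj _ _ (hR _) (hR _) x.2 y.2 hx hy hxy))
    · intro x hx
      exact H.mem _ (hR _) x.2 hx
    · intro x y hx hy
      exact H.le_iff _ _ (hR _) (hR _) x.2 y.2 hx hy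
    · intro x hx c hc hS
      obtain ⟨y, hy, hyk, hyJ, hcy⟩ := H.low _ (hR x.1) x.2 hx c hc hS
      have hyD : y ∉ D := by
        intro h
        refine x.1.2 (hD.1 _ y ?_ h)
        rw [H.le_iff _ y (hR _) hy x.2 hyk hx hyJ, hcy]
        exact hc
      exact ⟨⟨⟨y, hyD⟩, hyk⟩, hyJ, hcy⟩
    · obtain ⟨h3, h4⟩ := hrr1 h
      exact ⟨h3, fun y hy hne => h4 y hy hy hne⟩
    · exact ⟨⟨⟨z, hzD⟩, hzk⟩, hzJ, hzc⟩

end Cells

end Pool.Agent.GaussPoset
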