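import Pool.Agent.W_448fy_h63.YE

/-!
Hanging a poset below one element: the order of the window polynomial of `Q0` with an arbitrary
poset `T` hung below `x0` follows from the case of chains.
-/

namespace Pool.Agent.GaussPoset

set_option linter.unusedSectionVars false

open Finset

universe u v

/-- generating functions of isomorphic posets -/
theorem U_iso {Q : Type u} {R : Type v} [Fintype Q] [PartialOrder Q] [Fintype R] [PartialOrder R]
    (e : Q ≃o R) (m : ℕ) : U Q m = U R m := by
  classical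
  unfold U
  refine Finset.sum_bij' (fun σ _ x => σ (e.symm x)) (fun τ _ x => τ (e x)) ?_ ?_ ?_ ?_ ?_
  · intro σ hσ
    simp only [mem_filter, mem_univ, true_and] at hσ ⊢
    exact fun x y hxy => hσ (e.symm.monotone hxy)
  · intro τ hτ
    simp only [mem_filter, mem_univ, true_and] at hτ ⊢
    exact fun x y hxy => hτ (e.monotone hxy)
  · intro σ _
    funext x
    simp
  · intro τ _
    funext x
    simp
  · intro σ _
    congr 1
    exact (Equiv.sum_comp e.symm.toEquiv (fun x => ((σ x : ℕ)))).symm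

/-- window polynomials of isomorphic posets -/
theorem W_iso {Q : Type u} {R : Type v} [Fintype Q] [PartialOrder Q] [DecidableEq Q] [Fintype R]
    [PartialOrder R] [DecidableEq R] (e : Q ≃o R) (i : ℕ) : W Q i = W R i := by
  apply Polynomial.eq_of_infinite_eval_eq
  have hinj : Function.Injective (fun m : ℕ => -(PowerSeries.X : PowerSeries ℤ) ^ (i + m + 1)) := by
    intro a b hab
    simp only [neg_inj] at hab
    have := congrArg PowerSeries.order hab
    rw [PowerSeries.order_X_pow, PowerSeries.order_X_pow] at this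
    have h2 : i + a + 1 = i + b + 1 := by exact_mod_cast this
    omega
  refine Set.infinite_of_injective_forall_mem hinj fun m => ?_
  simp only [Set.mem_ofPred_eq]
  rw [W_eval, W_eval, U_iso e m, Fintype.card_congr e.toEquiv]

/-- `T` hung below `x0` -/
def Hang (Q : Type u) (T : Type v) (_ : Q) := Q ⊕ T

section Hang

variable {Q : Type u} {T : Type v} [PartialOrder Q] [PartialOrder T] {x0 : Q}

/-- the order of a hanging -/
def Hang.le : Hang Q T x0 → Hang Q T x0 → Prop
  | Sum.inl x, Sum.inl y => x ≤ y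
  | Sum.inr s, Sum.inr t => s ≤ t
  | Sum.inr _, Sum.inl y => x0 ≤ y
  | Sum.inl _, Sum.inr _ => False

instance : PartialOrder (Hang Q T x0) where
  le := Hang.le
  le_refl := by
    rintro (x | t)
    · exact le_refl x
    · exact le_refl t
  le_trans := by
    rintro (x | x) (y | y) (z | z) h1 h2
    · exact le_trans (a := x) h1 h2
    · exact h2
    · exact h1.elim
    · exact h1.elim
    · exact le_trans (a := x0) h1 h2
    · exact h2.elim
    · exact h2
    · exact le_trans (a := x) h1 h2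
  le_antisymm := by
    rintro (x | x) (y | y) h1 h2
    · exact congrArg Sum.inl (le_antisymm (a := x) h1 h2)
    · exact h1.elim
    · exact h2.elim
    · exact congrArg Sum.inr (le_antisymm (a := x) h1 h2)

instance [Fintype Q] [Fintype T] : Fintype (Hang Q T x0) := inferInstanceAs (Fintype (Q ⊕ T))

instance [DecidableEq Q] [DecidableEq T] : DecidableEq (Hang Q T x0) :=
  inferInstanceAs (DecidableEq (Q ⊕ T))

lemma Hang.inl_le_inl {x y : Q} : @LE.le (Hang Q T x0) _ (Sum.inl x) (Sum.inl y) ↔ x ≤ y :=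
  Iff.rfl

lemma Hang.inr_le_inr {s t : T} : @LE.le (Hang Q T x0) _ (Sum.inr s) (Sum.inr t) ↔ s ≤ t :=
  Iff.rfl

lemma Hang.inr_le_inl {s : T} {y : Q} :
    @LE.le (Hang Q T x0) _ (Sum.inr s) (Sum.inl y) ↔ x0 ≤ y := Iff.rfl

lemma Hang.not_inl_le_inr {x : Q} {t : T} :
    ¬ @LE.le (Hang Q T x0) _ (Sum.inl x) (Sum.inr t) := fun h => h

variable [Fintype Q] [Fintype T]

open Classical in
/-- generating function with an upper bound -/
lemma U_le {m k : ℕ} (hk : k ≤ m) : U T k = ∑ τ ∈ (univ : Finset (T → Fin (m + 1))).filter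
    (fun τ : T → Fin (m + 1) => Monotone τ ∧ ∀ t, (τ t : ℕ) ≤ k), (Polynomial.X : Polynomial ℤ) ^ (∑ t, (τ t : ℕ)) := by
  classical
  unfold U
  refine Finset.sum_bij' (fun σ _ t => (⟨(σ t : ℕ), by have := (σ t).2; omega⟩ : Fin (m + 1)))
    (fun τ _ t => (⟨(τ t : ℕ) % (k + 1), Nat.mod_lt _ (Nat.succ_pos k)⟩ : Fin (k + 1)))
    ?_ ?_ ?_ ?_ ?_
  · intro σ hσ
    simp only [mem_filter, mem_univ, true_and] at hσ ⊢
    exact ⟨fun x y hxy => hσ hxy, fun t => by have := (σ t).2; omega⟩
  · intro τ hτ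
    simp only [mem_filter, mem_univ, true_and] at hτ ⊢
    intro x y hxy
    rw [Fin.le_def]
    simp only
    rw [Nat.mod_eq_of_lt (by have := hτ.2 x; omega), Nat.mod_eq_of_lt (by have := hτ.2 y; omega)]
    exact hτ.1 hxy
  · intro σ _
    funext t
    apply Fin.ext
    simp only
    exact Nat.mod_eq_of_lt (σ t).2
  · intro τ hτ
    simp only [mem_filter, mem_univ, true_and] at hτ
    funext t
    apply Fin.ext
    simp only
    exact Nat.mod_eq_of_lt (by have := hτ.2 t; omega)
  · intro σ _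
    rfl

open Classical in
/-- generating function of a hanging -/
theorem U_hang (m : ℕ) : U (Hang Q T x0) m =
    ∑ σ ∈ (univ : Finset (Q → Fin (m + 1))).filter (fun σ => Monotone σ),
      (Polynomial.X : Polynomial ℤ) ^ (∑ x, (σ x : ℕ)) * U T (σ x0) := by
  have h1 : ∀ σ : Q → Fin (m + 1), (Polynomial.X : Polynomial ℤ) ^ (∑ x, (σ x : ℕ)) * U T (σ x0) =
      ∑ τ ∈ (univ : Finset (T → Fin (m + 1))).filter
        (fun τ : T → Fin (m + 1) => Monotone τ ∧ ∀ t, (τ t : ℕ) ≤ σ x0),
        (Polynomial.X : Polynomial ℤ) ^ (∑ x, (σ x : ℕ) + ∑ t, (τ t : ℕ)) := by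
    intro σ
    rw [U_le (show ((σ x0 : ℕ)) ≤ m by have := (σ x0).2; omega), Finset.mul_sum]
    exact Finset.sum_congr rfl fun τ _ => (pow_add _ _ _).symm
  rw [Finset.sum_congr rfl (fun σ _ => h1 σ), Finset.sum_sigma']
  unfold U
  refine Finset.sum_bij' (fun ρ _ => ⟨fun x => ρ (Sum.inl x), fun t => ρ (Sum.inr t)⟩)
    (fun p _ => Sum.elim p.1 p.2) ?_ ?_ ?_ ?_ ?_
  · intro ρ hρ
    simp only [mem_filter, mem_univ, true_and, mem_sigma] at hρ ⊢
    refine ⟨fun x y hxy => hρ (Hang.inl_le_inl.mpr hxy), fun s t hst => hρ (Hang.inr_le_inr.mpr hst),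
      fun t => ?_⟩
    exact hρ (Hang.inr_le_inl.mpr (le_refl x0))
  · rintro ⟨σ, τ⟩ hp
    simp only [mem_filter, mem_univ, true_and, mem_sigma] at hp ⊢
    rintro (x | x) (y | y) hxy
    · exact hp.1 hxy
    · exact hxy.elim
    · exact le_trans (Fin.le_def.mpr (hp.2.2 x)) (hp.1 hxy)
    · exact hp.2.1 hxy
  · intro ρ _
    funext x
    rcases x with x | x <;> rfl
  · rintro ⟨σ, τ⟩ _
    rfl
  · intro ρ _
    congr 1
    exact Fintype.sum_sum_type (fun x : Q ⊕ T => ((ρ x : Fin (m + 1)) : ℕ))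

end Hang

end Pool.Agent.GaussPoset
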