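import Pool.Agent.W_448s7_h27.EwR

/-!
Window `4`: elimination of the joins of large drop, expensive fold joins (MP_448cb3_co, S7).
-/

namespace Pool.Agent.GaussPoset.Ec

set_option linter.unusedSectionVars false

open Polynomial Finset Sm Wd Cp W4 Cl

universe u

variable {P : Type u} [Fintype P] [PartialOrder P] [DecidableEq P] {r j : ℕ}
  {lo hi : Tops P → ℕ → ℕ} {e : Tops P → ℕ → ℕ → P} {N : Tops P → Finset P}
  {θ3 θ4 : Tops P → P → ℕ} {Nf : Tops P → Finset P} {θf : Tops P → (ℕ → ℕ → ℕ) → P → ℕ}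
  {D : Tops P → Prop} {K3 K' V3 : ℕ} {b : Tops P → ℕ}

/-- the own element (C) is expensive, or there are no fold joins -/
def HnO (P : Type u) [Fintype P] [PartialOrder P] [DecidableEq P] (j K' : ℕ) : Prop :=
  j % 2 = 0 → K' < foC 4 j + foE 4 j ∨ ∀ z x x' : P, Cg z x x' → lev z = j + 1 → ¬ Fold j x

/-- the fold joins with the label `j - 5` do not have the cost `n` -/
def HnF (P : Type u) [Fintype P] [PartialOrder P] [DecidableEq P] (j n : ℕ) : Prop :=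
  ∀ z x x' : P, FJn j z x x' → cst 4 (fun _ => j - 5) z ≠ n

lemma hnO_odd {j K' : ℕ} (hj : j % 2 = 1) : HnO P j K' := fun h => by omega

lemma hnO_nf {j K' : ℕ} (h : Sm.NF P j) : HnO P j K' := fun _ => Or.inr h

lemma hnF_nf {j n : ℕ} (h : Sm.NF P j) : HnF P j n := fun z x x' hz =>
  absurd hz.2.2 (h z x x' hz.1 hz.2.1)

/-- **Elimination at window `4`.** -/
theorem Fs.killG (F : Fs P j lo hi e N θ4 Nf θf D) (K : Ctx P r j lo hi e) (h12 : 12 ≤ j)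
    (Y : Y4 r j K3 K' V3 N b θ3 θ4) (hno : HnO P j K')
    {n d : ℕ} (hn : n ≤ K') (hFo : HnF P j n)
    (hjn : ∀ z x x' : P, Cg z x x' → n ≤ ful 4 z)
    {good : Tops P → (P → ℕ) → ℕ → Prop} (hdv : HDv P n d N θ4 Nf D good)
    (hK : ∀ e' F', Vd 4 e' F' → ∑ x, e' x = n → Ew.Ok (rA N) (thA N θ4) e' →
      (El.KG (ED D) Nf good e').card ≤ d) {p : ℕ}
    (hp : ∀ z x x' : P, Cg z x x' → ful 4 z = n → d + 2 ≤ nab 4 z →
      nst 4 (fun z => lev z - 4) z % 2 = p) :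
    ∀ z x x' : P, Cg z x x' → ful 4 z = n → nab 4 z ≤ d + 1 := by
  obtain ⟨h1, h2, h3⟩ := Y.own_noise hno hn hjn
  exact (F.class_par K h12 Y (d := d) (p := p) h1
    (fun z hz hc => Or.inl ⟨(h3 z hz hc).1, (h3 z hz hc).2.1, by
      rw [hc]; exact (h3 z hz hc).2.2.1, (h3 z hz hc).2.2.2⟩)
    (fun c0 hc hle => F.gsum_gen K h12 Y hdv (fun x hx => (h2 x hx).le) h1 hK hc hle)
    hp (fun z x x' h hc _ => absurd hc (hFo z x x' h))).1

/-- **Elimination at window `4`, `j = 14`**, costs at most `191`. -/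
theorem Fs.killG14 (F : Fs P 14 lo hi e N θ4 Nf θf D) (K : Ctx P r 14 lo hi e)
    (Y : Y4 r 14 K3 K' V3 N b θ3 θ4) (hno : HnO P 14 K')
    {n : ℕ} (hn : n ≤ K') (hFo : HnF P 14 n) (h191 : n ≤ 191)
    (hjn : ∀ z x x' : P, Cg z x x' → n ≤ ful 4 z) {p : ℕ}
    (hp : ∀ z x x' : P, Cg z x x' → ful 4 z = n → 3 ≤ nab 4 z →
      nst 4 (fun z => lev z - 4) z % 2 = p) :
    ∀ z x x' : P, Cg z x x' → ful 4 z = n → nab 4 z ≤ 2 := by
  obtain ⟨k1, k2, k3⟩ := cw14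
  exact F.killG K (by norm_num) Y hno hn hFo hjn (d := 1)
    (F.hdv14 K Y (fun x hx => hn.trans_lt (Y.out_tw hx)))
    (fun e' F' hV hs hok => F.card_le_one K (by norm_num) Y row5_14 (cS := 100) de_14 k2
      (Or.inl rfl) k3 (by omega) (by omega) (by omega) (Or.inr ⟨by omega, Or.inl (by omega)⟩)
      hV hs hok) hp

/-- **Elimination at window `4`, `j = 16`**. -/
theorem Fs.killG16 (F : Fs P 16 lo hi e N θ4 Nf θf D) (K : Ctx P r 16 lo hi e)
    (Y : Y4 r 16 K3 K' V3 N b θ3 θ4) (hno : HnO P 16 K')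
    {n : ℕ} (hn : n ≤ K') (hFo : HnF P 16 n)
    (hE : n ≤ 232 ∨ (n ≤ 241 ∧ ¬ ∃ z, E2 16 lo hi e N Nf D z) ∨
      (n ≤ 255 ∧ (¬ ∃ z, E2 16 lo hi e N Nf D z) ∧ ¬ ∃ z, Own 16 lo hi e N Nf D z))
    (hjn : ∀ z x x' : P, Cg z x x' → n ≤ ful 4 z) {p : ℕ}
    (hp : ∀ z x x' : P, Cg z x x' → ful 4 z = n → 3 ≤ nab 4 z →
      nst 4 (fun z => lev z - 4) z % 2 = p) :
    ∀ z x x' : P, Cg z x x' → ful 4 z = n → nab 4 z ≤ 2 := by
  obtain ⟨k1, k2, k3, k4, k5, k6⟩ := c16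
  have k7 := k6.1
  refine F.killG K (by norm_num) Y hno hn hFo hjn (d := 1)
    (F.hdv_plain K (by norm_num) Y (fun x hx => hn.trans_lt (Y.out_tw hx)))
    (fun e' F' hV hs hok => ?_) hp
  rcases hE with h | h | h
  · exact F.card_le_one K (by norm_num) Y row5_16 (cS := 144) de_16 k4 (Or.inr rfl) k6
      (by omega) (by omega) (by omega) (Or.inr ⟨by omega, Or.inr (by omega)⟩) hV hs hok
  · exact F.card_le_one K (by norm_num) Y row5_16 (cS := 144) de_16 k4 (Or.inr rfl) k6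
      (by omega) (by omega) (by omega) (Or.inl h.2) hV hs hok
  · exact F.card_le_one16 K Y (by omega) h.2.2 h.2.1 hV hs hok

/-- the costs of the boundary elements are larger than `n`, if those of the joins are -/
lemma min_ltG (Y : Y4 r j K3 K' V3 N b θ3 θ4) (hno : HnO P j K') {n : ℕ} (hn : n ≤ K')
    (hjn : ∀ z x x' : P, Cg z x x' → n + 1 ≤ ful 4 z) :
    ∀ z ∈ bdR (rA N), n < cst 4 (hA N θ4) z := by
  obtain ⟨h1, -, h3⟩ := Y.own_noise hno hn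
    (fun z x x' h => (Nat.le_succ n).trans (hjn z x x' h))
  intro z hz
  refine lt_of_le_of_ne (h1 z hz) fun h => ?_
  obtain ⟨-, -, h4, x, x', h5⟩ := h3 z hz h.symm
  have := hjn z x x' h5
  omega

/-- **No join of two `E7` tops**, `j = 16`. -/
theorem Fs.no_E2_16 (F : Fs P 16 lo hi e N θ4 Nf θf D) (K : Ctx P r 16 lo hi e)
    (Y : Y4 r 16 K3 K' V3 N b θ3 θ4) (hno : HnO P 16 K') (hn : 233 ≤ K')
    (hjn : ∀ z x x' : P, Cg z x x' → 234 ≤ ful 4 z) : ¬ ∃ z, E2 16 lo hi e N Nf D z := by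
  obtain ⟨k1, k2, k3, k4, k5, k6⟩ := c16
  exact F.no_E2 K (by norm_num) Y row5_16 (cS := 144) (h2 := 9) de_16 k4
    (Or.inr rfl) k6 (by norm_num) (by norm_num) (by norm_num)
    (F.hdv_plain K (by norm_num) Y (fun x hx => hn.trans_lt (Y.out_tw hx)))
    (min_ltG Y hno hn hjn) (by rw [k1]) (by norm_num)
    (Or.inl ⟨rfl, rfl⟩) k2 k3 (by norm_num)

/-- **No own elements of `E7` of level `17`**, `j = 16`. -/
theorem Fs.no_own_16 (F : Fs P 16 lo hi e N θ4 Nf θf D) (K : Ctx P r 16 lo hi e)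
    (Y : Y4 r 16 K3 K' V3 N b θ3 θ4) (hno : HnO P 16 K') (hn : 121 ≤ K')
    (hjn : ∀ z x x' : P, Cg z x x' → 122 ≤ ful 4 z) : ¬ ∃ z, Own 16 lo hi e N Nf D z :=
  F.no_own K Y (F.hdv_plain K (by norm_num) Y (fun x hx => hn.trans_lt (Y.out_tw hx)))
    (min_ltG Y hno hn hjn)

end Pool.Agent.GaussPoset.Ec
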