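import Pool.Agent.W_448s7_h27.PhG
import Pool.Agent.W_448s7_h27.EwT

/-!
The machine of the windows `0, …, 4` with other lists of sides (MP_448cb3_co, S7).
-/

namespace Pool.Agent.GaussPoset.Sm

set_option linter.unusedSectionVars false

open Finset Wd Cl

universe u

/-- the sides with two elements on the level `4` are `E7` sides -/
def ChkO (j : ℕ) : Prop :=
  ∀ a ∈ range (j + 1), 4 ≤ a → ∀ w ∈ wds j a, w.length = j - a →
    ∀ A ∈ (Icc (Wd.Lw w (w.length + 3)) (Wd.Hw w (w.length + 3))).powerset, A.Nonempty →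
      x4A w A a ≠ 0 → a = 4 ∧ w = w7.take (j - 4)

instance (j : ℕ) : Decidable (ChkO j) := by unfold ChkO; infer_instance

open Ec W4

variable {P : Type u} [Fintype P] [PartialOrder P] [DecidableEq P] {r j w : ℕ}
  {lo hi : Tops P → ℕ → ℕ} {e : Tops P → ℕ → ℕ → P}

/-- the cheap lines are in the tables -/
def MemF (P : Type u) [Fintype P] [PartialOrder P] [DecidableEq P] (j W : ℕ) (cap : ℕ → ℤ)
    (tA tB : List (List ℤ)) : Prop :=
  ∀ z x x' : P, Cg z x x' → Sok j x → Sok j x' → ∀ w : ℕ, w ≤ W →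
    kapZ j z * (j - w) + gZ j z ≤ cap w →
    ∃ f, nab 4 z = f + 2 ∧ aF tA tB f (kapZ j z) (gZ j z) = true

/-- the data of the sides -/
structure SdL (P : Type u) [Fintype P] [PartialOrder P] [DecidableEq P] (j : ℕ)
    (S1 S2 : List (ℕ × ℕ × ℕ × ℕ)) : Prop where
  one : ∀ {x : P}, x ∈ onlyB (topOf x) → lev x = j + 1 → ¬ Fatt j x →
    ∃ m c b f : ℕ, (m, c, b, f) ∈ S1 ∧ mX j x = m ∧ cX j x = c ∧ (nab j x : ℤ) - 1 = b ∧
      nab 4 x = f + 1
  two : ∀ {x : P}, x ∈ onlyB (topOf x) → j + 1 ≤ lev x → ¬ Fatt j x →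
    ∃ m c b f : ℕ, (m, c, b, f) ∈ S2 ∧ mX j x = m ∧ cX j x = c ∧ (nab j x : ℤ) - 1 = b ∧
      nab 4 x = f + 1

theorem Ctx.sdL (K : Ctx P r j lo hi e) (h12 : 12 ≤ j) {S1 S2 : List (ℕ × ℕ × ℕ × ℕ)}
    (h1 : ChkT4 j S1) (h2 : ChkS4 j S2) (h10 : (0, 0, 0, 0) ∈ S1) (h20 : (0, 0, 0, 0) ∈ S2) :
    SdL P j S1 S2 where
  one := fun hx hl hf => K.side14 h12 hx hl hf h1 h10
  two := fun hx hl hf => K.side4 h12 hx hl hf h2 h20

/-- the tables; `X` = the excluded pairs of ends -/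
structure TabG (j W : ℕ) (cap : ℕ → ℤ) (tA tB : List (List ℤ)) (E S1 S2 : List (ℕ × ℕ × ℕ × ℕ))
    (X : ℕ × ℕ × ℕ → ℕ × ℕ × ℕ → Bool) : Prop where
  h12 : 12 ≤ j
  wj : W < j
  e : ChkE4 j E
  e0 : (0, 0, 0, 0) ∈ E
  c0 : chk0F j W cap tA tB E X = true
  c1 : chk1F j W cap tA tB S1 = true
  c2 : chk2F j W cap tA tB S2 = true
  cb : chkBF j W cap S2 = true

/-- **the cheap lines are in the table** -/
theorem Ctx.memF_of (K : Ctx P r j lo hi e) {X : ℕ × ℕ × ℕ → ℕ × ℕ × ℕ → Bool} (hN : NoP P j X)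
    {W : ℕ} {cap : ℕ → ℤ} {tA tB : List (List ℤ)} {E S1 S2 : List (ℕ × ℕ × ℕ × ℕ)}
    (T : TabG j W cap tA tB E S1 S2 X) (Sd : SdL P j S1 S2)
    : MemF P j W cap tA tB := by
  intro z x x' h hs hs' w hw hc
  have H := K.gt.H
  have h12 := T.h12
  have hl := K.lev_ge h
  obtain ⟨l1, l2⟩ := h.lev_eq H
  obtain ⟨k1, k2, k3, k4, k5, k6⟩ := h.line H hl
  obtain ⟨q, hq⟩ : ∃ q, lev z = j + 1 + q := ⟨lev z - (j + 1), by omega⟩
  have hqz : (lev z : ℤ) - (j + 1) = q := by rw [hq]; push_cast; ring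
  rw [hqz] at k1 k2 k5
  have h4 : nab 4 z = nab 4 x + nab 4 x' := h.sum H (by omega)
  rcases Nat.lt_or_ge q 1 with h0 | h0
  · -- level `j + 1`
    have hlz : lev z = j + 1 := by omega
    obtain ⟨s, s', g1, g1', d1, d1', e1, e2, e3⟩ := K.pairF h12 T.e T.e0 h hlz hs hs'
    refine ⟨_, e3, ?_⟩
    have h1 := T.c0
    unfold chk0F at h1
    rw [List.all_eq_true] at h1
    have h2 := h1 _ g1
    rw [List.all_eq_true] at h2
    have h3 := h2 _ g1'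
    rw [hN z x x' h hlz _ _ d1 d1', Bool.false_or] at h3
    rw [e1, e2] at hc ⊢
    exact okF_at h3 hw hc
  · rcases Nat.lt_or_ge q 2 with h1q | h1q
    · obtain rfl : q = 1 := by omega
      obtain ⟨m, c, b, f, g1, g2, g3, g4, g5⟩ := Sd.one h.only (by omega) hs.1
      obtain ⟨m', c', b', f', g1', g2', g3', g4', g5'⟩ := Sd.one h.only' (by omega) hs'.1
      obtain ⟨n0, d0⟩ := k6 (by omega)
      have e1 : kapZ j z = 2 + ((m : ℤ) + m') + ((b : ℤ) + b') := by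
        rw [k1, n0, g4, g4', g2, g2']
        push_cast; ring
      have e2 : gZ j z = 3 - ((c : ℤ) + c') := by
        rw [k2, d0, g3, g3']
        push_cast; ring
      refine ⟨f + f', by rw [h4, g5, g5']; ring, ?_⟩
      have h1 := T.c1
      unfold chk1F at h1
      rw [List.all_eq_true] at h1
      have h2 := h1 _ g1
      rw [List.all_eq_true] at h2
      have h3 := h2 _ g1'
      rw [e1, e2] at hc ⊢
      exact okF_at h3 hw hc
    · obtain ⟨m, c, b, f, g1, g2, g3, g4, g5⟩ := Sd.two h.only (by omega) hs.1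
      obtain ⟨m', c', b', f', g1', g2', g3', g4', g5'⟩ := Sd.two h.only' (by omega) hs'.1
      obtain ⟨n, hn⟩ : ∃ n : ℕ, nJ j z = n := ⟨(nJ j z).toNat, (Int.toNat_of_nonneg k3).symm⟩
      obtain ⟨d, hd⟩ : ∃ d : ℕ, dJ j z = d :=
        ⟨(dJ j z).toNat, (Int.toNat_of_nonneg (k3.trans k4)).symm⟩
      rw [hn, hd] at k4 k5
      have e1 : kapZ j z = 2 * (q : ℤ) + ((m : ℤ) + m') + ((b : ℤ) + b') + n := by
        rw [k1, hn, g4, g4', g2, g2']
      have e2 : gZ j z = (q : ℤ) * q + 2 * q - ((c : ℤ) + c') + d := by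
        rw [k2, hd, g3, g3']
      refine ⟨f + f', by rw [h4, g5, g5']; ring, ?_⟩
      have hB := T.cb
      unfold chkBF at hB
      rw [List.all_eq_true] at hB
      have hB1 := hB w (List.mem_range.mpr (by omega))
      rw [Bool.and_eq_true, decide_eq_true_eq, List.all_eq_true] at hB1
      have b1 := hB1.2 _ g1
      have b2 := hB1.2 _ g1'
      rw [decide_eq_true_eq] at b1 b2
      simp only at b1 b2
      have hjw : (0 : ℤ) < (j : ℤ) - w := by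
        have := T.wj
        omega
      have e5 : kapZ j z * ((j : ℤ) - w) + gZ j z =
          (2 * (q : ℤ) + ((b : ℤ) + b') + n) * ((j : ℤ) - w) +
            (m * ((j : ℤ) - w) - c) + (m' * ((j : ℤ) - w) - c') + (q : ℤ) * q + 2 * q + d := by
        rw [e1, e2]; ring
      have hqn : 2 * q + n ≤ 8 := by
        by_contra hcon
        push Not at hcon
        have e6 : (9 : ℤ) ≤ 2 * (q : ℤ) + ((b : ℤ) + b') + n := by
          have : (9 : ℤ) ≤ 2 * (q : ℤ) + n := by exact_mod_cast hcon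
          have := Int.natCast_nonneg b
          have := Int.natCast_nonneg b'
          linarith
        have e7 : 9 * ((j : ℤ) - w) ≤ (2 * (q : ℤ) + ((b : ℤ) + b') + n) * ((j : ℤ) - w) :=
          mul_le_mul_of_nonneg_right e6 hjw.le
        have e8 : (0 : ℤ) ≤ (q : ℤ) * q + 2 * q + d := by positivity
        linarith [hB1.1]
      have h1 := T.c2
      unfold chk2F at h1
      rw [List.all_eq_true] at h1
      have h2 := h1 _ g1
      rw [List.all_eq_true] at h2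
      have h3 := h2 _ g1'
      rw [List.all_eq_true] at h3
      have h4 := h3 q (List.mem_range.mpr (by omega))
      rw [Bool.or_eq_true, decide_eq_true_eq] at h4
      have h5 := h4.resolve_left (by omega)
      rw [List.all_eq_true] at h5
      have h6 := h5 n (List.mem_range.mpr (by omega))
      rw [List.all_eq_true] at h6
      have k5' : d ≤ (q - 1) * n := by
        have : (d : ℤ) ≤ ((q - 1 : ℕ) : ℤ) * n := by
          rw [Nat.cast_sub (by omega)]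
          exact_mod_cast k5
        exact_mod_cast this
      have h7 := h6 d (List.mem_range.mpr (by omega))
      rw [Bool.or_eq_true, decide_eq_true_eq] at h7
      have h8 := h7.resolve_left (by
        have : (n : ℤ) ≤ d := k4
        have : n ≤ d := by exact_mod_cast this
        omega)
      rw [e1, e2] at hc ⊢
      exact okF_at h8 hw hc


section

variable {X : ℕ × ℕ × ℕ → ℕ × ℕ × ℕ → Bool} {cap : ℕ → ℤ} {tA tB : List (List ℤ)}
  {E S1 S2 : List (ℕ × ℕ × ℕ × ℕ)} {nO nE : ℕ → ℤ → Bool} {lb V : ℕ → ℤ} {u XL : List ℤ} {W : ℕ}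

/-- allowed lines -/
lemma MemF.mem_aX (hM : MemF P j W cap tA tB) (hS : StF P j V u XL) {z x x' : P}
    (h : Cg z x x') (hs : Sok j x) (hs' : Sok j x') (hw : w ≤ W)
    (hc : kapZ j z * (j - w) + gZ j z ≤ cap w) :
    (nab 4 z = 2 ∧ aT tA (kapZ j z) (gZ j z) = true) ∨
      (3 ≤ nab 4 z ∧ aT tB (kapZ j z) (gZ j z) = true ∧
        kapZ j z * (j - 4) + gZ j z ∉ XL) := by
  obtain ⟨f, h1, h2⟩ := hM z x x' h hs hs' w hw hc
  unfold aF at h2
  split_ifs at h2 with hf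
  · left
    exact ⟨by omega, h2⟩
  · right
    refine ⟨by omega, h2, fun hm => ?_⟩
    have := hS.kill z x x' h hs hs' hm
    omega

theorem MemF.sys (hM : MemF P j W cap tA tB) (hW : 3 ≤ W) (hlen : tB.length = tA.length)
    (hB : Bals P j cap nO nE lb V) (hS : StF P j V u XL) :
    Sys (j : ℤ) 3 cap (aX tA tB XL j) nO nE (odds tA.length) (evens tA.length) V
      (fun κ g => ∃ z x x' : P, Cg z x x' ∧ Sok j x ∧ Sok j x' ∧ κ = kapZ j z ∧ g = gZ j z) := by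
  refine ⟨?_, ?_, ?_, ?_⟩
  · rintro κ g ⟨z, x, x', h, hs, hs', rfl, rfl⟩ w hw he hc
    rcases hM.mem_aX hS h hs hs' (w := w) (by omega) (by rw [he]; exact hc) with
      ⟨-, h1⟩ | ⟨-, h1, h2⟩
    · exact ⟨aX_of (Or.inl h1), aT_mem h1⟩
    · exact ⟨aX_of (Or.inr ⟨h1, h2⟩), by rw [← hlen]; exact aT_mem h1⟩
  · rintro κ g ⟨z, x, x', h, hs, hs', rfl, rfl⟩ w hw
    exact (hB w hw).mn z x x' h hs hs'
  · intro w hw hc
    rcases (hB w hw).od hc with ⟨z, x, x', h1, h2, h3, h4, h5⟩ | h1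
    · exact Or.inl ⟨_, _, ⟨z, x, x', h1, h2, h3, rfl, rfl⟩, h4, h5⟩
    · exact Or.inr h1
  · intro w hw hc
    rcases (hB w hw).ev hc with ⟨z, x, x', h1, h2, h3, h4, h5⟩ | h1
    · exact Or.inl ⟨_, _, ⟨z, x, x', h1, h2, h3, rfl, rfl⟩, h4, h5⟩
    · exact Or.inr h1

/-- **the windows `0, …, 3`** -/
theorem MemF.sweep (hM : MemF P j W cap tA tB) (hW : 3 ≤ W) (hlen : tB.length = tA.length)
    (hB : Bals P j cap nO nE lb V) (hS : StF P j V u XL) (N R : ℕ) :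
    StF P j V (rnds (aX tA tB XL j) nO nE cap (odds tA.length) (evens tA.length) j N 4 R u) XL :=
  ⟨(hM.sys hW hlen hB hS).rnds N R u hS.bel, hS.kill⟩

/-- **the least value at the window `4`** -/
theorem MemF.lowV (hM : MemF P j W cap tA tB) (hW : 4 ≤ W)
    (hB : Bals P j cap nO nE lb V) (hS : StF P j V u XL) {T0 : ℤ} (hT : T0 ≤ cap 4 + 1)
    (hC : lowC tA tB XL j u T0 = true) {z x x' : P} (h : Cg z x x') (hs : Sok j x)
    (hs' : Sok j x') : T0 ≤ kapZ j z * (j - 4) + gZ j z := by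
  by_contra hcon
  push Not at hcon
  have h1 := hS.above hB h hs hs'
  unfold lowC at hC
  rw [Bool.and_eq_true] at hC
  rcases hM.mem_aX hS h hs hs' (w := 4) hW (by push_cast; linarith) with
    ⟨-, h2⟩ | ⟨-, h2, h3⟩
  · have h4 := allT_spec hC.1 h2
    simp only [h1, Bool.not_true, Bool.false_or, decide_eq_true_eq] at h4
    exact absurd h4 (not_le.mpr hcon)
  · have h4 := allT_spec hC.2 h2
    simp only [h1, Bool.not_true, Bool.false_or, Bool.or_eq_true, decide_eq_true_eq] at h4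
    rcases h4 with h4 | h4
    · exact h3 (List.elem_iff.mp h4)
    · exact absurd h4 (not_le.mpr hcon)

/-- the parity of the class -/
theorem MemF.parV (hM : MemF P j W cap tA tB) (hW : 4 ≤ W)
    (hB : Bals P j cap nO nE lb V) (hS : StF P j V u XL) {T0 p : ℤ} (hT : T0 ≤ cap 4)
    (hC : parC tB j u T0 p = true) {z x x' : P} (h : Cg z x x') (hs : Sok j x)
    (hs' : Sok j x') (hv : kapZ j z * (j - 4) + gZ j z = T0) (h3 : 3 ≤ nab 4 z) :
    kapZ j z % 2 = p := by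
  have h1 := hS.above hB h hs hs'
  rcases hM.mem_aX hS h hs hs' (w := 4) hW (by push_cast; linarith) with
    ⟨h2, -⟩ | ⟨-, h2, -⟩
  · omega
  · have h4 := allT_spec hC h2
    simp only [h1, Bool.not_true, Bool.false_or, Bool.or_eq_true, decide_eq_true_eq] at h4
    rcases h4 with h4 | h4
    · exact absurd hv h4
    · exact h4

/-- the lower bound of the costs of the joins at the window `4` -/
theorem Ctx.costM (K : Ctx P r j lo hi e) (h12 : 12 ≤ j) (hM : MemF P j W cap tA tB) (hW : 4 ≤ W)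
    (hB : Bals P j cap nO nE lb V) (hS : StF P j V u XL)
    {T0 : ℕ} (hFo : FoB P j ((j - 3) ^ 2 + T0))
    (hT : (T0 : ℤ) ≤ cap 4 + 1) (c1 : lowC tA tB XL j u T0 = true)
    (c3 : (j - 3) ^ 2 + T0 ≤ fatS j) (c4 : j % 2 = 0 → (j - 3) ^ 2 + T0 ≤ fatFo j) :
    ∀ z x x' : P, Cg z x x' → (j - 3) ^ 2 + T0 ≤ ful 4 z :=
  K.lowN h12 hFo (fun _ _ _ h hs hs' => hM.lowV hW hB hS hT c1 h hs hs') c3 c4

/-- **the step at the window `4`** -/
theorem Ctx.stepM (K : Ctx P r j lo hi e) (h12 : 12 ≤ j) (hM : MemF P j W cap tA tB) (hW : 4 ≤ W)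
    (hB : Bals P j cap nO nE lb V) (hS : StF P j V u XL)
    {T0 p : ℕ} (hFo : FoB P j ((j - 3) ^ 2 + T0 + 1)) (hT : (T0 : ℤ) ≤ cap 4)
    (c1 : lowC tA tB XL j u T0 = true) (c2 : parC tB j u T0 p = true)
    (c3 : (j - 3) ^ 2 + T0 < fatS j) (c4 : j % 2 = 0 → (j - 3) ^ 2 + T0 < fatFo j)
    (hk : (∀ z x x' : P, Cg z x x' → (j - 3) ^ 2 + T0 ≤ ful 4 z) →
      (∀ z x x' : P, Cg z x x' → ful 4 z = (j - 3) ^ 2 + T0 → 3 ≤ nab 4 z →
        nst 4 (fun z => lev z - 4) z % 2 = p) →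
      ∀ z x x' : P, Cg z x x' → ful 4 z = (j - 3) ^ 2 + T0 → nab 4 z ≤ 2) :
    StF P j V u ((T0 : ℤ) :: XL) := by
  refine ⟨hS.bel, fun z x x' h hs hs' hm => ?_⟩
  rcases List.mem_cons.mp hm with h1 | h1
  · refine hk (K.costM h12 hM hW hB hS (hFo.mono (Nat.le_succ _)) (by linarith) c1 c3.le
      fun h => (c4 h).le) ?_ z x x' h ?_
    · intro y v v' hy hfy h3
      obtain ⟨g1, g2, g3⟩ := K.sokN h12 hFo c3 c4 hy hfy
      have h4 := K.par4 h12 hy g1 g2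
      have h5 := hM.parV hW hB hS hT c2 hy g1 g2 g3 h3
      rw [h5] at h4
      exact_mod_cast h4
    · have h2 := K.line4 h12 h hs hs'
      rw [h1] at h2
      exact_mod_cast h2
  · exact hS.kill z x x' h hs hs' h1

/-- **the pairs of ends which are left** -/
theorem Ctx.leftM (K : Ctx P r j lo hi e) (h12 : 12 ≤ j) (hN : NoP P j X) (hE : ChkE4 j E)
    (h0 : (0, 0, 0, 0) ∈ E) (hB : Bals P j cap nO nE lb V) (hS : StF P j V u XL)
    {z x x' : P} (h : Cg z x x') (hl : lev z = j + 1) (hs : Sok j x) (hs' : Sok j x') :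
    ∃ s s', (s, s') ∈ restF j E X u XL ∧ Dt j x s ∧ Dt j x' s' := by
  obtain ⟨s, s', g1, g1', d1, d1', e1, e2, e3⟩ := K.pairF h12 hE h0 h hl hs hs'
  refine ⟨_, _, ?_, d1, d1'⟩
  have h1 := hS.above hB h hs hs'
  rw [e1, e2] at h1
  unfold restF
  rw [List.mem_flatMap]
  refine ⟨s, g1, ?_⟩
  rw [List.mem_map]
  refine ⟨s', ?_, rfl⟩
  rw [List.mem_filter]
  refine ⟨g1', ?_⟩
  rw [hN z x x' h hl _ _ d1 d1', Bool.not_false, Bool.true_and, h1, Bool.true_and,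
    Bool.not_eq_true', Bool.and_eq_false_iff, decide_eq_false_iff_not]
  by_cases hf : 1 ≤ s.2.2.2 + s'.2.2.2
  · right
    rw [Bool.eq_false_iff]
    intro hm
    have h2 := hS.kill z x x' h hs hs' (by
      rw [e1, e2]
      exact List.elem_iff.mp hm)
    omega
  · exact Or.inl hf

end

/-- **sides of high joins, without own elements of the level `j + 1` of the `E7` tops** -/
theorem Ctx.one4 (K : Ctx P r j lo hi e) (h12 : 12 ≤ j) {N : Tops P → Finset P}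
    {θ4 : Tops P → P → ℕ} {Nf : Tops P → Finset P} {θf : Tops P → (ℕ → ℕ → ℕ) → P → ℕ}
    {D : Tops P → Prop} (F : Fs P j lo hi e N θ4 Nf θf D) (hrow : Row5 j) (hC : ChkO j)
    (hO : ¬ ∃ z, Own j lo hi e N Nf D z) {x : P} (hx : x ∈ onlyB (topOf x))
    (hl : j + 1 ≤ lev x) (hf : ¬ Fatt j x) : nab 4 x = 1 := by
  have h5 := K.h5
  rcases K.cases hx (by omega) (fun h => by omega) hf with h | h | ⟨a, h, -⟩
  · have := h.1
    omega
  · exact h 4 (by omega)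
  · by_contra hne
    obtain ⟨A, g1, g2, g3, g3', g4, g5, g6, -, g8⟩ := late_side4 K.gt (by omega) (K.comp _) h.two
      h.le h.low h.at_a hx (by omega) (fun hh => by omega) rfl
    obtain ⟨ha, hw⟩ := hC a (mem_range.mpr (by have := h.le; omega)) (h.four (by omega)) _ h.word
      (by simp) A g1 g2 (by omega)
    subst ha
    have H := K.gt.H
    have hw' : WordD j 4 w7 (lo (topOf x)) (hi (topOf x)) := ⟨h.low, h.at_a, hw⟩
    obtain ⟨q1, q2, q3⟩ := F.of_word hw'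
    obtain ⟨z, z1, z2, z3⟩ := exists_between H.gradedBelow (z := x) (s := (topOf x : P))
      (onlyB_le hx) (l := j + 1) (by have := (topOf x).2; omega) hl
    have hz := onlyB_up hx z1
    have hlt : z < (topOf x : P) := lt_of_le_of_ne z2 fun he => by
      have := (topOf x).2
      rw [← he] at this
      omega
    obtain ⟨y, hy, hyt⟩ := exists_covBy_le_of_lt hlt
    have hyl := (H.covBy_iff.mp hy).2
    obtain ⟨s, a1, a2, a3⟩ := (K.comp (topOf x)).surj y hyt (by omega)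
    have hly : lev y = j := by omega
    rw [hly] at a1 a2 a3
    obtain ⟨r1, r2⟩ := hw'.rows (K.comp (topOf x))
    have p1 := r1 j le_rfl
    have p2 := r2 j le_rfl
    have e1 := hrow.1
    have e2 := hrow.2
    obtain rfl : s = 5 := by omega
    exact hO ⟨z, topOf x, ⟨q1, hw', q2, q3, z3, a1, a2, by rw [a3]; exact hy⟩, hz⟩

/-- the sides of high joins have one element on the level `4` -/
theorem Ctx.sdO (K : Ctx P r j lo hi e) (h12 : 12 ≤ j) {S1 S2 : List (ℕ × ℕ × ℕ × ℕ)}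
    (h1 : ChkT4 j S1) (h2 : ChkS4 j S2) (h10 : (0, 0, 0, 0) ∈ S1) (h20 : (0, 0, 0, 0) ∈ S2)
    (hO : ∀ x : P, x ∈ onlyB (topOf x) → j + 1 ≤ lev x → ¬ Fatt j x → nab 4 x = 1) :
    SdL P j (S1.filter fun s => s.2.2.2 == 0) (S2.filter fun s => s.2.2.2 == 0) where
  one := fun {x} hx hl hf => by
    obtain ⟨m, c, b, f, g1, g2, g3, g4, g5⟩ := K.side14 h12 hx hl hf h1 h10
    have h3 := hO x hx (by omega) hf
    exact ⟨m, c, b, f, List.mem_filter.mpr ⟨g1, by simp only [beq_iff_eq]; omega⟩, g2, g3, g4, g5⟩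
  two := fun {x} hx hl hf => by
    obtain ⟨m, c, b, f, g1, g2, g3, g4, g5⟩ := K.side4 h12 hx hl hf h2 h20
    have h3 := hO x hx hl hf
    exact ⟨m, c, b, f, List.mem_filter.mpr ⟨g1, by simp only [beq_iff_eq]; omega⟩, g2, g3, g4, g5⟩

/-- the balance at the window `3` for all systems, with raised costs: `V` is the least raised cost,
`v` the least cost; they agree from `M0 + 4` on -/
def W3R (P : Type u) [Fintype P] [PartialOrder P] [DecidableEq P] (r j : ℕ)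
    (lo hi : Tops P → ℕ → ℕ) (c3 : ℤ) (nO nE : ℤ → Bool) (lb : ℤ) (M0 : ℕ) : Prop :=
  ∀ (N : Tops P → Finset P) (θ3 θ4 : Tops P → P → ℕ), Sy P j lo hi N θ3 θ4 →
    (∃ z : P, Hul.Jn z) → ∃ K3 v V : ℕ, Mn j 3 N θ3 v ∧ min V M0 ≤ v ∧ (M0 + 4 ≤ V → V ≤ v) ∧
      Wk r j 3 K3 N (fun t => hi t 3 - lo t 3 + 1) θ3 ∧
      WinB P j 3 c3 nO nE lb ((V : ℤ) - ((j + 1 - 3 : ℕ) : ℤ) ^ 2)

/-- the same with a further property `Q` of the system and of the least raised cost -/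
def W3Q (P : Type u) [Fintype P] [PartialOrder P] [DecidableEq P] (r j : ℕ)
    (lo hi : Tops P → ℕ → ℕ) (c3 : ℤ) (nO nE : ℤ → Bool) (lb : ℤ) (M0 : ℕ)
    (Q : (Tops P → Finset P) → (Tops P → P → ℕ) → (Tops P → P → ℕ) → ℕ → Prop) : Prop :=
  ∀ (N : Tops P → Finset P) (θ3 θ4 : Tops P → P → ℕ), Sy P j lo hi N θ3 θ4 →
    (∃ z : P, Hul.Jn z) → ∃ K3 v V : ℕ, Mn j 3 N θ3 v ∧ min V M0 ≤ v ∧ (M0 + 4 ≤ V → V ≤ v) ∧
      Wk r j 3 K3 N (fun t => hi t 3 - lo t 3 + 1) θ3 ∧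
      WinB P j 3 c3 nO nE lb ((V : ℤ) - ((j + 1 - 3 : ℕ) : ℤ) ^ 2) ∧ Q N θ3 θ4 V

lemma W3H.toR {c3 : ℤ} {nO nE : ℤ → Bool} {lb : ℤ} {M0 : ℕ} (h : W3H P r j lo hi c3 nO nE lb) :
    W3R P r j lo hi c3 nO nE lb M0 := by
  intro N θ3 θ4 S hJ
  obtain ⟨K3, v, M, W, B⟩ := h N θ3 θ4 S hJ
  exact ⟨K3, v, v, M, min_le_left _ _, fun _ => le_rfl, W, B⟩

lemma W3R.toQ {c3 : ℤ} {nO nE : ℤ → Bool} {lb : ℤ} {M0 : ℕ}
    (h : W3R P r j lo hi c3 nO nE lb M0) :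
    W3Q P r j lo hi c3 nO nE lb M0 (fun _ _ _ _ => True) := by
  intro N θ3 θ4 S hJ
  obtain ⟨K3, v, V, h1, h2, h3, h4, h5⟩ := h N θ3 θ4 S hJ
  exact ⟨K3, v, V, h1, h2, h3, h4, h5, trivial⟩

/-- the balances of the windows `0, …, 3` -/
theorem W3Q.bals {cap : ℕ → ℤ} {nO nE : ℕ → ℤ → Bool} {lb : ℕ → ℤ} {M0 : ℕ}
    {Q : (Tops P → Finset P) → (Tops P → P → ℕ) → (Tops P → P → ℕ) → ℕ → Prop}
    (hW : W3Q P r j lo hi (cap 3) (nO 3) (nE 3) (lb 3) M0 Q) {N : Tops P → Finset P}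
    {θ3 θ4 : Tops P → P → ℕ} (S : Sy P j lo hi N θ3 θ4) (hJ : ∃ z : P, Hul.Jn z)
    (hb : ∀ w < 3, ∃ V, WinB P j w (cap w) (nO w) (nE w) (lb w) V) :
    ∃ (K3 v v' : ℕ) (V : ℕ → ℤ), Mn j 3 N θ3 v ∧ min v' M0 ≤ v ∧ (M0 + 4 ≤ v' → v' ≤ v) ∧
      Wk r j 3 K3 N (fun t => hi t 3 - lo t 3 + 1) θ3 ∧ Bals P j cap nO nE lb V ∧
      V 3 = (v' : ℤ) - ((j + 1 - 3 : ℕ) : ℤ) ^ 2 ∧ Q N θ3 θ4 v' := by
  obtain ⟨K3, v, v', M, q1, q2, W, B3, q3⟩ := hW N θ3 θ4 S hJ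
  obtain ⟨V0, h0⟩ := hb 0 (by norm_num)
  obtain ⟨V1, h1⟩ := hb 1 (by norm_num)
  obtain ⟨V2, h2⟩ := hb 2 (by norm_num)
  refine ⟨K3, v, v', fun w => if w = 0 then V0 else if w = 1 then V1 else if w = 2 then V2 else
      (v' : ℤ) - ((j + 1 - 3 : ℕ) : ℤ) ^ 2, M, q1, q2, W, ?_, rfl, q3⟩
  intro w hw
  have : w = 0 ∨ w = 1 ∨ w = 2 ∨ w = 3 := by omega
  rcases this with rfl | rfl | rfl | rfl
  · exact h0
  · exact h1
  · exact h2
  · exact B3

theorem W3R.bals {cap : ℕ → ℤ} {nO nE : ℕ → ℤ → Bool} {lb : ℕ → ℤ} {M0 : ℕ}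
    (hW : W3R P r j lo hi (cap 3) (nO 3) (nE 3) (lb 3) M0) {N : Tops P → Finset P}
    {θ3 θ4 : Tops P → P → ℕ} (S : Sy P j lo hi N θ3 θ4) (hJ : ∃ z : P, Hul.Jn z)
    (hb : ∀ w < 3, ∃ V, WinB P j w (cap w) (nO w) (nE w) (lb w) V) :
    ∃ (K3 v v' : ℕ) (V : ℕ → ℤ), Mn j 3 N θ3 v ∧ min v' M0 ≤ v ∧ (M0 + 4 ≤ v' → v' ≤ v) ∧
      Wk r j 3 K3 N (fun t => hi t 3 - lo t 3 + 1) θ3 ∧ Bals P j cap nO nE lb V ∧
      V 3 = (v' : ℤ) - ((j + 1 - 3 : ℕ) : ℤ) ^ 2 := by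
  obtain ⟨K3, v, v', V, h1, h2, h3, h4, h5, h6, -⟩ := hW.toQ.bals S hJ hb
  exact ⟨K3, v, v', V, h1, h2, h3, h4, h5, h6⟩

/-- the least raised cost at the window `3` -/
lemma StF.v3V {V : ℕ → ℤ} {u XL : List ℤ} (hS : StF P j V u XL) {v' : ℕ}
    (hV : V 3 = (v' : ℤ) - ((j + 1 - 3 : ℕ) : ℤ) ^ 2) {V3 : ℕ}
    (h : (V3 : ℤ) ≤ u.getD 3 0 + ((j + 1 - 3 : ℕ) : ℤ) ^ 2) : V3 ≤ v' := hS.v3 hV h

/-- the least cost at the window `3` -/
lemma StF.v3R {V : ℕ → ℤ} {u XL : List ℤ} (hS : StF P j V u XL) {v v' M0 : ℕ}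
    (hV : V 3 = (v' : ℤ) - ((j + 1 - 3 : ℕ) : ℤ) ^ 2) (q1 : min v' M0 ≤ v)
    (q2 : M0 + 4 ≤ v' → v' ≤ v) {V3 : ℕ}
    (h : (V3 : ℤ) ≤ u.getD 3 0 + ((j + 1 - 3 : ℕ) : ℤ) ^ 2 ∨ (M0 : ℤ) ≤ u.getD 3 0 +
      ((j + 1 - 3 : ℕ) : ℤ) ^ 2) (hn : V3 ≤ M0 ∨ ((M0 : ℤ) + 4 ≤ u.getD 3 0 +
      ((j + 1 - 3 : ℕ) : ℤ) ^ 2 ∧ (V3 : ℤ) ≤ u.getD 3 0 + ((j + 1 - 3 : ℕ) : ℤ) ^ 2)) : V3 ≤ v := by
  have h1 := hS.bel.2 3 le_rfl
  rw [hV] at h1
  generalize hg : u.getD 3 0 = g at *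
  generalize hy : ((j + 1 - 3 : ℕ) : ℤ) ^ 2 = y at *
  omega

end Pool.Agent.GaussPoset.Sm
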