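import Pool.Agent.W_448s7_h27.PhH
import Pool.Agent.W_448f4_h70.FB
import Pool.Agent.W_448s7s_h5.SrJ16

/-!
S7 for `j = 16`: the windows `0, …, 4` (MP_448cb3_co).
-/

namespace Pool.Agent.GaussPoset.Sm

set_option linter.unusedSectionVars false

open Finset Wd Ec W4

universe u

variable {P : Type u} [Fintype P] [PartialOrder P] [DecidableEq P] {r : ℕ}

/-- ends -/
def Ef16 : List (ℕ × ℕ × ℕ × ℕ) :=
    [(0, 0, 0, 0), (1, 2, 1, 0), (1, 3, 0, 0), (1, 4, 0, 0), (1, 5, 0, 0), (1, 6, 0, 0),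
     (1, 7, 0, 0), (1, 8, 0, 0), (3, 9, 1, 0), (5, 20, 1, 0), (5, 25, 0, 0), (10, 80, 0, 1)]

/-- sides, one level deeper -/
def Sf16a : List (ℕ × ℕ × ℕ × ℕ) :=
    [(0, 0, 0, 0), (0, 0, 1, 0), (1, 1, 0, 0), (1, 1, 1, 0), (1, 2, 0, 0), (1, 3, 0, 0),
     (1, 4, 0, 0), (1, 5, 0, 0), (1, 6, 0, 0), (1, 7, 0, 0), (1, 8, 0, 0), (2, 3, 1, 0),
     (3, 6, 0, 0), (3, 6, 1, 0), (3, 9, 0, 0), (4, 7, 1, 0), (4, 10, 1, 0), (5, 12, 1, 0),
     (5, 15, 0, 0), (5, 15, 1, 0), (5, 20, 0, 0), (5, 25, 0, 0), (6, 13, 1, 0), (6, 16, 1, 0),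
     (6, 21, 1, 0), (7, 23, 1, 0), (7, 28, 1, 0), (8, 24, 1, 0), (8, 31, 0, 0), (8, 31, 1, 0),
     (9, 33, 0, 0), (10, 34, 1, 0), (10, 80, 0, 1)]

/-- sides, two or more levels deeper -/
def Sf16b : List (ℕ × ℕ × ℕ × ℕ) :=
    [(0, 0, 0, 0), (0, 0, 1, 0), (1, 1, 0, 0), (1, 1, 1, 0), (1, 1, 2, 0), (1, 2, 0, 0),
     (1, 3, 0, 0), (1, 4, 0, 0), (1, 5, 0, 0), (1, 6, 0, 0), (1, 7, 0, 0), (1, 8, 0, 0),
     (2, 3, 0, 0), (2, 3, 1, 0), (2, 3, 2, 0), (3, 6, 0, 0), (3, 6, 1, 0), (3, 9, 0, 0),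
     (4, 7, 1, 0), (4, 7, 2, 0), (4, 7, 3, 0), (4, 10, 0, 0), (4, 10, 1, 0), (4, 10, 2, 0),
     (5, 12, 0, 0), (5, 12, 1, 0), (5, 15, 0, 0), (5, 15, 1, 0), (5, 20, 0, 0), (5, 25, 0, 0),
     (6, 13, 1, 0), (6, 13, 2, 0), (6, 13, 3, 0), (6, 16, 1, 0), (6, 16, 2, 0), (6, 21, 0, 0),
     (6, 21, 1, 0), (7, 23, 0, 0), (7, 23, 1, 0), (7, 28, 0, 0), (7, 28, 1, 0), (8, 24, 1, 0),
     (8, 24, 2, 0), (8, 24, 3, 0), (8, 31, 0, 0), (8, 31, 1, 0), (9, 33, 0, 0), (10, 34, 1, 0),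
     (10, 34, 2, 0), (10, 80, 0, 1), (11, 35, 1, 0), (11, 35, 2, 0), (11, 35, 3, 0),
     (11, 35, 4, 0)]

lemma chkEf16 : ChkE4 16 Ef16 := by decide +kernel

lemma chkSf16a : ChkT4 16 Sf16a := by decide +kernel

lemma chkSf16b : ChkS4 16 Sf16b := by decide +kernel

/-- caps -/
def cf16 (w : ℕ) : ℤ :=
  if w = 3 then 90 else if w = 4 then 80 else cr16 w

/-- even noise -/
def nef16 (w : ℕ) (V : ℤ) : Bool :=
  if w = 3 then nz ((16 + 1 - 3 : ℕ) : ℤ) V else ner16 w V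

/-- odd noise -/
def nof16 (w : ℕ) (V : ℤ) : Bool :=
  if w = 3 then ([47, 89, 90] : List ℤ).elem V else nor16 w V

/-- caps as a list -/
def cfl16 : List (ℕ × ℕ) := [(16, 138), (15, 119), (14, 101), (13, 90), (12, 80)]

lemma capf16 : CapL 16 4 cf16 cfl16 := by decide +kernel

/-- lines with `g + 300`, two elements above on the level `4` -/
def tAf16 : List (List ℕ) :=
  [[300], [292, 293, 294, 295, 296, 297, 298], [284, 285, 286, 287, 288, 289, 290, 291, 292,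
   293, 294, 295, 296, 303], [291, 295, 296, 297, 298, 299, 300, 301, 302, 303], [283, 284, 285,
   286, 287, 288, 289, 290, 291, 292, 293, 294, 295, 296, 297, 298, 299, 300, 301, 302, 303,
   308], [275, 280, 294, 295, 296, 297, 298, 299, 300, 301, 302, 303, 304, 305, 306, 307, 308,
   309], [267, 268, 269, 270, 271, 272, 273, 274, 275, 276, 277, 278, 282, 286, 287, 288, 289,
   290, 291, 292, 293, 294, 295, 296, 297, 298, 299, 300, 301, 302, 303, 304, 305, 306, 307,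
   308, 309, 310, 315], [278, 283, 288, 289, 290, 291, 292, 293, 294, 295, 296, 297, 298, 299,
   300, 301, 302, 303, 304, 305, 306, 307, 308, 309, 310, 311, 312, 313, 314, 315, 316, 317],
   [266, 270, 271, 272, 273, 274, 275, 276, 277, 278, 279, 280, 281, 282, 283, 284, 285, 286,
   287, 288, 289, 290, 291, 292, 293, 294, 295, 296, 297, 298, 299, 300, 301, 302, 303, 304,
   305, 306, 307, 308, 309, 310], [277, 280, 281, 282, 283, 284, 285, 286, 287, 288, 289, 290,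
   291, 292, 293, 294], [250, 255, 260, 269, 272, 274, 275, 276, 277, 278], [], [], [], [], [],
   [], [], [], [], []]

/-- lines with `g + 300`, at least three elements above on the level `4` -/
def tBf16 : List (List ℕ) :=
  [[], [], [], [], [], [], [], [], [], [], [220], [212, 213, 214, 215, 216, 217, 218], [223],
   [211, 215, 216, 217, 218, 219, 220, 221, 222, 223], [], [195, 200], [], [], [], [], [140]]

/-- without two `E7` ends -/
def tBx16 : List (List ℕ) :=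
  [[], [], [], [], [], [], [], [], [], [], [220], [212, 213, 214, 215, 216, 217, 218], [223],
   [211, 215, 216, 217, 218, 219, 220, 221, 222, 223], [], [195, 200], [], [], [], [], []]

/-- lines -/
def LA16 : List (List ℤ) :=
  [[0], [-8, -7, -6, -5, -4, -3, -2], [-16, -15, -14, -13, -12, -11, -10, -9, -8, -7, -6, -5,
   -4, 3], [-9, -5, -4, -3, -2, -1, 0, 1, 2, 3], [-17, -16, -15, -14, -13, -12, -11, -10, -9,
   -8, -7, -6, -5, -4, -3, -2, -1, 0, 1, 2, 3, 8], [-25, -20, -6, -5, -4, -3, -2, -1, 0, 1, 2,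
   3, 4, 5, 6, 7, 8, 9], [-33, -32, -31, -30, -29, -28, -27, -26, -25, -24, -23, -22, -18, -14,
   -13, -12, -11, -10, -9, -8, -7, -6, -5, -4, -3, -2, -1, 0, 1, 2, 3, 4, 5, 6, 7, 8, 9, 10,
   15], [-22, -17, -12, -11, -10, -9, -8, -7, -6, -5, -4, -3, -2, -1, 0, 1, 2, 3, 4, 5, 6, 7, 8,
   9, 10, 11, 12, 13, 14, 15, 16, 17], [-34, -30, -29, -28, -27, -26, -25, -24, -23, -22, -21,
   -20, -19, -18, -17, -16, -15, -14, -13, -12, -11, -10, -9, -8, -7, -6, -5, -4, -3, -2, -1, 0,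
   1, 2, 3, 4, 5, 6, 7, 8, 9, 10], [-23, -20, -19, -18, -17, -16, -15, -14, -13, -12, -11, -10,
   -9, -8, -7, -6], [-50, -45, -40, -31, -28, -26, -25, -24, -23, -22], [], [], [], [], [], [],
   [], [], [], []]

/-- lines -/
def LB16 : List (List ℤ) :=
  [[], [], [], [], [], [], [], [], [], [], [-80], [-88, -87, -86, -85, -84, -83, -82], [-77],
   [-89, -85, -84, -83, -82, -81, -80, -79, -78, -77], [], [-105, -100], [], [], [], [], [-160]]

/-- lines -/
def LX16 : List (List ℤ) :=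
  [[], [], [], [], [], [], [], [], [], [], [-80], [-88, -87, -86, -85, -84, -83, -82], [-77],
   [-89, -85, -84, -83, -82, -81, -80, -79, -78, -77], [], [-105, -100], [], [], [], [], []]

lemma LA16_eq : LA16 = tabI tAf16 := by decide +kernel

lemma LB16_eq : LB16 = tabI tBf16 := by decide +kernel

lemma LX16_eq : LX16 = tabI tBx16 := by decide +kernel

lemma ff16a : fst1F cfl16 tAf16 tBf16 Sf16a = true := by decide +kernel

lemma ff16b : fst2F cfl16 tAf16 tBf16 Sf16b = true := by decide +kernel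

lemma fx16a : fst1F cfl16 tAf16 tBx16 Sf16a = true := by decide +kernel

lemma fx16b : fst2F cfl16 tAf16 tBx16 Sf16b = true := by decide +kernel

theorem tabf16 : TabF 16 4 cf16 LA16 LB16 Ef16 Sf16a Sf16b XN := by
  refine ⟨by norm_num, by norm_num, chkEf16, chkSf16a, chkSf16b, ?_, ?_, ?_, ?_, ?_, ?_, ?_, ?_⟩
  · decide +kernel
  · decide +kernel
  · decide +kernel
  · decide +kernel
  · decide +kernel
  · rw [LA16_eq, LB16_eq]
    exact chk1F_of capf16 ff16a
  · rw [LA16_eq, LB16_eq]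
    exact chk2F_of (by norm_num) capf16 ff16b
  · decide +kernel

theorem tabx16 : TabF 16 4 cf16 LA16 LX16 Ef16 Sf16a Sf16b (XQ (10, 80, 0)) := by
  refine ⟨by norm_num, by norm_num, chkEf16, chkSf16a, chkSf16b, ?_, ?_, ?_, ?_, ?_, ?_, ?_, ?_⟩
  · decide +kernel
  · decide +kernel
  · decide +kernel
  · decide +kernel
  · decide +kernel
  · rw [LA16_eq, LX16_eq]
    exact chk1F_of capf16 fx16a
  · rw [LA16_eq, LX16_eq]
    exact chk2F_of (by norm_num) capf16 fx16b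
  · decide +kernel

/-- the windows `0, …, 3` -/
lemma sw16 : rnds (aX LA16 LB16 [] ((16 : ℕ) : ℤ)) nof16 nef16 cf16 (odds LA16.length)
    (evens LA16.length) ((16 : ℕ) : ℤ) 300 4 26
    ((List.range 4).map fun w => min (lwr16 w) (cf16 w + 1)) = [120, 112, 102, 91] := by
  decide +kernel

lemma nm_16_80' : Nm 16 (13 ^ 2 + 80) (14 ^ 2 + 91) := nm_16_80

lemma rest16 : restF 16 Ef16 (XQ (10, 80, 0)) [120, 112, 102, 91] [80, 79, 78] = [] := by
  decide +kernel

section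

variable {lo hi : Tops P → ℕ → ℕ} {e : Tops P → ℕ → ℕ → P}

/-- **S7 for `j = 16`**: every join of level `17` has a fold end, if the window `3` balances up to
`90` with the own noise `47, 89, 90` (odd). -/
theorem foldj16 (K : Ctx P r 16 lo hi e) (hW : W3H P r 16 lo hi 90 (nof16 3) (nef16 3) 0)
    {z x x' : P} (h : Cg z x x') (hl : lev z = 17) : Fold 16 x ∨ Fold 16 x' := by
  classical
  by_contra hcon
  rw [not_or] at hcon
  obtain ⟨l1, l2⟩ := h.lev_eq K.gt.H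
  have hs : Sok 16 x := ⟨fun hf => by have := hf.1; omega, fun _ => hcon.1⟩
  have hs' : Sok 16 x' := ⟨fun hf => by have := hf.1; omega, fun _ => hcon.2⟩
  have hN := noP_XN (P := P) 16
  have T := tabf16
  have hJ : ∃ z : P, Hul.Jn z := ⟨z, h.jn⟩
  obtain ⟨N, θ3, θ4, Nf, θf, D, S, F⟩ := exists_fs K (by norm_num)
  obtain ⟨K3, v, M, W, B3⟩ := hW N θ3 θ4 S hJ
  have hb := balr16 K (noFo_big (by norm_num)) hJ
  obtain ⟨V0, h0⟩ := hb 0 (by norm_num)
  obtain ⟨V1, h1⟩ := hb 1 (by norm_num)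
  obtain ⟨V2, h2⟩ := hb 2 (by norm_num)
  obtain ⟨V, hV0, hV1, hV2, hV3⟩ : ∃ V : ℕ → ℤ, V 0 = V0 ∧ V 1 = V1 ∧ V 2 = V2 ∧
      V 3 = (v : ℤ) - ((16 + 1 - 3 : ℕ) : ℤ) ^ 2 :=
    ⟨fun w => if w = 0 then V0 else if w = 1 then V1 else if w = 2 then V2 else
      (v : ℤ) - ((16 + 1 - 3 : ℕ) : ℤ) ^ 2, rfl, rfl, rfl, rfl⟩
  have hB : Bals P 16 cf16 nof16 nef16 lwr16 V := by
    intro w hw
    have : w = 0 ∨ w = 1 ∨ w = 2 ∨ w = 3 := by omega
    rcases this with rfl | rfl | rfl | rfl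
    · rw [hV0]; exact h0
    · rw [hV1]; exact h1
    · rw [hV2]; exact h2
    · rw [hV3]; exact B3
  obtain ⟨hF1, hF2⟩ := fo_cost K (by norm_num) chkEr16 (by decide +kernel) (n := 255)
    (by decide +kernel) (by decide +kernel)
  have s1 : StF P 16 V [120, 112, 102, 91] [] := sw16 ▸ K.sweepF hN T hB (StF.start hB) 300 26
  have Y : Y4 r 16 K3 (13 ^ 2 + 80) (14 ^ 2 + 91) N _ θ3 θ4 :=
    y4_of S W M (s1.v3 hV3 (by norm_num)) nm_16_80
  have hno : HnO P 16 (13 ^ 2 + 80) := fun _ => Or.inl (by decide +kernel)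
  have hj234 : ∀ z x x' : P, Cg z x x' → 234 ≤ ful 4 z :=
    K.costF hN T hB s1 (T0 := 65) (hF1.mono (by norm_num)) (by decide +kernel)
      (by decide +kernel) (by decide +kernel) (fun _ => by decide +kernel)
  have hE2 := F.no_E2_16 K Y hno (by norm_num) hj234
  have hOw := F.no_own_16 K Y hno (by norm_num) fun z x x' h => le_trans (by norm_num) (hj234 z x x' h)
  have hN2 := K.noP_XQ (b := 0) F row5_16 chkW16 (by norm_num) (by decide +kernel) hE2
  have T2 := tabx16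
  have s2 : StF P 16 V [120, 112, 102, 91] [78] :=
    K.stepF hN2 T2 hB s1 (T0 := 78) (p := 1) (hF1.mono (by norm_num))
      (by decide +kernel) (by decide +kernel) (by decide +kernel) (by decide +kernel)
      (fun _ => by decide +kernel)
      (fun hj hp => F.killG16 K Y hno (by norm_num) (hF2 _ (by norm_num))
        (Or.inr (Or.inr ⟨by norm_num, hE2, hOw⟩)) hj hp)
  have s3 : StF P 16 V [120, 112, 102, 91] [79, 78] :=
    K.stepF hN2 T2 hB s2 (T0 := 79) (p := 1) (hF1.mono (by norm_num))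
      (by decide +kernel) (by decide +kernel) (by decide +kernel) (by decide +kernel)
      (fun _ => by decide +kernel)
      (fun hj hp => F.killG16 K Y hno (by norm_num) (hF2 _ (by norm_num))
        (Or.inr (Or.inr ⟨by norm_num, hE2, hOw⟩)) hj hp)
  have s4 : StF P 16 V [120, 112, 102, 91] [80, 79, 78] :=
    K.stepF hN2 T2 hB s3 (T0 := 80) (p := 1) (hF1.mono (by norm_num))
      (by decide +kernel) (by decide +kernel) (by decide +kernel) (by decide +kernel)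
      (fun _ => by decide +kernel)
      (fun hj hp => F.killG16 K Y hno (by norm_num) (hF2 _ (by norm_num))
        (Or.inr (Or.inr ⟨by norm_num, hE2, hOw⟩)) hj hp)
  obtain ⟨s, s', g1, -, -⟩ := K.leftS hN2 T2 hB s4 h hl hs hs'
  rw [rest16] at g1
  exact absurd g1 List.not_mem_nil

end

end Pool.Agent.GaussPoset.Sm
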