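import Pool.Agent.W_448s7_h27.PhJ15
import Pool.Agent.W_448s7_h27.PhJ16
import Pool.Agent.W_448s8f_h76.FiN

/-!
S7 for `j = 15, 16` (MP_448cb3_co): final forms.
-/

namespace Pool.Agent.GaussPoset.Sm

set_option linter.unusedSectionVars false

open Finset Wd Ec W4

universe u

variable {P : Type u} [Fintype P] [PartialOrder P] [DecidableEq P] {r j w : ℕ}

/-- more noise, smaller caps -/
lemma WinB.mono {cp cp' : ℤ} {nO nE nO' nE' : ℤ → Bool} {lb lb' V : ℤ}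
    (h : WinB P j w cp nO nE lb V) (hc : cp' ≤ cp) (hO : ∀ v ≤ cp', nO v = true → nO' v = true)
    (hE : ∀ v ≤ cp', nE v = true → nE' v = true) (hl : lb' ≤ lb) :
    WinB P j w cp' nO' nE' lb' V where
  lo := fun hV => hl.trans (h.lo (hV.trans hc))
  mn := h.mn
  od := fun hV => (h.od (hV.trans hc)).imp id (hO V hV)
  ev := fun hV => (h.ev (hV.trans hc)).imp id (hE V hV)

lemma W3H.mono {lo hi : Tops P → ℕ → ℕ} {c3 c3' : ℤ} {nO nE nO' nE' : ℤ → Bool} {lb lb' : ℤ}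
    (h : W3H P r j lo hi c3 nO nE lb) (hc : c3' ≤ c3)
    (hO : ∀ v ≤ c3', nO v = true → nO' v = true)
    (hE : ∀ v ≤ c3', nE v = true → nE' v = true) (hl : lb' ≤ lb) :
    W3H P r j lo hi c3' nO' nE' lb' := by
  intro N θ3 θ4 S hJ
  obtain ⟨K3, v, M, W, B⟩ := h N θ3 θ4 S hJ
  exact ⟨K3, v, M, W, B.mono hc hO hE hl⟩

lemma W3R.mono {lo hi : Tops P → ℕ → ℕ} {c3 c3' : ℤ} {nO nE nO' nE' : ℤ → Bool} {lb lb' : ℤ}
    {M0 : ℕ} (h : W3R P r j lo hi c3 nO nE lb M0) (hc : c3' ≤ c3)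
    (hO : ∀ v ≤ c3', nO v = true → nO' v = true)
    (hE : ∀ v ≤ c3', nE v = true → nE' v = true) (hl : lb' ≤ lb) :
    W3R P r j lo hi c3' nO' nE' lb' M0 := by
  intro N θ3 θ4 S hJ
  obtain ⟨K3, v, V, M, q1, q2, W, B⟩ := h N θ3 θ4 S hJ
  exact ⟨K3, v, V, M, q1, q2, W, B.mono hc hO hE hl⟩

variable {lo hi : Tops P → ℕ → ℕ} {e : Tops P → ℕ → ℕ → P}

/-- **S7 for `j = 15`** -/
theorem no_join15 (K : Ctx P r 15 lo hi e)
    (hW : W3Q P r 15 lo hi 84 (nof15 3) (nef15 3) 0 (13 ^ 2 + 76) (Q15 P))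
    {z : P} (hl : lev z = 16) : ¬ Hul.Jn z := by
  intro hz
  obtain ⟨x, x', h⟩ := K.cross hz hl
  exact noj15 K hW h hl

/-- **S7 for `j = 16`** -/
theorem s7f16 (K : Ctx P r 16 lo hi e) (hW : W3H P r 16 lo hi 90 (nof16 3) (nef16 3) 0) :
    Fi.S7F P 8 := by
  have H := K.gt.H
  intro z x x' hl hx hx' ht
  have l1 := (H.covBy_iff.mp hx).2
  have l2 := (H.covBy_iff.mp hx').2
  have hc : Cg z x x' := Cg.mk' hx hx' (only_of_le H K.gt.good (le_topOf x) (by omega))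
    (only_of_le H K.gt.good (le_topOf x') (by omega)) ht
  obtain ⟨u1, u2⟩ := K.ends hc (by omega)
  have key : ∀ y : P, Fold 16 y → (Win.uc y).card = 1 → Fi.Fd 8 y := by
    intro y hy hu
    have h2 := hy.2.2 2 (by norm_num)
    exact ⟨hy.1, hu, by omega⟩
  exact (foldj16 K hW hc (by omega)).imp (fun h => key x h u1) (fun h => key x' h u2)

end Pool.Agent.GaussPoset.Sm
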