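import Pool.Agent.W_448s7_h27.PpL
import Pool.Agent.W_448s8f_h76.GqG

/-!
# `j = 14`: S7 without hypotheses (MP_448cb3_co)
-/

namespace Pool.Agent.GaussPoset.Sm

set_option linter.unusedSectionVars false

open Finset Wd Ec W4

universe u

variable {P : Type u} [Fintype P] [PartialOrder P] [DecidableEq P] {r : ℕ}
  {lo hi : Tops P → ℕ → ℕ} {e : Tops P → ℕ → ℕ → P}

/-- **no join of two ends with two elements above on the level `12`** -/
theorem noPD14 (K : Ctx P r 14 lo hi e) : NoPD P 14 := by
  intro z x x' hz hl h1 h2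
  have hr : 15 ≤ r := by
    have := K.gt.H.hr z
    omega
  refine Gq.no_pdpd K Gq.gq14 ?_ z x x' hz hl h1 h2
  intro z x x' hz hl s s' hs hs' d d'
  have e1 : s = (3, 9, 1) := by simpa using hs
  have e2 : s' = (3, 9, 1) ∨ s' = (10, 60, 1) ∨ s' = (5, 20, 1) ∨ s' = (1, 2, 1) := by
    rcases hs' with h | h
    · exact Or.inl (by simpa using h)
    · right
      simpa using h
  subst e1
  rcases e2 with rfl | rfl | rfl | rfl
  · exact K.noPr14 hr (by norm_num) (by norm_num) (by decide) z x x' hz hl d d'
  · exact K.noPr14 hr (by norm_num) (by norm_num) (by decide) z x x' hz hl d d'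
  · exact K.noPr14 hr (by norm_num) (by norm_num) (by decide) z x x' hz hl d d'
  · exact K.noPr14 hr (by norm_num) (by norm_num) (by decide) z x x' hz hl d d'

/-- **S7 for `j = 14`**: every join of level `15` has a fold end -/
theorem s7f14c (K : Ctx P r 14 lo hi e) (hr : 15 ≤ r) : Fi.S7F P 7 := s7f14' K hr (noPD14 K)

/-- **`j = 14`: no joins of level `15`**, from the joins of a fold end and an end
`(5, 25, 0)` -/
theorem no_join14F (K : Ctx P r 14 lo hi e) (hFB : NoFB P 14) {z : P} (hl : lev z = 15) :
    ¬ Hul.Jn z := by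
  have hr : 15 ≤ r := by
    have := K.gt.H.hr z
    omega
  exact no_join14 K hr (noPD14 K) hFB hl

end Pool.Agent.GaussPoset.Sm
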