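import Pool.Agent.W_448f4_h70.GX

/-!
# Twins whose ancestor levels have at most two elements, bounded by one window (MP_448cb3_co, S7)
-/

namespace Pool.Agent.GaussPoset.Sm

set_option linter.unusedSectionVars false

open Polynomial Finset W4 Cp

universe u

variable {P : Type u} [Fintype P] [PartialOrder P] [DecidableEq P] {r j w K0 : ℕ}
  {N : Tops P → Finset P} {b : Tops P → ℕ} {θ : Tops P → P → ℕ}

/-- an element with at most two ancestors on each level -/
lemma ful_le_sq {x : P} {a : ℕ} (hl : lev x = w + a)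
    (hn : ∀ k, w ≤ k → k < lev x → nab k x ≤ 2) : ful w x ≤ a ^ 2 := by
  have h1 : ful w x = ∑ n ∈ range (a + 1), n * nab (w + n) x := by
    unfold ful
    rw [hl, add_assoc, Finset.sum_range_add]
    have h2 : ∑ k ∈ range w, (k - w) * nab k x = 0 := by
      refine Finset.sum_eq_zero fun k hk => ?_
      rw [mem_range] at hk
      rw [Nat.sub_eq_zero_of_le hk.le, zero_mul]
    rw [h2, zero_add]
    refine Finset.sum_congr rfl fun n _ => ?_
    rw [Nat.add_sub_cancel_left]
  have h3 : nab (w + a) x = 1 := by rw [← hl]; exact nab_self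
  rw [h1, Finset.sum_range_succ, h3]
  have h4 : ∑ n ∈ range a, n * nab (w + n) x ≤ ∑ n ∈ range a, n * 2 := by
    refine Finset.sum_le_sum fun n hn' => ?_
    rw [mem_range] at hn'
    exact Nat.mul_le_mul_left _ (hn _ (by omega) (by omega))
  rw [← Finset.sum_mul, Finset.sum_range_id_mul_two] at h4
  rcases Nat.eq_zero_or_pos a with h0 | h0
  · subst h0
    simpa using h4
  · obtain ⟨d, rfl⟩ : ∃ d, a = d + 1 := ⟨a - 1, by omega⟩
    rw [Nat.add_sub_cancel] at h4
    have : (d + 1) ^ 2 = (d + 1) * d + (d + 1) := by ring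
    omega

/-- cells of a chart with the same ancestors -/
lemma chart_up_eq {t : P} {S : ℕ × ℕ → Prop} (hS : ∀ a c, S (a + 1, c) → S (a, c)) {Nc : Finset P}
    {co : P → ℕ × ℕ} (C : Chart t S Nc co) {x x' : P} (hx : x ∈ Nc) (hx' : x' ∈ Nc)
    (hup : ∀ u, x < u ↔ x' < u) (h1 : 1 ≤ (co x).1) (h1' : 1 ≤ (co x').1) : x = x' := by
  have key : ∀ x x' : P, x ∈ Nc → x' ∈ Nc → (∀ u, x < u ↔ x' < u) → 1 ≤ (co x).1 →
      ¬ (co x).1 < (co x').1 := by
    intro x x' hx hx' hup h1 hlt
    have e1 := C.lev x hx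
    have e2 := C.lev x' hx'
    have e3 : lev x = lev x' := lev_eq_of_up hup
    have hm := C.mem x hx
    obtain ⟨a, ha⟩ : ∃ a, (co x).1 = a + 1 := ⟨(co x).1 - 1, by omega⟩
    have hm' : S (a, (co x).2) := by
      apply hS
      rw [← ha]
      exact hm
    obtain ⟨u, hu, hcu⟩ := C.low x hx (a, (co x).2) ⟨by simp only; omega, le_rfl⟩ hm'
    have h2 : x ≤ u := (C.le_iff x hx u hu).mpr (by
      rw [hcu]
      exact ⟨by simp only; omega, le_rfl⟩)
    have h3 : x < u := lt_of_le_of_ne h2 (by
      rintro rfl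
      rw [hcu] at ha
      simp only at ha
      omega)
    have h4 := (C.le_iff x' hx' u hu).mp ((hup u).mp h3).le
    rw [hcu] at h4
    have h5 : (co x).2 ≤ (co x').2 := h4.2
    omega
  have e1 := C.lev x hx
  have e2 := C.lev x' hx'
  have e3 : lev x = lev x' := lev_eq_of_up hup
  have h2 := key x x' hx hx' hup h1
  have h3 := key x' x hx' hx (fun u => (hup u).symm) h1'
  exact C.inj x hx x' hx' (Prod.ext (by omega) (by omega))

/-- the natural elements which are not straight have different ancestors -/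
theorem Wk.nat_up_inj (W : Wk r j w K0 N b θ) (L : Unq P w b) {x x' : P} (hx : x ∉ unnat N)
    (hx' : x' ∉ unnat N) (hup : ∀ u, x < u ↔ x' < u) (hl : j ≤ lev x) (h2 : nab w x ≠ 1) :
    x = x' := by
  have HN := W.natSys
  have hj := W.hj
  have hw := W.hw
  have e0 : lev x = lev x' := lev_eq_of_up hup
  have hxt : x ∈ N (topOf x) := HN.mem_iff.mpr ⟨hx, rfl⟩
  have hxt' : x' ∈ N (topOf x') := HN.mem_iff.mpr ⟨hx', rfl⟩
  have hne : x ≠ (topOf x : P) := by
    intro h
    have h3 : lev (topOf x : P) = 0 := (topOf x).2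
    rw [← h] at h3
    omega
  have htop : topOf x = topOf x' := by
    have h3 : x < (topOf x : P) := lt_of_le_of_ne (le_topOf x) hne
    have h4 : x' ≤ (topOf x : P) := ((hup _).mp h3).le
    exact Subtype.ext (HN.top_eq hxt' (topOf x).2 h4)
  have h2' : nab w x' ≠ 1 := by
    rw [← nab_congr_up (x := x') (y := x) (fun v => hup v) (by omega)]
    exact h2
  have hth : ∀ y : P, y ∉ unnat N → j ≤ lev y → nab w y ≠ 1 →
      1 ≤ w ∧ θ (topOf y) y + 1 ≤ lev y - w := by
    intro y hy hly hny
    rcases W.cases hy hly with h | h | h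
    · exact absurd (W.str_nab L hy h hly) hny
    · exact ⟨h.one_le, h.th.le⟩
    · exact ⟨h.one_le, h.th⟩
  obtain ⟨hw1, t1⟩ := hth x hx hl h2
  obtain ⟨-, t2⟩ := hth x' hx' (by omega) h2'
  rw [← htop] at t2 hxt'
  generalize topOf x = t at hxt hxt' t1 t2
  rcases W.typ t with ⟨g1, g2, g3, g5⟩ | ⟨Nc, co, h0, g1, g2, g4⟩ |
    ⟨Nc, co, h0, g1, g2, g3, g4, g5'⟩
  · exfalso
    rw [g2] at t1
    simp only at t1
    omega
  · have key : ∀ y : P, y ∈ N t → w + 5 ≤ lev y → θ t y + 1 ≤ lev y - w →
        y ∈ Nc ∧ 1 ≤ (co y).1 := by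
      intro y hy hly hty
      rw [g1] at hy
      rw [g2] at hty
      by_cases hJ : y ∈ junk (fun _ => True) Nc co ∨ y ∈ junk (fun _ => True) Nc (swp co)
      · exfalso
        unfold thR at hty
        rw [if_pos hJ] at hty
        omega
      · have hyN : y ∈ Nc := by
          rw [mem_natR] at hy
          rcases hy with h | h | h
          · exact h
          · exact absurd (Or.inl h) hJ
          · exact absurd (Or.inr h) hJ
        have := rect_th7 h0 hw hyN hJ hly
        exact ⟨hyN, by omega⟩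
    obtain ⟨a1, a2⟩ := key x hxt (by omega) t1
    obtain ⟨b1, b2⟩ := key x' hxt' (by omega) t2
    exact chart_up_eq (fun _ _ _ => trivial) h0.chart a1 b1 hup a2 b2
  · have key : ∀ y : P, y ∈ N t → w + 5 ≤ lev y → θ t y + 1 ≤ lev y - w →
        y ∈ Nc ∧ 1 ≤ (co y).1 := by
      intro y hy hly hty
      rw [g1] at hy
      rw [g2] at hty
      by_cases hJ : y ∈ junk (fun c => c.1 ≤ c.2) Nc co
      · exfalso
        unfold thS at hty
        rw [if_pos hJ] at hty
        omega
      · have hyN : y ∈ Nc := by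
          rw [mem_natS] at hy
          rcases hy with h | h
          · exact h
          · exact absurd h hJ
        have := stair_th7 h0 hw g4 hyN hJ hly
        exact ⟨hyN, by omega⟩
    obtain ⟨a1, a2⟩ := key x hxt (by omega) t1
    obtain ⟨b1, b2⟩ := key x' hxt' (by omega) t2
    exact chart_up_eq (fun a c h => by simp only at h ⊢; omega) h0.chart a1 b1 hup a2 b2

/-- **a twin with at most two ancestors on each level bounds the least raised cost** -/
theorem Wk.twin_le (W : Wk r j w K0 N b θ) (L : Unq P w b) {v : ℕ} (M : MnS j w N b θ v)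
    {x x' : P} {a : ℕ} (hne : x ≠ x') (hup : ∀ u, x < u ↔ x' < u) (hl : lev x = w + a)
    (hj : j < lev x) (hn : ∀ k, w ≤ k → k < lev x → nab k x ≤ 2) (h2 : nab w x ≠ 1) :
    v + 1 ≤ a ^ 2 + a := by
  have hj6 := W.hj
  have hw := W.hw
  have key : ∀ y y' : P, (∀ u, y < u ↔ y' < u) → lev y = w + a → (∀ k, w ≤ k → k < lev y →
      nab k y ≤ 2) → y ∈ unnat N → v + 1 ≤ a ^ 2 + a := by
    intro y y' hy hly hny hyu
    by_cases hyt : y ∈ twA N
    · have T := W.twn hyt
      have e0 := W.twSys.up y hyt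
      have el : lev (twT N y) = lev y := lev_eq_of_up e0
      have en : ∀ k, k < lev y → nab k (twT N y) = nab k y := fun k hk => nab_congr_up e0 hk
      have hns : ¬ Spc j w N b θ (twT N y) := by
        rintro ⟨Nc, co, C⟩
        have h3 := C.nab (by omega) (k := 4) (by omega)
        have h4 := en 4 (by omega)
        have h5 := hny 4 (by omega) (by omega)
        omega
      have h3 := M.tw y hyt
      unfold tcS at h3
      rw [if_neg hns, tcst_cst T] at h3
      simp only at h3
      have h4 := cst_le_ful w (fun _ => thA N θ (twT N y) + 1) (twT N y)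
      have h5 := ful_le_sq (w := w) (x := twT N y) (a := a) (by omega) (fun k hk hk2 => by
        rw [en k (by omega)]
        exact hny k hk (by omega))
      have h6 := T.lt
      simp only at h6
      omega
    · have h3 : v ≤ ful w y := min_le_ful (rA_pos W) M.bd (mem_rA.mpr ⟨hyu, hyt⟩)
      have h5 := ful_le_sq (w := w) (x := y) (a := a) hly hny
      omega
  by_cases hx : x ∈ unnat N
  · exact key x x' hup hl hn hx
  · by_cases hx' : x' ∈ unnat N
    · have el : lev x = lev x' := lev_eq_of_up hup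
      refine key x' x (fun u => (hup u).symm) (by omega) (fun k hk hk2 => ?_) hx'
      rw [nab_congr_up (x := x) (y := x') (fun v => (hup v).symm) (by omega)]
      exact hn k hk (by omega)
    · exact absurd (W.nat_up_inj L hx hx' hup hj.le h2) hne

end Pool.Agent.GaussPoset.Sm
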