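import Pool.Agent.W_448s7_h27.FarIE
import Pool.Agent.W_448s7_h5.SevM

/-!
Windows at which some tops (`E`) have a second, larger natural system of lower order: the systems
`N^S` and the equivalence needed for inclusion-exclusion (MP_448cb3_co).
-/

namespace Pool.Agent.GaussPoset.Ew

set_option linter.unusedSectionVars false

open Polynomial Finset

universe u

variable {P : Type u} [Fintype P] [PartialOrder P] [DecidableEq P]
variable {i : ℕ} {N N1 : Tops P → Finset P} {b : Tops P → ℕ} {θ θ1 : Tops P → P → ℕ}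
  {E S : Finset (Tops P)} {Y : Finset P} {τ : P → P}

open Classical in
/-- natural sets: the tops in `S` have the second one -/
noncomputable def NS (N N1 : Tops P → Finset P) (S : Finset (Tops P)) (t : Tops P) : Finset P :=
  if t ∈ S then N1 t else N t

open Classical in
/-- orders -/
noncomputable def bS (b : Tops P → ℕ) (S : Finset (Tops P)) (t : Tops P) : ℕ :=
  if t ∈ S then b t - 1 else b t

open Classical in
/-- thresholds -/
noncomputable def tS (θ θ1 : Tops P → P → ℕ) (S : Finset (Tops P)) (t : Tops P) : P → ℕ :=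
  if t ∈ S then θ1 t else θ t

open Classical in
/-- the twins of the system `S` -/
noncomputable def YS (E : Finset (Tops P)) (Y : Finset P) (S : Finset (Tops P)) : Finset P :=
  Y.filter (fun x => topOf x ∉ E ∨ topOf x ∈ S)

/-- the context of the window `i` with the defect tops `E` -/
structure EW (i : ℕ) (E : Finset (Tops P)) (N N1 : Tops P → Finset P) (b : Tops P → ℕ)
    (θ θ1 : Tops P → P → ℕ) (Y : Finset P) (τ : P → P) : Prop where
  gr : GradedBelow P
  nat : ∀ t, ∃ B, NatTop i t (b t) (N t) (θ t) B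
  nat1 : ∀ t ∈ E, ∃ B, NatTop i t (b t - 1) (N1 t) (θ1 t) B
  one : ∀ t ∈ E, 1 ≤ b t
  sub : ∀ t ∈ E, N t ⊆ N1 t
  le1 : ∀ t ∈ E, ∀ x ∈ N t, θ t x ≤ θ1 t x
  le2 : ∀ t ∈ E, ∀ x ∈ N1 t, x ∉ N t → ∀ y ∈ N t, x ≤ y → θ t y ≤ θ1 t x
  tw : TwSys (unnat (NS N N1 E)) Y topOf τ
  twE : ∀ x ∈ Y, topOf x ∈ E → τ x ∈ N (topOf x) ∧
    ∀ y, x ⋖ y → θ (topOf x) y ≤ θ1 (topOf x) (τ x)
  twn : ∀ x ∈ Y, Twn i (thX Y τ (fun x => tS θ θ1 E (topOf x) x)) (τ x, x)

/-- the far set of the system `S` -/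
noncomputable def RS (E : Finset (Tops P)) (N N1 : Tops P → Finset P) (Y : Finset P)
    (S : Finset (Tops P)) : Finset P := unnat (NS N N1 S) \ YS E Y S

/-- the thresholds of the system `S` -/
noncomputable def thS (E : Finset (Tops P)) (θ θ1 : Tops P → P → ℕ) (Y : Finset P) (τ : P → P)
    (S : Finset (Tops P)) : P → ℕ :=
  thX (YS E Y S) τ (fun x => tS θ θ1 S (topOf x) x)

/-- the labels of the system `S` -/
noncomputable def hS (E : Finset (Tops P)) (N N1 : Tops P → Finset P) (θ θ1 : Tops P → P → ℕ)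
    (Y : Finset P) (τ : P → P) (S : Finset (Tops P)) : P → ℕ :=
  hcan (RS E N N1 Y S) (thS E θ θ1 Y τ S)

lemma NS_of {t : Tops P} (h : t ∈ S) : NS N N1 S t = N1 t := if_pos h

lemma NS_not {t : Tops P} (h : t ∉ S) : NS N N1 S t = N t := if_neg h

lemma tS_of {t : Tops P} (h : t ∈ S) : tS θ θ1 S t = θ1 t := if_pos h

lemma tS_not {t : Tops P} (h : t ∉ S) : tS θ θ1 S t = θ t := if_neg h

lemma mem_YS {x : P} : x ∈ YS E Y S ↔ x ∈ Y ∧ (topOf x ∉ E ∨ topOf x ∈ S) := by
  classical
  unfold YS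
  rw [mem_filter]

lemma YS_self : YS E Y E = Y := by
  ext x
  rw [mem_YS]
  constructor
  · exact fun h => h.1
  · exact fun h => ⟨h, (em (topOf x ∈ E)).symm⟩

section

variable (W : EW i E N N1 b θ θ1 Y τ)

include W

/-- natural tops of the system `S` -/
theorem EW.natS (hS : S ⊆ E) (t : Tops P) :
    ∃ B, NatTop i t (bS b S t) (NS N N1 S t) (tS θ θ1 S t) B := by
  by_cases h : t ∈ S
  · rw [NS_of h, tS_of h]
    have h1 : bS b S t = b t - 1 := if_pos h
    rw [h1]
    exact W.nat1 t (hS h)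
  · rw [NS_not h, tS_not h]
    have h1 : bS b S t = b t := if_neg h
    rw [h1]
    exact W.nat t

lemma EW.natSysS (hS : S ⊆ E) : NatSys (NS N N1 S) := by
  choose B hB using W.natS hS
  exact natSys_of_tops hB

lemma EW.natSys : NatSys N := by
  choose B hB using W.nat
  exact natSys_of_tops hB

/-- the order of the system `S` -/
theorem EW.sum_bS (hS : S ⊆ E) : ∑ t, bS b S t + S.card = ∑ t, b t := by
  classical
  have h1 : ∑ t, b t = ∑ t, (bS b S t + if t ∈ S then 1 else 0) := by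
    refine Finset.sum_congr rfl fun t _ => ?_
    unfold bS
    by_cases h : t ∈ S
    · have := W.one t (hS h)
      rw [if_pos h, if_pos h]
      omega
    · rw [if_neg h, if_neg h]
      rfl
  rw [h1, Finset.sum_add_distrib]
  congr 1
  rw [Finset.sum_ite_mem, univ_inter, Finset.sum_const, smul_eq_mul, mul_one]

lemma EW.NS_mono (hS : S ⊆ E) (t : Tops P) : NS N N1 S t ⊆ NS N N1 E t := by
  by_cases h : t ∈ S
  · rw [NS_of h, NS_of (hS h)]
  · rw [NS_not h]
    by_cases h' : t ∈ E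
    · rw [NS_of h']
      exact W.sub t h'
    · rw [NS_not h']

lemma EW.unnat_anti (hS : S ⊆ E) : unnat (NS N N1 E) ⊆ unnat (NS N N1 S) := by
  intro x hx
  rw [mem_unnat] at hx ⊢
  exact fun t h => hx t (W.NS_mono hS t h)

/-- elements natural in both systems -/
lemma EW.nat_of_not (hS : S ⊆ E) {x : P} (hx : x ∉ unnat (NS N N1 E))
    (ht : topOf x ∉ E ∨ topOf x ∈ S) : x ∉ unnat (NS N N1 S) := by
  have HE := W.natSysS (Finset.Subset.refl E)
  have h1 : x ∈ NS N N1 E (topOf x) := HE.mem_iff.mpr ⟨hx, rfl⟩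
  intro h
  refine mem_unnat.mp h (topOf x) ?_
  rcases ht with ht | ht
  · rw [NS_not ht] at h1
    rw [NS_not (fun h => ht (hS h))]
    exact h1
  · rw [NS_of (hS ht)] at h1
    rw [NS_of ht]
    exact h1

theorem EW.twS (hS : S ⊆ E) : TwSys (unnat (NS N N1 S)) (YS E Y S) topOf τ where
  sub := fun x hx => W.unnat_anti hS (W.tw.sub (mem_YS.mp hx).1)
  nat := by
    intro x hx
    obtain ⟨hx, ht⟩ := mem_YS.mp hx
    refine W.nat_of_not hS (W.tw.nat x hx) ?_
    rw [W.tw.cp x hx]
    exact ht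
  up := fun x hx => W.tw.up x (mem_YS.mp hx).1
  inj := fun x hx y hy => W.tw.inj x (mem_YS.mp hx).1 y (mem_YS.mp hy).1
  anti := fun x hx y hy => W.tw.anti x (mem_YS.mp hx).1 y (mem_YS.mp hy).1
  cp := fun x hx => W.tw.cp x (mem_YS.mp hx).1

/-- an element of a top outside `E` or in `S` is a twin in both systems or in none -/
lemma YS_iff {x : P} (ht : topOf x ∉ E ∨ topOf x ∈ S) : x ∈ YS E Y S ↔ x ∈ Y := by
  rw [mem_YS]
  exact ⟨fun h => h.1, fun h => ⟨h, ht⟩⟩

/-- the thresholds of two systems agree away from `E \ S` -/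
lemma EW.thS_eq (hS : S ⊆ E) {x : P} (ht : topOf x ∉ E ∨ topOf x ∈ S) :
    thS E θ θ1 Y τ S x = thS E θ θ1 Y τ E x := by
  have key : ∀ y, topOf y ∉ E ∨ topOf y ∈ S → tS θ θ1 S (topOf y) y = tS θ θ1 E (topOf y) y := by
    intro y hy
    rcases hy with hy | hy
    · rw [tS_not (fun h => hy (hS h)), tS_not hy]
    · rw [tS_of hy, tS_of (hS hy)]
  unfold thS
  rw [YS_self]
  by_cases hx : x ∈ Y
  · rw [thX_of ((YS_iff W ht).mpr hx), thX_of hx]
    refine key _ ?_
    rw [W.tw.cp x hx]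
    exact ht
  · rw [thX_not (fun h => hx (mem_YS.mp h).1), thX_not hx]
    exact key _ ht

theorem EW.twnS (hS : S ⊆ E) : ∀ x ∈ YS E Y S, Twn i (thS E θ θ1 Y τ S) (τ x, x) := by
  intro x hx
  obtain ⟨hx, ht⟩ := mem_YS.mp hx
  have h := W.twn x hx
  have hdef : thS E θ θ1 Y τ E = thX Y τ (fun x => tS θ θ1 E (topOf x) x) := by
    unfold thS
    rw [YS_self]
  rw [← hdef] at h
  have hτ : topOf (τ x) ∉ E ∨ topOf (τ x) ∈ S := by rw [W.tw.cp x hx]; exact ht
  have e1 : thS E θ θ1 Y τ S (τ x) = thS E θ θ1 Y τ E (τ x) := W.thS_eq hS hτ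
  have e2 : thS E θ θ1 Y τ S x = thS E θ θ1 Y τ E x := W.thS_eq hS ht
  refine ⟨h.ne, h.up, ?_, ?_, ?_, ?_⟩
  · show 1 ≤ thS E θ θ1 Y τ S (τ x)
    rw [e1]; exact h.one_le
  · show thS E θ θ1 Y τ S x = thS E θ θ1 Y τ S (τ x)
    rw [e1, e2]; exact h.eq
  · show thS E θ θ1 Y τ S (τ x) + 1 ≤ lev (τ x) - i
    rw [e1]; exact h.lt
  · intro y hy
    show thS E θ θ1 Y τ S y ≤ thS E θ θ1 Y τ S (τ x) + 1
    have hHE := W.natSysS (Finset.Subset.refl E)
    have hcp : topOf (τ x) = topOf y := hHE.cp _ _ (le_of_lt hy) (W.tw.nat x hx)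
    have e3 : thS E θ θ1 Y τ S y = thS E θ θ1 Y τ E y := W.thS_eq hS (hcp ▸ hτ)
    rw [e1, e3]
    exact h.mono y hy

lemma EW.tcst_eq (hS : S ⊆ E) {x : P} (hx : x ∈ YS E Y S) :
    tcst i (thS E θ θ1 Y τ S) (τ x, x) = tcst i (thS E θ θ1 Y τ E) (τ x, x) := by
  obtain ⟨hx, ht⟩ := mem_YS.mp hx
  have hτ : topOf (τ x) ∉ E ∨ topOf (τ x) ∈ S := by rw [W.tw.cp x hx]; exact ht
  unfold tcst
  rw [tcst_congr (t := (τ x, x)) (W.thS_eq hS hτ)]

theorem EW.farX (hS : S ⊆ E) (n0 : ℕ)
    (hcost : ∀ x ∈ Y, n0 ≤ tcst i (thS E θ θ1 Y τ E) (τ x, x)) :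
    FarX P i (RS E N N1 Y S) (∑ t, bS b S t) (Ew.hS E N N1 θ θ1 Y τ S) (thS E θ θ1 Y τ S)
      (pairsX (YS E Y S) τ) n0 := by
  choose B hB using W.natS hS
  refine farX_of_tops W.gr hB (W.twS hS) n0 (W.twnS hS) ?_
  intro x hx
  have h1 := hcost x (mem_YS.mp hx).1
  rw [← W.tcst_eq hS hx] at h1
  exact h1

/-- divisibility of the part without dangerous elements -/
theorem EW.dvd_ND (hS : S ⊆ E) (n : ℕ)
    (hcost : ∀ x ∈ Y, n < tcst i (thS E θ θ1 Y τ E) (τ x, x)) :
    (1 + X : ℤ[X]) ^ (∑ t, bS b S t) ∣ ND i (RS E N N1 Y S) (Ew.hS E N N1 θ θ1 Y τ S) n := by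
  classical
  have H := W.farX hS n (fun x hx => (hcost x hx).le)
  refine GaussPoset.dvd_ND H.hlev _ n fun g h1 h2 => ?_
  by_cases hg : g = 0
  · have h3 := H.zero
    have h4 : (pairsX (YS E Y S) τ).filter
        (fun t => tcst i (thS E θ θ1 Y τ S) t = n) = ∅ := by
      rw [Finset.filter_eq_empty_iff]
      intro t ht h5
      rw [mem_pairsX] at ht
      have h6 := hcost t.2 (mem_YS.mp ht.1).1
      rw [← W.tcst_eq hS ht.1] at h6
      have e3 : t = (τ t.2, t.2) := Prod.ext ht.2 rfl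
      rw [e3] at h5
      omega
    rw [h4, Finset.sum_empty, sub_zero] at h3
    rw [hg]
    exact h3
  · exact H.clean g h1 h2 hg

lemma EW.lev_RS (hS : S ⊆ E) : ∀ x ∈ RS E N N1 Y S, i < lev x := by
  intro x hx
  by_contra hcon
  choose B hB using W.natS hS
  exact low_natural hB (not_lt.mp hcon) (mem_sdiff.mp hx).1

lemma EW.lower_RS (hS : S ⊆ E) : ∀ x y, x ≤ y → y ∈ RS E N N1 Y S → x ∈ RS E N N1 Y S :=
  (W.twS hS).lower (W.natSysS hS).lower

lemma EW.th_le (hS : S ⊆ E) {x : P} (hx : x ∉ RS E N N1 Y S) :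
    thS E θ θ1 Y τ S x ≤ lev x - i := by
  have key : ∀ y, y ∉ unnat (NS N N1 S) → tS θ θ1 S (topOf y) y ≤ lev y - i := by
    intro y hy
    choose B hB using W.natS hS
    have hsys := natSys_of_tops hB
    have h1 : y ∈ NS N N1 S (topOf y) := hsys.mem_iff.mpr ⟨hy, rfl⟩
    exact ((hB (topOf y)).data _ hsys rfl (tS θ θ1 S (topOf y)) (B (topOf y)) (fun _ _ => rfl)
      (fun _ _ => Iff.rfl)).le y hy rfl
  unfold thS
  by_cases hY : x ∈ YS E Y S
  · rw [thX_of hY]
    have h1 := key _ ((W.twS hS).nat x hY)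
    have h2 : lev (τ x) = lev x := lev_eq_of_up ((W.twS hS).up x hY)
    rwa [h2] at h1
  · rw [thX_not hY]
    refine key _ fun h => hx ?_
    exact mem_sdiff.mpr ⟨h, hY⟩

lemma EW.RS_sub (hS : S ⊆ E) : RS E N N1 Y E ⊆ RS E N N1 Y S := by
  intro x hx
  have h := mem_sdiff.mp hx
  rw [YS_self] at h
  exact mem_sdiff.mpr ⟨W.unnat_anti hS h.1, fun h' => h.2 (mem_YS.mp h').1⟩

end

/-- all labels of the far set are at most the thresholds -/
def Ok (R : Finset P) (θ e : P → ℕ) : Prop := ∀ z ∈ R, ∀ x, x ∉ R → z ⋖ x → e z ≤ θ x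

/-- no dangerous element iff all labels are small -/
theorem ok_iff {i : ℕ} {R : Finset P} {θ e : P → ℕ} {F : Finset P} (hgr : GradedBelow P)
    (hlev : ∀ x ∈ R, i < lev x) (hle : ∀ x, x ∉ R → θ x ≤ lev x - i) (hV : Vd i e F) :
    (∀ z ∈ bdR R, ¬ Dgz (hcan R θ) e F z) ↔ Ok R θ e := by
  classical
  constructor
  · intro h z hz x hx hzx
    have h1 : z ∈ bdR R := mem_filter.mpr ⟨hz, x, hx, hzx⟩
    have h2 := h z h1
    have h3 := hcan_le (θ := θ) hx hzx
    unfold Dgz at h2
    push Not at h2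
    omega
  · intro h z hz hd
    obtain ⟨x, hx, hzx, hx2⟩ := hcan_spec (θ := θ) hz
    have hzR := (mem_filter.mp hz).1
    have h1 := h z hzR x hx hzx
    have h2 := hle x hx
    have h3 := hlev z hzR
    have h4 := hgr.lev_covBy hzx
    rcases hd with hd | hd
    · have h5 := sub_le_of_mem hV hd
      omega
    · omega

section

variable (W : EW i E N N1 b θ θ1 Y τ)

open Classical in
/-- the tops of `E` which are hit beyond the threshold -/
noncomputable def KE (E : Finset (Tops P)) (N : Tops P → Finset P) (θ : Tops P → P → ℕ)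
    (e : P → ℕ) : Finset (Tops P) :=
  E.filter (fun t => ∃ z x, z ⋖ x ∧ x ∈ N t ∧ z ∉ N t ∧ θ t x < e z)

lemma mem_KE {t : Tops P} {e : P → ℕ} :
    t ∈ KE E N θ e ↔ t ∈ E ∧ ∃ z x, z ⋖ x ∧ x ∈ N t ∧ z ∉ N t ∧ θ t x < e z := by
  classical
  unfold KE
  rw [mem_filter]

include W

/-- an element below a natural element of a top of `E` which is not natural is in the far set -/
lemma EW.far_of_cov (hS : S ⊆ E) {t : Tops P} (htE : t ∈ E) (htS : t ∉ S) {z x : P} (hzx : z ⋖ x)
    (hx : x ∈ N t) (hz : z ∉ N t) : z ∈ RS E N N1 Y S ∧ x ∉ RS E N N1 Y S ∧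
      thS E θ θ1 Y τ S x = θ t x := by
  have HS := W.natSysS hS
  have HE := W.natSysS (Finset.Subset.refl E)
  have hx' : x ∈ NS N N1 S t := by rw [NS_not htS]; exact hx
  have htop : topOf x = t := HS.topOf_eq hx'
  have hxu : x ∉ unnat (NS N N1 S) := (HS.mem_iff.mp hx').1
  refine ⟨mem_sdiff.mpr ⟨?_, ?_⟩, fun h => hxu (mem_sdiff.mp h).1, ?_⟩
  · rw [mem_unnat]
    intro s hs
    have h1 : x ∈ NS N N1 S s := HS.up s z hs x hzx.1.le
    have h2 : s = t := (HS.topOf_eq h1).symm.trans htop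
    rw [h2, NS_not htS] at hs
    exact hz hs
  · intro hzY
    obtain ⟨hzY, h1⟩ := mem_YS.mp hzY
    have h2 := W.tw.nat z hzY
    have h3 : τ z < x := (W.tw.up z hzY x).mpr hzx.1
    have h4 : topOf (τ z) = topOf x := HE.cp _ _ h3.le h2
    rw [W.tw.cp z hzY, htop] at h4
    rw [h4] at h1
    rcases h1 with h1 | h1
    · exact h1 htE
    · exact htS h1
  · have hxY : x ∉ YS E Y S := fun h => hxu ((W.twS hS).sub h)
    unfold thS
    rw [thX_not hxY, htop, tS_not htS]

/-- **The equivalence.** -/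
theorem EW.ok_iff_S (hS : S ⊆ E) {e : P → ℕ} {F : Finset P} (hV : Vd i e F) :
    Ok (RS E N N1 Y S) (thS E θ θ1 Y τ S) e ↔
      (Ok (RS E N N1 Y E) (thS E θ θ1 Y τ E) e ∧ KE E N θ e ⊆ S) := by
  classical
  have HS := W.natSysS hS
  have HE := W.natSysS (Finset.Subset.refl E)
  have hsub := W.RS_sub hS
  have hmono : ∀ z x1 x2 : P, z ∈ RS E N N1 Y S → x1 ∈ RS E N N1 Y S → x2 ∉ RS E N N1 Y S →
      z ≤ x1 → x1 ⋖ x2 → e x1 ≤ thS E θ θ1 Y τ S x2 → e z ≤ e x1 := by
    intro z x1 x2 hz h1 h2 hzx hc he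
    have h3 := W.th_le hS h2
    have hl2 := W.gr.lev_covBy hc
    have hl1 := W.lev_RS hS x1 h1
    have hlz := W.lev_RS hS z hz
    have hx1F : x1 ∉ F := by
      intro hF
      have := sub_le_of_mem hV hF
      omega
    have hzF : z ∉ F := fun h => hx1F (hV.1 z x1 hzx h)
    have h4 := hV.2.2.1 z x1 hzx hzF hx1F
    rw [rho_of_lt hlz, rho_of_lt hl1] at h4
    exact_mod_cast h4
  have hYE : ∀ x ∈ Y, x ∈ unnat (NS N N1 E) := fun x hx => W.tw.sub hx
  constructor
  · intro hok
    refine ⟨?_, ?_⟩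
    · intro z hz x hx hzx
      have hzS := hsub hz
      by_cases hxS : x ∈ RS E N N1 Y S
      · -- `x` is an own element of a top of `E \ S`
        have ht : topOf x ∈ E ∧ topOf x ∉ S := by
          by_contra hcon
          have ht' : topOf x ∉ E ∨ topOf x ∈ S := by
            by_cases h : topOf x ∈ E
            · exact Or.inr (by by_contra h'; exact hcon ⟨h, h'⟩)
            · exact Or.inl h
          obtain ⟨h1, h2⟩ := mem_sdiff.mp hxS
          rw [YS_iff W ht'] at h2
          refine hx (mem_sdiff.mpr ⟨?_, by rw [YS_self]; exact h2⟩)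
          by_contra h3
          exact W.nat_of_not hS h3 ht' h1
        by_cases hxY : x ∈ Y
        · -- a twin
          obtain ⟨g1, g2⟩ := W.twE x hxY ht.1
          have hlx := W.lev_RS hS x hxS
          have hlt : x < (topOf x : P) := by
            refine lt_of_le_of_ne (le_topOf x) fun h => ?_
            have h2 : lev (topOf x : P) = 0 := (topOf x).2
            rw [← h] at h2
            omega
          obtain ⟨y, hy, -⟩ := exists_covBy_le_of_lt hlt
          have hyN : y ∈ N (topOf x) :=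
            W.natSys.up _ _ g1 y ((W.tw.up x hxY y).mpr hy.1).le
          have hxN : x ∉ N (topOf x) := fun h => by
            have h1 := hYE x hxY
            refine mem_unnat.mp h1 (topOf x) ?_
            rw [NS_of ht.1]
            exact W.sub _ ht.1 h
          obtain ⟨f1, f2, f3⟩ := W.far_of_cov hS ht.1 ht.2 hy hyN hxN
          have h1 := hok x hxS y f2 hy
          have h2 := hmono z x y hzS hxS f2 hzx.1.le hy h1
          rw [f3] at h1
          have h3 := g2 y hy
          have h4 : thS E θ θ1 Y τ E x = θ1 (topOf x) (τ x) := by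
            unfold thS
            rw [YS_self, thX_of hxY, W.tw.cp x hxY, tS_of ht.1]
          rw [h4]
          omega
        · -- an element of the larger natural set
          have hxu : x ∉ unnat (NS N N1 E) := fun h =>
            hx (mem_sdiff.mpr ⟨h, by rw [YS_self]; exact hxY⟩)
          have hxN1 : x ∈ N1 (topOf x) := by
            have := HE.mem_iff.mpr ⟨hxu, rfl⟩
            rwa [NS_of ht.1] at this
          have hxN : x ∉ N (topOf x) := fun h => by
            refine mem_unnat.mp (mem_sdiff.mp hxS).1 (topOf x) ?_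
            rw [NS_not ht.2]
            exact h
          choose B hB using W.natS hS
          have htop0 : (topOf x : P) ∉ unnat (NS N N1 S) := by
            have h2 : lev (topOf x : P) = 0 := (topOf x).2
            exact low_natural hB (by omega)
          have hne : (topOf x : P) ∉ RS E N N1 Y S := fun h => htop0 (mem_sdiff.mp h).1
          obtain ⟨x1, x2, f1, f2, f3, f4, f5⟩ := exists_exit hxS hne (le_topOf x)
          have hxx2 : x ≤ x2 := f1.trans f3.1.le
          have hx2E : x2 ∈ NS N N1 E (topOf x) :=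
            HE.up _ x (HE.mem_iff.mpr ⟨hxu, rfl⟩) x2 hxx2
          have hx2u : x2 ∉ unnat (NS N N1 E) := (HE.mem_iff.mp hx2E).1
          have hx2S : x2 ∉ unnat (NS N N1 S) := by
            intro h
            refine f4 (mem_sdiff.mpr ⟨h, fun h' => hx2u (hYE x2 (mem_YS.mp h').1)⟩)
          have hx2N : x2 ∈ N (topOf x) := by
            have h1 := HS.mem_iff.mpr ⟨hx2S, rfl⟩
            rw [(HE.mem_iff.mp hx2E).2, NS_not ht.2] at h1
            exact h1
          have hx1N : x1 ∉ N (topOf x) := fun h => by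
            refine mem_unnat.mp (mem_sdiff.mp f2).1 (topOf x) ?_
            rw [NS_not ht.2]
            exact h
          obtain ⟨k1, k2, k3⟩ := W.far_of_cov hS ht.1 ht.2 f3 hx2N hx1N
          have h1 := hok x1 f2 x2 f4 f3
          have h2 := hmono z x1 x2 hzS f2 f4 (hzx.1.le.trans f1) f3 h1
          rw [k3] at h1
          have h3 := W.le2 _ ht.1 x hxN1 hxN x2 hx2N hxx2
          have h4 : thS E θ θ1 Y τ E x = θ1 (topOf x) x := by
            unfold thS
            rw [YS_self, thX_not hxY, tS_of ht.1]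
          rw [h4]
          omega
      · have h1 := hok z hzS x hxS hzx
        by_cases ht : topOf x ∉ E ∨ topOf x ∈ S
        · rwa [W.thS_eq hS ht] at h1
        · push Not at ht
          have hxYS : x ∉ YS E Y S := fun h => by
            rcases (mem_YS.mp h).2 with h | h
            · exact h ht.1
            · exact ht.2 h
          have hxu : x ∉ unnat (NS N N1 S) := fun h => hxS (mem_sdiff.mpr ⟨h, hxYS⟩)
          have hxN : x ∈ N (topOf x) := by
            have := HS.mem_iff.mpr ⟨hxu, rfl⟩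
            rwa [NS_not ht.2] at this
          have hxY : x ∉ Y := fun h => by
            refine mem_unnat.mp (hYE x h) (topOf x) ?_
            rw [NS_of ht.1]
            exact W.sub _ ht.1 hxN
          have h5 : thS E θ θ1 Y τ S x = θ (topOf x) x := by
            unfold thS
            rw [thX_not hxYS, tS_not ht.2]
          have h6 : thS E θ θ1 Y τ E x = θ1 (topOf x) x := by
            unfold thS
            rw [YS_self, thX_not hxY, tS_of ht.1]
          have h7 := W.le1 _ ht.1 x hxN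
          rw [h5] at h1
          rw [h6]
          omega
    · intro t ht
      obtain ⟨htE, z, x, hzx, hx, hz, hlt⟩ := mem_KE.mp ht
      by_contra htS
      obtain ⟨g1, g2, g3⟩ := W.far_of_cov hS htE htS hzx hx hz
      have h1 := hok z g1 x g2 hzx
      omega
  · rintro ⟨hok, hK⟩ z hz x hx hzx
    by_cases ht : topOf x ∉ E ∨ topOf x ∈ S
    · rw [W.thS_eq hS ht]
      have hxE : x ∉ RS E N N1 Y E := fun h => hx (hsub h)
      have hzE : z ∈ RS E N N1 Y E := by
        refine mem_sdiff.mpr ⟨?_, ?_⟩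
        · by_contra hcon
          have h1 : topOf z = topOf x := HE.cp z x hzx.1.le hcon
          exact W.nat_of_not hS hcon (by rw [h1]; exact ht) (mem_sdiff.mp hz).1
        · rw [YS_self]
          intro hzY
          have h2 := W.tw.nat z hzY
          have h3 : τ z < x := (W.tw.up z hzY x).mpr hzx.1
          have h4 : topOf (τ z) = topOf x := HE.cp _ _ h3.le h2
          rw [W.tw.cp z hzY] at h4
          exact (mem_sdiff.mp hz).2 (mem_YS.mpr ⟨hzY, by rw [h4]; exact ht⟩)
      exact hok z hzE x hxE hzx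
    · push Not at ht
      have hxYS : x ∉ YS E Y S := fun h => by
        rcases (mem_YS.mp h).2 with h | h
        · exact h ht.1
        · exact ht.2 h
      have hxu : x ∉ unnat (NS N N1 S) := fun h => hx (mem_sdiff.mpr ⟨h, hxYS⟩)
      have hxN : x ∈ N (topOf x) := by
        have := HS.mem_iff.mpr ⟨hxu, rfl⟩
        rwa [NS_not ht.2] at this
      have hzN : z ∉ N (topOf x) := by
        intro h
        refine mem_unnat.mp (mem_sdiff.mp hz).1 (topOf x) ?_
        rw [NS_not ht.2]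
        exact h
      have h6 : thS E θ θ1 Y τ S x = θ (topOf x) x := by
        unfold thS
        rw [thX_not hxYS, tS_not ht.2]
      rw [h6]
      by_contra hcon
      push Not at hcon
      exact ht.2 (hK (mem_KE.mpr ⟨ht.1, z, x, hzx, hxN, hzN, hcon⟩))

/-- **The window theorem with inclusion-exclusion.**  The least cost in the coarse system is `n`
and no configuration of energy `n` hits more than `d` tops of `E`. -/
theorem EW.sign {n d : ℕ} (hB : ∑ t, b t = (lv P i).card)
    (hZ : (1 + X : ℤ[X]) ^ (lv P i).card ∣ Z P i n)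
    (hcost : ∀ x ∈ Y, n < tcst i (thS E θ θ1 Y τ E) (τ x, x))
    (hmin : ∀ z ∈ bdR (RS E N N1 Y E), n ≤ cst i (hS E N N1 θ θ1 Y τ E) z)
    (hK : ∀ e F, Vd i e F → ∑ x, e x = n → Ok (RS E N N1 Y E) (thS E θ θ1 Y τ E) e →
      (KE E N θ e).card ≤ d)
    {c0 : ℕ} (hc : c0 + d < (lv P i).card)
    (hle : ∀ z ∈ bdR (RS E N N1 Y E), cst i (hS E N N1 θ θ1 Y τ E) z = n →
      c0 + nab i z ≤ (lv P i).card + nab (i + hS E N N1 θ θ1 Y τ E z) z) :
    ∑ z ∈ (bdR (RS E N N1 Y E)).filter (fun z => cst i (hS E N N1 θ θ1 Y τ E) z = n ∧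
        c0 + nab i z = (lv P i).card + nab (i + hS E N N1 θ θ1 Y τ E z) z),
      (-1 : ℤ) ^ (nst i (hS E N N1 θ θ1 Y τ E) z) = 0 := by
  classical
  have hEE := Finset.Subset.refl E
  have HX := W.farX hEE n (fun x hx => (hcost x hx).le)
  have key := far_ie_sign (i := i) (n := n) (d := d) (b := (lv P i).card - d)
    (fun e _ => Ok (RS E N N1 Y E) (thS E θ θ1 Y τ E) e) (fun e _ => KE E N θ e) E
    (fun S => RS E N N1 Y S) (fun S => hS E N N1 θ θ1 Y τ S)
    (fun e F => by
      intro t ht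
      exact (mem_KE.mp ht).1)
    (fun S hS hSd => by
      refine dvd_trans (pow_dvd_pow _ ?_) (W.dvd_ND hS n hcost)
      have := W.sum_bS hS
      omega)
    (fun S hS _ e F hV _ => by
      rw [show Ew.hS E N N1 θ θ1 Y τ S = hcan (RS E N N1 Y S) (thS E θ θ1 Y τ S) from rfl,
        ok_iff W.gr (W.lev_RS hS) (fun x hx => W.th_le hS hx) hV]
      exact W.ok_iff_S hS hV)
    (dvd_trans (pow_dvd_pow _ (Nat.sub_le _ _)) hZ) W.gr (hS E N N1 θ θ1 Y τ E)
    ((bdR (RS E N N1 Y E)).filter (fun z => cst i (hS E N N1 θ θ1 Y τ E) z = n))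
    (fun z hz => by
      have hz' := (mem_filter.mp hz).1
      exact ⟨HX.one_le z hz', HX.le_lev z hz'⟩)
    (fun z hz => (mem_filter.mp hz).2)
    (fun z hz F hV h => by
      have hz' := (mem_filter.mp hz).1
      obtain ⟨x, hx, hzx, hx2⟩ := hcan_spec (θ := thS E θ θ1 Y τ E) hz'
      have h1 := h.1 z (mem_filter.mp hz').1 x hx hzx
      rw [ez_self (HX.le_lev z hz')] at h1
      have h2 : hS E N N1 θ θ1 Y τ E z = thS E θ θ1 Y τ E x + 1 := hx2
      omega)
    (fun e F hV hs hbad => by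
      have hq : ¬ Ok (RS E N N1 Y E) (thS E θ θ1 Y τ E) e := fun h =>
        hbad ⟨h, hK e F hV hs h⟩
      rw [← ok_iff W.gr (W.lev_RS hEE) (fun x hx => W.th_le hEE hx) hV] at hq
      push Not at hq
      obtain ⟨z, hz, hd⟩ := hq
      have h4 : ∀ x, ez i (hS E N N1 θ θ1 Y τ E) z x ≤ e x :=
        ez_le hV (W.lev_RS hEE z (mem_filter.mp hz).1) hd
      have h6 : cst i (hS E N N1 θ θ1 Y τ E) z ≤ n := by
        rw [← hs]; exact Finset.sum_le_sum fun x _ => h4 x
      have h7 : cst i (hS E N N1 θ θ1 Y τ E) z = n := le_antisymm h6 (hmin z hz)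
      refine ⟨z, mem_filter.mpr ⟨hz, h7⟩, ?_⟩
      funext x
      have h9 : ∑ x, ez i (hS E N N1 θ θ1 Y τ E) z x = ∑ x, e x := by
        rw [hs]; exact h7
      exact ((Finset.sum_eq_sum_iff_of_le (fun x _ => h4 x)).mp h9 x (mem_univ x)).symm)
    (c0 := c0) (by omega)
    (fun z hz => hle z (mem_filter.mp hz).1 (mem_filter.mp hz).2)
  rw [Finset.filter_filter] at key
  exact key

end

end Pool.Agent.GaussPoset.Ew
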