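import Pool.Agent.W_448s7_h27.EwE

/-!
Window `4`: the joins of the least cost with a given number of elements of level `4` above them
(MP_448cb3_co, S7).
-/

namespace Pool.Agent.GaussPoset.Ec

set_option linter.unusedSectionVars false

open Polynomial Finset Sm Wd Cp W4 Cl

universe u

variable {P : Type u} [Fintype P] [PartialOrder P] [DecidableEq P] {r j : ℕ}
  {lo hi : Tops P → ℕ → ℕ} {e : Tops P → ℕ → ℕ → P} {N : Tops P → Finset P}
  {θ3 θ4 : Tops P → P → ℕ} {Nf : Tops P → Finset P} {θf : Tops P → (ℕ → ℕ → ℕ) → P → ℕ}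
  {D : Tops P → Prop}

lemma Fs.RS_eq (F : Fs P j lo hi e N θ4 Nf θf D) :
    Ew.RS (ED D) Nf N (twA N) (ED D) = rA N := by
  unfold Ew.RS
  rw [F.NS_eq, Ew.YS_self]

lemma Fs.thS_eq (F : Fs P j lo hi e N θ4 Nf θf D) (tb : ℕ → ℕ → ℕ) :
    Ew.thS (ED D) (fun t => θf t tb) θ4 (twA N) (twT N) (ED D) = thA N θ4 := by
  unfold Ew.thS
  rw [F.tS_eq tb, Ew.YS_self]

lemma Fs.hS_eq (F : Fs P j lo hi e N θ4 Nf θf D) (tb : ℕ → ℕ → ℕ) :
    Ew.hS (ED D) Nf N (fun t => θf t tb) θ4 (twA N) (twT N) (ED D) = hA N θ4 := by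
  unfold Ew.hS
  rw [F.RS_eq, F.thS_eq]

/-- the full cost grows strictly -/
lemma ful_lt {w : ℕ} {z x : P} (hzx : z < x) (hz : w < lev z) : ful w x < ful w z := by
  have h1 := lev_strictAnti hzx
  unfold ful
  rw [Finset.sum_range_succ _ (lev z), nab_self, mul_one]
  have h2 : ∑ k ∈ range (lev x + 1), (k - w) * nab k x ≤ ∑ k ∈ range (lev z), (k - w) * nab k z :=
    calc ∑ k ∈ range (lev x + 1), (k - w) * nab k x
        ≤ ∑ k ∈ range (lev x + 1), (k - w) * nab k z :=
          Finset.sum_le_sum fun k _ => Nat.mul_le_mul_left _ (nab_mono hzx.le)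
      _ ≤ ∑ k ∈ range (lev z), (k - w) * nab k z :=
          Finset.sum_le_sum_of_subset (by
            intro k hk
            rw [mem_range] at hk ⊢
            omega)
  omega

lemma nst_congr {i : ℕ} {h h' : P → ℕ} {z : P} (hh : h z = h' z) : nst i h z = nst i h' z := by
  unfold nst
  rw [hh]

/-- the joins of cost `n` with `q` elements of level `4` above -/
def JQ (P : Type u) [Fintype P] [PartialOrder P] [DecidableEq P] (w n q : ℕ) (z : P) : Prop :=
  (∃ x x', Cg z x x') ∧ ful w z = n ∧ nab w z = q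

open Classical in
/-- the signed number of the joins of cost `n` with `q` elements of level `w` above -/
noncomputable def sJQ (P : Type u) [Fintype P] [PartialOrder P] [DecidableEq P] (w n q : ℕ) : ℤ :=
  ∑ z ∈ (univ : Finset P).filter (JQ P w n q), (-1 : ℤ) ^ (nst w (fun z => lev z - w) z)

lemma nab_le_card (k : ℕ) (z : P) : nab k z ≤ (lv P k).card := by
  classical
  unfold nab
  exact Finset.card_filter_le _ _

variable {K3 K' V3 : ℕ} {b : Tops P → ℕ}

/-- the minimal boundary elements are the cheapest joins -/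
theorem class_eq (W : Wk r j 3 K3 N b θ3) (hj : 4 ≤ j) {n q c0 : ℕ}
    (hmin : ∀ z ∈ bdR (rA N), n ≤ cst 4 (hA N θ4) z)
    (heq : ∀ z ∈ bdR (rA N), cst 4 (hA N θ4) z = n → hA N θ4 z = lev z - 4 ∧ n = ful 4 z ∧
      ∃ x x', Cg z x x')
    (hc0 : c0 + q = (lv P 4).card + 1) :
    ∑ z ∈ (bdR (rA N)).filter (fun z => cst 4 (hA N θ4) z = n ∧
        c0 + nab 4 z = (lv P 4).card + nab (4 + hA N θ4 z) z),
      (-1 : ℤ) ^ (nst 4 (hA N θ4) z) = sJQ P 4 n q := by
  classical
  have hpos := rA_pos W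
  unfold sJQ
  symm
  refine Finset.sum_congr ?_ fun z hz => ?_
  · symm
    ext z
    simp only [mem_filter, mem_univ, true_and]
    constructor
    · rintro ⟨hz, hc, hn⟩
      obtain ⟨h1, h2, h3⟩ := heq z hz hc
      refine ⟨h3, h2.symm, ?_⟩
      have h4 := W.bd_lev hz
      rw [h1, show 4 + (lev z - 4) = lev z by omega, nab_self] at hn
      omega
    · rintro ⟨h3, h2, h1⟩
      obtain ⟨x, x', hx⟩ := h3
      have hzR := join_mem_rA W hx.jn
      obtain ⟨z', hz', hle, -⟩ := exists_bd_above hpos hzR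
      have hlz : j + 1 ≤ lev z := by
        by_contra hcon
        exact W.gt.no_join z (by omega) hx.jn
      have hzz : z = z' := by
        by_contra hne
        have e1 := ful_lt (w := 4) (lt_of_le_of_ne hle hne) (by omega)
        have e2 := hmin z' hz'
        have e3 := cst_le_ful 4 (hA N θ4) z'
        omega
      subst hzz
      have hc : cst 4 (hA N θ4) z = n := le_antisymm (by rw [← h2]; exact cst_le_ful _ _ _)
        (hmin z hz')
      obtain ⟨g1, g2, g3⟩ := heq z hz' hc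
      refine ⟨hz', hc, ?_⟩
      rw [g1, show 4 + (lev z - 4) = lev z by omega, nab_self]
      omega
  · rw [mem_filter] at hz
    obtain ⟨h1, -, -⟩ := heq z hz.1 hz.2.1
    rw [nst_congr (h := hA N θ4) (h' := fun z => lev z - 4) h1]

/-- **The class sum at window `4`**, plain table. -/
theorem Fs.sum_zero (F : Fs P j lo hi e N θ4 Nf θf D) (K : Ctx P r j lo hi e) (h12 : 12 ≤ j)
    (Y : Y4 r j K3 K' V3 N b θ3 θ4) {n d q : ℕ}
    (hZ : (1 + X : ℤ[X]) ^ (lv P 4).card ∣ Z P 4 n)
    (hcost : ∀ x ∈ twA N, n < tcst 4 (thA N θ4) (twT N x, x))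
    (hmin : ∀ z ∈ bdR (rA N), n ≤ cst 4 (hA N θ4) z)
    (heq : ∀ z ∈ bdR (rA N), cst 4 (hA N θ4) z = n → hA N θ4 z = lev z - 4 ∧ n = ful 4 z ∧
      ∃ x x', Cg z x x')
    (hK : ∀ e' F', Vd 4 e' F' → ∑ x, e' x = n → Ew.Ok (rA N) (thA N θ4) e' →
      (Ew.KE (ED D) Nf (fun t => θf t E7t4) e').card ≤ d)
    (hdq : d + 2 ≤ q) (hq : ∀ z x x' : P, Cg z x x' → ful 4 z = n → nab 4 z ≤ q) :
    sJQ P 4 n q = 0 := by
  classical
  by_cases hqL : q ≤ (lv P 4).card
  · obtain ⟨c0, hc0⟩ : ∃ c0, c0 + q = (lv P 4).card + 1 := ⟨(lv P 4).card + 1 - q, by omega⟩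
    rw [← class_eq Y.W (by omega) hmin heq hc0]
    have W := F.ew K h12 Y
    have key := W.sign (n := n) (d := d) F.sum hZ
      (by rw [F.thS_eq]; exact hcost) (by rw [F.RS_eq, F.hS_eq]; exact hmin)
      (by rw [F.RS_eq, F.thS_eq]; exact hK) (c0 := c0) (by omega)
      (by
        rw [F.RS_eq, F.hS_eq]
        intro z hz hc
        obtain ⟨h1, h2, x, x', h3⟩ := heq z hz hc
        have h4 := Y.W.bd_lev hz
        rw [h1, show 4 + (lev z - 4) = lev z by omega, nab_self]
        have := hq z x x' h3 h2.symm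
        omega)
    rw [F.RS_eq, F.hS_eq] at key
    exact key
  · unfold sJQ
    refine Finset.sum_eq_zero fun z hz => ?_
    rw [mem_filter] at hz
    have h1 := hz.2.2.2
    have h2 := nab_le_card (P := P) 4 z
    omega

/-- a signed count which vanishes -/
theorem sJQ_both {w n q : ℕ} (h : sJQ P w n q = 0) {z : P} (hz : JQ P w n q z) :
    (∃ z, JQ P w n q z ∧ Even (nst w (fun z => lev z - w) z)) ∧
      ∃ z, JQ P w n q z ∧ Odd (nst w (fun z => lev z - w) z) := by
  classical
  unfold sJQ at h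
  constructor
  · by_contra hcon
    push Not at hcon
    have h1 : ∑ z ∈ (univ : Finset P).filter (JQ P w n q),
        (-1 : ℤ) ^ (nst w (fun z => lev z - w) z) =
        ∑ z ∈ (univ : Finset P).filter (JQ P w n q), (-1 : ℤ) := by
      refine Finset.sum_congr rfl fun z hz => ?_
      rw [mem_filter] at hz
      exact Odd.neg_one_pow (Nat.not_even_iff_odd.mp (hcon z hz.2))
    rw [h1, Finset.sum_const] at h
    have h2 : 0 < ((univ : Finset P).filter (JQ P w n q)).card :=
      Finset.card_pos.mpr ⟨z, mem_filter.mpr ⟨mem_univ _, hz⟩⟩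
    simp at h
    exact h hz
  · by_contra hcon
    push Not at hcon
    have h1 : ∑ z ∈ (univ : Finset P).filter (JQ P w n q),
        (-1 : ℤ) ^ (nst w (fun z => lev z - w) z) =
        ∑ z ∈ (univ : Finset P).filter (JQ P w n q), (1 : ℤ) := by
      refine Finset.sum_congr rfl fun z hz => ?_
      rw [mem_filter] at hz
      exact Even.neg_one_pow (Nat.not_odd_iff_even.mp (hcon z hz.2))
    rw [h1, Finset.sum_const] at h
    simp at h
    exact h hz

end Pool.Agent.GaussPoset.Ec
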