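import Pool.Agent.W_448s7_h27.PhH
import Pool.Agent.W_448w4_h70.WH
import Pool.Agent.W_448s7_h27.PnA

/-!
S7 for `j = 14`: the windows `0, …, 4` (MP_448cb3_co).
-/

namespace Pool.Agent.GaussPoset.Sm

set_option linter.unusedSectionVars false

open Finset Wd Ec W4

universe u

variable {P : Type u} [Fintype P] [PartialOrder P] [DecidableEq P] {r : ℕ}

/-- ends -/
def Er14 : List (ℕ × ℕ × ℕ) :=
    [(0, 0, 0), (1, 2, 1), (1, 3, 0), (1, 4, 0), (1, 5, 0), (1, 6, 0), (1, 7, 0), (3, 9, 1),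
     (5, 20, 1), (5, 25, 0), (10, 60, 1)]

lemma chkEr14 : ChkE 14 Er14 := by decide +kernel

/-- ends -/
def Ef14 : List (ℕ × ℕ × ℕ × ℕ) :=
    [(0, 0, 0, 0), (1, 2, 1, 0), (1, 3, 0, 0), (1, 4, 0, 0), (1, 5, 0, 0), (1, 6, 0, 0),
     (1, 7, 0, 0), (3, 9, 1, 0), (5, 20, 1, 0), (5, 25, 0, 0), (10, 60, 1, 1)]

/-- sides, one level deeper -/
def Sf14a : List (ℕ × ℕ × ℕ × ℕ) :=
    [(0, 0, 0, 0), (0, 0, 1, 0), (1, 1, 0, 0), (1, 1, 1, 0), (1, 2, 0, 0), (1, 3, 0, 0),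
     (1, 4, 0, 0), (1, 5, 0, 0), (1, 6, 0, 0), (1, 7, 0, 0), (2, 3, 1, 0), (3, 6, 0, 0),
     (3, 6, 1, 0), (3, 9, 0, 0), (4, 7, 1, 0), (4, 10, 1, 0), (5, 12, 1, 0), (5, 15, 0, 0),
     (5, 15, 1, 0), (5, 20, 0, 0), (5, 25, 0, 0), (6, 13, 1, 0), (6, 16, 1, 0), (6, 21, 1, 0),
     (7, 23, 1, 0), (7, 28, 1, 0), (8, 24, 1, 0), (8, 31, 0, 0), (8, 31, 1, 0), (9, 33, 0, 0),
     (10, 34, 1, 0), (10, 60, 0, 1)]

/-- sides, two or more levels deeper -/
def Sf14b : List (ℕ × ℕ × ℕ × ℕ) :=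
    [(0, 0, 0, 0), (0, 0, 1, 0), (1, 1, 0, 0), (1, 1, 1, 0), (1, 1, 2, 0), (1, 2, 0, 0),
     (1, 3, 0, 0), (1, 4, 0, 0), (1, 5, 0, 0), (1, 6, 0, 0), (1, 7, 0, 0), (2, 3, 0, 0),
     (2, 3, 1, 0), (2, 3, 2, 0), (3, 6, 0, 0), (3, 6, 1, 0), (3, 9, 0, 0), (4, 7, 1, 0),
     (4, 7, 2, 0), (4, 7, 3, 0), (4, 10, 0, 0), (4, 10, 1, 0), (4, 10, 2, 0), (5, 12, 0, 0),
     (5, 12, 1, 0), (5, 15, 0, 0), (5, 15, 1, 0), (5, 20, 0, 0), (5, 25, 0, 0), (6, 13, 1, 0),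
     (6, 13, 2, 0), (6, 13, 3, 0), (6, 16, 1, 0), (6, 16, 2, 0), (6, 21, 0, 0), (6, 21, 1, 0),
     (7, 23, 0, 0), (7, 23, 1, 0), (7, 28, 0, 0), (7, 28, 1, 0), (8, 24, 1, 0), (8, 24, 2, 0),
     (8, 24, 3, 0), (8, 31, 0, 0), (8, 31, 1, 0), (9, 33, 0, 0), (10, 34, 1, 0),
     (10, 34, 2, 0), (10, 60, 0, 1), (11, 35, 1, 0), (11, 35, 2, 0), (11, 35, 3, 0),
     (11, 35, 4, 0)]

lemma chkEf14 : ChkE4 14 Ef14 := by decide +kernel

lemma chkSf14a : ChkT4 14 Sf14a := by decide +kernel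

lemma chkSf14b : ChkS4 14 Sf14b := by decide +kernel

/-- caps -/
def cf14 (w : ℕ) : ℤ :=
  if w = 0 then cap0 14 else if w = 1 then ((14 * (14 - 1) / 2 : ℕ) : ℤ) - 1
  else if w = 2 then 75 else if w = 3 then 63 else 43

/-- even noise -/
def nef14 (w : ℕ) (V : ℤ) : Bool :=
  if w = 0 then false else if w = 1 then nz 14 V
  else if w = 2 then (nz ((14 + 1 - 2 : ℕ) : ℤ) V || ([24] : List ℤ).elem V)
  else (nz ((14 + 1 - 3 : ℕ) : ℤ) V || ([16] : List ℤ).elem V)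

/-- odd noise -/
def nof14 (w : ℕ) (V : ℤ) : Bool :=
  if w = 0 then false else if w = 1 then false else ([] : List ℤ).elem V

/-- lower bounds -/
def lwf14 (_ : ℕ) : ℤ := 0

/-- caps as a list -/
def cfl14 : List (ℕ × ℕ) := [(14, 107), (13, 90), (12, 75), (11, 63), (10, 43)]

lemma capf14 : CapL 14 4 cf14 cfl14 := by decide +kernel

/-- lines with `g + 300`, two elements above on the level `4` -/
def tAf14 : List (List ℕ) :=
  [[300], [293, 294, 295, 296, 297, 298], [286, 287, 288, 289, 290, 291, 292, 293, 294, 295,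
   296, 303], [291, 296, 297, 298, 299, 300, 301, 302, 303], [284, 285, 286, 287, 288, 289, 290,
   291, 292, 293, 294, 295, 296, 297, 298, 299, 300, 301, 302, 303, 308], [275, 280, 294, 295,
   296, 297, 298, 299, 300, 301, 302, 303, 304, 305, 306, 307, 308, 309], [268, 269, 270, 271,
   272, 273, 274, 275, 276, 277, 278, 282, 287, 288, 289, 290, 291, 292, 293, 294, 295, 296,
   297, 298, 299, 300, 301, 302, 303, 304, 305, 306, 307, 308, 309, 310, 315], [278, 283, 288,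
   290, 291, 292, 293, 294, 295, 296, 297, 298, 299, 300, 301, 302, 303, 304, 305, 306, 307,
   308, 309], [266, 271, 272, 273, 274, 275, 276, 277, 278, 279, 280, 281, 282, 283, 284, 285,
   286, 287, 288, 289, 290, 291, 292, 293, 294, 295], [277, 281], [250, 255, 260], []]

/-- lines with `g + 300`, at least three elements above on the level `4` -/
def tBf14 : List (List ℕ) :=
  [[], [], [], [], [], [], [], [], [], [], [240], [233, 234, 235, 236, 237, 238]]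

/-- lines -/
def LA14 : List (List ℤ) :=
  [[0], [-7, -6, -5, -4, -3, -2], [-14, -13, -12, -11, -10, -9, -8, -7, -6, -5, -4, 3], [-9, -4,
   -3, -2, -1, 0, 1, 2, 3], [-16, -15, -14, -13, -12, -11, -10, -9, -8, -7, -6, -5, -4, -3, -2,
   -1, 0, 1, 2, 3, 8], [-25, -20, -6, -5, -4, -3, -2, -1, 0, 1, 2, 3, 4, 5, 6, 7, 8, 9], [-32,
   -31, -30, -29, -28, -27, -26, -25, -24, -23, -22, -18, -13, -12, -11, -10, -9, -8, -7, -6,
   -5, -4, -3, -2, -1, 0, 1, 2, 3, 4, 5, 6, 7, 8, 9, 10, 15], [-22, -17, -12, -10, -9, -8, -7,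
   -6, -5, -4, -3, -2, -1, 0, 1, 2, 3, 4, 5, 6, 7, 8, 9], [-34, -29, -28, -27, -26, -25, -24,
   -23, -22, -21, -20, -19, -18, -17, -16, -15, -14, -13, -12, -11, -10, -9, -8, -7, -6, -5],
   [-23, -19], [-50, -45, -40], []]

/-- lines -/
def LB14 : List (List ℤ) :=
  [[], [], [], [], [], [], [], [], [], [], [-60], [-67, -66, -65, -64, -63, -62]]

lemma LA14_eq : LA14 = tabI tAf14 := by decide +kernel

lemma LB14_eq : LB14 = tabI tBf14 := by decide +kernel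

lemma ff14a : fst1F cfl14 tAf14 tBf14 Sf14a = true := by decide +kernel

lemma ff14b : fst2F cfl14 tAf14 tBf14 Sf14b = true := by decide +kernel

theorem tabf14 : TabF 14 4 cf14 LA14 LB14 Ef14 Sf14a Sf14b XN := by
  refine ⟨by norm_num, by norm_num, chkEf14, chkSf14a, chkSf14b, ?_, ?_, ?_, ?_, ?_, ?_, ?_, ?_⟩
  · decide +kernel
  · decide +kernel
  · decide +kernel
  · decide +kernel
  · decide +kernel
  · rw [LA14_eq, LB14_eq]
    exact chk1F_of capf14 ff14a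
  · rw [LA14_eq, LB14_eq]
    exact chk2F_of (by norm_num) capf14 ff14b
  · decide +kernel

/-- rounds -/
def rd14 (XL : List ℤ) (u : List ℤ) : List ℤ :=
  rnds (aX LA14 LB14 XL ((14 : ℕ) : ℤ)) nof14 nef14 cf14 (odds LA14.length)
    (evens LA14.length) ((14 : ℕ) : ℤ) 300 4 12 u

/-- the windows `0, …, 3` -/
lemma sw14_1 : rd14 [] ((List.range 4).map fun w => min (lwf14 w) (cf14 w + 1)) = [75, 69, 62, 54] := by
  decide +kernel

lemma sw14_2 : rd14 [43] [75, 69, 62, 54] = [91, 84, 76, 64] := by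
  decide +kernel

lemma nm_14_43 : Nm 14 (11 ^ 2 + 43) (12 ^ 2 + 54) := by
  constructor <;> decide +kernel

/-- the pairs of ends which are left -/
def Rf14 : List ((ℕ × ℕ × ℕ) × (ℕ × ℕ × ℕ)) :=
    [((3, 9, 1), (10, 60, 1)), ((5, 20, 1), (5, 20, 1)), ((5, 20, 1), (10, 60, 1)),
     ((5, 25, 0), (10, 60, 1)), ((10, 60, 1), (3, 9, 1)), ((10, 60, 1), (5, 20, 1)),
     ((10, 60, 1), (5, 25, 0)), ((10, 60, 1), (10, 60, 1))]

lemma rest14 : restF 14 Ef14 XN [91, 84, 76, 64] [43] = Rf14 := by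
  decide +kernel

section

variable {lo hi : Tops P → ℕ → ℕ} {e : Tops P → ℕ → ℕ → P}

/-- the window `3` -/
lemma w3h14 (K : Ctx P r 14 lo hi e) : W3H P r 14 lo hi 63 (nof14 3) (nef14 3) 0 := by
  intro N θ3 θ4 S hJ
  obtain ⟨v, M, W, B⟩ := win3_sy K (by norm_num) S (cT := 63) (LE := [16]) (LO := []) (lb := 0)
    chkEr14 (by decide +kernel) (fun h => absurd h (by norm_num))
    (by decide +kernel) (by decide +kernel) (fun h => absurd h (by norm_num))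
    (fun _ => by decide +kernel) (fun _ => Or.inl ⟨by decide +kernel, by decide +kernel⟩)
    (by norm_num) (by norm_num) (by norm_num) (by decide +kernel) (by decide +kernel) hJ
  exact ⟨_, v, M, W, B⟩

/-- the state after the window `4` at `43`, for a given balance at the window `2` -/
theorem ph14 (K : Ctx P r 14 lo hi e) (hJ : ∃ z : P, Hul.Jn z) {V2 : ℤ}
    (h2 : WinB P 14 2 (cf14 2) (nof14 2) (nef14 2) (lwf14 2) V2) :
    ∃ V : ℕ → ℤ, V 2 = V2 ∧ Bals P 14 cf14 nof14 nef14 lwf14 V ∧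
      StF P 14 V [91, 84, 76, 64] [43] := by
  classical
  have hN := noP_XN (P := P) 14
  have T := tabf14
  obtain ⟨N, θ3, θ4, Nf, θf, D, S, F⟩ := exists_fs K (by norm_num)
  obtain ⟨K3, v, M, W, B3⟩ := w3h14 K N θ3 θ4 S hJ
  obtain ⟨V0, h0⟩ : ∃ V, WinB P 14 0 (cf14 0) (nof14 0) (nef14 0) (lwf14 0) V := K.win0 hJ
  obtain ⟨V1, h1⟩ : ∃ V, WinB P 14 1 (cf14 1) (nof14 1) (nef14 1) (lwf14 1) V :=
    K.win1g (by norm_num) chkEr14 (by decide +kernel) (fun h => absurd h (by norm_num)) hJ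
  obtain ⟨V, hV0, hV1, hV2, hV3⟩ : ∃ V : ℕ → ℤ, V 0 = V0 ∧ V 1 = V1 ∧ V 2 = V2 ∧
      V 3 = (v : ℤ) - ((14 + 1 - 3 : ℕ) : ℤ) ^ 2 :=
    ⟨fun w => if w = 0 then V0 else if w = 1 then V1 else if w = 2 then V2 else
      (v : ℤ) - ((14 + 1 - 3 : ℕ) : ℤ) ^ 2, rfl, rfl, rfl, rfl⟩
  have hB : Bals P 14 cf14 nof14 nef14 lwf14 V := by
    intro w hw
    have : w = 0 ∨ w = 1 ∨ w = 2 ∨ w = 3 := by omega
    rcases this with rfl | rfl | rfl | rfl
    · rw [hV0]; exact h0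
    · rw [hV1]; exact h1
    · rw [hV2]; exact h2
    · rw [hV3]; exact B3
  obtain ⟨hF1, hF2⟩ := fo_cost K (by norm_num) chkEr14 (by decide +kernel) (n := 183)
    (by decide +kernel) (by decide +kernel)
  have s1 : StF P 14 V [75, 69, 62, 54] [] := sw14_1 ▸ K.sweepF hN T hB (StF.start hB) 300 12
  have Y : Y4 r 14 K3 (11 ^ 2 + 43) (12 ^ 2 + 54) N _ θ3 θ4 :=
    y4_of S W M (s1.v3 hV3 (by norm_num)) nm_14_43
  have hno : HnO P 14 (11 ^ 2 + 43) := fun _ => Or.inl (by decide +kernel)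
  have s2 : StF P 14 V [75, 69, 62, 54] [43] :=
    K.stepF hN T hB s1 (T0 := 43) (p := 1) (hF1.mono (by norm_num))
      (by decide +kernel) (by decide +kernel) (by decide +kernel) (by decide +kernel)
      (fun _ => by decide +kernel)
      (fun hj hp => F.killG14 K Y hno (by norm_num) (hF2 _ (by norm_num)) (by norm_num) hj hp)
  exact ⟨V, hV2, hB, sw14_2 ▸ K.sweepF hN T hB s2 300 12⟩

/-- **S7 for `j = 14`**: the joins of level `15` without a fold end which are left, from the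
window `2` up to `75`. -/
theorem left14 (K : Ctx P r 14 lo hi e)
    (h2 : (∃ z : P, Hul.Jn z) → ∃ V, WinB P 14 2 75 (fun V => ([] : List ℤ).elem V)
      (fun V => nz ((14 + 1 - 2 : ℕ) : ℤ) V || ([24] : List ℤ).elem V) 0 V)
    {z x x' : P} (h : Cg z x x') (hl : lev z = 15) (hs : Sok 14 x) (hs' : Sok 14 x') :
    ∃ s s', (s, s') ∈ Rf14 ∧ Dt 14 x s ∧ Dt 14 x' s' := by
  have hJ : ∃ z : P, Hul.Jn z := ⟨z, h.jn⟩
  obtain ⟨V2, h2⟩ : ∃ V, WinB P 14 2 (cf14 2) (nof14 2) (nef14 2) (lwf14 2) V := h2 hJ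
  obtain ⟨V, -, hB, s3⟩ := ph14 K hJ h2
  obtain ⟨s, s', g1, g2, g3⟩ := K.leftS (noP_XN (P := P) 14) tabf14 hB s3 h hl hs hs'
  rw [rest14] at g1
  exact ⟨s, s', g1, g2, g3⟩

end

end Pool.Agent.GaussPoset.Sm
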