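import Pool.Agent.W_448s7_h27.PoB
import Pool.Agent.W_448s8f_h76.FkG
import Pool.Agent.W_448pg_h74.WtC
import Pool.Agent.W_448s7_h27.PnJ14

/-!
# The windows `2`, `3` for `j = 14`, correlated (MP_448cb3_co, S7)
-/

namespace Pool.Agent.GaussPoset.Sm

set_option linter.unusedSectionVars false

open Polynomial Finset W4 Cp

universe u

section

variable {P : Type u} [Fintype P] [PartialOrder P] [DecidableEq P] {r j w : ℕ}
  {lo hi : Tops P → ℕ → ℕ} {e : Tops P → ℕ → ℕ → P}

/-- **the balance at the windows `2`, `3` with the larger labels, with the system** -/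
theorem Ctx.winNs (K : Ctx P r j lo hi e) (hF : NoFo P j) (h10 : 10 ≤ j)
    (h12 : j % 2 = 0 → 12 ≤ j)
    (hwj : w = 2 ∨ (w = 3 ∧ 11 ≤ j)) {c0 cT : ℕ}
    {LE LO : List ℤ} {lb : ℤ} {E : List (ℕ × ℕ × ℕ)} (hE : ChkE j E) (h0 : (0, 0, 0) ∈ E)
    (hb : j % 2 = 1 → ∀ s ∈ E, (s.1 : ℤ) * ((j : ℤ) - w) - s.2.1 ≤ 5 * ((j : ℤ) - w))
    (c1 : ∀ a ∈ Finset.Icc 2 ((j + 1) / 2), (j + 1 - w) ^ 2 + c0 + 1 < stC w (j + 1) a)
    (c2 : ∀ a ∈ Finset.Icc 2 (j - 1), (j + 1 - w) ^ 2 + c0 + 1 < reC w (j + 1) a)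
    (hc : c0 ≤ cT)
    (hcell : ∀ (N : Tops P → Finset P) (b : Tops P → ℕ) (θ : Tops P → P → ℕ),
      Wk r j w ((j + 1 - w) ^ 2 + c0) N b θ →
      CellsN P j w ((j + 1 - w) ^ 2 + c0) ((j + 1 - w) ^ 2 + cT) N b θ
        (XL (j + 1 - w) LE) (XL (j + 1 - w) LO))
    (I : InS P j w ((j + 1 - w) ^ 2 + cT) (XL (j + 1 - w) LE) (XL (j + 1 - w) LO))
    (c6 : 2 * ((j + 1 - w) ^ 2 + cT) < 3 * (j + 1 - w) ^ 2 + 3 * (j + 1 - w))
    (c7 : cT < 7 * (j + 1 - w) + 10)
    (hl0 : lb ≤ 0) (hlE : ∀ x ∈ LE, lb ≤ x) (hlO : ∀ x ∈ LO, lb ≤ x)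
    (hJ : ∃ z : P, Hul.Jn z) :
    ∃ (N : Tops P → Finset P) (b : Tops P → ℕ) (θ : Tops P → P → ℕ) (v : ℕ),
      Wk r j w ((j + 1 - w) ^ 2 + c0) N b θ ∧ Unq P w b ∧ MnS j w N b θ v ∧
      WinB P j w cT (fun V => LO.elem V) (fun V => nz ((j + 1 - w : ℕ) : ℤ) V || LE.elem V)
      lb ((v : ℤ) - ((j + 1 - w : ℕ) : ℤ) ^ 2) := by
  have H := K.gt.H
  have h16 := K.h16
  have hw : w = 2 ∨ w = 3 := by omega
  have hsh : ∀ t : Tops P, lo t w = hi t w ∨ RectShape j (lo t) (hi t) ∨
      StairShape j (lo t) (hi t) ∨ StairShape j (fun k => k - hi t k) (fun k => k - lo t k) := by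
    intro t
    rcases shape_cases (K.comp t) (by omega) (K.shape t) with h | h | ⟨a, h, h3⟩
    · exact Or.inl (h w (by omega))
    · exact Or.inr (by tauto)
    · left
      have h4 := h.lt (h3 (by omega)) hwj
      rw [(h.low w (by omega)).1, (h.low w (by omega)).2]
  obtain ⟨N, θ, t1, t2, hs, hu⟩ := K.types (w := w) (by omega) hsh
  have W : Wk r j w ((j + 1 - w) ^ 2 + c0) N (fun t => hi t w - lo t w + 1) θ :=
    { gt := K.gt, hj := by omega, hw1 := by omega, hw := by omega, typ := t1, top := t2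
      sum_b := hs
      hK := by omega
      rdeep := fun C _ hx _ h1 h2 h3 h4 => rdeep_of (by omega) (by omega) c2 C hx h1 h2 h3 h4
      sdeep := fun _ _ _ _ C _ hx _ h1 h3 h4 => sdeep_of (by omega) (by omega) c1 C hx h1 h3 h4 }
  have L := W.lkN (by omega) h10 c6 hu I (hcell _ _ _ W)
  have hlow : ∀ z x x' : P, Cg z x x' → Sok j x → Sok j x' → j + 1 ≤ lev z →
      ∀ k, k < w → nab k z = 2 := by
    intro z x x' h hs hs' hl k hk
    rw [h.sum H (by omega), K.low_one' hF h10 hwj h hs hk, K.low_one' hF h10 hwj h.symm hs' hk]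
  have hpen : OnePen P j (fun t => 2 ≤ hi t w - lo t w + 1) ∨ ∃ z : P, Hul.Jn z ∧
      ful w z ≤ (j + 1 - w) ^ 2 + 5 * (j - w) := by
    rcases K.pen_or with h | ⟨hodd, z, x, x', h1, h2, h3, h4⟩
    · left
      intro e e' p p' hB
      refine h e e' p p' ?_
      rcases shape_cases (K.comp (topOf e)) (by omega) (K.shape (topOf e)) with h | h | ⟨a, h, h3⟩
      · have := h w (by omega)
        omega
      · exact h
      · have h4 := h.lt (h3 (by omega)) hwj
        have e1 := h.low w (by omega)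
        omega
    · right
      have hs : Sok j x := ⟨fun hf => by
        have := hf.1
        have := (h1.lev_eq H).1
        omega, fun _ hf => by
        have := hf.2.1
        omega⟩
      have hs' : Sok j x' := ⟨fun hf => by
        have := hf.1
        have := (h1.lev_eq H).2
        omega, fun _ hf => by
        have := hf.2.1
        omega⟩
      exact ⟨z, h1.jn, K.cheap (by omega) hodd hE h0 (hb hodd) h1 h2 h3 h4
        (hlow z x x' h1 hs hs' h2.ge)⟩
  obtain ⟨v, M, h⟩ := W.winBS (by omega) h12 (by omega) L h16 (cT := (cT : ℤ)) (lb := lb)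
    (by push_cast; ring) (by exact_mod_cast c7) hl0 hlE hlO hlow hpen hJ
  exact ⟨N, _, θ, v, W, hu, M, h⟩

end

section

variable {P : Type u} [Fintype P] [PartialOrder P] [DecidableEq P] {r j w K0 : ℕ}
  {N : Tops P → Finset P} {b : Tops P → ℕ} {θ : Tops P → P → ℕ}

/-- a natural cell of row `1` at the window `3` has two ancestors on the level `2` -/
lemma Wk.row1_two (W : Wk r j 3 K0 N b θ) {x : P} (hx : x ∉ unnat N) (hl : j ≤ lev x)
    (R : Row1 j 3 N θ x) : nab 2 x = 2 := by
  have HN := W.natSys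
  have hj := W.hj
  have hxt : x ∈ N (topOf x) := HN.mem_iff.mpr ⟨hx, rfl⟩
  have t1 := R.th
  generalize topOf x = t at hxt t1
  rcases W.typ t with ⟨g1, g2, g3, g5⟩ | ⟨Nc, co, h0, g1, g2, g4⟩ |
    ⟨Nc, co, h0, g1, g2, g3, g4, g5'⟩
  · exfalso
    rw [g2] at t1
    simp only at t1
    omega
  · rw [g1] at hxt
    rw [g2] at t1
    by_cases hJ : x ∈ junk (fun _ => True) Nc co ∨ x ∈ junk (fun _ => True) Nc (swp co)
    · exfalso
      unfold thR at t1
      rw [if_pos hJ] at t1
      omega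
    · have hyN : x ∈ Nc := by
        rw [mem_natR] at hxt
        rcases hxt with h | h | h
        · exact h
        · exact absurd (Or.inl h) hJ
        · exact absurd (Or.inr h) hJ
      have h1 := rect_th7 h0 (by norm_num) hyN hJ (by omega)
      have h2 := rect_nab h0.chart hyN (k := 2) (by omega)
      have h3 := h0.chart.lev x hyN
      omega
  · rw [g1] at hxt
    rw [g2] at t1
    by_cases hJ : x ∈ junk (fun c => c.1 ≤ c.2) Nc co
    · exfalso
      unfold thS at t1
      rw [if_pos hJ] at t1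
      omega
    · have hyN : x ∈ Nc := by
        rw [mem_natS] at hxt
        rcases hxt with h | h
        · exact h
        · exact absurd h hJ
      have h1 := stair_th7 h0 (by norm_num) g4 hyN hJ (by omega)
      have h2 := stair_nab h0.chart hyN (k := 2) (by omega)
      have h3 := h0.chart.lev x hyN
      have h4 : (co x).1 ≤ (co x).2 := h0.chart.mem x hyN
      omega

/-- the own pairs do not have the cost `12 ^ 2 + 65` -/
lemma Wk.own_ne14 (W : Wk r 14 3 K0 N b θ) {z : P} (hz : z ∈ bdR (rA N))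
    (hF : ∀ x, z ⋖ x → x ∉ unnat N ∧ Str 3 N θ x)
    (ht : ∀ x x', z ⋖ x → z ⋖ x' → topOf x = topOf x') (hh : hA N θ z = lev z - 3)
    (hc : cst 3 (hA N θ) z = 209) : False := by
  obtain ⟨x0, hx0, -⟩ := Hul.exists_cov (w := z) (v := (topOf z : P))
    (lt_of_le_of_ne (le_topOf z) (by
      intro h
      have h1 : lev (topOf z : P) = 0 := (topOf z).2
      have h2 := W.bd_lev hz
      rw [← h] at h1
      omega))
  obtain ⟨-, h2, h3, h4⟩ := W.own_owp hz hF (t := topOf x0) (fun x hx => ht x x0 hx hx0)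
  have hlz := W.bd_lev hz
  have hful : ful 3 z = 209 := by
    rw [← hc]
    exact (cst_eq_ful (by omega)).symm
  obtain ⟨c, hcz⟩ : ∃ c, lev z = 3 + c := ⟨lev z - 3, by omega⟩
  have hlow : c ^ 2 ≤ ful 3 z := by
    have := ful_ge (w := 3) (z := z) (c := c) (fun _ => 0) hcz (fun n hn1 hn2 => h4 _ (by omega)
      (by omega))
    simpa using this
  have hc14 : c ≤ 14 := by
    by_contra hcon
    have h5 : 15 ^ 2 ≤ c ^ 2 := Nat.pow_le_pow_left (by omega) 2
    omega
  by_cases h13 : c ≤ 13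
  · have h5 : ful 3 z = c ^ 2 := ful_two hcz fun k hk1 hk2 => by
      rcases Nat.lt_or_ge k 15 with h6 | h6
      · exact h2 k (by omega) (by omega)
      · rw [show k = lev z - 1 by omega]
        exact h3
    have h6 : c ^ 2 ≤ 13 ^ 2 := Nat.pow_le_pow_left h13 2
    omega
  · have hc : c = 14 := by omega
    subst hc
    have h5 : ful 3 z = ∑ k ∈ range (17 + 1), (k - 3) * nab k z := by
      unfold ful
      rw [hcz]
    have h6 : nab 17 z = 1 := by
      have := nab_self (z := z)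
      rwa [hcz] at this
    have h7 : nab 16 z = 2 := by
      rw [hcz] at h3
      exact h3
    rw [h5] at hful
    simp only [Finset.sum_range_succ, Finset.sum_range_zero, h6, h7, h2 4 (by norm_num) (by norm_num),
      h2 5 (by norm_num) (by norm_num), h2 6 (by norm_num) (by norm_num),
      h2 7 (by norm_num) (by norm_num), h2 8 (by norm_num) (by norm_num),
      h2 9 (by norm_num) (by norm_num), h2 10 (by norm_num) (by norm_num),
      h2 11 (by norm_num) (by norm_num), h2 12 (by norm_num) (by norm_num),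
      h2 13 (by norm_num) (by norm_num), h2 14 (by norm_num) (by norm_num)] at hful
    omega

/-- **no own elements of the cost `12 ^ 2 + 65` at the window `3`**, from the window `2` -/
theorem hk65 {K2 K3 : ℕ} {N2 : Tops P → Finset P} {b2 : Tops P → ℕ} {θ2 : Tops P → P → ℕ} {v2 : ℕ}
    (W2 : Wk r 14 2 K2 N2 b2 θ2) (L2 : Unq P 2 b2) (M2 : MnS 14 2 N2 b2 θ2 v2)
    (hv2 : 13 ^ 2 + 76 ≤ v2) (W : Wk r 14 3 K0 N b θ) :
    HkS P 14 3 K3 N b θ (XL (14 + 1 - 3) [65]) := by
  have hB : ∀ v, XL (14 + 1 - 3) [65] v → v = 209 := by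
    intro v hv
    unfold XL at hv
    simp only [List.mem_singleton] at hv
    norm_num at hv
    omega
  refine ⟨?_, ?_, ?_⟩
  · intro v a z x _ _ _ hv _ _ _ _ _ h
    have h1 := hB v hv
    have h2 := Nat.even_mul_succ_self a
    obtain ⟨c, hc⟩ := h2
    have h3 : a * (a + 1) = a ^ 2 + a := by ring
    omega
  · intro v z _ hz hc hv _ hF ht hh
    exact W.own_ne14 hz hF ht hh (hc.trans (hB v hv))
  · intro v a x _ hx _ hv _ R hl h
    have h1 := hB v hv
    have ha : a = 14 := by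
      have h2 : a ≤ 14 := by
        by_contra hcon
        have : 15 ^ 2 ≤ a ^ 2 := Nat.pow_le_pow_left (by omega) 2
        omega
      have h3 : 14 ≤ a := by
        by_contra hcon
        have : a ^ 2 ≤ 13 ^ 2 := Nat.pow_le_pow_left (by omega) 2
        omega
      omega
    subst ha
    have T := W.twn hx
    have hup := W.twSys.up x hx
    have hnat := W.twSys.nat x hx
    have hll : lev (twT N x) = lev x := lev_eq_of_up hup
    have h2 := W.row1_two hnat (by omega) R
    have h3 := W2.twin_le L2 M2 (x := twT N x) (x' := x) (a := 15) T.ne hup (by omega) (by omega)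
      (fun k hk1 hk2 => by
        rcases Nat.lt_or_ge k 3 with h4 | h4
        · rw [show k = 2 by omega, h2]
        · rw [R.nab k h4 hk2]) (by omega)
    omega

end

section

variable {P : Type u} [Fintype P] [PartialOrder P] [DecidableEq P] {r : ℕ}
  {lo hi : Tops P → ℕ → ℕ} {e : Tops P → ℕ → ℕ → P}

/-- the least cost of a join at a fold end -/
lemma fjn_cost_ge1 {w j : ℕ} (H : Gr P r) {z x x' : P} (h : FJn j z x x') (hw : w + 1 ≤ j) :
    foC w j + ∑ n ∈ range (j - w + 1), min (j - w - 1) n ≤ cst w (fun _ => j - w - 1) z := by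
  obtain ⟨hc, hlz, hlx, hj2, hn⟩ := h
  have hl2 := (hc.lev_eq H).2
  have s0 := cst_shift (i := w) (h := fun _ => j - w - 1) (a := j - w + 1) (x := z) (by omega)
  rw [Finset.sum_range_succ] at s0
  have s4 : min (j - w - 1) (j - w + 1) * nab (w + (j - w + 1)) z = j - w - 1 := by
    rw [Nat.min_eq_left (by omega), show w + (j - w + 1) = lev z by omega, nab_self, mul_one]
  rw [s4] at s0
  rw [s0]
  unfold foC
  have s5 : ∑ n ∈ range (j - w + 1), min (j - w - 1) n *
      (min ((w + n) / 2) (j / 2) + 1 - ((w + n) - j / 2)) +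
      ∑ n ∈ range (j - w + 1), min (j - w - 1) n ≤
      ∑ n ∈ range (j - w + 1), min (j - w - 1) n * nab (w + n) z := by
    rw [← Finset.sum_add_distrib]
    refine Finset.sum_le_sum fun n hn' => ?_
    rw [mem_range] at hn'
    have a1 := hn (w + n) (by omega)
    have a2 := hc.sum H (k := w + n) (by omega)
    have a3 : 1 ≤ nab (w + n) x' := one_le_nab (by omega)
    calc min (j - w - 1) n * (min ((w + n) / 2) (j / 2) + 1 - ((w + n) - j / 2)) +
          min (j - w - 1) n
        = min (j - w - 1) n * ((min ((w + n) / 2) (j / 2) + 1 - ((w + n) - j / 2)) + 1) := by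
          ring
      _ ≤ min (j - w - 1) n * nab (w + n) z := Nat.mul_le_mul_left _ (by omega)
  omega

theorem numS14_2 : NumS 14 2 (13 ^ 2 + 75) [24] [] := by constructor <;> decide +kernel

theorem numS14_3 : NumS 14 3 (12 ^ 2 + 74) [16, 66, 67] [64, 65] := by
  constructor <;> decide +kernel

/-- the window `2` for `j = 14`, with the system -/
theorem Ctx.sys2_14 (K : Ctx P r 14 lo hi e) (hJ : ∃ z : P, Hul.Jn z) :
    ∃ (N : Tops P → Finset P) (b : Tops P → ℕ) (θ : Tops P → P → ℕ) (v : ℕ),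
      Wk r 14 2 (13 ^ 2 + 74) N b θ ∧ Unq P 2 b ∧ MnS 14 2 N b θ v ∧
      WinB P 14 2 75 (fun V => ([] : List ℤ).elem V)
        (fun V => nz ((14 + 1 - 2 : ℕ) : ℤ) V || ([24] : List ℤ).elem V) 0
        ((v : ℤ) - ((14 + 1 - 2 : ℕ) : ℤ) ^ 2) :=
  K.winNs (fun h => absurd h (by norm_num)) (by norm_num) (by norm_num) (Or.inl rfl) (c0 := 74)
    (cT := 75) chkEr14 (by decide +kernel) (fun h => absurd h (by norm_num))
    (by decide +kernel) (by decide +kernel) (by norm_num)
    (fun N b θ W => W.cellsS le_rfl numS14_2)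
    { hfl := fun h => absurd h (by norm_num)
      hcc := fun _ => Or.inr (Or.inl (by decide +kernel))
      hFo := fun _ => fjn_lt_of K.gt.H (by norm_num) (by decide +kernel)
      hfv := fun _ => Or.inr (Or.inl ⟨by decide +kernel, by unfold XL; decide +kernel⟩) }
    (by norm_num) (by norm_num) le_rfl (by decide) (by decide) hJ

/-- the window `3` for `j = 14` up to `74` -/
theorem Ctx.sys3_14 (K : Ctx P r 14 lo hi e) {N : Tops P → Finset P} {θ3 θ4 : Tops P → P → ℕ}
    (S : Sy P 14 lo hi N θ3 θ4) {K2 : ℕ} {N2 : Tops P → Finset P} {b2 : Tops P → ℕ}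
    {θ2 : Tops P → P → ℕ} {v2 : ℕ} (W2 : Wk r 14 2 K2 N2 b2 θ2) (L2 : Unq P 2 b2)
    (M2 : MnS 14 2 N2 b2 θ2 v2) (hv2 : 13 ^ 2 + 76 ≤ v2) (hJ : ∃ z : P, Hul.Jn z) :
    ∃ V : ℕ, MnS 14 3 N (fun t => hi t 3 - lo t 3 + 1) θ3 V ∧
      Wk r 14 3 (12 ^ 2 + 63) N (fun t => hi t 3 - lo t 3 + 1) θ3 ∧
      WinB P 14 3 74 (fun V => ([64, 65] : List ℤ).elem V)
        (fun V => (nz ((14 + 1 - 3 : ℕ) : ℤ) V && !(([65] : List ℤ).elem V)) ||
          ([16, 66, 67] : List ℤ).elem V) 0 ((V : ℤ) - ((14 + 1 - 3 : ℕ) : ℤ) ^ 2) :=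
  K.winSyH (by norm_num) S (c0 := 63) (cT := 74) chkEr14 (by decide +kernel)
    (fun h => absurd h (by norm_num)) (by decide +kernel) (by decide +kernel) (by norm_num)
    (fun N b θ W => W.cellsS (by norm_num) numS14_3)
    (fun N b θ W _ => hk65 W2 L2 M2 hv2 W)
    { hfl := fun h => absurd h (by norm_num)
      hcc := fun _ => Or.inr (Or.inl (by decide +kernel))
      hFo := fun _ z x x' h => lt_of_lt_of_le (by decide +kernel)
        (fjn_cost_ge1 K.gt.H h (by norm_num))
      hfv := fun _ => Or.inr (Or.inl ⟨by decide +kernel, by unfold XL; decide +kernel⟩) }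
    (by norm_num) (by norm_num) le_rfl (by decide) (by decide) hJ

end

end Pool.Agent.GaussPoset.Sm
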