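import Mathlib

/-!
# The balance lemma (integer arithmetic of S7, `j ≥ 17`)

Every cross line has a slope `κ` and a constant `g`: its relative cost at window `w` is
`κ (j - w) + g`, its sign `(-1)^κ`.  At each of the windows `0, 1, 2, 3` the cheapest class must
contain both signs; own junk of the wide components only helps with the sign `+` and has the
relative costs `noise`.  For `j ≥ 17` this is impossible below the cost of the joins of the level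
`j + 1` between two ends which are not folds.
-/

namespace Pool.Agent.GaussPoset.Bal

/-- the largest constant of a cross line of slope `κ` -/
def top (κ : ℤ) : ℤ := (κ * κ + 4 * κ - (if κ % 2 = 0 then 0 else 5)) / 4

/-- slopes and constants of the own junk of wide components -/
def NL (κ g : ℤ) : Prop :=
  (κ = 0 ∧ g = 0) ∨ (κ = 1 ∧ g = 1) ∨ (κ = 1 ∧ g = 0) ∨ (κ = 2 ∧ g = 3) ∨ (κ = 3 ∧ g = 5) ∨
  (κ = 3 ∧ g = 4) ∨ (κ = 4 ∧ g = 8) ∨ (κ = 5 ∧ g = 11) ∨ (κ = 5 ∧ g = 10) ∨ (κ = 6 ∧ g = 15) ∨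
  (κ = 7 ∧ g = 19) ∨ (κ = 7 ∧ g = 18) ∨ (κ = 8 ∧ g = 24) ∨ (κ = 9 ∧ g = 29) ∨ (κ = 9 ∧ g = 28)

/-- the relative costs of the own junk of wide components at a window with `y = j + 1 - w` -/
def Noise (y v : ℤ) : Prop :=
  (∃ t : ℤ, 1 ≤ t ∧ (v = (2 * t - 1) * y + t * t - t ∨ v = (2 * t - 1) * y + t * t - t - 1)) ∨
    ∃ t : ℤ, 0 ≤ t ∧ v = 2 * t * y + t * t

lemma Noise.nl {y v : ℤ} (h : Noise y v) (hy : 1 ≤ y) (hv : v ≤ 10 * y - 50) :
    ∃ κ g, NL κ g ∧ v = κ * (y - 1) + g := by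
  rcases h with ⟨t, ht, h⟩ | ⟨t, ht, h⟩
  · have h5 : t ≤ 5 := by
      by_contra hc
      have h6 : 6 ≤ t := by omega
      have h7 : 11 * y ≤ (2 * t - 1) * y := mul_le_mul_of_nonneg_right (by omega) (by omega)
      have h8 : 0 ≤ t * t - t - 1 := by nlinarith
      rcases h with h | h <;> linarith
    have h1 : t = 1 ∨ t = 2 ∨ t = 3 ∨ t = 4 ∨ t = 5 := by omega
    rcases h with h | h
    · refine ⟨2 * t - 1, t * t + t - 1, ?_, by rw [h]; ring⟩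
      rcases h1 with rfl | rfl | rfl | rfl | rfl <;> (unfold NL; norm_num)
    · refine ⟨2 * t - 1, t * t + t - 2, ?_, by rw [h]; ring⟩
      rcases h1 with rfl | rfl | rfl | rfl | rfl <;> (unfold NL; norm_num)
  · have h5 : t ≤ 4 := by
      by_contra hc
      have h6 : 5 ≤ t := by omega
      have h7 : 10 * y ≤ (2 * t) * y := mul_le_mul_of_nonneg_right (by omega) (by omega)
      have h8 : 0 ≤ t * t := by nlinarith
      linarith
    have h1 : t = 0 ∨ t = 1 ∨ t = 2 ∨ t = 3 ∨ t = 4 := by omega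
    refine ⟨2 * t, t * t + 2 * t, ?_, by rw [h]; ring⟩
    rcases h1 with rfl | rfl | rfl | rfl | rfl <;> (unfold NL; norm_num)

/-- a cross line which is cheapest at some window -/
structure Ln (j v0 v1 v2 v3 κ g : ℤ) : Prop where
  k0 : 0 ≤ κ
  k10 : κ ≤ 10
  lo : -43 ≤ g ∨ -j ≤ g
  hi : g ≤ top κ
  t0 : v0 ≤ κ * j + g
  t1 : v1 ≤ κ * (j - 1) + g
  t2 : v2 ≤ κ * (j - 2) + g
  t3 : v3 ≤ κ * (j - 3) + g

variable {j v0 v1 v2 v3 : ℤ}

lemma drop {κ g κ' g' y n : ℤ} (hy : 0 ≤ y) (h : κ' * y + g' ≤ κ * y + g) (hn : κ + n ≤ κ') :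
    g' ≤ g - n * y := by
  nlinarith

lemma top_val {κ : ℤ} (h0 : 0 ≤ κ) (h10 : κ ≤ 10) :
    (κ = 0 ∧ top κ = 0) ∨ (κ = 1 ∧ top κ = 0) ∨ (κ = 2 ∧ top κ = 3) ∨ (κ = 3 ∧ top κ = 4) ∨
    (κ = 4 ∧ top κ = 8) ∨ (κ = 5 ∧ top κ = 10) ∨ (κ = 6 ∧ top κ = 15) ∨ (κ = 7 ∧ top κ = 18) ∨
    (κ = 8 ∧ top κ = 24) ∨ (κ = 9 ∧ top κ = 28) ∨ (κ = 10 ∧ top κ = 35) := by
  have h1 : κ = 0 ∨ κ = 1 ∨ κ = 2 ∨ κ = 3 ∨ κ = 4 ∨ κ = 5 ∨ κ = 6 ∨ κ = 7 ∨ κ = 8 ∨ κ = 9 ∨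
    κ = 10 := by omega
  rcases h1 with rfl | rfl | rfl | rfl | rfl | rfl | rfl | rfl | rfl | rfl | rfl <;> decide

/-- noise is at least as high as the highest cross line of the same or a smaller slope -/
lemma NL.top_le {κ g κ' g' : ℤ} (h : NL κ g) (h0 : 0 ≤ κ') (h1 : κ' ≤ κ) (hg : g' ≤ top κ') :
    g' ≤ g := by
  have h10 : κ ≤ 9 := by
    unfold NL at h
    omega
  rcases top_val h0 (by omega) with ⟨hk, ht⟩ | ⟨hk, ht⟩ | ⟨hk, ht⟩ | ⟨hk, ht⟩ | ⟨hk, ht⟩ | ⟨hk, ht⟩ |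
    ⟨hk, ht⟩ | ⟨hk, ht⟩ | ⟨hk, ht⟩ | ⟨hk, ht⟩ | ⟨hk, ht⟩ <;> rw [ht] at hg <;> unfold NL at h <;> omega

/-- noise at a later window has a slope less than the lower slope at window `0` -/
lemma noise_low {κ0 g0 κ1 g1 κn gn y : ℤ} {w : ℤ} (hw : 1 ≤ w) (hy : 1 ≤ y) (hj : j = y + w)
    (hκ0 : 0 ≤ κ0) (hg0 : g0 ≤ top κ0) (hlt : κ0 + 1 ≤ κ1) (he : κ0 * j + g0 = κ1 * j + g1)
    (hN : NL κn gn) (hv : κn * y + gn ≤ κ1 * y + g1) : κn + 1 ≤ κ0 := by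
  by_contra hc
  have h1 : κ0 ≤ κn := by omega
  have h2 := hN.top_le hκ0 h1 hg0
  subst hj
  nlinarith

/-- two noise windows in a row -/
lemma noise_adj {κ g κ' g' κ1 g1 κ2 g2 y : ℤ} (hy : 14 ≤ y) (hN1 : NL κ1 g1) (hN2 : NL κ2 g2)
    (ho : Odd κ) (ho' : Odd κ') (hk10 : κ ≤ 10) (hle : κ ≤ κ') (h2 : κ1 + 2 ≤ κ)
    (e1 : κ * (y + 1) + g = κ1 * (y + 1) + g1) (e2 : κ' * y + g' = κ2 * y + g2)
    (i1 : κ * (y + 1) + g ≤ κ' * (y + 1) + g') (i2 : κ' * y + g' ≤ κ * y + g) : κ + 2 ≤ κ' := by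
  by_contra hc
  have h3 : κ = κ' := by
    obtain ⟨a, rfl⟩ := ho
    obtain ⟨b, rfl⟩ := ho'
    omega
  subst h3
  have h4 : g = g' := by linarith
  subst h4
  have h5 : (κ1 - κ2) * y + κ1 + g1 - g2 = κ := by linarith
  have h6 : κ1 = κ2 ∨ κ1 < κ2 ∨ κ2 < κ1 := by omega
  rcases h6 with h6 | h6 | h6
  · subst h6
    have h7 : g1 ≤ g2 + 1 := by
      unfold NL at hN1 hN2
      omega
    have h8 : κ1 + g1 - g2 = κ := by linarith
    omega
  · have h7 : g1 ≤ g2 := by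
      unfold NL at hN1 hN2
      omega
    have h8 : κ1 ≤ 9 := by
      unfold NL at hN1
      omega
    have h9 : (κ1 - κ2) * y ≤ (-1) * y := mul_le_mul_of_nonneg_right (by omega) (by omega)
    have h10 : 0 ≤ κ1 := by
      unfold NL at hN1
      omega
    omega
  · have h7 : g2 ≤ g1 := by
      unfold NL at hN1 hN2
      omega
    have h9 : 1 * y ≤ (κ1 - κ2) * y := mul_le_mul_of_nonneg_right (by omega) (by omega)
    have h10 : 0 ≤ κ1 := by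
      unfold NL at hN1
      omega
    omega

/-- the last window with noise is window `3` -/
lemma end_noise3 {κ g κn gn : ℤ} (hj : 17 ≤ j) (hN : NL κn gn) (ho : Odd κ)
    (hΔ : κn + 4 ≤ κ) (he : κ * (j - 3) + g = κn * (j - 3) + gn)
    (hv : κn * (j - 3) + gn ≤ 10 * (j - 3) - 40) (hlo : -43 ≤ g ∨ -j ≤ g) : False := by
  obtain ⟨a, rfl⟩ := ho
  have h4 : g ≤ gn - 4 * (j - 3) := drop (by omega) he.le hΔ
  unfold NL at hN
  rcases hN with ⟨rfl, rfl⟩ | ⟨rfl, rfl⟩ | ⟨rfl, rfl⟩ | ⟨rfl, rfl⟩ | ⟨rfl, rfl⟩ | ⟨rfl, rfl⟩ |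
    ⟨rfl, rfl⟩ | ⟨rfl, rfl⟩ | ⟨rfl, rfl⟩ | ⟨rfl, rfl⟩ | ⟨rfl, rfl⟩ | ⟨rfl, rfl⟩ | ⟨rfl, rfl⟩ |
    ⟨rfl, rfl⟩ | ⟨rfl, rfl⟩
  all_goals first
    | omega
    | (have h5 := drop (n := 5) (by omega : (0 : ℤ) ≤ j - 3) he.le (by omega); omega)

/-- the last window with noise is window `2` -/
lemma end_noise2 {κ g g' κn gn : ℤ} (hj : 17 ≤ j) (hN : NL κn gn) (hΔ : κn + 3 ≤ κ)
    (he : κ * (j - 2) + g = κn * (j - 2) + gn) (hv : κn * (j - 2) + gn ≤ 10 * (j - 2) - 40)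
    (h3 : g' ≤ g - (j - 3)) (hlo : -43 ≤ g' ∨ -j ≤ g') : False := by
  have h4 : g ≤ gn - 3 * (j - 2) := drop (by omega) he.le hΔ
  unfold NL at hN
  rcases hN with ⟨rfl, rfl⟩ | ⟨rfl, rfl⟩ | ⟨rfl, rfl⟩ | ⟨rfl, rfl⟩ | ⟨rfl, rfl⟩ | ⟨rfl, rfl⟩ |
    ⟨rfl, rfl⟩ | ⟨rfl, rfl⟩ | ⟨rfl, rfl⟩ | ⟨rfl, rfl⟩ | ⟨rfl, rfl⟩ | ⟨rfl, rfl⟩ | ⟨rfl, rfl⟩ |
    ⟨rfl, rfl⟩ | ⟨rfl, rfl⟩
  all_goals omega

/-- the last window with noise is window `1` -/
lemma end_noise1 {κ g g' κn gn : ℤ} (hj : 17 ≤ j) (hN : NL κn gn) (hΔ : κn + 2 ≤ κ)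
    (he : κ * (j - 1) + g = κn * (j - 1) + gn) (hv : κn * (j - 1) + gn ≤ 10 * (j - 1) - 40)
    (h3 : g' ≤ g - (j - 2) - (j - 3)) (hlo : -43 ≤ g' ∨ -j ≤ g') : False := by
  have h4 : g ≤ gn - 2 * (j - 1) := drop (by omega) he.le hΔ
  unfold NL at hN
  rcases hN with ⟨rfl, rfl⟩ | ⟨rfl, rfl⟩ | ⟨rfl, rfl⟩ | ⟨rfl, rfl⟩ | ⟨rfl, rfl⟩ | ⟨rfl, rfl⟩ |
    ⟨rfl, rfl⟩ | ⟨rfl, rfl⟩ | ⟨rfl, rfl⟩ | ⟨rfl, rfl⟩ | ⟨rfl, rfl⟩ | ⟨rfl, rfl⟩ | ⟨rfl, rfl⟩ |
    ⟨rfl, rfl⟩ | ⟨rfl, rfl⟩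
  all_goals omega

/-- no noise at all -/
lemma end_no_noise {κ0 g0 g' : ℤ} (hj : 17 ≤ j) (h0 : 0 ≤ κ0) (h10 : κ0 ≤ 9) (hg : g0 ≤ top κ0)
    (hv : κ0 * j + g0 ≤ 10 * j - 40) (h3 : g' ≤ g0 - j - (j - 1) - (j - 2) - (j - 3))
    (hlo : -43 ≤ g' ∨ -j ≤ g') : False := by
  rcases top_val h0 (by omega) with ⟨hk, ht⟩ | ⟨hk, ht⟩ | ⟨hk, ht⟩ | ⟨hk, ht⟩ | ⟨hk, ht⟩ | ⟨hk, ht⟩ |
    ⟨hk, ht⟩ | ⟨hk, ht⟩ | ⟨hk, ht⟩ | ⟨hk, ht⟩ | ⟨hk, ht⟩ <;> rw [ht] at hg <;> subst hk <;> omega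

/-- **The balance lemma.** -/
theorem no_balance (hj : 17 ≤ j) (c0 : v0 ≤ 10 * j - 40) (c1 : v1 ≤ 10 * (j - 1) - 40)
    (c2 : v2 ≤ 10 * (j - 2) - 40) (c3 : v3 ≤ 10 * (j - 3) - 40) (X : ℤ → ℤ → Prop)
    (hX : ∀ κ g, X κ g → Ln j v0 v1 v2 v3 κ g)
    (o0 : ∃ κ g, X κ g ∧ Odd κ ∧ κ * j + g = v0)
    (e0 : ∃ κ g, X κ g ∧ Even κ ∧ κ * j + g = v0)
    (o1 : ∃ κ g, X κ g ∧ Odd κ ∧ κ * (j - 1) + g = v1)
    (e1 : (∃ κ g, X κ g ∧ Even κ ∧ κ * (j - 1) + g = v1) ∨ Noise (j + 1 - 1) v1)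
    (o2 : ∃ κ g, X κ g ∧ Odd κ ∧ κ * (j - 2) + g = v2)
    (e2 : (∃ κ g, X κ g ∧ Even κ ∧ κ * (j - 2) + g = v2) ∨ Noise (j + 1 - 2) v2)
    (o3 : ∃ κ g, X κ g ∧ Odd κ ∧ κ * (j - 3) + g = v3)
    (e3 : (∃ κ g, X κ g ∧ Even κ ∧ κ * (j - 3) + g = v3) ∨ Noise (j + 1 - 3) v3) : False := by
  -- window 0
  obtain ⟨κ0, g0, κ1, g1, L0, L1, hlt, E0, E1⟩ : ∃ κ0 g0 κ1 g1, Ln j v0 v1 v2 v3 κ0 g0 ∧
      Ln j v0 v1 v2 v3 κ1 g1 ∧ κ0 + 1 ≤ κ1 ∧ κ0 * j + g0 = v0 ∧ κ1 * j + g1 = v0 := by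
    obtain ⟨κ, g, hx, ho, he⟩ := o0
    obtain ⟨κ', g', hx', ho', he'⟩ := e0
    have hne : κ ≠ κ' := by
      rintro rfl
      obtain ⟨a, ha⟩ := ho
      obtain ⟨b, hb⟩ := ho'
      omega
    rcases lt_or_gt_of_ne hne with h | h
    · exact ⟨κ, g, κ', g', hX _ _ hx, hX _ _ hx', h, he, he'⟩
    · exact ⟨κ', g', κ, g, hX _ _ hx', hX _ _ hx, h, he', he⟩
  have d0 : g1 ≤ g0 - 1 * j := drop (by omega) (by linarith) hlt
  obtain ⟨a1, b1, A1, O1, F1⟩ := o1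
  obtain ⟨a2, b2, A2, O2, F2⟩ := o2
  obtain ⟨a3, b3, A3, O3, F3⟩ := o3
  have A1 := hX _ _ A1
  have A2 := hX _ _ A2
  have A3 := hX _ _ A3
  -- slopes are nondecreasing
  have m1 : κ1 ≤ a1 := by
    have := A1.t0
    have := L1.t1
    linarith
  have m2 : a1 ≤ a2 := by
    have := A2.t1
    have := A1.t2
    linarith
  have m3 : a2 ≤ a3 := by
    have := A3.t2
    have := A2.t3
    linarith
  -- noise slopes
  have n1 : Noise (j + 1 - 1) v1 → ∃ κ g, NL κ g ∧ v1 = κ * (j - 1) + g ∧ κ + 1 ≤ κ0 := by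
    intro h
    obtain ⟨κ, g, h1, h2⟩ := h.nl (by omega) (by linarith)
    refine ⟨κ, g, h1, by rw [h2]; ring, noise_low (g1 := g1) (w := 1) (y := j - 1) (j := j) le_rfl (by omega)
      (by omega) L0.k0 L0.hi hlt (by linarith) h1 ?_⟩
    have := L1.t1
    have h3 : v1 = κ * (j - 1) + g := by rw [h2]; ring
    linarith
  have n2 : Noise (j + 1 - 2) v2 → ∃ κ g, NL κ g ∧ v2 = κ * (j - 2) + g ∧ κ + 1 ≤ κ0 := by
    intro h
    obtain ⟨κ, g, h1, h2⟩ := h.nl (by omega) (by linarith)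
    refine ⟨κ, g, h1, by rw [h2]; ring, noise_low (g1 := g1) (w := 2) (y := j - 2) (j := j) (by norm_num)
      (by omega) (by omega) L0.k0 L0.hi hlt (by linarith) h1 ?_⟩
    have := L1.t2
    have h3 : v2 = κ * (j - 2) + g := by rw [h2]; ring
    linarith
  have n3 : Noise (j + 1 - 3) v3 → ∃ κ g, NL κ g ∧ v3 = κ * (j - 3) + g ∧ κ + 1 ≤ κ0 := by
    intro h
    obtain ⟨κ, g, h1, h2⟩ := h.nl (by omega) (by linarith)
    refine ⟨κ, g, h1, by rw [h2]; ring, noise_low (g1 := g1) (w := 3) (y := j - 3) (j := j) (by norm_num)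
      (by omega) (by omega) L0.k0 L0.hi hlt (by linarith) h1 ?_⟩
    have := L1.t3
    have h3 : v3 = κ * (j - 3) + g := by rw [h2]; ring
    linarith
  -- joins at window 1: an upper line
  have u1 : (∃ κ g, X κ g ∧ Even κ ∧ κ * (j - 1) + g = v1) → ∃ κ g, Ln j v0 v1 v2 v3 κ g ∧
      κ1 + 1 ≤ κ ∧ a1 ≤ κ ∧ κ * (j - 1) + g = v1 := by
    rintro ⟨κ, g, hx, ⟨b, hb⟩, he⟩
    obtain ⟨a, ha⟩ := O1
    have hx := hX _ _ hx
    have hm : κ1 ≤ κ := by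
      have := hx.t0
      have := L1.t1
      linarith
    rcases lt_or_ge κ a1 with h | h
    · exact ⟨a1, b1, A1, by omega, le_rfl, F1⟩
    · exact ⟨κ, g, hx, by omega, h, he⟩
  have u2 : (∃ κ g, X κ g ∧ Even κ ∧ κ * (j - 2) + g = v2) → ∃ κ g, Ln j v0 v1 v2 v3 κ g ∧
      (∀ κ' g', Ln j v0 v1 v2 v3 κ' g' → κ' * (j - 1) + g' = v1 → κ' + 1 ≤ κ) ∧
      κ * (j - 2) + g = v2 := by
    rintro ⟨κ, g, hx, ⟨b, hb⟩, he⟩
    obtain ⟨a, ha⟩ := O2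
    have hx := hX _ _ hx
    rcases lt_or_ge κ a2 with h | h
    · refine ⟨a2, b2, A2, fun κ' g' h' e' => ?_, F2⟩
      have := hx.t1
      have := h'.t2
      have hm : κ' ≤ κ := by linarith
      omega
    · refine ⟨κ, g, hx, fun κ' g' h' e' => ?_, he⟩
      have := A2.t1
      have := h'.t2
      have hm : κ' ≤ a2 := by linarith
      omega
  have u3 : (∃ κ g, X κ g ∧ Even κ ∧ κ * (j - 3) + g = v3) → ∃ κ g, Ln j v0 v1 v2 v3 κ g ∧
      (∀ κ' g', Ln j v0 v1 v2 v3 κ' g' → κ' * (j - 2) + g' = v2 → κ' + 1 ≤ κ) ∧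
      κ * (j - 3) + g = v3 := by
    rintro ⟨κ, g, hx, ⟨b, hb⟩, he⟩
    obtain ⟨a, ha⟩ := O3
    have hx := hX _ _ hx
    rcases lt_or_ge κ a3 with h | h
    · refine ⟨a3, b3, A3, fun κ' g' h' e' => ?_, F3⟩
      have := hx.t2
      have := h'.t3
      have hm : κ' ≤ κ := by linarith
      omega
    · refine ⟨κ, g, hx, fun κ' g' h' e' => ?_, he⟩
      have := A3.t2
      have := h'.t3
      have hm : κ' ≤ a3 := by linarith
      omega
  -- window 3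
  rcases e3 with e3 | e3
  · -- joins at window 3
    obtain ⟨κ', g', L', hup3, E'⟩ := u3 e3
    rcases e2 with e2 | e2
    · obtain ⟨κ'', g'', L'', hup2, E''⟩ := u2 e2
      have h3 := hup3 _ _ L'' E''
      have d3 : g' ≤ g'' - 1 * (j - 3) := drop (by omega) (by have := L''.t3; linarith) h3
      rcases e1 with e1 | e1
      · -- J J J
        obtain ⟨κ, g, L, hup1, -, E⟩ := u1 e1
        have h2 := hup2 _ _ L E
        have d2 : g'' ≤ g - 1 * (j - 2) := drop (by omega) (by have := L.t2; linarith) h2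
        have d1 : g ≤ g1 - 1 * (j - 1) := drop (by omega) (by have := L1.t1; linarith) hup1
        exact end_no_noise hj L0.k0 (by have := L1.k10; omega) L0.hi (by linarith) (by linarith)
          L'.lo
      · -- N J J
        obtain ⟨κn, gn, hN, hv, hlow⟩ := n1 e1
        have h2 := hup2 _ _ A1 F1
        have d2 : g'' ≤ b1 - 1 * (j - 2) := drop (by omega) (by have := A1.t2; linarith) h2
        exact end_noise1 hj hN (κ := a1) (g := b1) (by omega) (by linarith) (by linarith)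
          (by linarith) L'.lo
    · -- noise at window 2
      obtain ⟨κn, gn, hN, hv, hlow⟩ := n2 e2
      have h3 := hup3 _ _ A2 F2
      have d3 : g' ≤ b2 - 1 * (j - 3) := drop (by omega) (by have := A2.t3; linarith) h3
      have hΔ : κn + 3 ≤ a2 := by
        rcases e1 with e1 | e1
        · obtain ⟨κ, g, L, hup1, -, E⟩ := u1 e1
          have : κ ≤ a2 := by
            have := A2.t1
            have := L.t2
            linarith
          omega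
        · obtain ⟨κn', gn', hN', hv', hlow'⟩ := n1 e1
          have := noise_adj (κ := a1) (g := b1) (κ' := a2) (g' := b2) (y := j - 2) (by omega) hN' hN
            O1 O2 A1.k10 m2 (by omega)
            (by have : j - 2 + 1 = j - 1 := by ring
                rw [this]; linarith) (by linarith)
            (by have : j - 2 + 1 = j - 1 := by ring
                rw [this]; have := A2.t1; linarith) (by have := A1.t2; linarith)
          omega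
      exact end_noise2 hj hN (g := b2) hΔ (by linarith) (by linarith) (by linarith) L'.lo
  · -- noise at window 3
    obtain ⟨κn, gn, hN, hv, hlow⟩ := n3 e3
    refine end_noise3 hj hN O3 (κ := a3) (g := b3) ?_ (by linarith) (by linarith) A3.lo
    rcases e2 with e2 | e2
    · obtain ⟨κ'', g'', L'', hup2, E''⟩ := u2 e2
      have h3 : κ'' ≤ a3 := by
        have := A3.t2
        have := L''.t3
        linarith
      rcases e1 with e1 | e1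
      · obtain ⟨κ, g, L, hup1, -, E⟩ := u1 e1
        have h2 := hup2 _ _ L E
        omega
      · have h2 := hup2 _ _ A1 F1
        obtain ⟨a, ha⟩ := O1
        obtain ⟨b, hb⟩ := O3
        omega
    · obtain ⟨κn', gn', hN', hv', hlow'⟩ := n2 e2
      have h3 := noise_adj (κ := a2) (g := b2) (κ' := a3) (g' := b3) (y := j - 3) (by omega) hN' hN
        O2 O3 A2.k10 m3 (by omega)
        (by have : j - 3 + 1 = j - 2 := by ring
            rw [this]; linarith) (by linarith)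
        (by have : j - 3 + 1 = j - 2 := by ring
            rw [this]; have := A3.t2; linarith) (by have := A2.t3; linarith)
      rcases e1 with e1 | e1
      · obtain ⟨κ, g, L, hup1, -, E⟩ := u1 e1
        have : κ ≤ a2 := by
          have := A2.t1
          have := L.t2
          linarith
        omega
      · obtain ⟨κn'', gn'', hN'', hv'', hlow''⟩ := n1 e1
        have := noise_adj (κ := a1) (g := b1) (κ' := a2) (g' := b2) (y := j - 2) (by omega) hN'' hN'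
          O1 O2 A1.k10 m2 (by omega)
          (by have : j - 2 + 1 = j - 1 := by ring
              rw [this]; linarith) (by linarith)
          (by have : j - 2 + 1 = j - 1 := by ring
              rw [this]; have := A2.t1; linarith) (by have := A1.t2; linarith)
        omega

end Pool.Agent.GaussPoset.Bal
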