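import Pool.Agent.W_448s7_h27.Bal

/-!
# The balance lemma: slopes and constants of the cross lines

A cross line of level `j + 1 + q` with `m` extra elements of total depth `C = ∑ (j - level)` has the
slope `κ = 2 q + m` and the constant `g = q² + 2 q - C`.
-/

namespace Pool.Agent.GaussPoset.Bal

/-- bounds of the total depth `C` of `m` extra elements in one component: a late word of length at
most `6` (total depth `≤ 24`, only one extra element of depth `6`; a single-up element of the level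
`j` has total depth at most `20`), or a quadric (one extra element, depth `≤ j / 2`), or a component
without extra elements up to level `j` -/
def Part (j q m C : ℤ) : Prop :=
  0 ≤ m ∧ ((C ≤ 24 ∧ C ≤ 5 * m + 1 ∧ (q = 0 → C ≤ 20)) ∨ 2 * C ≤ j)

lemma top_bound {q m C : ℤ} (hq : 0 ≤ q) (hm : 0 ≤ m) (hC : -(q * m) ≤ C) :
    q * q + 2 * q - C ≤ top (2 * q + m) := by
  unfold top
  rw [Int.le_ediv_iff_mul_le (by norm_num)]
  split_ifs with h
  · nlinarith
  · have h1 : 1 ≤ m := by omega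
    nlinarith

lemma low_bound {j q m C m1 m2 C1 C2 : ℤ} (hj : 17 ≤ j) (hq : 0 ≤ q) (hm : m1 + m2 ≤ m)
    (hp1 : Part j q m1 C1) (hp2 : Part j q m2 C2) (hC : C ≤ C1 + C2) (h10 : 2 * q + m ≤ 10) :
    -43 ≤ q * q + 2 * q - C ∨ -j ≤ q * q + 2 * q - C := by
  obtain ⟨n1, hp1⟩ := hp1
  obtain ⟨n2, hp2⟩ := hp2
  have hqc : q = 0 ∨ 1 ≤ q := by omega
  rcases hqc with rfl | hq1
  · rcases hp1 with ⟨-, -, a3⟩ | a <;> rcases hp2 with ⟨-, -, b3⟩ | b
    · have := a3 rfl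
      have := b3 rfl
      left; omega
    · have := a3 rfl
      omega
    · have := b3 rfl
      omega
    · right; omega
  · have h3 : 3 ≤ q * q + 2 * q := by nlinarith
    rcases hp1 with ⟨a1, a2, -⟩ | a <;> rcases hp2 with ⟨b1, b2, -⟩ | b
    · left; omega
    · omega
    · omega
    · right; omega

/-- a member of a cheapest class below the cap has slope at most `10` -/
lemma slope_le {j q m C m1 m2 C1 C2 w : ℤ} (hj : 17 ≤ j) (hq : 0 ≤ q) (hw : 0 ≤ w) (hw3 : w ≤ 3)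
    (hm : m1 + m2 ≤ m) (hp1 : Part j q m1 C1) (hp2 : Part j q m2 C2) (hC : C ≤ C1 + C2)
    (hv : (2 * q + m) * (j - w) + (q * q + 2 * q - C) ≤ 10 * (j - w) - 40) : 2 * q + m ≤ 10 := by
  by_contra hc
  have h11 : 11 ≤ 2 * q + m := by omega
  have h1 : 11 * (j - w) ≤ (2 * q + m) * (j - w) := mul_le_mul_of_nonneg_right h11 (by omega)
  have h2 : 0 ≤ q * q + 2 * q := by nlinarith
  have h3 : C ≤ 48 ∨ C ≤ 24 + j / 2 ∨ C ≤ j := by
    obtain ⟨n1, hp1⟩ := hp1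
    obtain ⟨n2, hp2⟩ := hp2
    rcases hp1 with ⟨a1, -, -⟩ | a <;> rcases hp2 with ⟨b1, -, -⟩ | b <;> omega
  omega

/-- the bounds of a cross line which is cheapest at window `w` -/
theorem ln_of {j v0 v1 v2 v3 q m C m1 m2 C1 C2 w κ g : ℤ} (hj : 17 ≤ j) (hq : 0 ≤ q) (hw : 0 ≤ w)
    (hw3 : w ≤ 3) (hm : m1 + m2 ≤ m) (hp1 : Part j q m1 C1) (hp2 : Part j q m2 C2)
    (hC : C ≤ C1 + C2) (hCl : -(q * m) ≤ C) (hκ : κ = 2 * q + m) (hg : g = q * q + 2 * q - C)
    (hv : κ * (j - w) + g ≤ 10 * (j - w) - 40)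
    (t0 : v0 ≤ κ * j + g) (t1 : v1 ≤ κ * (j - 1) + g) (t2 : v2 ≤ κ * (j - 2) + g)
    (t3 : v3 ≤ κ * (j - 3) + g) : Ln j v0 v1 v2 v3 κ g := by
  subst hκ hg
  have hm0 : 0 ≤ m := by
    have := hp1.1
    have := hp2.1
    omega
  have h10 := slope_le hj hq hw hw3 hm hp1 hp2 hC hv
  exact ⟨by omega, h10, low_bound hj hq hm hp1 hp2 hC h10, top_bound hq hm0 hCl, t0, t1, t2, t3⟩

/-- the ends of the level `j` which are not folds: (number of extra elements, total depth) -/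
def NEnd (j a d : ℤ) : Prop :=
  (a = 0 ∧ d = 0) ∨ (a = 1 ∧ 0 ≤ d) ∨ (a = 3 ∧ d = 9) ∨ (a = 5 ∧ d = 20)

/-- joins of the level `j + 1` between two such ends are below the cap at the windows `0, …, 3` -/
lemma cap_of {j a d a' d' w : ℤ} (hj : 17 ≤ j) (hw3 : w ≤ 3) (h : NEnd j a d)
    (h' : NEnd j a' d') : (a + a') * (j - w) - (d + d') ≤ 10 * (j - w) - 40 := by
  unfold NEnd at h h'
  rcases h with ⟨rfl, hd⟩ | ⟨rfl, hd⟩ | ⟨rfl, hd⟩ | ⟨rfl, hd⟩ <;>
    rcases h' with ⟨rfl, hd'⟩ | ⟨rfl, hd'⟩ | ⟨rfl, hd'⟩ | ⟨rfl, hd'⟩ <;> omega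

end Pool.Agent.GaussPoset.Bal
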