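import Pool.Agent.W_448s7_h27.Chk

/-!
# The balance lemma: the checks for `17 ≤ j ≤ 30`
-/

namespace Pool.Agent.GaussPoset.Bal

open Chk

/-- the allowed lines for `17 ≤ j ≤ 30` -/
def ok (j κ g : ℤ) : Bool :=
  (decide (-(2 * j + 9) ≤ g) || (κ == 10 && (g == -45 || g == -50))) &&
    decide (4 * g ≤ κ * κ + 4 * κ - (if κ % 2 = 0 then 0 else 9)) &&
    (κ != 6 || decide (g ≤ 10) || g == 15)

/-- noise of sign `+` as a list -/
def evL : List (ℤ × ℤ) :=
  [(0, 0), (1, 1), (1, 0), (2, 3), (3, 5), (3, 4), (4, 8), (5, 11), (5, 10), (6, 15), (7, 19),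
    (7, 18), (8, 24), (9, 29), (9, 28), (8, 19)]

/-- noise of sign `+` at the window `w` -/
def nE (j : ℤ) : ℕ → ℤ → Bool
  | 0, _ => false
  | w + 1, x => evL.any fun p => p.1 * (j - (w + 1)) + p.2 == x

/-- noise of sign `-` at the window `w` -/
def nO (j : ℤ) : ℕ → ℤ → Bool
  | 0, _ => false
  | w + 1, x => (7 * (j - (w + 1)) + 17 == x) || (j == 18 && w == 1 && x == 113) ||
      (j == 18 && w == 2 && x == 94)

/-- the caps -/
def cap (j : ℤ) (w : ℕ) : ℤ := 10 * (j - w) - 40

/-- the check for one `j` -/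
def chk (j : ℤ) : Bool :=
  above_cap (cap j) 0 (rounds (ok j) (nO j) (nE j) (cap j) [1, 3, 5, 7, 9] [0, 2, 4, 6, 8, 10] j
    500 4 600 [-(2 * j + 9), -(2 * j + 9), -(2 * j + 9), -(2 * j + 9)])

lemma chk_17 : chk 17 = true := by decide +kernel
lemma chk_18 : chk 18 = true := by decide +kernel
lemma chk_19 : chk 19 = true := by decide +kernel
lemma chk_20 : chk 20 = true := by decide +kernel
lemma chk_21 : chk 21 = true := by decide +kernel
lemma chk_22 : chk 22 = true := by decide +kernel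
lemma chk_23 : chk 23 = true := by decide +kernel
lemma chk_24 : chk 24 = true := by decide +kernel
lemma chk_25 : chk 25 = true := by decide +kernel
lemma chk_26 : chk 26 = true := by decide +kernel
lemma chk_27 : chk 27 = true := by decide +kernel
lemma chk_28 : chk 28 = true := by decide +kernel
lemma chk_29 : chk 29 = true := by decide +kernel
lemma chk_30 : chk 30 = true := by decide +kernel

lemma chk_all {j : ℤ} (h1 : 17 ≤ j) (h2 : j ≤ 30) : chk j = true := by
  have h : j = 17 ∨ j = 18 ∨ j = 19 ∨ j = 20 ∨ j = 21 ∨ j = 22 ∨ j = 23 ∨ j = 24 ∨ j = 25 ∨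
    j = 26 ∨ j = 27 ∨ j = 28 ∨ j = 29 ∨ j = 30 := by omega
  rcases h with rfl | rfl | rfl | rfl | rfl | rfl | rfl | rfl | rfl | rfl | rfl | rfl | rfl | rfl
  exacts [chk_17, chk_18, chk_19, chk_20, chk_21, chk_22, chk_23, chk_24, chk_25, chk_26, chk_27,
    chk_28, chk_29, chk_30]

end Pool.Agent.GaussPoset.Bal
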