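import Pool.Agent.W_448s7_h27.BalC

/-!
# The balance lemma, second version: `31 ≤ j`
-/

namespace Pool.Agent.GaussPoset.Bal

/-- the data of the balance lemma in terms of a function -/
structure FSys (j : ℤ) (v : ℕ → ℤ) (X : ℤ → ℤ → Prop) : Prop where
  k0 : ∀ κ g, X κ g → 0 ≤ κ
  k10 : ∀ κ g, X κ g → κ ≤ 10
  lo : ∀ κ g, X κ g → -(j + 19) ≤ g
  hi : ∀ κ g, X κ g → 4 * g ≤ κ * κ + 4 * κ - (if κ % 2 = 0 then 0 else 9)
  mn : ∀ κ g, X κ g → ∀ w : ℕ, w ≤ 3 → v w ≤ κ * (j - w) + g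
  o0 : ∃ κ g, X κ g ∧ Odd κ ∧ κ * (j - (0 : ℕ)) + g = v 0
  e0 : ∃ κ g, X κ g ∧ Even κ ∧ κ * (j - (0 : ℕ)) + g = v 0
  ow : ∀ w : ℕ, 1 ≤ w → w ≤ 3 → (∃ κ g, X κ g ∧ Odd κ ∧ κ * (j - w) + g = v w) ∨
    ∃ κ g, ON κ g ∧ v w = κ * (j - w) + g
  ew : ∀ w : ℕ, 1 ≤ w → w ≤ 3 → (∃ κ g, X κ g ∧ Even κ ∧ κ * (j - w) + g = v w) ∨
    ∃ κ g, EN κ g ∧ v w = κ * (j - w) + g

lemma EN.bd {κ g : ℤ} (h : EN κ g) : 3 * κ - 6 ≤ g ∧ g ≤ 3 * κ + 2 ∧ 0 ≤ g ∧ 0 ≤ κ ∧ κ ≤ 9 := by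
  unfold EN NL at h
  omega

lemma ON.bd {κ g : ℤ} (h : ON κ g) : 3 * κ - 6 ≤ g ∧ g ≤ 3 * κ + 2 ∧ 0 ≤ g ∧ 0 ≤ κ ∧ κ ≤ 9 := by
  unfold ON at h
  omega

/-- two noise values at neighbouring windows with the same slope above them -/
lemma nn_bd {k y κ1 g1 κ2 g2 : ℤ} (hy : 20 ≤ y)
    (h1 : 3 * κ1 - 6 ≤ g1 ∧ g1 ≤ 3 * κ1 + 2) (h2 : 3 * κ2 - 6 ≤ g2 ∧ g2 ≤ 3 * κ2 + 2)
    (a1 : k - 2 ≤ κ1) (a2 : κ1 ≤ k - 1) (b1 : k - 2 ≤ κ2) (b2 : κ2 ≤ k - 1)
    (he : κ1 * y + g1 - (κ2 * (y - 1) + g2) = k) : κ1 = κ2 ∧ g1 - g2 = k - κ1 := by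
  have h3 : κ1 = κ2 ∨ κ1 = κ2 + 1 ∨ κ1 = κ2 - 1 := by omega
  rcases h3 with rfl | rfl | rfl
  · refine ⟨rfl, ?_⟩
    linarith
  · exfalso
    have : (κ2 + 1) * y - κ2 * (y - 1) = y + κ2 := by ring
    omega
  · exfalso
    have : (κ2 - 1) * y - κ2 * (y - 1) = κ2 - y := by ring
    omega

lemma nn_EN {k y κ1 g1 κ2 g2 : ℤ} (hy : 20 ≤ y) (h1 : EN κ1 g1) (h2 : EN κ2 g2) (ho : Odd k)
    (a1 : k - 2 ≤ κ1) (a2 : κ1 ≤ k - 1) (b1 : k - 2 ≤ κ2) (b2 : κ2 ≤ k - 1)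
    (he : κ1 * y + g1 - (κ2 * (y - 1) + g2) = k) : False := by
  obtain ⟨h3, h4⟩ := nn_bd hy ⟨h1.bd.1, h1.bd.2.1⟩ ⟨h2.bd.1, h2.bd.2.1⟩ a1 a2 b1 b2 he
  subst h3
  obtain ⟨a, rfl⟩ := ho
  unfold EN NL at h1 h2
  omega

lemma nn_ON {k y κ1 g1 κ2 g2 : ℤ} (hy : 20 ≤ y) (h1 : ON κ1 g1) (h2 : ON κ2 g2) (ho : Even k)
    (a1 : k - 2 ≤ κ1) (a2 : κ1 ≤ k - 1) (b1 : k - 2 ≤ κ2) (b2 : κ2 ≤ k - 1)
    (he : κ1 * y + g1 - (κ2 * (y - 1) + g2) = k) : κ1 = 9 ∧ g1 = 27 := by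
  obtain ⟨h3, h4⟩ := nn_bd hy ⟨h1.bd.1, h1.bd.2.1⟩ ⟨h2.bd.1, h2.bd.2.1⟩ a1 a2 b1 b2 he
  subst h3
  obtain ⟨a, rfl⟩ := ho
  unfold ON at h1 h2
  omega

lemma EO {y κ1 g1 κ2 g2 : ℤ} (hy : 20 ≤ y) (h1 : EN κ1 g1) (h2 : ON κ2 g2)
    (he : κ1 * y + g1 = κ2 * y + g2) : False := by
  have b1 := h1.bd
  have b2 := h2.bd
  have h3 : κ1 = κ2 ∨ κ1 + 1 ≤ κ2 ∨ κ2 + 1 ≤ κ1 := by omega
  rcases h3 with rfl | h3 | h3
  · have h4 : g1 = g2 := by linarith
    subst h4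
    unfold EN NL at h1
    unfold ON at h2
    omega
  · have h4 : 1 * y ≤ (κ2 - κ1) * y := mul_le_mul_of_nonneg_right (by omega) (by omega)
    have h5 : (κ2 - κ1) * y = g1 - g2 := by linarith
    omega
  · have h4 : 1 * y ≤ (κ1 - κ2) * y := mul_le_mul_of_nonneg_right (by omega) (by omega)
    have h5 : (κ1 - κ2) * y = g2 - g1 := by linarith
    omega

lemma hi_val {κ g : ℤ} (h0 : 0 ≤ κ) (h9 : κ ≤ 9)
    (h : 4 * g ≤ κ * κ + 4 * κ - (if κ % 2 = 0 then 0 else 9)) : g ≤ 3 * κ ∧ g ≤ 27 := by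
  have h1 : κ = 0 ∨ κ = 1 ∨ κ = 2 ∨ κ = 3 ∨ κ = 4 ∨ κ = 5 ∨ κ = 6 ∨ κ = 7 ∨ κ = 8 ∨ κ = 9 := by
    omega
  rcases h1 with rfl | rfl | rfl | rfl | rfl | rfl | rfl | rfl | rfl | rfl <;> norm_num at h ⊢ <;>
    omega

section
variable {j : ℤ} {v : ℕ → ℤ} {X : ℤ → ℤ → Prop}

/-- slopes are monotone -/
lemma FSys.mono (h : FSys j v X) {w w' : ℕ} (hw : w < w') (hw' : w' ≤ 3) {κ g κ' g' : ℤ}
    (hx : X κ g) (he : κ * (j - w) + g = v w) (hx' : X κ' g') (he' : κ' * (j - w') + g' = v w') :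
    κ ≤ κ' := by
  have h1 := h.mn _ _ hx w' hw'
  have h2 := h.mn _ _ hx' w (by omega)
  have h3 : κ * ((w' : ℤ) - w) ≤ κ' * ((w' : ℤ) - w) := by linarith
  have h4 : (0 : ℤ) < (w' : ℤ) - w := by
    have : (w : ℤ) < w' := by exact_mod_cast hw
    omega
  exact le_of_mul_le_mul_right h3 h4

/-- two lines with the same slope at two windows are equal -/
lemma FSys.same (h : FSys j v X) {w w' : ℕ} (hw : w ≤ 3) (hw' : w' ≤ 3) {κ g g' : ℤ}
    (hx : X κ g) (he : κ * (j - w) + g = v w) (hx' : X κ g') (he' : κ * (j - w') + g' = v w') :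
    g = g' := by
  have h1 := h.mn _ _ hx w' hw'
  have h2 := h.mn _ _ hx' w (by omega)
  linarith

/-- window `0` -/
lemma FSys.zero (h : FSys j v X) (hj : 31 ≤ j) : ∃ k g, X k g ∧ X (k + 1) (g - j) ∧ k * j + g = v 0 ∧
    0 ≤ k ∧ k ≤ 9 ∧ g ≤ 27 := by
  obtain ⟨κ, g, hx, ho, he⟩ := h.o0
  obtain ⟨κ', g', hx', ho', he'⟩ := h.e0
  obtain ⟨a, ha⟩ := ho
  obtain ⟨b, hb⟩ := ho'
  have e : (j - ((0 : ℕ) : ℤ)) = j := by push_cast; ring
  rw [e] at he he'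
  have k0 := h.k0 _ _ hx
  have k0' := h.k0 _ _ hx'
  have k1 := h.k10 _ _ hx
  have k1' := h.k10 _ _ hx'
  have l := h.lo _ _ hx
  have l' := h.lo _ _ hx'
  rcases lt_or_ge κ κ' with hlt | hlt
  · have hb := hi_val k0 (by omega) (h.hi _ _ hx)
    have h1 : κ' = κ + 1 := by
      by_contra hc
      have h2 : 3 * j ≤ (κ' - κ) * j := mul_le_mul_of_nonneg_right (by omega) (by omega)
      have h3 : (κ' - κ) * j = g - g' := by linarith
      omega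
    subst h1
    have h2 : g' = g - j := by linarith
    subst h2
    exact ⟨κ, g, hx, hx', he, k0, by omega, by omega⟩
  · have hb := hi_val k0' (by omega) (h.hi _ _ hx')
    have h1 : κ = κ' + 1 := by
      by_contra hc
      have h2 : 3 * j ≤ (κ - κ') * j := mul_le_mul_of_nonneg_right (by omega) (by omega)
      have h3 : (κ - κ') * j = g' - g := by linarith
      omega
    subst h1
    have h2 : g = g' - j := by linarith
    subst h2
    exact ⟨κ', g', hx', hx, he', k0', by omega, by omega⟩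

/-- slopes at later windows -/
lemma FSys.slope (h : FSys j v X) (hj : 31 ≤ j) {k g0 : ℤ} (h1 : X (k + 1) (g0 - j))
    (he : k * j + g0 = v 0) (hg : g0 ≤ 27) {w : ℕ} (hw1 : 1 ≤ w) (hw : w ≤ 3) {κ g : ℤ}
    (hx : X κ g) (hv : κ * (j - w) + g = v w) : κ = k + 1 ∨ κ = k + 2 := by
  have h2 : k + 1 ≤ κ := by
    refine h.mono (w := 0) (w' := w) (by omega) hw h1 ?_ hx hv
    push_cast
    linarith
  have h3 : κ ≤ k + 2 := by
    by_contra hc
    have h4 := h.mn _ _ h1 w hw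
    have h5 := h.lo _ _ hx
    have hw3 : (w : ℤ) ≤ 3 := by exact_mod_cast hw
    have h6 : 2 * (j - w) ≤ (κ - (k + 1)) * (j - w) :=
      mul_le_mul_of_nonneg_right (by omega) (by omega)
    have h7 : (κ - (k + 1)) * (j - w) ≤ g0 - j - g := by linarith
    omega
  omega

/-- a window with two cross lines of different parity -/
def JW (j : ℤ) (v : ℕ → ℤ) (X : ℤ → ℤ → Prop) (k : ℤ) (w : ℕ) : Prop :=
  ∃ g g', X (k + 1) g ∧ (k + 1) * (j - w) + g = v w ∧ X (k + 2) g' ∧ (k + 2) * (j - w) + g' = v w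

/-- a window with noise -/
def NW (j : ℤ) (v : ℕ → ℤ) (X : ℤ → ℤ → Prop) (k g0 : ℤ) (w : ℕ) (κ : ℤ) : Prop :=
  ∃ g κn gn, X κ g ∧ κ * (j - w) + g = v w ∧ κn * (j - w) + gn = v w ∧ κn ≤ k ∧ κ - 2 ≤ κn ∧
    ((EN κn gn ∧ Odd κ) ∨ (ON κn gn ∧ Even κ)) ∧ (κn = k → gn ≤ g0 - w)

lemma FSys.win (h : FSys j v X) (hj : 31 ≤ j) {k g0 : ℤ} (h1 : X (k + 1) (g0 - j))
    (he : k * j + g0 = v 0) (hg : g0 ≤ 27) {w : ℕ} (hw1 : 1 ≤ w) (hw : w ≤ 3) :
    JW j v X k w ∨ ∃ κ, (κ = k + 1 ∨ κ = k + 2) ∧ NW j v X k g0 w κ := by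
  have hw3 : (w : ℤ) ≤ 3 := by exact_mod_cast hw
  have hw1' : (1 : ℤ) ≤ w := by exact_mod_cast hw1
  have m1 := h.mn _ _ h1 w hw
  -- noise
  have key : ∀ κn gn, (3 * κn - 6 ≤ gn ∧ gn ≤ 3 * κn + 2 ∧ 0 ≤ gn ∧ 0 ≤ κn ∧ κn ≤ 9) →
      v w = κn * (j - w) + gn → ∀ κ g, X κ g → κ * (j - w) + g = v w →
      κn ≤ k ∧ κ - 2 ≤ κn ∧ (κn = k → gn ≤ g0 - w) := by
    intro κn gn hb hv κ g hx hx'
    have hs := h.slope hj h1 he hg hw1 hw hx hx'
    have hk : κn ≤ k := by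
      by_contra hc
      have h4 : 0 ≤ (κn - (k + 1)) * (j - w) := mul_nonneg (by omega) (by omega)
      have h5 : (κn - (k + 1)) * (j - w) ≤ g0 - j - gn := by linarith
      omega
    refine ⟨hk, ?_, fun h6 => ?_⟩
    · by_contra hc
      have h4 : 3 * (j - w) ≤ (κ - κn) * (j - w) := mul_le_mul_of_nonneg_right (by omega) (by omega)
      have h5 : (κ - κn) * (j - w) = gn - g := by linarith
      have h7 := h.lo _ _ hx
      omega
    · subst h6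
      have h5 : κn * (j - w) + gn ≤ (κn + 1) * (j - w) + (g0 - j) := by linarith
      have h7 : (κn + 1) * (j - (w : ℤ)) = κn * (j - w) + (j - w) := by ring
      omega
  rcases h.ow w hw1 hw with ⟨κ, g, hx, ho, hv⟩ | ⟨κ, g, hn, hv⟩
  · rcases h.ew w hw1 hw with ⟨κ', g', hx', ho', hv'⟩ | ⟨κ', g', hn', hv'⟩
    · left
      have s1 := h.slope hj h1 he hg hw1 hw hx hv
      have s2 := h.slope hj h1 he hg hw1 hw hx' hv'
      obtain ⟨a, ha⟩ := ho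
      obtain ⟨b, hb⟩ := ho'
      have h3 : (κ = k + 1 ∧ κ' = k + 2) ∨ (κ = k + 2 ∧ κ' = k + 1) := by omega
      rcases h3 with ⟨h3, h4⟩ | ⟨h3, h4⟩
      · subst h3 h4
        exact ⟨g, g', hx, hv, hx', hv'⟩
      · subst h3 h4
        exact ⟨g', g, hx', hv', hx, hv⟩
    · right
      obtain ⟨k1, k2, k3⟩ := key κ' g' hn'.bd hv' κ g hx hv
      exact ⟨κ, h.slope hj h1 he hg hw1 hw hx hv, g, κ', g', hx, hv, hv'.symm, k1, k2,
        Or.inl ⟨hn', ho⟩, k3⟩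
  · rcases h.ew w hw1 hw with ⟨κ', g', hx', ho', hv'⟩ | ⟨κ', g', hn', hv'⟩
    · right
      obtain ⟨k1, k2, k3⟩ := key κ g hn.bd hv κ' g' hx' hv'
      exact ⟨κ', h.slope hj h1 he hg hw1 hw hx' hv', g', κ, g, hx', hv', hv.symm, k1, k2,
        Or.inr ⟨hn, ho'⟩, k3⟩
    · exact (EO (y := j - w) (by omega) hn' hn (by linarith)).elim

lemma FSys.JJ (h : FSys j v X) {k : ℤ} {w w' : ℕ} (hw : w < w') (hw' : w' ≤ 3)
    (a : JW j v X k w) (b : JW j v X k w') : False := by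
  obtain ⟨-, g1, -, -, h1, h2⟩ := a
  obtain ⟨g2, -, h3, h4, -, -⟩ := b
  have := h.mono hw hw' h1 h2 h3 h4
  omega

lemma FSys.NN (h : FSys j v X) (hj : 31 ≤ j) {k g0 : ℤ} (h0 : X k g0) (h9 : k ≤ 9) (hg : g0 ≤ 27)
    {w : ℕ} (hw1 : 1 ≤ w) (hw : w + 1 ≤ 3) {κ : ℤ}
    (hs : κ = k + 1 ∨ κ = k + 2) (a : NW j v X k g0 w κ) (b : NW j v X k g0 (w + 1) κ) : False := by
  have hw3 : (w : ℤ) + 1 ≤ 3 := by exact_mod_cast hw
  obtain ⟨g, κn, gn, hx, hv, hvn, hk, hk2, hN, hS⟩ := a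
  obtain ⟨g', κn', gn', hx', hv', hvn', hk', hk2', hN', hS'⟩ := b
  have h1 := h.same (by omega) hw hx hv hx' hv'
  subst h1
  push_cast at hv' hvn' hS'
  have he : κn * (j - w) + gn - (κn' * (j - w - 1) + gn') = κ := by
    have e1 : κn' * (j - w - 1) + gn' = κ * (j - (w + 1)) + g := by linarith
    rw [e1, hvn, ← hv]
    ring
  rcases hN with ⟨hN, ho⟩ | ⟨hN, ho⟩
  · rcases hN' with ⟨hN', -⟩ | ⟨-, ho'⟩
    · exact nn_EN (by omega) hN hN' ho hk2 (by omega) hk2' (by omega) he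
    · obtain ⟨a, ha⟩ := ho
      obtain ⟨b, hb⟩ := ho'
      omega
  · rcases hN' with ⟨-, ho'⟩ | ⟨hN', -⟩
    · obtain ⟨a, ha⟩ := ho
      obtain ⟨b, hb⟩ := ho'
      omega
    · obtain ⟨h2, h3⟩ := nn_ON (by omega) hN hN' ho hk2 (by omega) hk2' (by omega) he
      have := hS (by omega)
      omega

theorem FSys.false (h : FSys j v X) (hj : 31 ≤ j) : False := by
  obtain ⟨k, g0, h0, h1, he, hk0, hk9, hg⟩ := h.zero hj
  have ex : ∀ {w : ℕ} {κ : ℤ}, NW j v X k g0 w κ → ∃ g, X κ g ∧ κ * (j - w) + g = v w := by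
    rintro w κ ⟨g, κn, gn, hx, hv, -⟩
    exact ⟨g, hx, hv⟩
  rcases h.win hj h1 he hg (w := 2) (by norm_num) (by norm_num) with J2 | ⟨κ2, s2, N2⟩
  · rcases h.win hj h1 he hg (w := 1) (by norm_num) (by norm_num) with J1 | ⟨κ1, s1, N1⟩
    · exact h.JJ (by norm_num) (by norm_num) J1 J2
    rcases h.win hj h1 he hg (w := 3) (by norm_num) (by norm_num) with J3 | ⟨κ3, s3, N3⟩
    · exact h.JJ (by norm_num) (by norm_num) J2 J3
    -- N J N
    obtain ⟨g2, g2', x2, e2, x2', e2'⟩ := J2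
    obtain ⟨b1, κn1, gn1, y1, v1, n1, l1, m1, N1, S1⟩ := N1
    obtain ⟨b3, κn3, gn3, y3, v3, n3, l3, m3, N3, S3⟩ := N3
    have t1 : κ1 = k + 1 := by
      have := h.mono (w := 1) (w' := 2) (by norm_num) (by norm_num) y1 v1 x2 e2
      omega
    have t3 : κ3 = k + 2 := by
      have := h.mono (w := 2) (w' := 3) (by norm_num) (by norm_num) x2' e2' y3 v3
      omega
    subst t1 t3
    have q1 := h.same (w := 0) (w' := 1) (by norm_num) (by norm_num) h1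
      (by push_cast; linarith) y1 v1
    have q2 := h.same (w := 1) (w' := 2) (by norm_num) (by norm_num) y1 v1 x2 e2
    have q3 := h.same (w := 2) (w' := 3) (by norm_num) (by norm_num) x2' e2' y3 v3
    subst q1 q2 q3
    have k8 := h.k10 _ _ y3
    have l2 := h.lo _ _ y3
    have r2 : g2' = g0 - 2 * j + 2 := by
      push_cast at e2 e2'
      linarith
    push_cast at n1 n3 v1 v3 S1 S3
    -- window 1
    have bd1 : 3 * κn1 - 6 ≤ gn1 ∧ gn1 ≤ 3 * κn1 + 2 ∧ 0 ≤ gn1 ∧ 0 ≤ κn1 ∧ κn1 ≤ 9 := by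
      rcases N1 with ⟨N1, -⟩ | ⟨N1, -⟩
      · exact N1.bd
      · exact N1.bd
    have c1 : κn1 = k ∧ gn1 = g0 - 1 := by
      have h5 : κn1 = k ∨ κn1 = k - 1 := by omega
      rcases h5 with rfl | rfl
      · refine ⟨rfl, ?_⟩
        linarith
      · exfalso
        have h6 : (k - 1) * (j - 1) + gn1 = (k + 1) * (j - 1) + (g0 - j) := by linarith
        have h7 : gn1 = j - 2 + g0 := by linarith
        omega
    have c3 : κn3 = k ∧ gn3 = g0 - 4 := by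
      have h5 : κn3 = k := by omega
      subst h5
      refine ⟨rfl, ?_⟩
      linarith
    obtain ⟨c1, c1'⟩ := c1
    obtain ⟨c3, c3'⟩ := c3
    subst c1 c3
    rcases N1 with ⟨N1, o1⟩ | ⟨N1, o1⟩ <;> rcases N3 with ⟨N3, o3⟩ | ⟨N3, o3⟩ <;>
      obtain ⟨a, ha⟩ := o1 <;> obtain ⟨b, hb⟩ := o3
    · omega
    · unfold EN NL at N1
      unfold ON at N3
      omega
    · unfold EN NL at N3
      unfold ON at N1
      omega
    · omega
  · rcases h.win hj h1 he hg (w := 1) (by norm_num) (by norm_num) with J1 | ⟨κ1, s1, N1⟩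
    · rcases h.win hj h1 he hg (w := 3) (by norm_num) (by norm_num) with J3 | ⟨κ3, s3, N3⟩
      · exact h.JJ (by norm_num) (by norm_num) J1 J3
      · obtain ⟨-, g1, -, -, x1, e1⟩ := J1
        obtain ⟨b2, x2, e2⟩ := ex N2
        obtain ⟨b3, x3, e3⟩ := ex N3
        have t2 := h.mono (w := 1) (w' := 2) (by norm_num) (by norm_num) x1 e1 x2 e2
        have t3 := h.mono (w := 2) (w' := 3) (by norm_num) (by norm_num) x2 e2 x3 e3
        have t : κ3 = κ2 := by omega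
        subst t
        exact h.NN hj h0 hk9 hg (by norm_num) (by norm_num) s3 N2 N3
    · obtain ⟨b1, x1, e1⟩ := ex N1
      obtain ⟨b2, x2, e2⟩ := ex N2
      have t1 := h.mono (w := 1) (w' := 2) (by norm_num) (by norm_num) x1 e1 x2 e2
      rcases h.win hj h1 he hg (w := 3) (by norm_num) (by norm_num) with J3 | ⟨κ3, s3, N3⟩
      · obtain ⟨g3, -, x3, e3, -, -⟩ := J3
        have t2 := h.mono (w := 2) (w' := 3) (by norm_num) (by norm_num) x2 e2 x3 e3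
        have t : κ2 = κ1 := by omega
        subst t
        exact h.NN hj h0 hk9 hg (by norm_num) (by norm_num) s1 N1 N2
      · obtain ⟨b3, x3, e3⟩ := ex N3
        have t2 := h.mono (w := 2) (w' := 3) (by norm_num) (by norm_num) x2 e2 x3 e3
        by_cases t : κ2 = κ1
        · subst t
          exact h.NN hj h0 hk9 hg (by norm_num) (by norm_num) s2 N1 N2
        · have t : κ3 = κ2 := by omega
          subst t
          exact h.NN hj h0 hk9 hg (by norm_num) (by norm_num) s3 N2 N3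

end

/-- **The balance lemma, second version.** -/
theorem BSys.false {j v0 v1 v2 v3 : ℤ} {X : ℤ → ℤ → Prop} (h : BSys j v0 v1 v2 v3 X)
    (hj : 17 ≤ j) : False := by
  rcases le_or_gt j 30 with h30 | h31
  · exact h.small hj h30
  · have hj' : 31 ≤ j := by omega
    have hF : FSys j (vf v0 v1 v2 v3) X := by
      refine ⟨fun κ g hx => (h.ln κ g hx).k0, fun κ g hx => (h.ln κ g hx).k10,
        fun κ g hx => (h.ln κ g hx).lo' hj', fun κ g hx => (h.ln κ g hx).hi,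
        fun κ g hx w hw => ?_, by simpa [vf] using h.o0, by simpa [vf] using h.e0,
        fun w hw1 hw => ?_, fun w hw1 hw => ?_⟩
      · have h1 : w = 0 ∨ w = 1 ∨ w = 2 ∨ w = 3 := by omega
        rcases h1 with rfl | rfl | rfl | rfl
        · have := (h.ln κ g hx).t0
          simpa [vf] using this
        · have := (h.ln κ g hx).t1
          simpa [vf] using this
        · have := (h.ln κ g hx).t2
          simpa [vf] using this
        · have := (h.ln κ g hx).t3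
          simpa [vf] using this
      · have h1 : w = 1 ∨ w = 2 ∨ w = 3 := by omega
        rcases h1 with rfl | rfl | rfl
        · simpa [vf] using h.o1
        · rcases h.o2 with h2 | h2 | ⟨h2, -⟩
          · left; simpa [vf] using h2
          · right; simpa [vf] using h2
          · omega
        · rcases h.o3 with h2 | h2 | ⟨h2, -⟩
          · left; simpa [vf] using h2
          · right; simpa [vf] using h2
          · omega
      · have h1 : w = 1 ∨ w = 2 ∨ w = 3 := by omega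
        rcases h1 with rfl | rfl | rfl
        · simpa [vf] using h.e1
        · simpa [vf] using h.e2
        · simpa [vf] using h.e3
    exact hF.false hj'

end Pool.Agent.GaussPoset.Bal
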