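import Pool.Agent.W_448s7_h27.EwA
import Pool.Agent.W_448s7s_h5.SmB
import Pool.Agent.W_448cl_h67.ClS

/-!
Bounds for the number of defect tops which are hit (MP_448cb3_co).
-/

namespace Pool.Agent.GaussPoset.Ew

set_option linter.unusedSectionVars false

open Polynomial Finset

universe u

variable {P : Type u} [Fintype P] [PartialOrder P] [DecidableEq P]
variable {i : ℕ} {N : Tops P → Finset P} {θ : Tops P → P → ℕ} {E : Finset (Tops P)}

/-- a raised element below `x` is expensive in every up-closed set which contains `x` -/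
lemma cst_le_sum {e : P → ℕ} {F : Finset P} (hV : Vd i e F) {z x : P} (hzx : z ≤ x)
    (hz : i < lev z) {h : ℕ} (hh : z ∈ F ∨ h ≤ e z) {A : Finset P} (hxA : x ∈ A)
    (hA : ∀ x ∈ A, ∀ y, x ≤ y → y ∈ A) : cst i (fun _ => h) x ≤ ∑ y ∈ A, e y := by
  classical
  have h1 : ∀ y, ez i (fun _ => h) x y ≤ if y ∈ A then e y else 0 := by
    intro y
    unfold ez
    split_ifs with h1 h2 h2
    · have h3 := ez_le (h := fun _ => h) hV hz hh y
      unfold ez at h3
      rw [if_pos (hzx.trans h1)] at h3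
      exact h3
    · exact absurd (hA x hxA y h1) h2
    · exact Nat.zero_le _
    · exact le_rfl
  unfold cst
  refine (Finset.sum_le_sum fun y _ => h1 y).trans ?_
  rw [Finset.sum_ite_mem, univ_inter]

/-- `z` hits the top `t` -/
def Hit (N : Tops P → Finset P) (θ : Tops P → P → ℕ) (e : P → ℕ) (t : Tops P) (z : P) : Prop :=
  ∃ x, z ⋖ x ∧ x ∈ N t ∧ z ∉ N t ∧ θ t x < e z

lemma mem_KE_hit {t : Tops P} {e : P → ℕ} : t ∈ KE E N θ e ↔ t ∈ E ∧ ∃ z, Hit N θ e t z := mem_KE

lemma Hit.not_mem (HN : NatSys N) {e : P → ℕ} {t : Tops P} {z : P} (h : Hit N θ e t z)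
    (s : Tops P) : z ∉ N s := by
  obtain ⟨x, h1, h2, h3, -⟩ := h
  intro hs
  have h4 := HN.up s z hs x h1.1.le
  have h5 : s = t := (HN.topOf_eq h4).symm.trans (HN.topOf_eq h2)
  exact h3 (h5 ▸ hs)

lemma disj_tops (HN : NatSys N) {t t' : Tops P} (hne : t ≠ t') : Disjoint (N t) (N t') := by
  rw [Finset.disjoint_left]
  intro x h1 h2
  exact hne ((HN.topOf_eq h1).symm.trans (HN.topOf_eq h2))

lemma sum_tops (HN : NatSys N) {t t' : Tops P} (hne : t ≠ t') {A : Finset P}
    (hA : ∀ z ∈ A, ∀ s, z ∉ N s) (e : P → ℕ) :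
    ∑ y ∈ N t, e y + ∑ y ∈ N t', e y + ∑ y ∈ A, e y ≤ ∑ y, e y := by
  classical
  rw [← Finset.sum_union (disj_tops HN hne), ← Finset.sum_union]
  · exact Finset.sum_le_sum_of_subset (Finset.subset_univ _)
  · rw [Finset.disjoint_left]
    intro x h1 h2
    rcases mem_union.mp h1 with h | h
    · exact hA x h2 t h
    · exact hA x h2 t' h

/-- at most one top is hit -/
theorem card_KE_le_one (HN : NatSys N) {n : ℕ} {e : P → ℕ} (hs : ∑ x, e x = n)
    (m : Tops P → ℕ) (hm : ∀ t ∈ KE E N θ e, m t ≤ ∑ y ∈ N t, e y)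
    (hp : ∀ t ∈ KE E N θ e, ∀ t' ∈ KE E N θ e, t ≠ t' → ∀ z z', Hit N θ e t z →
      Hit N θ e t' z' → n < m t + m t' + if z = z' then e z else e z + e z') :
    (KE E N θ e).card ≤ 1 := by
  classical
  rw [Finset.card_le_one]
  intro t ht t' ht'
  by_contra hne
  obtain ⟨-, z, hz⟩ := mem_KE_hit.mp ht
  obtain ⟨-, z', hz'⟩ := mem_KE_hit.mp ht'
  have h1 := hp t ht t' ht' hne z z' hz hz'
  have h2 := hm t ht
  have h3 := hm t' ht'
  by_cases hzz : z = z'
  · rw [if_pos hzz] at h1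
    have h4 := sum_tops HN hne (A := {z}) (fun y hy s => by
      rw [mem_singleton] at hy
      rw [hy]; exact hz.not_mem HN s) e
    rw [Finset.sum_singleton, hs] at h4
    omega
  · rw [if_neg hzz] at h1
    have h4 := sum_tops HN hne (A := {z, z'}) (fun y hy s => by
      rw [mem_insert, mem_singleton] at hy
      rcases hy with hy | hy
      · rw [hy]; exact hz.not_mem HN s
      · rw [hy]; exact hz'.not_mem HN s) e
    rw [Finset.sum_pair hzz, hs] at h4
    omega

/-- at most `d` tops are hit -/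
theorem card_KE_le (HN : NatSys N) {n d m : ℕ} {e : P → ℕ} (hs : ∑ x, e x = n)
    (hm : ∀ t ∈ KE E N θ e, m ≤ ∑ y ∈ N t, e y) (hn : n < (d + 1) * m) :
    (KE E N θ e).card ≤ d := by
  classical
  by_contra hcon
  push Not at hcon
  have h1 : (KE E N θ e).card * m ≤ ∑ t ∈ KE E N θ e, ∑ y ∈ N t, e y := by
    rw [← smul_eq_mul, ← Finset.sum_const]
    exact Finset.sum_le_sum hm
  have h2 : ∑ t ∈ KE E N θ e, ∑ y ∈ N t, e y ≤ n := by
    rw [← hs, ← Finset.sum_biUnion (fun t _ t' _ hne => disj_tops HN hne)]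
    exact Finset.sum_le_sum_of_subset (Finset.subset_univ _)
  have h3 : (d + 1) * m ≤ (KE E N θ e).card * m := Nat.mul_le_mul_right _ hcon
  omega

section Word

open Cl Wd

/-- the number of elements of level `k` above the element `s` of level `j` -/
def nbW (a : ℕ) (w : List Ltr) (j s k : ℕ) : ℕ :=
  ((Icc (losW a w k) (hisW a w k)).filter (fun s' => s' ≤ s ∧ s ≤ s' + (j - k))).card

/-- the cost of the element `s` of level `j` -/
def cstW (a : ℕ) (w : List Ltr) (j s i h : ℕ) : ℕ :=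
  ∑ k ∈ range (j + 1), min h (k - i) * nbW a w j s k

variable {j r a h s : ℕ} {w : List Ltr} {t : Tops P} {lo hi : ℕ → ℕ} {e : ℕ → ℕ → P}

theorem nab_word (D : WordD j a w lo hi) (C : Cp.Comp j (t : P) lo hi e) (H : Gr P r)
    (hg : ∀ l, l < j → Win.Good P l) (h1 : lo j ≤ s) (h2 : s ≤ hi j)
    (hx : e j s ∈ onlyB t) {k : ℕ} (hk : k ≤ j) : nab k (e j s) = nbW a w j s k := by
  classical
  have hl := C.lev_e j s le_rfl h1 h2
  rw [Sm.nab_pos H hg C hx hl.ge hk]
  obtain ⟨r1, r2⟩ := D.rows C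
  unfold nbW
  rw [r1 k hk, r2 k hk]
  congr 1
  refine Finset.filter_congr fun s' _ => ?_
  constructor
  · rintro ⟨s1, g1, g2⟩
    obtain ⟨⟨g3, g4⟩, g5⟩ := Sm.mem_posA.mp g1
    have g6 : e j s = e j s1 := by
      by_contra hne
      have := lev_strictAnti (lt_of_le_of_ne g5 hne)
      rw [hl, C.lev_e j s1 le_rfl g3 g4] at this
      omega
    have g7 := C.inj j s s1 le_rfl h1 h2 g3 g4 g6
    rw [g7]
    exact g2
  · intro g
    exact ⟨s, Sm.mem_posA.mpr ⟨⟨h1, h2⟩, le_rfl⟩, g⟩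

theorem cst_word (D : WordD j a w lo hi) (C : Cp.Comp j (t : P) lo hi e) (H : Gr P r)
    (hg : ∀ l, l < j → Win.Good P l) (h1 : lo j ≤ s) (h2 : s ≤ hi j)
    (hx : e j s ∈ onlyB t) (i h : ℕ) : cst i (fun _ => h) (e j s) = cstW a w j s i h := by
  have hl := C.lev_e j s le_rfl h1 h2
  rw [cst_eq, hl]
  unfold cstW
  refine Finset.sum_congr rfl fun k hk => ?_
  rw [mem_range] at hk
  rw [nab_word D C H hg h1 h2 hx (by omega)]

/-- all elements of level `j` of `E7` cost at least `c` with the label `h` at the window `i` -/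
def MinW (a : ℕ) (w : List Ltr) (j i h c : ℕ) : Prop :=
  ∀ s ∈ Icc (losW a w j) (hisW a w j), c ≤ cstW a w j s i h

instance (a : ℕ) (w : List Ltr) (j i h c : ℕ) : Decidable (MinW a w j i h c) := by
  unfold MinW; infer_instance

lemma minW_E7_14 : MinW 4 w7 14 4 7 88 := by decide +kernel

lemma minW_E7_15 : MinW 4 w7 15 4 8 100 := by decide +kernel

lemma minW_E7_12 : MinW 4 w7 12 4 5 54 := by decide +kernel

end Word

end Pool.Agent.GaussPoset.Ew
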