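import Pool.Agent.W_448s7_h27.EwP
import Pool.Agent.W_448s7_h27.EwB
import Pool.Agent.W_448w4_h70.WI
import Pool.Agent.W_448cl_h67.ClS

/-!
The components at window `4` with a fine and a coarse natural system: `E7` and the stairs are the
defect tops (MP_448cb3_co, S7).
-/

namespace Pool.Agent.GaussPoset.Ec

set_option linter.unusedSectionVars false

open Polynomial Finset Sm Wd Cp W4 Cl

universe u

variable {P : Type u} [Fintype P] [PartialOrder P] [DecidableEq P] {r j : ℕ}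

/-- the types of the components at window `4`, with the coarse natural set `N`, thresholds `θ4`,
and the fine natural set `Nf`, thresholds `θf tb` (`tb` a table for `E7`), order `b`; `d`: the two
systems differ in the order -/
inductive FineY (j : ℕ) (t : Tops P) (lo hi : ℕ → ℕ) (e : ℕ → ℕ → P)
    (N : Finset P) (θ4 : P → ℕ) (b : ℕ) (Nf : Finset P) (θf : (ℕ → ℕ → ℕ) → P → ℕ)
    (d : Prop) : Prop
  | light (h1 : N = onlyB t) (h2 : θ4 = fun x => lev x - 4) (h3 : b = 1) (h4 : Nf = N)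
      (h5 : θf = fun _ => θ4) (h6 : ¬ d) (h7 : ∀ x, x ≤ (t : P) → lev x ≤ j → x ∈ onlyB t)
  | rect (c : ℕ) (Nc : Finset P) (co : P → ℕ × ℕ) (h0 : RectNat j 4 t c Nc co)
      (h1 : N = natR Nc co) (h2 : θ4 = thR 4 c Nc co) (h3 : b = c) (h4 : Nf = N)
      (h5 : θf = fun _ => θ4) (h6 : ¬ d) (h7 : lo 3 < hi 3)
  | e7 (h0 : WordD j 4 w7 lo hi) (h1 : N = onlyB t) (h2 : θ4 = fun x => lev x - 4) (h3 : b = 2)
      (h4 : Nf = lowPart j (t : P)) (h5 : θf = fun tb => thC lo hi e tb) (h6 : d)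
      (h7 : ∀ x, x ≤ (t : P) → lev x ≤ j → x ∈ onlyB t) (h8 : j ≤ 16)
  | stair (Nc : Finset P) (co : P → ℕ × ℕ) (h0 : StairNat j 4 t Nc co) (h1 : N = natS Nc co)
      (h2 : θ4 = thSg 2 4 Nc co) (h3 : b = 3) (h4 : Nf = N) (h5 : θf = fun _ => thS 4 Nc co)
      (h6 : d)

section

variable {t : Tops P} {lo hi : ℕ → ℕ} {e : ℕ → ℕ → P} {N : Finset P} {θ4 : P → ℕ} {b : ℕ}
  {Nf : Finset P} {θf : (ℕ → ℕ → ℕ) → P → ℕ} {d : Prop}

lemma hex4 (C : Comp j (t : P) lo hi e) (hj : 4 ≤ j) : ∃ x ≤ (t : P), lev x = 4 :=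
  ⟨e 4 (lo 4), C.le_t 4 _ hj le_rfl (C.lo_le 4 hj), C.lev_e 4 _ hj le_rfl (C.lo_le 4 hj)⟩

/-- the fine natural system -/
theorem FineY.nat (F : FineY j t lo hi e N θ4 b Nf θf d) (C : Comp j (t : P) lo hi e)
    (H : Gr P r) (hg : ∀ l, l < j → Win.Good P l) (hj : 8 ≤ j) :
    ∃ B, NatTop 4 t b Nf (θf E7t4) B := by
  have hgr := H.gradedBelow
  rcases F with ⟨h1, h2, h3, h4, h5, h6, h7⟩ | ⟨c, Nc, co, h0, h1, h2, h3, h4, h5, h6⟩ |
    ⟨h0, h1, h2, h3, h4, h5, h6, h7, h8⟩ | ⟨Nc, co, h0, h1, h2, h3, h4, h5, h6⟩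
  · subst h4 h1 h5 h2 h3
    exact ⟨_, natTop_light hgr (fun x hx hxi => h7 x hx (by omega)) (hex4 C (by omega))⟩
  · subst h4 h1 h5 h2 h3
    exact ⟨_, h0.natTop hgr (by omega)⟩
  · subst h4 h1 h5 h2 h3
    exact ⟨_, natTopC_E7_4 h0 C H hg hj h8⟩
  · subst h4 h1 h5 h2 h3
    exact ⟨_, h0.natTop hgr (by norm_num) (by omega)⟩

/-- the coarse natural system of a defect top -/
theorem FineY.nat1 (F : FineY j t lo hi e N θ4 b Nf θf d) (C : Comp j (t : P) lo hi e)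
    (H : Gr P r) (hj : 8 ≤ j) (hd : d) : ∃ B, NatTop 4 t (b - 1) N θ4 B := by
  have hgr := H.gradedBelow
  rcases F with ⟨h1, h2, h3, h4, h5, h6, h7⟩ | ⟨c, Nc, co, h0, h1, h2, h3, h4, h5, h6⟩ |
    ⟨h0, h1, h2, h3, h4, h5, h6, h7, h8⟩ | ⟨Nc, co, h0, h1, h2, h3, h4, h5, h6⟩
  · exact absurd hd h6
  · exact absurd hd h6
  · subst h4 h1 h5 h2 h3
    exact ⟨_, natTop_light hgr (fun x hx hxi => h7 x hx (by omega)) (hex4 C (by omega))⟩
  · subst h4 h1 h5 h2 h3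
    exact ⟨_, h0.natTop_less hgr le_rfl (by omega)⟩

lemma FineY.one (F : FineY j t lo hi e N θ4 b Nf θf d) (hd : d) : 1 ≤ b := by
  rcases F with ⟨h1, h2, h3, h4, h5, h6, h7⟩ | ⟨c, Nc, co, h0, h1, h2, h3, h4, h5, h6⟩ |
    ⟨h0, h1, h2, h3, h4, h5, h6, h7, h8⟩ | ⟨Nc, co, h0, h1, h2, h3, h4, h5, h6⟩
  · exact absurd hd h6
  · exact absurd hd h6
  · omega
  · omega

lemma FineY.sub (F : FineY j t lo hi e N θ4 b Nf θf d) : Nf ⊆ N := by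
  rcases F with ⟨h1, h2, h3, h4, h5, h6, h7⟩ | ⟨c, Nc, co, h0, h1, h2, h3, h4, h5, h6⟩ |
    ⟨h0, h1, h2, h3, h4, h5, h6, h7, h8⟩ | ⟨Nc, co, h0, h1, h2, h3, h4, h5, h6⟩
  · rw [h4]
  · rw [h4]
  · intro x hx
    rw [h4, mem_lowPart] at hx
    rw [h1]
    exact h7 x hx.1 hx.2
  · rw [h4]

lemma FineY.eq (F : FineY j t lo hi e N θ4 b Nf θf d) (hd : ¬ d) :
    Nf = N ∧ ∀ tb, θf tb = θ4 := by
  rcases F with ⟨h1, h2, h3, h4, h5, h6, h7⟩ | ⟨c, Nc, co, h0, h1, h2, h3, h4, h5, h6⟩ |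
    ⟨h0, h1, h2, h3, h4, h5, h6, h7, h8⟩ | ⟨Nc, co, h0, h1, h2, h3, h4, h5, h6⟩
  · exact ⟨h4, fun tb => by rw [h5]⟩
  · exact ⟨h4, fun tb => by rw [h5]⟩
  · exact absurd h6 hd
  · exact absurd h6 hd

/-- a table below the level -/
def TbOK (tb : ℕ → ℕ → ℕ) : Prop := ∀ k s, tb k s ≤ k - 4

lemma FineY.le1 (F : FineY j t lo hi e N θ4 b Nf θf d) {tb : ℕ → ℕ → ℕ} (htb : TbOK tb)
    (x : P) : θf tb x ≤ θ4 x := by
  rcases F with ⟨h1, h2, h3, h4, h5, h6, h7⟩ | ⟨c, Nc, co, h0, h1, h2, h3, h4, h5, h6⟩ |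
    ⟨h0, h1, h2, h3, h4, h5, h6, h7, h8⟩ | ⟨Nc, co, h0, h1, h2, h3, h4, h5, h6⟩
  · rw [h5]
  · rw [h5]
  · rw [h5, h2]
    exact htb _ _
  · rw [h5, h2]
    unfold thSg
    show thS 4 Nc co x ≤ _
    unfold thS
    split_ifs
    · exact le_rfl
    · omega

lemma FineY.le2 (F : FineY j t lo hi e N θ4 b Nf θf d) {tb : ℕ → ℕ → ℕ} (htb : TbOK tb)
    {x y : P} (hx : x ∈ N) (hx' : x ∉ Nf) (hxy : x ≤ y) : θf tb y ≤ θ4 x := by
  rcases F with ⟨h1, h2, h3, h4, h5, h6, h7⟩ | ⟨c, Nc, co, h0, h1, h2, h3, h4, h5, h6⟩ |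
    ⟨h0, h1, h2, h3, h4, h5, h6, h7, h8⟩ | ⟨Nc, co, h0, h1, h2, h3, h4, h5, h6⟩
  · exact absurd (h4 ▸ hx) hx'
  · exact absurd (h4 ▸ hx) hx'
  · rw [h5, h2]
    have h9 : tb (lev y) (scoord lo hi e y) ≤ lev y - 4 := htb _ _
    have h10 := lev_anti hxy
    show tb (lev y) (scoord lo hi e y) ≤ lev x - 4
    omega
  · exact absurd (h4 ▸ hx) hx'

lemma FineY.up (F : FineY j t lo hi e N θ4 b Nf θf d) {tb : ℕ → ℕ → ℕ}
    (hd : d) {x y : P} (hx : x ∈ N) (hne : θ4 x + 1 ≤ lev x - 4) (hxy : x < y) :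
    θf tb y ≤ θ4 x := by
  rcases F with ⟨h1, h2, h3, h4, h5, h6, h7⟩ | ⟨c, Nc, co, h0, h1, h2, h3, h4, h5, h6⟩ |
    ⟨h0, h1, h2, h3, h4, h5, h6, h7, h8⟩ | ⟨Nc, co, h0, h1, h2, h3, h4, h5, h6⟩
  · exact absurd hd h6
  · exact absurd hd h6
  · rw [h2] at hne
    have h9 : lev x - 4 + 1 ≤ lev x - 4 := hne
    omega
  · rw [h2] at hne ⊢
    rw [h5]
    have hJ : x ∉ junk (fun c => c.1 ≤ c.2) Nc co := by
      intro hJ
      unfold thSg at hne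
      rw [if_pos hJ] at hne
      omega
    have hxN : x ∈ Nc := by
      rw [h1, mem_natS] at hx
      exact hx.resolve_right hJ
    have hl := h0.chart.lev x hxN
    have hyN := h0.chart.up x hxN y hxy.le
    have hle := (h0.chart.le_iff x hxN y hyN).mp hxy.le
    have hle1 : (co y).1 ≤ (co x).1 := hle.1
    have hle2 : (co y).2 ≤ (co x).2 := hle.2
    have g1 : 1 ≤ (co x).1 := by
      unfold thSg at hne
      rw [if_neg hJ] at hne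
      omega
    have hy1 := not_junk_above h0.chart hxN g1 hxy.le
    show thS 4 Nc co y ≤ thSg 2 4 Nc co x
    unfold thS thSg
    rw [if_neg hy1, if_neg hJ]
    omega

end

end Pool.Agent.GaussPoset.Ec
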