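import Pool.Agent.W_448s7_h27.EwC

/-!
Existence of the fine and the coarse systems at window `4` (MP_448cb3_co, S7).
-/

namespace Pool.Agent.GaussPoset.Ec

set_option linter.unusedSectionVars false

open Polynomial Finset Sm Wd Cp W4 Cl

universe u

variable {P : Type u} [Fintype P] [PartialOrder P] [DecidableEq P] {r j : ℕ}

lemma lateD_of {lo hi : ℕ → ℕ} {a : ℕ} (h : LateC j lo hi a) (h3 : 3 ≤ a) : LateD j a lo hi := by
  refine ⟨h3, h.le, h.low, h.at_a, ?_⟩
  have hw := h.word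
  unfold wds at hw
  rw [if_neg (by omega), List.mem_append] at hw
  rcases hw with hw | hw
  · exact Or.inr hw
  · left
    split_ifs at hw with hc
    · exact ⟨hc, by simpa using hw⟩
    · exact absurd hw List.not_mem_nil

section Exists

variable {t : Tops P} {lo hi : ℕ → ℕ} {e : ℕ → ℕ → P}

/-- every component has a fine and a coarse system -/
theorem exists_fineY (h : Win.GoodTo P r j) (hj : 12 ≤ j)
    (C : Comp j (t : P) lo hi e) (S : Shape j lo hi) :
    ∃ N θ3 θ4 Nf θf, ∃ d : Prop, TypeY j t N θ3 θ4 ∧ TypeX j 3 t (hi 3 - lo 3 + 1) N θ3 ∧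
      TopType j 3 t (hi 3 - lo 3 + 1) N θ3 ∧
      FineY j t lo hi e N θ4 (hi 4 - lo 4 + 1) Nf θf d := by
  have H := h.H
  have hg := h.good
  have hlo := C.lo_le 3 (by omega)
  have hlo4 := C.lo_le 4 (by omega)
  have h5 : ∀ x, x ≤ (t : P) → lev x ≤ j → x ∈ onlyB t := by
    intro x hx hxi
    rw [mem_onlyB]
    intro s hs hxs
    exact top_eq H hg hxi hs t.2 hxs hx
  have hls : lo 4 = lo 3 ∨ lo 4 = lo 3 + 1 := C.lo_step 3 (by omega)
  have hhs : hi 4 = hi 3 ∨ hi 4 = hi 3 + 1 := C.hi_step 3 (by omega)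
  have hii : hi 3 ≤ 3 := C.hi_le (by omega)
  have hii4 : hi 4 ≤ 4 := C.hi_le (by omega)
  have hlight : lo 3 = hi 3 → lo 4 = hi 4 →
      ∃ N θ3 θ4 Nf θf, ∃ d : Prop, TypeY j t N θ3 θ4 ∧ TypeX j 3 t (hi 3 - lo 3 + 1) N θ3 ∧
      TopType j 3 t (hi 3 - lo 3 + 1) N θ3 ∧
      FineY j t lo hi e N θ4 (hi 4 - lo 4 + 1) Nf θf d := by
    intro e1 e2
    rw [e1, e2, Nat.sub_self, Nat.sub_self]
    exact ⟨_, _, _, _, _, False, TypeY.light rfl rfl rfl h5, TypeX.light rfl rfl rfl h5,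
      type_light H hg C (by omega), FineY.light rfl rfl rfl rfl rfl (fun h => h) h5⟩
  have hstair : ∀ {lo' hi' : ℕ → ℕ} {e' : ℕ → ℕ → P}, Comp j (t : P) lo' hi' e' →
      StairShape j lo' hi' → hi' 3 - lo' 3 = hi 3 - lo 3 → hi' 4 - lo' 4 = hi 4 - lo 4 →
      ∃ N θ3 θ4 Nf θf, ∃ d : Prop, TypeY j t N θ3 θ4 ∧ TypeX j 3 t (hi 3 - lo 3 + 1) N θ3 ∧
      TopType j 3 t (hi 3 - lo 3 + 1) N θ3 ∧
      FineY j t lo hi e N θ4 (hi 4 - lo 4 + 1) Nf θf d := by
    intro lo' hi' e' C' hT q3 q4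
    have h2 : hi' 3 = 3 / 2 := hT.hi 3 (by omega)
    have h2' : hi' 4 = 4 / 2 := hT.hi 4 (by omega)
    have hls' : lo' 4 = lo' 3 ∨ lo' 4 = lo' 3 + 1 := C'.lo_step 3 (by omega)
    have h0 : lo' 4 = 0 := by
      by_contra hcon
      have e1 := shape_lo C' hT.lo (l := 4) (by omega) 4 (by omega)
      have e2 := hT.hi (4 + 4) (by omega)
      have e3 := C'.lo_le (4 + 4) (by omega)
      omega
    obtain ⟨N, co, h1, h1'⟩ := exists_stair C' H hg H.gradedBelow hT (i := 4) (by omega)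
    have h3 := stairNat_three h1
    have hb : hi 3 - lo 3 + 1 = 3 / 2 + 1 := by omega
    have hb4 : hi 4 - lo 4 + 1 = 3 := by omega
    have pen : ∀ x z, x ≤ (t : P) → lev x = j → (Win.uc x).card = 2 → z ⋖ x →
        (∀ y, z ⋖ y → y = x) → (co x).2 = (co x).1 + 1 ∨ (co x).2 = (co x).1 + 3 := by
      intro x z hxt hlx hx2 hzx honly
      rw [h1' x (mem_lowPart.mpr ⟨hxt, by omega⟩)]
      obtain ⟨j', rfl⟩ : ∃ j', j = j' + 1 := ⟨j - 1, by omega⟩
      exact stairShape_pendant h (by omega) t.2 C' hT hlx hxt hx2 hzx honly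
    exact ⟨_, _, _, _, _, True, TypeY.stair N co h1 h3 rfl rfl rfl pen,
      TypeX.stair N co h3 rfl rfl hb (by omega) pen,
      TopType.stair N co h3 rfl rfl hb (by omega) (by omega),
      FineY.stair N co h1 rfl rfl hb4 rfl rfl trivial⟩
  rcases shape_cases C (by omega) S with hs | (hT | hT) | ⟨a, hL, h3⟩
  · exact hlight (hs 3 (by omega)) (hs 4 (by omega))
  · have f1 : lo 4 = 0 ∨ lo 4 = lo 3 + 1 := hT.lo 3 (by omega)
    have f2 : hi 4 = 4 ∨ hi 4 = hi 3 := hT.hi 3 (by omega)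
    have f3 : lo 4 = 0 ∨ hi 4 = 4 := by
      by_contra hcon
      have e1 := shape_lo C hT.lo (l := 4) (by omega) 4 (by omega)
      have e2 := shape_hi C hT.hi (l := 4) (by omega) 4 (by omega)
      have e3 := C.lo_le (4 + 4) (by omega)
      omega
    by_cases hl : lo 3 = hi 3
    · exact hlight hl (by omega)
    · have hlt : lo 3 < hi 3 := by omega
      have hb : min (hi 4 - lo 4 + 1) 4 = hi 3 - lo 3 + 1 := by omega
      obtain ⟨N, co, h1, -⟩ := exists_rect C H hg H.gradedBelow hT (i := 4) (by omega) (by omega)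
      have h3 := rectNat_three h1
      have pen : ∀ x z, x ≤ (t : P) → lev x = j → (Win.uc x).card = 2 → z ⋖ x →
          ¬ ∀ y, z ⋖ y → y = x := by
        intro x z hxt hlx hx2 hzx honly
        obtain ⟨j', rfl⟩ : ∃ j', j = j' + 1 := ⟨j - 1, by omega⟩
        exact rectShape_no_pendant h (by omega) t.2 C hT hlx hxt hx2 hzx honly
      refine ⟨_, _, _, _, _, False, TypeY.rect _ N co h1 h3 rfl rfl rfl pen, ?_, ?_,
        FineY.rect _ N co h1 rfl rfl rfl rfl rfl (fun h => h) hlt⟩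
      · rw [← hb]
        exact TypeX.rect N co h3 rfl rfl pen
      · rw [← hb]
        exact TopType.rect N co h3 rfl rfl (by omega)
  · exact hstair C hT rfl rfl
  · have h4 := hL.four (by omega)
    have e3 := hL.low 3 (by omega)
    by_cases ha : a = 4
    · subst ha
      obtain ⟨D, hj16⟩ := wordD_four (lateD_of hL (by omega)) (by omega) (by omega)
      have hb : hi 4 - lo 4 + 1 = 2 := by
        rw [hL.at_a.1, hL.at_a.2]
      rw [e3.1, e3.2, hb]
      exact ⟨_, _, _, _, _, True, TypeY.light rfl rfl rfl h5, TypeX.light rfl rfl rfl h5,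
        type_light H hg C (by omega), FineY.e7 D rfl rfl rfl rfl rfl trivial h5 hj16⟩
    · have e4 := hL.low 4 (by omega)
      exact hlight (by rw [e3.1, e3.2]) (by rw [e4.1, e4.2])

end Exists

end Pool.Agent.GaussPoset.Ec
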