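import Pool.Agent.W_448s7_h27.EwD
import Pool.Agent.W_448w4_h70.WH

/-!
The contexts of the inclusion-exclusion at window `4` (MP_448cb3_co, S7).
-/

namespace Pool.Agent.GaussPoset.Ec

set_option linter.unusedSectionVars false

open Polynomial Finset Sm Wd Cp W4 Cl

universe u

variable {P : Type u} [Fintype P] [PartialOrder P] [DecidableEq P] {r j : ℕ}
  {lo hi : Tops P → ℕ → ℕ} {e : Tops P → ℕ → ℕ → P} {N : Tops P → Finset P}
  {θ3 θ4 : Tops P → P → ℕ} {Nf : Tops P → Finset P} {θf : Tops P → (ℕ → ℕ → ℕ) → P → ℕ}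
  {D : Tops P → Prop}

/-- the systems at window `4` -/
structure Fs (P : Type u) [Fintype P] [PartialOrder P] [DecidableEq P] (j : ℕ)
    (lo hi : Tops P → ℕ → ℕ) (e : Tops P → ℕ → ℕ → P) (N : Tops P → Finset P)
    (θ4 : Tops P → P → ℕ) (Nf : Tops P → Finset P) (θf : Tops P → (ℕ → ℕ → ℕ) → P → ℕ)
    (D : Tops P → Prop) : Prop where
  typ : ∀ t, FineY j t (lo t) (hi t) (e t) (N t) (θ4 t) (hi t 4 - lo t 4 + 1) (Nf t) (θf t) (D t)
  sum : ∑ t, (hi t 4 - lo t 4 + 1) = (lv P 4).card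

/-- existence of all systems -/
theorem exists_fs (K : Ctx P r j lo hi e) (h12 : 12 ≤ j) :
    ∃ N θ3 θ4 Nf θf D, Sy P j lo hi N θ3 θ4 ∧ Fs P j lo hi e N θ4 Nf θf D := by
  have H := K.gt.H
  choose N θ3 θ4 Nf θf D h1 h2 h3 h4 using fun t =>
    exists_fineY K.gt h12 (K.comp t) (K.shape t)
  refine ⟨N, θ3, θ4, Nf, θf, D, ⟨h1, h2, h3,
    (card_level H K.gt.good K.comp (by omega)).symm, ?_⟩,
    ⟨h4, (card_level H K.gt.good K.comp (by omega)).symm⟩⟩
  intro t ht x y hx hy hlx hly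
  have e1 := (K.comp t).lo_le 3 (by omega)
  obtain ⟨s, a1, a2, a3⟩ := (K.comp t).surj x hx (by omega)
  obtain ⟨s', b1, b2, b3⟩ := (K.comp t).surj y hy (by omega)
  rw [hlx] at a1 a2 a3
  rw [hly] at b1 b2 b3
  simp only at ht
  rw [← a3, ← b3, show s = s' by omega]

open Classical in
/-- the defect tops -/
noncomputable def ED (D : Tops P → Prop) : Finset (Tops P) := univ.filter D

lemma mem_ED {t : Tops P} : t ∈ ED D ↔ D t := by
  classical
  unfold ED
  rw [mem_filter]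
  exact ⟨fun h => h.2, fun h => ⟨mem_univ _, h⟩⟩

lemma tbOK_E7t4 : TbOK E7t4 := by
  intro k s
  unfold E7t4
  simp only [tab]
  split_ifs <;> omega

lemma FineY.twin {t : Tops P} {lo hi : ℕ → ℕ} {e : ℕ → ℕ → P} {N : Finset P} {θ4 : P → ℕ}
    {b : ℕ} {Nf : Finset P} {θf : (ℕ → ℕ → ℕ) → P → ℕ} {d : Prop}
    (F : FineY j t lo hi e N θ4 b Nf θf d) {x : P} (hx : x ∈ N) (hne : θ4 x + 1 ≤ lev x - 4) :
    x ∈ Nf := by
  rcases F with ⟨h1, h2, h3, h4, h5, h6, h7⟩ | ⟨c, Nc, co, h0, h1, h2, h3, h4, h5, h6⟩ |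
    ⟨h0, h1, h2, h3, h4, h5, h6, h7, h8⟩ | ⟨Nc, co, h0, h1, h2, h3, h4, h5, h6⟩
  · rw [h4]; exact hx
  · rw [h4]; exact hx
  · rw [h2] at hne
    have h9 : lev x - 4 + 1 ≤ lev x - 4 := hne
    omega
  · rw [h4]; exact hx

lemma Fs.NS_eq (F : Fs P j lo hi e N θ4 Nf θf D) : Ew.NS Nf N (ED D) = N := by
  funext t
  by_cases h : t ∈ ED D
  · rw [Ew.NS_of h]
  · rw [Ew.NS_not h]
    exact ((F.typ t).eq (fun h' => h (mem_ED.mpr h'))).1

lemma Fs.tS_eq (F : Fs P j lo hi e N θ4 Nf θf D) (tb : ℕ → ℕ → ℕ) :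
    Ew.tS (fun t => θf t tb) θ4 (ED D) = θ4 := by
  funext t
  by_cases h : t ∈ ED D
  · rw [Ew.tS_of h]
  · rw [Ew.tS_not h]
    exact ((F.typ t).eq (fun h' => h (mem_ED.mpr h'))).2 tb

variable {K3 K' V3 : ℕ} {b : Tops P → ℕ}

lemma tw_lt (Y : Y4 r j K3 K' V3 N b θ3 θ4) {x : P} (hx : x ∈ twA N) :
    θ4 (topOf (twT N x)) (twT N x) + 1 ≤ lev (twT N x) - 4 := by
  obtain ⟨-, h | h⟩ := Y.tw_cases hx
  · have := h.2.th
    omega
  · have := h.th
    omega

/-- the context with the natural fine thresholds -/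
theorem Fs.ew (F : Fs P j lo hi e N θ4 Nf θf D) (K : Ctx P r j lo hi e) (h12 : 12 ≤ j)
    (Y : Y4 r j K3 K' V3 N b θ3 θ4) :
    Ew.EW 4 (ED D) Nf N (fun t => hi t 4 - lo t 4 + 1) (fun t => θf t E7t4) θ4 (twA N)
      (twT N) := by
  have H := K.gt.H
  have T := Y.W.twSys
  exact
  { gr := H.gradedBelow
    nat := fun t => (F.typ t).nat (K.comp t) H K.gt.good (by omega)
    nat1 := fun t ht => (F.typ t).nat1 (K.comp t) H (by omega) (mem_ED.mp ht)
    one := fun t ht => (F.typ t).one (mem_ED.mp ht)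
    sub := fun t _ => (F.typ t).sub
    le1 := fun t _ x _ => (F.typ t).le1 tbOK_E7t4 x
    le2 := fun t _ x hx hx' y _ hxy => (F.typ t).le2 tbOK_E7t4 hx hx' hxy
    tw := by
      rw [F.NS_eq]
      exact T
    twE := by
      intro x hx hE
      have h1 := T.nat x hx
      have h2 := T.cp x hx
      have h3 : twT N x ∈ N (topOf x) := Y.W.natSys.mem_iff.mpr ⟨h1, h2⟩
      have h4 := tw_lt Y hx
      rw [h2] at h4
      refine ⟨(F.typ _).twin h3 h4, fun y hy => ?_⟩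
      exact (F.typ _).up (mem_ED.mp hE) h3 h4 ((T.up x hx y).mpr hy.1)
    twn := by
      intro x hx
      rw [F.tS_eq]
      exact Y.twn hx }

/-- the context with other thresholds for `E7` -/
theorem Fs.el (F : Fs P j lo hi e N θ4 Nf θf D) (K : Ctx P r j lo hi e) (h12 : 12 ≤ j)
    (Y : Y4 r j K3 K' V3 N b θ3 θ4) {tb : ℕ → ℕ → ℕ} (htb : TbOK tb) :
    El.EL 4 (ED D) Nf N (fun t => θf t tb) θ4 (twA N) (twT N) := by
  have W := F.ew K h12 Y
  have T := Y.W.twSys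
  have H := K.gt.H
  have cap0 : ∀ S, S ⊆ ED D → ∀ x, x ∉ unnat (Ew.NS Nf N S) →
      Ew.tS (fun t => θf t E7t4) θ4 S (topOf x) x ≤ lev x - 4 := by
    intro S hS y hy
    choose B hB using W.natS hS
    have hsys := natSys_of_tops hB
    have h1 : y ∈ Ew.NS Nf N S (topOf y) := hsys.mem_iff.mpr ⟨hy, rfl⟩
    exact ((hB (topOf y)).data _ hsys rfl (Ew.tS (fun t => θf t E7t4) θ4 S (topOf y))
      (B (topOf y)) (fun _ _ => rfl) (fun _ _ => Iff.rfl)).le y hy rfl
  have cap4 : ∀ S, S ⊆ ED D → ∀ x, x ∉ unnat (Ew.NS Nf N S) → θ4 (topOf x) x ≤ lev x - 4 := by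
    intro S hS x hx
    have h1 : x ∉ unnat (Ew.NS Nf N (ED D)) := by
      intro h
      refine hx (mem_unnat.mpr fun t ht => mem_unnat.mp h t ?_)
      exact W.NS_mono hS t ht
    have h2 := cap0 _ (Finset.Subset.refl _) x h1
    rwa [F.tS_eq] at h2
  exact
  { gr := H.gradedBelow
    sys := fun S hS => W.natSysS hS
    low := by
      intro S hS x hx
      by_contra hcon
      choose B hB using W.natS hS
      exact low_natural hB (not_lt.mp hcon) hx
    cap := by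
      intro S hS x hx
      have h4 := cap4 S hS x hx
      by_cases h : topOf x ∈ S
      · rw [Ew.tS_of h]
        exact h4
      · rw [Ew.tS_not h]
        exact ((F.typ _).le1 htb x).trans h4
    sub := fun t _ => (F.typ t).sub
    le1 := fun t _ x _ => (F.typ t).le1 htb x
    le2 := fun t _ x hx hx' y _ hxy => (F.typ t).le2 htb hx hx' hxy
    tw := by
      rw [F.NS_eq]
      exact T
    twE := by
      intro x hx hE
      have h1 := T.nat x hx
      have h2 := T.cp x hx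
      have h3 : twT N x ∈ N (topOf x) := Y.W.natSys.mem_iff.mpr ⟨h1, h2⟩
      have h4 := tw_lt Y hx
      rw [h2] at h4
      refine ⟨(F.typ _).twin h3 h4, fun y hy => ?_⟩
      exact (F.typ _).up (mem_ED.mp hE) h3 h4 ((T.up x hx y).mpr hy.1) }

end Pool.Agent.GaussPoset.Ec
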