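import Pool.Agent.W_448s7_h27.EwF

/-!
Window `4`: the energies of the defect tops (MP_448cb3_co, S7).
-/

namespace Pool.Agent.GaussPoset.Ec

set_option linter.unusedSectionVars false

open Polynomial Finset Sm Wd Cp W4 Cl

universe u

variable {P : Type u} [Fintype P] [PartialOrder P] [DecidableEq P] {r j : ℕ}
  {lo hi : Tops P → ℕ → ℕ} {e : Tops P → ℕ → ℕ → P} {N : Tops P → Finset P}
  {θ3 θ4 : Tops P → P → ℕ} {Nf : Tops P → Finset P} {θf : Tops P → (ℕ → ℕ → ℕ) → P → ℕ}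
  {D : Tops P → Prop} {K3 K' V3 : ℕ} {b : Tops P → ℕ}

/-- `z` hits the `E7` top `t` at the position `s` -/
structure HitE (j : ℕ) (lo hi : Tops P → ℕ → ℕ) (e : Tops P → ℕ → ℕ → P)
    (N Nf : Tops P → Finset P) (D : Tops P → Prop) (t : Tops P) (z : P) (s : ℕ) : Prop where
  dt : D t
  word : WordD j 4 w7 (lo t) (hi t)
  nat : N t = onlyB t
  fine : Nf t = lowPart j (t : P)
  lev : lev z = j + 1
  lo : lo t j ≤ s
  hi : s ≤ hi t j
  cov : z ⋖ e t j s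

/-- the data of an `E7` top -/
lemma Fs.of_word (F : Fs P j lo hi e N θ4 Nf θf D) {t : Tops P}
    (h : WordD j 4 w7 (lo t) (hi t)) : D t ∧ N t = onlyB t ∧ Nf t = lowPart j (t : P) := by
  have h3 := h.trunk 3 (by omega)
  have h4 := h.row
  rcases F.typ t with ⟨k1, k2, k3, k4, k5, k6, k7⟩ | ⟨c, Nc, co, k0, k1, k2, k3, k4, k5, k6, k7⟩ |
    ⟨k0, k1, k2, k3, k4, k5, k6, k7, k8⟩ | ⟨Nc, co, k0, k1, k2, k3, k4, k5, k6⟩
  · omega
  · omega
  · exact ⟨k6, k1, k4⟩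
  · omega

/-- the energy of a hit top -/
theorem Fs.hit_cases (F : Fs P j lo hi e N θ4 Nf θf D) (K : Ctx P r j lo hi e) (h12 : 12 ≤ j)
    (Y : Y4 r j K3 K' V3 N b θ3 θ4) {cS : ℕ} (hS : ∀ a ∈ Finset.Icc 1 (j / 2), cS ≤ deC j a)
    {e' : P → ℕ} {F' : Finset P} (hV : Vd 4 e' F') (hok : Ew.Ok (rA N) (thA N θ4) e')
    {tb : ℕ → ℕ → ℕ} {t : Tops P} (ht : D t) {z x : P} (hzx : z ⋖ x) (hx : x ∈ Nf t)
    (hz : z ∉ Nf t) (hlt : θf t tb x < e' z) :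
    (∃ s, HitE j lo hi e N Nf D t z s ∧ x = e t j s ∧ tb j s < e' z ∧
      ∀ h, h ≤ e' z → Ew.cstW 4 w7 j s 4 h ≤ ∑ y ∈ Nf t, e' y) ∨
    (cS ≤ ∑ y ∈ Nf t, e' y ∧ hi t 4 - lo t 4 + 1 = 3) := by
  classical
  have H := K.gt.H
  have hg := K.gt.good
  have e1 := (H.covBy_iff.mp hzx).2
  rcases F.typ t with ⟨h1, h2, h3, h4, h5, h6, h7⟩ | ⟨c, Nc, co, h0, h1, h2, h3, h4, h5, h6⟩ |
    ⟨h0, h1, h2, h3, h4, h5, h6, h7, h8⟩ | ⟨Nc, co, h0, h1, h2, h3, h4, h5, h6⟩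
  · exact absurd ht h6
  · exact absurd ht h6
  · left
    rw [h4] at hx hz
    obtain ⟨hxt, hxl⟩ := mem_lowPart.mp hx
    have hzl : j < lev z := by
      by_contra hcon
      exact hz (mem_lowPart.mpr ⟨hzx.1.le.trans hxt, by omega⟩)
    have hlx : lev x = j := by omega
    obtain ⟨s, a1, a2, a3⟩ := (K.comp t).surj x hxt (by omega)
    rw [hlx] at a1 a2 a3
    have hlz : lev z = j + 1 := by omega
    have hxB : x ∈ onlyB t := h7 x hxt hxl
    refine ⟨s, ⟨ht, h0, h1, h4, hlz, a1, a2, by rw [a3]; exact hzx⟩, a3.symm, ?_, fun h hh => ?_⟩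
    · rw [h5] at hlt
      rw [← a3] at hlt
      have h9 := thC_e (K.comp t) tb le_rfl a1 a2
      simp only at hlt
      rwa [h9] at hlt
    · have hlow : ∀ x ∈ Nf t, ∀ y, x ≤ y → y ∈ Nf t := by
        rw [h4]
        intro x hx y hxy
        obtain ⟨g1, g2⟩ := mem_lowPart.mp hx
        have g3 := lev_anti hxy
        exact mem_lowPart.mpr ⟨onlyB_le (onlyB_up (h7 x g1 g2) hxy), by omega⟩
      have h9 := Ew.cst_le_sum hV hzx.1.le (by omega) (h := h) (Or.inr hh) (A := Nf t)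
        (by rw [h4]; exact hx) hlow
      rw [← a3] at h9
      rwa [Ew.cst_word h0 (K.comp t) H hg a1 a2 (by rw [a3]; exact hxB)] at h9
  · right
    refine ⟨?_, h3⟩
    rw [h4, h1] at hx hz ⊢
    rw [h5] at hlt
    have hxN : x ∈ N t := by rw [h1]; exact hx
    obtain ⟨hxu, hxt⟩ := Y.W.natSys.mem_iff.mp hxN
    refine Y.stair_defect h0 h1 h2 hS hV hzx hx hz hlt fun hzR => ?_
    have hxR : x ∉ rA N := fun h => hxu (mem_rA.mp h).1
    have h9 := hok z hzR x hxR hzx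
    rw [Y.thA_nat hxu, hxt, h2] at h9
    exact h9

/-- every hit of an `E7` top beyond the table `tb` costs at least `c` -/
def MinT (tb : ℕ → ℕ → ℕ) (j c : ℕ) : Prop :=
  ∀ s ∈ Icc (losW 4 w7 j) (hisW 4 w7 j), c ≤ Ew.cstW 4 w7 j s 4 (tb j s + 1)

instance (tb : ℕ → ℕ → ℕ) (j c : ℕ) : Decidable (MinT tb j c) := by unfold MinT; infer_instance

lemma minT_12 : MinT E7t4 12 54 := by decide +kernel

lemma minT_14 : MinT E7t4 14 88 := by decide +kernel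

lemma minT_15 : MinT E7t4 15 100 := by decide +kernel

lemma minT_16 : MinT E7t4 16 112 := by decide +kernel

theorem de_16 : ∀ a ∈ Finset.Icc 1 (16 / 2), 144 ≤ deC 16 a := by decide +kernel

/-- the number of hit tops, plain table -/
theorem Fs.card_le (F : Fs P j lo hi e N θ4 Nf θf D) (K : Ctx P r j lo hi e) (h12 : 12 ≤ j)
    (Y : Y4 r j K3 K' V3 N b θ3 θ4) {n d m : ℕ} (hm : MinT E7t4 j m)
    (hS : ∀ a ∈ Finset.Icc 1 (j / 2), m ≤ deC j a) (hn : n < (d + 1) * m)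
    {e' : P → ℕ} {F' : Finset P} (hV : Vd 4 e' F') (hs : ∑ x, e' x = n)
    (hok : Ew.Ok (rA N) (thA N θ4) e') :
    (Ew.KE (ED D) Nf (fun t => θf t E7t4) e').card ≤ d := by
  refine Ew.card_KE_le (F.ew K h12 Y).natSys hs (fun t ht => ?_) hn
  obtain ⟨htE, z, x, hzx, hx, hz, hlt⟩ := Ew.mem_KE.mp ht
  rcases F.hit_cases K h12 Y hS hV hok (mem_ED.mp htE) hzx hx hz hlt with
    ⟨s, h1, h2, h3, h4⟩ | ⟨h1, -⟩
  · refine le_trans ?_ (h4 _ (Nat.succ_le_of_lt h3))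
    obtain ⟨r1, r2⟩ := h1.word.rows (K.comp t)
    refine hm s (Finset.mem_Icc.mpr ⟨?_, ?_⟩)
    · rw [← r1 j le_rfl]
      exact h1.lo
    · rw [← r2 j le_rfl]
      exact h1.hi
  · exact h1

/-- **Window `4`, plain table**: for a lower bound `n` of the costs of the joins, the signed
number of the joins of cost `n` with `q` elements of level `4` above vanishes. -/
theorem Fs.win4 (F : Fs P j lo hi e N θ4 Nf θf D) (K : Ctx P r j lo hi e) (h12 : 12 ≤ j)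
    (Y : Y4 r j K3 K' V3 N b θ3 θ4)
    (hno : j % 2 = 0 → K' < foC 4 j + foE 4 j ∨
      ∀ z x x' : P, Cg z x x' → lev z = j + 1 → ¬ Fold j x)
    {n d q m : ℕ} (hn : n ≤ K') (hjn : ∀ z x x' : P, Cg z x x' → n ≤ ful 4 z)
    (hm : MinT E7t4 j m) (hS : ∀ a ∈ Finset.Icc 1 (j / 2), m ≤ deC j a)
    (hnd : n < (d + 1) * m) (hdq : d + 2 ≤ q)
    (hq : ∀ z x x' : P, Cg z x x' → ful 4 z = n → nab 4 z ≤ q) : sJQ P 4 n q = 0 := by
  obtain ⟨h1, h2, h3⟩ := Y.own_noise hno hn hjn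
  exact F.sum_zero K h12 Y (dvd_Z K.gt.H.gauss 4 n) h2 h1
    (fun z hz hc => ⟨(h3 z hz hc).2.1, (h3 z hz hc).2.2.1, (h3 z hz hc).2.2.2⟩)
    (fun e' F' hV hs hok => F.card_le K h12 Y hm hS hnd hV hs hok) hdq hq

end Pool.Agent.GaussPoset.Ec
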