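import Pool.Agent.W_448s7_h27.FarIE

/-!
Inclusion-exclusion over defects: the sign theorem from divisibility of the sums with few defects.
-/

namespace Pool.Agent.GaussPoset

set_option linter.unusedSectionVars false

open Polynomial Finset

universe u

variable {P : Type u} [Fintype P] [PartialOrder P] [DecidableEq P]
variable {κ : Type*} [Fintype κ] [DecidableEq κ]

/-- **The window theorem of order `d + 1`**: `Q` excludes the hard defects, `K` is the set of the
soft defects. -/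
theorem ie_sign {i n d b : ℕ} (Q : (P → ℕ) → Finset P → Prop)
    (K : (P → ℕ) → Finset P → Finset κ)
    (hdv : ∀ S : Finset κ, S.card ≤ d →
      (1 + X : ℤ[X]) ^ b ∣ ZQ i n (fun e F => Q e F ∧ K e F ⊆ S))
    (hZ : (1 + X : ℤ[X]) ^ b ∣ Z P i n)
    (hgr : GradedBelow P) (k : P → ℕ) (T : Finset P)
    (h2 : ∀ z ∈ T, 1 ≤ k z ∧ k z ≤ lev z - i) (hcst : ∀ z ∈ T, cst i k z = n)
    (hb : ∀ z ∈ T, ∀ F, Vd i (ez i k z) F → ¬ (Q (ez i k z) F ∧ (K (ez i k z) F).card ≤ d))
    (hall : ∀ e F, Vd i e F → ∑ x, e x = n → ¬ (Q e F ∧ (K e F).card ≤ d) →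
      ∃ z ∈ T, e = ez i k z)
    {c0 : ℕ} (hc : c0 < b)
    (hle : ∀ z ∈ T, c0 + nab i z ≤ (lv P i).card + nab (i + k z) z) :
    ∑ z ∈ T.filter (fun z => c0 + nab i z = (lv P i).card + nab (i + k z) z),
      (-1 : ℤ) ^ (nst i k z) = 0 := by
  classical
  have h0 : Z P i n = ZQ i n (fun e F => Q e F ∧ (K e F).card ≤ d) +
      ZQ i n (fun e F => ¬ (Q e F ∧ (K e F).card ≤ d)) := by
    rw [Z_eq_ZQ, ZQ_split i n (fun _ _ => True) (fun e F => Q e F ∧ (K e F).card ≤ d)]
    congr 1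
    · exact ZQ_congr fun e F _ _ => by simp
    · exact ZQ_congr fun e F _ _ => by simp
  have h1 : (1 + X : ℤ[X]) ^ b ∣
      Z P i n - ZQ i n (fun e F => ¬ (Q e F ∧ (K e F).card ≤ d)) := by
    rw [h0, add_sub_cancel_right]
    exact dvd_ZQ_card hdv
  rw [ZQ_lead k T hgr h2 (fun z hz _ => hb z hz) hall] at h1
  have h3 : T.filter (fun z => cst i k z = n) = T :=
    Finset.filter_true_of_mem fun z hz => hcst z hz
  rw [h3] at h1
  exact sign_sum_of_dvd T hZ h1 hc hle

end Pool.Agent.GaussPoset
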