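import Pool.Agent.W_448s7_h27.EwG
import Pool.Agent.W_448s7_h27.FarIEb

/-!
Window `4`: the sign theorems with graded defects and with partial labels (MP_448cb3_co, S7).
-/

namespace Pool.Agent.GaussPoset.Ec

set_option linter.unusedSectionVars false

open Polynomial Finset Sm Wd Cp W4 Cl

universe u

variable {P : Type u} [Fintype P] [PartialOrder P] [DecidableEq P] {r j : ℕ}
  {lo hi : Tops P → ℕ → ℕ} {e : Tops P → ℕ → ℕ → P} {N : Tops P → Finset P}
  {θ3 θ4 : Tops P → P → ℕ} {Nf : Tops P → Finset P} {θf : Tops P → (ℕ → ℕ → ℕ) → P → ℕ}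
  {D : Tops P → Prop} {K3 K' V3 : ℕ} {b : Tops P → ℕ}

/-- divisibility of the sums with at most `d` soft defects -/
def HDv (P : Type u) [Fintype P] [PartialOrder P] [DecidableEq P] (n d : ℕ)
    (N : Tops P → Finset P) (θ4 : Tops P → P → ℕ) (Nf : Tops P → Finset P) (D : Tops P → Prop)
    (good : Tops P → (P → ℕ) → ℕ → Prop) : Prop :=
  ∀ S : Finset (Tops P), S ⊆ ED D → S.card ≤ d →
    (1 + X : ℤ[X]) ^ ((lv P 4).card - d) ∣
      ZQ 4 n (fun e' _ => Ew.Ok (rA N) (thA N θ4) e' ∧ El.KG (ED D) Nf good e' ⊆ S)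

lemma HDv.all {n d : ℕ} {good : Tops P → (P → ℕ) → ℕ → Prop} (h : HDv P n d N θ4 Nf D good)
    (S : Finset (Tops P)) (hS : S.card ≤ d) :
    (1 + X : ℤ[X]) ^ ((lv P 4).card - d) ∣
      ZQ 4 n (fun e' _ => Ew.Ok (rA N) (thA N θ4) e' ∧ El.KG (ED D) Nf good e' ⊆ S) := by
  classical
  have h1 := h (S ∩ ED D) inter_subset_right ((Finset.card_le_card inter_subset_left).trans hS)
  have h2 : ZQ 4 n (fun e' (_ : Finset P) => Ew.Ok (rA N) (thA N θ4) e' ∧
      El.KG (ED D) Nf good e' ⊆ S) =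
      ZQ 4 n (fun e' (_ : Finset P) => Ew.Ok (rA N) (thA N θ4) e' ∧
        El.KG (ED D) Nf good e' ⊆ S ∩ ED D) :=
    ZQ_congr fun e' F' _ _ => by
      rw [subset_inter_iff]
      exact ⟨fun h => ⟨h.1, h.2, fun t ht => (El.mem_KG.mp ht).1⟩, fun h => ⟨h.1, h.2.1⟩⟩
  rw [h2]
  exact h1

/-- a violated threshold is above a boundary element -/
theorem Fs.not_ok (F : Fs P j lo hi e N θ4 Nf θf D) (K : Ctx P r j lo hi e) (h12 : 12 ≤ j)
    (Y : Y4 r j K3 K' V3 N b θ3 θ4) {e' : P → ℕ} {F' : Finset P} (hV : Vd 4 e' F')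
    (hok : ¬ Ew.Ok (rA N) (thA N θ4) e') :
    ∃ z ∈ bdR (rA N), ∀ x, ez 4 (hA N θ4) z x ≤ e' x := by
  classical
  have W := F.ew K h12 Y
  have hEE := Finset.Subset.refl (ED D)
  have h1 := Ew.ok_iff (e := e') W.gr (W.lev_RS hEE) (fun x hx => W.th_le hEE hx) hV
  rw [F.RS_eq, F.thS_eq] at h1
  rw [← h1] at hok
  push Not at hok
  obtain ⟨z, hz, hd⟩ := hok
  have h2 := W.lev_RS hEE
  rw [F.RS_eq] at h2
  exact ⟨z, hz, ez_le hV (h2 z (mem_filter.mp hz).1) hd⟩

/-- **The sign theorem at window `4`**, graded defects, any labels. -/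
theorem Fs.gsum_gen (F : Fs P j lo hi e N θ4 Nf θf D) (K : Ctx P r j lo hi e) (h12 : 12 ≤ j)
    (Y : Y4 r j K3 K' V3 N b θ3 θ4) {n d : ℕ} {good : Tops P → (P → ℕ) → ℕ → Prop}
    (hdv : HDv P n d N θ4 Nf D good)
    (hcost : ∀ x ∈ twA N, n ≤ tcst 4 (thA N θ4) (twT N x, x))
    (hmin : ∀ z ∈ bdR (rA N), n ≤ cst 4 (hA N θ4) z)
    (hK : ∀ e' F', Vd 4 e' F' → ∑ x, e' x = n → Ew.Ok (rA N) (thA N θ4) e' →
      (El.KG (ED D) Nf good e').card ≤ d)
    {c0 : ℕ} (hc : c0 + d < (lv P 4).card)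
    (hle : ∀ z ∈ bdR (rA N), cst 4 (hA N θ4) z = n →
      c0 + nab 4 z ≤ (lv P 4).card + nab (4 + hA N θ4 z) z) :
    ∑ z ∈ (bdR (rA N)).filter (fun z => cst 4 (hA N θ4) z = n ∧
        c0 + nab 4 z = (lv P 4).card + nab (4 + hA N θ4 z) z),
      (-1 : ℤ) ^ (nst 4 (hA N θ4) z) = 0 := by
  classical
  have W := F.ew K h12 Y
  have H := K.gt.H
  have HX := W.farX (Finset.Subset.refl (ED D)) n (by
    intro x hx
    rw [F.thS_eq]
    exact hcost x hx)
  rw [F.RS_eq, F.hS_eq, F.thS_eq] at HX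
  have key := ie_sign (i := 4) (n := n) (d := d) (b := (lv P 4).card - d)
    (fun e' _ => Ew.Ok (rA N) (thA N θ4) e') (fun e' _ => El.KG (ED D) Nf good e')
    (fun S hS => hdv.all S hS)
    (dvd_trans (pow_dvd_pow _ (Nat.sub_le _ _)) (dvd_Z H.gauss 4 n)) W.gr (hA N θ4)
    ((bdR (rA N)).filter (fun z => cst 4 (hA N θ4) z = n))
    (fun z hz => by
      obtain ⟨h1, h2⟩ := mem_filter.mp hz
      exact ⟨HX.one_le z h1, HX.le_lev z h1⟩)
    (fun z hz => (mem_filter.mp hz).2)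
    (fun z hz F' hV h => by
      obtain ⟨h1, h2⟩ := mem_filter.mp hz
      obtain ⟨x, hx, hzx, hx2⟩ := hcan_spec (θ := thA N θ4) h1
      have h3 := h.1 z (mem_filter.mp h1).1 x hx hzx
      rw [ez_self (HX.le_lev z h1)] at h3
      have h5 : hA N θ4 z = thA N θ4 x + 1 := hx2
      omega)
    (fun e' F' hV hs hbad => by
      have hq : ¬ Ew.Ok (rA N) (thA N θ4) e' := fun h =>
        hbad ⟨h, hK e' F' hV hs h⟩
      obtain ⟨z, hz, h4⟩ := F.not_ok K h12 Y hV hq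
      have h6 : cst 4 (hA N θ4) z ≤ n := by
        rw [← hs]; exact Finset.sum_le_sum fun x _ => h4 x
      have h7 : cst 4 (hA N θ4) z = n := le_antisymm h6 (hmin z hz)
      refine ⟨z, mem_filter.mpr ⟨hz, h7⟩, ?_⟩
      funext x
      have h9 : ∑ x, ez 4 (hA N θ4) z x = ∑ x, e' x := by
        rw [hs]; exact h7
      exact ((Finset.sum_eq_sum_iff_of_le (fun x _ => h4 x)).mp h9 x (mem_univ x)).symm)
    (c0 := c0) (by omega)
    (fun z hz => by
      obtain ⟨h1, h2⟩ := mem_filter.mp hz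
      exact hle z h1 h2)
  rw [Finset.filter_filter] at key
  exact key

/-- **The class sum at window `4`**, graded defects. -/
theorem Fs.gsum_zero (F : Fs P j lo hi e N θ4 Nf θf D) (K : Ctx P r j lo hi e) (h12 : 12 ≤ j)
    (Y : Y4 r j K3 K' V3 N b θ3 θ4) {n d q : ℕ} {good : Tops P → (P → ℕ) → ℕ → Prop}
    (hdv : HDv P n d N θ4 Nf D good)
    (hmin : ∀ z ∈ bdR (rA N), n ≤ cst 4 (hA N θ4) z)
    (heq : ∀ z ∈ bdR (rA N), cst 4 (hA N θ4) z = n → hA N θ4 z = lev z - 4 ∧ n = ful 4 z ∧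
      ∃ x x', Cg z x x')
    (hK : ∀ e' F', Vd 4 e' F' → ∑ x, e' x = n → Ew.Ok (rA N) (thA N θ4) e' →
      (El.KG (ED D) Nf good e').card ≤ d)
    (hdq : d + 2 ≤ q) (hq : ∀ z x x' : P, Cg z x x' → ful 4 z = n → nab 4 z ≤ q) :
    sJQ P 4 n q = 0 := by
  classical
  by_cases hqL : q ≤ (lv P 4).card
  · obtain ⟨c0, hc0⟩ : ∃ c0, c0 + q = (lv P 4).card + 1 := ⟨(lv P 4).card + 1 - q, by omega⟩
    rw [← class_eq Y.W (by omega) hmin heq hc0]
    have W := F.ew K h12 Y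
    have H := K.gt.H
    have key := ie_sign (i := 4) (n := n) (d := d) (b := (lv P 4).card - d)
      (fun e' _ => Ew.Ok (rA N) (thA N θ4) e') (fun e' _ => El.KG (ED D) Nf good e')
      (fun S hS => hdv.all S hS)
      (dvd_trans (pow_dvd_pow _ (Nat.sub_le _ _)) (dvd_Z H.gauss 4 n)) W.gr (hA N θ4)
      ((bdR (rA N)).filter (fun z => cst 4 (hA N θ4) z = n))
      (fun z hz => by
        obtain ⟨h1, h2⟩ := mem_filter.mp hz
        obtain ⟨g1, -, -⟩ := heq z h1 h2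
        have h4 := Y.W.bd_lev h1
        rw [g1]
        omega)
      (fun z hz => (mem_filter.mp hz).2)
      (fun z hz F' hV h => by
        obtain ⟨h1, h2⟩ := mem_filter.mp hz
        obtain ⟨g1, -, -⟩ := heq z h1 h2
        obtain ⟨x, hx, hzx, hx2⟩ := hcan_spec (θ := thA N θ4) h1
        have h3 := h.1 z (mem_filter.mp h1).1 x hx hzx
        rw [ez_self (by rw [g1])] at h3
        have h5 : hA N θ4 z = thA N θ4 x + 1 := hx2
        omega)
      (fun e' F' hV hs hbad => by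
        have hq : ¬ Ew.Ok (rA N) (thA N θ4) e' := fun h =>
          hbad ⟨h, hK e' F' hV hs h⟩
        obtain ⟨z, hz, h4⟩ := F.not_ok K h12 Y hV hq
        have h6 : cst 4 (hA N θ4) z ≤ n := by
          rw [← hs]; exact Finset.sum_le_sum fun x _ => h4 x
        have h7 : cst 4 (hA N θ4) z = n := le_antisymm h6 (hmin z hz)
        refine ⟨z, mem_filter.mpr ⟨hz, h7⟩, ?_⟩
        funext x
        have h9 : ∑ x, ez 4 (hA N θ4) z x = ∑ x, e' x := by
          rw [hs]; exact h7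
        exact ((Finset.sum_eq_sum_iff_of_le (fun x _ => h4 x)).mp h9 x (mem_univ x)).symm)
      (c0 := c0) (by omega)
      (fun z hz => by
        obtain ⟨h1, h2⟩ := mem_filter.mp hz
        obtain ⟨g1, g2, x, x', g3⟩ := heq z h1 h2
        have h4 := Y.W.bd_lev h1
        rw [g1, show 4 + (lev z - 4) = lev z by omega, nab_self]
        have := hq z x x' g3 g2.symm
        omega)
    rw [Finset.filter_filter] at key
    exact key
  · unfold sJQ
    refine Finset.sum_eq_zero fun z hz => ?_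
    rw [mem_filter] at hz
    have h1 := hz.2.2.2
    have h2 := nab_le_card (P := P) 4 z
    omega

/-- **Partial labels at window `4`**: `T` is a set of elements with the label `h2`, whose
cheapest configurations are the configurations with more than `d` soft defects. -/
theorem Fs.part_zero (F : Fs P j lo hi e N θ4 Nf θf D) (K : Ctx P r j lo hi e) (h12 : 12 ≤ j)
    (Y : Y4 r j K3 K' V3 N b θ3 θ4) {n d : ℕ} {good : Tops P → (P → ℕ) → ℕ → Prop}
    (hdv : HDv P n d N θ4 Nf D good)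
    (hmin : ∀ z ∈ bdR (rA N), n < cst 4 (hA N θ4) z)
    (T : Finset P) {h2 : ℕ} (h1 : 1 ≤ h2) (hT1 : ∀ z ∈ T, h2 ≤ lev z - 4)
    (hT2 : ∀ z ∈ T, cst 4 (fun _ => h2) z = n)
    (hT3 : ∀ z ∈ T, d < (El.KG (ED D) Nf good (ez 4 (fun _ => h2) z)).card)
    (hK : ∀ e' F', Vd 4 e' F' → ∑ x, e' x = n → Ew.Ok (rA N) (thA N θ4) e' →
      d < (El.KG (ED D) Nf good e').card → ∃ z ∈ T, ∀ x, ez 4 (fun _ => h2) z x ≤ e' x)
    {c0 : ℕ} (hc : c0 + d < (lv P 4).card)
    (hle : ∀ z ∈ T, c0 + nab 4 z ≤ (lv P 4).card + nab (4 + h2) z) :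
    ∑ z ∈ T.filter (fun z => c0 + nab 4 z = (lv P 4).card + nab (4 + h2) z),
      (-1 : ℤ) ^ (nst 4 (fun _ => h2) z) = 0 := by
  classical
  have W := F.ew K h12 Y
  have H := K.gt.H
  exact ie_sign (i := 4) (n := n) (d := d) (b := (lv P 4).card - d)
    (fun e' _ => Ew.Ok (rA N) (thA N θ4) e') (fun e' _ => El.KG (ED D) Nf good e')
    (fun S hS => hdv.all S hS)
    (dvd_trans (pow_dvd_pow _ (Nat.sub_le _ _)) (dvd_Z H.gauss 4 n)) W.gr (fun _ => h2) T
    (fun z hz => ⟨h1, hT1 z hz⟩) hT2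
    (fun z hz F' hV h => by
      have := hT3 z hz
      omega)
    (fun e' F' hV hs hbad => by
      have hq : Ew.Ok (rA N) (thA N θ4) e' := by
        by_contra hq
        obtain ⟨z, hz, h4⟩ := F.not_ok K h12 Y hV hq
        have h6 : cst 4 (hA N θ4) z ≤ n := by
          rw [← hs]; exact Finset.sum_le_sum fun x _ => h4 x
        have := hmin z hz
        omega
      have hd : d < (El.KG (ED D) Nf good e').card := by
        by_contra hcon
        exact hbad ⟨hq, not_lt.mp hcon⟩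
      obtain ⟨z, hz, h4⟩ := hK e' F' hV hs hq hd
      refine ⟨z, hz, ?_⟩
      funext x
      have h9 : ∑ x, ez 4 (fun _ => h2) z x = ∑ x, e' x := by
        rw [hs]; exact hT2 z hz
      exact ((Finset.sum_eq_sum_iff_of_le (fun x _ => h4 x)).mp h9 x (mem_univ x)).symm)
    (c0 := c0) (by omega) hle

end Pool.Agent.GaussPoset.Ec
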