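import Pool.Agent.W_448s7_h27.EwH

/-!
Window `4`: bad tops and pairs of bad tops, `j = 14, 15, 16` (MP_448cb3_co, S7).
-/

namespace Pool.Agent.GaussPoset.Ec

set_option linter.unusedSectionVars false

open Polynomial Finset Sm Wd Cp W4 Cl

universe u

variable {P : Type u} [Fintype P] [PartialOrder P] [DecidableEq P] {r j : ℕ}
  {lo hi : Tops P → ℕ → ℕ} {e : Tops P → ℕ → ℕ → P} {N : Tops P → Finset P}
  {θ3 θ4 : Tops P → P → ℕ} {Nf : Tops P → Finset P} {θf : Tops P → (ℕ → ℕ → ℕ) → P → ℕ}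
  {D : Tops P → Prop} {K3 K' V3 : ℕ} {b : Tops P → ℕ}

/-- good labels: at most the table, or the label `p1` below the last element of `E7` with an
energy less than `M` -/
def Gd (j p1 M : ℕ) (lo hi : Tops P → ℕ → ℕ) (e : Tops P → ℕ → ℕ → P)
    (Nf : Tops P → Finset P) (θf : Tops P → (ℕ → ℕ → ℕ) → P → ℕ) (tb : ℕ → ℕ → ℕ)
    (t : Tops P) (β : P → ℕ) (m : ℕ) : Prop :=
  (∀ x ∈ Nf t, β x ≤ θf t E7t4 x) ∨
    (WordD j 4 w7 (lo t) (hi t) ∧ (∀ x ∈ Nf t, β x ≤ θf t tb x) ∧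
      (∀ x ∈ Nf t, x = e t j 5 → β x = p1) ∧ m < M)

lemma bl_pos {A : Finset P} {e : P → ℕ} {x : P} (h : 0 < El.bl A e x) :
    ∃ z ∈ A, z ⋖ x ∧ e z = El.bl A e x := by
  classical
  unfold El.bl at h ⊢
  have h1 : (A.filter (fun z => z ⋖ x)).Nonempty := by
    rw [Finset.nonempty_iff_ne_empty]
    intro h1
    rw [h1, Finset.sup_empty] at h
    exact absurd h (lt_irrefl _)
  obtain ⟨z, hz, h2⟩ := Finset.exists_mem_eq_sup _ h1 e
  rw [mem_filter] at hz
  exact ⟨z, hz.1, hz.2, h2.symm⟩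

/-- a bad `E7` top -/
structure BadE (j p1 M : ℕ) (lo hi : Tops P → ℕ → ℕ) (e : Tops P → ℕ → ℕ → P)
    (N Nf : Tops P → Finset P) (D : Tops P → Prop) (e' : P → ℕ) (t : Tops P) (z : P) :
    Prop where
  hit : HitE j lo hi e N Nf D t z 5
  le : p1 ≤ e' z
  big : e' z = p1 → M ≤ ∑ y ∈ Nf t, e' y
  cst : ∀ h, h ≤ e' z → Ew.cstW 4 w7 j 5 4 h ≤ ∑ y ∈ Nf t, e' y

/-- the row `j` of `E7` is one element -/
def Row5 (j : ℕ) : Prop := losW 4 w7 j = 5 ∧ hisW 4 w7 j = 5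

lemma row5_14 : Row5 14 := by unfold Row5; decide
lemma row5_15 : Row5 15 := by unfold Row5; decide
lemma row5_16 : Row5 16 := by unfold Row5; decide

/-- **Bad tops.** -/
theorem Fs.bad_cases (F : Fs P j lo hi e N θ4 Nf θf D) (K : Ctx P r j lo hi e) (h12 : 12 ≤ j)
    (Y : Y4 r j K3 K' V3 N b θ3 θ4) (hrow : Row5 j) {cS p1 M : ℕ}
    (hS : ∀ a ∈ Finset.Icc 1 (j / 2), cS ≤ deC j a) {tb : ℕ → ℕ → ℕ}
    (hp : E7t4 j 5 + 1 = p1) (htb : tb j 5 = p1 ∨ M = 0)
    {e' : P → ℕ} {F' : Finset P} (hV : Vd 4 e' F') (hok : Ew.Ok (rA N) (thA N θ4) e')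
    {t : Tops P} (ht : t ∈ El.KG (ED D) Nf (Gd j p1 M lo hi e Nf θf tb) e') :
    (∃ z, BadE j p1 M lo hi e N Nf D e' t z) ∨ cS ≤ ∑ y ∈ Nf t, e' y := by
  classical
  have H := K.gt.H
  obtain ⟨htE, hbad⟩ := El.mem_KG.mp ht
  unfold El.GoodE Gd at hbad
  rw [not_or] at hbad
  obtain ⟨hb1, hb2⟩ := hbad
  push Not at hb1
  obtain ⟨x, hx, hlt⟩ := hb1
  obtain ⟨z, hz, hzx, hez⟩ := bl_pos (lt_of_le_of_lt (Nat.zero_le _) hlt)
  have hzN : z ∉ Nf t := (mem_sdiff.mp hz).2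
  have hlt' : θf t E7t4 x < e' z := by rw [hez]; exact hlt
  rcases F.hit_cases K h12 Y hS hV hok (mem_ED.mp htE) hzx hx hzN hlt' with
    ⟨s, h1, h2, h3, h4⟩ | ⟨h1, -⟩
  · left
    obtain ⟨r1, r2⟩ := h1.word.rows (K.comp t)
    have q1 := r1 j le_rfl
    have q2 := r2 j le_rfl
    have hs1 := h1.lo
    have hs2 := h1.hi
    have hs : s = 5 := by
      have e1 := hrow.1
      have e2 := hrow.2
      omega
    subst hs
    refine ⟨z, h1, by omega, fun hzp => ?_, h4⟩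
    rcases htb with htb | hM
    · by_contra hcon
      push Not at hcon
      refine hb2 ⟨h1.word, fun y hy => ?_, fun y hy hy5 => ?_, hcon⟩
      · by_cases hly : lev y = j
        · have hyl := mem_lowPart.mp (h1.fine ▸ hy)
          obtain ⟨s', a1, a2, a3⟩ := (K.comp t).surj y hyl.1 (by omega)
          rw [hly] at a1 a2 a3
          have hs' : s' = 5 := by
            have e1 := hrow.1
            have e2 := hrow.2
            omega
          subst hs'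
          rw [← a3, ← h2, ← hez, hzp, h2]
          rcases F.typ t with ⟨k1, k2, k3, k4, k5, k6, k7⟩ | ⟨c, Nc, co, k0, k1, k2, k3, k4, k5, k6⟩ |
            ⟨k0, k1, k2, k3, k4, k5, k6, k7, k8⟩ | ⟨Nc, co, k0, k1, k2, k3, k4, k5, k6⟩
          · exact absurd (mem_ED.mp htE) k6
          · exact absurd (mem_ED.mp htE) k6
          · rw [k5]
            simp only
            rw [thC_e (K.comp t) tb le_rfl a1 a2, htb]
          · have := h1.word.row
            rw [this.1, this.2] at k3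
            omega
        · have hbl : El.bl (univ \ Nf t) e' y ≤ 0 := by
            refine El.bl_le fun z' hz' hz'y => ?_
            exfalso
            have hyl := mem_lowPart.mp (h1.fine ▸ hy)
            refine (mem_sdiff.mp hz').2 ?_
            rw [h1.fine]
            have e3 := (H.covBy_iff.mp hz'y).2
            exact mem_lowPart.mpr ⟨hz'y.1.le.trans hyl.1, by omega⟩
          omega
      · rw [hy5, ← h2, ← hez, hzp]
    · rw [hM]
      exact Nat.zero_le _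
  · exact Or.inr h1

lemma HitE.not_mem (HN : NatSys Nf) {t : Tops P} {z : P} {s : ℕ}
    (h : HitE j lo hi e N Nf D t z s) (C : Comp j (t : P) (lo t) (hi t) (e t)) (u : Tops P) :
    z ∉ Nf u := by
  intro hu
  have h1 := HN.up u z hu _ h.cov.1.le
  have h2 : e t j s ∈ Nf t := by
    rw [h.fine]
    exact mem_lowPart.mpr ⟨C.le_t j s le_rfl h.lo h.hi, (C.lev_e j s le_rfl h.lo h.hi).le⟩
  have h3 : u = t := (HN.topOf_eq h1).symm.trans (HN.topOf_eq h2)
  rw [h3, h.fine, mem_lowPart] at hu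
  have h4 := h.lev
  omega

/-- a lower bound for the energies of the bad `E7` tops -/
def MinB (j p1 M mE : ℕ) : Prop :=
  mE ≤ Ew.cstW 4 w7 j 5 4 (p1 + 1) ∧ (mE ≤ M ∨ mE ≤ Ew.cstW 4 w7 j 5 4 p1)

lemma BadE.min {e' : P → ℕ} {t : Tops P} {z : P} {p1 M mE : ℕ}
    (h : BadE j p1 M lo hi e N Nf D e' t z) (hm : MinB j p1 M mE) : mE ≤ ∑ y ∈ Nf t, e' y := by
  rcases Nat.lt_or_ge p1 (e' z) with h1 | h1
  · exact hm.1.trans (h.cst _ h1)
  · have h2 : e' z = p1 := le_antisymm h1 h.le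
    rcases hm.2 with h3 | h3
    · exact h3.trans (h.big h2)
    · exact h3.trans (h.cst _ h.le)

/-- **Two bad tops.** -/
theorem Fs.two_bad (F : Fs P j lo hi e N θ4 Nf θf D) (K : Ctx P r j lo hi e) (h12 : 12 ≤ j)
    (Y : Y4 r j K3 K' V3 N b θ3 θ4) (hrow : Row5 j) {cS p1 M mE n : ℕ}
    (hS : ∀ a ∈ Finset.Icc 1 (j / 2), cS ≤ deC j a) {tb : ℕ → ℕ → ℕ}
    (hp : E7t4 j 5 + 1 = p1) (htb : tb j 5 = p1 ∨ M = 0) (hm : MinB j p1 M mE)
    (hc1 : n < 2 * cS) (hc2 : n < cS + mE)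
    {e' : P → ℕ} {F' : Finset P} (hV : Vd 4 e' F') (hs : ∑ x, e' x = n)
    (hok : Ew.Ok (rA N) (thA N θ4) e')
    (hcard : 1 < (El.KG (ED D) Nf (Gd j p1 M lo hi e Nf θf tb) e').card) :
    ∃ t t' z z', t ≠ t' ∧ BadE j p1 M lo hi e N Nf D e' t z ∧
      BadE j p1 M lo hi e N Nf D e' t' z' ∧ (z ≠ z' →
      ∑ y ∈ Nf t, e' y + ∑ y ∈ Nf t', e' y + e' z + e' z' ≤ n) ∧
      (z = z' → ∑ y ∈ Nf t, e' y + ∑ y ∈ Nf t', e' y + e' z ≤ n) := by
  classical
  have HN := (F.ew K h12 Y).natSys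
  obtain ⟨t, ht, t', ht', hne⟩ := Finset.one_lt_card.mp hcard
  have h0 : ∑ y ∈ Nf t, e' y + ∑ y ∈ Nf t', e' y ≤ n := by
    rw [← hs, ← Finset.sum_union (Ew.disj_tops HN hne)]
    exact Finset.sum_le_sum_of_subset (Finset.subset_univ _)
  rcases F.bad_cases K h12 Y hrow hS hp htb hV hok ht with ⟨z, hz⟩ | h1
  · rcases F.bad_cases K h12 Y hrow hS hp htb hV hok ht' with ⟨z', hz'⟩ | h1'
    · refine ⟨t, t', z, z', hne, hz, hz', fun hzz => ?_, fun hzz => ?_⟩
      · have h4 := Ew.sum_tops HN hne (A := {z, z'}) (fun y hy s => by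
          rw [mem_insert, mem_singleton] at hy
          rcases hy with hy | hy
          · rw [hy]; exact hz.hit.not_mem HN (K.comp t) s
          · rw [hy]; exact hz'.hit.not_mem HN (K.comp t') s) e'
        rw [Finset.sum_pair hzz, hs] at h4
        omega
      · have h4 := Ew.sum_tops HN hne (A := {z}) (fun y hy s => by
          rw [mem_singleton] at hy
          rw [hy]; exact hz.hit.not_mem HN (K.comp t) s) e'
        rw [Finset.sum_singleton, hs] at h4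
        omega
    · exfalso
      have := hz.min hm
      omega
  · rcases F.bad_cases K h12 Y hrow hS hp htb hV hok ht' with ⟨z', hz'⟩ | h1'
    · exfalso
      have := hz'.min hm
      omega
    · exfalso
      omega

/-- two `E7` tops with a common lower element of level `j + 1` -/
def E2 (j : ℕ) (lo hi : Tops P → ℕ → ℕ) (e : Tops P → ℕ → ℕ → P)
    (N Nf : Tops P → Finset P) (D : Tops P → Prop) (z : P) : Prop :=
  ∃ t t', t ≠ t' ∧ HitE j lo hi e N Nf D t z 5 ∧ HitE j lo hi e N Nf D t' z 5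

/-- at most one bad top -/
theorem Fs.card_le_one (F : Fs P j lo hi e N θ4 Nf θf D) (K : Ctx P r j lo hi e) (h12 : 12 ≤ j)
    (Y : Y4 r j K3 K' V3 N b θ3 θ4) (hrow : Row5 j) {cS p1 M mE n : ℕ}
    (hS : ∀ a ∈ Finset.Icc 1 (j / 2), cS ≤ deC j a) {tb : ℕ → ℕ → ℕ}
    (hp : E7t4 j 5 + 1 = p1) (htb : tb j 5 = p1 ∨ M = 0) (hm : MinB j p1 M mE)
    (hc1 : n < 2 * cS) (hc2 : n < cS + mE) (hd : n < 2 * mE + 2 * p1)
    (hE : (¬ ∃ z, E2 j lo hi e N Nf D z) ∨ (n < 2 * Ew.cstW 4 w7 j 5 4 (p1 + 1) + p1 + 1 ∧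
      (n < 2 * M + p1 ∨ n < 2 * Ew.cstW 4 w7 j 5 4 p1 + p1)))
    {e' : P → ℕ} {F' : Finset P} (hV : Vd 4 e' F') (hs : ∑ x, e' x = n)
    (hok : Ew.Ok (rA N) (thA N θ4) e') :
    (El.KG (ED D) Nf (Gd j p1 M lo hi e Nf θf tb) e').card ≤ 1 := by
  by_contra hcon
  obtain ⟨t, t', z, z', hne, h1, h2, h3, h4⟩ := F.two_bad K h12 Y hrow hS hp htb hm hc1 hc2 hV hs
    hok (not_le.mp hcon)
  have g1 := h1.min hm
  have g2 := h2.min hm
  by_cases hzz : z = z'
  · subst hzz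
    rcases hE with hE | ⟨hE1, hE2⟩
    · exact hE ⟨z, t, t', hne, h1.hit, h2.hit⟩
    · have h5 := h4 rfl
      rcases Nat.lt_or_ge p1 (e' z) with h6 | h6
      · have a1 := h1.cst _ h6
        have a2 := h2.cst _ h6
        simp only [Nat.succ_eq_add_one] at a1 a2
        omega
      · have h7 : e' z = p1 := le_antisymm h6 h1.le
        have a1 := h1.cst _ h1.le
        have a2 := h2.cst _ h2.le
        have b1 := h1.big h7
        have b2 := h2.big h7
        omega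
  · have h5 := h3 hzz
    have := h1.le
    have := h2.le
    omega

end Pool.Agent.GaussPoset.Ec
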