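import Pool.Agent.W_448s7_h27.EwI

/-!
Window `4`: joins of two `E7` tops with a partial label (MP_448cb3_co, S7).
-/

namespace Pool.Agent.GaussPoset.Ec

set_option linter.unusedSectionVars false

open Polynomial Finset Sm Wd Cp W4 Cl

universe u

variable {P : Type u} [Fintype P] [PartialOrder P] [DecidableEq P] {r j : ℕ}
  {lo hi : Tops P → ℕ → ℕ} {e : Tops P → ℕ → ℕ → P} {N : Tops P → Finset P}
  {θ3 θ4 : Tops P → P → ℕ} {Nf : Tops P → Finset P} {θf : Tops P → (ℕ → ℕ → ℕ) → P → ℕ}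
  {D : Tops P → Prop} {K3 K' V3 : ℕ} {b : Tops P → ℕ}

lemma HitE.only (K : Ctx P r j lo hi e) {t : Tops P} {z : P} {s : ℕ}
    (h : HitE j lo hi e N Nf D t z s) : e t j s ∈ onlyB t ∧ topOf (e t j s) = t := by
  have C := K.comp t
  have h1 : e t j s ∈ onlyB t := by
    rw [mem_onlyB]
    intro u hu hxu
    exact top_eq K.gt.H K.gt.good (C.lev_e j s le_rfl h.lo h.hi).le hu t.2 hxu
      (C.le_t j s le_rfl h.lo h.hi)
  refine ⟨h1, ?_⟩
  have h2 := le_topOf (e t j s)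
  have h3 := top_eq K.gt.H K.gt.good (C.lev_e j s le_rfl h.lo h.hi).le (topOf (e t j s)).2 t.2 h2
      (C.le_t j s le_rfl h.lo h.hi)
  exact Subtype.ext h3

lemma HitE.nab (K : Ctx P r j lo hi e) {t : Tops P} {z : P} {s : ℕ}
    (h : HitE j lo hi e N Nf D t z s) {k : ℕ} (hk : k ≤ j) :
    nab k (e t j s) = Ew.nbW 4 w7 j s k :=
  Ew.nab_word h.word (K.comp t) K.gt.H K.gt.good h.lo h.hi (h.only K).1 hk

lemma E2.cg (K : Ctx P r j lo hi e) {z : P} (h : E2 j lo hi e N Nf D z) :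
    ∃ t t', t ≠ t' ∧ HitE j lo hi e N Nf D t z 5 ∧ HitE j lo hi e N Nf D t' z 5 ∧
      Cg z (e t j 5) (e t' j 5) := by
  obtain ⟨t, t', hne, h1, h2⟩ := h
  obtain ⟨g1, g2⟩ := h1.only K
  obtain ⟨g1', g2'⟩ := h2.only K
  exact ⟨t, t', hne, h1, h2, Cg.mk' h1.cov h2.cov (by rw [g2]; exact g1)
    (by rw [g2']; exact g1') (by rw [g2, g2']; exact hne)⟩

lemma E2.nab (K : Ctx P r j lo hi e) {z : P} (h : E2 j lo hi e N Nf D z) {k : ℕ} (hk : k ≤ j) :
    nab k z = 2 * Ew.nbW 4 w7 j 5 k := by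
  obtain ⟨t, t', hne, h1, h2, hc⟩ := h.cg K
  have h3 := h1.lev
  rw [hc.sum K.gt.H (by omega), h1.nab K hk, h2.nab K hk]
  ring

lemma E2.lev {z : P} (h : E2 j lo hi e N Nf D z) : lev z = j + 1 := by
  obtain ⟨t, t', hne, h1, h2⟩ := h
  exact h1.lev

lemma E2.cst (K : Ctx P r j lo hi e) {z : P} (h : E2 j lo hi e N Nf D z) {k : ℕ}
    (hk : k + 4 ≤ j + 1) : cst 4 (fun _ => k) z = 2 * Ew.cstW 4 w7 j 5 4 k + k := by
  rw [cst_eq, Finset.sum_range_succ, nab_self, h.lev]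
  unfold Ew.cstW
  rw [Finset.mul_sum, Finset.sum_congr rfl (g := fun i => 2 * (min k (i - 4) *
    Ew.nbW 4 w7 j 5 i)) (fun i hi => by
      rw [mem_range] at hi
      rw [h.nab K (by omega)]
      ring)]
  rw [Nat.min_eq_left (by omega)]
  ring

lemma E2.nst (K : Ctx P r j lo hi e) {z : P} (h : E2 j lo hi e N Nf D z) {k : ℕ}
    (hk : k + 4 ≤ j + 1) : Even (nst 4 (fun _ => k) z) := by
  rw [nst_eq]
  refine Finset.even_sum _ fun i hi => ?_
  rw [mem_range] at hi
  rw [h.nab K (by omega)]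
  exact even_two_mul _

/-- the configuration of `z` makes the hit `E7` tops bad -/
lemma HitE.mem_KG (K : Ctx P r j lo hi e) (F : Fs P j lo hi e N θ4 Nf θf D) {t : Tops P} {z : P}
    (h : HitE j lo hi e N Nf D t z 5) {p1 M h2 : ℕ} (hp : E7t4 j 5 + 1 = p1)
    {tb : ℕ → ℕ → ℕ} (hh : p1 ≤ h2) (hh2 : h2 ≤ GaussPoset.lev z - 4) (hM : M = 0 ∨ p1 < h2) :
    t ∈ El.KG (ED D) Nf (Gd j p1 M lo hi e Nf θf tb) (ez 4 (fun _ => h2) z) := by
  classical
  have C := K.comp t
  have hx : e t j 5 ∈ Nf t := by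
    rw [h.fine]
    exact mem_lowPart.mpr ⟨C.le_t j 5 le_rfl h.lo h.hi, (C.lev_e j 5 le_rfl h.lo h.hi).le⟩
  have hz : z ∉ Nf t := by
    rw [h.fine]
    intro h1
    have h2 := (mem_lowPart.mp h1).2
    have h3 := h.lev
    omega
  have h3 : h2 ≤ El.bl (univ \ Nf t) (ez 4 (fun _ => h2) z) (e t j 5) := by
    have h4 := El.le_bl (A := univ \ Nf t) (e := ez 4 (fun _ => h2) z)
      (mem_sdiff.mpr ⟨mem_univ _, hz⟩) h.cov
    rwa [ez_self (h := fun _ => h2) hh2] at h4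
  rw [El.mem_KG]
  refine ⟨mem_ED.mpr h.dt, ?_⟩
  unfold El.GoodE Gd
  rw [not_or]
  refine ⟨fun hg => ?_, ?_⟩
  · have h5 := hg _ hx
    have h6 : θf t E7t4 (e t j 5) = E7t4 j 5 := by
      rcases F.typ t with ⟨k1, k2, k3, k4, k5, k6, k7⟩ | ⟨c, Nc, co, k0, k1, k2, k3, k4, k5, k6⟩ |
        ⟨k0, k1, k2, k3, k4, k5, k6, k7, k8⟩ | ⟨Nc, co, k0, k1, k2, k3, k4, k5, k6⟩
      · exact absurd h.dt k6
      · exact absurd h.dt k6
      · rw [k5]
        exact thC_e C E7t4 le_rfl h.lo h.hi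
      · have := h.word.row
        rw [this.1, this.2] at k3
        omega
    omega
  · rintro ⟨-, -, g3, g4⟩
    rcases hM with hM | hM
    · omega
    · have := g3 _ hx rfl
      omega

/-- **No join of two `E7` tops**, from the cheapest configuration with the label `h2`. -/
theorem Fs.no_E2 (F : Fs P j lo hi e N θ4 Nf θf D) (K : Ctx P r j lo hi e) (h12 : 12 ≤ j)
    (Y : Y4 r j K3 K' V3 N b θ3 θ4) (hrow : Row5 j) {cS p1 M mE n h2 : ℕ}
    (hS : ∀ a ∈ Finset.Icc 1 (j / 2), cS ≤ deC j a) {tb : ℕ → ℕ → ℕ}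
    (hp : E7t4 j 5 + 1 = p1) (htb : tb j 5 = p1 ∨ M = 0) (hm : MinB j p1 M mE)
    (hc1 : n < 2 * cS) (hc2 : n < cS + mE) (hd : n < 2 * mE + 2 * p1)
    (hdv : HDv P n 1 N θ4 Nf D (Gd j p1 M lo hi e Nf θf tb))
    (hmin : ∀ z ∈ bdR (rA N), n < cst 4 (hA N θ4) z)
    (hn : 2 * Ew.cstW 4 w7 j 5 4 h2 + h2 = n) (hh2 : h2 + 4 ≤ j + 1)
    (hh : (M = 0 ∧ h2 = p1) ∨ (h2 = p1 + 1 ∧ (n < 2 * M + p1 ∨
      n < 2 * Ew.cstW 4 w7 j 5 4 p1 + p1)))
    (n4 : Ew.nbW 4 w7 j 5 4 = 2) (nh : Ew.nbW 4 w7 j 5 (4 + h2) = 1) (hj2 : 4 + h2 ≤ j) :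
    ¬ ∃ z, E2 j lo hi e N Nf D z := by
  classical
  rintro ⟨z0, hz0⟩
  have hL : 4 ≤ (lv P 4).card := by
    have h1 := nab_le_card (P := P) 4 z0
    rw [hz0.nab K (by omega), n4] at h1
    exact h1
  obtain ⟨c0, hc0⟩ : ∃ c0, c0 + 2 = (lv P 4).card := ⟨(lv P 4).card - 2, by omega⟩
  have hp1 : 1 ≤ p1 := by omega
  have key := F.part_zero K h12 Y hdv hmin (univ.filter (E2 j lo hi e N Nf D)) (h2 := h2)
    (by rcases hh with h | h <;> omega)
    (fun z hz => by
      have := (mem_filter.mp hz).2.lev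
      omega)
    (fun z hz => by
      rw [(mem_filter.mp hz).2.cst K hh2]
      exact hn)
    (fun z hz => by
      obtain ⟨t, t', hne, g1, g2⟩ := (mem_filter.mp hz).2
      rw [Finset.one_lt_card]
      have gl := g1.lev
      refine ⟨t, g1.mem_KG K F hp (by rcases hh with h | h <;> omega) (by omega)
        (by rcases hh with h | h <;> omega), t', g2.mem_KG K F hp
        (by rcases hh with h | h <;> omega) (by omega) (by rcases hh with h | h <;> omega), hne⟩)
    (fun e' F' hV hs hok hcard => by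
      obtain ⟨t, t', z, z', hne, b1, b2, h3, h4⟩ := F.two_bad K h12 Y hrow hS hp htb hm hc1 hc2
        hV hs hok hcard
      have m1 := b1.min hm
      have m2 := b2.min hm
      have l1 := b1.le
      have l2 := b2.le
      by_cases hzz : z = z'
      · subst hzz
        refine ⟨z, mem_filter.mpr ⟨mem_univ _, t, t', hne, b1.hit, b2.hit⟩, ?_⟩
        have hl := b1.hit.lev
        have hge : h2 ≤ e' z := by
          rcases hh with h | h
          · omega
          · by_contra hcon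
            have h7 : e' z = p1 := by omega
            have a1 := b1.cst _ b1.le
            have a2 := b2.cst _ b2.le
            have c1 := b1.big h7
            have c2 := b2.big h7
            have := h4 rfl
            omega
        exact ez_le (h := fun _ => h2) hV (by omega) (Or.inr hge)
      · have := h3 hzz
        omega)
    (c0 := c0) (by omega)
    (fun z hz => by
      have h := (mem_filter.mp hz).2
      rw [h.nab K (by omega), h.nab K hj2, n4, nh]
      omega)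
  have h5 : (univ.filter (E2 j lo hi e N Nf D)).filter
      (fun z => c0 + nab 4 z = (lv P 4).card + nab (4 + h2) z) =
      univ.filter (E2 j lo hi e N Nf D) := by
    refine Finset.filter_true_of_mem fun z hz => ?_
    have h := (mem_filter.mp hz).2
    rw [h.nab K (by omega), h.nab K hj2, n4, nh]
    omega
  rw [h5, Finset.sum_congr rfl (g := fun _ => (1 : ℤ)) (fun z hz =>
    Even.neg_one_pow ((mem_filter.mp hz).2.nst K hh2))] at key
  simp only [Finset.sum_const, smul_eq_mul, mul_one, nsmul_eq_mul, Nat.cast_eq_zero,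
    Finset.card_eq_zero, Finset.filter_eq_empty_iff] at key
  exact key (mem_univ z0) hz0

end Pool.Agent.GaussPoset.Ec
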