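import Pool.Agent.W_448s7_h27.EwA

/-!
Windows with defect tops: the purely combinatorial part, for arbitrary label caps
(MP_448cb3_co).
-/

namespace Pool.Agent.GaussPoset.El

set_option linter.unusedSectionVars false

open Polynomial Finset Ew

universe u

variable {P : Type u} [Fintype P] [PartialOrder P] [DecidableEq P]
variable {i : ℕ} {N N1 : Tops P → Finset P} {b : Tops P → ℕ} {θ θ1 : Tops P → P → ℕ}
  {E S : Finset (Tops P)} {Y : Finset P} {τ : P → P}

/-- the combinatorial context of the window `i` with the defect tops `E`, label caps `θ` (fine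
system) and `θ1` (coarse system) -/
structure EL (i : ℕ) (E : Finset (Tops P)) (N N1 : Tops P → Finset P)
    (θ θ1 : Tops P → P → ℕ) (Y : Finset P) (τ : P → P) : Prop where
  gr : GradedBelow P
  sys : ∀ S, S ⊆ E → NatSys (NS N N1 S)
  low : ∀ S, S ⊆ E → ∀ x ∈ unnat (NS N N1 S), i < lev x
  cap : ∀ S, S ⊆ E → ∀ x, x ∉ unnat (NS N N1 S) → tS θ θ1 S (topOf x) x ≤ lev x - i
  sub : ∀ t ∈ E, N t ⊆ N1 t
  le1 : ∀ t ∈ E, ∀ x ∈ N t, θ t x ≤ θ1 t x
  le2 : ∀ t ∈ E, ∀ x ∈ N1 t, x ∉ N t → ∀ y ∈ N t, x ≤ y → θ t y ≤ θ1 t x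
  tw : TwSys (unnat (NS N N1 E)) Y topOf τ
  twE : ∀ x ∈ Y, topOf x ∈ E → τ x ∈ N (topOf x) ∧
    ∀ y, x ⋖ y → θ (topOf x) y ≤ θ1 (topOf x) (τ x)

section

variable (W : EL i E N N1 θ θ1 Y τ)

include W

lemma EL.natSysS (hS : S ⊆ E) : NatSys (NS N N1 S) := W.sys S hS

lemma EL.natSys : NatSys N := by
  have h := W.sys ∅ (Finset.empty_subset E)
  have h1 : NS N N1 (∅ : Finset (Tops P)) = N := funext fun t => NS_not (Finset.notMem_empty t)
  rwa [h1] at h

lemma EL.NS_mono (hS : S ⊆ E) (t : Tops P) : NS N N1 S t ⊆ NS N N1 E t := by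
  by_cases h : t ∈ S
  · rw [NS_of h, NS_of (hS h)]
  · rw [NS_not h]
    by_cases h' : t ∈ E
    · rw [NS_of h']
      exact W.sub t h'
    · rw [NS_not h']

lemma EL.unnat_anti (hS : S ⊆ E) : unnat (NS N N1 E) ⊆ unnat (NS N N1 S) := by
  intro x hx
  rw [mem_unnat] at hx ⊢
  exact fun t h => hx t (W.NS_mono hS t h)

/-- elements natural in both systems -/
lemma EL.nat_of_not (hS : S ⊆ E) {x : P} (hx : x ∉ unnat (NS N N1 E))
    (ht : topOf x ∉ E ∨ topOf x ∈ S) : x ∉ unnat (NS N N1 S) := by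
  have HE := W.natSysS (Finset.Subset.refl E)
  have h1 : x ∈ NS N N1 E (topOf x) := HE.mem_iff.mpr ⟨hx, rfl⟩
  intro h
  refine mem_unnat.mp h (topOf x) ?_
  rcases ht with ht | ht
  · rw [NS_not ht] at h1
    rw [NS_not (fun h => ht (hS h))]
    exact h1
  · rw [NS_of (hS ht)] at h1
    rw [NS_of ht]
    exact h1

theorem EL.twS (hS : S ⊆ E) : TwSys (unnat (NS N N1 S)) (YS E Y S) topOf τ where
  sub := fun x hx => W.unnat_anti hS (W.tw.sub (mem_YS.mp hx).1)
  nat := by
    intro x hx
    obtain ⟨hx, ht⟩ := mem_YS.mp hx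
    refine W.nat_of_not hS (W.tw.nat x hx) ?_
    rw [W.tw.cp x hx]
    exact ht
  up := fun x hx => W.tw.up x (mem_YS.mp hx).1
  inj := fun x hx y hy => W.tw.inj x (mem_YS.mp hx).1 y (mem_YS.mp hy).1
  anti := fun x hx y hy => W.tw.anti x (mem_YS.mp hx).1 y (mem_YS.mp hy).1
  cp := fun x hx => W.tw.cp x (mem_YS.mp hx).1

/-- an element of a top outside `E` or in `S` is a twin in both systems or in none -/
lemma YS_iff {x : P} (ht : topOf x ∉ E ∨ topOf x ∈ S) : x ∈ YS E Y S ↔ x ∈ Y := by
  rw [mem_YS]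
  exact ⟨fun h => h.1, fun h => ⟨h, ht⟩⟩

/-- the thresholds of two systems agree away from `E \ S` -/
lemma EL.thS_eq (hS : S ⊆ E) {x : P} (ht : topOf x ∉ E ∨ topOf x ∈ S) :
    Ew.thS E θ θ1 Y τ S x = Ew.thS E θ θ1 Y τ E x := by
  have key : ∀ y, topOf y ∉ E ∨ topOf y ∈ S → tS θ θ1 S (topOf y) y = tS θ θ1 E (topOf y) y := by
    intro y hy
    rcases hy with hy | hy
    · rw [tS_not (fun h => hy (hS h)), tS_not hy]
    · rw [tS_of hy, tS_of (hS hy)]
  unfold Ew.thS
  rw [YS_self]
  by_cases hx : x ∈ Y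
  · rw [thX_of ((YS_iff W ht).mpr hx), thX_of hx]
    refine key _ ?_
    rw [W.tw.cp x hx]
    exact ht
  · rw [thX_not (fun h => hx (mem_YS.mp h).1), thX_not hx]
    exact key _ ht

lemma EL.lev_RS (hS : S ⊆ E) : ∀ x ∈ RS E N N1 Y S, i < lev x :=
  fun x hx => W.low S hS x (mem_sdiff.mp hx).1

lemma EL.lower_RS (hS : S ⊆ E) : ∀ x y, x ≤ y → y ∈ RS E N N1 Y S → x ∈ RS E N N1 Y S :=
  (W.twS hS).lower (W.natSysS hS).lower

lemma EL.th_le (hS : S ⊆ E) {x : P} (hx : x ∉ RS E N N1 Y S) :
    Ew.thS E θ θ1 Y τ S x ≤ lev x - i := by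
  have key : ∀ y, y ∉ unnat (NS N N1 S) → tS θ θ1 S (topOf y) y ≤ lev y - i :=
    fun y hy => W.cap S hS y hy
  unfold Ew.thS
  by_cases hY : x ∈ YS E Y S
  · rw [thX_of hY]
    have h1 := key _ ((W.twS hS).nat x hY)
    have h2 : lev (τ x) = lev x := lev_eq_of_up ((W.twS hS).up x hY)
    rwa [h2] at h1
  · rw [thX_not hY]
    refine key _ fun h => hx ?_
    exact mem_sdiff.mpr ⟨h, hY⟩

lemma EL.RS_sub (hS : S ⊆ E) : RS E N N1 Y E ⊆ RS E N N1 Y S := by
  intro x hx
  have h := mem_sdiff.mp hx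
  rw [YS_self] at h
  exact mem_sdiff.mpr ⟨W.unnat_anti hS h.1, fun h' => h.2 (mem_YS.mp h').1⟩

end

section

variable (W : EL i E N N1 θ θ1 Y τ)

include W

/-- an element below a natural element of a top of `E` which is not natural is in the far set -/
lemma EL.far_of_cov (hS : S ⊆ E) {t : Tops P} (htE : t ∈ E) (htS : t ∉ S) {z x : P} (hzx : z ⋖ x)
    (hx : x ∈ N t) (hz : z ∉ N t) : z ∈ RS E N N1 Y S ∧ x ∉ RS E N N1 Y S ∧
      Ew.thS E θ θ1 Y τ S x = θ t x := by
  have HS := W.natSysS hS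
  have HE := W.natSysS (Finset.Subset.refl E)
  have hx' : x ∈ NS N N1 S t := by rw [NS_not htS]; exact hx
  have htop : topOf x = t := HS.topOf_eq hx'
  have hxu : x ∉ unnat (NS N N1 S) := (HS.mem_iff.mp hx').1
  refine ⟨mem_sdiff.mpr ⟨?_, ?_⟩, fun h => hxu (mem_sdiff.mp h).1, ?_⟩
  · rw [mem_unnat]
    intro s hs
    have h1 : x ∈ NS N N1 S s := HS.up s z hs x hzx.1.le
    have h2 : s = t := (HS.topOf_eq h1).symm.trans htop
    rw [h2, NS_not htS] at hs
    exact hz hs
  · intro hzY
    obtain ⟨hzY, h1⟩ := mem_YS.mp hzY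
    have h2 := W.tw.nat z hzY
    have h3 : τ z < x := (W.tw.up z hzY x).mpr hzx.1
    have h4 : topOf (τ z) = topOf x := HE.cp _ _ h3.le h2
    rw [W.tw.cp z hzY, htop] at h4
    rw [h4] at h1
    rcases h1 with h1 | h1
    · exact h1 htE
    · exact htS h1
  · have hxY : x ∉ YS E Y S := fun h => hxu ((W.twS hS).sub h)
    unfold Ew.thS
    rw [thX_not hxY, htop, tS_not htS]

/-- **The equivalence.** -/
theorem EL.ok_iff_S (hS : S ⊆ E) {e : P → ℕ} {F : Finset P} (hV : Vd i e F) :
    Ok (RS E N N1 Y S) (Ew.thS E θ θ1 Y τ S) e ↔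
      (Ok (RS E N N1 Y E) (Ew.thS E θ θ1 Y τ E) e ∧ KE E N θ e ⊆ S) := by
  classical
  have HS := W.natSysS hS
  have HE := W.natSysS (Finset.Subset.refl E)
  have hsub := W.RS_sub hS
  have hmono : ∀ z x1 x2 : P, z ∈ RS E N N1 Y S → x1 ∈ RS E N N1 Y S → x2 ∉ RS E N N1 Y S →
      z ≤ x1 → x1 ⋖ x2 → e x1 ≤ Ew.thS E θ θ1 Y τ S x2 → e z ≤ e x1 := by
    intro z x1 x2 hz h1 h2 hzx hc he
    have h3 := W.th_le hS h2
    have hl2 := W.gr.lev_covBy hc
    have hl1 := W.lev_RS hS x1 h1
    have hlz := W.lev_RS hS z hz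
    have hx1F : x1 ∉ F := by
      intro hF
      have := sub_le_of_mem hV hF
      omega
    have hzF : z ∉ F := fun h => hx1F (hV.1 z x1 hzx h)
    have h4 := hV.2.2.1 z x1 hzx hzF hx1F
    rw [rho_of_lt hlz, rho_of_lt hl1] at h4
    exact_mod_cast h4
  have hYE : ∀ x ∈ Y, x ∈ unnat (NS N N1 E) := fun x hx => W.tw.sub hx
  constructor
  · intro hok
    refine ⟨?_, ?_⟩
    · intro z hz x hx hzx
      have hzS := hsub hz
      by_cases hxS : x ∈ RS E N N1 Y S
      · -- `x` is an own element of a top of `E \ S`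
        have ht : topOf x ∈ E ∧ topOf x ∉ S := by
          by_contra hcon
          have ht' : topOf x ∉ E ∨ topOf x ∈ S := by
            by_cases h : topOf x ∈ E
            · exact Or.inr (by by_contra h'; exact hcon ⟨h, h'⟩)
            · exact Or.inl h
          obtain ⟨h1, h2⟩ := mem_sdiff.mp hxS
          rw [YS_iff W ht'] at h2
          refine hx (mem_sdiff.mpr ⟨?_, by rw [YS_self]; exact h2⟩)
          by_contra h3
          exact W.nat_of_not hS h3 ht' h1
        by_cases hxY : x ∈ Y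
        · -- a twin
          obtain ⟨g1, g2⟩ := W.twE x hxY ht.1
          have hlx := W.lev_RS hS x hxS
          have hlt : x < (topOf x : P) := by
            refine lt_of_le_of_ne (le_topOf x) fun h => ?_
            have h2 : lev (topOf x : P) = 0 := (topOf x).2
            rw [← h] at h2
            omega
          obtain ⟨y, hy, -⟩ := exists_covBy_le_of_lt hlt
          have hyN : y ∈ N (topOf x) :=
            W.natSys.up _ _ g1 y ((W.tw.up x hxY y).mpr hy.1).le
          have hxN : x ∉ N (topOf x) := fun h => by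
            have h1 := hYE x hxY
            refine mem_unnat.mp h1 (topOf x) ?_
            rw [NS_of ht.1]
            exact W.sub _ ht.1 h
          obtain ⟨f1, f2, f3⟩ := W.far_of_cov hS ht.1 ht.2 hy hyN hxN
          have h1 := hok x hxS y f2 hy
          have h2 := hmono z x y hzS hxS f2 hzx.1.le hy h1
          rw [f3] at h1
          have h3 := g2 y hy
          have h4 : Ew.thS E θ θ1 Y τ E x = θ1 (topOf x) (τ x) := by
            unfold Ew.thS
            rw [YS_self, thX_of hxY, W.tw.cp x hxY, tS_of ht.1]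
          rw [h4]
          omega
        · -- an element of the larger natural set
          have hxu : x ∉ unnat (NS N N1 E) := fun h =>
            hx (mem_sdiff.mpr ⟨h, by rw [YS_self]; exact hxY⟩)
          have hxN1 : x ∈ N1 (topOf x) := by
            have := HE.mem_iff.mpr ⟨hxu, rfl⟩
            rwa [NS_of ht.1] at this
          have hxN : x ∉ N (topOf x) := fun h => by
            refine mem_unnat.mp (mem_sdiff.mp hxS).1 (topOf x) ?_
            rw [NS_not ht.2]
            exact h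
          have htop0 : (topOf x : P) ∉ unnat (NS N N1 S) := by
            intro h
            have h2 : lev (topOf x : P) = 0 := (topOf x).2
            have h3 := W.low S hS _ h
            omega
          have hne : (topOf x : P) ∉ RS E N N1 Y S := fun h => htop0 (mem_sdiff.mp h).1
          obtain ⟨x1, x2, f1, f2, f3, f4, f5⟩ := exists_exit hxS hne (le_topOf x)
          have hxx2 : x ≤ x2 := f1.trans f3.1.le
          have hx2E : x2 ∈ NS N N1 E (topOf x) :=
            HE.up _ x (HE.mem_iff.mpr ⟨hxu, rfl⟩) x2 hxx2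
          have hx2u : x2 ∉ unnat (NS N N1 E) := (HE.mem_iff.mp hx2E).1
          have hx2S : x2 ∉ unnat (NS N N1 S) := by
            intro h
            refine f4 (mem_sdiff.mpr ⟨h, fun h' => hx2u (hYE x2 (mem_YS.mp h').1)⟩)
          have hx2N : x2 ∈ N (topOf x) := by
            have h1 := HS.mem_iff.mpr ⟨hx2S, rfl⟩
            rw [(HE.mem_iff.mp hx2E).2, NS_not ht.2] at h1
            exact h1
          have hx1N : x1 ∉ N (topOf x) := fun h => by
            refine mem_unnat.mp (mem_sdiff.mp f2).1 (topOf x) ?_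
            rw [NS_not ht.2]
            exact h
          obtain ⟨k1, k2, k3⟩ := W.far_of_cov hS ht.1 ht.2 f3 hx2N hx1N
          have h1 := hok x1 f2 x2 f4 f3
          have h2 := hmono z x1 x2 hzS f2 f4 (hzx.1.le.trans f1) f3 h1
          rw [k3] at h1
          have h3 := W.le2 _ ht.1 x hxN1 hxN x2 hx2N hxx2
          have h4 : Ew.thS E θ θ1 Y τ E x = θ1 (topOf x) x := by
            unfold Ew.thS
            rw [YS_self, thX_not hxY, tS_of ht.1]
          rw [h4]
          omega
      · have h1 := hok z hzS x hxS hzx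
        by_cases ht : topOf x ∉ E ∨ topOf x ∈ S
        · rwa [W.thS_eq hS ht] at h1
        · push Not at ht
          have hxYS : x ∉ YS E Y S := fun h => by
            rcases (mem_YS.mp h).2 with h | h
            · exact h ht.1
            · exact ht.2 h
          have hxu : x ∉ unnat (NS N N1 S) := fun h => hxS (mem_sdiff.mpr ⟨h, hxYS⟩)
          have hxN : x ∈ N (topOf x) := by
            have := HS.mem_iff.mpr ⟨hxu, rfl⟩
            rwa [NS_not ht.2] at this
          have hxY : x ∉ Y := fun h => by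
            refine mem_unnat.mp (hYE x h) (topOf x) ?_
            rw [NS_of ht.1]
            exact W.sub _ ht.1 hxN
          have h5 : Ew.thS E θ θ1 Y τ S x = θ (topOf x) x := by
            unfold Ew.thS
            rw [thX_not hxYS, tS_not ht.2]
          have h6 : Ew.thS E θ θ1 Y τ E x = θ1 (topOf x) x := by
            unfold Ew.thS
            rw [YS_self, thX_not hxY, tS_of ht.1]
          have h7 := W.le1 _ ht.1 x hxN
          rw [h5] at h1
          rw [h6]
          omega
    · intro t ht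
      obtain ⟨htE, z, x, hzx, hx, hz, hlt⟩ := mem_KE.mp ht
      by_contra htS
      obtain ⟨g1, g2, g3⟩ := W.far_of_cov hS htE htS hzx hx hz
      have h1 := hok z g1 x g2 hzx
      omega
  · rintro ⟨hok, hK⟩ z hz x hx hzx
    by_cases ht : topOf x ∉ E ∨ topOf x ∈ S
    · rw [W.thS_eq hS ht]
      have hxE : x ∉ RS E N N1 Y E := fun h => hx (hsub h)
      have hzE : z ∈ RS E N N1 Y E := by
        refine mem_sdiff.mpr ⟨?_, ?_⟩
        · by_contra hcon
          have h1 : topOf z = topOf x := HE.cp z x hzx.1.le hcon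
          exact W.nat_of_not hS hcon (by rw [h1]; exact ht) (mem_sdiff.mp hz).1
        · rw [YS_self]
          intro hzY
          have h2 := W.tw.nat z hzY
          have h3 : τ z < x := (W.tw.up z hzY x).mpr hzx.1
          have h4 : topOf (τ z) = topOf x := HE.cp _ _ h3.le h2
          rw [W.tw.cp z hzY] at h4
          exact (mem_sdiff.mp hz).2 (mem_YS.mpr ⟨hzY, by rw [h4]; exact ht⟩)
      exact hok z hzE x hxE hzx
    · push Not at ht
      have hxYS : x ∉ YS E Y S := fun h => by
        rcases (mem_YS.mp h).2 with h | h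
        · exact h ht.1
        · exact ht.2 h
      have hxu : x ∉ unnat (NS N N1 S) := fun h => hx (mem_sdiff.mpr ⟨h, hxYS⟩)
      have hxN : x ∈ N (topOf x) := by
        have := HS.mem_iff.mpr ⟨hxu, rfl⟩
        rwa [NS_not ht.2] at this
      have hzN : z ∉ N (topOf x) := by
        intro h
        refine mem_unnat.mp (mem_sdiff.mp hz).1 (topOf x) ?_
        rw [NS_not ht.2]
        exact h
      have h6 : Ew.thS E θ θ1 Y τ S x = θ (topOf x) x := by
        unfold Ew.thS
        rw [thX_not hxYS, tS_not ht.2]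
      rw [h6]
      by_contra hcon
      push Not at hcon
      exact ht.2 (hK (mem_KE.mpr ⟨ht.1, z, x, hzx, hxN, hzN, hcon⟩))

end

end Pool.Agent.GaussPoset.El
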