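import Pool.Agent.W_448s7_h27.EwJ
import Pool.Agent.W_448s7s_h5.SpC

/-!
Window `4`, `j = 12`: bad tops, pairs of bad tops, joins of two `E7` tops (MP_448cb3_co).
-/

namespace Pool.Agent.GaussPoset.Ec

set_option linter.unusedSectionVars false

open Polynomial Finset Sm Wd Cp W4 Cl

universe u

variable {P : Type u} [Fintype P] [PartialOrder P] [DecidableEq P] {r : ℕ}
  {lo hi : Tops P → ℕ → ℕ} {e : Tops P → ℕ → ℕ → P} {N : Tops P → Finset P}
  {θ3 θ4 : Tops P → P → ℕ} {Nf : Tops P → Finset P} {θf : Tops P → (ℕ → ℕ → ℕ) → P → ℕ}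
  {D : Tops P → Prop} {K3 K' V3 : ℕ} {b : Tops P → ℕ}

/-- the tables for `j = 12` -/
def tb12 (p k s : ℕ) : ℕ := if k = 12 then p else E7t4 k s

/-- good labels for `j = 12` -/
def Gd12 (lo hi : Tops P → ℕ → ℕ) (e : Tops P → ℕ → ℕ → P)
    (Nf : Tops P → Finset P) (θf : Tops P → (ℕ → ℕ → ℕ) → P → ℕ)
    (t : Tops P) (β : P → ℕ) (m : ℕ) : Prop :=
  (∀ x ∈ Nf t, β x ≤ θf t E7t4 x) ∨
    (WordD 12 4 w7 (lo t) (hi t) ∧ (∀ x ∈ Nf t, β x ≤ θf t (tb12 5) x) ∧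
      (∀ x ∈ Nf t, x = e t 12 5 → β x = 5) ∧ m < 62) ∨
    (WordD 12 4 w7 (lo t) (hi t) ∧ (∀ x ∈ Nf t, β x ≤ θf t (tb12 6) x) ∧
      (∀ x ∈ Nf t, x = e t 12 5 → β x = 6) ∧ m < 61)

/-- the label of a hit of a stair top is at least `j - 7` -/
theorem Fs.stair_label (F : Fs P 12 lo hi e N θ4 Nf θf D)
    (Y : Y4 r 12 K3 K' V3 N b θ3 θ4) {t : Tops P} (ht : D t) (h3 : hi t 4 - lo t 4 + 1 = 3)
    {tb : ℕ → ℕ → ℕ} {e' : P → ℕ} {z x : P} (hzx : z ⋖ x) (hx : x ∈ Nf t) (hz : z ∉ Nf t)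
    (hlt : θf t tb x < e' z) : 5 ≤ e' z := by
  have H := Y.W.gt.H
  have HN := Y.W.natSys
  have e1 := (H.covBy_iff.mp hzx).2
  rcases F.typ t with ⟨k1, k2, k3, k4, k5, k6, k7⟩ | ⟨c, Nc, co, k0, k1, k2, k3, k4, k5, k6, k7⟩ |
    ⟨k0, k1, k2, k3, k4, k5, k6, k7, k8⟩ | ⟨Nc, co, k0, k1, k2, k3, k4, k5, k6⟩
  · exact absurd ht k6
  · exact absurd ht k6
  · have := k0.row
    omega
  · rw [k4] at hx hz
    obtain ⟨hxu, hxt⟩ := HN.mem_iff.mp hx
    have hzu : z ∈ unnat N := by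
      by_contra hcon
      apply hz
      refine HN.mem_iff.mpr ⟨hcon, ?_⟩
      rw [← hxt]
      exact (Y.W.up hcon hzx.1.le).2.symm
    have hlz := Y.W.lt_lev hzu
    rw [k5] at hlt
    rw [k1] at hx
    by_cases hJ : x ∈ junk (fun c => c.1 ≤ c.2) Nc co
    · simp only at hlt
      unfold thS at hlt
      rw [if_pos hJ] at hlt
      omega
    · have hxN : x ∈ Nc := by
        rw [mem_natS] at hx
        exact hx.resolve_right hJ
      have hl := k0.chart.lev x hxN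
      simp only at hlt
      unfold thS at hlt
      rw [if_neg hJ] at hlt
      omega

/-- a bad top for `j = 12` -/
def Bad12 (lo hi : Tops P → ℕ → ℕ) (e : Tops P → ℕ → ℕ → P)
    (N Nf : Tops P → Finset P) (D : Tops P → Prop) (e' : P → ℕ) (t : Tops P) (z : P) : Prop :=
  (HitE 12 lo hi e N Nf D t z 4 ∧ 5 ≤ e' z ∧ 59 ≤ ∑ y ∈ Nf t, e' y) ∨
  (HitE 12 lo hi e N Nf D t z 5 ∧ ((e' z = 5 ∧ 62 ≤ ∑ y ∈ Nf t, e' y) ∨
    (e' z = 6 ∧ 61 ≤ ∑ y ∈ Nf t, e' y) ∨ (7 ≤ e' z ∧ 60 ≤ ∑ y ∈ Nf t, e' y))) ∨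
  ((∃ x ∈ N t, z ⋖ x) ∧ z ∉ N t ∧ 5 ≤ e' z ∧ 62 ≤ ∑ y ∈ Nf t, e' y)

lemma cst12 : Ew.cstW 4 w7 12 4 4 5 = 59 ∧ Ew.cstW 4 w7 12 5 4 7 = 60 ∧
    losW 4 w7 12 = 4 ∧ hisW 4 w7 12 = 5 ∧ E7t4 12 4 = 4 ∧ E7t4 12 5 = 4 := by decide +kernel

theorem Fs.bad12 (F : Fs P 12 lo hi e N θ4 Nf θf D) (K : Ctx P r 12 lo hi e)
    (Y : Y4 r 12 K3 K' V3 N b θ3 θ4)
    {e' : P → ℕ} {F' : Finset P} (hV : Vd 4 e' F') (hok : Ew.Ok (rA N) (thA N θ4) e')
    {t : Tops P} (ht : t ∈ El.KG (ED D) Nf (Gd12 lo hi e Nf θf) e') :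
    ∃ z, Bad12 lo hi e N Nf D e' t z := by
  classical
  have H := K.gt.H
  obtain ⟨c1, c2, c3, c4, c5, c6⟩ := cst12
  obtain ⟨htE, hbad⟩ := El.mem_KG.mp ht
  unfold El.GoodE Gd12 at hbad
  rw [not_or, not_or] at hbad
  obtain ⟨hb1, hb2, hb3⟩ := hbad
  push Not at hb1
  obtain ⟨x, hx, hlt⟩ := hb1
  obtain ⟨z, hz, hzx, hez⟩ := bl_pos (lt_of_le_of_lt (Nat.zero_le _) hlt)
  have hzN : z ∉ Nf t := (mem_sdiff.mp hz).2
  have hlt' : θf t E7t4 x < e' z := by rw [hez]; exact hlt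
  rcases F.hit_cases K le_rfl Y (cS := 62) de_12 hV hok (mem_ED.mp htE) hzx hx hzN hlt' with
    ⟨s, h1, h2, h3, h4⟩ | ⟨h1, h1'⟩
  · obtain ⟨r1, r2⟩ := h1.word.rows (K.comp t)
    have q1 := r1 12 le_rfl
    have q2 := r2 12 le_rfl
    have hs1 := h1.lo
    have hs2 := h1.hi
    have hs : s = 4 ∨ s = 5 := by omega
    -- the labels elsewhere
    have hlow : ∀ y ∈ Nf t, lev y ≠ 12 → El.bl (univ \ Nf t) e' y = 0 := by
      intro y hy hly
      refine Nat.le_zero.mp (El.bl_le fun z' hz' hz'y => ?_)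
      exfalso
      have hyl := mem_lowPart.mp (h1.fine ▸ hy)
      refine (mem_sdiff.mp hz').2 ?_
      rw [h1.fine]
      have e3 := (H.covBy_iff.mp hz'y).2
      exact mem_lowPart.mpr ⟨hz'y.1.le.trans hyl.1, by omega⟩
    have hθ : ∀ tb : ℕ → ℕ → ℕ, θf t tb = thC (lo t) (hi t) (e t) tb := by
      intro tb
      rcases F.typ t with ⟨k1, k2, k3, k4, k5, k6, k7⟩ |
        ⟨c, Nc, co, k0, k1, k2, k3, k4, k5, k6, k7⟩ |
        ⟨k0, k1, k2, k3, k4, k5, k6, k7, k8⟩ | ⟨Nc, co, k0, k1, k2, k3, k4, k5, k6⟩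
      · exact absurd (mem_ED.mp htE) k6
      · exact absurd (mem_ED.mp htE) k6
      · rw [k5]
      · have := h1.word.row
        omega
    have hx5 : e t 12 5 ∈ Nf t := by
      rw [h1.fine]
      exact mem_lowPart.mpr ⟨(K.comp t).le_t 12 5 le_rfl (by omega) (by omega),
        ((K.comp t).lev_e 12 5 le_rfl (by omega) (by omega)).le⟩
    have hx4 : e t 12 4 ∈ Nf t := by
      rw [h1.fine]
      exact mem_lowPart.mpr ⟨(K.comp t).le_t 12 4 le_rfl (by omega) (by omega),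
        ((K.comp t).lev_e 12 4 le_rfl (by omega) (by omega)).le⟩
    set a4 := El.bl (univ \ Nf t) e' (e t 12 4) with ha4
    set a5 := El.bl (univ \ Nf t) e' (e t 12 5) with ha5
    -- positions of level 12
    have hpos : ∀ y ∈ Nf t, lev y = 12 → y = e t 12 4 ∨ y = e t 12 5 := by
      intro y hy hly
      have hyl := mem_lowPart.mp (h1.fine ▸ hy)
      obtain ⟨s', b1, b2, b3⟩ := (K.comp t).surj y hyl.1 (by omega)
      rw [hly] at b1 b2 b3
      have hs' : s' = 4 ∨ s' = 5 := by omega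
      rcases hs' with rfl | rfl
      · exact Or.inl b3.symm
      · exact Or.inr b3.symm
    have htab : ∀ p, a4 ≤ p → a5 ≤ p → ∀ y ∈ Nf t, El.bl (univ \ Nf t) e' y ≤ θf t (tb12 p) y := by
      intro p g4 g5 y hy
      by_cases hly : lev y = 12
      · rcases hpos y hy hly with rfl | rfl
        · rw [hθ, thC_e (K.comp t) (tb12 p) le_rfl (by omega) (by omega)]
          exact g4
        · rw [hθ, thC_e (K.comp t) (tb12 p) le_rfl (by omega) (by omega)]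
          exact g5
      · rw [hlow y hy hly]
        exact Nat.zero_le _
    -- a hit at a position with the label of the position
    have hmk : ∀ s', (s' = 4 ∨ s' = 5) → 4 < El.bl (univ \ Nf t) e' (e t 12 s') →
        ∃ z, HitE 12 lo hi e N Nf D t z s' ∧ e' z = El.bl (univ \ Nf t) e' (e t 12 s') ∧
          ∀ h, h ≤ e' z → Ew.cstW 4 w7 12 s' 4 h ≤ ∑ y ∈ Nf t, e' y := by
      intro s' hs' hgt
      obtain ⟨z', hz', hzx', hez'⟩ := bl_pos (lt_of_le_of_lt (Nat.zero_le _) hgt)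
      have hzN' : z' ∉ Nf t := (mem_sdiff.mp hz').2
      have hxs : e t 12 s' ∈ Nf t := by rcases hs' with rfl | rfl; exacts [hx4, hx5]
      have hlt'' : θf t E7t4 (e t 12 s') < e' z' := by
        rw [hθ, thC_e (K.comp t) E7t4 le_rfl (by omega) (by omega), hez']
        rcases hs' with rfl | rfl <;> omega
      rcases F.hit_cases K le_rfl Y (cS := 62) de_12 hV hok (mem_ED.mp htE) hzx' hxs hzN' hlt''
        with ⟨s'', g1, g2, g3, g4⟩ | ⟨-, g1⟩
      · have g5 := (K.comp t).inj 12 s' s'' le_rfl (by omega) (by omega) g1.lo g1.hi g2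
        subst g5
        exact ⟨z', g1, hez', g4⟩
      · have := h1.word.row
        omega
    by_cases g4 : 4 < a4
    · obtain ⟨z', f1, f2, f3⟩ := hmk 4 (Or.inl rfl) g4
      refine ⟨z', Or.inl ⟨f1, by omega, ?_⟩⟩
      rw [← c1]
      exact f3 5 (by omega)
    · have g5 : 4 < a5 := by
        rcases hs with rfl | rfl
        · rw [h2] at hez
          omega
        · rw [h2] at hez
          omega
      obtain ⟨z', f1, f2, f3⟩ := hmk 5 (Or.inr rfl) g5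
      refine ⟨z', Or.inr (Or.inl ⟨f1, ?_⟩)⟩
      rw [← ha5] at f2
      rcases Nat.lt_or_ge a5 7 with g7 | g7
      · have g6 : a5 = 5 ∨ a5 = 6 := by omega
        rcases g6 with g6 | g6
        · left
          refine ⟨by omega, ?_⟩
          by_contra hcon
          exact hb2 ⟨h1.word, htab 5 (by omega) (by omega), fun y _ hy => by rw [hy]; exact g6,
            by omega⟩
        · right; left
          refine ⟨by omega, ?_⟩
          by_contra hcon
          exact hb3 ⟨h1.word, htab 6 (by omega) (by omega), fun y _ hy => by rw [hy]; exact g6,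
            by omega⟩
      · right; right
        refine ⟨by omega, ?_⟩
        rw [← c2]
        exact f3 7 (by omega)
  · refine ⟨z, Or.inr (Or.inr ⟨⟨x, ?_, hzx⟩, ?_, F.stair_label Y (mem_ED.mp htE) h1' hzx hx hzN
      hlt', h1⟩)⟩
    · exact (F.typ t).sub hx
    · rcases F.typ t with ⟨k1, k2, k3, k4, k5, k6, k7⟩ |
        ⟨c, Nc, co, k0, k1, k2, k3, k4, k5, k6, k7⟩ |
        ⟨k0, k1, k2, k3, k4, k5, k6, k7, k8⟩ | ⟨Nc, co, k0, k1, k2, k3, k4, k5, k6⟩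
      · exact absurd (mem_ED.mp htE) k6
      · exact absurd (mem_ED.mp htE) k6
      · have := k0.row
        omega
      · rw [← k4]
        exact hzN

lemma Bad12.not_mem (F : Fs P 12 lo hi e N θ4 Nf θf D) (K : Ctx P r 12 lo hi e)
    (Y : Y4 r 12 K3 K' V3 N b θ3 θ4) {e' : P → ℕ} {t : Tops P} {z : P}
    (h : Bad12 lo hi e N Nf D e' t z) (u : Tops P) : z ∉ Nf u := by
  have HN := (F.ew K le_rfl Y).natSys
  rcases h with ⟨h, -⟩ | ⟨h, -⟩ | ⟨⟨x, hx, hzx⟩, hz, -⟩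
  · exact h.not_mem HN (K.comp t) u
  · exact h.not_mem HN (K.comp t) u
  · intro hu
    have h1 := (F.typ u).sub hu
    have H1 := Y.W.natSys
    have h2 := H1.up u z h1 x hzx.1.le
    have h3 : u = t := (H1.topOf_eq h2).symm.trans (H1.topOf_eq hx)
    exact hz (h3 ▸ h1)

/-- the position `4` of `E7` is never below a join -/
lemma HitE.no_join4 (F : Fs P 12 lo hi e N θ4 Nf θf D) (K : Ctx P r 12 lo hi e)
    (Y : Y4 r 12 K3 K' V3 N b θ3 θ4) {t t' : Tops P} (hne : t ≠ t') {z x' : P}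
    (h : HitE 12 lo hi e N Nf D t z 4) (hzx' : z ⋖ x') (hx' : x' ∈ N t') : False := by
  have H := K.gt.H
  obtain ⟨g1, g2⟩ := h.only K
  obtain ⟨u1, u2⟩ := Y.W.natSys.mem_iff.mp hx'
  have hc : Cg z (e t 12 4) x' := Cg.mk' h.cov hzx' (by rw [g2]; exact g1)
    (mem_onlyB.mpr fun s hs hxs => Y.W.natSys.top_eq
      (Y.W.natSys.mem_iff.mpr ⟨u1, rfl⟩) hs hxs) (by rw [g2, u2]; exact hne)
  have h1 := (K.ends hc h.lev).1
  have h2 := h.nab K (k := 11) (by omega)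
  have h3 : GaussPoset.lev (e t 12 4) = 11 + 1 := (K.comp t).lev_e 12 4 le_rfl h.lo h.hi
  rw [nab_uc H h3, h1] at h2
  exact absurd h2 (by decide)

/-- a hit cover -/
lemma Bad12.cover (K : Ctx P r 12 lo hi e) {e' : P → ℕ}
    {t : Tops P} {z : P} (h : Bad12 lo hi e N Nf D e' t z) : ∃ x ∈ N t, z ⋖ x := by
  rcases h with ⟨h, -⟩ | ⟨h, -⟩ | ⟨h, -⟩
  · exact ⟨_, by rw [h.nat]; exact (h.only K).1, h.cov⟩
  · exact ⟨_, by rw [h.nat]; exact (h.only K).1, h.cov⟩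
  · exact h

/-- **Two bad tops**, `j = 12`. -/
theorem Fs.two_bad12 (F : Fs P 12 lo hi e N θ4 Nf θf D) (K : Ctx P r 12 lo hi e)
    (Y : Y4 r 12 K3 K' V3 N b θ3 θ4) {n : ℕ} (hn : n ≤ 127)
    {e' : P → ℕ} {F' : Finset P} (hV : Vd 4 e' F') (hs : ∑ x, e' x = n)
    (hok : Ew.Ok (rA N) (thA N θ4) e')
    (hcard : 1 < (El.KG (ED D) Nf (Gd12 lo hi e Nf θf) e').card) :
    n = 127 ∧ ∃ z, E2 12 lo hi e N Nf D z ∧ 7 ≤ e' z := by
  classical
  have HN := (F.ew K le_rfl Y).natSys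
  obtain ⟨t, ht, t', ht', hne⟩ := Finset.one_lt_card.mp hcard
  obtain ⟨z, hz⟩ := F.bad12 K Y hV hok ht
  obtain ⟨z', hz'⟩ := F.bad12 K Y hV hok ht'
  have hzn := hz.not_mem F K Y
  have hzn' := hz'.not_mem F K Y
  have hm : 59 ≤ ∑ y ∈ Nf t, e' y ∧ 5 ≤ e' z := by
    rcases hz with h | h | h
    · omega
    · omega
    · omega
  have hm' : 59 ≤ ∑ y ∈ Nf t', e' y ∧ 5 ≤ e' z' := by
    rcases hz' with h | h | h
    · omega
    · omega
    · omega
  by_cases hzz : z = z'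
  · subst hzz
    have h4 := Ew.sum_tops HN hne (A := {z}) (fun y hy s => by
      rw [mem_singleton] at hy
      rw [hy]; exact hzn s) e'
    rw [Finset.sum_singleton, hs] at h4
    obtain ⟨x, hx, hzx⟩ := hz.cover K
    obtain ⟨x', hx', hzx'⟩ := hz'.cover K
    rcases hz with ⟨h, -⟩ | ⟨h, h1⟩ | h
    · exact (h.no_join4 F K Y hne hzx' hx').elim
    · rcases hz' with ⟨g, -⟩ | ⟨g, g1⟩ | g
      · exact (g.no_join4 F K Y (Ne.symm hne) hzx hx).elim
      · refine ⟨by omega, z, ⟨t, t', hne, h, g⟩, by omega⟩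
      · exfalso
        omega
    · exfalso
      rcases hz' with ⟨g, -⟩ | ⟨g, g1⟩ | g
      · exact (g.no_join4 F K Y (Ne.symm hne) hzx hx).elim
      · omega
      · omega
  · exfalso
    have h4 := Ew.sum_tops HN hne (A := {z, z'}) (fun y hy s => by
      rw [mem_insert, mem_singleton] at hy
      rcases hy with hy | hy
      · rw [hy]; exact hzn s
      · rw [hy]; exact hzn' s) e'
    rw [Finset.sum_pair hzz, hs] at h4
    omega

/-- at most one bad top, `j = 12` -/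
theorem Fs.card_le_one12 (F : Fs P 12 lo hi e N θ4 Nf θf D) (K : Ctx P r 12 lo hi e)
    (Y : Y4 r 12 K3 K' V3 N b θ3 θ4) {n : ℕ}
    (hn : n ≤ 126 ∨ (n ≤ 127 ∧ ¬ ∃ z, E2 12 lo hi e N Nf D z))
    {e' : P → ℕ} {F' : Finset P} (hV : Vd 4 e' F') (hs : ∑ x, e' x = n)
    (hok : Ew.Ok (rA N) (thA N θ4) e') :
    (El.KG (ED D) Nf (Gd12 lo hi e Nf θf) e').card ≤ 1 := by
  by_contra hcon
  obtain ⟨h1, z, h2, -⟩ := F.two_bad12 K Y (by omega) hV hs hok (not_le.mp hcon)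
  rcases hn with h | h
  · omega
  · exact h.2 ⟨z, h2⟩

/-- **No join of two `E7` tops**, `j = 12`. -/
theorem Fs.no_E2_12 (F : Fs P 12 lo hi e N θ4 Nf θf D) (K : Ctx P r 12 lo hi e)
    (Y : Y4 r 12 K3 K' V3 N b θ3 θ4)
    (hdv : HDv P 127 1 N θ4 Nf D (Gd12 lo hi e Nf θf))
    (hmin : ∀ z ∈ bdR (rA N), 127 < cst 4 (hA N θ4) z) :
    ¬ ∃ z, E2 12 lo hi e N Nf D z := by
  classical
  rintro ⟨z0, hz0⟩
  have n4 : Ew.nbW 4 w7 12 5 4 = 2 := by decide
  have nh : Ew.nbW 4 w7 12 5 (4 + 7) = 1 := by decide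
  have hL : 4 ≤ (lv P 4).card := by
    have h1 := nab_le_card (P := P) 4 z0
    rw [hz0.nab K (by omega), n4] at h1
    exact h1
  obtain ⟨c0, hc0⟩ : ∃ c0, c0 + 2 = (lv P 4).card := ⟨(lv P 4).card - 2, by omega⟩
  have hmem : ∀ z t, HitE 12 lo hi e N Nf D t z 5 →
      t ∈ El.KG (ED D) Nf (Gd12 lo hi e Nf θf) (ez 4 (fun _ => 7) z) := by
    intro z t h
    have hl := h.lev
    have C := K.comp t
    have hx : e t 12 5 ∈ Nf t := by
      rw [h.fine]
      exact mem_lowPart.mpr ⟨C.le_t 12 5 le_rfl h.lo h.hi, (C.lev_e 12 5 le_rfl h.lo h.hi).le⟩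
    have h3 : 7 ≤ El.bl (univ \ Nf t) (ez 4 (fun _ => 7) z) (e t 12 5) := by
      have h4 := El.le_bl (A := univ \ Nf t) (e := ez 4 (fun _ => 7) z)
        (mem_sdiff.mpr ⟨mem_univ _, h.not_mem (F.ew K le_rfl Y).natSys C t⟩) h.cov
      rwa [ez_self (h := fun _ => 7) (by omega)] at h4
    rw [El.mem_KG]
    refine ⟨mem_ED.mpr h.dt, ?_⟩
    unfold El.GoodE Gd12
    rw [not_or, not_or]
    refine ⟨fun hg => ?_, ?_, ?_⟩
    · have h5 := hg _ hx
      have h6 : θf t E7t4 (e t 12 5) = E7t4 12 5 := by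
        rcases F.typ t with ⟨k1, k2, k3, k4, k5, k6, k7⟩ |
          ⟨c, Nc, co, k0, k1, k2, k3, k4, k5, k6, k7⟩ |
          ⟨k0, k1, k2, k3, k4, k5, k6, k7, k8⟩ | ⟨Nc, co, k0, k1, k2, k3, k4, k5, k6⟩
        · exact absurd h.dt k6
        · exact absurd h.dt k6
        · rw [k5]
          exact thC_e C E7t4 le_rfl h.lo h.hi
        · have := h.word.row
          omega
      have h7 : E7t4 12 5 = 4 := by decide
      omega
    · rintro ⟨-, -, g3, -⟩
      have := g3 _ hx rfl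
      omega
    · rintro ⟨-, -, g3, -⟩
      have := g3 _ hx rfl
      omega
  have key := F.part_zero K le_rfl Y hdv hmin (univ.filter (E2 12 lo hi e N Nf D)) (h2 := 7)
    (by norm_num)
    (fun z hz => by
      have := (mem_filter.mp hz).2.lev
      omega)
    (fun z hz => by
      rw [(mem_filter.mp hz).2.cst K (by norm_num), cst12.2.1])
    (fun z hz => by
      obtain ⟨t, t', hne, g1, g2⟩ := (mem_filter.mp hz).2
      rw [Finset.one_lt_card]
      exact ⟨t, hmem z t g1, t', hmem z t' g2, hne⟩)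
    (fun e' F' hV hs hok hcard => by
      obtain ⟨-, z, h1, h2⟩ := F.two_bad12 K Y le_rfl hV hs hok hcard
      refine ⟨z, mem_filter.mpr ⟨mem_univ _, h1⟩, ?_⟩
      have hl := h1.lev
      exact ez_le (h := fun _ => 7) hV (by omega) (Or.inr h2))
    (c0 := c0) (by omega)
    (fun z hz => by
      have h := (mem_filter.mp hz).2
      rw [h.nab K (by omega), h.nab K (by omega), n4, nh]
      omega)
  have h5 : (univ.filter (E2 12 lo hi e N Nf D)).filter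
      (fun z => c0 + nab 4 z = (lv P 4).card + nab (4 + 7) z) =
      univ.filter (E2 12 lo hi e N Nf D) := by
    refine Finset.filter_true_of_mem fun z hz => ?_
    have h := (mem_filter.mp hz).2
    rw [h.nab K (by omega), h.nab K (by omega), n4, nh]
    omega
  rw [h5, Finset.sum_congr rfl (g := fun _ => (1 : ℤ)) (fun z hz =>
    Even.neg_one_pow ((mem_filter.mp hz).2.nst K (by norm_num)))] at key
  simp only [Finset.sum_const, smul_eq_mul, mul_one, nsmul_eq_mul, Nat.cast_eq_zero,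
    Finset.card_eq_zero, Finset.filter_eq_empty_iff] at key
  exact key (mem_univ z0) hz0

end Pool.Agent.GaussPoset.Ec
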