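import Pool.Agent.W_448s7_h27.EwJ

/-!
Window `4`, `j = 16`: own elements of `E7` of level `17`, pairs of bad tops (MP_448cb3_co).
-/

namespace Pool.Agent.GaussPoset.Ec

set_option linter.unusedSectionVars false

open Polynomial Finset Sm Wd Cp W4 Cl

universe u

variable {P : Type u} [Fintype P] [PartialOrder P] [DecidableEq P] {r j : ℕ}
  {lo hi : Tops P → ℕ → ℕ} {e : Tops P → ℕ → ℕ → P} {N : Tops P → Finset P}
  {θ3 θ4 : Tops P → P → ℕ} {Nf : Tops P → Finset P} {θf : Tops P → (ℕ → ℕ → ℕ) → P → ℕ}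
  {D : Tops P → Prop} {K3 K' V3 : ℕ} {b : Tops P → ℕ}

/-- another top above a hit element -/
lemma HitE.other (K : Ctx P r j lo hi e) {t : Tops P} {z : P} {s : ℕ}
    (h : HitE j lo hi e N Nf D t z s) (hz : z ∉ onlyB t) : ∃ u : Tops P, u ≠ t ∧ z ≤ (u : P) := by
  rw [mem_onlyB] at hz
  push Not at hz
  obtain ⟨u, hu, hzu, hne⟩ := hz
  exact ⟨⟨u, hu⟩, fun h => hne (congrArg Subtype.val h), hzu⟩

/-- an element of level `j` between -/
lemma exists_row (K : Ctx P r j lo hi e) {z : P} (hl : lev z = j + 1) {u : Tops P}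
    (hzu : z ≤ (u : P)) : ∃ y, z ⋖ y ∧ y ≤ (u : P) ∧ lev y = j := by
  have hlt : z < (u : P) := by
    refine lt_of_le_of_ne hzu fun h => ?_
    have h2 : lev (u : P) = 0 := u.2
    rw [← h] at h2
    omega
  obtain ⟨y, hy, hyu⟩ := exists_covBy_le_of_lt hlt
  have h1 := (K.gt.H.covBy_iff.mp hy).2
  exact ⟨y, hy, hyu, by omega⟩

/-- the energy in the lower part of another top -/
lemma low_energy (K : Ctx P r j lo hi e) (hj : 4 ≤ j) {e' : P → ℕ} {F' : Finset P}
    (hV : Vd 4 e' F') {z : P} (hl : lev z = j + 1) {u : Tops P} (hzu : z ≤ (u : P)) {h : ℕ}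
    (hh : h ≤ e' z) :
    ∑ k ∈ range (j + 1), min h (k - 4) ≤ ∑ y ∈ lowPart j (u : P), e' y := by
  obtain ⟨y, hzy, hyu, hly⟩ := exists_row K hl hzu
  have H := K.gt.H
  have h1 := Ew.cst_le_sum hV hzy.1.le (by omega) (h := h) (Or.inr hh) (A := lowPart j (u : P))
    (mem_lowPart.mpr ⟨hyu, by omega⟩) (by
      intro x hx y hxy
      obtain ⟨g1, g2⟩ := mem_lowPart.mp hx
      have g3 := lev_anti hxy
      refine mem_lowPart.mpr ⟨?_, by omega⟩
      have g4 := top_eq H K.gt.good g2 (topOf y).2 u.2 (hxy.trans (le_topOf y)) g1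
      rw [← g4]
      exact le_topOf y)
  refine le_trans ?_ h1
  rw [cst_eq, hly]
  refine Finset.sum_le_sum fun k hk => ?_
  rw [mem_range] at hk
  have h2 := one_le_nab (l := k) (z := y) (by omega)
  calc min h (k - 4) = min h (k - 4) * 1 := (mul_one _).symm
    _ ≤ min h (k - 4) * nab k y := Nat.mul_le_mul_left _ h2

/-- lower parts of different tops are disjoint -/
lemma disj_low (K : Ctx P r j lo hi e) {u v : Tops P} (hne : u ≠ v) :
    Disjoint (lowPart j (u : P)) (lowPart j (v : P)) := by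
  rw [Finset.disjoint_left]
  intro x h1 h2
  obtain ⟨a1, a2⟩ := mem_lowPart.mp h1
  obtain ⟨b1, b2⟩ := mem_lowPart.mp h2
  exact hne (Subtype.ext (top_eq K.gt.H K.gt.good a2 u.2 v.2 a1 b1))

/-- own elements of `E7` of level `j + 1` -/
def Own (j : ℕ) (lo hi : Tops P → ℕ → ℕ) (e : Tops P → ℕ → ℕ → P)
    (N Nf : Tops P → Finset P) (D : Tops P → Prop) (z : P) : Prop :=
  ∃ t, HitE j lo hi e N Nf D t z 5 ∧ z ∈ onlyB t

lemma Own.nab (K : Ctx P r j lo hi e) (hrow : Row5 j) {z : P} (h : Own j lo hi e N Nf D z)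
    {k : ℕ} (hk : k ≤ j) : nab k z = Ew.nbW 4 w7 j 5 k := by
  obtain ⟨t, h1, h2⟩ := h
  have hl := h1.lev
  obtain ⟨r1, r2⟩ := h1.word.rows (K.comp t)
  have q1 := r1 j le_rfl
  have q2 := r2 j le_rfl
  have e1 := hrow.1
  have e2 := hrow.2
  have honly : ∀ y, z ⋖ y → y = e t j 5 := by
    intro y hy
    have h3 := (K.gt.H.covBy_iff.mp hy).2
    obtain ⟨s, a1, a2, a3⟩ := (K.comp t).surj y (onlyB_le (onlyB_up h2 hy.1.le)) (by omega)
    rw [show GaussPoset.lev y = j by omega] at a1 a2 a3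
    have hs : s = 5 := by omega
    rw [← a3, hs]
  rw [nab_only honly h1.cov (by omega), h1.nab K hk]

lemma Own.lev {z : P} (h : Own j lo hi e N Nf D z) : lev z = j + 1 := by
  obtain ⟨t, h1, -⟩ := h
  exact h1.lev

lemma Own.cst (K : Ctx P r j lo hi e) (hrow : Row5 j) {z : P} (h : Own j lo hi e N Nf D z) {k : ℕ}
    (hk : k + 4 ≤ j + 1) : cst 4 (fun _ => k) z = Ew.cstW 4 w7 j 5 4 k + k := by
  rw [cst_eq, Finset.sum_range_succ, nab_self, h.lev]
  unfold Ew.cstW
  rw [Finset.sum_congr rfl (g := fun i => min k (i - 4) *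
    Ew.nbW 4 w7 j 5 i) (fun i hi => by
      rw [mem_range] at hi
      rw [h.nab K hrow (by omega)])]
  rw [Nat.min_eq_left (by omega), mul_one]

lemma c16 : Ew.cstW 4 w7 16 5 4 9 = 112 ∧ Ew.nbW 4 w7 16 5 4 = 2 ∧ Ew.nbW 4 w7 16 5 13 = 1 ∧
    E7t4 16 5 + 1 = 9 ∧ ∑ k ∈ range (16 + 1), min 9 (k - 4) = 72 ∧ MinB 16 9 0 112 := by
  refine ⟨?_, ?_, ?_, ?_, ?_, ?_, ?_⟩ <;> decide +kernel

/-- **No own elements of `E7` of level `17`**, `j = 16`. -/
theorem Fs.no_own (F : Fs P 16 lo hi e N θ4 Nf θf D) (K : Ctx P r 16 lo hi e)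
    (Y : Y4 r 16 K3 K' V3 N b θ3 θ4) {tb : ℕ → ℕ → ℕ}
    (hdv : HDv P 121 0 N θ4 Nf D (Gd 16 9 0 lo hi e Nf θf tb))
    (hmin : ∀ z ∈ bdR (rA N), 121 < cst 4 (hA N θ4) z) :
    ¬ ∃ z, Own 16 lo hi e N Nf D z := by
  classical
  rintro ⟨z0, hz0⟩
  obtain ⟨k1, k2, k3, k4, k5, k6⟩ := c16
  have hL : 2 ≤ (lv P 4).card := by
    have h1 := nab_le_card (P := P) 4 z0
    rw [hz0.nab K row5_16 (by omega), k2] at h1
    exact h1
  obtain ⟨c0, hc0⟩ : ∃ c0, c0 + 1 = (lv P 4).card := ⟨(lv P 4).card - 1, by omega⟩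
  have key := F.part_zero K (by norm_num) Y hdv hmin (univ.filter (Own 16 lo hi e N Nf D))
    (h2 := 9) (by norm_num)
    (fun z hz => by
      have := (mem_filter.mp hz).2.lev
      omega)
    (fun z hz => by
      rw [(mem_filter.mp hz).2.cst K row5_16 (by norm_num), k1])
    (fun z hz => by
      obtain ⟨t, g1, g2⟩ := (mem_filter.mp hz).2
      have gl := g1.lev
      exact Finset.card_pos.mpr ⟨t, g1.mem_KG K F k4 le_rfl (by omega) (Or.inl rfl)⟩)
    (fun e' F' hV hs hok hcard => by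
      obtain ⟨t, ht⟩ := Finset.card_pos.mp hcard
      rcases F.bad_cases K (by norm_num) Y row5_16 (cS := 144) de_16 k4 (Or.inr rfl) hV hok ht
        with ⟨z, hz⟩ | h1
      · have hl := hz.hit.lev
        by_cases hzB : z ∈ onlyB t
        · refine ⟨z, mem_filter.mpr ⟨mem_univ _, t, hz.hit, hzB⟩, ?_⟩
          exact ez_le (h := fun _ => 9) hV (by omega) (Or.inr hz.le)
        · exfalso
          obtain ⟨u, hu, hzu⟩ := hz.hit.other K hzB
          have g1 := low_energy K (by norm_num) hV hl hzu hz.le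
          have g2 := hz.cst _ hz.le
          rw [k5] at g1
          rw [k1, hz.hit.fine] at g2
          have g3 : ∑ y ∈ lowPart 16 (u : P), e' y + ∑ y ∈ lowPart 16 (t : P), e' y ≤
              ∑ x, e' x := by
            rw [← Finset.sum_union (disj_low K hu)]
            exact Finset.sum_le_sum_of_subset (Finset.subset_univ _)
          omega
      · exfalso
        have g3 : ∑ y ∈ Nf t, e' y ≤ ∑ x, e' x :=
          Finset.sum_le_sum_of_subset (Finset.subset_univ _)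
        omega)
    (c0 := c0) (by omega)
    (fun z hz => by
      have h := (mem_filter.mp hz).2
      rw [h.nab K row5_16 (by omega), h.nab K row5_16 (by omega), k2, k3]
      omega)
  have h5 : (univ.filter (Own 16 lo hi e N Nf D)).filter
      (fun z => c0 + nab 4 z = (lv P 4).card + nab (4 + 9) z) =
      univ.filter (Own 16 lo hi e N Nf D) := by
    refine Finset.filter_true_of_mem fun z hz => ?_
    have h := (mem_filter.mp hz).2
    rw [h.nab K row5_16 (by omega), h.nab K row5_16 (by omega), k2, k3]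
    omega
  have h6 : ∀ z ∈ univ.filter (Own 16 lo hi e N Nf D), nst 4 (fun _ => 9) z =
      ∑ i ∈ range 9, Ew.nbW 4 w7 16 5 (4 + i) := by
    intro z hz
    rw [nst_eq]
    refine Finset.sum_congr rfl fun i hi => ?_
    rw [mem_range] at hi
    exact (mem_filter.mp hz).2.nab K row5_16 (by omega)
  rw [h5, Finset.sum_congr rfl (g := fun _ => (-1 : ℤ) ^ (∑ i ∈ range 9,
    Ew.nbW 4 w7 16 5 (4 + i))) (fun z hz => by rw [h6 z hz]), Finset.sum_const] at key
  have h7 := Finset.card_pos.mpr ⟨z0, mem_filter.mpr ⟨mem_univ z0, hz0⟩⟩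
  rw [smul_eq_zero] at key
  rcases key with key | key
  · omega
  · exact absurd key (pow_ne_zero _ (by norm_num))

/-- at most one bad top, `j = 16`, without own elements of level `17` and without joins of two
`E7` tops -/
theorem Fs.card_le_one16 (F : Fs P 16 lo hi e N θ4 Nf θf D) (K : Ctx P r 16 lo hi e)
    (Y : Y4 r 16 K3 K' V3 N b θ3 θ4) {tb : ℕ → ℕ → ℕ} {n : ℕ} (hn : n < 256)
    (hO : ¬ ∃ z, Own 16 lo hi e N Nf D z) (hE : ¬ ∃ z, E2 16 lo hi e N Nf D z)
    {e' : P → ℕ} {F' : Finset P} (hV : Vd 4 e' F') (hs : ∑ x, e' x = n)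
    (hok : Ew.Ok (rA N) (thA N θ4) e') :
    (El.KG (ED D) Nf (Gd 16 9 0 lo hi e Nf θf tb) e').card ≤ 1 := by
  classical
  by_contra hcon
  obtain ⟨k1, k2, k3, k4, k5, k6⟩ := c16
  obtain ⟨t, t', z, z', hne, h1, h2, h3, h4⟩ := F.two_bad K (by norm_num) Y row5_16 (cS := 144)
    de_16 k4 (Or.inr rfl) k6 (by omega) (by omega) hV hs hok (not_le.mp hcon)
  have hl := h1.hit.lev
  have hzB : z ∉ onlyB t := fun h => hO ⟨z, t, h1.hit, h⟩
  obtain ⟨u, hu, hzu⟩ := h1.hit.other K hzB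
  have hut : u ≠ t' := by
    rintro rfl
    obtain ⟨y, hzy, hyu, hly⟩ := exists_row K hl hzu
    obtain ⟨r1, r2⟩ := h2.hit.word.rows (K.comp u)
    have q1 := r1 16 le_rfl
    have q2 := r2 16 le_rfl
    have e1 := row5_16.1
    have e2 := row5_16.2
    obtain ⟨s, a1, a2, a3⟩ := (K.comp u).surj y hyu (by omega)
    rw [hly] at a1 a2 a3
    have hs5 : s = 5 := by omega
    subst hs5
    exact hE ⟨z, t, u, hne, h1.hit, ⟨h2.hit.dt, h2.hit.word, h2.hit.nat, h2.hit.fine, hl, a1, a2,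
      by rw [a3]; exact hzy⟩⟩
  have g1 := low_energy K (by norm_num) hV hl hzu h1.le
  have g2 := h1.cst _ h1.le
  have g2' := h2.cst _ h2.le
  rw [k5] at g1
  rw [k1, h1.hit.fine] at g2
  rw [k1, h2.hit.fine] at g2'
  have g3 : ∑ y ∈ lowPart 16 (u : P), e' y + (∑ y ∈ lowPart 16 (t : P), e' y +
      ∑ y ∈ lowPart 16 (t' : P), e' y) ≤ ∑ x, e' x := by
    rw [← Finset.sum_union (disj_low K hne), ← Finset.sum_union]
    · exact Finset.sum_le_sum_of_subset (Finset.subset_univ _)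
    · rw [Finset.disjoint_union_right]
      exact ⟨disj_low K hu, disj_low K hut⟩
  omega

end Pool.Agent.GaussPoset.Ec
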