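import Pool.Agent.W_448s7s_h5.SpC
import Pool.Agent.W_448e_h97.EB

/-!
Components with one element on the level `j` have no joins of level `j + 1` among themselves, if
there are no other joins of level `j + 1` (MP_448cb3_co).
-/

namespace Pool.Agent.GaussPoset.Ec

set_option linter.unusedSectionVars false

open Finset Sm Wd Cp

universe u

variable {P : Type u} [Fintype P] [PartialOrder P] [DecidableEq P] {r j : ℕ}
  {lo hi : Tops P → ℕ → ℕ} {e : Tops P → ℕ → ℕ → P}

open Classical in
/-- all tops in `T` are one class -/
noncomputable def kT (T : Tops P → Prop) (x : P) : Option (Tops P) :=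
  if T (topOf x) then none else some (topOf x)

/-- **No joins among tops with one element on the level `j`.** -/
theorem no_single (K : Ctx P r j lo hi e) (T : Tops P → Prop)
    (hrow : ∀ t, T t → lo t j = hi t j)
    (hall : ∀ z x x' : P, Cg z x x' → lev z = j + 1 → T (topOf x) ∧ T (topOf x')) :
    ∀ z x x' : P, Cg z x x' → lev z ≠ j + 1 := by
  classical
  intro z x x' hc hlz
  have H := K.gt.H
  have hg := K.gt.good
  have h5 := K.h5
  have htop : ∀ {y : P} {s : P}, lev y ≤ j → lev s = 0 → y ≤ s → (topOf y : P) = s :=
    fun {y s} hy hs hys => top_eq H hg hy (topOf y).2 hs (le_topOf y) hys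
  have honly : ∀ {y : P}, lev y ≤ j → y ∈ onlyB (topOf y) := by
    intro y hy
    rw [mem_onlyB]
    intro s hs hys
    exact (htop hy hs hys).symm
  have hκ : Win.Split (j + 1) (kT T) := by
    intro x y hxy hx
    have e1 := (H.covBy_iff.mp hxy).2
    have hy : lev y ≤ j := by omega
    by_cases ht : topOf x = topOf y
    · unfold kT
      rw [ht]
    · have hlt : x < (topOf x : P) := by
        refine lt_of_le_of_ne (le_topOf x) fun h => ?_
        have h2 : lev (topOf x : P) = 0 := (topOf x).2
        rw [← h] at h2
        omega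
      obtain ⟨y2, hy2, hy2t⟩ := exists_covBy_le_of_lt hlt
      have e2 := (H.covBy_iff.mp hy2).2
      have hy2l : lev y2 ≤ j := by omega
      have e3 : topOf y2 = topOf x := Subtype.ext (htop hy2l (topOf x).2 hy2t)
      have hlx : lev x = j + 1 := by
        by_contra hcon
        have e4 := htop (y := x) (s := (topOf y : P)) (by omega) (topOf y).2
          (hxy.1.le.trans (le_topOf y))
        exact ht (Subtype.ext e4)
      have hcg : Cg x y2 y := Cg.mk' hy2 hxy (honly hy2l) (honly hy) (by rw [e3]; exact ht)
      obtain ⟨g1, g2⟩ := hall x y2 y hcg hlx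
      rw [e3] at g1
      unfold kT
      rw [if_pos g1, if_pos g2]
  have key := EK.sum_sgn H K.gt.hr hκ none
  have h1 : ∀ y ∈ (Win.dbL P j ∪ Win.dbU P j).filter (fun x => kT T x = none),
      y ∈ Win.dbL P j := by
    intro y hy
    obtain ⟨hy1, hy2⟩ := mem_filter.mp hy
    rcases mem_union.mp hy1 with h | h
    · exact h
    · exfalso
      unfold Win.dbU at h
      rw [mem_filter] at h
      obtain ⟨-, g1, g2⟩ := h
      have hT : T (topOf y) := by
        by_contra hcon
        unfold kT at hy2
        rw [if_neg hcon] at hy2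
        exact absurd hy2 (by simp)
      obtain ⟨a, b, hab, hd⟩ := Finset.card_eq_two.mp g2
      have hpos : ∀ v ∈ Win.dc y, v = e (topOf y) j (lo (topOf y) j) := by
        intro v hv
        have hv' := Win.mem_dc.mp hv
        have e2 := (H.covBy_iff.mp hv').2
        obtain ⟨s, a1, a2, a3⟩ := (K.comp (topOf y)).surj v (hv'.1.le.trans (le_topOf y))
          (by omega)
        rw [show lev v = j by omega] at a1 a2 a3
        have := hrow _ hT
        rw [← a3, show s = lo (topOf y) j by omega]
      have ha := hpos a (by rw [hd]; simp)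
      have hb := hpos b (by rw [hd]; simp)
      exact hab (ha.trans hb.symm)
  rw [Finset.sum_congr rfl (g := fun _ => (1 : ℤ)) (fun y hy => EK.sgn_low (h1 y hy))] at key
  simp only [Finset.sum_const, smul_eq_mul, mul_one, nsmul_eq_mul, Nat.cast_eq_zero,
    Finset.card_eq_zero, Finset.filter_eq_empty_iff] at key
  obtain ⟨g1, g2⟩ := hall z x x' hc hlz
  have e1 := (H.covBy_iff.mp hc.cov).2
  have hzL : z ∈ Win.dbL P j := by
    unfold Win.dbL
    rw [mem_filter]
    refine ⟨mem_univ _, hlz, ?_⟩
    have h2 := Win.uc_card_le H z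
    have h3 : ({x, x'} : Finset P) ⊆ Win.uc z := by
      intro y hy
      rw [mem_insert, mem_singleton] at hy
      rcases hy with rfl | rfl
      · exact Win.mem_uc.mpr hc.cov
      · exact Win.mem_uc.mpr hc.cov'
    have h4 := Finset.card_le_card h3
    rw [Finset.card_pair (by rintro rfl; exact hc.ne rfl)] at h4
    omega
  refine key (mem_union_left _ hzL) ?_
  rw [hκ hc.cov hlz.le]
  unfold kT
  rw [if_pos g1]

end Pool.Agent.GaussPoset.Ec
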