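import Pool.Agent.W_448s7_h27.EwL

/-!
Windows with defect tops: a hit top does no harm as long as its own energy is small
(MP_448cb3_co).
-/

namespace Pool.Agent.GaussPoset.El

set_option linter.unusedSectionVars false

open Polynomial Finset Ew

universe u

variable {P : Type u} [Fintype P] [PartialOrder P] [DecidableEq P]
variable {i : ℕ} {N N1 : Tops P → Finset P} {b : Tops P → ℕ} {θ θ1 : Tops P → P → ℕ}
  {E S : Finset (Tops P)} {Y : Finset P} {τ : P → P}

open Classical in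
/-- the largest label directly below `x` in `A` -/
noncomputable def bl (A : Finset P) (e : P → ℕ) (x : P) : ℕ := (A.filter (fun z => z ⋖ x)).sup e

lemma le_bl {A : Finset P} {e : P → ℕ} {z x : P} (hz : z ∈ A) (hzx : z ⋖ x) : e z ≤ bl A e x := by
  classical
  exact Finset.le_sup (f := e) (mem_filter.mpr ⟨hz, hzx⟩)

lemma bl_le {A : Finset P} {e : P → ℕ} {x : P} {c : ℕ} (h : ∀ z ∈ A, z ⋖ x → e z ≤ c) :
    bl A e x ≤ c := by
  classical
  exact Finset.sup_le fun z hz => h z (mem_filter.mp hz).1 (mem_filter.mp hz).2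

lemma bl_congr {A A' : Finset P} {e : P → ℕ} {x : P} (h : ∀ z, z ⋖ x → (z ∈ A ↔ z ∈ A')) :
    bl A e x = bl A' e x := by
  classical
  unfold bl
  congr 1
  ext z
  simp only [mem_filter]
  exact ⟨fun g => ⟨(h z g.2).mp g.1, g.2⟩, fun g => ⟨(h z g.2).mpr g.1, g.2⟩⟩

/-- the fine component `t` with the labels and the energy of `e` is good -/
def GoodE (N : Tops P → Finset P) (good : Tops P → (P → ℕ) → ℕ → Prop) (e : P → ℕ)
    (t : Tops P) : Prop := good t (bl (univ \ N t) e) (∑ x ∈ N t, e x)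

open Classical in
/-- the bad tops -/
noncomputable def KG (E : Finset (Tops P)) (N : Tops P → Finset P)
    (good : Tops P → (P → ℕ) → ℕ → Prop) (e : P → ℕ) : Finset (Tops P) :=
  E.filter (fun t => ¬ GoodE N good e t)

lemma mem_KG {good : Tops P → (P → ℕ) → ℕ → Prop} {e : P → ℕ} {t : Tops P} :
    t ∈ KG E N good e ↔ t ∈ E ∧ ¬ GoodE N good e t := by
  classical
  unfold KG
  rw [mem_filter]

/-- the condition of the component `t` in the system `S` -/
def GS (E : Finset (Tops P)) (N N1 : Tops P → Finset P) (θ θ1 : Tops P → P → ℕ) (Y : Finset P)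
    (τ : P → P) (good : Tops P → (P → ℕ) → ℕ → Prop) (S : Finset (Tops P)) (t : Tops P)
    (β : P → ℕ) (m : ℕ) : Prop :=
  (t ∈ E ∧ t ∉ S → good t β m) ∧ (¬ (t ∈ E ∧ t ∉ S) → ∀ x, x ∉ RS E N N1 Y S → topOf x = t →
    β x ≤ Ew.thS E θ θ1 Y τ S x)

open Classical in
/-- the allowed configurations of the system `S` -/
def Allowed (E : Finset (Tops P)) (N N1 : Tops P → Finset P) (θ θ1 : Tops P → P → ℕ)
    (Y : Finset P) (τ : P → P) (good : Tops P → (P → ℕ) → ℕ → Prop) (S : Finset (Tops P))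
    (e : P → ℕ) (F : Finset P) : Prop :=
  (∀ z ∈ RS E N N1 Y S, z ∉ F) ∧ ∀ t, GS E N N1 θ θ1 Y τ good S t (bl (RS E N N1 Y S) e)
    (∑ x ∈ univ.filter (fun x => x ∉ RS E N N1 Y S ∧ topOf x = t), e x)

section

variable (W : EL i E N N1 θ θ1 Y τ)

include W

/-- the part of a fine defect top -/
lemma EL.part_iff (hS : S ⊆ E) {t : Tops P} (htE : t ∈ E) (htS : t ∉ S) {x : P} :
    (x ∉ RS E N N1 Y S ∧ topOf x = t) ↔ x ∈ N t := by
  have HS := W.natSysS hS
  constructor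
  · rintro ⟨h1, h2⟩
    have h3 : x ∉ unnat (NS N N1 S) := by
      intro h
      refine h1 (mem_sdiff.mpr ⟨h, fun hY => ?_⟩)
      rcases (mem_YS.mp hY).2 with h' | h'
      · exact h' (h2 ▸ htE)
      · exact htS (h2 ▸ h')
    have h4 := HS.mem_iff.mpr ⟨h3, h2⟩
    rwa [NS_not htS] at h4
  · intro h
    have h' : x ∈ NS N N1 S t := by rw [NS_not htS]; exact h
    exact ⟨fun h1 => (HS.mem_iff.mp h').1 (mem_sdiff.mp h1).1, HS.topOf_eq h'⟩

lemma EL.bl_part (hS : S ⊆ E) {t : Tops P} (htE : t ∈ E) (htS : t ∉ S) {e : P → ℕ} {x : P}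
    (hx : x ∈ N t) : bl (RS E N N1 Y S) e x = bl (univ \ N t) e x := by
  refine bl_congr fun z hzx => ?_
  rw [mem_sdiff]
  constructor
  · intro h
    exact ⟨mem_univ _, fun h' => ((W.part_iff hS htE htS).mpr h').1 h⟩
  · intro h
    exact (W.far_of_cov hS htE htS hzx hx h.2).1

/-- labels at most the thresholds keep the far set off the filter -/
lemma EL.off (hS : S ⊆ E) {e : P → ℕ} {F : Finset P} (hV : Vd i e F)
    (hok : Ok (RS E N N1 Y S) (Ew.thS E θ θ1 Y τ S) e) : ∀ z ∈ RS E N N1 Y S, z ∉ F := by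
  intro z hz hzF
  have hne : (topOf z : P) ∉ RS E N N1 Y S := by
    intro h
    have h2 : lev (topOf z : P) = 0 := (topOf z).2
    have h3 := W.lev_RS hS _ h
    omega
  obtain ⟨x1, x2, f1, f2, f3, f4, f5⟩ := exists_exit hz hne (le_topOf z)
  have h1 := hok x1 f2 x2 f4 f3
  have h2 := W.th_le hS f4
  have h3 := sub_le_of_mem hV (hV.1 z x1 f1 hzF)
  have h4 := W.gr.lev_covBy f3
  have h5 := W.lev_RS hS x1 f2
  omega

/-- **The equivalence with energies.** -/
theorem EL.allowed_iff (hS : S ⊆ E) {good : Tops P → (P → ℕ) → ℕ → Prop}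
    (hloc : ∀ t ∈ E, ∀ β β' : P → ℕ, (∀ x ∈ N t, β x = β' x) → ∀ m, good t β m → good t β' m)
    (hcap : ∀ t ∈ E, ∀ β m, good t β m → ∀ x ∈ N t, β x ≤ θ t x)
    {e : P → ℕ} {F : Finset P} (hV : Vd i e F) :
    Allowed E N N1 θ θ1 Y τ good S e F ↔
      (Ok (RS E N N1 Y E) (Ew.thS E θ θ1 Y τ E) e ∧ KG E N good e ⊆ S) := by
  classical
  have hth : ∀ t ∈ E, t ∉ S → ∀ x ∈ N t, Ew.thS E θ θ1 Y τ S x = θ t x := by
    intro t htE htS x hx
    obtain ⟨h1, h2⟩ := (W.part_iff hS htE htS).mpr hx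
    have hxY : x ∉ YS E Y S := by
      intro h
      rcases (mem_YS.mp h).2 with h' | h'
      · exact h' (h2 ▸ htE)
      · exact htS (h2 ▸ h')
    unfold Ew.thS
    rw [thX_not hxY, h2, tS_not htS]
  have hsum : ∀ t ∈ E, t ∉ S → ∑ x ∈ univ.filter (fun x => x ∉ RS E N N1 Y S ∧ topOf x = t), e x =
      ∑ x ∈ N t, e x := by
    intro t htE htS
    refine Finset.sum_congr ?_ (fun _ _ => rfl)
    ext x
    rw [mem_filter]
    exact ⟨fun h => (W.part_iff hS htE htS).mp h.2,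
      fun h => ⟨mem_univ _, (W.part_iff hS htE htS).mpr h⟩⟩
  constructor
  · rintro ⟨h1, h2⟩
    have hok : Ok (RS E N N1 Y S) (Ew.thS E θ θ1 Y τ S) e := by
      intro z hz x hx hzx
      refine (le_bl hz hzx).trans ?_
      by_cases ht : topOf x ∈ E ∧ topOf x ∉ S
      · have hxN := (W.part_iff hS ht.1 ht.2).mp ⟨hx, rfl⟩
        rw [hth _ ht.1 ht.2 x hxN]
        exact hcap _ ht.1 _ _ ((h2 (topOf x)).1 ht) x hxN
      · exact (h2 (topOf x)).2 ht x hx rfl
    refine ⟨((W.ok_iff_S hS hV).mp hok).1, fun t ht => ?_⟩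
    rw [mem_KG] at ht
    by_contra htS
    refine ht.2 ?_
    have h3 := (h2 t).1 ⟨ht.1, htS⟩
    rw [hsum t ht.1 htS] at h3
    exact hloc t ht.1 _ _ (fun x hx => W.bl_part hS ht.1 htS hx) _ h3
  · rintro ⟨h1, h2⟩
    have hgood : ∀ t ∈ E, t ∉ S → GoodE N good e t := by
      intro t ht htS
      by_contra hcon
      exact htS (h2 (mem_KG.mpr ⟨ht, hcon⟩))
    have hKE : KE E N θ e ⊆ S := by
      intro t ht
      obtain ⟨htE, z, x, hzx, hx, hz, hlt⟩ := mem_KE.mp ht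
      by_contra htS
      have h3 := hcap t htE _ _ (hgood t htE htS) x hx
      have h4 : e z ≤ bl (univ \ N t) e x := le_bl (mem_sdiff.mpr ⟨mem_univ _, hz⟩) hzx
      omega
    have hok := (W.ok_iff_S hS hV).mpr ⟨h1, hKE⟩
    refine ⟨W.off hS hV hok, fun t => ⟨fun ht => ?_, fun _ x hx _ => bl_le fun z hz hzx =>
      hok z hz x hx hzx⟩⟩
    rw [hsum t ht.1 ht.2]
    exact hloc t ht.1 _ _ (fun x hx => (W.bl_part hS ht.1 ht.2 hx).symm) _ (hgood t ht.1 ht.2)

end

end Pool.Agent.GaussPoset.El
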