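import Pool.Agent.W_448pg_h74.Gh
import Pool.Agent.W_448s7_h27.EwN
import Pool.Agent.W_448s7_h27.EwM
import Pool.Agent.W_448bf_h61.BE

/-!
Window `4`: divisibility of the sums with soft defects (MP_448cb3_co, S7).
-/

namespace Pool.Agent.GaussPoset.Ec

set_option linter.unusedSectionVars false

open Polynomial Finset Sm Wd Cp W4 Cl

universe u

variable {P : Type u} [Fintype P] [PartialOrder P] [DecidableEq P] {r j : ℕ}
  {lo hi : Tops P → ℕ → ℕ} {e : Tops P → ℕ → ℕ → P} {N : Tops P → Finset P}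
  {θ3 θ4 : Tops P → P → ℕ} {Nf : Tops P → Finset P} {θf : Tops P → (ℕ → ℕ → ℕ) → P → ℕ}
  {D : Tops P → Prop} {K3 K' V3 : ℕ} {b : Tops P → ℕ}

theorem Fs.hdv_of (F : Fs P j lo hi e N θ4 Nf θf D) (K : Ctx P r j lo hi e) (h12 : 12 ≤ j)
    (Y : Y4 r j K3 K' V3 N b θ3 θ4) {tb : ℕ → ℕ → ℕ} (htb : TbOK tb) {n d : ℕ}
    {good : Tops P → (P → ℕ) → ℕ → Prop}
    (hloc : ∀ t ∈ ED D, ∀ β β' : P → ℕ, (∀ x ∈ Nf t, β x = β' x) → ∀ m, good t β m → good t β' m)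
    (hcap : ∀ t ∈ ED D, ∀ β m, good t β m → ∀ x ∈ Nf t, β x ≤ θf t tb x)
    (hgood : ∀ t ∈ ED D, ∀ β m, m ≤ n → good t β m → (∀ x ∈ Nf t, β x ≤ θf t E7t4 x) ∨
      (1 + X : ℤ[X]) ^ (hi t 4 - lo t 4 + 1) ∣
        ZB (P := {x : P // x ∈ Nf t}) 4 ∅ 0 (fun x => β x) m)
    (htw : ∀ x ∈ twA N, n < tcst 4 (thA N θ4) (twT N x, x)) :
    HDv P n d N θ4 Nf D good := by
  intro S hS hd
  exact (pow_dvd_pow _ (by omega)).trans (F.graded K h12 Y htb hloc hcap hgood htw hS)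

/-- larger tables have larger thresholds -/
lemma Fs.th_mono (F : Fs P j lo hi e N θ4 Nf θf D) (t : Tops P) {tb tb' : ℕ → ℕ → ℕ}
    (h : ∀ k s, k ≤ j → tb k s ≤ tb' k s) {x : P} (hx : x ∈ Nf t) (hxj : lev x ≤ j) :
    θf t tb x ≤ θf t tb' x := by
  rcases F.typ t with ⟨k1, k2, k3, k4, k5, k6, k7⟩ | ⟨c, Nc, co, k0, k1, k2, k3, k4, k5, k6, k7⟩ |
    ⟨k0, k1, k2, k3, k4, k5, k6, k7, k8⟩ | ⟨Nc, co, k0, k1, k2, k3, k4, k5, k6⟩
  · rw [k5]
  · rw [k5]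
  · rw [k5]
    exact h _ _ hxj
  · rw [k5]

/-- the part of an `E7` top -/
lemma Fs.word (F : Fs P j lo hi e N θ4 Nf θf D) (K : Ctx P r j lo hi e) {t : Tops P}
    (hD : D t) (hw : WordD j 4 w7 (lo t) (hi t)) :
    Nf t = lowPart j (t : P) ∧ θf t = (fun tb => thC (lo t) (hi t) (e t) tb) ∧
      hi t 4 - lo t 4 + 1 = 2 ∧ j ≤ 16 := by
  rcases F.typ t with ⟨k1, k2, k3, k4, k5, k6, k7⟩ | ⟨c, Nc, co, k0, k1, k2, k3, k4, k5, k6, k7⟩ |
    ⟨k0, k1, k2, k3, k4, k5, k6, k7, k8⟩ | ⟨Nc, co, k0, k1, k2, k3, k4, k5, k6⟩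
  · exact absurd hD k6
  · exact absurd hD k6
  · exact ⟨k4, k5, k3, k8⟩
  · have := hw.row
    omega

lemma thC_le {lo hi : ℕ → ℕ} {e : ℕ → ℕ → P} {tb : ℕ → ℕ → ℕ} {t : P} {c : ℕ}
    (h : ∀ k s, k ≤ j → tb k s ≤ c) {x : P} (hx : x ∈ lowPart j t) : thC lo hi e tb x ≤ c :=
  h _ _ (mem_lowPart.mp hx).2

lemma Gd.loc {p1 M : ℕ} {tb : ℕ → ℕ → ℕ} (t : Tops P) (β β' : P → ℕ)
    (h : ∀ x ∈ Nf t, β x = β' x) (m : ℕ) (hg : Gd j p1 M lo hi e Nf θf tb t β m) :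
    Gd j p1 M lo hi e Nf θf tb t β' m := by
  rcases hg with h1 | ⟨h1, h2, h3, h4⟩
  · exact Or.inl fun x hx => h x hx ▸ h1 x hx
  · exact Or.inr ⟨h1, fun x hx => h x hx ▸ h2 x hx, fun x hx hxe => h x hx ▸ h3 x hx hxe, h4⟩

lemma Gd12.loc (t : Tops P) (β β' : P → ℕ)
    (h : ∀ x ∈ Nf t, β x = β' x) (m : ℕ) (hg : Gd12 lo hi e Nf θf t β m) :
    Gd12 lo hi e Nf θf t β' m := by
  rcases hg with h1 | ⟨h1, h2, h3, h4⟩ | ⟨h1, h2, h3, h4⟩
  · exact Or.inl fun x hx => h x hx ▸ h1 x hx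
  · exact Or.inr (Or.inl ⟨h1, fun x hx => h x hx ▸ h2 x hx, fun x hx hxe => h x hx ▸ h3 x hx hxe,
      h4⟩)
  · exact Or.inr (Or.inr ⟨h1, fun x hx => h x hx ▸ h2 x hx, fun x hx hxe => h x hx ▸ h3 x hx hxe,
      h4⟩)

/-- plain labels are below every larger table -/
lemma Fs.cap (F : Fs P j lo hi e N θ4 Nf θf D) {t : Tops P} (hD : D t)
    {tb tb' : ℕ → ℕ → ℕ} (h : ∀ k s, k ≤ j → tb k s ≤ tb' k s) {β : P → ℕ}
    (hβ : ∀ x ∈ Nf t, β x ≤ θf t tb x) : ∀ x ∈ Nf t, β x ≤ θf t tb' x := by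
  intro x hx
  refine (hβ x hx).trans ?_
  rcases F.typ t with ⟨k1, k2, k3, k4, k5, k6, k7⟩ | ⟨c, Nc, co, k0, k1, k2, k3, k4, k5, k6, k7⟩ |
    ⟨k0, k1, k2, k3, k4, k5, k6, k7, k8⟩ | ⟨Nc, co, k0, k1, k2, k3, k4, k5, k6⟩
  · rw [k5]
  · rw [k5]
  · rw [k5]
    rw [k4] at hx
    exact h _ _ (mem_lowPart.mp hx).2
  · rw [k5]

/-- the bounds on the part of an `E7` top -/
def HBF (P : Type u) [Fintype P] [PartialOrder P] [DecidableEq P] (j : ℕ)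
    (lo hi : Tops P → ℕ → ℕ) (e : Tops P → ℕ → ℕ → P) (c p1 M : ℕ) : Prop :=
  ∀ t : Tops P, WordD j 4 w7 (lo t) (hi t) → ∀ B : {x : P // x ∈ lowPart j (t : P)} → ℕ,
    (∀ x, B x ≤ c) → (∀ x : {x : P // x ∈ lowPart j (t : P)}, (x : P) = e t j 5 → B x = p1) →
    ∀ m, m < M → (1 + X : ℤ[X]) ^ 2 ∣ ZB 4 ∅ 0 B m

lemma ZB_part {A A' : Finset P} (h : A = A') (β : P → ℕ) (m : ℕ) {b : ℕ}
    (h1 : (1 + X : ℤ[X]) ^ b ∣ ZB (P := {x : P // x ∈ A'}) 4 ∅ 0 (fun x => β x) m) :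
    (1 + X : ℤ[X]) ^ b ∣ ZB (P := {x : P // x ∈ A}) 4 ∅ 0 (fun x => β x) m := by
  subst h
  exact h1

/-- **Divisibility with the graded labels `Gd`.** -/
theorem Fs.hdv_Gd (F : Fs P j lo hi e N θ4 Nf θf D) (K : Ctx P r j lo hi e) (h12 : 12 ≤ j)
    (Y : Y4 r j K3 K' V3 N b θ3 θ4) {tb : ℕ → ℕ → ℕ} {n d p1 M : ℕ}
    (htb : TbOK tb) (hm : ∀ k s, k ≤ j → E7t4 k s ≤ tb k s)
    {c : ℕ} (hc : ∀ k s, k ≤ j → tb k s ≤ c) (hbf : HBF P j lo hi e c p1 M)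
    (htw : ∀ x ∈ twA N, n < tcst 4 (thA N θ4) (twT N x, x)) :
    HDv P n d N θ4 Nf D (Gd j p1 M lo hi e Nf θf tb) := by
  refine F.hdv_of K h12 Y htb (fun t _ β β' h m hg => Gd.loc t β β' h m hg) ?_ ?_ htw
  · intro t ht β m hg
    rcases hg with h1 | ⟨h1, h2, h3, h4⟩
    · exact F.cap (mem_ED.mp ht) hm h1
    · exact h2
  · intro t ht β m hmn hg
    rcases hg with h1 | ⟨h1, h2, h3, h4⟩
    · exact Or.inl h1
    · right
      obtain ⟨k1, k2, k3, k4⟩ := F.word K (mem_ED.mp ht) h1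
      rw [k3]
      refine ZB_part k1 β m (hbf t h1 _ (fun x => ?_) (fun x hx => ?_) m h4)
      · have := h2 x (by rw [k1]; exact x.2)
        rw [k2] at this
        exact this.trans (thC_le hc x.2)
      · exact h3 x (by rw [k1]; exact x.2) hx

/-- **Divisibility with the graded labels `Gd12`.** -/
theorem Fs.hdv_Gd12 (F : Fs P 12 lo hi e N θ4 Nf θf D) (K : Ctx P r 12 lo hi e)
    (Y : Y4 r 12 K3 K' V3 N b θ3 θ4) {n d : ℕ}
    (htw : ∀ x ∈ twA N, n < tcst 4 (thA N θ4) (twT N x, x)) :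
    HDv P n d N θ4 Nf D (Gd12 lo hi e Nf θf) := by
  have H := K.gt.H
  have hg : ∀ l, l < 12 → Win.Good P l := fun l hl => K.gt.good l (by omega)
  have e1 : ∀ k s, k ≤ 12 → E7t4 k s ≤ tb12 6 k s := by
    intro k s hk
    unfold tb12
    split_ifs with h
    · subst h
      unfold E7t4
      simp only [tab]
      split_ifs <;> omega
    · exact le_rfl
  have e2 : TbOK (tb12 6) := by
    intro k s
    have := tbOK_E7t4 k s
    unfold tb12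
    split_ifs with h
    · omega
    · exact this
  have e3 : ∀ p k s, 5 ≤ p → k ≤ 12 → tb12 p k s ≤ p := by
    intro p k s hp hk
    unfold tb12
    split_ifs with h
    · exact le_rfl
    · unfold E7t4
      simp only [tab]
      split_ifs <;> omega
  have e4 : ∀ k s, k ≤ 12 → tb12 5 k s ≤ tb12 6 k s := by
    intro k s hk
    unfold tb12
    split_ifs with h
    · omega
    · exact le_rfl
  refine F.hdv_of K le_rfl Y e2 (fun t _ β β' h m hg => Gd12.loc t β β' h m hg) ?_ ?_ htw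
  · intro t ht β m hg
    rcases hg with h1 | ⟨h1, h2, h3, h4⟩ | ⟨h1, h2, h3, h4⟩
    · exact F.cap (mem_ED.mp ht) e1 h1
    · exact F.cap (mem_ED.mp ht) e4 h2
    · exact h2
  · intro t ht β m hmn hgd
    rcases hgd with h1 | ⟨h1, h2, h3, h4⟩ | ⟨h1, h2, h3, h4⟩
    · exact Or.inl h1
    · right
      obtain ⟨k1, k2, k3, k4⟩ := F.word K (mem_ED.mp ht) h1
      rw [k3]
      refine ZB_part k1 β m (bf12_5 h1 (K.comp t) H hg t.2 (fun x => ?_) (fun x hx => ?_)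
        (by omega))
      · have := h2 x (by rw [k1]; exact x.2)
        rw [k2] at this
        exact this.trans (thC_le (fun k s hk => e3 5 k s le_rfl hk) x.2)
      · exact h3 x (by rw [k1]; exact x.2) hx
    · right
      obtain ⟨k1, k2, k3, k4⟩ := F.word K (mem_ED.mp ht) h1
      rw [k3]
      refine ZB_part k1 β m (bf12_6 h1 (K.comp t) H hg t.2 (fun x => ?_) (fun x hx => ?_)
        (by omega))
      · have := h2 x (by rw [k1]; exact x.2)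
        rw [k2] at this
        exact this.trans (thC_le (fun k s hk => e3 6 k s (by omega) hk) x.2)
      · exact h3 x (by rw [k1]; exact x.2) hx

/-- the tables for `j = 14, 15, 16` -/
def tbj (j p k s : ℕ) : ℕ := if k = j then p else E7t4 k s

lemma tbj_ok {j : ℕ} (hj : 12 ≤ j) : TbOK (tbj j (j - 7)) ∧
    (∀ k s, k ≤ j → E7t4 k s ≤ tbj j (j - 7) k s) ∧ (∀ k s, k ≤ j → tbj j (j - 7) k s ≤ j - 7) := by
  refine ⟨fun k s => ?_, fun k s hk => ?_, fun k s hk => ?_⟩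
  · have := tbOK_E7t4 k s
    unfold tbj
    split_ifs with h
    · omega
    · exact this
  · unfold tbj
    split_ifs with h
    · subst h
      unfold E7t4
      simp only [tab]
      split_ifs <;> omega
    · exact le_rfl
  · unfold tbj
    split_ifs with h
    · exact le_rfl
    · unfold E7t4
      simp only [tab]
      split_ifs <;> omega

theorem Fs.hdv14 (F : Fs P 14 lo hi e N θ4 Nf θf D) (K : Ctx P r 14 lo hi e)
    (Y : Y4 r 14 K3 K' V3 N b θ3 θ4) {n d : ℕ}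
    (htw : ∀ x ∈ twA N, n < tcst 4 (thA N θ4) (twT N x, x)) :
    HDv P n d N θ4 Nf D (Gd 14 7 97 lo hi e Nf θf (tbj 14 7)) := by
  have H := K.gt.H
  have hg : ∀ l, l < 14 → Win.Good P l := fun l hl => K.gt.good l (by omega)
  obtain ⟨h1, h2, h3⟩ := tbj_ok (j := 14) (by omega)
  exact F.hdv_Gd K (by omega) Y h1 h2 h3
    (fun t hw B hB h5 m hm => bf14 hw (K.comp t) H hg t.2 hB h5 (by omega)) htw

theorem Fs.hdv15 (F : Fs P 15 lo hi e N θ4 Nf θf D) (K : Ctx P r 15 lo hi e)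
    (Y : Y4 r 15 K3 K' V3 N b θ3 θ4) {n d : ℕ}
    (htw : ∀ x ∈ twA N, n < tcst 4 (thA N θ4) (twT N x, x)) :
    HDv P n d N θ4 Nf D (Gd 15 8 104 lo hi e Nf θf (tbj 15 8)) := by
  have H := K.gt.H
  have hg : ∀ l, l < 15 → Win.Good P l := fun l hl => K.gt.good l (by omega)
  obtain ⟨h1, h2, h3⟩ := tbj_ok (j := 15) (by omega)
  exact F.hdv_Gd K (by omega) Y h1 h2 h3
    (fun t hw B hB h5 m hm => bf15 hw (K.comp t) H hg t.2 hB h5 (by omega)) htw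

/-- plain labels, every `j` -/
theorem Fs.hdv_plain (F : Fs P j lo hi e N θ4 Nf θf D) (K : Ctx P r j lo hi e) (h12 : 12 ≤ j)
    (Y : Y4 r j K3 K' V3 N b θ3 θ4) {n d : ℕ}
    (htw : ∀ x ∈ twA N, n < tcst 4 (thA N θ4) (twT N x, x)) :
    HDv P n d N θ4 Nf D (Gd j (j - 7) 0 lo hi e Nf θf (tbj j (j - 7))) := by
  obtain ⟨h1, h2, h3⟩ := tbj_ok (j := j) h12
  exact F.hdv_Gd K h12 Y h1 h2 h3
    (fun t hw B hB h5 m hm => absurd hm (Nat.not_lt_zero m)) htw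

end Pool.Agent.GaussPoset.Ec
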