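import Pool.Agent.W_448s7_h27.EwQ
import Pool.Agent.W_448s8f_h76.FjB
import Pool.Agent.W_448s7s_h5.SrE

/-!
Window `4`: elimination of the joins of large drop, no fold joins (MP_448cb3_co, S7).
-/

namespace Pool.Agent.GaussPoset.Ec

set_option linter.unusedSectionVars false

open Polynomial Finset Sm Wd Cp W4 Cl

universe u

variable {P : Type u} [Fintype P] [PartialOrder P] [DecidableEq P] {r j : ℕ}
  {lo hi : Tops P → ℕ → ℕ} {e : Tops P → ℕ → ℕ → P} {N : Tops P → Finset P}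
  {θ3 θ4 : Tops P → P → ℕ} {Nf : Tops P → Finset P} {θf : Tops P → (ℕ → ℕ → ℕ) → P → ℕ}
  {D : Tops P → Prop} {K3 K' V3 : ℕ} {b : Tops P → ℕ}

/-- **Elimination at window `4`, no fold joins**: `n` is a lower bound of the costs of the
joins; all joins of cost `n` with more than `d + 1` elements above on the level `4` have the same
parity; then there is none. -/
theorem Fs.kill (F : Fs P j lo hi e N θ4 Nf θf D) (K : Ctx P r j lo hi e) (h12 : 12 ≤ j)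
    (Y : Y4 r j K3 K' V3 N b θ3 θ4) (hNF : Sm.NF P j)
    {n d : ℕ} (hn : n ≤ K') (hjn : ∀ z x x' : P, Cg z x x' → n ≤ ful 4 z)
    {good : Tops P → (P → ℕ) → ℕ → Prop} (hdv : HDv P n d N θ4 Nf D good)
    (hK : ∀ e' F', Vd 4 e' F' → ∑ x, e' x = n → Ew.Ok (rA N) (thA N θ4) e' →
      (El.KG (ED D) Nf good e').card ≤ d) {p : ℕ}
    (hp : ∀ z x x' : P, Cg z x x' → ful 4 z = n → d + 2 ≤ nab 4 z →
      nst 4 (fun z => lev z - 4) z % 2 = p) :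
    ∀ z x x' : P, Cg z x x' → ful 4 z = n → nab 4 z ≤ d + 1 := by
  obtain ⟨h1, h2, h3⟩ := Y.own_noise (fun _ => Or.inr hNF) hn hjn
  exact (F.class_par K h12 Y (d := d) (p := p) h1
    (fun z hz hc => Or.inl ⟨(h3 z hz hc).1, (h3 z hz hc).2.1, by
      rw [hc]; exact (h3 z hz hc).2.2.1, (h3 z hz hc).2.2.2⟩)
    (fun c0 hc hle => F.gsum_gen K h12 Y hdv (fun x hx => (h2 x hx).le) h1 hK hc hle)
    hp (fun z x x' h _ _ => absurd h.2.2 (hNF z x x' h.1 h.2.1))).1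

lemma cw14 : Ew.cstW 4 w7 14 5 4 (7 + 1) = 92 ∧ E7t4 14 5 + 1 = 7 ∧ MinB 14 7 97 92 := by
  refine ⟨?_, ?_, ?_, ?_⟩ <;> decide +kernel

lemma cw15 : Ew.cstW 4 w7 15 5 4 (8 + 1) = 103 ∧ E7t4 15 5 + 1 = 8 ∧ MinB 15 8 104 103 := by
  refine ⟨?_, ?_, ?_, ?_⟩ <;> decide +kernel

/-- **Elimination at window `4`, `j = 14`**, costs at most `191`. -/
theorem Fs.kill14 (F : Fs P 14 lo hi e N θ4 Nf θf D) (K : Ctx P r 14 lo hi e)
    (Y : Y4 r 14 K3 K' V3 N b θ3 θ4) (hNF : Sm.NF P 14)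
    {n : ℕ} (hn : n ≤ K') (h191 : n ≤ 191) (hjn : ∀ z x x' : P, Cg z x x' → n ≤ ful 4 z) {p : ℕ}
    (hp : ∀ z x x' : P, Cg z x x' → ful 4 z = n → 3 ≤ nab 4 z →
      nst 4 (fun z => lev z - 4) z % 2 = p) :
    ∀ z x x' : P, Cg z x x' → ful 4 z = n → nab 4 z ≤ 2 := by
  obtain ⟨k1, k2, k3⟩ := cw14
  exact F.kill K (by norm_num) Y hNF hn hjn (d := 1)
    (F.hdv14 K Y (fun x hx => hn.trans_lt (Y.out_tw hx)))
    (fun e' F' hV hs hok => F.card_le_one K (by norm_num) Y row5_14 (cS := 100) de_14 k2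
      (Or.inl rfl) k3 (by omega) (by omega) (by omega) (Or.inr ⟨by omega, Or.inl (by omega)⟩)
      hV hs hok) hp

/-- **Elimination at window `4`, `j = 15`**, costs at most `214`, and at most `221` without
joins of two `E7` tops. -/
theorem Fs.kill15 (F : Fs P 15 lo hi e N θ4 Nf θf D) (K : Ctx P r 15 lo hi e)
    (Y : Y4 r 15 K3 K' V3 N b θ3 θ4) (hNF : Sm.NF P 15)
    {n : ℕ} (hn : n ≤ K') (hE : n ≤ 214 ∨ (n ≤ 221 ∧ ¬ ∃ z, E2 15 lo hi e N Nf D z))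
    (hjn : ∀ z x x' : P, Cg z x x' → n ≤ ful 4 z) {p : ℕ}
    (hp : ∀ z x x' : P, Cg z x x' → ful 4 z = n → 3 ≤ nab 4 z →
      nst 4 (fun z => lev z - 4) z % 2 = p) :
    ∀ z x x' : P, Cg z x x' → ful 4 z = n → nab 4 z ≤ 2 := by
  obtain ⟨k1, k2, k3⟩ := cw15
  exact F.kill K (by norm_num) Y hNF hn hjn (d := 1)
    (F.hdv15 K Y (fun x hx => hn.trans_lt (Y.out_tw hx)))
    (fun e' F' hV hs hok => F.card_le_one K (by norm_num) Y row5_15 (cS := 121) de_15 k2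
      (Or.inl rfl) k3 (by omega) (by omega) (by omega) (by
        rcases hE with h | h
        · exact Or.inr ⟨by omega, Or.inl (by omega)⟩
        · exact Or.inl h.2)
      hV hs hok) hp

/-- **Elimination at window `4`, `j = 16`**. -/
theorem Fs.kill16 (F : Fs P 16 lo hi e N θ4 Nf θf D) (K : Ctx P r 16 lo hi e)
    (Y : Y4 r 16 K3 K' V3 N b θ3 θ4) (hNF : Sm.NF P 16)
    {n : ℕ} (hn : n ≤ K') (hE : n ≤ 232 ∨ (n ≤ 241 ∧ ¬ ∃ z, E2 16 lo hi e N Nf D z) ∨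
      (n ≤ 255 ∧ (¬ ∃ z, E2 16 lo hi e N Nf D z) ∧ ¬ ∃ z, Own 16 lo hi e N Nf D z))
    (hjn : ∀ z x x' : P, Cg z x x' → n ≤ ful 4 z) {p : ℕ}
    (hp : ∀ z x x' : P, Cg z x x' → ful 4 z = n → 3 ≤ nab 4 z →
      nst 4 (fun z => lev z - 4) z % 2 = p) :
    ∀ z x x' : P, Cg z x x' → ful 4 z = n → nab 4 z ≤ 2 := by
  obtain ⟨k1, k2, k3, k4, k5, k6⟩ := c16
  have k7 := k6.1
  refine F.kill K (by norm_num) Y hNF hn hjn (d := 1)
    (F.hdv_plain K (by norm_num) Y (fun x hx => hn.trans_lt (Y.out_tw hx)))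
    (fun e' F' hV hs hok => ?_) hp
  rcases hE with h | h | h
  · exact F.card_le_one K (by norm_num) Y row5_16 (cS := 144) de_16 k4 (Or.inr rfl) k6
      (by omega) (by omega) (by omega) (Or.inr ⟨by omega, Or.inr (by omega)⟩) hV hs hok
  · exact F.card_le_one K (by norm_num) Y row5_16 (cS := 144) de_16 k4 (Or.inr rfl) k6
      (by omega) (by omega) (by omega) (Or.inl h.2) hV hs hok
  · exact F.card_le_one16 K Y (by omega) h.2.2 h.2.1 hV hs hok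

/-- **Elimination at window `4`, `j = 12`**. -/
theorem Fs.kill12 (F : Fs P 12 lo hi e N θ4 Nf θf D) (K : Ctx P r 12 lo hi e)
    (Y : Y4 r 12 K3 K' V3 N b θ3 θ4) (hNF : Sm.NF P 12)
    {n : ℕ} (hn : n ≤ K') (hE : n ≤ 126 ∨ (n ≤ 127 ∧ ¬ ∃ z, E2 12 lo hi e N Nf D z))
    (hjn : ∀ z x x' : P, Cg z x x' → n ≤ ful 4 z) {p : ℕ}
    (hp : ∀ z x x' : P, Cg z x x' → ful 4 z = n → 3 ≤ nab 4 z →
      nst 4 (fun z => lev z - 4) z % 2 = p) :
    ∀ z x x' : P, Cg z x x' → ful 4 z = n → nab 4 z ≤ 2 :=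
  F.kill K le_rfl Y hNF hn hjn (d := 1)
    (F.hdv_Gd12 K Y (fun x hx => hn.trans_lt (Y.out_tw hx)))
    (fun _ _ hV hs hok => F.card_le_one12 K Y hE hV hs hok) hp

end Pool.Agent.GaussPoset.Ec
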