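import Pool.Agent.W_448s7_h27.EwI
import Pool.Agent.W_448s7s_h5.SrE

/-!
The ends with the data of `E7` (MP_448cb3_co, S7).
-/

namespace Pool.Agent.GaussPoset.Sm

set_option linter.unusedSectionVars false

open Finset Wd Cl

universe u

variable {P : Type u} [Fintype P] [PartialOrder P] [DecidableEq P] {r j : ℕ}
  {lo hi : Tops P → ℕ → ℕ} {e : Tops P → ℕ → ℕ → P}

/-- the data `(m, c)` belong to the word `w7` only -/
def ChkW (j m c : ℕ) : Prop :=
  ∀ a ∈ range (j + 1), 2 ≤ a → ∀ w ∈ wds j a, w.length = j - a →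
    ∀ A ∈ (Icc (Lw w (w.length + 3)) (Hw w (w.length + 3))).powerset, A.Nonempty →
      condA 0 w A → mA w A = m → dA w A = c → a = 4 ∧ w = w7.take (j - 4)

instance (j m c : ℕ) : Decidable (ChkW j m c) := by unfold ChkW; infer_instance

lemma chkW12 : ChkW 12 8 39 := by decide +kernel
lemma chkW14 : ChkW 14 10 60 := by decide +kernel
lemma chkW15 : ChkW 15 10 70 := by decide +kernel
lemma chkW16 : ChkW 16 10 80 := by decide +kernel

/-- the word of an end with the data of `E7` -/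
theorem Ctx.word_of_data (K : Ctx P r j lo hi e) {m c : ℕ} (hC : ChkW j m c) (hm0 : m ≠ 0)
    (hf : fm j ≠ m) {x : P} (hx : x ∈ onlyB (topOf x)) (hl : lev x = j)
    (hend : (Win.uc x).card = 1) (hm : mX j x = m) (hc : cX j x = c) :
    WordD j 4 w7 (lo (topOf x)) (hi (topOf x)) := by
  have h5 := K.h5
  rcases K.cases hx hl.ge (fun _ => hend) (fun h => by have := h.1; omega) with h | h | ⟨a, h, -⟩
  · exfalso
    have h1 := h.mX.1
    rw [hm] at h1
    exact hf (by exact_mod_cast h1.symm)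
  · exfalso
    have h1 := h.mX.1
    rw [hm] at h1
    exact hm0 (by exact_mod_cast h1)
  · obtain ⟨A, g1, g2, g3, g4, g5, -, -⟩ := late_side K.gt (by omega) (K.comp _) h.two h.le h.low
      h.at_a hx hl.ge (fun _ => hend) rfl
    obtain ⟨q1, q2⟩ := hC a (mem_range.mpr (by have := h.le; omega)) h.two _ h.word (by simp) A g1
      g2 (g3 0 hl) (by rw [hm] at g4; exact_mod_cast g4.symm) (by rw [hc] at g5; exact_mod_cast g5.symm)
    subst q1
    exact ⟨h.low, h.at_a, q2⟩

/-- `E7` has two elements on the level `4` above each element of its last row -/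
def N4 (j : ℕ) : Prop := ∀ s ∈ Icc (losW 4 w7 j) (hisW 4 w7 j), Ew.nbW 4 w7 j s 4 = 2

lemma n4_12 : N4 12 := by unfold N4; decide +kernel
lemma n4_14 : N4 14 := by unfold N4; decide +kernel
lemma n4_15 : N4 15 := by unfold N4; decide +kernel
lemma n4_16 : N4 16 := by unfold N4; decide +kernel

theorem Ctx.nab4_word (K : Ctx P r j lo hi e) (hN : N4 j) (h4 : 4 ≤ j) {t : Tops P}
    (hw : WordD j 4 w7 (lo t) (hi t)) {x : P} (hx : x ∈ onlyB t) (hl : lev x = j) :
    nab 4 x = 2 := by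
  have H := K.gt.H
  obtain ⟨s, a1, a2, a3⟩ := (K.comp t).surj x (onlyB_le hx) hl.le
  rw [hl] at a1 a2 a3
  obtain ⟨r1, r2⟩ := hw.rows (K.comp t)
  have q1 := r1 j le_rfl
  have q2 := r2 j le_rfl
  rw [← a3, Ew.nab_word hw (K.comp t) H K.gt.good a1 a2 (by rw [a3]; exact hx) h4]
  exact hN s (Finset.mem_Icc.mpr ⟨by omega, by omega⟩)

/-- **An end with the data of `E7` has two elements above it on the level `4`.** -/
theorem Ctx.nab4_data (K : Ctx P r j lo hi e) {m c b : ℕ} (hC : ChkW j m c) (hm0 : m ≠ 0)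
    (hf : fm j ≠ m) (hN : N4 j) (h4 : 4 ≤ j) {z x x' : P} (h : Cg z x x') (hlz : lev z = j + 1)
    (hd : Dt j x (m, c, b)) : nab 4 x = 2 := by
  have hl : lev x = j := by
    have := (h.lev_eq K.gt.H).1
    omega
  exact K.nab4_word hN h4 (K.word_of_data hC hm0 hf h.only hl (K.ends h hlz).1 hd.1 hd.2.1)
    h.only hl

end Pool.Agent.GaussPoset.Sm
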