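import Pool.Agent.W_448pg_h74.WrA
import Pool.Agent.W_448pg_h74.Ge
import Pool.Agent.W_448f4_h70.GA
import Pool.Agent.W_448s8_h76.SaP

/-!
The factor of a part at the cost of its cheapest twins (MP_448cb3_co, S7, window `4`).
-/

namespace Pool.Agent.GaussPoset

set_option linter.unusedSectionVars false

open Polynomial Finset

universe u

variable {P : Type u} [Fintype P] [PartialOrder P] [DecidableEq P]
variable {ι : Type*} [Fintype ι] [DecidableEq ι]

section Part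

variable {R : Finset P} {cp : P → ι} {k : ι}

/-- twins in a part -/
lemma twn_part (hR : ∀ x y, x ≤ y → y ∈ R → x ∈ R)
    (hcp : ∀ x y, x ≤ y → x ∉ R → cp x = cp y) {i : ℕ} {θ : P → ℕ}
    {x x' : {x : P // x ∉ R ∧ cp x = k}} (h : Twn i θ ((x : P), (x' : P))) :
    Twn (P := {x : P // x ∉ R ∧ cp x = k}) i (fun y => θ y) (x, x') := by
  have hup := pg_part_up (k := k) hR hcp
  have hl : ∀ y : {x : P // x ∉ R ∧ cp x = k}, lev y = lev (y : P) :=
    lev_subtype (p := fun x => x ∉ R ∧ cp x = k) hup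
  refine ⟨fun h1 => h.ne (congrArg Subtype.val h1), fun y => h.up y, h.one_le, h.eq, ?_, ?_⟩
  · rw [hl]; exact h.lt
  · intro y hy
    exact h.mono y hy

/-- the cost of twins in a part -/
lemma tcst_part (hR : ∀ x y, x ≤ y → y ∈ R → x ∈ R)
    (hcp : ∀ x y, x ≤ y → x ∉ R → cp x = cp y) {i : ℕ} {θ : P → ℕ}
    {x x' : {x : P // x ∉ R ∧ cp x = k}} :
    tcst (P := {x : P // x ∉ R ∧ cp x = k}) i (fun y => θ y) (x, x') =
      tcst i θ ((x : P), (x' : P)) := by
  classical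
  have hup := pg_part_up (k := k) hR hcp
  have hl : ∀ y : {x : P // x ∉ R ∧ cp x = k}, lev y = lev (y : P) :=
    lev_subtype (p := fun x => x ∉ R ∧ cp x = k) hup
  unfold tcst
  rw [← sum_part_eq (R := R) (cp := cp) (k := k) (fun y => tez i θ ((x : P), (x' : P)) y)]
  · refine Finset.sum_congr rfl fun y _ => ?_
    unfold tez
    simp only [hl, Subtype.ext_iff, Subtype.coe_lt_coe]
  · intro y hy
    by_contra hcon
    apply hy
    refine tez_off ?_ ?_ ?_
    · rintro rfl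
      exact hcon x.2
    · rintro rfl
      exact hcon x'.2
    · intro h
      exact hcon (hup x y h.le x.2)

end Part

/-- **The factor of a part, up to the cost of the cheapest twins.** -/
theorem factor_tw {i : ℕ} {R : Finset P} (hgr : GradedBelow P)
    (hR : ∀ x y, x ≤ y → y ∈ R → x ∈ R) (hRlev : ∀ x ∈ R, i < lev x)
    (cp : P → ι) (hcp : ∀ x y, x ≤ y → x ∉ R → cp x = cp y) (k : ι) (b b' : ℕ) (θ : P → ℕ)
    (B : P → Prop) (hBR : ∀ x ∈ R, ¬ B x) (Tw : Finset (P × P)) (n : ℕ)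
    (H : CompDataT R cp k i b θ B Tw) (hb : b' ≤ b)
    (hb1 : b' + 1 ≤ (lv {x : P // x ∉ R ∧ cp x = k} i).card)
    (htw : ∀ t ∈ Tw, Twn i θ t) (hcost : ∀ t ∈ Tw, n ≤ tcst i θ t)
    (hdr : ∀ t ∈ Tw, cp t.1 = k → tcst i θ t = n → nab i t.2 ≤ nab (i + (θ t.1 + 1)) t.2 + 1)
    (hmin : ∀ t ∈ Tw, ∀ y < t.2, y ∈ R)
    (htR : ∀ t ∈ Tw, t.1 ∉ R ∧ t.2 ∉ R) (htB : ∀ t ∈ Tw, ¬ B t.2)
    (B' : P → ℕ) (hB' : ∀ x, x ∉ R → cp x = k → B' x ≤ θ x) (m : ℕ) (hm : m ≤ n) :
    (1 + X : ℤ[X]) ^ b' ∣ ZB (P := {x : P // x ∉ R ∧ cp x = k}) i ∅ 0 (fun x => B' x) m := by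
  classical
  have hup := pg_part_up (k := k) hR hcp
  have hl : ∀ y : {x : P // x ∉ R ∧ cp x = k}, lev y = lev (y : P) :=
    lev_subtype (p := fun x => x ∉ R ∧ cp x = k) hup
  have hgr' : GradedBelow {x : P // x ∉ R ∧ cp x = k} := gbel_sub hup hgr
  let DD : Set (Finset {x : P // x ∉ R ∧ cp x = k}) :=
    {D | (∀ x y, x ≤ y → y ∈ D → x ∈ D) ∧ ∀ x ∈ D, i < lev (x : P) ∧ ¬ B x}
  let TwQ : Finset ({x : P // x ∉ R ∧ cp x = k} × {x : P // x ∉ R ∧ cp x = k}) :=
    univ.filter (fun t => ((t.1 : P), (t.2 : P)) ∈ Tw)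
  have hlt2 : ∀ t ∈ Tw, i < lev t.2 ∧ cp t.1 = cp t.2 := by
    intro t ht
    have h1 := (htw t ht).lt
    have h2 := (htw t ht).one_le
    have h3 : i < lev t.1 := by omega
    refine ⟨by rw [← lev_eq_of_up (htw t ht).up]; exact h3, ?_⟩
    obtain ⟨y, hy, -⟩ := exists_lev_succ (x := t.1) (k := lev t.1 - 1) (by omega)
    have hy' := ((htw t ht).up y).mp hy
    rw [hcp _ y hy.le (htR t ht).1, hcp _ y hy'.le (htR t ht).2]
  have key := dvd_ZB_bounds_twinsH (P := {x : P // x ∉ R ∧ cp x = k}) i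
    ((1 + X : ℤ[X]) ^ b') (n + 1)
    DD (fun x => θ x) TwQ (fun D hD => hD.1)
    (fun D hD x hx => by rw [hl]; exact (hD.2 x hx).1)
    (fun x hx => by rw [hl]; exact H.lev x x.2.1 x.2.2 hx) ?_ ?_ ?_ ?_ ?_ ?_
    ∅ ⟨fun x y _ h => absurd h (Finset.notMem_empty y), fun x h => absurd h (Finset.notMem_empty x)⟩
    (fun x => B' x) (fun x _ => hB' x x.2.1 x.2.2) m (by omega)
  · exact key
  · intro D hD hbr n _
    refine (pow_dvd_pow _ hb).trans ?_
    rw [ZB_off hD.1 (fun x hx => by rw [hl]; exact (hD.2 x hx).1)]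
    refine dvd_Z_of_dvd_W ?_ n
    let E : Finset P := R ∪ D.image Subtype.val ∪ (Tw.image Prod.snd).filter (fun x => cp x ≠ k)
    have hE : ∀ x, x ∈ E ↔ (x ∈ R ∨ ∃ h : x ∉ R ∧ cp x = k,
        (⟨x, h⟩ : {x : P // x ∉ R ∧ cp x = k}) ∈ D) ∨ ((∃ t ∈ Tw, t.2 = x) ∧ cp x ≠ k) := by
      intro x
      simp only [E, mem_union, mem_image, mem_filter]
      refine or_congr (or_congr Iff.rfl ?_) Iff.rfl
      constructor
      · rintro ⟨y, hy, rfl⟩
        exact ⟨y.2, hy⟩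
      · rintro ⟨h, hx⟩
        exact ⟨⟨x, h⟩, hx, rfl⟩
    have hgood : Good i R B E := by
      refine ⟨?_, ?_, ?_, ?_⟩
      · intro x y hxy hy
        rw [hE] at hy ⊢
        rcases hy with (hy | ⟨h, hy⟩) | ⟨⟨t, ht, rfl⟩, hy⟩
        · exact Or.inl (Or.inl (hR x y hxy hy))
        · by_cases hx : x ∈ R
          · exact Or.inl (Or.inl hx)
          · have hxk : cp x = k := (hcp x y hxy hx).trans h.2
            exact Or.inl (Or.inr ⟨⟨hx, hxk⟩, hD.1 ⟨x, hx, hxk⟩ ⟨y, h⟩ hxy hy⟩)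
        · rcases eq_or_lt_of_le hxy with h1 | h1
          · rw [h1]
            exact Or.inr ⟨⟨t, ht, rfl⟩, hy⟩
          · exact Or.inl (Or.inl (hmin t ht x h1))
      · intro x hx
        rw [hE]
        exact Or.inl (Or.inl hx)
      · intro x hx
        rw [hE] at hx
        rcases hx with (hx | ⟨h, hx⟩) | ⟨⟨t, ht, rfl⟩, hx⟩
        · exact hRlev x hx
        · exact (hD.2 _ hx).1
        · exact (hlt2 t ht).1
      · intro x hx
        rw [hE] at hx
        rcases hx with (hx | ⟨h, hx⟩) | ⟨⟨t, ht, rfl⟩, hx⟩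
        · exact hBR x hx
        · exact (hD.2 _ hx).2
        · exact htB t ht
    have hbrE : Broken Tw E := by
      intro t ht
      by_cases hk : cp t.2 = k
      · have hk1 : cp t.1 = k := (hlt2 t ht).2.trans hk
        have h1 := hbr (⟨t.1, (htR t ht).1, hk1⟩, ⟨t.2, (htR t ht).2, hk⟩)
          (mem_filter.mpr ⟨mem_univ _, ht⟩)
        rcases h1 with h1 | h1
        · exact Or.inl ((hE _).mpr (Or.inl (Or.inr ⟨_, h1⟩)))
        · exact Or.inr ((hE _).mpr (Or.inl (Or.inr ⟨_, h1⟩)))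
      · exact Or.inr ((hE _).mpr (Or.inr ⟨⟨t, ht, rfl⟩, hk⟩))
    have h1 := H.clean E hgood hbrE inferInstance
    have hEk : ∀ x : P, cp x = k → (x ∉ E ↔ ∃ h : x ∉ R ∧ cp x = k,
        (⟨x, h⟩ : {x : P // x ∉ R ∧ cp x = k}) ∉ D) := by
      intro x hxk
      rw [hE]
      constructor
      · intro h
        have hxR : x ∉ R := fun h2 => h (Or.inl (Or.inl h2))
        exact ⟨⟨hxR, hxk⟩, fun h2 => h (Or.inl (Or.inr ⟨_, h2⟩))⟩
      · rintro ⟨h, h2⟩ ((h3 | ⟨h3, h4⟩) | ⟨-, h3⟩)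
        · exact h.1 h3
        · exact h2 h4
        · exact h3 hxk
    rw [W_iso (partIso hEk) i] at h1
    exact h1
  · intro D hD x hx hθx
    refine ⟨?_, ?_⟩
    · intro a c hac hc
      rw [mem_union, mem_dnf] at hc ⊢
      rcases hc with hc | hc
      · exact Or.inl (hD.1 a c hac hc)
      · exact Or.inr (hac.trans hc)
    · intro a ha
      rw [mem_union, mem_dnf] at ha
      rcases ha with ha | ha
      · exact hD.2 a ha
      · have h1 := H.lev x x.2.1 x.2.2 hθx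
        refine ⟨?_, H.base x x.2.1 x.2.2 hθx a ha a.2.1⟩
        rcases eq_or_lt_of_le ha with h | h
        · rw [h]; exact h1
        · have h3 : (a : P) < x := h
          have := lev_strictAnti h3
          omega
  · intro D hD x hx hθx y hyx hyD x' hyx' hx'x
    refine H.step x x.2.1 x.2.2 hθx y hyx y.2.1 x' x'.2.1 ?_ (fun h => hx'x h)
    refine ⟨hyx'.1, fun z hz hzx' => ?_⟩
    exact hyx'.2 (c := ⟨z, hup y z hz.le y.2⟩) hz hzx'
  · intro t ht
    exact (twn_part hR hcp (x := t.1) (x' := t.2) (htw _ (mem_filter.mp ht).2)).toP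
  · intro t ht D hD hx hx' m hm
    have hT := htw _ (mem_filter.mp ht).2
    have hTq := twn_part hR hcp (x := t.1) (x' := t.2) hT
    have htc := tcst_part (k := k) hR hcp (i := i) (θ := θ) (x := t.1) (x' := t.2)
    have hc := hcost _ (mem_filter.mp ht).2
    have hlx : i < lev t.1 := by
      rw [hl]
      have h1 := hT.lt
      simp only at h1
      omega
    have h1 := ZB_st2_exact (P := {x : P // x ∉ R ∧ cp x = k}) (D := D) (n0 := m) hTq hlx
      (fun d hd => by rw [hl]; exact (hD.2 d hd).1) hx hx'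
      (fun y hy hyD => hx (hD.1 _ _ hy.le hyD)) (by rw [htc]; omega)
    rw [h1]
    split_ifs with h2
    · rw [Tm_gen hgr' hTq]
      unfold Lt
      refine dvd_mul_of_dvd_right (pow_dvd_pow _ ?_) _
      have h3 : tcst i θ ((t.1 : P), (t.2 : P)) = n := by rw [htc] at h2; omega
      have h4 := hdr _ (mem_filter.mp ht).2 t.1.2.2 h3
      simp only at h4 ⊢
      rw [nab_sub hup, nab_sub hup]
      omega
    · exact dvd_zero _
  · intro t ht D _ y hy
    exact absurd (hmin _ (mem_filter.mp ht).2 y hy) y.2.1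

end Pool.Agent.GaussPoset
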