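import Pool.Agent.W_448pg_h74.PgA

/-!
Products over the components with their energies, with one exceptional component
(MP_448cb3_co, S7, window `4`).
-/

namespace Pool.Agent.GaussPoset

set_option linter.unusedSectionVars false

open Polynomial Finset

universe u

variable {P : Type u} [Fintype P] [PartialOrder P] [DecidableEq P]
variable {ι : Type*} [Fintype ι] [DecidableEq ι]

/-- **Products over the components with their energies, with one exceptional component.** -/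
theorem pg_top {i n : ℕ} (hn1 : 1 ≤ n) {R : Finset P}
    (hR : ∀ x y, x ≤ y → y ∈ R → x ∈ R) (hRlev : ∀ x ∈ R, i < lev x) (cp : P → ι)
    (hcp : ∀ x y, x ≤ y → x ∉ R → cp x = cp y) (b b1 bz : ι → ℕ) (T : ℕ)
    (G : ι → (P → ℕ) → ℕ → Prop)
    (hG : ∀ k B B', (∀ x, x ∉ R → cp x = k → B x = B' x) → ∀ m, G k B m ↔ G k B' m)
    (hfac : ∀ k B m, m < n → G k B m → (1 + X : ℤ[X]) ^ (b k) ∣
      ZB (P := {x : P // x ∉ R ∧ cp x = k}) i ∅ 0 (fun x => B x) m)
    (htop : ∀ k, G k (fun _ => 0) n → (1 + X : ℤ[X]) ^ (b1 k) ∣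
      ZB (P := {x : P // x ∉ R ∧ cp x = k}) i ∅ 0 (fun _ => 0) n)
    (hzero : ∀ k, (1 + X : ℤ[X]) ^ (bz k) ∣
      ZB (P := {x : P // x ∉ R ∧ cp x = k}) i ∅ 0 (fun _ => 0) 0)
    (hT : T ≤ ∑ k, b k) (hT1 : ∀ k0, T ≤ b1 k0 + ∑ k ∈ univ.erase k0, bz k) :
    (1 + X : ℤ[X]) ^ T ∣ ZQ i n (fun e F => (∀ z ∈ R, z ∉ F) ∧
      ∀ k, G k (fun x => (by classical exact (R.filter (fun z => z ⋖ x)).sup e))
        (∑ x ∈ univ.filter (fun x => x ∉ R ∧ cp x = k), e x)) := by
  classical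
  set Q : (P → ℕ) → Finset P → Prop := fun e F => Vd i e F ∧ ((∀ z ∈ R, z ∉ F) ∧
      ∀ k, G k (fun x => (R.filter (fun z => z ⋖ x)).sup e)
        (∑ x ∈ univ.filter (fun x => x ∉ R ∧ cp x = k), e x)) with hQ
  have h0 : ZQ i n (fun e F => (∀ z ∈ R, z ∉ F) ∧
      ∀ k, G k (fun x => (by classical exact (R.filter (fun z => z ⋖ x)).sup e))
        (∑ x ∈ univ.filter (fun x => x ∉ R ∧ cp x = k), e x)) = SC Q n := by
    unfold ZQ SC
    refine Finset.sum_congr rfl fun F _ => ?_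
    refine Finset.sum_congr ?_ (fun _ _ => rfl)
    ext e
    simp only [mem_filter, hQ]
  rw [h0, SC_eq_cfg]
  -- the fibres
  let φ : Finset P × (P → ℕ) → (P → ℕ) × (ι → ℕ) := fun x => (lbl R x.2,
    fun k => ∑ y ∈ univ.filter (fun y => y ∉ R ∧ cp y = k), x.2 y)
  let s : Finset ((P → ℕ) × (ι → ℕ)) := (cfg Q n).image φ
  have h1 : ∑ x ∈ cfg Q n, (X : ℤ[X]) ^ x.1.card =
      ∑ y ∈ s, ∑ x ∈ (cfg Q n).filter (fun x => φ x = y), (X : ℤ[X]) ^ x.1.card :=
    (Finset.sum_fiberwise_of_maps_to (fun x hx => mem_image_of_mem φ hx) _).symm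
  rw [h1]
  refine Finset.dvd_sum fun y hy => ?_
  obtain ⟨⟨F0, e0⟩, hx0, hφ0⟩ := mem_image.mp hy
  rw [mem_cfg] at hx0
  obtain ⟨hs0, hV0, hF0, hG0⟩ := hx0
  simp only at hs0 hV0 hF0 hG0
  obtain ⟨g, M⟩ := y
  have hg0 : lbl R e0 = g := congrArg Prod.fst hφ0
  have hM0 : ∀ k, ∑ y ∈ univ.filter (fun y => y ∉ R ∧ cp y = k), e0 y = M k :=
    fun k => congrFun (congrArg Prod.snd hφ0) k
  have hgR : ∀ x ∈ R, e0 x = g x := by
    intro x hx
    rw [← hg0, lbl_of hx]
  have hsup : ∀ (e : P → ℕ), (∀ x ∈ R, e x = g x) → ∀ x,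
      (R.filter (fun z => z ⋖ x)).sup e = (R.filter (fun z => z ⋖ x)).sup g := by
    intro e he x
    refine Finset.sup_congr rfl fun z hz => ?_
    exact he z (mem_filter.mp hz).1
  have hmono : ∀ x ∈ R, ∀ y ∈ R, x ≤ y → g x ≤ g y := by
    intro x hx y hy hxy
    have h2 := hV0.2.2.1 x y hxy (hF0 x hx) (hF0 y hy)
    rw [rho_of_lt (hRlev x hx), rho_of_lt (hRlev y hy), hgR x hx, hgR y hy] at h2
    exact_mod_cast h2
  have hn : n = ∑ x ∈ R, g x + ∑ k, M k := by
    rw [← hs0, sum_parts R cp e0, Finset.sum_congr rfl hgR,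
      Finset.sum_congr rfl (fun k _ => hM0 k)]
  have hGk : ∀ k, G k (fun x => (R.filter (fun z => z ⋖ x)).sup g) (M k) := by
    intro k
    have h2 := hG0 k
    rw [hM0 k] at h2
    refine (hG k _ _ ?_ _).mp h2
    intro x _ _
    exact hsup e0 hgR x
  have h2 : ∑ x ∈ (cfg Q n).filter (fun x => φ x = (g, M)), (X : ℤ[X]) ^ x.1.card =
      SC (fun e F => (Vd i e F ∧ ∀ x ∈ R, x ∉ F ∧ e x = g x) ∧
        ∀ k, ∑ x ∈ univ.filter (fun x => x ∉ R ∧ cp x = k), e x = M k) n := by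
    rw [SC_eq_cfg]
    refine Finset.sum_congr ?_ (fun _ _ => rfl)
    ext ⟨F, e⟩
    rw [mem_filter, mem_cfg, mem_cfg]
    simp only [φ, Prod.mk.injEq, hQ]
    constructor
    · rintro ⟨⟨a1, a2, a3, a4⟩, a5, a6⟩
      refine ⟨a1, ⟨a2, fun x hx => ⟨a3 x hx, ?_⟩⟩, fun k => congrFun a6 k⟩
      rw [← a5, lbl_of hx]
    · rintro ⟨a1, ⟨a2, a3⟩, a4⟩
      refine ⟨⟨a1, a2, fun x hx => (a3 x hx).1, fun k => ?_⟩, ?_, funext fun k => a4 k⟩
      · rw [a4 k]
        refine (hG k _ _ ?_ _).mpr (hGk k)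
        intro x _ _
        exact hsup e (fun x hx => (a3 x hx).2) x
      · funext x
        by_cases hx : x ∈ R
        · rw [lbl_of hx]; exact (a3 x hx).2
        · rw [lbl_off hx, ← hg0, lbl_off hx]
  rw [h2, SC_parts R cp g (fun e F => Vd i e F ∧ ∀ x ∈ R, x ∉ F ∧ e x = g x)
    (fun k => Cst (P := {x : P // InPart R cp k x}) i ∅ 0
        (fun x => (R.filter (fun z => z ⋖ (x : P))).sup g))
    (fun e F => vd_parts_iff hR hRlev cp hcp g hmono e F) M n hn]
  have h4 : ∀ k, ZB (P := {x : P // x ∉ R ∧ cp x = k}) i ∅ 0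
      (fun x => (R.filter (fun z => z ⋖ (x : P))).sup g) (M k) =
      SC (Cst (P := {x : P // InPart R cp k x}) i ∅ 0
        (fun x => (R.filter (fun z => z ⋖ (x : P))).sup g)) (M k) := by
    intro k
    rw [ZB_eq_SC]
    rfl
  by_cases hex : ∃ k0, M k0 = n
  · obtain ⟨k0, hk0⟩ := hex
    have h5 : ∑ k, M k = M k0 + ∑ k ∈ univ.erase k0, M k :=
      (Finset.add_sum_erase _ _ (mem_univ k0)).symm
    have h6 : ∑ x ∈ R, g x = 0 := by omega
    have h7 : ∑ k ∈ univ.erase k0, M k = 0 := by omega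
    have hgz : ∀ x ∈ R, g x = 0 := fun x hx => by
      have := Finset.single_le_sum (f := g) (fun _ _ => Nat.zero_le _) hx
      omega
    have hMz : ∀ k, k ≠ k0 → M k = 0 := fun k hk => by
      have := Finset.single_le_sum (f := M) (fun _ _ => Nat.zero_le _)
        (mem_erase.mpr ⟨hk, mem_univ k⟩)
      omega
    have hsz : ∀ x : P, (R.filter (fun z => z ⋖ x)).sup g = 0 := fun x => by
      have : (R.filter (fun z => z ⋖ x)).sup g ≤ 0 :=
        Finset.sup_le fun z hz => (hgz z (mem_filter.mp hz).1).le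
      omega
    refine (pow_dvd_pow _ (hT1 k0)).trans ?_
    rw [← Finset.mul_prod_erase _ _ (mem_univ k0), pow_add]
    refine mul_dvd_mul ?_ ?_
    · rw [← h4 k0, hk0]
      have h8 := htop k0 (by
        have := hGk k0
        rw [hk0] at this
        exact (hG k0 _ _ (fun x _ _ => hsz x) _).mp this)
      have h9 : (fun x : {x : P // x ∉ R ∧ cp x = k0} =>
          (R.filter (fun z => z ⋖ (x : P))).sup g) = fun _ => 0 := funext fun x => hsz x
      rw [h9]
      exact h8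
    · rw [← Finset.prod_pow_eq_pow_sum]
      refine Finset.prod_dvd_prod_of_dvd _ _ fun k hk => ?_
      rw [← h4 k, hMz k (Finset.ne_of_mem_erase hk)]
      have h9 : (fun x : {x : P // x ∉ R ∧ cp x = k} =>
          (R.filter (fun z => z ⋖ (x : P))).sup g) = fun _ => 0 := funext fun x => hsz x
      rw [h9]
      exact hzero k
  · push Not at hex
    refine (pow_dvd_pow _ hT).trans ?_
    rw [← Finset.prod_pow_eq_pow_sum]
    refine Finset.prod_dvd_prod_of_dvd _ _ fun k _ => ?_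
    have hMn : M k < n := by
      have h5 : M k ≤ n := by
        rw [hn]
        exact le_trans (Finset.single_le_sum (fun _ _ => Nat.zero_le _) (mem_univ k))
          (Nat.le_add_left _ _)
      exact lt_of_le_of_ne h5 (hex k)
    have h3 := hfac k (fun x => (R.filter (fun z => z ⋖ x)).sup g) (M k) hMn (hGk k)
    rw [← h4]
    exact h3


/-- the factor of energy `0` -/
lemma dvd_ZB_zero {Q : Type u} [Fintype Q] [PartialOrder Q] [DecidableEq Q] (i : ℕ) {b : ℕ}
    (hb : b ≤ (lv Q i).card) : (1 + X : ℤ[X]) ^ b ∣ ZB (P := Q) i ∅ 0 (fun _ => 0) 0 := by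
  classical
  have h1 : ZB (P := Q) i ∅ 0 (fun _ => 0) 0 = Z Q i 0 := by
    rw [Z_eq_sum, Finset.sum_comm]
    unfold ZB
    refine Finset.sum_congr rfl fun F _ => ?_
    rw [← Finset.sum_filter]
    refine Finset.sum_congr ?_ (fun _ _ => rfl)
    ext e
    rw [mem_filter, mem_filter]
    refine and_congr_right fun _ => ?_
    unfold Cst
    constructor
    · exact fun h => h.1
    · exact fun h => ⟨h, fun x hx => absurd hx (Finset.notMem_empty x),
        fun x _ hx => by simpa using h.2.1 x hx⟩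
  rw [h1, Z_zero]
  exact dvd_mul_of_dvd_right (pow_dvd_pow _ hb) _

end Pool.Agent.GaussPoset
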