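import Pool.Agent.W_448s7_h27.EwU
import Pool.Agent.W_448s7_h27.EwV
import Pool.Agent.W_448pg_h74.Gh

/-!
The factors of the components, up to the cost of the cheapest twins (MP_448cb3_co, S7).
-/

namespace Pool.Agent.GaussPoset.Ew

set_option linter.unusedSectionVars false

open Polynomial Finset

universe u

variable {P : Type u} [Fintype P] [PartialOrder P] [DecidableEq P]
variable {i : ℕ} {N N1 : Tops P → Finset P} {b : Tops P → ℕ} {θ θ1 : Tops P → P → ℕ}
  {E S : Finset (Tops P)} {Y : Finset P} {τ : P → P}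

/-- the factor of the component `t` in the system `S`, up to the cost of the twins -/
theorem EW.factor_top (W : EW i E N N1 b θ θ1 Y τ) (hS : S ⊆ E) (n : ℕ)
    (hcost : ∀ x ∈ Y, n ≤ tcst i (thS E θ θ1 Y τ E) (τ x, x))
    (hdr : ∀ x ∈ Y, tcst i (thS E θ θ1 Y τ E) (τ x, x) = n →
      nab i x ≤ nab (i + (thS E θ θ1 Y τ E (τ x) + 1)) x + 1) (t : Tops P)
    (hb1 : b t - 1 + 1 ≤ (lv {x : P // x ∉ RS E N N1 Y S ∧ topOf x = t} i).card)
    (β : P → ℕ)
    (hβ : ∀ x, x ∉ RS E N N1 Y S → topOf x = t → β x ≤ thS E θ θ1 Y τ S x) (m : ℕ)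
    (hm : m ≤ n) :
    (1 + X : ℤ[X]) ^ (b t - 1) ∣
      ZB (P := {x : P // x ∉ RS E N N1 Y S ∧ topOf x = t}) i ∅ 0 (fun x => β x) m := by
  classical
  choose B hB using W.natS hS
  have HN := natSys_of_tops hB
  have T := W.twS hS
  have htw := W.twnS hS
  have hRlev : ∀ x ∈ unnat (NS N N1 S), i < lev x := by
    intro x hx
    by_contra hcon
    exact low_natural hB (not_lt.mp hcon) hx
  have hbS : b t - 1 ≤ bS b S t := by
    unfold bS
    split_ifs
    · exact le_rfl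
    · exact Nat.sub_le _ _
  refine GaussPoset.factor_tw (ι := Tops P) W.gr (T.lower HN.lower)
    (fun x hx => hRlev x (mem_sdiff.mp hx).1) topOf (T.cp' HN.cp) t (bS b S t) (b t - 1)
    (thS E θ θ1 Y τ S) (fun x => x ∉ unnat (NS N N1 S) ∧ B (topOf x) x)
    (fun x hx h => h.1 (mem_sdiff.mp hx).1) (pairsX (YS E Y S) τ) n ?_ hbS hb1 ?_ ?_ ?_ ?_ ?_ ?_
    β hβ m hm
  · refine CompData.toTwins ((hB t).data _ HN rfl _ _ ?_ ?_) T HN.lower hRlev
      (fun x hx h => h.1 hx)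
    · intro x hx
      simp only [HN.topOf_eq hx]
    · intro x hx
      simp only [HN.topOf_eq hx, (HN.mem_iff.mp hx).1, not_false_eq_true, true_and]
  · intro t ht
    rw [mem_pairsX] at ht
    have h1 := htw t.2 ht.1
    rwa [← ht.2] at h1
  · intro t ht
    rw [mem_pairsX] at ht
    have h2 := hcost t.2 (mem_YS.mp ht.1).1
    rw [← W.tcst_eq hS ht.1, ← ht.2] at h2
    exact h2
  · intro t ht _ hc
    rw [mem_pairsX] at ht
    obtain ⟨hy, hyt⟩ := mem_YS.mp ht.1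
    have hτ : topOf (τ t.2) ∉ E ∨ topOf (τ t.2) ∈ S := by rw [W.tw.cp t.2 hy]; exact hyt
    have e1 : thS E θ θ1 Y τ S (τ t.2) = thS E θ θ1 Y τ E (τ t.2) := W.thS_eq hS hτ
    have h1 := hdr t.2 hy (by
      rw [← W.tcst_eq hS ht.1, ← ht.2]
      exact hc)
    rw [ht.2, e1]
    exact h1
  · intro t ht y hy
    rw [mem_pairsX] at ht
    exact mem_sdiff.mpr ⟨HN.lower y _ hy.le (T.sub ht.1), fun h => T.anti _ ht.1 y h hy⟩
  · intro t ht
    rw [mem_pairsX] at ht
    rw [mem_sdiff, mem_sdiff, ht.2]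
    exact ⟨fun h => T.nat _ ht.1 h.1, fun h => h.2 ht.1⟩
  · intro t ht h
    rw [mem_pairsX] at ht
    exact h.1 (T.sub ht.1)

end Pool.Agent.GaussPoset.Ew
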