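import Pool.Agent.W_448s7_h27.EwW
import Pool.Agent.W_448s7_h27.EwT

/-!
Window `4`: divisibility of the sums with graded defects at the cost of the twins, of order one
less (MP_448cb3_co, S7).
-/

namespace Pool.Agent.GaussPoset.Ec

set_option linter.unusedSectionVars false

open Polynomial Finset Sm Wd Cp W4 Cl

universe u

variable {P : Type u} [Fintype P] [PartialOrder P] [DecidableEq P] {r j : ℕ}
  {lo hi : Tops P → ℕ → ℕ} {e : Tops P → ℕ → ℕ → P} {N : Tops P → Finset P}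
  {θ3 θ4 : Tops P → P → ℕ} {Nf : Tops P → Finset P} {θf : Tops P → (ℕ → ℕ → ℕ) → P → ℕ}
  {D : Tops P → Prop} {K3 K' V3 : ℕ} {b : Tops P → ℕ}

/-- the row of a component on a level -/
lemma card_row (K : Ctx P r j lo hi e) {i : ℕ} (hi' : i ≤ j) (t : Tops P) :
    ((lv P i).filter (fun x => topOf x = t)).card = hi t i - lo t i + 1 := by
  classical
  have H := K.gt.H
  have C := K.comp t
  have h1 : (lv P i).filter (fun x => topOf x = t) = (Icc (lo t i) (hi t i)).image (e t i) := by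
    ext x
    rw [mem_filter, mem_lv, mem_image]
    constructor
    · rintro ⟨h1, h2⟩
      have hxt : x ≤ (t : P) := by rw [← h2]; exact le_topOf x
      obtain ⟨s, h3, h4, h5⟩ := C.surj x hxt (by omega)
      rw [h1] at h3 h4 h5
      exact ⟨s, mem_Icc.mpr ⟨h3, h4⟩, h5⟩
    · rintro ⟨s, hs, rfl⟩
      rw [mem_Icc] at hs
      have hl := C.lev_e i s hi' hs.1 hs.2
      refine ⟨hl, ?_⟩
      exact Subtype.ext (top_eq H K.gt.good (by omega) (topOf _).2 t.2 (le_topOf _)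
        (C.le_t i s hi' hs.1 hs.2))
  have h2 := C.lo_le i hi'
  rw [h1, Finset.card_image_of_injOn, Nat.card_Icc]
  · omega
  · intro s hs s' hs' h
    rw [Finset.mem_coe, mem_Icc] at hs hs'
    exact C.inj i s s' hi' hs.1 hs.2 hs'.1 hs'.2 h

/-- the row of a part -/
lemma card_row_part (K : Ctx P r j lo hi e) {i : ℕ} (hi' : i ≤ j) {R : Finset P}
    (hR : ∀ x y, x ≤ y → y ∈ R → x ∈ R) (hRl : ∀ x ∈ R, i < lev x)
    (hcp : ∀ x y : P, x ≤ y → x ∉ R → topOf x = topOf y) (t : Tops P) :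
    (lv {x : P // x ∉ R ∧ topOf x = t} i).card = hi t i - lo t i + 1 := by
  classical
  have hup := pg_part_up (k := t) hR hcp
  rw [← card_row K hi' t]
  unfold lv
  rw [Finset.filter_filter, ← Finset.card_map (Function.Embedding.subtype _)]
  congr 1
  ext x
  rw [mem_map, mem_filter]
  constructor
  · rintro ⟨y, hy, rfl⟩
    rw [mem_filter, lev_subtype (p := fun x => x ∉ R ∧ topOf x = t) hup] at hy
    exact ⟨mem_univ _, hy.2, y.2.2⟩
  · rintro ⟨-, h1, h2⟩
    refine ⟨⟨x, fun h => by have := hRl x h; omega, h2⟩, ?_, rfl⟩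
    rw [mem_filter, lev_subtype (p := fun x => x ∉ R ∧ topOf x = t) hup]
    exact ⟨mem_univ _, h1⟩

/-- **Divisibility with graded defects, up to the cost of the twins.** -/
theorem Fs.graded_top (K : Ctx P r j lo hi e) (h12 : 12 ≤ j) (Y : Y4 r j K3 K' V3 N b θ3 θ4)
    (F : Fs P j lo hi e N θ4 Nf θf D) {tb : ℕ → ℕ → ℕ} (htb : TbOK tb) {n : ℕ} (hn1 : 1 ≤ n)
    {good : Tops P → (P → ℕ) → ℕ → Prop}
    (hloc : ∀ t ∈ ED D, ∀ B B' : P → ℕ, (∀ x ∈ Nf t, B x = B' x) → ∀ m, good t B m → good t B' m)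
    (hcap : ∀ t ∈ ED D, ∀ B m, good t B m → ∀ x ∈ Nf t, B x ≤ θf t tb x)
    (hgood : ∀ t ∈ ED D, ∀ B m, m ≤ n → good t B m → (∀ x ∈ Nf t, B x ≤ θf t E7t4 x) ∨
      (1 + X : ℤ[X]) ^ (hi t 4 - lo t 4 + 1) ∣
        ZB (P := {x : P // x ∈ Nf t}) 4 ∅ 0 (fun x => B x) m)
    (htw : ∀ x ∈ twA N, n ≤ tcst 4 (thA N θ4) (twT N x, x))
    (hdr : ∀ x ∈ twA N, tcst 4 (thA N θ4) (twT N x, x) = n →
      nab 4 x ≤ nab (4 + (thA N θ4 (twT N x) + 1)) x + 1)
    {S : Finset (Tops P)} (hS : S ⊆ ED D) (hS1 : S.card ≤ 1) :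
    (1 + X : ℤ[X]) ^ ((lv P 4).card - 1) ∣
      ZQ 4 n (fun e' _ => Ew.Ok (rA N) (thA N θ4) e' ∧ El.KG (ED D) Nf good e' ⊆ S) := by
  classical
  have W := F.ew K h12 Y
  have WL := F.el K h12 Y htb
  -- the allowed configurations
  have h1 : ZQ 4 n (fun e' (_ : Finset P) => Ew.Ok (rA N) (thA N θ4) e' ∧
      El.KG (ED D) Nf good e' ⊆ S) =
      ZQ 4 n (fun e' F' => (∀ z ∈ Ew.RS (ED D) Nf N (twA N) S, z ∉ F') ∧
        ∀ k, El.GS (ED D) Nf N (fun t => θf t tb) θ4 (twA N) (twT N) good S k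
          (fun x => (by classical exact
            ((Ew.RS (ED D) Nf N (twA N) S).filter (fun z => z ⋖ x)).sup e'))
          (∑ x ∈ univ.filter (fun x => x ∉ Ew.RS (ED D) Nf N (twA N) S ∧ topOf x = k), e' x)) := by
    refine ZQ_congr fun e' F' hV _ => ?_
    have h2 := WL.allowed_iff hS hloc hcap hV
    rw [F.RS_eq, F.thS_eq] at h2
    rw [← h2]
    unfold El.Allowed
    refine and_congr Iff.rfl (forall_congr' fun k => ?_)
    refine iff_of_eq ?_
    congr 1
  rw [h1]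
  have hsum : (lv P 4).card - S.card =
      ∑ t, Ew.bS (fun t => hi t 4 - lo t 4 + 1) S t := by
    have h2 := W.sum_bS hS
    have h3 := F.sum
    omega
  have hth : ∀ x : P, ¬ (topOf x ∈ ED D ∧ topOf x ∉ S) →
      Ew.thS (ED D) (fun t => θf t tb) θ4 (twA N) (twT N) S x =
      Ew.thS (ED D) (fun t => θf t E7t4) θ4 (twA N) (twT N) S x := by
    have key : ∀ y : P, ¬ (topOf y ∈ ED D ∧ topOf y ∉ S) →
        Ew.tS (fun t => θf t tb) θ4 S (topOf y) y =
        Ew.tS (fun t => θf t E7t4) θ4 S (topOf y) y := by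
      intro y hy
      by_cases hyS : topOf y ∈ S
      · rw [Ew.tS_of hyS, Ew.tS_of hyS]
      · rw [Ew.tS_not hyS, Ew.tS_not hyS]
        have hyD : topOf y ∉ ED D := fun h => hy ⟨h, hyS⟩
        have h5 := ((F.typ (topOf y)).eq (fun h' => hyD (mem_ED.mpr h'))).2
        show θf (topOf y) tb y = θf (topOf y) E7t4 y
        rw [h5 tb, h5 E7t4]
    intro x hx
    unfold Ew.thS
    by_cases hxY : x ∈ Ew.YS (ED D) (twA N) S
    · rw [thX_of hxY, thX_of hxY]
      refine key _ ?_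
      rw [(W.twS hS).cp x hxY]
      exact hx
    · rw [thX_not hxY, thX_not hxY]
      exact key _ hx
  have hthE : Ew.thS (ED D) (fun t => θf t E7t4) θ4 (twA N) (twT N) (ED D) = thA N θ4 :=
    F.thS_eq E7t4
  have hcost : ∀ x ∈ twA N, n ≤ tcst 4
      (Ew.thS (ED D) (fun t => θf t E7t4) θ4 (twA N) (twT N) (ED D)) (twT N x, x) := by
    intro x hx
    rw [hthE]
    exact htw x hx
  have hdr' : ∀ x ∈ twA N, tcst 4
      (Ew.thS (ED D) (fun t => θf t E7t4) θ4 (twA N) (twT N) (ED D)) (twT N x, x) = n →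
      nab 4 x ≤ nab (4 + (Ew.thS (ED D) (fun t => θf t E7t4) θ4 (twA N) (twT N) (ED D)
        (twT N x) + 1)) x + 1 := by
    intro x hx
    rw [hthE]
    exact hdr x hx
  have hcp := (W.twS hS).cp' (W.natSysS hS).cp
  have hrow : ∀ t : Tops P, (lv {x : P // x ∉ Ew.RS (ED D) Nf N (twA N) S ∧ topOf x = t} 4).card =
      hi t 4 - lo t 4 + 1 := fun t =>
    card_row_part K (by omega) (W.lower_RS hS) (W.lev_RS hS) hcp t
  refine pg_top (ι := Tops P) hn1 (W.lower_RS hS) (W.lev_RS hS) topOf hcp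
    (Ew.bS (fun t => hi t 4 - lo t 4 + 1) S) (fun t => hi t 4 - lo t 4 + 1 - 1)
    (fun t => hi t 4 - lo t 4 + 1) _ _ ?_ ?_ ?_ ?_ ?_ ?_
  · -- locality
    have hone : ∀ k, ∀ B B' : P → ℕ, (∀ x, x ∉ Ew.RS (ED D) Nf N (twA N) S → topOf x = k →
        B x = B' x) → ∀ m, El.GS (ED D) Nf N (fun t => θf t tb) θ4 (twA N) (twT N) good S k B m →
        El.GS (ED D) Nf N (fun t => θf t tb) θ4 (twA N) (twT N) good S k B' m := by
      intro k B B' hBB m hG
      refine ⟨fun hk => ?_, fun hk x hx hxk => ?_⟩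
      · refine hloc k hk.1 B B' (fun x hx => ?_) m (hG.1 hk)
        have h4 := (WL.part_iff hS hk.1 hk.2).mpr hx
        exact hBB x h4.1 h4.2
      · rw [← hBB x hx hxk]
        exact hG.2 hk x hx hxk
    intro k B B' hBB m
    exact ⟨hone k B B' hBB m, hone k B' B (fun x hx hk => (hBB x hx hk).symm) m⟩
  · -- the factors
    intro k B m hm hG
    by_cases hk : k ∈ ED D ∧ k ∉ S
    · rcases hgood k hk.1 B m hm.le (hG.1 hk) with h | h
      · refine W.factor hS n hcost k B (fun x hx hxk => ?_) m hm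
        have hxN := (WL.part_iff hS hk.1 hk.2).mp ⟨hx, hxk⟩
        have hxY : x ∉ Ew.YS (ED D) (twA N) S := by
          intro h'
          rcases (Ew.mem_YS.mp h').2 with h' | h'
          · exact h' (hxk ▸ hk.1)
          · exact hk.2 (hxk ▸ h')
        have h4 : Ew.thS (ED D) (fun t => θf t E7t4) θ4 (twA N) (twT N) S x = θf k E7t4 x := by
          unfold Ew.thS
          rw [thX_not hxY, hxk, Ew.tS_not hk.2]
        rw [h4]
        exact h x hxN
      · have hb : Ew.bS (fun t => hi t 4 - lo t 4 + 1) S k = hi k 4 - lo k 4 + 1 := if_neg hk.2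
        have h5 := gh_ZB_congr (P := P) (q := fun x => x ∈ Nf k)
          (fun x => WL.part_iff hS hk.1 hk.2) 4 B m
        rw [hb]
        exact h.trans (dvd_of_eq h5.symm)
    · refine W.factor hS n hcost k B (fun x hx hxk => ?_) m hm
      rw [← hth x (by rw [hxk]; exact hk)]
      exact hG.2 hk x hx hxk
  · -- the exceptional component
    intro k _
    exact W.factor_top hS n hcost hdr' k (by rw [hrow]; omega) (fun _ => 0)
      (fun _ _ _ => Nat.zero_le _) n le_rfl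
  · intro k
    exact dvd_ZB_zero 4 (by rw [hrow])
  · rw [← hsum]
    omega
  · intro k0
    have h3 := F.sum
    have h4 := Finset.add_sum_erase (univ : Finset (Tops P)) (fun t => hi t 4 - lo t 4 + 1)
      (mem_univ k0)
    omega

end Pool.Agent.GaussPoset.Ec
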