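import Pool.Agent.W_448s7_h27.EwX
import Pool.Agent.W_448s8f_h76.FjB

/-!
Window `4`: elimination with own elements of drop one (MP_448cb3_co, S7).
-/

namespace Pool.Agent.GaussPoset.Ec

set_option linter.unusedSectionVars false

open Polynomial Finset Sm Wd Cp W4 Cl

universe u

variable {P : Type u} [Fintype P] [PartialOrder P] [DecidableEq P] {r j : ℕ}
  {lo hi : Tops P → ℕ → ℕ} {e : Tops P → ℕ → ℕ → P} {N : Tops P → Finset P}
  {θ3 θ4 : Tops P → P → ℕ} {Nf : Tops P → Finset P} {θf : Tops P → (ℕ → ℕ → ℕ) → P → ℕ}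
  {D : Tops P → Prop} {K3 K' V3 : ℕ} {b : Tops P → ℕ}

/-- the elements of the boundary and the twins at the energy `n`: nothing is cheaper, the twins of
cost `n` have drop at most one, and the elements of the boundary of cost `n` are straight joins,
fold joins with the label `j - 5`, or own elements of drop at most one -/
structure OwnN (j n : ℕ) (N : Tops P → Finset P) (θ3 θ4 : Tops P → P → ℕ) : Prop where
  bd : ∀ z ∈ bdR (rA N), n ≤ cst 4 (hA N θ4) z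
  tw : ∀ x ∈ twA N, n ≤ tcst 4 (thA N θ4) (twT N x, x)
  dr : ∀ x ∈ twA N, tcst 4 (thA N θ4) (twT N x, x) = n →
    nab 4 x ≤ nab (4 + (thA N θ4 (twT N x) + 1)) x + 1
  eq : ∀ z ∈ bdR (rA N), cst 4 (hA N θ4) z = n → SJn N θ3 θ4 z ∨
    ((∃ x x', FJn j z x x') ∧ hA N θ4 z = j - 5) ∨
    (¬ Hul.Jn z ∧ nab 4 z ≤ nab (4 + hA N θ4 z) z + 1)

/-- own noise from the windows `3`, `4` -/
theorem own_of (Y : Y4 r j K3 K' V3 N b θ3 θ4) (hno : HnO P j K')
    {n : ℕ} (hn : n ≤ K') (hjn : ∀ z x x' : P, Cg z x x' → n ≤ ful 4 z) :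
    OwnN j n N θ3 θ4 := by
  obtain ⟨h1, h2, h3⟩ := Y.own_noise hno hn hjn
  refine ⟨h1, fun x hx => (h2 x hx).le, fun x hx h => ?_, fun z hz hc => ?_⟩
  · have := h2 x hx
    omega
  · exact Or.inl ⟨(h3 z hz hc).1, (h3 z hz hc).2.1, by
      rw [hc]; exact (h3 z hz hc).2.2.1, (h3 z hz hc).2.2.2⟩

section Class

variable {n : ℕ}

lemma OwnN.fold_mem (O : OwnN j n N θ3 θ4) (F : Fs P j lo hi e N θ4 Nf θf D)
    (K : Ctx P r j lo hi e) (h12 : 12 ≤ j) (Y : Y4 r j K3 K' V3 N b θ3 θ4)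
    {z x x' : P} (h : FJn j z x x') (hn : cst 4 (fun _ => j - 5) z = n) :
    z ∈ bdR (rA N) ∧ cst 4 (hA N θ4) z = n ∧ hA N θ4 z = j - 5 := by
  obtain ⟨h1, h2⟩ := F.fold_lab K h12 Y h
  have h3 : cst 4 (hA N θ4) z ≤ n := by
    rw [← hn]
    exact cst_mono_lab h2
  have h4 := le_antisymm h3 (O.bd z h1)
  refine ⟨h1, h4, ?_⟩
  rcases O.eq z h1 h4 with h5 | h5 | h5
  · exfalso
    have h6 := h5.2.2.1
    have h7 := cst_lt_ful (z := z) (k := j - 5) (by have := h.2.1; omega)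
    omega
  · exact h5.2
  · exact absurd h.1.jn h5.1

lemma OwnN.full_mem (O : OwnN j n N θ3 θ4) (Y : Y4 r j K3 K' V3 N b θ3 θ4) (h12 : 12 ≤ j)
    {z x x' : P} (h : Cg z x x') (hn : ful 4 z = n) :
    z ∈ bdR (rA N) ∧ cst 4 (hA N θ4) z = n ∧ hA N θ4 z = lev z - 4 := by
  have hpos := rA_pos Y.W
  have hzR := join_mem_rA Y.W h.jn
  obtain ⟨z', hz', hle, -⟩ := exists_bd_above hpos hzR
  have hlz : j + 1 ≤ lev z := by
    by_contra hcon
    exact Y.W.gt.no_join z (by omega) h.jn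
  have hzz : z = z' := by
    by_contra hne
    have e1 := ful_lt (w := 4) (lt_of_le_of_ne hle hne) (by omega)
    have e2 := O.bd z' hz'
    have e3 := cst_le_ful 4 (hA N θ4) z'
    omega
  subst hzz
  have hc : cst 4 (hA N θ4) z = n := le_antisymm (by rw [← hn]; exact cst_le_ful _ _ _)
    (O.bd z hz')
  refine ⟨hz', hc, ?_⟩
  rcases O.eq z hz' hc with h5 | ⟨⟨y, y', h5⟩, h6⟩ | h5
  · exact h5.2.1
  · exfalso
    have h7 : cst 4 (hA N θ4) z = cst 4 (fun _ => j - 5) z := by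
      unfold cst ez
      rw [h6]
    have h8 := cst_lt_ful (z := z) (k := j - 5) (by omega)
    omega
  · exact absurd h.jn h5.1

/-- **The class of the largest drop at window `4`**, with own elements of drop one. -/
theorem OwnN.class_par (O : OwnN j n N θ3 θ4) (F : Fs P j lo hi e N θ4 Nf θf D)
    (K : Ctx P r j lo hi e) (h12 : 12 ≤ j) (Y : Y4 r j K3 K' V3 N b θ3 θ4) {p : ℕ}
    (hgen : ∀ c0 : ℕ, c0 + 1 < (lv P 4).card →
      (∀ z ∈ bdR (rA N), cst 4 (hA N θ4) z = n →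
        c0 + nab 4 z ≤ (lv P 4).card + nab (4 + hA N θ4 z) z) →
      ∑ z ∈ (bdR (rA N)).filter (fun z => cst 4 (hA N θ4) z = n ∧
        c0 + nab 4 z = (lv P 4).card + nab (4 + hA N θ4 z) z),
        (-1 : ℤ) ^ (nst 4 (hA N θ4) z) = 0)
    (hp1 : ∀ z x x' : P, Cg z x x' → ful 4 z = n → 3 ≤ nab 4 z →
      nst 4 (fun z => lev z - 4) z % 2 = p)
    (hp2 : ∀ z x x' : P, FJn j z x x' → cst 4 (fun _ => j - 5) z = n →
      2 + nab (j - 1) z ≤ nab 4 z → nst 4 (fun _ => j - 5) z % 2 = p) :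
    (∀ z x x' : P, Cg z x x' → ful 4 z = n → nab 4 z ≤ 2) ∧
    (∀ z x x' : P, FJn j z x x' → cst 4 (fun _ => j - 5) z = n →
      nab 4 z ≤ 1 + nab (j - 1) z) := by
  classical
  -- the members of the classes of drop greater than one
  have key : ∀ z ∈ bdR (rA N), cst 4 (hA N θ4) z = n →
      nab 4 z ≤ 1 + nab (4 + hA N θ4 z) z := by
    by_contra hcon
    push Not at hcon
    obtain ⟨z0, g1, g2, g3⟩ := hcon
    let M : Finset P := (bdR (rA N)).filter (fun z => cst 4 (hA N θ4) z = n)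
    have hM : M.Nonempty := ⟨z0, mem_filter.mpr ⟨g1, g2⟩⟩
    obtain ⟨z1, hz1, hmax⟩ := M.exists_max_image (fun z => nab 4 z - nab (4 + hA N θ4 z) z) hM
    have hz1' := mem_filter.mp hz1
    have h2 := hmax z0 (mem_filter.mpr ⟨g1, g2⟩)
    have hL := nab_le_card (P := P) 4 z1
    obtain ⟨c0, hc0⟩ : ∃ c0, c0 + (nab 4 z1 - nab (4 + hA N θ4 z1) z1) = (lv P 4).card :=
      ⟨(lv P 4).card - (nab 4 z1 - nab (4 + hA N θ4 z1) z1), by omega⟩
    have h3 := hgen c0 (by omega) (fun z hz hc => by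
      have h4 := hmax z (mem_filter.mpr ⟨hz, hc⟩)
      omega)
    have hpar : ∀ z ∈ (bdR (rA N)).filter (fun z => cst 4 (hA N θ4) z = n ∧
        c0 + nab 4 z = (lv P 4).card + nab (4 + hA N θ4 z) z),
        (-1 : ℤ) ^ (nst 4 (hA N θ4) z) = (-1) ^ p := by
      intro z hz
      rw [mem_filter] at hz
      obtain ⟨a1, a2, a3⟩ := hz
      have a4 : nst 4 (hA N θ4) z % 2 = p := by
        rcases O.eq z a1 a2 with a5 | ⟨⟨x, x', a5⟩, a6⟩ | a5
        · obtain ⟨b1, b2, b3, x, x', b4⟩ := a5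
          have h4 := Y.W.bd_lev a1
          rw [b2, show 4 + (lev z - 4) = lev z by omega, nab_self] at a3
          rw [nst_congr (h := hA N θ4) (h' := fun z => lev z - 4) b2]
          exact hp1 z x x' b4 (by rw [← b3]; exact a2) (by omega)
        · rw [a6, show 4 + (j - 5) = j - 1 by omega] at a3
          rw [nst_congr (h := hA N θ4) (h' := fun _ => j - 5) a6]
          refine hp2 z x x' a5 ?_ (by omega)
          rw [← a2]
          unfold cst ez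
          rw [a6]
        · have := a5.2
          omega
      rw [← Nat.div_add_mod (nst 4 (hA N θ4) z) 2, a4, pow_add, pow_mul]
      norm_num
    rw [Finset.sum_congr rfl hpar, Finset.sum_const, nsmul_eq_mul] at h3
    have h5 : (0 : ℤ) < (((bdR (rA N)).filter (fun z => cst 4 (hA N θ4) z = n ∧
        c0 + nab 4 z = (lv P 4).card + nab (4 + hA N θ4 z) z)).card : ℤ) := by
      have h6 : 0 < ((bdR (rA N)).filter (fun z => cst 4 (hA N θ4) z = n ∧
          c0 + nab 4 z = (lv P 4).card + nab (4 + hA N θ4 z) z)).card :=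
        Finset.card_pos.mpr ⟨z1, mem_filter.mpr ⟨hz1'.1, hz1'.2, by omega⟩⟩
      exact_mod_cast h6
    rcases mul_eq_zero.mp h3 with h6 | h6
    · omega
    · exact absurd h6 (pow_ne_zero _ (by norm_num))
  refine ⟨fun z x x' h hn => ?_, fun z x x' h hn => ?_⟩
  · obtain ⟨a1, a2, a3⟩ := O.full_mem Y h12 h hn
    have h4 := Y.W.bd_lev a1
    have h5 := key z a1 a2
    rw [a3, show 4 + (lev z - 4) = lev z by omega, nab_self] at h5
    exact h5
  · obtain ⟨a1, a2, a3⟩ := O.fold_mem F K h12 Y h hn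
    have h5 := key z a1 a2
    rw [a3, show 4 + (j - 5) = j - 1 by omega] at h5
    exact h5

end Class

/-- **Elimination at window `4`**, with own elements of drop one. -/
theorem Fs.killN (F : Fs P j lo hi e N θ4 Nf θf D) (K : Ctx P r j lo hi e) (h12 : 12 ≤ j)
    (Y : Y4 r j K3 K' V3 N b θ3 θ4) {n : ℕ} (O : OwnN j n N θ3 θ4) (hFo : HnF P j n)
    {good : Tops P → (P → ℕ) → ℕ → Prop} (hdv : HDv P n 1 N θ4 Nf D good)
    (hK : ∀ e' F', Vd 4 e' F' → ∑ x, e' x = n → Ew.Ok (rA N) (thA N θ4) e' →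
      (El.KG (ED D) Nf good e').card ≤ 1) {p : ℕ}
    (hp : ∀ z x x' : P, Cg z x x' → ful 4 z = n → 3 ≤ nab 4 z →
      nst 4 (fun z => lev z - 4) z % 2 = p) :
    ∀ z x x' : P, Cg z x x' → ful 4 z = n → nab 4 z ≤ 2 :=
  (O.class_par F K h12 Y (p := p)
    (fun _ hc hle => F.gsum_gen K h12 Y hdv O.tw O.bd hK hc hle)
    hp (fun z x x' h hc _ => absurd hc (hFo z x x' h))).1

/-- divisibility at the cost of the twins -/
theorem Fs.hdv_top (F : Fs P j lo hi e N θ4 Nf θf D) (K : Ctx P r j lo hi e) (h12 : 12 ≤ j)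
    (Y : Y4 r j K3 K' V3 N b θ3 θ4) {tb : ℕ → ℕ → ℕ} (htb : TbOK tb) {n : ℕ} (hn1 : 1 ≤ n)
    {good : Tops P → (P → ℕ) → ℕ → Prop}
    (hloc : ∀ t ∈ ED D, ∀ β β' : P → ℕ, (∀ x ∈ Nf t, β x = β' x) → ∀ m, good t β m → good t β' m)
    (hcap : ∀ t ∈ ED D, ∀ β m, good t β m → ∀ x ∈ Nf t, β x ≤ θf t tb x)
    (hgood : ∀ t ∈ ED D, ∀ β m, m ≤ n → good t β m → (∀ x ∈ Nf t, β x ≤ θf t E7t4 x) ∨
      (1 + X : ℤ[X]) ^ (hi t 4 - lo t 4 + 1) ∣
        ZB (P := {x : P // x ∈ Nf t}) 4 ∅ 0 (fun x => β x) m)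
    (O : OwnN j n N θ3 θ4) : HDv P n 1 N θ4 Nf D good := fun _ hS hd =>
  F.graded_top K h12 Y htb hn1 hloc hcap hgood O.tw O.dr hS hd

/-- **Divisibility with the graded labels `Gd`**, at the cost of the twins. -/
theorem Fs.hdv_Gd_top (F : Fs P j lo hi e N θ4 Nf θf D) (K : Ctx P r j lo hi e) (h12 : 12 ≤ j)
    (Y : Y4 r j K3 K' V3 N b θ3 θ4) {tb : ℕ → ℕ → ℕ} {n p1 M : ℕ} (hn1 : 1 ≤ n)
    (htb : TbOK tb) (hm : ∀ k s, k ≤ j → E7t4 k s ≤ tb k s)
    {c : ℕ} (hc : ∀ k s, k ≤ j → tb k s ≤ c) (hbf : HBF P j lo hi e c p1 M)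
    (O : OwnN j n N θ3 θ4) :
    HDv P n 1 N θ4 Nf D (Gd j p1 M lo hi e Nf θf tb) := by
  refine F.hdv_top K h12 Y htb hn1 (fun t _ β β' h m hg => Gd.loc t β β' h m hg) ?_ ?_ O
  · intro t ht β m hg
    rcases hg with h1 | ⟨h1, h2, h3, h4⟩
    · exact F.cap (mem_ED.mp ht) hm h1
    · exact h2
  · intro t ht β m hmn hg
    rcases hg with h1 | ⟨h1, h2, h3, h4⟩
    · exact Or.inl h1
    · right
      obtain ⟨k1, k2, k3, k4⟩ := F.word K (mem_ED.mp ht) h1
      rw [k3]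
      refine ZB_part k1 β m (hbf t h1 _ (fun x => ?_) (fun x hx => ?_) m h4)
      · have := h2 x (by rw [k1]; exact x.2)
        rw [k2] at this
        exact this.trans (thC_le hc x.2)
      · exact h3 x (by rw [k1]; exact x.2) hx

/-- **Elimination at window `4`, `j = 15`**, with own elements of drop one. -/
theorem Fs.killN15 (F : Fs P 15 lo hi e N θ4 Nf θf D) (K : Ctx P r 15 lo hi e)
    (Y : Y4 r 15 K3 K' V3 N b θ3 θ4) {n : ℕ} (hn1 : 1 ≤ n) (O : OwnN 15 n N θ3 θ4)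
    (hE : n ≤ 214 ∨ (n ≤ 221 ∧ ¬ ∃ z, E2 15 lo hi e N Nf D z)) {p : ℕ}
    (hp : ∀ z x x' : P, Cg z x x' → ful 4 z = n → 3 ≤ nab 4 z →
      nst 4 (fun z => lev z - 4) z % 2 = p) :
    ∀ z x x' : P, Cg z x x' → ful 4 z = n → nab 4 z ≤ 2 := by
  obtain ⟨k1, k2, k3⟩ := cw15
  have H := K.gt.H
  have hg : ∀ l, l < 15 → Win.Good P l := fun l hl => K.gt.good l (by omega)
  obtain ⟨h1, h2, h3⟩ := tbj_ok (j := 15) (by omega)
  have hNF : Sm.NF P 15 := nf_odd (by norm_num)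
  exact F.killN K (by norm_num) Y O (hnF_nf hNF)
    (F.hdv_Gd_top K (by omega) Y hn1 h1 h2 h3
      (fun t hw B hB h5 m hm => bf15 hw (K.comp t) H hg t.2 hB h5 (by omega)) O)
    (fun e' F' hV hs hok => F.card_le_one K (by norm_num) Y row5_15 (cS := 121) de_15 k2
      (Or.inl rfl) k3 (by omega) (by omega) (by omega) (by
        rcases hE with h | h
        · exact Or.inr ⟨by omega, Or.inl (by omega)⟩
        · exact Or.inl h.2)
      hV hs hok) hp

/-- **Elimination at window `4`, `j = 14`**, with own elements of drop one. -/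
theorem Fs.killN14 (F : Fs P 14 lo hi e N θ4 Nf θf D) (K : Ctx P r 14 lo hi e)
    (Y : Y4 r 14 K3 K' V3 N b θ3 θ4) {n : ℕ} (hn1 : 1 ≤ n) (O : OwnN 14 n N θ3 θ4)
    (hFo : HnF P 14 n) (h191 : n ≤ 191) {p : ℕ}
    (hp : ∀ z x x' : P, Cg z x x' → ful 4 z = n → 3 ≤ nab 4 z →
      nst 4 (fun z => lev z - 4) z % 2 = p) :
    ∀ z x x' : P, Cg z x x' → ful 4 z = n → nab 4 z ≤ 2 := by
  obtain ⟨k1, k2, k3⟩ := cw14
  have H := K.gt.H
  have hg : ∀ l, l < 14 → Win.Good P l := fun l hl => K.gt.good l (by omega)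
  obtain ⟨h1, h2, h3⟩ := tbj_ok (j := 14) (by omega)
  exact F.killN K (by norm_num) Y O hFo
    (F.hdv_Gd_top K (by omega) Y hn1 h1 h2 h3
      (fun t hw B hB h5 m hm => bf14 hw (K.comp t) H hg t.2 hB h5 (by omega)) O)
    (fun e' F' hV hs hok => F.card_le_one K (by norm_num) Y row5_14 (cS := 100) de_14 k2
      (Or.inl rfl) k3 (by omega) (by omega) (by omega) (Or.inr ⟨by omega, Or.inl (by omega)⟩)
      hV hs hok) hp

end Pool.Agent.GaussPoset.Ec
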