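import Pool.Agent.W_448tw_h76.TwC

/-!
Inclusion-exclusion over the set of components which are hit beyond their threshold: the
far window theorem for poles of higher order (MP_448cb3_co).
-/

namespace Pool.Agent.GaussPoset

set_option linter.unusedSectionVars false

open Polynomial Finset

universe u

variable {P : Type u} [Fintype P] [PartialOrder P] [DecidableEq P]
variable {κ : Type*} [Fintype κ] [DecidableEq κ]

open Classical in
/-- sum over the valid configurations of energy `n` with the property `Q` -/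
noncomputable def ZQ (i n : ℕ) (Q : (P → ℕ) → Finset P → Prop) : ℤ[X] :=
  ∑ F : Finset P, ∑ _e ∈ ((univ : Finset P).piAntidiag n).filter (fun e => Vd i e F ∧ Q e F),
    (X : ℤ[X]) ^ F.card

lemma ZQ_congr {i n : ℕ} {Q Q' : (P → ℕ) → Finset P → Prop}
    (h : ∀ e F, Vd i e F → ∑ x, e x = n → (Q e F ↔ Q' e F)) : ZQ i n Q = ZQ i n Q' := by
  classical
  unfold ZQ
  refine Finset.sum_congr rfl fun F _ => ?_
  refine Finset.sum_congr (Finset.filter_congr fun e he => ?_) (fun _ _ => rfl)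
  rw [mem_piAntidiag] at he
  constructor
  · rintro ⟨h1, h2⟩
    exact ⟨h1, (h e F h1 he.1).mp h2⟩
  · rintro ⟨h1, h2⟩
    exact ⟨h1, (h e F h1 he.1).mpr h2⟩

lemma ZQ_split (i n : ℕ) (Q A : (P → ℕ) → Finset P → Prop) :
    ZQ i n Q = ZQ i n (fun e F => Q e F ∧ A e F) + ZQ i n (fun e F => Q e F ∧ ¬ A e F) := by
  classical
  unfold ZQ
  rw [← Finset.sum_add_distrib]
  refine Finset.sum_congr rfl fun F _ => ?_
  rw [← Finset.sum_filter_add_sum_filter_not
    (((univ : Finset P).piAntidiag n).filter (fun e => Vd i e F ∧ Q e F)) (fun e => A e F)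
    (fun _ => (X : ℤ[X]) ^ F.card)]
  congr 1
  · refine Finset.sum_congr ?_ (fun _ _ => rfl)
    ext e
    simp only [mem_filter]
    tauto
  · refine Finset.sum_congr ?_ (fun _ _ => rfl)
    ext e
    simp only [mem_filter]
    tauto

lemma Z_eq_ZQ (i n : ℕ) : Z P i n = ZQ (P := P) i n (fun _ _ => True) := by
  classical
  rw [Z_eq_sum, Finset.sum_comm]
  unfold ZQ
  refine Finset.sum_congr rfl fun F _ => ?_
  rw [← Finset.sum_filter]
  refine Finset.sum_congr ?_ (fun _ _ => rfl)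
  ext e
  simp only [mem_filter, and_true]

lemma ND_eq_ZQ (i n : ℕ) (R : Finset P) (h : P → ℕ) :
    ND i R h n = ZQ i n (fun e F => ∀ z ∈ bdR R, ¬ Dgz h e F z) := by
  classical
  unfold ND ZQ
  refine Finset.sum_congr rfl fun F _ => ?_
  refine Finset.sum_congr ?_ (fun _ _ => rfl)
  ext e
  simp only [mem_filter]

/-- the sum over fibres -/
lemma ZQ_fiber (i n : ℕ) (Q : (P → ℕ) → Finset P → Prop) (K : (P → ℕ) → Finset P → Finset κ)
    (S : Finset (Finset κ)) :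
    ZQ i n (fun e F => Q e F ∧ K e F ∈ S) = ∑ s ∈ S, ZQ i n (fun e F => Q e F ∧ K e F = s) := by
  classical
  unfold ZQ
  rw [Finset.sum_comm]
  refine Finset.sum_congr rfl fun F _ => ?_
  rw [← Finset.sum_biUnion]
  · refine Finset.sum_congr ?_ (fun _ _ => rfl)
    ext e
    simp only [mem_filter, mem_biUnion]
    constructor
    · rintro ⟨h1, h2, h3, h4⟩
      exact ⟨K e F, h4, h1, h2, h3, rfl⟩
    · rintro ⟨s, hs, h1, h2, h3, h4⟩
      exact ⟨h1, h2, h3, h4 ▸ hs⟩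
  · intro s _ s' _ hne
    simp only [Function.onFun]
    rw [Finset.disjoint_left]
    intro e he he'
    rw [mem_filter] at he he'
    exact hne (he.2.2.2.symm.trans he'.2.2.2)

/-- exact defect sets -/
lemma dvd_ZQ_eq {i n d : ℕ} {p : ℤ[X]} {Q : (P → ℕ) → Finset P → Prop}
    {K : (P → ℕ) → Finset P → Finset κ}
    (h : ∀ S : Finset κ, S.card ≤ d → p ∣ ZQ i n (fun e F => Q e F ∧ K e F ⊆ S)) :
    ∀ S : Finset κ, S.card ≤ d → p ∣ ZQ i n (fun e F => Q e F ∧ K e F = S) := by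
  classical
  intro S
  induction S using Finset.strongInduction with
  | H S ih =>
  intro hS
  have h1 : ZQ i n (fun e F => Q e F ∧ K e F ⊆ S) =
      ∑ s ∈ S.powerset, ZQ i n (fun e F => Q e F ∧ K e F = s) := by
    rw [← ZQ_fiber]
    exact ZQ_congr fun e F _ _ => by rw [mem_powerset]
  have h2 : S.powerset = insert S S.ssubsets := by
    rw [Finset.ssubsets, Finset.insert_erase (Finset.mem_powerset_self S)]
  have h3 : S ∉ S.ssubsets := by
    rw [Finset.mem_ssubsets]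
    exact fun h => h.2 (Finset.Subset.refl S)
  rw [h2, Finset.sum_insert h3] at h1
  have h4 := h S hS
  rw [h1] at h4
  refine (dvd_add_left (Finset.dvd_sum fun s hs => ?_)).mp h4
  rw [Finset.mem_ssubsets] at hs
  exact ih s hs ((Finset.card_le_card hs.1).trans hS)

/-- at most `d` defects -/
theorem dvd_ZQ_card {i n d : ℕ} {p : ℤ[X]} {Q : (P → ℕ) → Finset P → Prop}
    {K : (P → ℕ) → Finset P → Finset κ}
    (h : ∀ S : Finset κ, S.card ≤ d → p ∣ ZQ i n (fun e F => Q e F ∧ K e F ⊆ S)) :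
    p ∣ ZQ i n (fun e F => Q e F ∧ (K e F).card ≤ d) := by
  classical
  have h1 : ZQ i n (fun e F => Q e F ∧ (K e F).card ≤ d) =
      ∑ s ∈ (univ : Finset (Finset κ)).filter (fun s => s.card ≤ d),
        ZQ i n (fun e F => Q e F ∧ K e F = s) := by
    rw [← ZQ_fiber]
    exact ZQ_congr fun e F _ _ => by rw [mem_filter]; simp
  rw [h1]
  refine Finset.dvd_sum fun s hs => ?_
  rw [mem_filter] at hs
  exact dvd_ZQ_eq h s hs.2

/-- **Inclusion-exclusion.**  `K e F ⊆ E` is the set of defects, `Q` excludes the hard defects;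
for every `S ⊆ E` with at most `d` elements there is a system without dangerous elements iff
`Q` holds and the defects are in `S`. -/
theorem far_ie {i n d : ℕ} {p : ℤ[X]} (Q : (P → ℕ) → Finset P → Prop)
    (K : (P → ℕ) → Finset P → Finset κ) (E : Finset κ)
    (R : Finset κ → Finset P) (h : Finset κ → P → ℕ)
    (hK : ∀ e F, K e F ⊆ E)
    (hND : ∀ S, S ⊆ E → S.card ≤ d → p ∣ ND i (R S) (h S) n)
    (hQ : ∀ S, S ⊆ E → S.card ≤ d → ∀ e F, Vd i e F → ∑ x, e x = n →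
      ((∀ z ∈ bdR (R S), ¬ Dgz (h S) e F z) ↔ (Q e F ∧ K e F ⊆ S))) :
    p ∣ Z P i n - ZQ i n (fun e F => ¬ (Q e F ∧ (K e F).card ≤ d)) := by
  classical
  have h1 : Z P i n = ZQ i n (fun e F => Q e F ∧ (K e F).card ≤ d) +
      ZQ i n (fun e F => ¬ (Q e F ∧ (K e F).card ≤ d)) := by
    rw [Z_eq_ZQ, ZQ_split i n (fun _ _ => True) (fun e F => Q e F ∧ (K e F).card ≤ d)]
    congr 1
    · exact ZQ_congr fun e F _ _ => by simp
    · exact ZQ_congr fun e F _ _ => by simp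
  rw [h1, add_sub_cancel_right]
  refine dvd_ZQ_card fun S hS => ?_
  have h2 : ZQ i n (fun e F => Q e F ∧ K e F ⊆ S) =
      ZQ i n (fun e F => Q e F ∧ K e F ⊆ S ∩ E) :=
    ZQ_congr fun e F _ _ => by
      rw [subset_inter_iff]
      exact ⟨fun h => ⟨h.1, h.2, hK e F⟩, fun h => ⟨h.1, h.2.1⟩⟩
  have h3 : (S ∩ E).card ≤ d := (Finset.card_le_card inter_subset_left).trans hS
  have h4 := hND (S ∩ E) inter_subset_right h3
  rw [ND_eq_ZQ] at h4
  rw [h2]
  have h5 : ZQ i n (fun e F => Q e F ∧ K e F ⊆ S ∩ E) =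
      ZQ i n (fun e F => ∀ z ∈ bdR (R (S ∩ E)), ¬ Dgz (h (S ∩ E)) e F z) :=
    ZQ_congr fun e F hV hs => (hQ (S ∩ E) inter_subset_right h3 e F hV hs).symm
  rw [h5]
  exact h4

/-- evaluation of a sum in which only cheapest configurations of single elements occur -/
theorem ZQ_lead {i n : ℕ} {Q : (P → ℕ) → Finset P → Prop} (h : P → ℕ) (T : Finset P)
    (hgr : GradedBelow P) (h2 : ∀ z ∈ T, 1 ≤ h z ∧ h z ≤ lev z - i)
    (hb : ∀ z ∈ T, cst i h z = n → ∀ F, Vd i (ez i h z) F → Q (ez i h z) F)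
    (hall : ∀ e F, Vd i e F → ∑ x, e x = n → Q e F → ∃ z ∈ T, e = ez i h z) :
    ZQ i n Q = ∑ z ∈ T.filter (fun z => cst i h z = n), Lt i h z := by
  classical
  have h3 : ∀ z ∈ T.filter (fun z => cst i h z = n), Lt i h z =
        ∑ F : Finset P, if Vd i (ez i h z) F then (X : ℤ[X]) ^ F.card else 0 := by
    intro z hz
    rw [mem_filter] at hz
    rw [sum_vd, ← lead_eq hgr (h2 z hz.1).1 (h2 z hz.1).2]
  rw [Finset.sum_congr rfl h3, Finset.sum_comm]
  unfold ZQ
  refine Finset.sum_congr rfl fun F _ => ?_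
  rw [← Finset.sum_filter]
  symm
  refine Finset.sum_bij (fun z _ => ez i h z) ?_ ?_ ?_ (fun _ _ => rfl)
  · intro z hz
    rw [mem_filter, mem_filter] at hz
    rw [mem_filter, mem_piAntidiag]
    exact ⟨⟨hz.1.2, fun _ _ => mem_univ _⟩, hz.2, hb z hz.1.1 hz.1.2 F hz.2⟩
  · intro z hz z' hz' he
    rw [mem_filter, mem_filter] at hz hz'
    exact ez_inj (h2 z hz.1.1).1 (h2 z hz.1.1).2 (h2 z' hz'.1.1).1 (h2 z' hz'.1.1).2 he
  · intro e he
    rw [mem_filter, mem_piAntidiag] at he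
    obtain ⟨⟨he1, -⟩, hV, hq⟩ := he
    obtain ⟨z, hz, rfl⟩ := hall e F hV he1 hq
    refine ⟨z, ?_, rfl⟩
    rw [mem_filter, mem_filter]
    exact ⟨⟨hz, he1⟩, hV⟩

/-- **The window theorem of order `d + 1`**: signs of the cheapest bad elements cancel. -/
theorem far_ie_sign {i n d b : ℕ} (Q : (P → ℕ) → Finset P → Prop)
    (K : (P → ℕ) → Finset P → Finset κ) (E : Finset κ)
    (R : Finset κ → Finset P) (h : Finset κ → P → ℕ)
    (hK : ∀ e F, K e F ⊆ E)
    (hND : ∀ S, S ⊆ E → S.card ≤ d → (1 + X : ℤ[X]) ^ b ∣ ND i (R S) (h S) n)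
    (hQ : ∀ S, S ⊆ E → S.card ≤ d → ∀ e F, Vd i e F → ∑ x, e x = n →
      ((∀ z ∈ bdR (R S), ¬ Dgz (h S) e F z) ↔ (Q e F ∧ K e F ⊆ S)))
    (hZ : (1 + X : ℤ[X]) ^ b ∣ Z P i n)
    (hgr : GradedBelow P) (k : P → ℕ) (T : Finset P)
    (h2 : ∀ z ∈ T, 1 ≤ k z ∧ k z ≤ lev z - i) (hcst : ∀ z ∈ T, cst i k z = n)
    (hb : ∀ z ∈ T, ∀ F, Vd i (ez i k z) F → ¬ (Q (ez i k z) F ∧ (K (ez i k z) F).card ≤ d))
    (hall : ∀ e F, Vd i e F → ∑ x, e x = n → ¬ (Q e F ∧ (K e F).card ≤ d) →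
      ∃ z ∈ T, e = ez i k z)
    {c0 : ℕ} (hc : c0 < b)
    (hle : ∀ z ∈ T, c0 + nab i z ≤ (lv P i).card + nab (i + k z) z) :
    ∑ z ∈ T.filter (fun z => c0 + nab i z = (lv P i).card + nab (i + k z) z),
      (-1 : ℤ) ^ (nst i k z) = 0 := by
  classical
  have h1 := far_ie Q K E R h hK hND hQ
  rw [ZQ_lead k T hgr h2 (fun z hz _ => hb z hz) hall] at h1
  have h3 : T.filter (fun z => cst i k z = n) = T :=
    Finset.filter_true_of_mem fun z hz => hcst z hz
  rw [h3] at h1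
  exact sign_sum_of_dvd T hZ h1 hc hle

end Pool.Agent.GaussPoset
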