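import Pool.Agent.W_448s7_h27.HangA

/-!
Hanging a poset below one element: the main theorem.
-/

namespace Pool.Agent.GaussPoset

set_option linter.unusedSectionVars false

open Finset Yg

universe u v

/-- generating function of a chain -/
lemma U_chain (a k : ℕ) : ((U (Fin a)ᵒᵈ k : Polynomial ℤ) : PowerSeries ℤ) = qb qq (k + a) a := by
  classical
  have hn : ∀ s : Fin 1, (fun _ : Fin 1 => a) s ≤ a := fun _ => le_rfl
  have h : Antitone (fun _ : Fin 1 => a) := fun _ _ _ => le_rfl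
  let e : (Fin a)ᵒᵈ ≃ {p : Fin 1 × Fin a // (p.2 : ℕ) < (fun _ : Fin 1 => a) p.1} :=
    { toFun := fun x => ⟨(0, OrderDual.ofDual x), (OrderDual.ofDual x).2⟩
      invFun := fun p => OrderDual.toDual p.1.2
      left_inv := fun x => rfl
      right_inv := by
        rintro ⟨⟨s, c⟩, hp⟩
        apply Subtype.ext
        apply Prod.ext
        · exact (Subsingleton.elim _ _)
        · rfl }
  have he : ∀ x y : (Fin a)ᵒᵈ, x ≤ y ↔ (e y : Fin 1 × Fin a) ≤ e x := by
    intro x y
    constructor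
    · intro hxy
      exact ⟨le_rfl, hxy⟩
    · intro hxy
      exact hxy.2
  rw [U_young h e he k, UY_eq qq_ne _ k _ h hn le_rfl]
  unfold DY
  rw [Matrix.det_fin_one]
  simp [ent, tr_self]

lemma qb_step (a k : ℕ) : (1 - (qq : PowerSeries ℤ) ^ (k + a + 1)) * qb qq (k + a) a =
    (1 - qq ^ (a + 1)) * qb qq (k + (a + 1)) (a + 1) := by
  have h1 := qb_prod (qq : PowerSeries ℤ) (k + a) a
  have h2 := qb_prod (qq : PowerSeries ℤ) (k + (a + 1)) (a + 1)
  rw [prod_range_succ, prod_range_succ'] at h2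
  have h3 : ∏ u ∈ range a, (1 - (qq : PowerSeries ℤ) ^ (k + (a + 1) - (u + 1))) =
      ∏ u ∈ range a, (1 - qq ^ (k + a - u)) := by
    refine prod_congr rfl fun u _ => ?_
    congr 2
    omega
  rw [h3, ← h1] at h2
  have h4 : (∏ u ∈ range a, (1 - (qq : PowerSeries ℤ) ^ (u + 1))) ≠ 0 := dn_ne a
  refine mul_right_cancel₀ h4 ?_
  rw [show k + (a + 1) - 0 = k + a + 1 by omega] at h2
  linear_combination -h2

section Main

variable {Q : Type u} [Fintype Q] [PartialOrder Q] [DecidableEq Q] {x0 : Q} {i b : ℕ}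

open Classical in
/-- weighted sum over the order preserving maps of `Q`, weight `f` of the value at `x0` -/
noncomputable def Sw (x0 : Q) (f : ℕ → PowerSeries ℤ) (m : ℕ) : PowerSeries ℤ :=
  ∑ σ ∈ (univ : Finset (Q → Fin (m + 1))).filter (fun σ => Monotone σ),
    qq ^ (∑ x, (σ x : ℕ)) * f (σ x0)

/-- the weight `f` gives a window polynomial of order `b` -/
def Pty (x0 : Q) (i b : ℕ) (f : ℕ → PowerSeries ℤ) : Prop :=
  ∃ D : PowerSeries ℤ, D ≠ 0 ∧ ∃ w : Polynomial (PowerSeries ℤ),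
    (1 + Polynomial.X : Polynomial (PowerSeries ℤ)) ^ b ∣ w ∧
      ∀ m, w.eval (pt i m) = D * Sw x0 f m

lemma Pty.add {f g : ℕ → PowerSeries ℤ} (hf : Pty x0 i b f) (hg : Pty x0 i b g) :
    Pty x0 i b (fun k => f k + g k) := by
  classical
  obtain ⟨D1, h1, w1, d1, e1⟩ := hf
  obtain ⟨D2, h2, w2, d2, e2⟩ := hg
  refine ⟨D1 * D2, mul_ne_zero h1 h2, Polynomial.C D2 * w1 + Polynomial.C D1 * w2,
    dvd_add (Dvd.dvd.mul_left d1 _) (Dvd.dvd.mul_left d2 _), fun m => ?_⟩
  rw [Polynomial.eval_add, Polynomial.eval_mul, Polynomial.eval_mul, Polynomial.eval_C,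
    Polynomial.eval_C, e1, e2]
  have : Sw x0 (fun k => f k + g k) m = Sw x0 f m + Sw x0 g m := by
    unfold Sw
    rw [← sum_add_distrib]
    exact sum_congr rfl fun σ _ => by ring
  rw [this]
  ring

lemma Sw_smul (c : PowerSeries ℤ) (f : ℕ → PowerSeries ℤ) (m : ℕ) :
    Sw x0 (fun k => c * f k) m = c * Sw x0 f m := by
  unfold Sw
  rw [mul_sum]
  exact sum_congr rfl fun σ _ => by ring

lemma Pty.smul (c : PowerSeries ℤ) {f : ℕ → PowerSeries ℤ} (hf : Pty x0 i b f) :
    Pty x0 i b (fun k => c * f k) := by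
  obtain ⟨D1, h1, w1, d1, e1⟩ := hf
  refine ⟨D1, h1, Polynomial.C c * w1, Dvd.dvd.mul_left d1 _, fun m => ?_⟩
  rw [Polynomial.eval_mul, Polynomial.eval_C, e1, Sw_smul]
  ring

lemma Pty.of_smul {c : PowerSeries ℤ} (hc : c ≠ 0) {f : ℕ → PowerSeries ℤ}
    (hf : Pty x0 i b (fun k => c * f k)) : Pty x0 i b f := by
  obtain ⟨D1, h1, w1, d1, e1⟩ := hf
  refine ⟨D1 * c, mul_ne_zero h1 hc, w1, d1, fun m => ?_⟩
  rw [e1, Sw_smul]
  ring

lemma Pty.zero : Pty x0 i b (fun _ => 0) := by
  refine ⟨1, one_ne_zero, 0, dvd_zero _, fun m => ?_⟩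
  rw [Polynomial.eval_zero]
  unfold Sw
  rw [sum_congr rfl (fun σ _ => mul_zero _), sum_const_zero, mul_zero]

lemma Pty.sum {ι : Type*} (s : Finset ι) {f : ι → ℕ → PowerSeries ℤ}
    (hf : ∀ j ∈ s, Pty x0 i b (f j)) : Pty x0 i b (fun k => ∑ j ∈ s, f j k) := by
  classical
  induction s using Finset.induction_on with
  | empty =>
    have : (fun k => ∑ j ∈ (∅ : Finset ι), f j k) = fun _ => 0 := by
      funext k
      exact sum_empty
    rw [this]
    exact Pty.zero
  | insert j s hj ih =>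
    have h1 : (fun k => ∑ j ∈ insert j s, f j k) = fun k => f j k + ∑ j ∈ s, f j k := by
      funext k
      exact sum_insert hj
    rw [h1]
    exact Pty.add (hf j (mem_insert_self _ _)) (ih fun j hj => hf j (mem_insert_of_mem hj))

lemma coe_U_hang {T : Type v} [Fintype T] [PartialOrder T] [DecidableEq T] (m : ℕ) :
    ((U (Hang Q T x0) m : Polynomial ℤ) : PowerSeries ℤ) =
      Sw x0 (fun k => ((U T k : Polynomial ℤ) : PowerSeries ℤ)) m := by
  classical
  rw [U_hang, ← Polynomial.coeToPowerSeries.ringHom_apply, map_sum]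
  unfold Sw
  refine sum_congr (by ext σ; simp) fun σ _ => ?_
  rw [map_mul, map_pow]
  simp

variable (hc : ∀ a : ℕ, (1 + Polynomial.X : Polynomial (PowerSeries ℤ)) ^ b ∣
  W (Hang Q (Fin a)ᵒᵈ x0) i)

include hc in
lemma pty_chain (a : ℕ) : Pty x0 i b (fun k => qb qq (k + a) a) := by
  refine ⟨qq ^ (i * Fintype.card (Hang Q (Fin a)ᵒᵈ x0)), pow_ne_zero _ qq_ne,
    W (Hang Q (Fin a)ᵒᵈ x0) i, hc a, fun m => ?_⟩
  have h1 : (W (Hang Q (Fin a)ᵒᵈ x0) i).eval (pt i m) =
      qq ^ (i * Fintype.card (Hang Q (Fin a)ᵒᵈ x0)) *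
        ((U (Hang Q (Fin a)ᵒᵈ x0) m : Polynomial ℤ) : PowerSeries ℤ) := W_eval i m
  rw [h1, coe_U_hang]
  simp only [U_chain]

include hc in
lemma pty_pow (j : ℕ) : ∀ a : ℕ, Pty x0 i b (fun k => qq ^ (j * k) * qb qq (k + a) a) := by
  induction j with
  | zero =>
    intro a
    simp only [Nat.zero_mul, pow_zero, one_mul]
    exact pty_chain hc a
  | succ j ih =>
    intro a
    refine Pty.of_smul (c := qq ^ (a + 1)) (pow_ne_zero _ qq_ne) ?_
    have h1 := Pty.add (ih a) (Pty.smul (-(1 - qq ^ (a + 1))) (ih (a + 1)))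
    have h2 : (fun k => qq ^ (j * k) * qb qq (k + a) a +
        -(1 - qq ^ (a + 1)) * (qq ^ (j * k) * qb qq (k + (a + 1)) (a + 1))) =
        fun k => (qq : PowerSeries ℤ) ^ (a + 1) * (qq ^ ((j + 1) * k) * qb qq (k + a) a) := by
      funext k
      have h3 := qb_step a k
      have h4 : (qq : PowerSeries ℤ) ^ ((j + 1) * k) = qq ^ (j * k) * qq ^ k := by
        rw [← pow_add]
        congr 1
        ring
      have h5 : (qq : PowerSeries ℤ) ^ (k + a + 1) = qq ^ (a + 1) * qq ^ k := by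
        rw [← pow_add]
        congr 1
        ring
      rw [h5] at h3
      rw [h4]
      linear_combination (qq : PowerSeries ℤ) ^ (j * k) * h3
    rw [← h2]
    exact h1

include hc in
/-- every poset hung below `x0` keeps the order of the chains -/
theorem dvd_W_hang (T : Type v) [Fintype T] [PartialOrder T] [DecidableEq T] :
    (1 + Polynomial.X : Polynomial (PowerSeries ℤ)) ^ b ∣ W (Hang Q T x0) i := by
  classical
  have hU : ∀ k, ((U T k : Polynomial ℤ) : PowerSeries ℤ) =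
      ∑ j ∈ range ((W T 0).natDegree + 1), ((W T 0).coeff j * (-1) ^ j * qq ^ j) * qq ^ (j * k) := by
    intro k
    have h1 : (W T 0).eval (-(PowerSeries.X : PowerSeries ℤ) ^ (0 + k + 1)) =
        PowerSeries.X ^ (0 * Fintype.card T) * ((U T k : Polynomial ℤ) : PowerSeries ℤ) :=
      W_eval 0 k
    rw [Nat.zero_mul, pow_zero, one_mul] at h1
    rw [← h1, Polynomial.eval_eq_sum_range]
    refine sum_congr rfl fun j _ => ?_
    rw [neg_pow, ← pow_mul]
    have : (qq : PowerSeries ℤ) ^ ((0 + k + 1) * j) = qq ^ j * qq ^ (j * k) := by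
      rw [← pow_add]
      congr 1
      ring
    rw [this]
    ring
  have h1 : Pty x0 i b (fun k => ((U T k : Polynomial ℤ) : PowerSeries ℤ)) := by
    have h2 : (fun k => ((U T k : Polynomial ℤ) : PowerSeries ℤ)) = fun k =>
        ∑ j ∈ range ((W T 0).natDegree + 1),
          ((W T 0).coeff j * (-1) ^ j * qq ^ j) * qq ^ (j * k) := by
      funext k
      exact hU k
    rw [h2]
    refine Pty.sum _ fun j _ => ?_
    refine Pty.smul _ ?_
    have h3 := pty_pow hc j 0
    simpa [qb_zero] using h3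
  obtain ⟨D, hD, w, hw, he⟩ := h1
  have hmon : ((1 + Polynomial.X : Polynomial (PowerSeries ℤ)) ^ b).Monic := by
    apply Polynomial.Monic.pow
    rw [add_comm]
    exact Polynomial.monic_X_add_C 1
  refine dvd_of_C_mul hD hmon ?_
  have key : Polynomial.C D * W (Hang Q T x0) i =
      Polynomial.C (qq ^ (i * Fintype.card (Hang Q T x0))) * w := by
    apply Polynomial.eq_of_infinite_eval_eq
    have hinj : Function.Injective (fun m : ℕ => pt i m) := by
      intro a b hab
      unfold pt at hab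
      simp only [neg_inj] at hab
      have := congrArg PowerSeries.order hab
      rw [PowerSeries.order_X_pow, PowerSeries.order_X_pow] at this
      have h2 : i + a + 1 = i + b + 1 := by exact_mod_cast this
      omega
    refine Set.infinite_of_injective_forall_mem hinj fun m => ?_
    simp only [Set.mem_ofPred_eq]
    rw [Polynomial.eval_mul, Polynomial.eval_C, Polynomial.eval_mul, Polynomial.eval_C, he m]
    have h3 : (W (Hang Q T x0) i).eval (pt i m) = qq ^ (i * Fintype.card (Hang Q T x0)) *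
        ((U (Hang Q T x0) m : Polynomial ℤ) : PowerSeries ℤ) := W_eval i m
    rw [h3, coe_U_hang]
    ring
  rw [key]
  exact Dvd.dvd.mul_left hw _

end Main

section Sub

variable {Q : Type u} [Fintype Q] [PartialOrder Q] [DecidableEq Q]

/-- a poset with a lower part hung below one element is a hanging -/
noncomputable def hangIso (t : Q → Prop) [DecidablePred t] (x0 : Q) (hx0 : ¬ t x0)
    (h1 : ∀ x y, x ≤ y → t y → t x) (h2 : ∀ x y, t x → ¬ t y → (x ≤ y ↔ x0 ≤ y)) :
    Hang {x : Q // ¬ t x} {x : Q // t x} ⟨x0, hx0⟩ ≃o Q where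
  toFun := Sum.elim (fun x => (x : Q)) (fun x => (x : Q))
  invFun := fun x => if h : t x then Sum.inr ⟨x, h⟩ else Sum.inl ⟨x, h⟩
  left_inv := by
    rintro (x | x)
    · simp [x.2]
    · simp [x.2]
  right_inv := by
    intro x
    by_cases h : t x
    · simp [h]
    · simp [h]
  map_rel_iff' := by
    rintro (x | x) (y | y)
    · exact Iff.rfl
    · constructor
      · intro h
        exact (x.2 (h1 _ _ h y.2)).elim
      · intro h
        exact h.elim
    · exact h2 x y x.2 y.2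
    · exact Iff.rfl

/-- order of the window polynomial of a poset with a part hung below one element -/
theorem dvd_W_of_hang (t : Q → Prop) [DecidablePred t] (x0 : Q) (hx0 : ¬ t x0)
    (h1 : ∀ x y, x ≤ y → t y → t x) (h2 : ∀ x y, t x → ¬ t y → (x ≤ y ↔ x0 ≤ y)) {i b : ℕ}
    (hc : ∀ a : ℕ, (1 + Polynomial.X : Polynomial (PowerSeries ℤ)) ^ b ∣
      W (Hang {x : Q // ¬ t x} (Fin a)ᵒᵈ ⟨x0, hx0⟩) i) :
    (1 + Polynomial.X : Polynomial (PowerSeries ℤ)) ^ b ∣ W Q i := by
  rw [← W_iso (hangIso t x0 hx0 h1 h2) i]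
  exact dvd_W_hang hc _

end Sub

end Pool.Agent.GaussPoset
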