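import Pool.Agent.W_448s7_h27.HangB

/-!
Young shapes with arbitrary posets hung below the ends of the first row and of the first column.
-/

namespace Pool.Agent.GaussPoset

set_option linter.unusedSectionVars false

open Finset Yg

universe u v

section Sub

variable {Q : Type u} [Fintype Q] [PartialOrder Q] [DecidableEq Q]

/-- order of the window polynomial of a poset with a (possibly empty) part hung below one element -/
theorem dvd_W_of_hang' (t : Q → Prop) [DecidablePred t] (x0 : Q) (hx0 : ¬ t x0)
    (h1 : ∀ x y, x ≤ y → t y → t x) (h2 : ∀ x y, t x → ¬ t y → (x ≤ y ↔ x0 ≤ y)) {i b : ℕ}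
    (hc : ∀ a : ℕ, (a = 0 ∨ ∃ x, t x) → (1 + Polynomial.X : Polynomial (PowerSeries ℤ)) ^ b ∣
      W (Hang {x : Q // ¬ t x} (Fin a)ᵒᵈ ⟨x0, hx0⟩) i) :
    (1 + Polynomial.X : Polynomial (PowerSeries ℤ)) ^ b ∣ W Q i := by
  by_cases h : ∃ x, t x
  · exact dvd_W_of_hang t x0 hx0 h1 h2 fun a => hc a (Or.inr h)
  · push Not at h
    have e : Q ≃o Hang {x : Q // ¬ t x} (Fin 0)ᵒᵈ ⟨x0, hx0⟩ :=
      { toFun := fun x => Sum.inl ⟨x, h x⟩
        invFun := Sum.elim (fun x => (x : Q)) (fun k => (OrderDual.ofDual k).elim0)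
        left_inv := fun x => rfl
        right_inv := by
          rintro (x | k)
          · rfl
          · exact (OrderDual.ofDual k).elim0
        map_rel_iff' := Iff.rfl }
    rw [W_iso e i]
    exact hc 0 (Or.inl rfl)

/-- order of the window polynomial of a Young shape with posets hung below the end `x1` of the
first row and below the end `x2` of the first column -/
theorem young_junk_dvd (t1 t2 : Q → Prop) [DecidablePred t1] [DecidablePred t2] (co : Q → ℕ × ℕ)
    (x1 x2 : Q) (hx11 : ¬ t1 x1) (hx12 : ¬ t2 x1) (hx21 : ¬ t1 x2) (hx22 : ¬ t2 x2)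
    (hlow1 : ∀ x y, x ≤ y → t1 y → t1 x) (hlow2 : ∀ x y, x ≤ y → t2 y → t2 x)
    (hh1 : ∀ x y, t1 x → ¬ t1 y → (x ≤ y ↔ x1 ≤ y))
    (hh2 : ∀ x y, t2 x → ¬ t2 y → (x ≤ y ↔ x2 ≤ y))
    (hinj : ∀ x y, ¬ t1 x → ¬ t2 x → ¬ t1 y → ¬ t2 y → co x = co y → x = y)
    (hle : ∀ x y, ¬ t1 x → ¬ t2 x → ¬ t1 y → ¬ t2 y → (x ≤ y ↔ co y ≤ co x))
    (hdown : ∀ x, ¬ t1 x → ¬ t2 x → ∀ c ≤ co x, ∃ y, ¬ t1 y ∧ ¬ t2 y ∧ co y = c)
    (hr1 : (∃ x, t1 x) → (co x1).1 = 0 ∧ ∀ y, ¬ t1 y → ¬ t2 y → y ≠ x1 → (co y).2 < (co x1).2)
    (hr2 : (∃ x, t2 x) → (co x2).2 = 0 ∧ ∀ y, ¬ t1 y → ¬ t2 y → y ≠ x2 → (co y).1 < (co x2).1)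
    {i k : ℕ} (hk : k ≤ i + 1) (hcell : ∀ s, s + 1 = k → ∃ x, ¬ t1 x ∧ ¬ t2 x ∧ co x = (s, i)) :
    (1 + Polynomial.X : Polynomial (PowerSeries ℤ)) ^ k ∣ W Q i := by
  classical
  refine dvd_W_of_hang' t1 x1 hx11 hlow1 hh1 fun a ha => ?_
  -- second hanging
  let t2' : Hang {x : Q // ¬ t1 x} (Fin a)ᵒᵈ ⟨x1, hx11⟩ → Prop :=
    Sum.elim (fun x => t2 (x : Q)) (fun _ => False)
  refine dvd_W_of_hang' t2' (Sum.inl ⟨x2, hx21⟩) hx22 ?_ ?_ fun a' ha' => ?_
  · rintro (x | x) (y | y) hxy hy
    · exact hlow2 _ _ hxy hy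
    · exact hy.elim
    · exact (hx12 (hlow2 _ _ (show x1 ≤ (y : Q) from hxy) hy)).elim
    · exact hy.elim
  · rintro (x | x) (y | y) hx hy
    · exact hh2 _ _ hx hy
    · exact ⟨fun h => h.elim, fun h => h.elim⟩
    · exact hx.elim
    · exact hx.elim
  · have ha2 : a' = 0 ∨ ∃ x, t2 x := by
      rcases ha' with h | ⟨(x | x), hx⟩
      · exact Or.inl h
      · exact Or.inr ⟨x, hx⟩
      · exact hx.elim
    -- coordinates
    let co' : Hang {x : Q // ¬ t1 x} (Fin a)ᵒᵈ ⟨x1, hx11⟩ → ℕ × ℕ :=
      Sum.elim (fun x => co (x : Q)) (fun k => (0, (co x1).2 + 1 + (OrderDual.ofDual k).val))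
    let co2 : Hang {x : Hang {x : Q // ¬ t1 x} (Fin a)ᵒᵈ ⟨x1, hx11⟩ // ¬ t2' x} (Fin a')ᵒᵈ
        ⟨Sum.inl ⟨x2, hx21⟩, hx22⟩ → ℕ × ℕ :=
      Sum.elim (fun x => co' x.1) (fun k => ((co x2).1 + 1 + (OrderDual.ofDual k).val, 0))
    have hA : 0 < a → (co x1).1 = 0 ∧ ∀ y, ¬ t1 y → ¬ t2 y → y ≠ x1 → (co y).2 < (co x1).2 := by
      intro h0
      rcases ha with h | h
      · omega
      · exact hr1 h
    have hB : 0 < a' → (co x2).2 = 0 ∧ ∀ y, ¬ t1 y → ¬ t2 y → y ≠ x2 → (co y).1 < (co x2).1 := by
      intro h0
      rcases ha2 with h | h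
      · omega
      · exact hr2 h
    have hA' : 0 < a → ∀ y, ¬ t1 y → ¬ t2 y → (co y).2 ≤ (co x1).2 := by
      intro h0 y h1 h2
      by_cases hy : y = x1
      · rw [hy]
      · exact ((hA h0).2 y h1 h2 hy).le
    have hB' : 0 < a' → ∀ y, ¬ t1 y → ¬ t2 y → (co y).1 ≤ (co x2).1 := by
      intro h0 y h1 h2
      by_cases hy : y = x2
      · rw [hy]
      · exact ((hB h0).2 y h1 h2 hy).le
    refine young_dvd_co co2 ?_ ?_ ?_ hk ?_
    · -- injective
      rintro (⟨(x | x), hx⟩ | x) (⟨(y | y), hy⟩ | y) hxy
      · have h := hinj x y x.2 hx y.2 hy hxy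
        have h' : x = y := Subtype.ext h
        subst h'
        rfl
      · exfalso
        have h : co (x : Q) = (0, (co x1).2 + 1 + (OrderDual.ofDual y).val) := hxy
        have := hA' (by have := (OrderDual.ofDual y).2; omega) x x.2 hx
        rw [h] at this
        simp only at this
        omega
      · exfalso
        have h : co (x : Q) = ((co x2).1 + 1 + (OrderDual.ofDual y).val, 0) := hxy
        have := hB' (by have := (OrderDual.ofDual y).2; omega) x x.2 hx
        rw [h] at this
        simp only at this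
        omega
      · exfalso
        have h : co (y : Q) = (0, (co x1).2 + 1 + (OrderDual.ofDual x).val) := hxy.symm
        have := hA' (by have := (OrderDual.ofDual x).2; omega) y y.2 hy
        rw [h] at this
        simp only at this
        omega
      · have h : ((0 : ℕ), (co x1).2 + 1 + (OrderDual.ofDual x).val) =
          (0, (co x1).2 + 1 + (OrderDual.ofDual y).val) := hxy
        have h' : x = y := by
          apply OrderDual.ofDual.injective
          apply Fin.ext
          have := (Prod.mk.injEq _ _ _ _ ▸ h).2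
          omega
        subst h'
        rfl
      · exfalso
        have h : ((0 : ℕ), (co x1).2 + 1 + (OrderDual.ofDual x).val) =
          ((co x2).1 + 1 + (OrderDual.ofDual y).val, 0) := hxy
        have := (Prod.mk.injEq _ _ _ _ ▸ h).2
        omega
      · exfalso
        have h : co (y : Q) = ((co x2).1 + 1 + (OrderDual.ofDual x).val, 0) := hxy.symm
        have := hB' (by have := (OrderDual.ofDual x).2; omega) y y.2 hy
        rw [h] at this
        simp only at this
        omega
      · exfalso
        have h : ((0 : ℕ), (co x1).2 + 1 + (OrderDual.ofDual y).val) =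
          ((co x2).1 + 1 + (OrderDual.ofDual x).val, 0) := hxy.symm
        have := (Prod.mk.injEq _ _ _ _ ▸ h).2
        omega
      · have h : ((co x2).1 + 1 + (OrderDual.ofDual x).val, (0 : ℕ)) =
          ((co x2).1 + 1 + (OrderDual.ofDual y).val, 0) := hxy
        have h' : x = y := by
          apply OrderDual.ofDual.injective
          apply Fin.ext
          have := (Prod.mk.injEq _ _ _ _ ▸ h).1
          omega
        subst h'
        rfl
    · -- order
      rintro (⟨(x | x), hx⟩ | x) (⟨(y | y), hy⟩ | y)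
      · exact hle x y x.2 hx y.2 hy
      · constructor
        · intro h
          exact h.elim
        · intro h
          exfalso
          have h' : ((0 : ℕ), (co x1).2 + 1 + (OrderDual.ofDual y).val) ≤ co (x : Q) := h
          have := hA' (by have := (OrderDual.ofDual y).2; omega) x x.2 hx
          have h3 := h'.2
          simp only at h3
          omega
      · constructor
        · intro h
          exact h.elim
        · intro h
          exfalso
          have h' : ((co x2).1 + 1 + (OrderDual.ofDual y).val, (0 : ℕ)) ≤ co (x : Q) := h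
          have := hB' (by have := (OrderDual.ofDual y).2; omega) x x.2 hx
          have h3 := h'.1
          simp only at h3
          omega
      · have h0 : 0 < a := by have := (OrderDual.ofDual x).2; omega
        have hl := hle x1 y hx11 hx12 y.2 hy
        constructor
        · intro h
          have h1 : x1 ≤ (y : Q) := h
          have h2 := hl.mp h1
          refine ⟨?_, ?_⟩
          · have := h2.1
            rw [(hA h0).1] at this
            exact this
          · have := h2.2
            change (co (y : Q)).2 ≤ (co x1).2 + 1 + (OrderDual.ofDual x).val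
            omega
        · intro h
          change x1 ≤ (y : Q)
          rw [hl]
          refine ⟨?_, hA' h0 y y.2 hy⟩
          rw [(hA h0).1]
          exact h.1
      · constructor
        · intro h
          refine ⟨le_rfl, ?_⟩
          have h1 : OrderDual.ofDual y ≤ OrderDual.ofDual x := h
          have h2 : (OrderDual.ofDual y).val ≤ (OrderDual.ofDual x).val := h1
          change (co x1).2 + 1 + (OrderDual.ofDual y).val ≤ (co x1).2 + 1 + (OrderDual.ofDual x).val
          omega
        · intro h
          have h2 : (co x1).2 + 1 + (OrderDual.ofDual y).val ≤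
            (co x1).2 + 1 + (OrderDual.ofDual x).val := h.2
          change OrderDual.ofDual y ≤ OrderDual.ofDual x
          rw [Fin.le_def]
          omega
      · constructor
        · intro h
          exact h.elim
        · intro h
          exfalso
          have h3 : (co x2).1 + 1 + (OrderDual.ofDual y).val ≤ 0 := h.1
          omega
      · have h0 : 0 < a' := by have := (OrderDual.ofDual x).2; omega
        have hl := hle x2 y hx21 hx22 y.2 hy
        constructor
        · intro h
          have h1 : x2 ≤ (y : Q) := h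
          have h2 := hl.mp h1
          refine ⟨?_, ?_⟩
          · have := h2.1
            change (co (y : Q)).1 ≤ (co x2).1 + 1 + (OrderDual.ofDual x).val
            omega
          · have := h2.2
            rw [(hB h0).1] at this
            exact this
        · intro h
          change x2 ≤ (y : Q)
          rw [hl]
          refine ⟨hB' h0 y y.2 hy, ?_⟩
          rw [(hB h0).1]
          exact h.2
      · have h0 : 0 < a' := by have := (OrderDual.ofDual x).2; omega
        have h0' : 0 < a := by have := (OrderDual.ofDual y).2; omega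
        constructor
        · intro h
          have h1 : @LE.le (Hang {x : Q // ¬ t1 x} (Fin a)ᵒᵈ ⟨x1, hx11⟩) _
            (Sum.inl ⟨x2, hx21⟩) (Sum.inr y) := h
          exact h1.elim
        · intro h
          exfalso
          have h3 : (co x1).2 + 1 + (OrderDual.ofDual y).val ≤ 0 := h.2
          omega
      · constructor
        · intro h
          refine ⟨?_, le_rfl⟩
          have h1 : OrderDual.ofDual y ≤ OrderDual.ofDual x := h
          have h2 : (OrderDual.ofDual y).val ≤ (OrderDual.ofDual x).val := h1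
          change (co x2).1 + 1 + (OrderDual.ofDual y).val ≤ (co x2).1 + 1 + (OrderDual.ofDual x).val
          omega
        · intro h
          have h2 : (co x2).1 + 1 + (OrderDual.ofDual y).val ≤
            (co x2).1 + 1 + (OrderDual.ofDual x).val := h.1
          change OrderDual.ofDual y ≤ OrderDual.ofDual x
          rw [Fin.le_def]
          omega
    · -- lower set of cells
      have hcells : ∀ c : ℕ × ℕ, (∃ y, ¬ t1 y ∧ ¬ t2 y ∧ co y = c) → ∃ y, co2 y = c := by
        rintro c ⟨y, hy1, hy2, hy3⟩
        exact ⟨Sum.inl ⟨Sum.inl ⟨y, hy1⟩, hy2⟩, hy3⟩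
      rintro (⟨(x | x), hx⟩ | x) c hcx
      · exact hcells c (hdown x x.2 hx c hcx)
      · have h1 : c ≤ ((0 : ℕ), (co x1).2 + 1 + (OrderDual.ofDual x).val) := hcx
        have h0 : 0 < a := by have := (OrderDual.ofDual x).2; omega
        obtain ⟨c1, c2⟩ := c
        have h2 : c1 ≤ 0 := h1.1
        have h3 : c2 ≤ (co x1).2 + 1 + (OrderDual.ofDual x).val := h1.2
        have h4 : c1 = 0 := by omega
        subst h4
        by_cases h5 : c2 ≤ (co x1).2
        · refine hcells _ (hdown x1 hx11 hx12 _ ⟨Nat.zero_le _, h5⟩)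
        · refine ⟨Sum.inl ⟨Sum.inr (OrderDual.toDual ⟨c2 - ((co x1).2 + 1), ?_⟩), fun h => h⟩, ?_⟩
          · have := (OrderDual.ofDual x).2
            omega
          · change ((0 : ℕ), (co x1).2 + 1 + (c2 - ((co x1).2 + 1))) = (0, c2)
            congr 1
            omega
      · have h1 : c ≤ ((co x2).1 + 1 + (OrderDual.ofDual x).val, (0 : ℕ)) := hcx
        have h0 : 0 < a' := by have := (OrderDual.ofDual x).2; omega
        obtain ⟨c1, c2⟩ := c
        have h2 : c2 ≤ 0 := h1.2
        have h3 : c1 ≤ (co x2).1 + 1 + (OrderDual.ofDual x).val := h1.1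
        have h4 : c2 = 0 := by omega
        subst h4
        by_cases h5 : c1 ≤ (co x2).1
        · refine hcells _ (hdown x2 hx21 hx22 _ ⟨h5, Nat.zero_le _⟩)
        · refine ⟨Sum.inr (OrderDual.toDual ⟨c1 - ((co x2).1 + 1), ?_⟩), ?_⟩
          · have := (OrderDual.ofDual x).2
            omega
          · change ((co x2).1 + 1 + (c1 - ((co x2).1 + 1)), (0 : ℕ)) = (c1, 0)
            congr 1
            omega
    · intro s hs
      obtain ⟨x, h1, h2, h3⟩ := hcell s hs
      exact ⟨Sum.inl ⟨Sum.inl ⟨x, h1⟩, h2⟩, h3⟩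

end Sub

end Pool.Agent.GaussPoset
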