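import Pool.Agent.W_448s7s_h5.SrE
import Pool.Agent.W_448w4_h70.WH

/-!
The sides of joins in early components, exact form (MP_448cb3_co, S7).
-/

namespace Pool.Agent.GaussPoset.Sm

set_option linter.unusedSectionVars false

open Finset Wd

universe u

variable {P : Type u} [Fintype P] [PartialOrder P] [DecidableEq P] {r j w : ℕ}

/-- two elements above on the levels `2, …, j - 1`, or the profile of the fold end -/
def FatT (j : ℕ) (x : P) : Prop :=
  (∀ k, 2 ≤ k → k + 1 ≤ j → 2 ≤ nab k x) ∨
    (j % 2 = 0 ∧ ∀ k, k ≤ j → k / 2 + 1 ≤ nab k x + (k - j / 2))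

section

open Cp

variable {t : Tops P} {lo hi : ℕ → ℕ} {e : ℕ → ℕ → P}

lemma rect_fat (H : Gr P r) {co : P → ℕ × ℕ}
    (C : Chart (t : P) (fun _ => True) (lowPart j (t : P)) co) {x : P}
    (hx : x ∈ onlyB t) (hl : j ≤ lev x) :
    (∀ k, k ≤ j → nab k x = 1) ∨ (∀ k, 2 ≤ k → k + 1 ≤ j → 2 ≤ nab k x) := by
  classical
  have hstr : ∀ q ∈ lowPart j (t : P), lev q = j → ((co q).1 = 0 ∨ (co q).2 = 0) →
      ∀ k, k ≤ j → nab k q = 1 := by
    intro q hq hlq h0 k hk
    have h1 := rect_nab C hq (k := k) (by omega)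
    have h2 := C.lev q hq
    omega
  by_cases hin : ∃ q, x ≤ q ∧ lev q = j ∧ 1 ≤ (co q).1 ∧ 1 ≤ (co q).2
  · obtain ⟨q, h1, h2, h3, h4⟩ := hin
    have hq := low_anc hx h1 h2
    right
    intro k hk hk2
    refine le_trans ?_ (nab_mono h1)
    have h3 := rect_nab C hq (k := k) (by omega)
    have h4 := C.lev q hq
    omega
  · push Not at hin
    have hst : ∀ q, x ≤ q → lev q = j → (co q).1 = 0 ∨ (co q).2 = 0 := by
      intro q h1 h2
      have := hin q h1 h2
      omega
    obtain ⟨q, h1, h2, h3⟩ := exists_between H.gradedBelow (z := x) (s := (t : P)) (onlyB_le hx)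
      (l := j) (by have := t.2; omega) hl
    by_cases huni : ∀ q', x ≤ q' → lev q' = j → q' = q
    · left
      intro k hk
      rw [nab_through H h1 h3 huni hk]
      exact hstr q (low_anc hx h1 h3) h3 (hst q h1 h3) k hk
    · push Not at huni
      obtain ⟨q', h1', h3', hne⟩ := huni
      right
      have hq := low_anc hx h1 h3
      have hq' := low_anc hx h1' h3'
      have key : ∀ a a' : P, x ≤ a → x ≤ a' → a ∈ lowPart j (t : P) → a' ∈ lowPart j (t : P) →
          lev a = j → lev a' = j → (co a).1 = 0 → (co a').2 = 0 → ∀ k, 2 ≤ k → k + 1 ≤ j →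
          2 ≤ nab k x := by
        intro a a' hxa hxa' ha ha' hla hla' h0 h0' k hk hk2
        have l1 := C.lev a ha
        have l2 := C.lev a' ha'
        obtain ⟨y, hy, hcy⟩ := C.low a ha (0, k) ⟨Nat.zero_le _, by simp only; omega⟩ trivial
        obtain ⟨y', hy', hcy'⟩ := C.low a' ha' (k, 0) ⟨by simp only; omega, Nat.zero_le _⟩ trivial
        have ly := C.lev y hy
        have ly' := C.lev y' hy'
        rw [hcy] at ly
        rw [hcy'] at ly'
        simp only at ly ly'
        refine two_le_nab (x := y) (y := y') (hxa.trans ?_) (hxa'.trans ?_) (by omega) (by omega) ?_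
        · rw [C.le_iff a ha y hy, hcy]
          exact ⟨Nat.zero_le _, by simp only; omega⟩
        · rw [C.le_iff a' ha' y' hy', hcy']
          exact ⟨by simp only; omega, Nat.zero_le _⟩
        · rintro rfl
          rw [hcy] at hcy'
          simp only [Prod.mk.injEq] at hcy'
          omega
      have l1 := C.lev q hq
      have l2 := C.lev q' hq'
      rcases hst q h1 h3 with s1 | s1
      · rcases hst q' h1' h3' with s2 | s2
        · exact absurd (C.inj q' hq' q hq (Prod.ext (by omega) (by omega))) hne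
        · exact key q q' h1 h1' hq hq' h3 h3' s1 s2
      · rcases hst q' h1' h3' with s2 | s2
        · exact key q' q h1' h1 hq' hq h3' h3 s2 s1
        · exact absurd (C.inj q' hq' q hq (Prod.ext (by omega) (by omega))) hne

lemma stair_fat (H : Gr P r) {co : P → ℕ × ℕ}
    (C : Chart (t : P) (fun c => c.1 ≤ c.2) (lowPart j (t : P)) co) {x : P}
    (hx : x ∈ onlyB t) (hl : j ≤ lev x) :
    (∀ k, k ≤ j → nab k x = 1) ∨ FatT j x := by
  classical
  by_cases hin : ∃ q, x ≤ q ∧ lev q = j ∧ 1 ≤ (co q).1
  · obtain ⟨q, h1, h2, h3⟩ := hin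
    have hq := low_anc hx h1 h2
    have hm : (co q).1 ≤ (co q).2 := C.mem q hq
    have hlq := C.lev q hq
    right
    rcases Nat.lt_or_ge (co q).1 (co q).2 with h4 | h4
    · left
      intro k hk hk2
      refine le_trans ?_ (nab_mono h1)
      have h5 := stair_nab C hq (k := k) (by omega)
      omega
    · right
      refine ⟨by omega, fun k hk => ?_⟩
      have h5 := stair_nab C hq (k := k) (by omega)
      have h6 : (co q).2 = j / 2 := by omega
      have h7 := nab_mono (l := k) h1
      rw [h6] at h5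
      omega
  · push Not at hin
    left
    obtain ⟨q, h1, h2, h3⟩ := exists_between H.gradedBelow (z := x) (s := (t : P)) (onlyB_le hx)
      (l := j) (by have := t.2; omega) hl
    have hq := low_anc hx h1 h3
    have hlq := C.lev q hq
    have h4 := hin q h1 h3
    intro k hk
    rw [nab_through H h1 h3 (fun q' h1' h3' => by
      have hq' := low_anc hx h1' h3'
      have hlq' := C.lev q' hq'
      have h4' := hin q' h1' h3'
      exact C.inj q' hq' q hq (Prod.ext (by omega) (by omega))) hk]
    have h5 := stair_nab C hq (k := k) (by omega)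
    omega

end

variable {lo hi : Tops P → ℕ → ℕ} {e : Tops P → ℕ → ℕ → P}

/-- sides: straight, in a late component, or fat -/
theorem Ctx.cases_fat (K : Ctx P r j lo hi e) {x : P} (hx : x ∈ onlyB (topOf x))
    (hl : j ≤ lev x) :
    Strt j x ∨ (∃ a, LateC j (lo (topOf x)) (hi (topOf x)) a ∧ (j ≠ 6 → 3 ≤ a)) ∨ FatT j x := by
  have H := K.gt.H
  have h5 := K.h5
  have hg := K.gt.good
  have hstair : ∀ (lo hi : ℕ → ℕ) (e : ℕ → ℕ → P), Cp.Comp j (topOf x : P) lo hi e →
      StairShape j lo hi → Strt j x ∨ FatT j x := by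
    intro lo hi e C S
    exact stair_fat H (chart_stair C H hg S) hx hl
  rcases shape_cases (K.comp (topOf x)) h5 (K.shape (topOf x)) with h | (h | h) | h
  · exact Or.inl fun k hk => nab_one_of_eq (K.comp (topOf x)) hx hk (by omega) (h k hk)
  · rcases rect_fat H (chart_rect (K.comp _) H hg h) hx hl with h1 | h1
    · exact Or.inl h1
    · exact Or.inr (Or.inr (Or.inl h1))
  · rcases hstair _ _ _ (K.comp _) h with h1 | h1
    · exact Or.inl h1
    · exact Or.inr (Or.inr h1)
  · exact Or.inr (Or.inl h)

end Pool.Agent.GaussPoset.Sm
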