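import Pool.Agent.W_448s7_h27.PhB
import Pool.Agent.W_448s7s_h5.SrD

/-!
Tables of the lines with the number of elements on the level `4` (MP_448cb3_co, S7).
-/

namespace Pool.Agent.GaussPoset.Sm

set_option linter.unusedSectionVars false

open Finset Wd

universe u

variable {P : Type u} [Fintype P] [PartialOrder P] [DecidableEq P] {r j w : ℕ}

/-- the table `tA` is used for the joins with two elements above on the level `4`, the table `tB`
for the others -/
def aF (tA tB : List (List ℤ)) (f : ℕ) (κ g : ℤ) : Bool := if f = 0 then aT tA κ g else aT tB κ g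

/-- dead or in the table -/
def okF (j : ℤ) (W : ℕ) (cap : ℕ → ℤ) (tA tB : List (List ℤ)) (f : ℕ) (κ g : ℤ) : Bool :=
  dead j W cap κ g || aF tA tB f κ g

/-- the data without the level `4` -/
def tr3 (s : ℕ × ℕ × ℕ × ℕ) : ℕ × ℕ × ℕ := (s.1, s.2.1, s.2.2.1)

def chk0F (j : ℤ) (W : ℕ) (cap : ℕ → ℤ) (tA tB : List (List ℤ)) (E : List (ℕ × ℕ × ℕ × ℕ))
    (X : ℕ × ℕ × ℕ → ℕ × ℕ × ℕ → Bool) : Bool :=
  E.all fun s => E.all fun s' => X (tr3 s) (tr3 s') ||
    okF j W cap tA tB (s.2.2.2 + s'.2.2.2) (s.1 + s'.1) (-(s.2.1 + s'.2.1))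

def chk1F (j : ℤ) (W : ℕ) (cap : ℕ → ℤ) (tA tB : List (List ℤ)) (S : List (ℕ × ℕ × ℕ × ℕ)) :
    Bool :=
  S.all fun s => S.all fun s' =>
    okF j W cap tA tB (s.2.2.2 + s'.2.2.2) (2 + (s.1 + s'.1) + (s.2.2.1 + s'.2.2.1))
      (3 - (s.2.1 + s'.2.1))

def chk2F (j : ℤ) (W : ℕ) (cap : ℕ → ℤ) (tA tB : List (List ℤ)) (S : List (ℕ × ℕ × ℕ × ℕ)) :
    Bool :=
  S.all fun s => S.all fun s' => (List.range 5).all fun q => decide (q < 2) ||
    (List.range (9 - 2 * q)).all fun n => (List.range ((q - 1) * n + 1)).all fun d =>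
      decide (d < n) || okF j W cap tA tB (s.2.2.2 + s'.2.2.2)
        (2 * q + (s.1 + s'.1) + (s.2.2.1 + s'.2.2.1) + n) (q * q + 2 * q - (s.2.1 + s'.2.1) + d)

def chkBF (j : ℤ) (W : ℕ) (cap : ℕ → ℤ) (S : List (ℕ × ℕ × ℕ × ℕ)) : Bool :=
  (List.range (W + 1)).all fun w => decide (cap w < 9 * (j - w)) &&
    S.all fun s => decide ((s.2.1 : ℤ) ≤ s.1 * (j - w))

lemma okF_at {j : ℤ} {W : ℕ} {cap : ℕ → ℤ} {tA tB : List (List ℤ)} {f : ℕ} {κ g : ℤ}
    (h : okF j W cap tA tB f κ g = true) (hw : w ≤ W) (hc : κ * (j - w) + g ≤ cap w) :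
    aF tA tB f κ g = true := by
  unfold okF at h
  rw [not_dead hw hc, Bool.false_or] at h
  exact h

/-- the tables; `X` = the excluded pairs of ends -/
structure TabF (j W : ℕ) (cap : ℕ → ℤ) (tA tB : List (List ℤ)) (E S1 S2 : List (ℕ × ℕ × ℕ × ℕ))
    (X : ℕ × ℕ × ℕ → ℕ × ℕ × ℕ → Bool) : Prop where
  h12 : 12 ≤ j
  wj : W < j
  e : ChkE4 j E
  s1 : ChkT4 j S1
  s2 : ChkS4 j S2
  e0 : (0, 0, 0, 0) ∈ E
  s10 : (0, 0, 0, 0) ∈ S1
  s20 : (0, 0, 0, 0) ∈ S2
  len : tB.length = tA.length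
  c0 : chk0F j W cap tA tB E X = true
  c1 : chk1F j W cap tA tB S1 = true
  c2 : chk2F j W cap tA tB S2 = true
  cb : chkBF j W cap S2 = true

variable {lo hi : Tops P → ℕ → ℕ} {e : Tops P → ℕ → ℕ → P}

/-- the data of a join of level `j + 1` -/
theorem Ctx.pairF (K : Ctx P r j lo hi e) (h12 : 12 ≤ j) {E : List (ℕ × ℕ × ℕ × ℕ)}
    (hE : ChkE4 j E) (h0 : (0, 0, 0, 0) ∈ E)
    {z x x' : P} (h : Cg z x x') (hlz : lev z = j + 1) (hs : Sok j x) (hs' : Sok j x') :
    ∃ s s' : ℕ × ℕ × ℕ × ℕ, s ∈ E ∧ s' ∈ E ∧ Dt j x (tr3 s) ∧ Dt j x' (tr3 s') ∧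
      kapZ j z = (s.1 : ℤ) + s'.1 ∧ gZ j z = -((s.2.1 : ℤ) + s'.2.1) ∧
      nab 4 z = s.2.2.2 + s'.2.2.2 + 2 := by
  have H := K.gt.H
  obtain ⟨l1, l2⟩ := h.lev_eq H
  obtain ⟨k1, k2, k3, k4, k5, k6⟩ := h.line H hlz.ge
  have hqz : (lev z : ℤ) - (j + 1) = 0 := by rw [hlz]; push_cast; ring
  rw [hqz] at k1 k2 k5
  obtain ⟨u1, u2⟩ := K.ends h hlz
  obtain ⟨m, c, b, f, g1, ⟨g2, g3, g4⟩, g5⟩ := K.endd4 h12 h.only (by omega) u1 hE h0 (hs.2 h12)
  obtain ⟨m', c', b', f', g1', ⟨g2', g3', g4'⟩, g5'⟩ := K.endd4 h12 h.only' (by omega) u2 hE h0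
    (hs'.2 h12)
  obtain ⟨n0, d0⟩ := k6 (by omega)
  have hn : (nab j x : ℤ) = 1 ∧ (nab j x' : ℤ) = 1 := by
    constructor
    · rw [show j = lev x by omega, nab_self]; norm_num
    · rw [show j = lev x' by omega, nab_self]; norm_num
  refine ⟨_, _, g1, g1', ⟨g2, g3, g4⟩, ⟨g2', g3', g4'⟩, ?_, ?_, ?_⟩
  · rw [k1, n0, hn.1, hn.2, g2, g2']
    ring
  · rw [k2, d0, g3, g3']
    ring
  · rw [h.sum H (by omega), g5, g5']
    ring

/-- **the cheap lines are in the table** -/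
theorem Ctx.mem_tabF (K : Ctx P r j lo hi e) {X : ℕ × ℕ × ℕ → ℕ × ℕ × ℕ → Bool} (hN : NoP P j X)
    {W : ℕ} {cap : ℕ → ℤ} {tA tB : List (List ℤ)} {E S1 S2 : List (ℕ × ℕ × ℕ × ℕ)}
    (T : TabF j W cap tA tB E S1 S2 X)
    {z x x' : P} (h : Cg z x x') (hs : Sok j x) (hs' : Sok j x') (hw : w ≤ W)
    (hc : kapZ j z * (j - w) + gZ j z ≤ cap w) :
    ∃ f, nab 4 z = f + 2 ∧ aF tA tB f (kapZ j z) (gZ j z) = true := by
  have H := K.gt.H
  have h12 := T.h12
  have hl := K.lev_ge h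
  obtain ⟨l1, l2⟩ := h.lev_eq H
  obtain ⟨k1, k2, k3, k4, k5, k6⟩ := h.line H hl
  obtain ⟨q, hq⟩ : ∃ q, lev z = j + 1 + q := ⟨lev z - (j + 1), by omega⟩
  have hqz : (lev z : ℤ) - (j + 1) = q := by rw [hq]; push_cast; ring
  rw [hqz] at k1 k2 k5
  have h4 : nab 4 z = nab 4 x + nab 4 x' := h.sum H (by omega)
  rcases Nat.lt_or_ge q 1 with h0 | h0
  · -- level `j + 1`
    have hlz : lev z = j + 1 := by omega
    obtain ⟨s, s', g1, g1', d1, d1', e1, e2, e3⟩ := K.pairF h12 T.e T.e0 h hlz hs hs'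
    refine ⟨_, e3, ?_⟩
    have h1 := T.c0
    unfold chk0F at h1
    rw [List.all_eq_true] at h1
    have h2 := h1 _ g1
    rw [List.all_eq_true] at h2
    have h3 := h2 _ g1'
    rw [hN z x x' h hlz _ _ d1 d1', Bool.false_or] at h3
    rw [e1, e2] at hc ⊢
    exact okF_at h3 hw hc
  · rcases Nat.lt_or_ge q 2 with h1q | h1q
    · obtain rfl : q = 1 := by omega
      obtain ⟨m, c, b, f, g1, g2, g3, g4, g5⟩ := K.side14 h12 h.only (by omega) hs.1 T.s1 T.s10
      obtain ⟨m', c', b', f', g1', g2', g3', g4', g5'⟩ := K.side14 h12 h.only' (by omega) hs'.1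
        T.s1 T.s10
      obtain ⟨n0, d0⟩ := k6 (by omega)
      have e1 : kapZ j z = 2 + ((m : ℤ) + m') + ((b : ℤ) + b') := by
        rw [k1, n0, g4, g4', g2, g2']
        push_cast; ring
      have e2 : gZ j z = 3 - ((c : ℤ) + c') := by
        rw [k2, d0, g3, g3']
        push_cast; ring
      refine ⟨f + f', by rw [h4, g5, g5']; ring, ?_⟩
      have h1 := T.c1
      unfold chk1F at h1
      rw [List.all_eq_true] at h1
      have h2 := h1 _ g1
      rw [List.all_eq_true] at h2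
      have h3 := h2 _ g1'
      rw [e1, e2] at hc ⊢
      exact okF_at h3 hw hc
    · obtain ⟨m, c, b, f, g1, g2, g3, g4, g5⟩ := K.side4 h12 h.only (by omega) hs.1 T.s2 T.s20
      obtain ⟨m', c', b', f', g1', g2', g3', g4', g5'⟩ := K.side4 h12 h.only' (by omega) hs'.1
        T.s2 T.s20
      obtain ⟨n, hn⟩ : ∃ n : ℕ, nJ j z = n := ⟨(nJ j z).toNat, (Int.toNat_of_nonneg k3).symm⟩
      obtain ⟨d, hd⟩ : ∃ d : ℕ, dJ j z = d :=
        ⟨(dJ j z).toNat, (Int.toNat_of_nonneg (k3.trans k4)).symm⟩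
      rw [hn, hd] at k4 k5
      have e1 : kapZ j z = 2 * (q : ℤ) + ((m : ℤ) + m') + ((b : ℤ) + b') + n := by
        rw [k1, hn, g4, g4', g2, g2']
      have e2 : gZ j z = (q : ℤ) * q + 2 * q - ((c : ℤ) + c') + d := by
        rw [k2, hd, g3, g3']
      refine ⟨f + f', by rw [h4, g5, g5']; ring, ?_⟩
      have hB := T.cb
      unfold chkBF at hB
      rw [List.all_eq_true] at hB
      have hB1 := hB w (List.mem_range.mpr (by omega))
      rw [Bool.and_eq_true, decide_eq_true_eq, List.all_eq_true] at hB1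
      have b1 := hB1.2 _ g1
      have b2 := hB1.2 _ g1'
      rw [decide_eq_true_eq] at b1 b2
      simp only at b1 b2
      have hjw : (0 : ℤ) < (j : ℤ) - w := by
        have := T.wj
        omega
      have e5 : kapZ j z * ((j : ℤ) - w) + gZ j z =
          (2 * (q : ℤ) + ((b : ℤ) + b') + n) * ((j : ℤ) - w) +
            (m * ((j : ℤ) - w) - c) + (m' * ((j : ℤ) - w) - c') + (q : ℤ) * q + 2 * q + d := by
        rw [e1, e2]; ring
      have hqn : 2 * q + n ≤ 8 := by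
        by_contra hcon
        push Not at hcon
        have e6 : (9 : ℤ) ≤ 2 * (q : ℤ) + ((b : ℤ) + b') + n := by
          have : (9 : ℤ) ≤ 2 * (q : ℤ) + n := by exact_mod_cast hcon
          have := Int.natCast_nonneg b
          have := Int.natCast_nonneg b'
          linarith
        have e7 : 9 * ((j : ℤ) - w) ≤ (2 * (q : ℤ) + ((b : ℤ) + b') + n) * ((j : ℤ) - w) :=
          mul_le_mul_of_nonneg_right e6 hjw.le
        have e8 : (0 : ℤ) ≤ (q : ℤ) * q + 2 * q + d := by positivity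
        linarith [hB1.1]
      have h1 := T.c2
      unfold chk2F at h1
      rw [List.all_eq_true] at h1
      have h2 := h1 _ g1
      rw [List.all_eq_true] at h2
      have h3 := h2 _ g1'
      rw [List.all_eq_true] at h3
      have h4 := h3 q (List.mem_range.mpr (by omega))
      rw [Bool.or_eq_true, decide_eq_true_eq] at h4
      have h5 := h4.resolve_left (by omega)
      rw [List.all_eq_true] at h5
      have h6 := h5 n (List.mem_range.mpr (by omega))
      rw [List.all_eq_true] at h6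
      have k5' : d ≤ (q - 1) * n := by
        have : (d : ℤ) ≤ ((q - 1 : ℕ) : ℤ) * n := by
          rw [Nat.cast_sub (by omega)]
          exact_mod_cast k5
        exact_mod_cast this
      have h7 := h6 d (List.mem_range.mpr (by omega))
      rw [Bool.or_eq_true, decide_eq_true_eq] at h7
      have h8 := h7.resolve_left (by
        have : (n : ℤ) ≤ d := k4
        have : n ≤ d := by exact_mod_cast this
        omega)
      rw [e1, e2] at hc ⊢
      exact okF_at h8 hw hc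

end Pool.Agent.GaussPoset.Sm
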