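import Pool.Agent.W_448s7_h27.PhC

/-!
Elimination with the windows `0, …, 4` (MP_448cb3_co, S7): the state.
-/

namespace Pool.Agent.GaussPoset.Sm

set_option linter.unusedSectionVars false

open Finset Wd

universe u

/-- sides of level `j + 1` -/
def fst1F (L : List (ℕ × ℕ)) (nA nB : List (List ℕ)) (S : List (ℕ × ℕ × ℕ × ℕ)) : Bool :=
  symAll (fun s s' => okN L (bif Nat.beq (s.2.2.2 + s'.2.2.2) 0 then nA else nB)
    (2 + (s.1 + s'.1) + (s.2.2.1 + s'.2.2.1)) (s.2.1 + s'.2.1) 3) S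

/-- sides of the levels `> j + 1` -/
def fst2F (L : List (ℕ × ℕ)) (nA nB : List (List ℕ)) (S : List (ℕ × ℕ × ℕ × ℕ)) : Bool :=
  symAll (fun s s' => deadN L (4 + (s.1 + s'.1 + (s.2.2.1 + s'.2.2.1))) (s.2.1 + s'.2.1) 8 ||
    dl.all fun p => okN L (bif Nat.beq (s.2.2.2 + s'.2.2.2) 0 then nA else nB)
      (p.1 + (s.1 + s'.1 + (s.2.2.1 + s'.2.2.1))) (s.2.1 + s'.2.1) p.2) S

lemma okF_of {j W : ℕ} {cap : ℕ → ℤ} {L : List (ℕ × ℕ)} (hL : CapL j W cap L)
    {nA nB : List (List ℕ)} {f K C a : ℕ}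
    (h : okN L (bif Nat.beq f 0 then nA else nB) K C a = true) {κ g : ℤ} (e1 : κ = K)
    (e2 : g = (a : ℤ) - C) : okF j W cap (tabI nA) (tabI nB) f κ g = true := by
  unfold okF aF
  rcases Nat.eq_zero_or_pos f with hf | hf
  · subst hf
    exact okL_of hL h e1 e2
  · have h1 : Nat.beq f 0 = false := by
      rw [Bool.eq_false_iff]
      intro h2
      have := Nat.eq_of_beq_eq_true h2
      omega
    rw [h1, cond_false] at h
    rw [if_neg (by omega)]
    exact okL_of hL h e1 e2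

lemma chk1F_of {j W : ℕ} {cap : ℕ → ℤ} {L : List (ℕ × ℕ)} (hL : CapL j W cap L)
    {nA nB : List (List ℕ)} {S : List (ℕ × ℕ × ℕ × ℕ)} (h : fst1F L nA nB S = true) :
    chk1F j W cap (tabI nA) (tabI nB) S = true := by
  unfold chk1F
  unfold fst1F at h
  have h1 := symAll_spec (by intro a b; simp only [Nat.add_comm]) S h
  rw [List.all_eq_true]
  intro s hs
  rw [List.all_eq_true]
  intro s' hs'
  refine okF_of hL (h1 s hs s' hs') ?_ ?_
  · push_cast; ring
  · push_cast; ring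

lemma chk2F_of {j W : ℕ} (hW : W < j) {cap : ℕ → ℤ} {L : List (ℕ × ℕ)} (hL : CapL j W cap L)
    {nA nB : List (List ℕ)} {S : List (ℕ × ℕ × ℕ × ℕ)} (h : fst2F L nA nB S = true) :
    chk2F j W cap (tabI nA) (tabI nB) S = true := by
  unfold chk2F
  unfold fst2F at h
  have h1 := symAll_spec (by intro a b; simp only [Nat.add_comm]) S h
  rw [List.all_eq_true]
  intro s hs
  rw [List.all_eq_true]
  intro s' hs'
  have h2 := h1 s hs s' hs'
  rw [List.all_eq_true]
  intro q hq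
  rw [List.mem_range] at hq
  rw [Bool.or_eq_true, decide_eq_true_eq]
  rcases Nat.lt_or_ge q 2 with hq2 | hq2
  · exact Or.inl hq2
  right
  rw [List.all_eq_true]
  intro n hn
  rw [List.mem_range] at hn
  rw [List.all_eq_true]
  intro d hd
  rw [List.mem_range] at hd
  rw [Bool.or_eq_true, decide_eq_true_eq]
  rcases Nat.lt_or_ge d n with hdn | hdn
  · exact Or.inl hdn
  right
  rw [Bool.or_eq_true] at h2
  have hq3 : q * q = q * q := rfl
  rcases h2 with h2 | h2
  · unfold okF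
    rw [Bool.or_eq_true]
    left
    have h3 := dead_of hL h2
    refine dead_mono (by exact_mod_cast hW) ?_ ?_ h3
    · push_cast
      have : (2 : ℤ) ≤ q := by exact_mod_cast hq2
      have : (0 : ℤ) ≤ n := Int.natCast_nonneg n
      linarith
    · push_cast
      have h4 : (2 : ℤ) ≤ q := by exact_mod_cast hq2
      have : (0 : ℤ) ≤ d := Int.natCast_nonneg d
      nlinarith
  · rw [List.all_eq_true] at h2
    have h3 := h2 _ (dl_mem q (Finset.mem_Icc.mpr ⟨hq2, by omega⟩) n (Finset.mem_range.mpr hn) d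
      (Finset.mem_range.mpr hd) hdn)
    refine okF_of hL h3 ?_ ?_
    · push_cast; ring
    · push_cast; ring

/-- the allowed lines; `XL` = the values at the window `4` which are excluded for `tB` -/
def aX (tA tB : List (List ℤ)) (XL : List ℤ) (j κ g : ℤ) : Bool :=
  aT tA κ g || (aT tB κ g && !(XL.elem (κ * (j - 4) + g)))

/-- all lines of a table -/
def allT (tab : List (List ℤ)) (p : ℤ → ℤ → Bool) : Bool :=
  (List.range tab.length).all fun k => (tab.getD k []).all fun g => p k g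

lemma allT_spec {tab : List (List ℤ)} {p : ℤ → ℤ → Bool} (h : allT tab p = true) {κ g : ℤ}
    (ha : aT tab κ g = true) : p κ g = true := by
  unfold aT at ha
  rw [Bool.and_eq_true, decide_eq_true_eq] at ha
  obtain ⟨h0, h1⟩ := ha
  have h2 : κ.toNat < tab.length := by
    by_contra hcon
    rw [List.getD_eq_default _ _ (by omega)] at h1
    simp at h1
  unfold allT at h
  rw [List.all_eq_true] at h
  have h3 := h _ (List.mem_range.mpr h2)
  rw [List.all_eq_true] at h3
  have h4 := h3 g (List.elem_iff.mp h1)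
  rwa [Int.toNat_of_nonneg h0] at h4

variable {P : Type u} [Fintype P] [PartialOrder P] [DecidableEq P] {r j w : ℕ}
  {lo hi : Tops P → ℕ → ℕ} {e : Tops P → ℕ → ℕ → P}

/-- the state of the elimination -/
structure StF (P : Type u) [Fintype P] [PartialOrder P] [DecidableEq P] (j : ℕ) (V : ℕ → ℤ)
    (u XL : List ℤ) : Prop where
  bel : Chk.Below 3 V u
  kill : ∀ z x x' : P, Cg z x x' → Sok j x → Sok j x' → kapZ j z * (j - 4) + gZ j z ∈ XL →
    nab 4 z ≤ 2

/-- the balances at the windows `0, …, 3` -/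
def Bals (P : Type u) [Fintype P] [PartialOrder P] [DecidableEq P] (j : ℕ) (cap : ℕ → ℤ)
    (nO nE : ℕ → ℤ → Bool) (lb V : ℕ → ℤ) : Prop :=
  ∀ w ≤ 3, WinB P j w (cap w) (nO w) (nE w) (lb w) (V w)

section

variable {X : ℕ × ℕ × ℕ → ℕ × ℕ × ℕ → Bool} {cap : ℕ → ℤ} {tA tB : List (List ℤ)}
  {E S1 S2 : List (ℕ × ℕ × ℕ × ℕ)} {nO nE : ℕ → ℤ → Bool} {lb V : ℕ → ℤ} {u XL : List ℤ}

/-- a join is above the bounds -/
lemma StF.above (hS : StF P j V u XL) (hB : Bals P j cap nO nE lb V) {z x x' : P}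
    (h : Cg z x x') (hs : Sok j x) (hs' : Sok j x') :
    Chk.above (kapZ j z) (gZ j z) u j = true := by
  refine Chk.above_of (W := 3) (v := V) _ j fun w hw => ?_
  have hw' : w ≤ 3 := by
    have := hS.bel.1
    omega
  exact (hS.bel.2 w hw').trans ((hB w hw').mn z x x' h hs hs')

lemma StF.start (hB : Bals P j cap nO nE lb V) :
    StF P j V ((List.range 4).map fun w => min (lb w) (cap w + 1)) [] := by
  refine ⟨⟨by simp, fun w hw => ?_⟩, fun z x x' _ _ _ h => absurd h List.not_mem_nil⟩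
  rw [List.getD_eq_getElem?_getD, List.getElem?_map, List.getElem?_range (by omega)]
  simp only [Option.map_some, Option.getD_some]
  rcases le_or_gt (V w) (cap w) with h1 | h1
  · exact (min_le_left _ _).trans ((hB w hw).lo h1)
  · exact (min_le_right _ _).trans (by omega)

/-- allowed lines -/
lemma Ctx.mem_aX (K : Ctx P r j lo hi e) (hN : NoP P j X) (T : TabF j 4 cap tA tB E S1 S2 X)
    (hS : StF P j V u XL) {z x x' : P} (h : Cg z x x') (hs : Sok j x) (hs' : Sok j x') (hw : w ≤ 4)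
    (hc : kapZ j z * (j - w) + gZ j z ≤ cap w) :
    (nab 4 z = 2 ∧ aT tA (kapZ j z) (gZ j z) = true) ∨
      (3 ≤ nab 4 z ∧ aT tB (kapZ j z) (gZ j z) = true ∧
        kapZ j z * (j - 4) + gZ j z ∉ XL) := by
  obtain ⟨f, h1, h2⟩ := K.mem_tabF hN T h hs hs' hw hc
  unfold aF at h2
  split_ifs at h2 with hf
  · left
    exact ⟨by omega, h2⟩
  · right
    refine ⟨by omega, h2, fun hm => ?_⟩
    have := hS.kill z x x' h hs hs' hm
    omega

lemma aX_of {κ g : ℤ} (h : aT tA κ g = true ∨ (aT tB κ g = true ∧ κ * ((j : ℤ) - 4) + g ∉ XL)) :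
    aX tA tB XL j κ g = true := by
  unfold aX
  rw [Bool.or_eq_true, Bool.and_eq_true]
  refine h.imp id fun h => ⟨h.1, ?_⟩
  rw [Bool.not_eq_true', Bool.eq_false_iff]
  intro h2
  exact h.2 (List.elem_iff.mp h2)

theorem Ctx.sysF (K : Ctx P r j lo hi e) (hN : NoP P j X) (T : TabF j 4 cap tA tB E S1 S2 X)
    (hB : Bals P j cap nO nE lb V) (hS : StF P j V u XL) :
    Sys (j : ℤ) 3 cap (aX tA tB XL j) nO nE (odds tA.length) (evens tA.length) V
      (fun κ g => ∃ z x x' : P, Cg z x x' ∧ Sok j x ∧ Sok j x' ∧ κ = kapZ j z ∧ g = gZ j z) := by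
  refine ⟨?_, ?_, ?_, ?_⟩
  · rintro κ g ⟨z, x, x', h, hs, hs', rfl, rfl⟩ w hw he hc
    rcases K.mem_aX hN T hS h hs hs' (w := w) (by omega) (by rw [he]; exact hc) with
      ⟨-, h1⟩ | ⟨-, h1, h2⟩
    · exact ⟨aX_of (Or.inl h1), aT_mem h1⟩
    · exact ⟨aX_of (Or.inr ⟨h1, h2⟩), by rw [← T.len]; exact aT_mem h1⟩
  · rintro κ g ⟨z, x, x', h, hs, hs', rfl, rfl⟩ w hw
    exact (hB w hw).mn z x x' h hs hs'
  · intro w hw hc
    rcases (hB w hw).od hc with ⟨z, x, x', h1, h2, h3, h4, h5⟩ | h1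
    · exact Or.inl ⟨_, _, ⟨z, x, x', h1, h2, h3, rfl, rfl⟩, h4, h5⟩
    · exact Or.inr h1
  · intro w hw hc
    rcases (hB w hw).ev hc with ⟨z, x, x', h1, h2, h3, h4, h5⟩ | h1
    · exact Or.inl ⟨_, _, ⟨z, x, x', h1, h2, h3, rfl, rfl⟩, h4, h5⟩
    · exact Or.inr h1

/-- **the windows `0, …, 3`** -/
theorem Ctx.sweepF (K : Ctx P r j lo hi e) (hN : NoP P j X) (T : TabF j 4 cap tA tB E S1 S2 X)
    (hB : Bals P j cap nO nE lb V) (hS : StF P j V u XL) (N R : ℕ) :
    StF P j V (rnds (aX tA tB XL j) nO nE cap (odds tA.length) (evens tA.length) j N 4 R u) XL :=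
  ⟨(K.sysF hN T hB hS).rnds N R u hS.bel, hS.kill⟩

/-- all allowed lines above `u` have at least the value `T` at the window `4` -/
def lowC (tA tB : List (List ℤ)) (XL : List ℤ) (j : ℤ) (u : List ℤ) (T : ℤ) : Bool :=
  allT tA (fun κ g => !(Chk.above κ g u j) || decide (T ≤ κ * (j - 4) + g)) &&
    allT tB (fun κ g => !(Chk.above κ g u j) ||
      (XL.elem (κ * (j - 4) + g) || decide (T ≤ κ * (j - 4) + g)))

/-- the lines of `tB` above `u` with the value `T` have the parity `p` -/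
def parC (tB : List (List ℤ)) (j : ℤ) (u : List ℤ) (T p : ℤ) : Bool :=
  allT tB (fun κ g => !(Chk.above κ g u j) ||
    (decide (κ * (j - 4) + g ≠ T) || decide (κ % 2 = p)))

/-- **the least value at the window `4`** -/
theorem Ctx.lowV (K : Ctx P r j lo hi e) (hN : NoP P j X) (T : TabF j 4 cap tA tB E S1 S2 X)
    (hB : Bals P j cap nO nE lb V) (hS : StF P j V u XL) {T0 : ℤ} (hT : T0 ≤ cap 4 + 1)
    (hC : lowC tA tB XL j u T0 = true) {z x x' : P} (h : Cg z x x') (hs : Sok j x)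
    (hs' : Sok j x') : T0 ≤ kapZ j z * (j - 4) + gZ j z := by
  by_contra hcon
  push Not at hcon
  have h1 := hS.above hB h hs hs'
  unfold lowC at hC
  rw [Bool.and_eq_true] at hC
  rcases K.mem_aX hN T hS h hs hs' (w := 4) le_rfl (by push_cast; linarith) with
    ⟨-, h2⟩ | ⟨-, h2, h3⟩
  · have h4 := allT_spec hC.1 h2
    simp only [h1, Bool.not_true, Bool.false_or, decide_eq_true_eq] at h4
    exact absurd h4 (not_le.mpr hcon)
  · have h4 := allT_spec hC.2 h2
    simp only [h1, Bool.not_true, Bool.false_or, Bool.or_eq_true, decide_eq_true_eq] at h4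
    rcases h4 with h4 | h4
    · exact h3 (List.elem_iff.mp h4)
    · exact absurd h4 (not_le.mpr hcon)

/-- the parity of the class -/
theorem Ctx.parV (K : Ctx P r j lo hi e) (hN : NoP P j X) (T : TabF j 4 cap tA tB E S1 S2 X)
    (hB : Bals P j cap nO nE lb V) (hS : StF P j V u XL) {T0 p : ℤ} (hT : T0 ≤ cap 4)
    (hC : parC tB j u T0 p = true) {z x x' : P} (h : Cg z x x') (hs : Sok j x)
    (hs' : Sok j x') (hv : kapZ j z * (j - 4) + gZ j z = T0) (h3 : 3 ≤ nab 4 z) :
    kapZ j z % 2 = p := by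
  have h1 := hS.above hB h hs hs'
  rcases K.mem_aX hN T hS h hs hs' (w := 4) le_rfl (by push_cast; linarith) with
    ⟨h2, -⟩ | ⟨-, h2, -⟩
  · omega
  · have h4 := allT_spec hC h2
    simp only [h1, Bool.not_true, Bool.false_or, Bool.or_eq_true, decide_eq_true_eq] at h4
    rcases h4 with h4 | h4
    · exact absurd hv h4
    · exact h4

end

end Pool.Agent.GaussPoset.Sm
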