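import Pool.Agent.W_448s7_h27.PhD
import Pool.Agent.W_448s7s_h5.SrE

/-!
The costs of the joins at the window `4` (MP_448cb3_co, S7).
-/

namespace Pool.Agent.GaussPoset.Sm

set_option linter.unusedSectionVars false

open Finset Wd

universe u

variable {P : Type u} [Fintype P] [PartialOrder P] [DecidableEq P] {r j w : ℕ}
  {lo hi : Tops P → ℕ → ℕ} {e : Tops P → ℕ → ℕ → P}

/-- the levels below `4` of an allowed side -/
theorem Ctx.low4 (K : Ctx P r j lo hi e) (h12 : 12 ≤ j) {z x x' : P} (h : Cg z x x')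
    (hs : Sok j x) {k : ℕ} (hk : k < 4) : nab k x = 1 := by
  have hl := K.lev_ge h
  obtain ⟨l1, l2⟩ := h.lev_eq K.gt.H
  have hend : lev x = j → (Win.uc x).card = 1 := fun hh => (K.ends h (by omega)).1
  rcases K.cases h.only (by omega) hend hs.1 with g | g | ⟨a, g, g3⟩
  · exact absurd g (hs.2 h12)
  · exact g k (by omega)
  · have h4 := g.four (by omega)
    obtain ⟨e1, e2⟩ := g.low k (by omega)
    exact nab_one_of_eq (K.comp (topOf x)) h.only (by omega) (by omega) (by rw [e1, e2])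

theorem Ctx.two4 (K : Ctx P r j lo hi e) (h12 : 12 ≤ j) {z x x' : P} (h : Cg z x x')
    (hs : Sok j x) (hs' : Sok j x') {k : ℕ} (hk : k < 4) : nab k z = 2 := by
  have hl := K.lev_ge h
  rw [h.sum K.gt.H (by omega), K.low4 h12 h hs hk, K.low4 h12 h.symm hs' hk]

theorem Ctx.line4 (K : Ctx P r j lo hi e) (h12 : 12 ≤ j) {z x x' : P} (h : Cg z x x')
    (hs : Sok j x) (hs' : Sok j x') :
    (ful 4 z : ℤ) = (((j - 3) ^ 2 : ℕ) : ℤ) + (kapZ j z * ((j : ℤ) - 4) + gZ j z) := by
  have hl := K.lev_ge h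
  have h1 := ful_line (j := j) (w := 4) (z := z) (by omega) (by omega)
    (fun k hk => K.two4 h12 h hs hs' hk)
  rw [h1]
  push_cast [Nat.cast_sub (show 3 ≤ j by omega)]
  ring

theorem Ctx.par4 (K : Ctx P r j lo hi e) (h12 : 12 ≤ j) {z x x' : P} (h : Cg z x x')
    (hs : Sok j x) (hs' : Sok j x') :
    ((nst 4 (fun z => lev z - 4) z % 2 : ℕ) : ℤ) = kapZ j z % 2 := by
  have hl := K.lev_ge h
  have h1 : anc z = 2 * 4 + nst 4 (fun z => lev z - 4) z := by
    unfold anc
    obtain ⟨c, hc⟩ : ∃ c, lev z = 4 + c := ⟨lev z - 4, by omega⟩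
    rw [nst_eq, hc, Finset.sum_range_add, Nat.add_sub_cancel_left,
      Finset.sum_congr rfl (g := fun _ => 2) (fun k hk => K.two4 h12 h hs hs' (by
        rwa [mem_range] at hk)), Finset.sum_const, card_range, smul_eq_mul, Nat.mul_comm]
  have hk := kap_parity (j := j) (z := z)
  rcases Nat.even_or_odd (anc z) with h2 | h2
  · have h3 := hk.2 h2
    rw [Int.even_iff] at h3
    rw [h3]
    have : nst 4 (fun z => lev z - 4) z % 2 = 0 := by
      rw [Nat.even_iff] at h2
      omega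
    rw [this]
    rfl
  · have h3 := hk.1 h2
    rw [Int.odd_iff] at h3
    rw [h3]
    have : nst 4 (fun z => lev z - 4) z % 2 = 1 := by
      rw [Nat.odd_iff] at h2
      omega
    rw [this]
    rfl

/-- the joins of level `j + 1` at a fold end cost at least `n` at the window `4` -/
def FoB (P : Type u) [Fintype P] [PartialOrder P] [DecidableEq P] (j n : ℕ) : Prop :=
  ∀ z x x' : P, Cg z x x' → lev z = j + 1 → Fold j x → n ≤ ful 4 z

lemma NF.foB (h : NF P j) (n : ℕ) : FoB P j n := fun z x x' hz hl hf => absurd hf (h z x x' hz hl)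

lemma FoB.mono {n m : ℕ} (h : FoB P j n) (hm : m ≤ n) : FoB P j m :=
  fun z x x' hz hl hf => hm.trans (h z x x' hz hl hf)

/-- extra elements of fat sides -/
def gS (j n : ℕ) : ℕ := if n + 5 ≤ j then 1 else 0

/-- extra elements of the fold profile -/
def gFo (j n : ℕ) : ℕ := if n + 4 ≤ j then (n + 4) / 2 - (n + 4 - j / 2) else 0

def fatS (j : ℕ) : ℕ := (j - 2) ^ 2 + ∑ n ∈ range (j - 2), n * gS j n

def fatFo (j : ℕ) : ℕ := (j - 2) ^ 2 + ∑ n ∈ range (j - 2), n * gFo j n

/-- joins with a side which is not allowed -/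
theorem Ctx.fat4 (K : Ctx P r j lo hi e) (h12 : 12 ≤ j) {n : ℕ} (hFo : FoB P j n)
    {z x x' : P} (h : Cg z x x') (hs : ¬ Sok j x) :
    fatS j ≤ ful 4 z ∨ (j % 2 = 0 ∧ fatFo j ≤ ful 4 z) ∨ n ≤ ful 4 z := by
  have H := K.gt.H
  have hl := K.lev_ge h
  obtain ⟨l1, l2⟩ := h.lev_eq H
  by_cases hfo : Fold j x
  · exact Or.inr (Or.inr (hFo z x x' h (by have := hfo.1; omega) hfo))
  rw [← or_assoc]
  left
  have hf : Fatt j x := by
    by_contra hcon
    exact hs ⟨hcon, fun _ => hfo⟩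
  have hz2 : j + 2 ≤ lev z := by
    have := hf.1
    omega
  obtain ⟨c, hc⟩ : ∃ c, lev z = 4 + c := ⟨lev z - 4, by omega⟩
  have key : ∀ g : ℕ → ℕ, (∀ n, 1 ≤ n → n < c → 1 + g n ≤ nab (4 + n) x) →
      (j - 2) ^ 2 + ∑ n ∈ range (j - 2), n * g n ≤ ful 4 z := by
    intro g hg
    have h1 := ful_ge (w := 4) (z := z) (c := c) g hc (fun n hn1 hn2 => by
      have h2 := hg n hn1 hn2
      have h3 := one_le_nab (l := 4 + n) (z := x') (by omega)
      rw [h.sum H (by omega)]
      omega)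
    refine le_trans ?_ h1
    refine Nat.add_le_add (Nat.pow_le_pow_left (by omega) 2) ?_
    exact Finset.sum_le_sum_of_subset (Finset.range_mono (by omega))
  rcases K.cases_fat h.only (by omega) with g | ⟨a, g, g3⟩ | g
  · exfalso
    have h1 := g 2 (by omega)
    have h2 := hf.2 2 le_rfl (by omega)
    omega
  · exfalso
    have h4 := g.four (by omega)
    obtain ⟨e1, e2⟩ := g.low 2 (by omega)
    have h1 := nab_one_of_eq (K.comp (topOf x)) h.only (k := 2) (by omega) (by omega)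
      (by rw [e1, e2])
    have h2 := hf.2 2 le_rfl (by omega)
    omega
  · rcases g with g | ⟨g0, g⟩
    · left
      refine key _ fun n hn1 hn2 => ?_
      unfold gS
      split_ifs with h5
      · exact g (4 + n) (by omega) (by omega)
      · exact one_le_nab (l := 4 + n) (z := x) (by omega)
    · right
      refine ⟨g0, key _ fun n hn1 hn2 => ?_⟩
      unfold gFo
      have h6 := one_le_nab (l := 4 + n) (z := x) (by omega)
      split_ifs with h5
      · have h7 := g (4 + n) (by omega)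
        rw [Nat.add_comm n 4]
        omega
      · exact h6

/-- the cost of the joins from the values of their lines -/
theorem Ctx.lowN (K : Ctx P r j lo hi e) (h12 : 12 ≤ j) {T : ℕ}
    (hFo : FoB P j ((j - 3) ^ 2 + T))
    (h1 : ∀ z x x' : P, Cg z x x' → Sok j x → Sok j x' →
      (T : ℤ) ≤ kapZ j z * (j - 4) + gZ j z)
    (c1 : (j - 3) ^ 2 + T ≤ fatS j) (c2 : j % 2 = 0 → (j - 3) ^ 2 + T ≤ fatFo j) :
    ∀ z x x' : P, Cg z x x' → (j - 3) ^ 2 + T ≤ ful 4 z := by
  intro z x x' h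
  by_cases hs : Sok j x
  · by_cases hs' : Sok j x'
    · have h2 := h1 z x x' h hs hs'
      have h3 := K.line4 h12 h hs hs'
      have h4 : (((j - 3) ^ 2 + T : ℕ) : ℤ) ≤ ful 4 z := by
        rw [h3]
        push_cast
        linarith
      exact_mod_cast h4
    · rcases K.fat4 h12 hFo h.symm hs' with h2 | ⟨h2, h3⟩ | h2
      · omega
      · have := c2 h2
        omega
      · exact h2
  · rcases K.fat4 h12 hFo h hs with h2 | ⟨h2, h3⟩ | h2
    · omega
    · have := c2 h2
      omega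
    · exact h2

/-- the joins of a given cost are allowed -/
theorem Ctx.sokN (K : Ctx P r j lo hi e) (h12 : 12 ≤ j) {T : ℕ}
    (hFo : FoB P j ((j - 3) ^ 2 + T + 1))
    (c1 : (j - 3) ^ 2 + T < fatS j) (c2 : j % 2 = 0 → (j - 3) ^ 2 + T < fatFo j)
    {z x x' : P} (h : Cg z x x') (hf : ful 4 z = (j - 3) ^ 2 + T) :
    Sok j x ∧ Sok j x' ∧ kapZ j z * (j - 4) + gZ j z = T := by
  have key : ∀ y y' : P, Cg z y y' → Sok j y := by
    intro y y' hy
    by_contra hs
    rcases K.fat4 h12 hFo hy hs with h2 | ⟨h2, h3⟩ | h2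
    · omega
    · have := c2 h2
      omega
    · omega
  have hs := key x x' h
  have hs' := key x' x h.symm
  refine ⟨hs, hs', ?_⟩
  have h3 := K.line4 h12 h hs hs'
  rw [hf] at h3
  push_cast at h3
  linarith

end Pool.Agent.GaussPoset.Sm
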