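import Pool.Agent.W_448s7_h27.PhE
import Pool.Agent.W_448s7_h27.EwJ

/-!
Elimination with the windows `0, …, 4` (MP_448cb3_co, S7): the steps.
-/

namespace Pool.Agent.GaussPoset.Sm

set_option linter.unusedSectionVars false

open Finset Wd Ec W4 Cl

universe u

variable {P : Type u} [Fintype P] [PartialOrder P] [DecidableEq P] {r j w : ℕ}
  {lo hi : Tops P → ℕ → ℕ} {e : Tops P → ℕ → ℕ → P}

section

variable {X : ℕ × ℕ × ℕ → ℕ × ℕ × ℕ → Bool} {cap : ℕ → ℤ} {tA tB : List (List ℤ)}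
  {E S1 S2 : List (ℕ × ℕ × ℕ × ℕ)} {nO nE : ℕ → ℤ → Bool} {lb V : ℕ → ℤ} {u XL : List ℤ}

/-- the lower bound of the costs of the joins at the window `4` -/
theorem Ctx.costF (K : Ctx P r j lo hi e) (hN : NoP P j X)
    (T : TabF j 4 cap tA tB E S1 S2 X) (hB : Bals P j cap nO nE lb V) (hS : StF P j V u XL)
    {T0 : ℕ} (hFo : FoB P j ((j - 3) ^ 2 + T0))
    (hT : (T0 : ℤ) ≤ cap 4 + 1) (c1 : lowC tA tB XL j u T0 = true)
    (c3 : (j - 3) ^ 2 + T0 ≤ fatS j) (c4 : j % 2 = 0 → (j - 3) ^ 2 + T0 ≤ fatFo j) :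
    ∀ z x x' : P, Cg z x x' → (j - 3) ^ 2 + T0 ≤ ful 4 z :=
  K.lowN T.h12 hFo (fun _ _ _ h hs hs' => K.lowV hN T hB hS hT c1 h hs hs') c3 c4

/-- **the step at the window `4`** -/
theorem Ctx.stepF (K : Ctx P r j lo hi e) (hN : NoP P j X)
    (T : TabF j 4 cap tA tB E S1 S2 X) (hB : Bals P j cap nO nE lb V) (hS : StF P j V u XL)
    {T0 p : ℕ} (hFo : FoB P j ((j - 3) ^ 2 + T0 + 1)) (hT : (T0 : ℤ) ≤ cap 4) (c1 : lowC tA tB XL j u T0 = true)
    (c2 : parC tB j u T0 p = true)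
    (c3 : (j - 3) ^ 2 + T0 < fatS j) (c4 : j % 2 = 0 → (j - 3) ^ 2 + T0 < fatFo j)
    (hk : (∀ z x x' : P, Cg z x x' → (j - 3) ^ 2 + T0 ≤ ful 4 z) →
      (∀ z x x' : P, Cg z x x' → ful 4 z = (j - 3) ^ 2 + T0 → 3 ≤ nab 4 z →
        nst 4 (fun z => lev z - 4) z % 2 = p) →
      ∀ z x x' : P, Cg z x x' → ful 4 z = (j - 3) ^ 2 + T0 → nab 4 z ≤ 2) :
    StF P j V u ((T0 : ℤ) :: XL) := by
  have h12 := T.h12
  refine ⟨hS.bel, fun z x x' h hs hs' hm => ?_⟩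
  rcases List.mem_cons.mp hm with h1 | h1
  · refine hk (K.costF hN T hB hS (hFo.mono (Nat.le_succ _)) (by linarith) c1 c3.le
      fun h => (c4 h).le) ?_ z x x' h ?_
    · intro y v v' hy hfy h3
      obtain ⟨g1, g2, g3⟩ := K.sokN h12 hFo c3 c4 hy hfy
      have h4 := K.par4 h12 hy g1 g2
      have h5 := K.parV hN T hB hS hT c2 hy g1 g2 g3 h3
      rw [h5] at h4
      exact_mod_cast h4
    · have h2 := K.line4 h12 h hs hs'
      rw [h1] at h2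
      exact_mod_cast h2
  · exact hS.kill z x x' h hs hs' h1

/-- the least cost at the window `3` -/
lemma StF.v3 (hS : StF P j V u XL) {v : ℕ} (hV : V 3 = (v : ℤ) - ((j + 1 - 3 : ℕ) : ℤ) ^ 2)
    {V3 : ℕ} (h : (V3 : ℤ) ≤ u.getD 3 0 + ((j + 1 - 3 : ℕ) : ℤ) ^ 2) : V3 ≤ v := by
  have h1 := hS.bel.2 3 le_rfl
  rw [hV] at h1
  have : (V3 : ℤ) ≤ v := by linarith
  exact_mod_cast this

/-- the pairs of ends which are left -/
def restF (j : ℕ) (E : List (ℕ × ℕ × ℕ × ℕ)) (X : ℕ × ℕ × ℕ → ℕ × ℕ × ℕ → Bool)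
    (u XL : List ℤ) : List ((ℕ × ℕ × ℕ) × (ℕ × ℕ × ℕ)) :=
  E.flatMap fun s => (E.filter fun s' => !X (tr3 s) (tr3 s') &&
    (Chk.above ((s.1 : ℤ) + s'.1) (-((s.2.1 : ℤ) + s'.2.1)) u j &&
      !(decide (1 ≤ s.2.2.2 + s'.2.2.2) &&
        XL.elem (((s.1 : ℤ) + s'.1) * (j - 4) + -((s.2.1 : ℤ) + s'.2.1))))).map
      fun s' => (tr3 s, tr3 s')

/-- **the pairs of ends which are left** -/
theorem Ctx.leftS (K : Ctx P r j lo hi e) (hN : NoP P j X)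
    (T : TabF j 4 cap tA tB E S1 S2 X) (hB : Bals P j cap nO nE lb V) (hS : StF P j V u XL)
    {z x x' : P} (h : Cg z x x') (hl : lev z = j + 1) (hs : Sok j x) (hs' : Sok j x') :
    ∃ s s', (s, s') ∈ restF j E X u XL ∧ Dt j x s ∧ Dt j x' s' := by
  obtain ⟨s, s', g1, g1', d1, d1', e1, e2, e3⟩ := K.pairF T.h12 T.e T.e0 h hl hs hs'
  refine ⟨_, _, ?_, d1, d1'⟩
  have h1 := hS.above hB h hs hs'
  rw [e1, e2] at h1
  unfold restF
  rw [List.mem_flatMap]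
  refine ⟨s, g1, ?_⟩
  rw [List.mem_map]
  refine ⟨s', ?_, rfl⟩
  rw [List.mem_filter]
  refine ⟨g1', ?_⟩
  rw [hN z x x' h hl _ _ d1 d1', Bool.not_false, Bool.true_and, h1, Bool.true_and,
    Bool.not_eq_true', Bool.and_eq_false_iff, decide_eq_false_iff_not]
  by_cases hf : 1 ≤ s.2.2.2 + s'.2.2.2
  · right
    rw [Bool.eq_false_iff]
    intro hm
    have h2 := hS.kill z x x' h hs hs' (by
      rw [e1, e2]
      exact List.elem_iff.mp hm)
    omega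
  · exact Or.inl hf

end

/-- a join with two ends with the data of `E7` -/
theorem Ctx.e2_of (K : Ctx P r j lo hi e) {N : Tops P → Finset P} {θ4 : Tops P → P → ℕ}
    {Nf : Tops P → Finset P} {θf : Tops P → (ℕ → ℕ → ℕ) → P → ℕ} {D : Tops P → Prop}
    (F : Fs P j lo hi e N θ4 Nf θf D) (hrow : Row5 j) {m c b b' : ℕ} (hC : ChkW j m c)
    (hm0 : m ≠ 0) (hf : fm j ≠ m) {z x x' : P} (h : Cg z x x') (hl : lev z = j + 1)
    (d : Dt j x (m, c, b)) (d' : Dt j x' (m, c, b')) : E2 j lo hi e N Nf D z := by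
  have h5 := K.h5
  have key : ∀ y y' : P, ∀ b : ℕ, Cg z y y' → Dt j y (m, c, b) →
      HitE j lo hi e N Nf D (topOf y) z 5 := by
    intro y y' b hy dy
    have hly : lev y = j := by
      have := (hy.lev_eq K.gt.H).1
      omega
    have hw := K.word_of_data hC hm0 hf hy.only hly (K.ends hy hl).1 dy.1 dy.2.1
    obtain ⟨g1, g2, g3⟩ := F.of_word hw
    obtain ⟨s, a1, a2, a3⟩ := (K.comp (topOf y)).surj y (onlyB_le hy.only) hly.le
    rw [hly] at a1 a2 a3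
    obtain ⟨r1, r2⟩ := hw.rows (K.comp (topOf y))
    have q1 := r1 j le_rfl
    have q2 := r2 j le_rfl
    have e1 := hrow.1
    have e2 := hrow.2
    have hs : s = 5 := by omega
    subst hs
    exact ⟨g1, hw, g2, g3, hl, a1, a2, by rw [a3]; exact hy.cov⟩
  exact ⟨topOf x, topOf x', h.ne, key x x' b h d, key x' x b' h.symm d'⟩

end Pool.Agent.GaussPoset.Sm
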