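import Pool.Agent.W_448s7_h27.PhF
import Pool.Agent.W_448s7_h27.EwR

/-!
Elimination with the windows `0, …, 4` (MP_448cb3_co, S7): joins of two `E7` tops.
-/

namespace Pool.Agent.GaussPoset.Ec

set_option linter.unusedSectionVars false

open Polynomial Finset Sm Wd Cp W4 Cl

universe u

variable {P : Type u} [Fintype P] [PartialOrder P] [DecidableEq P] {r j : ℕ}
  {lo hi : Tops P → ℕ → ℕ} {e : Tops P → ℕ → ℕ → P} {N : Tops P → Finset P}
  {θ3 θ4 : Tops P → P → ℕ} {Nf : Tops P → Finset P} {θf : Tops P → (ℕ → ℕ → ℕ) → P → ℕ}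
  {D : Tops P → Prop} {K3 K' V3 : ℕ} {b : Tops P → ℕ}

/-- the costs of the boundary elements are larger than `n`, if those of the joins are -/
lemma min_lt (Y : Y4 r j K3 K' V3 N b θ3 θ4) (hNF : Sm.NF P j) {n : ℕ} (hn : n ≤ K')
    (hjn : ∀ z x x' : P, Cg z x x' → n + 1 ≤ ful 4 z) :
    ∀ z ∈ bdR (rA N), n < cst 4 (hA N θ4) z := by
  obtain ⟨h1, -, h3⟩ := Y.own_noise (fun _ => Or.inr hNF) hn
    (fun z x x' h => (Nat.le_succ n).trans (hjn z x x' h))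
  intro z hz
  refine lt_of_le_of_ne (h1 z hz) fun h => ?_
  obtain ⟨-, -, h4, x, x', h5⟩ := h3 z hz h.symm
  have := hjn z x x' h5
  omega

/-- **No join of two `E7` tops**, `j = 15`. -/
theorem Fs.no_E2_15 (F : Fs P 15 lo hi e N θ4 Nf θf D) (K : Ctx P r 15 lo hi e)
    (Y : Y4 r 15 K3 K' V3 N b θ3 θ4) (hNF : Sm.NF P 15) (hn : 215 ≤ K')
    (hjn : ∀ z x x' : P, Cg z x x' → 216 ≤ ful 4 z) : ¬ ∃ z, E2 15 lo hi e N Nf D z := by
  obtain ⟨k1, k2, k3⟩ := cw15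
  exact F.no_E2 K (by norm_num) Y row5_15 (cS := 121) (h2 := 9) de_15 k2
    (Or.inl rfl) k3 (by norm_num) (by norm_num) (by norm_num)
    (F.hdv15 K Y (fun x hx => hn.trans_lt (Y.out_tw hx)))
    (min_lt Y hNF hn hjn) (by rw [k1]) (by norm_num)
    (Or.inr ⟨rfl, Or.inl (by norm_num)⟩) (by decide +kernel) (by decide +kernel) (by norm_num)

/-- the balance at the window `3` for all systems, with the least cost -/
def W3H (P : Type u) [Fintype P] [PartialOrder P] [DecidableEq P] (r j : ℕ)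
    (lo hi : Tops P → ℕ → ℕ) (c3 : ℤ) (nO nE : ℤ → Bool) (lb : ℤ) : Prop :=
  ∀ (N : Tops P → Finset P) (θ3 θ4 : Tops P → P → ℕ), Sy P j lo hi N θ3 θ4 →
    (∃ z : P, Hul.Jn z) → ∃ K3 v : ℕ, Mn j 3 N θ3 v ∧
      Wk r j 3 K3 N (fun t => hi t 3 - lo t 3 + 1) θ3 ∧
      WinB P j 3 c3 nO nE lb ((v : ℤ) - ((j + 1 - 3 : ℕ) : ℤ) ^ 2)

end Pool.Agent.GaussPoset.Ec

namespace Pool.Agent.GaussPoset.Sm

open Finset Wd Ec W4 Cl

universe u

variable {P : Type u} [Fintype P] [PartialOrder P] [DecidableEq P] {r j : ℕ}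

/-- no pair is excluded -/
def XN (_ _ : ℕ × ℕ × ℕ) : Bool := false

lemma noP_XN (j : ℕ) : NoP P j XN := fun _ _ _ _ _ _ _ _ _ => rfl

/-- the pair `s0`, `s0` -/
def XQ (s0 s s' : ℕ × ℕ × ℕ) : Bool := s == s0 && s' == s0

/-- the pair of two `E7` ends is excluded -/
theorem Ctx.noP_XQ {lo hi : Tops P → ℕ → ℕ} {e : Tops P → ℕ → ℕ → P} (K : Ctx P r j lo hi e)
    {N : Tops P → Finset P} {θ4 : Tops P → P → ℕ} {Nf : Tops P → Finset P}
    {θf : Tops P → (ℕ → ℕ → ℕ) → P → ℕ} {D : Tops P → Prop}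
    (F : Fs P j lo hi e N θ4 Nf θf D) (hrow : Row5 j) {m c b : ℕ} (hC : ChkW j m c)
    (hm0 : m ≠ 0) (hf : fm j ≠ m) (hE : ¬ ∃ z, E2 j lo hi e N Nf D z) :
    NoP P j (XQ (m, c, b)) := by
  intro z x x' h hl s s' d d'
  unfold XQ
  rw [Bool.and_eq_false_iff]
  by_contra hcon
  rw [not_or] at hcon
  obtain ⟨h1, h2⟩ := hcon
  rw [Bool.not_eq_false, beq_iff_eq] at h1 h2
  subst h1
  subst h2
  exact hE ⟨z, K.e2_of F hrow hC hm0 hf h hl d d'⟩

end Pool.Agent.GaussPoset.Sm
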