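import Pool.Agent.W_448s7_h27.PhG
import Pool.Agent.W_448s7_h27.EwT
import Pool.Agent.W_448s8f_h76.FjD

/-!
The fold joins are expensive for `j = 16` (MP_448cb3_co, S7).
-/

namespace Pool.Agent.GaussPoset.Ec

set_option linter.unusedSectionVars false

open Polynomial Finset Sm Wd Cp W4 Cl

universe u

variable {P : Type u} [Fintype P] [PartialOrder P] [DecidableEq P] {r j : ℕ}
  {lo hi : Tops P → ℕ → ℕ} {e : Tops P → ℕ → ℕ → P}

/-- the costs of the fold joins -/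
theorem fo_cost (K : Ctx P r j lo hi e) (h12 : 12 ≤ j) {E : List (ℕ × ℕ × ℕ)} (hE : ChkE j E)
    (h0 : (0, 0, 0) ∈ E) {n : ℕ} (h1 : (n : ℤ) ≤ cFF 4 j) (h2 : ∀ s ∈ E, (n : ℤ) ≤ cF 4 j s) :
    FoB P j n ∧ ∀ m, m < n → HnF P j m := by
  have hL := K.foL h12 hE h0
  have key : ∀ z x x' : P, FJn j z x x' → n ≤ cst 4 (fun _ => j - 5) z := by
    intro z x x' h
    have h3 := K.fo_ge h12 le_rfl hL h1 h2 h
    rw [show j - 4 - 1 = j - 5 by omega] at h3
    exact_mod_cast h3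
  refine ⟨fun z x x' hz hl hf => ?_, fun m hm z x x' h hc => ?_⟩
  · have h3 := key z x x' ⟨hz, hl, hf⟩
    have h4 := cst_lt_ful (z := z) (k := j - 5) (by omega)
    omega
  · have := key z x x' h
    omega

end Pool.Agent.GaussPoset.Ec
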