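import Pool.Agent.W_448s7_h27.PhL
import Pool.Agent.W_448s7_h27.EwY
import Pool.Agent.W_448f4_h70.FB
import Pool.Agent.W_448s7s_h5.SrJ15

/-!
S7 for `j = 15`: the windows `0, …, 4` (MP_448cb3_co).
-/

namespace Pool.Agent.GaussPoset.Sm

set_option linter.unusedSectionVars false

open Finset Wd Ec W4

universe u

variable {P : Type u} [Fintype P] [PartialOrder P] [DecidableEq P] {r : ℕ}

/-- ends -/
def Ef15 : List (ℕ × ℕ × ℕ × ℕ) :=
    [(0, 0, 0, 0), (1, 2, 1, 0), (1, 3, 0, 0), (1, 4, 0, 0), (1, 5, 0, 0), (1, 6, 0, 0),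
     (1, 7, 0, 0), (3, 9, 1, 0), (5, 20, 1, 0), (5, 25, 0, 0), (10, 70, 0, 1)]

/-- sides, one level deeper -/
def Sf15a : List (ℕ × ℕ × ℕ × ℕ) :=
    [(0, 0, 0, 0), (0, 0, 1, 0), (1, 1, 0, 0), (1, 1, 1, 0), (1, 2, 0, 0), (1, 3, 0, 0),
     (1, 4, 0, 0), (1, 5, 0, 0), (1, 6, 0, 0), (1, 7, 0, 0), (2, 3, 1, 0), (3, 6, 0, 0),
     (3, 6, 1, 0), (3, 9, 0, 0), (4, 7, 1, 0), (4, 10, 1, 0), (5, 12, 1, 0), (5, 15, 0, 0),
     (5, 15, 1, 0), (5, 20, 0, 0), (5, 25, 0, 0), (6, 13, 1, 0), (6, 16, 1, 0), (6, 21, 1, 0),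
     (7, 23, 1, 0), (7, 28, 1, 0), (8, 24, 1, 0), (8, 31, 0, 0), (8, 31, 1, 0), (9, 33, 0, 0),
     (10, 34, 1, 0), (10, 70, 0, 1)]

/-- sides, two or more levels deeper -/
def Sf15b : List (ℕ × ℕ × ℕ × ℕ) :=
    [(0, 0, 0, 0), (0, 0, 1, 0), (1, 1, 0, 0), (1, 1, 1, 0), (1, 1, 2, 0), (1, 2, 0, 0),
     (1, 3, 0, 0), (1, 4, 0, 0), (1, 5, 0, 0), (1, 6, 0, 0), (1, 7, 0, 0), (2, 3, 0, 0),
     (2, 3, 1, 0), (2, 3, 2, 0), (3, 6, 0, 0), (3, 6, 1, 0), (3, 9, 0, 0), (4, 7, 1, 0),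
     (4, 7, 2, 0), (4, 7, 3, 0), (4, 10, 0, 0), (4, 10, 1, 0), (4, 10, 2, 0), (5, 12, 0, 0),
     (5, 12, 1, 0), (5, 15, 0, 0), (5, 15, 1, 0), (5, 20, 0, 0), (5, 25, 0, 0), (6, 13, 1, 0),
     (6, 13, 2, 0), (6, 13, 3, 0), (6, 16, 1, 0), (6, 16, 2, 0), (6, 21, 0, 0), (6, 21, 1, 0),
     (7, 23, 0, 0), (7, 23, 1, 0), (7, 28, 0, 0), (7, 28, 1, 0), (8, 24, 1, 0), (8, 24, 2, 0),
     (8, 24, 3, 0), (8, 31, 0, 0), (8, 31, 1, 0), (9, 33, 0, 0), (10, 34, 1, 0),
     (10, 34, 2, 0), (10, 70, 0, 1), (11, 35, 1, 0), (11, 35, 2, 0), (11, 35, 3, 0),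
     (11, 35, 4, 0)]

lemma chkEf15 : ChkE4 15 Ef15 := by decide +kernel

lemma chkSf15a : ChkT4 15 Sf15a := by decide +kernel

lemma chkSf15b : ChkS4 15 Sf15b := by decide +kernel

/-- caps -/
def cf15 (w : ℕ) : ℤ :=
  if w = 3 then 84 else if w = 4 then 75 else cr15 w

/-- even noise -/
def nef15 (w : ℕ) (V : ℤ) : Bool :=
  if w = 3 then (nz ((15 + 1 - 3 : ℕ) : ℤ) V || ([76, 77] : List ℤ).elem V) else ner15 w V

/-- odd noise -/
def nof15 (w : ℕ) (V : ℤ) : Bool :=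
  if w = 3 then ([73, 74, 78, 79] : List ℤ).elem V else nor15 w V

/-- caps as a list -/
def cfl15 : List (ℕ × ℕ) := [(15, 122), (14, 104), (13, 87), (12, 84), (11, 75)]

lemma capf15 : CapL 15 4 cf15 cfl15 := by decide +kernel

/-- lines with `g + 300`, two elements above on the level `4` -/
def tAf15 : List (List ℕ) :=
  [[300], [293, 294, 295, 296, 297, 298], [286, 287, 288, 289, 290, 291, 292, 293, 294, 295,
   296, 303], [291, 296, 297, 298, 299, 300, 301, 302, 303], [284, 285, 286, 287, 288, 289, 290,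
   291, 292, 293, 294, 295, 296, 297, 298, 299, 300, 301, 302, 303, 308], [275, 280, 294, 295,
   296, 297, 298, 299, 300, 301, 302, 303, 304, 305, 306, 307, 308, 309], [268, 269, 270, 271,
   272, 273, 274, 275, 276, 277, 278, 282, 287, 288, 289, 290, 291, 292, 293, 294, 295, 296,
   297, 298, 299, 300, 301, 302, 303, 304, 305, 306, 307, 308, 309, 310, 315], [278, 283, 288,
   290, 291, 292, 293, 294, 295, 296, 297, 298, 299, 300, 301, 302, 303, 304, 305, 306, 307,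
   308, 309, 310, 311, 312, 313, 314, 315, 316, 317], [266, 271, 272, 273, 274, 275, 276, 277,
   278, 279, 280, 281, 282, 283, 284, 285, 286, 287, 288, 289, 290, 291, 292, 293, 294, 295,
   296, 297, 298, 299, 300, 301, 302], [277, 281, 282, 283, 284, 285, 286, 287], [250, 255, 260,
   269, 272], [], [], [], [], []]

/-- lines with `g + 300`, at least three elements above on the level `4` -/
def tBf15 : List (List ℕ) :=
  [[], [], [], [], [], [], [], [], [], [], [230], [223, 224, 225, 226, 227, 228], [233], [221,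
   226, 227, 228, 229, 230, 231, 232], [], [205, 210]]

/-- lines -/
def LA15 : List (List ℤ) :=
  [[0], [-7, -6, -5, -4, -3, -2], [-14, -13, -12, -11, -10, -9, -8, -7, -6, -5, -4, 3], [-9, -4,
   -3, -2, -1, 0, 1, 2, 3], [-16, -15, -14, -13, -12, -11, -10, -9, -8, -7, -6, -5, -4, -3, -2,
   -1, 0, 1, 2, 3, 8], [-25, -20, -6, -5, -4, -3, -2, -1, 0, 1, 2, 3, 4, 5, 6, 7, 8, 9], [-32,
   -31, -30, -29, -28, -27, -26, -25, -24, -23, -22, -18, -13, -12, -11, -10, -9, -8, -7, -6,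
   -5, -4, -3, -2, -1, 0, 1, 2, 3, 4, 5, 6, 7, 8, 9, 10, 15], [-22, -17, -12, -10, -9, -8, -7,
   -6, -5, -4, -3, -2, -1, 0, 1, 2, 3, 4, 5, 6, 7, 8, 9, 10, 11, 12, 13, 14, 15, 16, 17], [-34,
   -29, -28, -27, -26, -25, -24, -23, -22, -21, -20, -19, -18, -17, -16, -15, -14, -13, -12,
   -11, -10, -9, -8, -7, -6, -5, -4, -3, -2, -1, 0, 1, 2], [-23, -19, -18, -17, -16, -15, -14,
   -13], [-50, -45, -40, -31, -28], [], [], [], [], []]

/-- lines -/
def LB15 : List (List ℤ) :=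
  [[], [], [], [], [], [], [], [], [], [], [-70], [-77, -76, -75, -74, -73, -72], [-67], [-79,
   -74, -73, -72, -71, -70, -69, -68], [], [-95, -90]]

lemma LA15_eq : LA15 = tabI tAf15 := by decide +kernel

lemma LB15_eq : LB15 = tabI tBf15 := by decide +kernel

lemma ff15a : fst1F cfl15 tAf15 tBf15 Sf15a = true := by decide +kernel

lemma ff15b : fst2F cfl15 tAf15 tBf15 Sf15b = true := by decide +kernel

theorem tabf15 : TabF 15 4 cf15 LA15 LB15 Ef15 Sf15a Sf15b XN := by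
  refine ⟨by norm_num, by norm_num, chkEf15, chkSf15a, chkSf15b, ?_, ?_, ?_, ?_, ?_, ?_, ?_, ?_⟩
  · decide +kernel
  · decide +kernel
  · decide +kernel
  · decide +kernel
  · decide +kernel
  · rw [LA15_eq, LB15_eq]
    exact chk1F_of capf15 ff15a
  · rw [LA15_eq, LB15_eq]
    exact chk2F_of (by norm_num) capf15 ff15b
  · decide +kernel

/-- one round of the windows `0, …, 3` -/
def rd15 (XL u : List ℤ) : List ℤ :=
  rnds (aX LA15 LB15 XL ((15 : ℕ) : ℤ)) nof15 nef15 cf15 (odds LA15.length) (evens LA15.length)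
    ((15 : ℕ) : ℤ) 250 4 24 u

lemma sw15_1 : rd15 [] ((List.range 4).map fun w => min (lwr15 w) (cf15 w + 1)) = [105, 98, 88, 77] := by
  decide +kernel

lemma sw15_2 : rd15 [64] [105, 98, 88, 77] = [105, 98, 88, 82] := by
  decide +kernel

lemma sw15_3 : rd15 [69, 64] [105, 98, 88, 82] = [111, 103, 88, 85] := by
  decide +kernel

lemma nm_15_63 : Nm 15 (12 ^ 2 + 63) (13 ^ 2 + 76) := by
  constructor <;> decide +kernel

lemma rest15 : restF 15 Ef15 XN [111, 103, 88, 85] [75, 74, 73, 72, 70, 69, 64] = [((10, 70, 0), (10, 70, 0))] := by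
  decide +kernel

/-- the own elements at the window `4` at the energy `208`, if the least raised cost at the window
`3` is at least `13 ^ 2 + 77` -/
def Q15 (P : Type u) [Fintype P] [PartialOrder P] [DecidableEq P] (N : Tops P → Finset P)
    (θ3 θ4 : Tops P → P → ℕ) (V : ℕ) : Prop :=
  13 ^ 2 + 77 ≤ V → (∀ z x x' : P, Cg z x x' → 12 ^ 2 + 64 ≤ ful 4 z) →
    OwnN 15 (12 ^ 2 + 64) N θ3 θ4

section

variable {lo hi : Tops P → ℕ → ℕ} {e : Tops P → ℕ → ℕ → P}

/-- **S7 for `j = 15`**: there is no join of level `16`, if the window `3` balances up to `84`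
with the own noise `73, 74, 78, 79` (odd), `76, 77` (even). -/
theorem noj15 (K : Ctx P r 15 lo hi e)
    (hW : W3Q P r 15 lo hi 84 (nof15 3) (nef15 3) 0 (13 ^ 2 + 76) (Q15 P))
    {z x x' : P} (h : Cg z x x') (hl : lev z = 16) : False := by
  classical
  have hNF : NF P 15 := nf_odd (by norm_num)
  have hN := noP_XN (P := P) 15
  have T := tabf15
  have hJ : ∃ z : P, Hul.Jn z := ⟨z, h.jn⟩
  obtain ⟨N, θ3, θ4, Nf, θf, D, S, F⟩ := exists_fs K (by norm_num)
  obtain ⟨K3, v, v', V, M, q1, q2, W, hB, hV3, q3⟩ := W3Q.bals (cap := cf15) (nO := nof15)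
    (nE := nef15) (lb := lwr15) hW S hJ
    (fun w hw => by
      have h0 := balr15 K hNF.noFo hJ w hw.le
      have : w = 0 ∨ w = 1 ∨ w = 2 := by omega
      rcases this with rfl | rfl | rfl <;> exact h0)
  have sw : ∀ XL u u' : List ℤ, rd15 XL u = u' → StF P 15 V u XL → StF P 15 V u' XL :=
    fun XL u u' he s => he ▸ K.sweepF hN T hB s 250 24
  have cf : ¬ (15 % 2 = 0) := by norm_num
  have s0 := StF.start hB
  have s1 : StF P 15 V [105, 98, 88, 77] [] := sw _ _ _ sw15_1 s0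
  have Y1 : Y4 r 15 K3 (12 ^ 2 + 63) (13 ^ 2 + 76) N _ θ3 θ4 :=
    y4_of S W M (s1.v3R hV3 q1 q2 (Or.inl (by norm_num)) (Or.inl (by norm_num))) nm_15_63
  have hQ := q3 (s1.v3V hV3 (by norm_num))
  have s2 : StF P 15 V [105, 98, 88, 77] [64] :=
    K.stepF hN T hB s1 (T0 := 64) (p := 1) (hNF.foB _) (by decide +kernel) (by decide +kernel)
      (by decide +kernel) (by decide +kernel) (fun h => absurd h cf)
      (fun hj hp => F.killN15 K Y1 (by norm_num) (hQ hj) (Or.inl (by norm_num)) hp)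
  have s3 : StF P 15 V [105, 98, 88, 82] [64] := sw _ _ _ sw15_2 s2
  have Y2 : Y4 r 15 K3 (12 ^ 2 + 71) (13 ^ 2 + 78) N _ θ3 θ4 :=
    y4_of S W M (s3.v3R hV3 q1 q2 (Or.inl (by norm_num)) (Or.inr (by norm_num))) nm_15_71
  have s4 : StF P 15 V [105, 98, 88, 82] [69, 64] :=
    K.stepF hN T hB s3 (T0 := 69) (p := 1) (hNF.foB _) (by decide +kernel) (by decide +kernel)
      (by decide +kernel) (by decide +kernel) (fun h => absurd h cf)
      (fun hj hp => F.kill15 K Y2 hNF (by norm_num) (Or.inl (by norm_num)) hj hp)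
  have s5 : StF P 15 V [111, 103, 88, 85] [69, 64] := sw _ _ _ sw15_3 s4
  have s6 : StF P 15 V [111, 103, 88, 85] [70, 69, 64] :=
    K.stepF hN T hB s5 (T0 := 70) (p := 1) (hNF.foB _) (by decide +kernel) (by decide +kernel)
      (by decide +kernel) (by decide +kernel) (fun h => absurd h cf)
      (fun hj hp => F.kill15 K Y2 hNF (by norm_num) (Or.inl (by norm_num)) hj hp)
  have hj216 : ∀ z x x' : P, Cg z x x' → 216 ≤ ful 4 z :=
    K.costF hN T hB s6 (T0 := 72) (hNF.foB _) (by decide +kernel) (by decide +kernel)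
      (by decide +kernel) (fun h => absurd h cf)
  have hE2 := F.no_E2_15 K Y2 hNF (by norm_num) hj216
  have Y3 : Y4 r 15 K3 (12 ^ 2 + 75) (13 ^ 2 + 81) N _ θ3 θ4 :=
    y4_of S W M (s6.v3R hV3 q1 q2 (Or.inl (by norm_num)) (Or.inr (by norm_num))) nm_15_75
  have s7 : StF P 15 V [111, 103, 88, 85] [72, 70, 69, 64] :=
    K.stepF hN T hB s6 (T0 := 72) (p := 1) (hNF.foB _) (by decide +kernel) (by decide +kernel)
      (by decide +kernel) (by decide +kernel) (fun h => absurd h cf)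
      (fun hj hp => F.kill15 K Y3 hNF (by norm_num) (Or.inr ⟨by norm_num, hE2⟩) hj hp)
  have s8 : StF P 15 V [111, 103, 88, 85] [73, 72, 70, 69, 64] :=
    K.stepF hN T hB s7 (T0 := 73) (p := 1) (hNF.foB _) (by decide +kernel) (by decide +kernel)
      (by decide +kernel) (by decide +kernel) (fun h => absurd h cf)
      (fun hj hp => F.kill15 K Y3 hNF (by norm_num) (Or.inr ⟨by norm_num, hE2⟩) hj hp)
  have s9 : StF P 15 V [111, 103, 88, 85] [74, 73, 72, 70, 69, 64] :=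
    K.stepF hN T hB s8 (T0 := 74) (p := 1) (hNF.foB _) (by decide +kernel) (by decide +kernel)
      (by decide +kernel) (by decide +kernel) (fun h => absurd h cf)
      (fun hj hp => F.kill15 K Y3 hNF (by norm_num) (Or.inr ⟨by norm_num, hE2⟩) hj hp)
  have s10 : StF P 15 V [111, 103, 88, 85] [75, 74, 73, 72, 70, 69, 64] :=
    K.stepF hN T hB s9 (T0 := 75) (p := 1) (hNF.foB _) (by decide +kernel) (by decide +kernel)
      (by decide +kernel) (by decide +kernel) (fun h => absurd h cf)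
      (fun hj hp => F.kill15 K Y3 hNF (by norm_num) (Or.inr ⟨by norm_num, hE2⟩) hj hp)
  obtain ⟨s, s', g1, g2, g3⟩ := K.leftS hN T hB s10 h hl (hNF.sok K.gt.H h hl)
    (hNF.sok K.gt.H h.symm hl)
  rw [rest15, List.mem_singleton, Prod.mk.injEq] at g1
  obtain ⟨rfl, rfl⟩ := g1
  exact hE2 ⟨z, K.e2_of F row5_15 chkW15 (by norm_num) (by decide +kernel) h hl g2 g3⟩

end

end Pool.Agent.GaussPoset.Sm
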