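import Pool.Agent.W_448s7_h27.PnJ14
import Pool.Agent.W_448s7_h27.PoC

/-!
S7 for `j = 14`: the window `3` up to `74` (MP_448cb3_co).
-/

namespace Pool.Agent.GaussPoset.Sm

set_option linter.unusedSectionVars false

open Finset Wd Ec W4

universe u

variable {P : Type u} [Fintype P] [PartialOrder P] [DecidableEq P] {r : ℕ}

/-- caps -/
def cg14 (w : ℕ) : ℤ :=
  if w = 0 then cap0 14 else if w = 1 then ((14 * (14 - 1) / 2 : ℕ) : ℤ) - 1
  else if w = 2 then 75 else if w = 3 then 74 else 43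

/-- even noise -/
def neg14 (w : ℕ) (V : ℤ) : Bool :=
  if w = 0 then false else if w = 1 then nz 14 V
  else if w = 2 then (nz ((14 + 1 - 2 : ℕ) : ℤ) V || ([24] : List ℤ).elem V)
  else ((nz ((14 + 1 - 3 : ℕ) : ℤ) V && !(([65] : List ℤ).elem V)) ||
    ([16, 66, 67] : List ℤ).elem V)

/-- odd noise -/
def nog14 (w : ℕ) (V : ℤ) : Bool :=
  if w = 0 then false else if w = 1 then false
  else if w = 2 then ([] : List ℤ).elem V else ([64, 65] : List ℤ).elem V

/-- caps as a list -/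
def cgl14 : List (ℕ × ℕ) := [(14, 107), (13, 90), (12, 75), (11, 74), (10, 43)]

lemma capg14 : CapL 14 4 cg14 cgl14 := by decide +kernel

/-- lines with `g + 300`, two elements above on the level `4` -/
def tAg14 : List (List ℕ) :=
  [[300], [293, 294, 295, 296, 297, 298], [286, 287, 288, 289, 290, 291, 292, 293, 294, 295,
   296, 303], [291, 296, 297, 298, 299, 300, 301, 302, 303], [284, 285, 286, 287, 288, 289, 290,
   291, 292, 293, 294, 295, 296, 297, 298, 299, 300, 301, 302, 303, 308], [275, 280, 294, 295,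
   296, 297, 298, 299, 300, 301, 302, 303, 304, 305, 306, 307, 308, 309], [268, 269, 270, 271,
   272, 273, 274, 275, 276, 277, 278, 282, 287, 288, 289, 290, 291, 292, 293, 294, 295, 296,
   297, 298, 299, 300, 301, 302, 303, 304, 305, 306, 307, 308, 309, 310, 315], [278, 283, 288,
   290, 291, 292, 293, 294, 295, 296, 297, 298, 299, 300, 301, 302, 303, 304, 305, 306, 307,
   308, 309], [266, 271, 272, 273, 274, 275, 276, 277, 278, 279, 280, 281, 282, 283, 284, 285,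
   286, 287, 288, 289, 290, 291, 292, 293, 294, 295], [277, 281], [250, 255, 260], [], [], []]

/-- lines with `g + 300`, at least three elements above on the level `4` -/
def tBg14 : List (List ℕ) :=
  [[], [], [], [], [], [], [], [], [], [], [240], [233, 234, 235, 236, 237, 238], [], [231]]

/-- lines -/
def LAg14 : List (List ℤ) :=
  [[0], [-7, -6, -5, -4, -3, -2], [-14, -13, -12, -11, -10, -9, -8, -7, -6, -5, -4, 3], [-9, -4,
   -3, -2, -1, 0, 1, 2, 3], [-16, -15, -14, -13, -12, -11, -10, -9, -8, -7, -6, -5, -4, -3, -2,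
   -1, 0, 1, 2, 3, 8], [-25, -20, -6, -5, -4, -3, -2, -1, 0, 1, 2, 3, 4, 5, 6, 7, 8, 9], [-32,
   -31, -30, -29, -28, -27, -26, -25, -24, -23, -22, -18, -13, -12, -11, -10, -9, -8, -7, -6,
   -5, -4, -3, -2, -1, 0, 1, 2, 3, 4, 5, 6, 7, 8, 9, 10, 15], [-22, -17, -12, -10, -9, -8, -7,
   -6, -5, -4, -3, -2, -1, 0, 1, 2, 3, 4, 5, 6, 7, 8, 9], [-34, -29, -28, -27, -26, -25, -24,
   -23, -22, -21, -20, -19, -18, -17, -16, -15, -14, -13, -12, -11, -10, -9, -8, -7, -6, -5],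
   [-23, -19], [-50, -45, -40], [], [], []]

/-- lines -/
def LBg14 : List (List ℤ) :=
  [[], [], [], [], [], [], [], [], [], [], [-60], [-67, -66, -65, -64, -63, -62], [], [-69]]

lemma LAg14_eq : LAg14 = tabI tAg14 := by decide +kernel

lemma LBg14_eq : LBg14 = tabI tBg14 := by decide +kernel

lemma fg14a : fst1F cgl14 tAg14 tBg14 Sf14a = true := by decide +kernel

lemma fg14b : fst2F cgl14 tAg14 tBg14 Sf14b = true := by decide +kernel

theorem tabg14 : TabF 14 4 cg14 LAg14 LBg14 Ef14 Sf14a Sf14b XN := by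
  refine ⟨by norm_num, by norm_num, chkEf14, chkSf14a, chkSf14b, ?_, ?_, ?_, ?_, ?_, ?_, ?_, ?_⟩
  · decide +kernel
  · decide +kernel
  · decide +kernel
  · decide +kernel
  · decide +kernel
  · rw [LAg14_eq, LBg14_eq]
    exact chk1F_of capg14 fg14a
  · rw [LAg14_eq, LBg14_eq]
    exact chk2F_of (by norm_num) capg14 fg14b
  · decide +kernel

/-- rounds -/
def rg14 (XL : List ℤ) (u : List ℤ) : List ℤ :=
  rnds (aX LAg14 LBg14 XL ((14 : ℕ) : ℤ)) nog14 neg14 cg14 (odds LAg14.length)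
    (evens LAg14.length) ((14 : ℕ) : ℤ) 300 4 9 u

/-- the windows `0, …, 3` -/
lemma sg14_1 : rg14 [43] [91, 84, 76, 0] = [99, 91, 76, 75] := by
  decide +kernel

/-- the pairs of ends which are left -/
def Rg14 : List ((ℕ × ℕ × ℕ) × (ℕ × ℕ × ℕ)) :=
    [((5, 20, 1), (10, 60, 1)), ((5, 25, 0), (10, 60, 1)), ((10, 60, 1), (5, 20, 1)),
     ((10, 60, 1), (5, 25, 0)), ((10, 60, 1), (10, 60, 1))]

lemma restg14 : restF 14 Ef14 XN [99, 91, 76, 75] [43] = Rg14 := by
  decide +kernel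

section

variable {lo hi : Tops P → ℕ → ℕ} {e : Tops P → ℕ → ℕ → P}

/-- **the state for `j = 14`** from the windows `2` up to `75`, `3` up to `74` -/
theorem pg14 (K : Ctx P r 14 lo hi e) (hJ : ∃ z : P, Hul.Jn z) :
    ∃ V : ℕ → ℤ, Bals P 14 cg14 nog14 neg14 lwf14 V ∧ StF P 14 V [99, 91, 76, 75] [43] := by
  classical
  obtain ⟨N2, b2, θ2, v2, W2, L2, M2, B2⟩ := K.sys2_14 hJ
  obtain ⟨V, hV2, hB, s3⟩ := ph14 K hJ (V2 := (v2 : ℤ) - ((14 + 1 - 2 : ℕ) : ℤ) ^ 2) B2
  have hv2 : 13 ^ 2 + 76 ≤ v2 := by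
    have h1 := s3.bel.2 2 (by norm_num)
    rw [hV2] at h1
    simp only [List.getD_cons_succ, List.getD_cons_zero] at h1
    norm_num at h1
    omega
  obtain ⟨N, θ3, θ4, S⟩ := exists_sy K (by norm_num)
  obtain ⟨v, -, -, B3⟩ := K.sys3_14 S W2 L2 M2 hv2 hJ
  obtain ⟨V', hV'⟩ : ∃ V' : ℕ → ℤ, V' = fun w => if w = 3 then (v : ℤ) -
      ((14 + 1 - 3 : ℕ) : ℤ) ^ 2 else V w := ⟨_, rfl⟩
  have hB' : Bals P 14 cg14 nog14 neg14 lwf14 V' := by
    intro w hw
    have : w = 0 ∨ w = 1 ∨ w = 2 ∨ w = 3 := by omega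
    rcases this with rfl | rfl | rfl | rfl
    · rw [hV']; exact hB 0 (by norm_num)
    · rw [hV']; exact hB 1 (by norm_num)
    · rw [hV']; exact hB 2 (by norm_num)
    · rw [hV']; exact B3
  have s4 : StF P 14 V' [91, 84, 76, 0] [43] := by
    have h0 := (StF.start hB').bel.2 3 le_rfl
    have a0 := s3.bel.2 0 (by norm_num)
    have a1 := s3.bel.2 1 (by norm_num)
    have a2 := s3.bel.2 2 (by norm_num)
    refine ⟨⟨rfl, fun w hw => ?_⟩, s3.kill⟩
    have : w = 0 ∨ w = 1 ∨ w = 2 ∨ w = 3 := by omega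
    rcases this with rfl | rfl | rfl | rfl
    · rw [hV']; exact a0
    · rw [hV']; exact a1
    · rw [hV']; exact a2
    · exact h0
  exact ⟨V', hB', sg14_1 ▸ K.sweepF (noP_XN (P := P) 14) tabg14 hB' s4 300 9⟩

/-- **S7 for `j = 14`**: the joins of level `15` without a fold end which are left. -/
theorem leftg14 (K : Ctx P r 14 lo hi e) {z x x' : P} (h : Cg z x x') (hl : lev z = 15)
    (hs : Sok 14 x) (hs' : Sok 14 x') :
    ∃ s s', (s, s') ∈ Rg14 ∧ Dt 14 x s ∧ Dt 14 x' s' := by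
  obtain ⟨V, hB, s3⟩ := pg14 K ⟨z, h.jn⟩
  obtain ⟨s, s', g1, g2, g3⟩ := K.leftS (noP_XN (P := P) 14) tabg14 hB s3 h hl hs hs'
  rw [restg14] at g1
  exact ⟨s, s', g1, g2, g3⟩

end

end Pool.Agent.GaussPoset.Sm
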