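import Pool.Agent.W_448s7_h27.PnJ11
import Pool.Agent.W_448s7_h27.PoJ14
import Pool.Agent.W_448s8f_h76.FiN

/-!
S7 for `j = 11, 13, 14` (MP_448cb3_co): final forms, from the windows `2`, `3` and from the pairs
of ends without a join.
-/

namespace Pool.Agent.GaussPoset.Sm

set_option linter.unusedSectionVars false

open Finset Wd Ec W4

universe u

variable {P : Type u} [Fintype P] [PartialOrder P] [DecidableEq P] {r j : ℕ}
  {lo hi : Tops P → ℕ → ℕ} {e : Tops P → ℕ → ℕ → P}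

/-- no join of level `j + 1` has the data `s`, `s'` of its ends -/
def NoPr (P : Type u) [Fintype P] [PartialOrder P] [DecidableEq P] (j : ℕ)
    (s s' : ℕ × ℕ × ℕ) : Prop :=
  ∀ z x x' : P, Cg z x x' → lev z = j + 1 → Dt j x s → Dt j x' s' → False

lemma NoPr.symm {s s' : ℕ × ℕ × ℕ} (h : NoPr P j s s') : NoPr P j s' s :=
  fun z x x' hz hl d d' => h z x' x hz.symm hl d' d

/-- **S7 for `j = 11`** -/
theorem no_join11 (K : Ctx P r 11 lo hi e)
    (h2 : (∃ z : P, Hul.Jn z) → ∃ V, WinB P 11 2 41 (fun V => ([] : List ℤ).elem V)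
      (fun V => nz ((11 + 1 - 2 : ℕ) : ℤ) V || ([22, 23] : List ℤ).elem V) 0 V)
    (h3 : (∃ z : P, Hul.Jn z) → ∃ V, WinB P 11 3 35 (fun V => ([] : List ℤ).elem V)
      (fun V => nz ((11 + 1 - 3 : ℕ) : ℤ) V || ([16, 17, 34, 35] : List ℤ).elem V) 0 V)
    (hAA : NoPr P 11 (5, 20, 1) (5, 20, 1))
    {z : P} (hl : lev z = 12) : ¬ Hul.Jn z := by
  intro hz
  obtain ⟨x, x', h⟩ := K.cross hz hl
  obtain ⟨s, s', h4, d, d'⟩ := leftn11 K (h2 ⟨z, hz⟩) (h3 ⟨z, hz⟩) h hl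
  unfold Rn11 at h4
  simp only [List.mem_cons, List.not_mem_nil, or_false, Prod.mk.injEq] at h4
  obtain ⟨rfl, rfl⟩ : s = (5, 20, 1) ∧ s' = (5, 20, 1) := by
    simpa only [Prod.mk.injEq] using h4
  exact hAA z x x' h hl d d'

/-- **S7 for `j = 14`**: every join of level `15` has a fold end. -/
theorem foldj14 (K : Ctx P r 14 lo hi e)
    (hAE : NoPr P 14 (5, 20, 1) (10, 60, 1)) (hBE : NoPr P 14 (5, 25, 0) (10, 60, 1))
    (hEE : NoPr P 14 (10, 60, 1) (10, 60, 1))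
    {z x x' : P} (h : Cg z x x') (hl : lev z = 15) : Fold 14 x ∨ Fold 14 x' := by
  classical
  by_contra hcon
  rw [not_or] at hcon
  obtain ⟨l1, l2⟩ := h.lev_eq K.gt.H
  have hs : Sok 14 x := ⟨fun hf => by have := hf.1; omega, fun _ => hcon.1⟩
  have hs' : Sok 14 x' := ⟨fun hf => by have := hf.1; omega, fun _ => hcon.2⟩
  obtain ⟨s, s', h4, d, d'⟩ := leftg14 K h hl hs hs'
  have hR : ∀ p ∈ Rg14, NoPr P 14 p.1 p.2 := by
    unfold Rg14
    simp only [List.forall_mem_cons, List.not_mem_nil, false_imp_iff, implies_true, and_true]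
    exact ⟨hAE, hBE, hAE.symm, hBE.symm, hEE⟩
  exact hR _ h4 z x x' h hl d d'

/-- **S7 for `j = 14`** in the form of the fold ends -/
theorem s7f14 (K : Ctx P r 14 lo hi e)
    (hAE : NoPr P 14 (5, 20, 1) (10, 60, 1)) (hBE : NoPr P 14 (5, 25, 0) (10, 60, 1))
    (hEE : NoPr P 14 (10, 60, 1) (10, 60, 1)) : Fi.S7F P 7 := by
  have H := K.gt.H
  intro z x x' hl hx hx' ht
  have l1 := (H.covBy_iff.mp hx).2
  have l2 := (H.covBy_iff.mp hx').2
  have hc : Cg z x x' := Cg.mk' hx hx' (only_of_le H K.gt.good (le_topOf x) (by omega))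
    (only_of_le H K.gt.good (le_topOf x') (by omega)) ht
  obtain ⟨u1, u2⟩ := K.ends hc (by omega)
  have key : ∀ y : P, Fold 14 y → (Win.uc y).card = 1 → Fi.Fd 7 y := by
    intro y hy hu
    have h2 := hy.2.2 2 (by norm_num)
    exact ⟨hy.1, hu, by omega⟩
  exact (foldj14 K hAE hBE hEE hc (by omega)).imp (fun h => key x h u1)
    (fun h => key x' h u2)

end Pool.Agent.GaussPoset.Sm
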