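import Pool.Agent.W_448s7s_h5.SrJ13

/-!
S7 for `j = 13`: larger caps at the windows `2`, `3` (MP_448cb3_co).
-/

namespace Pool.Agent.GaussPoset.Sm

set_option linter.unusedSectionVars false

open Finset Wd

universe u

variable {P : Type u} [Fintype P] [PartialOrder P] [DecidableEq P] {r : ℕ}

/-- caps -/
def cn13 (w : ℕ) : ℤ :=
  if w = 2 then 64 else if w = 3 then 60 else cr13 w

/-- even noise -/
def nen13 (w : ℕ) (V : ℤ) : Bool :=
  if w = 2 then (nz ((13 + 1 - 2 : ℕ) : ℤ) V || ([49] : List ℤ).elem V)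
  else if w = 3 then (nz ((13 + 1 - 3 : ℕ) : ℤ) V || ([39, 54] : List ℤ).elem V)
  else ner13 w V

/-- odd noise -/
def non13 (w : ℕ) (V : ℤ) : Bool :=
  if w = 2 then ([] : List ℤ).elem V
  else if w = 3 then ([56] : List ℤ).elem V
  else nor13 w V

/-- lower bounds -/
def lwn13 (_ : ℕ) : ℤ := 0

lemma baln13 {lo hi : Tops P → ℕ → ℕ} {e : Tops P → ℕ → ℕ → P} (K : Ctx P r 13 lo hi e)
    (hJ : ∃ z : P, Hul.Jn z)
    (h2 : ∃ V, WinB P 13 2 64 (fun V => ([] : List ℤ).elem V)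
      (fun V => nz ((13 + 1 - 2 : ℕ) : ℤ) V || ([49] : List ℤ).elem V) 0 V)
    (h3 : ∃ V, WinB P 13 3 60 (fun V => ([56] : List ℤ).elem V)
      (fun V => nz ((13 + 1 - 3 : ℕ) : ℤ) V || ([39, 54] : List ℤ).elem V) 0 V) :
    ∀ w ≤ 3, ∃ V, WinB P 13 w (cn13 w) (non13 w) (nen13 w) (lwn13 w) V := by
  intro w hw
  have : w = 0 ∨ w = 1 ∨ w = 2 ∨ w = 3 := by omega
  rcases this with rfl | rfl | rfl | rfl
  · exact K.win0 hJ
  · exact K.win1 (by norm_num) chkEr13 (by decide +kernel) (by decide +kernel) hJ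
  · exact h2
  · exact h3

/-- caps as a list -/
def cnl13 : List (ℕ × ℕ) := [(13, 93), (12, 77), (11, 64), (10, 60)]

lemma capn13 : CapL 13 3 cn13 cnl13 := by decide +kernel

/-- lines with `g + 300`, by `κ` -/
def tn13 : List (List ℕ) :=
  [[300], [294, 295, 296, 297, 298], [288, 289, 290, 291, 292, 293, 294, 295, 296, 303], [291,
   297, 298, 299, 300, 301, 302, 303], [285, 286, 287, 288, 289, 291, 292, 293, 294, 295, 296,
   297, 298, 299, 300, 301, 302, 303, 308], [275, 280, 294, 296, 297, 298, 299, 300, 301, 302,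
   303, 304, 305, 306, 307, 308, 309], [269, 270, 271, 272, 273, 274, 275, 276, 277, 278, 282,
   288, 289, 290, 291, 292, 293, 294, 295, 296, 297, 298, 299, 300, 301, 302, 303, 304, 305,
   306, 307, 308, 309, 310, 315], [278, 283, 288, 291, 292, 293, 294, 295, 296, 297, 298, 299,
   300, 301, 302], [266, 271, 272, 273, 274, 275, 276, 277, 278, 279, 280, 281, 282, 283, 284,
   285, 286, 287, 288, 289], [], [250, 255, 260]]

/-- lines with `g`, by `κ` -/
def Ln13 : List (List ℤ) :=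
  [[0], [-6, -5, -4, -3, -2], [-12, -11, -10, -9, -8, -7, -6, -5, -4, 3], [-9, -3, -2, -1, 0, 1,
   2, 3], [-15, -14, -13, -12, -11, -9, -8, -7, -6, -5, -4, -3, -2, -1, 0, 1, 2, 3, 8], [-25,
   -20, -6, -4, -3, -2, -1, 0, 1, 2, 3, 4, 5, 6, 7, 8, 9], [-31, -30, -29, -28, -27, -26, -25,
   -24, -23, -22, -18, -12, -11, -10, -9, -8, -7, -6, -5, -4, -3, -2, -1, 0, 1, 2, 3, 4, 5, 6,
   7, 8, 9, 10, 15], [-22, -17, -12, -9, -8, -7, -6, -5, -4, -3, -2, -1, 0, 1, 2], [-34, -29,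
   -28, -27, -26, -25, -24, -23, -22, -21, -20, -19, -18, -17, -16, -15, -14, -13, -12, -11],
   [], [-50, -45, -40]]

lemma Ln13_eq : Ln13 = tabI tn13 := by decide +kernel

lemma fn13a : fst1 cnl13 tn13 Sr13a = true := by decide +kernel

lemma fn13b : fst2 cnl13 tn13 Sr13b = true := by decide +kernel

theorem tabn13 : Tab' 13 3 cn13 Ln13 Er13 Sr13a Sr13b X0 := by
  refine ⟨by norm_num, chkEr13, chkSr13a, chkSr13b, ?_, ?_, ?_, ?_, ?_, ?_, ?_⟩
  · decide +kernel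
  · decide +kernel
  · decide +kernel
  · decide +kernel
  · rw [Ln13_eq]
    exact chk1_of capn13 fn13a
  · rw [Ln13_eq]
    exact chk2_of (by norm_num) capn13 fn13b
  · decide +kernel

/-- the pairs of ends which are left -/
def Rn13 : List ((ℕ × ℕ × ℕ) × (ℕ × ℕ × ℕ)) :=
  []

lemma restn13 : rest 13 Er13 X0 (ubd 13 3 cn13 lwn13 Ln13 non13 nen13 250 15) = Rn13 := by
  decide +kernel

/-- **S7 for `j = 13`**, the joins of level `14` which are left -/
theorem leftn13 {lo hi : Tops P → ℕ → ℕ} {e : Tops P → ℕ → ℕ → P} (K : Ctx P r 13 lo hi e)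
    (h2 : ∃ V, WinB P 13 2 64 (fun V => ([] : List ℤ).elem V)
      (fun V => nz ((13 + 1 - 2 : ℕ) : ℤ) V || ([49] : List ℤ).elem V) 0 V)
    (h3 : ∃ V, WinB P 13 3 60 (fun V => ([56] : List ℤ).elem V)
      (fun V => nz ((13 + 1 - 3 : ℕ) : ℤ) V || ([39, 54] : List ℤ).elem V) 0 V)
    {z x x' : P} (h : Cg z x x') (hl : lev z = 14) :
    ∃ s s', (s, s') ∈ Rn13 ∧ Dt 13 x s ∧ Dt 13 x' s' := by
  have h1 := K.leftF (noP_zero 13) (nf_odd (by norm_num)) tabn13
    (baln13 K ⟨z, h.jn⟩ h2 h3) 250 15 h hl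
  rw [restn13] at h1
  exact h1

end Pool.Agent.GaussPoset.Sm
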