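import Pool.Agent.W_448pg_h74.WtB
import Pool.Agent.W_448f4_h70.GT
import Pool.Agent.W_448s7_h27.PnJ13

/-!
# S7 for `j = 13` (MP_448cb3_co, S7, far windows)
-/

namespace Pool.Agent.GaussPoset.Sm

set_option linter.unusedSectionVars false

open Finset Wd Ec W4

universe u

variable {P : Type u} [Fintype P] [PartialOrder P] [DecidableEq P] {r j : ℕ}
  {lo hi : Tops P → ℕ → ℕ} {e : Tops P → ℕ → ℕ → P}

theorem numN13_2 : NumN 13 2 (12 ^ 2 + 64) [49] [] := by constructor <;> decide +kernel

theorem numN13_3 : NumN 13 3 (11 ^ 2 + 60) [39, 54] [56] := by constructor <;> decide +kernel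

/-- window `2` for `j = 13` -/
theorem win2_13 (K : Ctx P r 13 lo hi e) (hN : NoTw P 13) (hFl : NoFlip P 13)
    (hJ : ∃ z : P, Hul.Jn z) :
    ∃ V, WinB P 13 2 64 (fun V => ([] : List ℤ).elem V)
      (fun V => nz ((13 + 1 - 2 : ℕ) : ℤ) V || ([49] : List ℤ).elem V) 0 V :=
  K.winN (fun h => absurd h (by norm_num)) (by norm_num) (by norm_num) (Or.inl rfl) (c0 := 47) (cT := 64)
    chkEr13 (by decide +kernel) (by decide +kernel) (by decide +kernel) (by decide +kernel)
    (by norm_num) (fun N b θ W => W.cellsN le_rfl (by norm_num) numN13_2 hN)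
    { hfl := fun _ => Or.inr hFl
      hcc := fun h => absurd h (by norm_num)
      hFo := fun h => absurd h (by norm_num)
      hfv := fun h => absurd h (by norm_num) }
    (by norm_num) (by norm_num) le_rfl (by decide) (by decide) hJ

/-- window `3` for `j = 13` -/
theorem win3_13 (K : Ctx P r 13 lo hi e) (hN : NoTw P 13) (hFl : NoFlip P 13)
    (hJ : ∃ z : P, Hul.Jn z) :
    ∃ V, WinB P 13 3 60 (fun V => ([56] : List ℤ).elem V)
      (fun V => nz ((13 + 1 - 3 : ℕ) : ℤ) V || ([39, 54] : List ℤ).elem V) 0 V :=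
  K.winN (fun h => absurd h (by norm_num)) (by norm_num) (by norm_num) (Or.inr ⟨rfl, by norm_num⟩)
    (c0 := 37) (cT := 60)
    chkEr13 (by decide +kernel) (by decide +kernel) (by decide +kernel) (by decide +kernel)
    (by norm_num) (fun N b θ W => W.cellsN (by norm_num) (by norm_num) numN13_3 hN)
    { hfl := fun _ => Or.inr hFl
      hcc := fun h => absurd h (by norm_num)
      hFo := fun h => absurd h (by norm_num)
      hfv := fun h => absurd h (by norm_num) }
    (by norm_num) (by norm_num) le_rfl (by decide) (by decide) hJ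

/-- **S7 for `j = 13`** -/
theorem no_join13c (K : Ctx P r 13 lo hi e) (hN : NoTw P 13) (hFl : NoFlip P 13)
    {z : P} (hl : lev z = 14) : ¬ Hul.Jn z := by
  intro hz
  obtain ⟨x, x', h⟩ := K.cross hz hl
  obtain ⟨s, s', h4, -⟩ := leftn13 K (win2_13 K hN hFl ⟨z, hz⟩) (win3_13 K hN hFl ⟨z, hz⟩) h hl
  simp [Rn13] at h4

end Pool.Agent.GaussPoset.Sm
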