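import Pool.Agent.W_448s7s_h5.SrJ11

/-!
S7 for `j = 11`: larger caps at the windows `2`, `3` (MP_448cb3_co).
-/

namespace Pool.Agent.GaussPoset.Sm

set_option linter.unusedSectionVars false

open Finset Wd

universe u

variable {P : Type u} [Fintype P] [PartialOrder P] [DecidableEq P] {r : ℕ}

/-- caps -/
def cn11 (w : ℕ) : ℤ :=
  if w = 2 then 41 else if w = 3 then 35 else cr11 w

/-- even noise -/
def nen11 (w : ℕ) (V : ℤ) : Bool :=
  if w = 2 then (nz ((11 + 1 - 2 : ℕ) : ℤ) V || ([22, 23] : List ℤ).elem V)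
  else if w = 3 then (nz ((11 + 1 - 3 : ℕ) : ℤ) V || ([16, 17, 34, 35] : List ℤ).elem V)
  else ner11 w V

/-- odd noise -/
def non11 (w : ℕ) (V : ℤ) : Bool :=
  if w = 2 then ([] : List ℤ).elem V
  else if w = 3 then ([] : List ℤ).elem V
  else nor11 w V

/-- lower bounds -/
def lwn11 (_ : ℕ) : ℤ := 0

lemma baln11 {lo hi : Tops P → ℕ → ℕ} {e : Tops P → ℕ → ℕ → P} (K : Ctx P r 11 lo hi e)
    (hJ : ∃ z : P, Hul.Jn z)
    (h2 : ∃ V, WinB P 11 2 41 (fun V => ([] : List ℤ).elem V)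
      (fun V => nz ((11 + 1 - 2 : ℕ) : ℤ) V || ([22, 23] : List ℤ).elem V) 0 V)
    (h3 : ∃ V, WinB P 11 3 35 (fun V => ([] : List ℤ).elem V)
      (fun V => nz ((11 + 1 - 3 : ℕ) : ℤ) V || ([16, 17, 34, 35] : List ℤ).elem V) 0 V) :
    ∀ w ≤ 3, ∃ V, WinB P 11 w (cn11 w) (non11 w) (nen11 w) (lwn11 w) V := by
  intro w hw
  have : w = 0 ∨ w = 1 ∨ w = 2 ∨ w = 3 := by omega
  rcases this with rfl | rfl | rfl | rfl
  · exact K.win0 hJ
  · exact K.win1 (by norm_num) chkEr11 (by decide +kernel) (by decide +kernel) hJ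
  · exact h2
  · exact h3

/-- caps as a list -/
def cnl11 : List (ℕ × ℕ) := [(11, 68), (10, 54), (9, 41), (8, 35)]

lemma capn11 : CapL 11 3 cn11 cnl11 := by decide +kernel

/-- lines with `g + 300`, by `κ` -/
def tn11 : List (List ℕ) :=
  [[300], [295, 296, 297, 298], [290, 291, 292, 293, 294, 295, 296, 303], [291, 298, 299, 300,
   301, 302, 303], [286, 287, 288, 289, 293, 294, 295, 296, 297, 298, 299, 300, 301, 302, 303,
   308], [275, 280, 294, 297, 298, 299, 300, 301, 302, 303, 304, 305, 306, 307, 308, 309], [270,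
   271, 272, 273, 275, 276, 277, 278, 282, 289, 290, 291, 292, 293, 294, 295, 296, 297, 298,
   299, 300, 301, 302], [278, 283, 288], [266, 271, 273, 274, 275, 276, 277, 278, 279, 280], [],
   [250, 255]]

/-- lines with `g`, by `κ` -/
def Ln11 : List (List ℤ) :=
  [[0], [-5, -4, -3, -2], [-10, -9, -8, -7, -6, -5, -4, 3], [-9, -2, -1, 0, 1, 2, 3], [-14, -13,
   -12, -11, -7, -6, -5, -4, -3, -2, -1, 0, 1, 2, 3, 8], [-25, -20, -6, -3, -2, -1, 0, 1, 2, 3,
   4, 5, 6, 7, 8, 9], [-30, -29, -28, -27, -25, -24, -23, -22, -18, -11, -10, -9, -8, -7, -6,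
   -5, -4, -3, -2, -1, 0, 1, 2], [-22, -17, -12], [-34, -29, -27, -26, -25, -24, -23, -22, -21,
   -20], [], [-50, -45]]

lemma Ln11_eq : Ln11 = tabI tn11 := by decide +kernel

lemma fn11a : fst1 cnl11 tn11 Sr11a = true := by decide +kernel

lemma fn11b : fst2 cnl11 tn11 Sr11b = true := by decide +kernel

theorem tabn11 : Tab' 11 3 cn11 Ln11 Er11 Sr11a Sr11b X0 := by
  refine ⟨by norm_num, chkEr11, chkSr11a, chkSr11b, ?_, ?_, ?_, ?_, ?_, ?_, ?_⟩
  · decide +kernel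
  · decide +kernel
  · decide +kernel
  · decide +kernel
  · rw [Ln11_eq]
    exact chk1_of capn11 fn11a
  · rw [Ln11_eq]
    exact chk2_of (by norm_num) capn11 fn11b
  · decide +kernel

/-- the pairs of ends which are left -/
def Rn11 : List ((ℕ × ℕ × ℕ) × (ℕ × ℕ × ℕ)) :=
    [((5, 20, 1), (5, 20, 1))]

lemma restn11 : rest 11 Er11 X0 (ubd 11 3 cn11 lwn11 Ln11 non11 nen11 250 10) = Rn11 := by
  decide +kernel

/-- **S7 for `j = 11`**, the joins of level `12` which are left -/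
theorem leftn11 {lo hi : Tops P → ℕ → ℕ} {e : Tops P → ℕ → ℕ → P} (K : Ctx P r 11 lo hi e)
    (h2 : ∃ V, WinB P 11 2 41 (fun V => ([] : List ℤ).elem V)
      (fun V => nz ((11 + 1 - 2 : ℕ) : ℤ) V || ([22, 23] : List ℤ).elem V) 0 V)
    (h3 : ∃ V, WinB P 11 3 35 (fun V => ([] : List ℤ).elem V)
      (fun V => nz ((11 + 1 - 3 : ℕ) : ℤ) V || ([16, 17, 34, 35] : List ℤ).elem V) 0 V)
    {z x x' : P} (h : Cg z x x') (hl : lev z = 12) :
    ∃ s s', (s, s') ∈ Rn11 ∧ Dt 11 x s ∧ Dt 11 x' s' := by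
  have h1 := K.leftF (noP_zero 11) (nf_odd (by norm_num)) tabn11
    (baln11 K ⟨z, h.jn⟩ h2 h3) 250 10 h hl
  rw [restn11] at h1
  exact h1

end Pool.Agent.GaussPoset.Sm
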