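import Pool.Agent.W_448s7s_h5.SrE
import Pool.Agent.W_448s7_h27.PhF

/-!
# The windows `0, …, 3` in several phases, with excluded sides (MP_448cb3_co, S7)
-/

namespace Pool.Agent.GaussPoset.Sm

set_option linter.unusedSectionVars false

open Finset Wd Ec

universe u

variable {P : Type u} [Fintype P] [PartialOrder P] [DecidableEq P] {r j w : ℕ}
  {lo hi : Tops P → ℕ → ℕ} {e : Tops P → ℕ → ℕ → P}

/-- no join of level `j + 2` has the side `s` -/
def NoSd (P : Type u) [Fintype P] [PartialOrder P] [DecidableEq P] (j : ℕ) (s : ℕ × ℕ × ℕ) : Prop :=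
  ∀ z x x' : P, Cg z x x' → lev z = j + 2 → mX j x = s.1 → cX j x = s.2.1 →
    (nab j x : ℤ) - 1 = s.2.2 → False

/-- the tables; `X` = the excluded pairs of ends, `XS` = the excluded sides of level `j + 1` -/
structure TabS (j W : ℕ) (cap : ℕ → ℤ) (tab : List (List ℤ)) (E S1 S2 XS : List (ℕ × ℕ × ℕ))
    (X : ℕ × ℕ × ℕ → ℕ × ℕ × ℕ → Bool) : Prop where
  wj : W < j
  e : ChkE j E
  s1 : ChkT j (S1 ++ XS)
  s2 : ChkS j 2 S2
  e0 : (0, 0, 0) ∈ E
  s10 : (0, 0, 0) ∈ S1
  s20 : (0, 0, 0) ∈ S2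
  c0 : chk0 j W cap tab E X = true
  c1 : chk1 j W cap tab S1 = true
  c2 : chk2 j W cap tab S2 = true
  cb : chkB j W cap S2 = true

/-- **the cheap lines are in the table** -/
theorem Ctx.mem_tabS (K : Ctx P r j lo hi e) {X : ℕ × ℕ × ℕ → ℕ × ℕ × ℕ → Bool} (hN : NoP P j X)
    (hF : NoFo P j)
    {W : ℕ} {cap : ℕ → ℤ} {tab : List (List ℤ)} {E S1 S2 XS : List (ℕ × ℕ × ℕ)}
    (hX : ∀ s ∈ XS, NoSd P j s) (T : TabS j W cap tab E S1 S2 XS X)
    {z x x' : P} (h : Cg z x x') (hs : Sok j x) (hs' : Sok j x') (hw : w ≤ W)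
    (hc : kapZ j z * (j - w) + gZ j z ≤ cap w) : aT tab (kapZ j z) (gZ j z) = true := by
  have H := K.gt.H
  have hl := K.lev_ge h
  obtain ⟨l1, l2⟩ := h.lev_eq H
  obtain ⟨k1, k2, k3, k4, k5, k6⟩ := h.line H hl
  obtain ⟨q, hq⟩ : ∃ q, lev z = j + 1 + q := ⟨lev z - (j + 1), by omega⟩
  have hqz : (lev z : ℤ) - (j + 1) = q := by rw [hq]; push_cast; ring
  rw [hqz] at k1 k2 k5
  rcases Nat.lt_or_ge q 1 with h0 | h0
  · -- level `j + 1`
    have hlz : lev z = j + 1 := by omega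
    obtain ⟨s, s', g1, g1', d1, d1', e1, e2⟩ := K.pair' T.e T.e0 hF h hlz hs hs'
    have h1 := T.c0
    unfold chk0 at h1
    rw [List.all_eq_true] at h1
    have h2 := h1 _ g1
    rw [List.all_eq_true] at h2
    have h3 := h2 _ g1'
    rw [hN z x x' h hlz s s' d1 d1', Bool.false_or] at h3
    rw [e1, e2] at hc ⊢
    exact okL_at h3 hw hc
  · rcases Nat.lt_or_ge q 2 with h1q | h1q
    · obtain rfl : q = 1 := by omega
      obtain ⟨m, c, b, g1, g2, g3, g4⟩ := K.side1 h.only (by omega) hs.1 T.s1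
        (List.mem_append_left _ T.s10)
      obtain ⟨m', c', b', g1', g2', g3', g4'⟩ := K.side1 h.only' (by omega) hs'.1 T.s1
        (List.mem_append_left _ T.s10)
      replace g1 := (List.mem_append.mp g1).resolve_right fun hm =>
        hX _ hm z x x' h (by omega) g2 g3 g4
      replace g1' := (List.mem_append.mp g1').resolve_right fun hm =>
        hX _ hm z x' x h.symm (by omega) g2' g3' g4'
      obtain ⟨n0, d0⟩ := k6 (by omega)
      have e1 : kapZ j z = 2 + ((m : ℤ) + m') + ((b : ℤ) + b') := by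
        rw [k1, n0, g4, g4', g2, g2']
        push_cast; ring
      have e2 : gZ j z = 3 - ((c : ℤ) + c') := by
        rw [k2, d0, g3, g3']
        push_cast; ring
      have h1 := T.c1
      unfold chk1 at h1
      rw [List.all_eq_true] at h1
      have h2 := h1 _ g1
      rw [List.all_eq_true] at h2
      have h3 := h2 _ g1'
      rw [e1, e2] at hc ⊢
      exact okL_at h3 hw hc
    · have hp : ∀ y : P, lev y = j + q → 2 = min q 2 := fun _ _ => by omega
      obtain ⟨m, c, b, g1, g2, g3, g4⟩ := K.side h.only (by omega) hs.1 (q := q) (by omega)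
        (p := 2) (by omega) T.s2 T.s20
      obtain ⟨m', c', b', g1', g2', g3', g4'⟩ := K.side h.only' (by omega) hs'.1 (q := q) (by omega)
        (p := 2) (by omega) T.s2 T.s20
      obtain ⟨n, hn⟩ : ∃ n : ℕ, nJ j z = n := ⟨(nJ j z).toNat, (Int.toNat_of_nonneg k3).symm⟩
      obtain ⟨d, hd⟩ : ∃ d : ℕ, dJ j z = d :=
        ⟨(dJ j z).toNat, (Int.toNat_of_nonneg (k3.trans k4)).symm⟩
      rw [hn, hd] at k4 k5
      have e1 : kapZ j z = 2 * (q : ℤ) + ((m : ℤ) + m') + ((b : ℤ) + b') + n := by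
        rw [k1, hn, g4, g4', g2, g2']
      have e2 : gZ j z = (q : ℤ) * q + 2 * q - ((c : ℤ) + c') + d := by
        rw [k2, hd, g3, g3']
      have hB := T.cb
      unfold chkB at hB
      rw [List.all_eq_true] at hB
      have hB1 := hB w (List.mem_range.mpr (by omega))
      rw [Bool.and_eq_true, decide_eq_true_eq, List.all_eq_true] at hB1
      have b1 := hB1.2 _ g1
      have b2 := hB1.2 _ g1'
      rw [decide_eq_true_eq] at b1 b2
      simp only at b1 b2
      have hjw : (0 : ℤ) < (j : ℤ) - w := by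
        have := T.wj
        omega
      have e5 : kapZ j z * ((j : ℤ) - w) + gZ j z =
          (2 * (q : ℤ) + ((b : ℤ) + b') + n) * ((j : ℤ) - w) +
            (m * ((j : ℤ) - w) - c) + (m' * ((j : ℤ) - w) - c') + (q : ℤ) * q + 2 * q + d := by
        rw [e1, e2]; ring
      have hqn : 2 * q + n ≤ 8 := by
        by_contra hcon
        push Not at hcon
        have e6 : (9 : ℤ) ≤ 2 * (q : ℤ) + ((b : ℤ) + b') + n := by
          have : (9 : ℤ) ≤ 2 * (q : ℤ) + n := by exact_mod_cast hcon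
          have := Int.natCast_nonneg b
          have := Int.natCast_nonneg b'
          linarith
        have e7 : 9 * ((j : ℤ) - w) ≤ (2 * (q : ℤ) + ((b : ℤ) + b') + n) * ((j : ℤ) - w) :=
          mul_le_mul_of_nonneg_right e6 hjw.le
        have e8 : (0 : ℤ) ≤ (q : ℤ) * q + 2 * q + d := by positivity
        linarith [hB1.1]
      have h1 := T.c2
      unfold chk2 at h1
      rw [List.all_eq_true] at h1
      have h2 := h1 _ g1
      rw [List.all_eq_true] at h2
      have h3 := h2 _ g1'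
      rw [List.all_eq_true] at h3
      have h4 := h3 q (List.mem_range.mpr (by omega))
      rw [Bool.or_eq_true, decide_eq_true_eq] at h4
      have h5 := h4.resolve_left (by omega)
      rw [List.all_eq_true] at h5
      have h6 := h5 n (List.mem_range.mpr (by omega))
      rw [List.all_eq_true] at h6
      have k5' : d ≤ (q - 1) * n := by
        have : (d : ℤ) ≤ ((q - 1 : ℕ) : ℤ) * n := by
          rw [Nat.cast_sub (by omega)]
          exact_mod_cast k5
        exact_mod_cast this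
      have h7 := h6 d (List.mem_range.mpr (by omega))
      rw [Bool.or_eq_true, decide_eq_true_eq] at h7
      have h8 := h7.resolve_left (by
        have : (n : ℤ) ≤ d := k4
        have : n ≤ d := by exact_mod_cast this
        omega)
      rw [e1, e2] at hc ⊢
      exact okL_at h8 hw hc

section

variable {X : ℕ × ℕ × ℕ → ℕ × ℕ × ℕ → Bool} {cap : ℕ → ℤ} {tab : List (List ℤ)}
  {E S1 S2 XS : List (ℕ × ℕ × ℕ)} {nO nE : ℕ → ℤ → Bool} {lb V : ℕ → ℤ} {u : List ℤ}

theorem Ctx.sysS (K : Ctx P r j lo hi e) (hN : NoP P j X) (hF : NoFo P j)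
    (hX : ∀ s ∈ XS, NoSd P j s) (T : TabS j 3 cap tab E S1 S2 XS X)
    (hB : Bals P j cap nO nE lb V) :
    Sys (j : ℤ) 3 cap (aT tab) nO nE (odds tab.length) (evens tab.length) V
      (fun κ g => ∃ z x x' : P, Cg z x x' ∧ Sok j x ∧ Sok j x' ∧ κ = kapZ j z ∧ g = gZ j z) := by
  refine ⟨?_, ?_, ?_, ?_⟩
  · rintro κ g ⟨z, x, x', h, hs, hs', rfl, rfl⟩ w hw he hc
    have h1 := K.mem_tabS hN hF hX T h hs hs' hw (by rw [he]; exact hc)
    exact ⟨h1, aT_mem h1⟩
  · rintro κ g ⟨z, x, x', h, hs, hs', rfl, rfl⟩ w hw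
    exact (hB w hw).mn z x x' h hs hs'
  · intro w hw hc
    rcases (hB w hw).od hc with ⟨z, x, x', h1, h2, h3, h4, h5⟩ | h1
    · exact Or.inl ⟨_, _, ⟨z, x, x', h1, h2, h3, rfl, rfl⟩, h4, h5⟩
    · exact Or.inr h1
  · intro w hw hc
    rcases (hB w hw).ev hc with ⟨z, x, x', h1, h2, h3, h4, h5⟩ | h1
    · exact Or.inl ⟨_, _, ⟨z, x, x', h1, h2, h3, rfl, rfl⟩, h4, h5⟩
    · exact Or.inr h1

/-- **a phase of sweeps** -/
theorem Ctx.sweepS (K : Ctx P r j lo hi e) (hN : NoP P j X) (hF : NoFo P j)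
    (hX : ∀ s ∈ XS, NoSd P j s) (T : TabS j 3 cap tab E S1 S2 XS X)
    (hB : Bals P j cap nO nE lb V) (hu : Chk.Below 3 V u) (N R : ℕ) :
    Chk.Below 3 V (rnds (aT tab) nO nE cap (odds tab.length) (evens tab.length) j N 4 R u) :=
  (K.sysS hN hF hX T hB).rnds N R u hu

/-- **the pairs of ends which are left** -/
theorem Ctx.leftS3 (K : Ctx P r j lo hi e) (hF : NoFo P j) (hE : ChkE j E) (h0 : (0, 0, 0) ∈ E)
    (hN : NoP P j X) (hB : Bals P j cap nO nE lb V) (hu : Chk.Below 3 V u)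
    {z x x' : P} (h : Cg z x x') (hl : lev z = j + 1) (hs : Sok j x) (hs' : Sok j x') :
    ∃ s s', (s, s') ∈ rest j E X u ∧ Dt j x s ∧ Dt j x' s' := by
  obtain ⟨s, s', g1, g1', d1, d1', e1, e2⟩ := K.pair' hE h0 hF h hl hs hs'
  refine ⟨s, s', ?_, d1, d1'⟩
  have h1 : Chk.above (kapZ j z) (gZ j z) u j = true := by
    refine Chk.above_of (W := 3) (v := V) _ j fun w hw => ?_
    have hw' : w ≤ 3 := by
      have := hu.1
      omega
    exact (hu.2 w hw').trans ((hB w hw').mn z x x' h hs hs')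
  rw [e1, e2] at h1
  unfold rest
  rw [List.mem_flatMap]
  refine ⟨s, g1, ?_⟩
  rw [List.mem_map]
  refine ⟨s', ?_, rfl⟩
  rw [List.mem_filter]
  refine ⟨g1', ?_⟩
  rw [Bool.and_eq_true]
  refine ⟨?_, h1⟩
  rw [Bool.not_eq_true']
  exact hN z x x' h hl s s' d1 d1'

end

end Pool.Agent.GaussPoset.Sm
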