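import Pool.Agent.W_448s7_h27.PoB
import Pool.Agent.W_448s8f_h76.FkG

/-!
# Pendants whose ancestor levels have at most two elements, bounded by one window
(MP_448cb3_co, S7)
-/

namespace Pool.Agent.GaussPoset.Sm

set_option linter.unusedSectionVars false

open Polynomial Finset W4 Cp

universe u

variable {P : Type u} [Fintype P] [PartialOrder P] [DecidableEq P] {r j w K0 : ℕ}
  {N : Tops P → Finset P} {b : Tops P → ℕ} {θ : Tops P → P → ℕ}

/-- the full cost of a pendant -/
lemma ful_only {z x : P} (H : GradedBelow P) (hzx : z ⋖ x) (honly : ∀ y, z ⋖ y → y = x) :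
    ful w z = ful w x + (lev z - w) := by
  have h1 := H.lev_covBy hzx
  unfold ful
  rw [h1, Finset.sum_range_succ, ← h1, nab_self, mul_one]
  congr 1
  refine Finset.sum_congr rfl fun k hk => ?_
  rw [mem_range] at hk
  rw [nab_only honly hzx (by omega)]

/-- **a pendant with at most two ancestors on each level is far** -/
theorem Wk.pend_far (W : Wk r j w K0 N b θ) (L : Unq P w b) (hj10 : 9 ≤ j) {z x : P} (hzx : z ⋖ x)
    (honly : ∀ y, z ⋖ y → y = x) (hl : j < lev z)
    (hn : ∀ k, w ≤ k → k < lev z → nab k z ≤ 2) (h2 : nab w z ≠ 1) : z ∈ rA N := by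
  classical
  by_contra hz
  have H := W.gt.H
  have HN := W.natSys
  have hj := W.hj
  have hw := W.hw
  obtain ⟨y, hy, hup⟩ : ∃ y, y ∉ unnat N ∧ ∀ u, y < u ↔ z < u := by
    by_cases h : z ∈ unnat N
    · by_cases ht : z ∈ twA N
      · exact ⟨twT N z, W.twSys.nat z ht, W.twSys.up z ht⟩
      · exact absurd (mem_rA.mpr ⟨h, ht⟩) hz
    · exact ⟨z, h, fun u => Iff.rfl⟩
  have el : lev y = lev z := lev_eq_of_up hup
  have en : ∀ k, k < lev z → nab k y = nab k z := fun k hk => nab_congr_up hup hk
  have huc : (Win.uc y).card ≤ 1 := by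
    rw [Finset.card_le_one]
    intro a ha c hc
    rw [Win.mem_uc] at ha hc
    rw [honly a ((cov_of_up hup).mp ha), honly c ((cov_of_up hup).mp hc)]
  have h2' : nab w y ≠ 1 := by
    rw [en w (by omega)]
    exact h2
  have hyt : y ∈ N (topOf y) := HN.mem_iff.mpr ⟨hy, rfl⟩
  have t1 : θ (topOf y) y + 1 ≤ lev y - w := by
    rcases W.cases hy (by omega) with h | h | h
    · exact absurd (W.str_nab L hy h (by omega)) h2'
    · exact h.th.le
    · exact h.th
  generalize topOf y = t at hyt t1
  rcases W.typ t with ⟨g1, g2, g3, g5⟩ | ⟨Nc, co, h0, g1, g2, g4⟩ |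
    ⟨Nc, co, h0, g1, g2, g3, g4, g5'⟩
  · rw [g2] at t1
    simp only at t1
    omega
  · rw [g1] at hyt
    rw [g2] at t1
    by_cases hJ : y ∈ junk (fun _ => True) Nc co ∨ y ∈ junk (fun _ => True) Nc (swp co)
    · unfold thR at t1
      rw [if_pos hJ] at t1
      omega
    · have hyN : y ∈ Nc := by
        rw [mem_natR] at hyt
        rcases hyt with h | h | h
        · exact h
        · exact absurd (Or.inl h) hJ
        · exact absurd (Or.inr h) hJ
      have h1 := rect_th7 h0 hw hyN hJ (by omega)
      have h3 := chart_inner_uc h0.chart H hyN (by omega) (by omega)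
      omega
  · rw [g1] at hyt
    rw [g2] at t1
    by_cases hJ : y ∈ junk (fun c => c.1 ≤ c.2) Nc co
    · unfold thS at t1
      rw [if_pos hJ] at t1
      omega
    · have hyN : y ∈ Nc := by
        rw [mem_natS] at hyt
        rcases hyt with h | h
        · exact h
        · exact absurd h hJ
      have h1 := stair_th7 h0 hw g4 hyN hJ (by omega)
      have h3 : (co y).1 ≤ (co y).2 := h0.chart.mem y hyN
      have h5 := h0.chart.lev y hyN
      rcases Nat.lt_or_ge (co y).1 (co y).2 with h4 | h4
      · have h6 := stair_inner_uc h0.chart H hyN (by omega) h4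
        omega
      · have h6 := stair_nab h0.chart hyN (k := 4) (by omega)
        have h7 := hn 4 (by omega) (by omega)
        rw [← en 4 (by omega)] at h7
        omega

/-- **a pendant with at most two ancestors on each level bounds the least raised cost** -/
theorem Wk.pend_le (W : Wk r j w K0 N b θ) (L : Unq P w b) (hj10 : 9 ≤ j) {v : ℕ}
    (M : MnS j w N b θ v) {z x : P} {a : ℕ} (hzx : z ⋖ x) (honly : ∀ y, z ⋖ y → y = x)
    (hl : lev x = w + a) (hj' : j < lev z)
    (hn : ∀ k, w ≤ k → k < lev x → nab k x ≤ 2) (h2 : nab w x ≠ 1) (ha : 1 ≤ a) :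
    v ≤ a ^ 2 + a + 1 := by
  have H := W.gt.H
  have e1 := H.gradedBelow.lev_covBy hzx
  have hnz : ∀ k, k ≤ lev x → nab k z = nab k x := fun k hk => nab_only honly hzx (by omega)
  have h3 := W.pend_far L hj10 hzx honly hj' (fun k hk hk2 => by
    rw [hnz k (by omega)]
    rcases Nat.lt_or_ge k (lev x) with h | h
    · exact hn k hk h
    · rw [show k = lev x by omega, nab_self]
      norm_num) (by rw [hnz w (by omega)]; exact h2)
  have h4 : v ≤ ful w z := min_le_ful (rA_pos W) M.bd h3
  have h5 := ful_only (w := w) H.gradedBelow hzx honly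
  have h6 := ful_le_sq (w := w) (x := x) (a := a) hl hn
  omega

end Pool.Agent.GaussPoset.Sm
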