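import Pool.Agent.W_448s7s_h5.SrJ11
import Pool.Agent.W_448s7_h27.PoD

/-!
S7 for `j = 11` (MP_448cb3_co): the windows `0, …, 3` with a larger cap at the window `3`, without
the pendants of level `12` below the ends `(5, 25)`; no pair of ends is left.
-/

namespace Pool.Agent.GaussPoset.Sm

set_option linter.unusedSectionVars false

open Finset Wd

universe u

variable {P : Type u} [Fintype P] [PartialOrder P] [DecidableEq P] {r : ℕ}

/-- sides, one level deeper, without `(5, 25, 0)` -/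
def So11 : List (ℕ × ℕ × ℕ) :=
    [(0, 0, 0), (0, 0, 1), (1, 1, 0), (1, 1, 1), (1, 2, 0), (1, 3, 0), (1, 4, 0), (1, 5, 0),
     (2, 3, 1), (3, 6, 0), (3, 6, 1), (3, 9, 0), (4, 7, 1), (4, 10, 1), (5, 12, 1), (5, 15, 0),
     (5, 15, 1), (5, 20, 0), (6, 13, 1), (6, 16, 1), (7, 23, 1), (8, 24, 1), (8, 31, 0),
     (8, 31, 1)]

/-- the excluded side -/
def Xo11 : List (ℕ × ℕ × ℕ) := [(5, 25, 0)]

lemma chkSo11 : ChkT 11 (So11 ++ Xo11) := by decide +kernel

/-- caps -/
def co11 (w : ℕ) : ℤ := if w = 3 then 40 else cr11 w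

/-- even noise -/
def neo11 (w : ℕ) (V : ℤ) : Bool :=
  if w = 3 then (nz ((11 + 1 - 3 : ℕ) : ℤ) V || ([17, 34, 35] : List ℤ).elem V)
  else ner11 w V

/-- odd noise -/
def noo11 (w : ℕ) (V : ℤ) : Bool :=
  if w = 3 then ([24, 36, 37] : List ℤ).elem V else nor11 w V

/-- lower bounds -/
def lwo11 (_ : ℕ) : ℤ := 0

/-- caps as a list -/
def col11 : List (ℕ × ℕ) := [(11, 68), (10, 54), (9, 21), (8, 40)]

lemma capo11 : CapL 11 3 co11 col11 := by decide +kernel

/-- lines with `g + 300`, by `κ` -/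
def to11 : List (List ℕ) :=
  [[300], [295, 296, 297, 298], [290, 291, 292, 293, 294, 295, 296, 303], [291, 298, 299, 300,
   301, 302, 303], [286, 287, 288, 289, 293, 294, 295, 296, 297, 298, 299, 300, 301, 302, 303,
   308], [275, 280, 294, 297, 298, 299, 300, 301, 302, 303, 304, 305, 306, 307, 308, 309], [270,
   271, 272, 273, 275, 276, 277, 278, 282, 289, 290, 291, 292, 293, 294, 295, 296, 297, 298,
   299, 300, 301, 302], [283, 288], [266, 271, 278, 279, 280], [], [250, 255, 260]]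

/-- lines with `g`, by `κ` -/
def Lo11 : List (List ℤ) :=
  [[0], [-5, -4, -3, -2], [-10, -9, -8, -7, -6, -5, -4, 3], [-9, -2, -1, 0, 1, 2, 3], [-14, -13,
   -12, -11, -7, -6, -5, -4, -3, -2, -1, 0, 1, 2, 3, 8], [-25, -20, -6, -3, -2, -1, 0, 1, 2, 3,
   4, 5, 6, 7, 8, 9], [-30, -29, -28, -27, -25, -24, -23, -22, -18, -11, -10, -9, -8, -7, -6,
   -5, -4, -3, -2, -1, 0, 1, 2], [-17, -12], [-34, -29, -22, -21, -20], [], [-50, -45, -40]]

lemma Lo11_eq : Lo11 = tabI to11 := by decide +kernel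

lemma fo11a : fst1 col11 to11 So11 = true := by decide +kernel

lemma fo11b : fst2 col11 to11 Sr11b = true := by decide +kernel

theorem tabo11 : TabS 11 3 co11 Lo11 Er11 So11 Sr11b Xo11 X0 := by
  refine ⟨by norm_num, chkEr11, chkSo11, chkSr11b, ?_, ?_, ?_, ?_, ?_, ?_, ?_⟩
  · decide +kernel
  · decide +kernel
  · decide +kernel
  · decide +kernel
  · rw [Lo11_eq]
    exact chk1_of capo11 fo11a
  · rw [Lo11_eq]
    exact chk2_of (by norm_num) capo11 fo11b
  · decide +kernel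

/-- the bounds -/
def uo11 : List ℤ :=
  rnds (aT Lo11) noo11 neo11 co11 (odds Lo11.length) (evens Lo11.length) ((11 : ℕ) : ℤ) 250 4 11 [0, 0, 0, 0]

lemma resto11 : rest 11 Er11 X0 uo11 = [] := by decide +kernel

/-- **S7 for `j = 11`**, from the window `3` and without pendants of level `12` below the ends
`(5, 25)` -/
theorem no_cg11 {lo hi : Tops P → ℕ → ℕ} {e : Tops P → ℕ → ℕ → P} (K : Ctx P r 11 lo hi e)
    (hX : NoSd P 11 (5, 25, 0))
    (h3 : (∃ z : P, Hul.Jn z) → ∃ V, WinB P 11 3 40 (fun V => ([24, 36, 37] : List ℤ).elem V)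
      (fun V => nz ((11 + 1 - 3 : ℕ) : ℤ) V || ([17, 34, 35] : List ℤ).elem V) 0 V)
    {z x x' : P} (h : Cg z x x') (hl : lev z = 12) : False := by
  have H := K.gt.H
  have hF : NF P 11 := nf_odd (by norm_num)
  have hN : NoP P 11 X0 := noP_zero 11
  have hB : ∀ w ≤ 3, ∃ V, WinB P 11 w (co11 w) (noo11 w) (neo11 w) (lwo11 w) V := by
    intro w hw
    have : w = 0 ∨ w = 1 ∨ w = 2 ∨ w = 3 := by omega
    rcases this with rfl | rfl | rfl | rfl
    · exact balr11 K hF.noFo ⟨z, h.jn⟩ 0 (by norm_num)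
    · exact balr11 K hF.noFo ⟨z, h.jn⟩ 1 (by norm_num)
    · exact balr11 K hF.noFo ⟨z, h.jn⟩ 2 (by norm_num)
    · exact h3 ⟨z, h.jn⟩
  choose! V hV using hB
  have hVB : Bals P 11 co11 noo11 neo11 lwo11 V := hV
  have hX' : ∀ s ∈ Xo11, NoSd P 11 s := by
    intro s hs
    unfold Xo11 at hs
    rw [List.mem_singleton] at hs
    rw [hs]
    exact hX
  have h0 : Chk.Below 3 V [0, 0, 0, 0] := by
    have h5 := (StF.start hVB).bel
    rwa [show ((List.range 4).map fun w => min (lwo11 w) (co11 w + 1)) = [0, 0, 0, 0] by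
      decide +kernel] at h5
  have h1 := K.sweepS hN hF.noFo hX' tabo11 hVB h0 250 11
  obtain ⟨l1, l2⟩ := h.lev_eq H
  obtain ⟨s, s', h4, -, -⟩ := K.leftS3 hF.noFo chkEr11 (by decide +kernel) hN hVB h1 h hl
    (hF.sok H h hl) (hF.sok H h.symm hl)
  rw [show rnds (aT Lo11) noo11 neo11 co11 (odds Lo11.length) (evens Lo11.length)
    ((11 : ℕ) : ℤ) 250 4 11 [0, 0, 0, 0] = uo11 from rfl, resto11] at h4
  exact absurd h4 (by simp)

end Pool.Agent.GaussPoset.Sm
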