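import Pool.Agent.W_448f4_h70.IG
import Pool.Agent.W_448s7s_h5.StB
import Pool.Agent.W_448s7_h27.PoJ11

/-!
S7 for `j = 11` (MP_448cb3_co): the final form.
-/

namespace Pool.Agent.GaussPoset.Sm

set_option linter.unusedSectionVars false

open Polynomial Finset W4 Cp Wd

universe u

variable {P : Type u} [Fintype P] [PartialOrder P] [DecidableEq P] {r j : ℕ}
  {lo hi : Tops P → ℕ → ℕ} {e : Tops P → ℕ → ℕ → P}

/-- **S7 for `j = 11`**, from the sides `(5, 25)` -/
theorem Ctx.no_join11b (K : Ctx P r 11 lo hi e) (hX : NoSd P 11 (5, 25, 0))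
    {z : P} (hl : lev z = 12) : ¬ Hul.Jn z := by
  intro hz
  obtain ⟨x, x', h⟩ := K.cross hz hl
  exact no_cg11 K hX (fun hJ => winT3_11 K hJ) h hl

/-- **S7 for `j = 11`** -/
theorem Ctx.no_join11 (K : Ctx P r 11 lo hi e) {z : P} (hl : lev z = 12) : ¬ Hul.Jn z :=
  K.no_join11b K.noSd11 hl

end Pool.Agent.GaussPoset.Sm
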