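import Pool.Agent.W_448s7_h27.PoE

/-!
# Twins and pendants bounded by their full costs (MP_448cb3_co, S7)
-/

namespace Pool.Agent.GaussPoset.Sm

set_option linter.unusedSectionVars false

open Polynomial Finset W4 Cp

universe u

section

variable {P : Type u} [Fintype P] [PartialOrder P] [DecidableEq P] {r j w K0 : ℕ}
  {N : Tops P → Finset P} {b : Tops P → ℕ} {θ : Tops P → P → ℕ}

lemma ful_congr_up {x y : P} (hup : ∀ u, x < u ↔ y < u) : ful w x = ful w y := by
  have e : lev x = lev y := lev_eq_of_up hup
  unfold ful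
  rw [Finset.sum_range_succ, Finset.sum_range_succ, e, nab_self, ← e, nab_self]
  congr 1
  refine Finset.sum_congr rfl fun k hk => ?_
  rw [mem_range] at hk
  rw [nab_congr_up (x := y) (y := x) (fun v => hup v) (by omega)]

/-- **a twin bounds the least raised cost by its full cost** -/
theorem Wk.twin_ful (W : Wk r j w K0 N b θ) (L : Unq P w b) {v : ℕ} (M : MnS j w N b θ v)
    {x x' : P} (hne : x ≠ x') (hup : ∀ u, x < u ↔ x' < u)
    (hj : j < lev x) (h2 : nab w x ≠ 1) : v + 1 ≤ ful w x + (lev x - w) := by
  have hj6 := W.hj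
  have hw := W.hw
  have key : ∀ y : P, lev y = lev x → ful w y = ful w x → y ∈ unnat N →
      v + 1 ≤ ful w x + (lev x - w) := by
    intro y hly hfy hyu
    by_cases hyt : y ∈ twA N
    · have T := W.twn hyt
      have e0 := W.twSys.up y hyt
      have el : lev (twT N y) = lev y := lev_eq_of_up e0
      have ef : ful w (twT N y) = ful w y := ful_congr_up e0
      have h3 := M.tw y hyt
      unfold tcS at h3
      by_cases hs : Spc j w N b θ (twT N y)
      · obtain ⟨Nc, co, C⟩ := hs
        have hlC := C.lev (by omega)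
        rw [if_pos ⟨Nc, co, C⟩, tcst_cst (W.twnS hyt ⟨Nc, co, C⟩)] at h3
        simp only at h3
        have h4 := cst_le_ful w (fun _ => j - w + 1) (twT N y)
        omega
      · rw [if_neg hs, tcst_cst T] at h3
        simp only at h3
        have h4 := cst_le_ful w (fun _ => thA N θ (twT N y) + 1) (twT N y)
        have h6 := T.lt
        simp only at h6
        omega
    · have h3 : v ≤ ful w y := min_le_ful (rA_pos W) M.bd (mem_rA.mpr ⟨hyu, hyt⟩)
      omega
  by_cases hx : x ∈ unnat N
  · exact key x rfl rfl hx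
  · by_cases hx' : x' ∈ unnat N
    · have el : lev x = lev x' := lev_eq_of_up hup
      exact key x' el.symm (ful_congr_up fun u => (hup u).symm) hx'
    · exact absurd (W.nat_up_inj L hx hx' hup hj.le h2) hne

/-- a pendant with few ancestors on the level `6` is far -/
theorem Wk.pend_far6 (W : Wk r j w K0 N b θ) (L : Unq P w b) (hj10 : 11 ≤ j) {z x : P}
    (hzx : z ⋖ x) (honly : ∀ y, z ⋖ y → y = x) (hl : j < lev z)
    (hn : nab 6 z ≤ 3) (h2 : nab w z ≠ 1) : z ∈ rA N := by
  classical
  by_contra hz
  have H := W.gt.H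
  have HN := W.natSys
  have hj := W.hj
  have hw := W.hw
  obtain ⟨y, hy, hup⟩ : ∃ y, y ∉ unnat N ∧ ∀ u, y < u ↔ z < u := by
    by_cases h : z ∈ unnat N
    · by_cases ht : z ∈ twA N
      · exact ⟨twT N z, W.twSys.nat z ht, W.twSys.up z ht⟩
      · exact absurd (mem_rA.mpr ⟨h, ht⟩) hz
    · exact ⟨z, h, fun u => Iff.rfl⟩
  have el : lev y = lev z := lev_eq_of_up hup
  have en : ∀ k, k < lev z → nab k y = nab k z := fun k hk => nab_congr_up hup hk
  have huc : (Win.uc y).card ≤ 1 := by
    rw [Finset.card_le_one]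
    intro a ha c hc
    rw [Win.mem_uc] at ha hc
    rw [honly a ((cov_of_up hup).mp ha), honly c ((cov_of_up hup).mp hc)]
  have h2' : nab w y ≠ 1 := by
    rw [en w (by omega)]
    exact h2
  have hyt : y ∈ N (topOf y) := HN.mem_iff.mpr ⟨hy, rfl⟩
  have t1 : θ (topOf y) y + 1 ≤ lev y - w := by
    rcases W.cases hy (by omega) with h | h | h
    · exact absurd (W.str_nab L hy h (by omega)) h2'
    · exact h.th.le
    · exact h.th
  generalize topOf y = t at hyt t1
  rcases W.typ t with ⟨g1, g2, g3, g5⟩ | ⟨Nc, co, h0, g1, g2, g4⟩ |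
    ⟨Nc, co, h0, g1, g2, g3, g4, g5'⟩
  · rw [g2] at t1
    simp only at t1
    omega
  · rw [g1] at hyt
    rw [g2] at t1
    by_cases hJ : y ∈ junk (fun _ => True) Nc co ∨ y ∈ junk (fun _ => True) Nc (swp co)
    · unfold thR at t1
      rw [if_pos hJ] at t1
      omega
    · have hyN : y ∈ Nc := by
        rw [mem_natR] at hyt
        rcases hyt with h | h | h
        · exact h
        · exact absurd (Or.inl h) hJ
        · exact absurd (Or.inr h) hJ
      have h1 := rect_th7 h0 hw hyN hJ (by omega)
      have h3 := chart_inner_uc h0.chart H hyN (by omega) (by omega)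
      omega
  · rw [g1] at hyt
    rw [g2] at t1
    by_cases hJ : y ∈ junk (fun c => c.1 ≤ c.2) Nc co
    · unfold thS at t1
      rw [if_pos hJ] at t1
      omega
    · have hyN : y ∈ Nc := by
        rw [mem_natS] at hyt
        rcases hyt with h | h
        · exact h
        · exact absurd h hJ
      have h1 := stair_th7 h0 hw g4 hyN hJ (by omega)
      have h3 : (co y).1 ≤ (co y).2 := h0.chart.mem y hyN
      have h5 := h0.chart.lev y hyN
      rcases Nat.lt_or_ge (co y).1 (co y).2 with h4 | h4
      · have h6 := stair_inner_uc h0.chart H hyN (by omega) h4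
        omega
      · have h6 := stair_nab h0.chart hyN (k := 6) (by omega)
        rw [en 6 (by omega)] at h6
        omega

/-- **a pendant with few ancestors on the level `6` bounds the least raised cost** -/
theorem Wk.pend_ful (W : Wk r j w K0 N b θ) (L : Unq P w b) (hj10 : 11 ≤ j) {v : ℕ}
    (M : MnS j w N b θ v) {z x : P} (hzx : z ⋖ x) (honly : ∀ y, z ⋖ y → y = x)
    (hl : j < lev z) (hn : nab 6 x ≤ 3) (h2 : nab w x ≠ 1) :
    v ≤ ful w x + (lev z - w) := by
  have H := W.gt.H
  have e1 := H.gradedBelow.lev_covBy hzx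
  have hj := W.hj
  have hw := W.hw
  have hnz : ∀ k, k ≤ lev x → nab k z = nab k x := fun k hk => nab_only honly hzx (by omega)
  have h3 := W.pend_far6 L hj10 hzx honly hl (by rw [hnz 6 (by omega)]; exact hn)
    (by rw [hnz w (by omega)]; exact h2)
  have h4 : v ≤ ful w z := min_le_ful (rA_pos W) M.bd h3
  have h5 := ful_only (w := w) H.gradedBelow hzx honly
  omega

end

section

variable {P : Type u} [Fintype P] [PartialOrder P] [DecidableEq P] {r j : ℕ}
  {lo hi : Tops P → ℕ → ℕ} {e : Tops P → ℕ → ℕ → P}

/-- below a single element of the level `k` there are at most two elements of the level `k + 1`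
above `x` -/
theorem Ctx.nab_one_two (K : Ctx P r j lo hi e) {x : P} {k : ℕ} (hk : k + 1 ≤ j)
    (hl : k + 1 ≤ lev x) (h1 : nab k x = 1) : nab (k + 1) x ≤ 2 := by
  classical
  have H := K.gt.H
  unfold nab at h1
  rw [Finset.card_eq_one] at h1
  obtain ⟨u, hu⟩ := h1
  have hu' : u ∈ (lv P k).filter (fun y => x ≤ y) := by rw [hu]; exact mem_singleton_self _
  rw [mem_filter, mem_lv] at hu'
  have C := K.comp (topOf u)
  have hut := le_topOf u
  obtain ⟨p, p1, p2, p3⟩ := C.surj u hut (by omega)
  rw [hu'.1] at p1 p2 p3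
  have hsub : (lv P (k + 1)).filter (fun y => x ≤ y) ⊆
      {e (topOf u) (k + 1) p, e (topOf u) (k + 1) (p + 1)} := by
    intro y hy
    rw [mem_filter, mem_lv] at hy
    have hyne : y ≠ (topOf y : P) := by
      intro h
      have h3 : lev (topOf y : P) = 0 := (topOf y).2
      rw [← h] at h3
      omega
    obtain ⟨c, hc, -⟩ := Hul.exists_cov (w := y) (v := (topOf y : P))
      (lt_of_le_of_ne (le_topOf y) hyne)
    have hlc := (H.covBy_iff.mp hc).2
    have hcu : c = u := by
      have : c ∈ (lv P k).filter (fun y => x ≤ y) := by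
        rw [mem_filter, mem_lv]
        exact ⟨by omega, hy.2.trans hc.1.le⟩
      rw [hu, mem_singleton] at this
      exact this
    subst hcu
    obtain ⟨s, s1, s2, s3⟩ := C.surj y (hc.1.le.trans hut) (by omega)
    rw [hy.1] at s1 s2 s3
    have h4 := (C.cov k s p (by omega) s1 s2 p1 p2).mp (by rw [s3, p3]; exact hc)
    rw [mem_insert, mem_singleton, ← s3]
    rcases h4 with h4 | h4
    · left; rw [h4]
    · right; rw [← h4]
  exact (Finset.card_le_card hsub).trans Finset.card_le_two

/-- the full cost at the window `3` -/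
lemma ful_three {x : P} (hj : 14 = j) (hl : lev x = j + 1)
    (hn : ∀ k, 4 ≤ k → k < j → nab k x = 3) (h2 : nab j x = 2) : ful 3 x = 199 := by
  subst hj
  have h3 : nab 15 x = 1 := by
    have := nab_self (z := x)
    rwa [hl] at this
  unfold ful
  rw [hl]
  simp only [Finset.sum_range_succ, Finset.sum_range_zero, h3, h2, hn 4 (by norm_num) (by norm_num),
    hn 5 (by norm_num) (by norm_num), hn 6 (by norm_num) (by norm_num),
    hn 7 (by norm_num) (by norm_num), hn 8 (by norm_num) (by norm_num),
    hn 9 (by norm_num) (by norm_num), hn 10 (by norm_num) (by norm_num),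
    hn 11 (by norm_num) (by norm_num), hn 12 (by norm_num) (by norm_num),
    hn 13 (by norm_num) (by norm_num)]
  norm_num

end

end Pool.Agent.GaussPoset.Sm
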