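import Pool.Agent.W_448s7_h27.PoG
import Pool.Agent.W_448s7_h27.PoD

/-!
S7 for `j = 13` (MP_448cb3_co): the windows `0, …, 3` with larger caps at the windows `2`, `3`,
in two phases.
-/

namespace Pool.Agent.GaussPoset.Sm

set_option linter.unusedSectionVars false

open Finset Wd

universe u

variable {P : Type u} [Fintype P] [PartialOrder P] [DecidableEq P] {r : ℕ}

lemma chkTr13 : ChkT 13 (Sr13a ++ []) := by decide +kernel

/-! ### the caps `63`, `52` -/

/-- caps -/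
def cp13 (w : ℕ) : ℤ := if w = 2 then 63 else if w = 3 then 52 else cr13 w

/-- even noise -/
def nep13 (w : ℕ) (V : ℤ) : Bool :=
  if w = 2 then (nz ((13 + 1 - 2 : ℕ) : ℤ) V || ([68, 49] : List ℤ).elem V)
  else if w = 3 then (nz ((13 + 1 - 3 : ℕ) : ℤ) V || ([55, 39, 53, 54] : List ℤ).elem V)
  else ner13 w V

/-- odd noise -/
def nop13 (w : ℕ) (V : ℤ) : Bool :=
  if w = 2 then ([64, 65, 66] : List ℤ).elem V
  else if w = 3 then ([55, 56] : List ℤ).elem V
  else nor13 w V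

/-- lower bounds -/
def lwp13 (_ : ℕ) : ℤ := 0

/-- caps as a list -/
def clp13 : List (ℕ × ℕ) := [(13, 93), (12, 77), (11, 63), (10, 52)]

lemma capp13 : CapL 13 3 cp13 clp13 := by decide +kernel

/-- lines with `g + 300`, by `κ` -/
def tp13 : List (List ℕ) :=
  [[300], [294, 295, 296, 297, 298], [288, 289, 290, 291, 292, 293, 294, 295, 296, 303], [291,
   297, 298, 299, 300, 301, 302, 303], [285, 286, 287, 288, 289, 291, 292, 293, 294, 295, 296,
   297, 298, 299, 300, 301, 302, 303, 308], [275, 280, 294, 296, 297, 298, 299, 300, 301, 302,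
   303, 304, 305, 306, 307, 308, 309], [269, 270, 271, 272, 273, 274, 275, 276, 277, 278, 282,
   288, 289, 290, 291, 292, 293, 294, 295, 296, 297, 298, 299, 300, 301, 302, 303, 304, 305,
   306, 307, 308, 309, 310, 315], [278, 283, 288, 291, 292, 293, 294, 295, 296, 297, 298, 299,
   300, 301, 302], [266, 271, 272, 273, 274, 275, 276, 277, 278, 279, 280, 281, 282, 283, 284,
   285, 286, 287, 288, 289], [], [250, 255, 260]]

/-- lines with `g`, by `κ` -/
def Lp13 : List (List ℤ) :=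
  [[0], [-6, -5, -4, -3, -2], [-12, -11, -10, -9, -8, -7, -6, -5, -4, 3], [-9, -3, -2, -1, 0, 1,
   2, 3], [-15, -14, -13, -12, -11, -9, -8, -7, -6, -5, -4, -3, -2, -1, 0, 1, 2, 3, 8], [-25,
   -20, -6, -4, -3, -2, -1, 0, 1, 2, 3, 4, 5, 6, 7, 8, 9], [-31, -30, -29, -28, -27, -26, -25,
   -24, -23, -22, -18, -12, -11, -10, -9, -8, -7, -6, -5, -4, -3, -2, -1, 0, 1, 2, 3, 4, 5, 6,
   7, 8, 9, 10, 15], [-22, -17, -12, -9, -8, -7, -6, -5, -4, -3, -2, -1, 0, 1, 2], [-34, -29,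
   -28, -27, -26, -25, -24, -23, -22, -21, -20, -19, -18, -17, -16, -15, -14, -13, -12, -11],
   [], [-50, -45, -40]]

lemma Lp13_eq : Lp13 = tabI tp13 := by decide +kernel

lemma fp13a : fst1 clp13 tp13 Sr13a = true := by decide +kernel

lemma fp13b : fst2 clp13 tp13 Sr13b = true := by decide +kernel

theorem tabp13 : TabS 13 3 cp13 Lp13 Er13 Sr13a Sr13b [] X0 := by
  refine ⟨by norm_num, chkEr13, chkTr13, chkSr13b, ?_, ?_, ?_, ?_, ?_, ?_, ?_⟩
  · decide +kernel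
  · decide +kernel
  · decide +kernel
  · decide +kernel
  · rw [Lp13_eq]
    exact chk1_of capp13 fp13a
  · rw [Lp13_eq]
    exact chk2_of (by norm_num) capp13 fp13b
  · decide +kernel

lemma rndp13 : rnds (aT Lp13) nop13 nep13 cp13 (odds Lp13.length) (evens Lp13.length)
    ((13 : ℕ) : ℤ) 250 4 14 [0, 0, 0, 0] = [79, 72, 64, 53] := by decide +kernel

/-- the pairs of ends which are left -/
def Rp13 : List ((ℕ × ℕ × ℕ) × (ℕ × ℕ × ℕ)) :=
    [((5, 20, 1), (5, 20, 1)), ((5, 20, 1), (5, 25, 0)), ((5, 25, 0), (5, 20, 1))]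

lemma restp13 : rest 13 Er13 X0 [79, 72, 64, 53] = Rp13 := by decide +kernel

section

variable {lo hi : Tops P → ℕ → ℕ} {e : Tops P → ℕ → ℕ → P}

/-- the windows -/
lemma balp13 (K : Ctx P r 13 lo hi e) (hJ : ∃ z : P, Hul.Jn z) {V2 V3 : ℤ}
    (h2 : WinB P 13 2 63 (fun V => ([64, 65, 66] : List ℤ).elem V)
      (fun V => nz ((13 + 1 - 2 : ℕ) : ℤ) V || ([68, 49] : List ℤ).elem V) 0 V2)
    (h3 : WinB P 13 3 52 (fun V => ([55, 56] : List ℤ).elem V)
      (fun V => nz ((13 + 1 - 3 : ℕ) : ℤ) V || ([55, 39, 53, 54] : List ℤ).elem V) 0 V3) :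
    ∃ V : ℕ → ℤ, V 2 = V2 ∧ V 3 = V3 ∧ Bals P 13 cp13 nop13 nep13 lwp13 V := by
  have hF : NoFo P 13 := (nf_odd (by norm_num)).noFo
  obtain ⟨V0, hV0⟩ := balr13 K hF hJ 0 (by norm_num)
  obtain ⟨V1, hV1⟩ := balr13 K hF hJ 1 (by norm_num)
  refine ⟨fun w => if w = 0 then V0 else if w = 1 then V1 else if w = 2 then V2 else V3,
    rfl, rfl, fun w hw => ?_⟩
  have : w = 0 ∨ w = 1 ∨ w = 2 ∨ w = 3 := by omega
  rcases this with rfl | rfl | rfl | rfl
  · exact hV0
  · exact hV1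
  · exact h2
  · exact h3

/-- **the bounds** -/
theorem pp13 (K : Ctx P r 13 lo hi e) {V : ℕ → ℤ}
    (hB : Bals P 13 cp13 nop13 nep13 lwp13 V) : Chk.Below 3 V [79, 72, 64, 53] := by
  have hN : NoP P 13 X0 := noP_zero 13
  have hF : NoFo P 13 := (nf_odd (by norm_num)).noFo
  have h0 : Chk.Below 3 V [0, 0, 0, 0] := by
    have h5 := (StF.start hB).bel
    rwa [show ((List.range 4).map fun w => min (lwp13 w) (cp13 w + 1)) = [0, 0, 0, 0] by
      decide +kernel] at h5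
  exact rndp13 ▸ K.sweepS hN hF (fun s hs => absurd hs List.not_mem_nil) tabp13 hB h0 250 14

/-- **the pairs of ends which are left** -/
theorem leftp13 (K : Ctx P r 13 lo hi e) {V : ℕ → ℤ}
    (hB : Bals P 13 cp13 nop13 nep13 lwp13 V) {z x x' : P} (h : Cg z x x')
    (hl : lev z = 14) : ∃ s s', (s, s') ∈ Rp13 ∧ Dt 13 x s ∧ Dt 13 x' s' := by
  have H := K.gt.H
  have hF : NF P 13 := nf_odd (by norm_num)
  have h5 := K.leftS3 hF.noFo chkEr13 (by decide +kernel) (noP_zero (P := P) 13) hB (pp13 K hB)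
    h hl (hF.sok H h hl) (hF.sok H h.symm hl)
  rwa [restp13] at h5

end

/-! ### the caps `64`, `60` -/

/-- caps -/
def cq13 (w : ℕ) : ℤ := if w = 2 then 64 else if w = 3 then 60 else cr13 w

/-- even noise -/
def neq13 (w : ℕ) (V : ℤ) : Bool :=
  if w = 2 then (nz ((13 + 1 - 2 : ℕ) : ℤ) V || ([68, 49] : List ℤ).elem V)
  else if w = 3 then (nz ((13 + 1 - 3 : ℕ) : ℤ) V || ([55, 39, 54] : List ℤ).elem V)
  else ner13 w V

/-- odd noise -/
def noq13 (w : ℕ) (V : ℤ) : Bool :=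
  if w = 2 then ([65, 66] : List ℤ).elem V
  else if w = 3 then ([56] : List ℤ).elem V
  else nor13 w V

/-- lower bounds -/
def lwq13 (_ : ℕ) : ℤ := 0

/-- caps as a list -/
def clq13 : List (ℕ × ℕ) := [(13, 93), (12, 77), (11, 64), (10, 60)]

lemma capq13 : CapL 13 3 cq13 clq13 := by decide +kernel

/-- lines with `g + 300`, by `κ` -/
def tq13 : List (List ℕ) :=
  [[300], [294, 295, 296, 297, 298], [288, 289, 290, 291, 292, 293, 294, 295, 296, 303], [291,
   297, 298, 299, 300, 301, 302, 303], [285, 286, 287, 288, 289, 291, 292, 293, 294, 295, 296,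
   297, 298, 299, 300, 301, 302, 303, 308], [275, 280, 294, 296, 297, 298, 299, 300, 301, 302,
   303, 304, 305, 306, 307, 308, 309], [269, 270, 271, 272, 273, 274, 275, 276, 277, 278, 282,
   288, 289, 290, 291, 292, 293, 294, 295, 296, 297, 298, 299, 300, 301, 302, 303, 304, 305,
   306, 307, 308, 309, 310, 315], [278, 283, 288, 291, 292, 293, 294, 295, 296, 297, 298, 299,
   300, 301, 302], [266, 271, 272, 273, 274, 275, 276, 277, 278, 279, 280, 281, 282, 283, 284,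
   285, 286, 287, 288, 289], [], [250, 255, 260]]

/-- lines with `g`, by `κ` -/
def Lq13 : List (List ℤ) :=
  [[0], [-6, -5, -4, -3, -2], [-12, -11, -10, -9, -8, -7, -6, -5, -4, 3], [-9, -3, -2, -1, 0, 1,
   2, 3], [-15, -14, -13, -12, -11, -9, -8, -7, -6, -5, -4, -3, -2, -1, 0, 1, 2, 3, 8], [-25,
   -20, -6, -4, -3, -2, -1, 0, 1, 2, 3, 4, 5, 6, 7, 8, 9], [-31, -30, -29, -28, -27, -26, -25,
   -24, -23, -22, -18, -12, -11, -10, -9, -8, -7, -6, -5, -4, -3, -2, -1, 0, 1, 2, 3, 4, 5, 6,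
   7, 8, 9, 10, 15], [-22, -17, -12, -9, -8, -7, -6, -5, -4, -3, -2, -1, 0, 1, 2], [-34, -29,
   -28, -27, -26, -25, -24, -23, -22, -21, -20, -19, -18, -17, -16, -15, -14, -13, -12, -11],
   [], [-50, -45, -40]]

lemma Lq13_eq : Lq13 = tabI tq13 := by decide +kernel

lemma fq13a : fst1 clq13 tq13 Sr13a = true := by decide +kernel

lemma fq13b : fst2 clq13 tq13 Sr13b = true := by decide +kernel

theorem tabq13 : TabS 13 3 cq13 Lq13 Er13 Sr13a Sr13b [] X0 := by
  refine ⟨by norm_num, chkEr13, chkTr13, chkSr13b, ?_, ?_, ?_, ?_, ?_, ?_, ?_⟩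
  · decide +kernel
  · decide +kernel
  · decide +kernel
  · decide +kernel
  · rw [Lq13_eq]
    exact chk1_of capq13 fq13a
  · rw [Lq13_eq]
    exact chk2_of (by norm_num) capq13 fq13b
  · decide +kernel

lemma rndq13 : rnds (aT Lq13) noq13 neq13 cq13 (odds Lq13.length) (evens Lq13.length)
    ((13 : ℕ) : ℤ) 250 4 14 [0, 0, 0, 0] = [84, 77, 65, 61] := by decide +kernel

/-- the pairs of ends which are left -/
def Rq13 : List ((ℕ × ℕ × ℕ) × (ℕ × ℕ × ℕ)) :=
  []

lemma restq13 : rest 13 Er13 X0 [84, 77, 65, 61] = Rq13 := by decide +kernel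

section

variable {lo hi : Tops P → ℕ → ℕ} {e : Tops P → ℕ → ℕ → P}

/-- the windows -/
lemma balq13 (K : Ctx P r 13 lo hi e) (hJ : ∃ z : P, Hul.Jn z) {V2 V3 : ℤ}
    (h2 : WinB P 13 2 64 (fun V => ([65, 66] : List ℤ).elem V)
      (fun V => nz ((13 + 1 - 2 : ℕ) : ℤ) V || ([68, 49] : List ℤ).elem V) 0 V2)
    (h3 : WinB P 13 3 60 (fun V => ([56] : List ℤ).elem V)
      (fun V => nz ((13 + 1 - 3 : ℕ) : ℤ) V || ([55, 39, 54] : List ℤ).elem V) 0 V3) :
    ∃ V : ℕ → ℤ, V 2 = V2 ∧ V 3 = V3 ∧ Bals P 13 cq13 noq13 neq13 lwq13 V := by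
  have hF : NoFo P 13 := (nf_odd (by norm_num)).noFo
  obtain ⟨V0, hV0⟩ := balr13 K hF hJ 0 (by norm_num)
  obtain ⟨V1, hV1⟩ := balr13 K hF hJ 1 (by norm_num)
  refine ⟨fun w => if w = 0 then V0 else if w = 1 then V1 else if w = 2 then V2 else V3,
    rfl, rfl, fun w hw => ?_⟩
  have : w = 0 ∨ w = 1 ∨ w = 2 ∨ w = 3 := by omega
  rcases this with rfl | rfl | rfl | rfl
  · exact hV0
  · exact hV1
  · exact h2
  · exact h3

/-- **the bounds** -/
theorem pq13 (K : Ctx P r 13 lo hi e) {V : ℕ → ℤ}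
    (hB : Bals P 13 cq13 noq13 neq13 lwq13 V) : Chk.Below 3 V [84, 77, 65, 61] := by
  have hN : NoP P 13 X0 := noP_zero 13
  have hF : NoFo P 13 := (nf_odd (by norm_num)).noFo
  have h0 : Chk.Below 3 V [0, 0, 0, 0] := by
    have h5 := (StF.start hB).bel
    rwa [show ((List.range 4).map fun w => min (lwq13 w) (cq13 w + 1)) = [0, 0, 0, 0] by
      decide +kernel] at h5
  exact rndq13 ▸ K.sweepS hN hF (fun s hs => absurd hs List.not_mem_nil) tabq13 hB h0 250 14

/-- **the pairs of ends which are left** -/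
theorem leftq13 (K : Ctx P r 13 lo hi e) {V : ℕ → ℤ}
    (hB : Bals P 13 cq13 noq13 neq13 lwq13 V) {z x x' : P} (h : Cg z x x')
    (hl : lev z = 14) : ∃ s s', (s, s') ∈ Rq13 ∧ Dt 13 x s ∧ Dt 13 x' s' := by
  have H := K.gt.H
  have hF : NF P 13 := nf_odd (by norm_num)
  have h5 := K.leftS3 hF.noFo chkEr13 (by decide +kernel) (noP_zero (P := P) 13) hB (pq13 K hB)
    h hl (hF.sok H h hl) (hF.sok H h.symm hl)
  rwa [restq13] at h5

end

end Pool.Agent.GaussPoset.Sm
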