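import Pool.Agent.W_448s7_h27.PoJ14
import Pool.Agent.W_448s7_h27.PoH
import Pool.Agent.W_448pg_h74.WuA

/-!
# `j = 14`: no twins and no pendants of the cells `(2, 13)` (MP_448cb3_co, S7)
-/

namespace Pool.Agent.GaussPoset.Sm

set_option linter.unusedSectionVars false

open Polynomial Finset W4 Cp

universe u

variable {P : Type u} [Fintype P] [PartialOrder P] [DecidableEq P] {r j : ℕ}
  {lo hi : Tops P → ℕ → ℕ} {e : Tops P → ℕ → ℕ → P}

/-- the state `pg14` with the system of the window `3` -/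
theorem pg14S (K : Ctx P r 14 lo hi e) (hJ : ∃ z : P, Hul.Jn z) :
    ∃ (V : ℕ → ℤ) (N : Tops P → Finset P) (θ3 θ4 : Tops P → P → ℕ) (v : ℕ),
      Bals P 14 cg14 nog14 neg14 lwf14 V ∧ StF P 14 V [99, 91, 76, 75] [43] ∧
      Sy P 14 lo hi N θ3 θ4 ∧ MnS 14 3 N (fun t => hi t 3 - lo t 3 + 1) θ3 v ∧
      Wk r 14 3 (12 ^ 2 + 63) N (fun t => hi t 3 - lo t 3 + 1) θ3 ∧ 12 ^ 2 + 75 ≤ v := by
  classical
  obtain ⟨N2, b2, θ2, v2, W2, L2, M2, B2⟩ := K.sys2_14 hJ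
  obtain ⟨V, hV2, hB, s3⟩ := ph14 K hJ (V2 := (v2 : ℤ) - ((14 + 1 - 2 : ℕ) : ℤ) ^ 2) B2
  have hv2 : 13 ^ 2 + 76 ≤ v2 := by
    have h1 := s3.bel.2 2 (by norm_num)
    rw [hV2] at h1
    simp only [List.getD_cons_succ, List.getD_cons_zero] at h1
    norm_num at h1
    omega
  obtain ⟨N, θ3, θ4, S⟩ := exists_sy K (by norm_num)
  obtain ⟨v, M3, W3, B3⟩ := K.sys3_14 S W2 L2 M2 hv2 hJ
  obtain ⟨V', hV'⟩ : ∃ V' : ℕ → ℤ, V' = fun w => if w = 3 then (v : ℤ) -
      ((14 + 1 - 3 : ℕ) : ℤ) ^ 2 else V w := ⟨_, rfl⟩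
  have hB' : Bals P 14 cg14 nog14 neg14 lwf14 V' := by
    intro w hw
    have : w = 0 ∨ w = 1 ∨ w = 2 ∨ w = 3 := by omega
    rcases this with rfl | rfl | rfl | rfl
    · rw [hV']; exact hB 0 (by norm_num)
    · rw [hV']; exact hB 1 (by norm_num)
    · rw [hV']; exact hB 2 (by norm_num)
    · rw [hV']; exact B3
  have s4 : StF P 14 V' [91, 84, 76, 0] [43] := by
    have h0 := (StF.start hB').bel.2 3 le_rfl
    have a0 := s3.bel.2 0 (by norm_num)
    have a1 := s3.bel.2 1 (by norm_num)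
    have a2 := s3.bel.2 2 (by norm_num)
    refine ⟨⟨rfl, fun w hw => ?_⟩, s3.kill⟩
    have : w = 0 ∨ w = 1 ∨ w = 2 ∨ w = 3 := by omega
    rcases this with rfl | rfl | rfl | rfl
    · rw [hV']; exact a0
    · rw [hV']; exact a1
    · rw [hV']; exact a2
    · exact h0
  have s5 : StF P 14 V' [99, 91, 76, 75] [43] :=
    sg14_1 ▸ K.sweepF (noP_XN (P := P) 14) tabg14 hB' s4 300 9
  refine ⟨V', N, θ3, θ4, v, hB', s5, S, M3, W3, ?_⟩
  have h1 := s5.bel.2 3 le_rfl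
  rw [hV'] at h1
  simp only [List.getD_cons_succ, List.getD_cons_zero] at h1
  norm_num at h1
  omega

/-- **no twins and no pendants of the cells `(2, 13)`** -/
theorem Ctx.noEP2_14 (K : Ctx P r 14 lo hi e) (hJ : ∃ z : P, Hul.Jn z) :
    NoE2 P 14 ∧ NoP2 P 14 := by
  obtain ⟨V, N, θ3, θ4, v, -, -, S, M, W, hv⟩ := pg14S K hJ
  have hn3 : ∀ x : P, lev x = 14 + 1 → (∀ k, 4 ≤ k → k + 1 ≤ 14 → nab k x = 3) →
      nab 3 x ≠ 1 := by
    intro x hl h3 h
    have h4 := K.nab_one_two (x := x) (k := 3) (by norm_num) (by omega) h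
    have h5 := h3 4 le_rfl (by norm_num)
    rw [h5] at h4
    omega
  constructor
  · intro x x' hne hl hup h3 h2
    have h6 := W.twin_ful S.unq3 M hne hup (by omega) (hn3 x hl h3)
    have h7 := ful_three (x := x) (j := 14) rfl hl (fun k h1 h2 => h3 k h1 (by omega)) h2
    omega
  · intro z x hl h3 h2 hzx honly
    have H := K.gt.H
    have e1 := (H.covBy_iff.mp hzx).2
    have h6 := W.pend_ful S.unq3 (by norm_num) M hzx (fun y hy => honly y hy) (by omega)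
      (by rw [h3 6 (by norm_num) (by norm_num)]) (hn3 x hl h3)
    have h7 := ful_three (x := x) (j := 14) rfl hl (fun k h1 h2 => h3 k h1 (by omega)) h2
    omega

end Pool.Agent.GaussPoset.Sm
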