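import Pool.Agent.W_448s7_h27.PpA
import Pool.Agent.W_448s8f_h76.FkE
import Pool.Agent.W_448f4_h70.GT

/-!
# `j = 14`: no elements (C); the least cost from the least raised cost (MP_448cb3_co, S7)
-/

namespace Pool.Agent.GaussPoset.Sm

set_option linter.unusedSectionVars false

open Polynomial Finset W4 Cp

universe u

section

variable {P : Type u} [Fintype P] [PartialOrder P] [DecidableEq P] {r j w K0 : ℕ}
  {N : Tops P → Finset P} {b : Tops P → ℕ} {θ : Tops P → P → ℕ}

/-- the elements below a fold end and a second end of the same top -/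
theorem Wk.cel_of (W : Wk r j w K0 N b θ) (L : Unq P w b) {z x x' : P}
    (hlz : lev z = j + 1) (hf : Fold j x) (hzx : z ⋖ x) (hzx' : z ⋖ x') (hne : x' ≠ x)
    (hu : (Win.uc x').card = 1) (htt : topOf x = topOf x') (hnw : nab w x ≠ 1) :
    CEl j w N θ z := by
  classical
  have H := W.gt.H
  have HN := W.natSys
  have hj := W.hj
  have hw := W.hw
  have e1 := (H.covBy_iff.mp hzx).2
  have e2 := (H.covBy_iff.mp hzx').2
  have hx : x ∉ unnat N := W.low (by omega)
  have hfu := hf.uc H (by omega)
  have hf2 := hf.2.2 2 (by omega)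
  have hev := hf.2.1
  have hth : ∀ y, y ∉ unnat N → j ≤ lev y → nab w y ≠ 1 →
      θ (topOf y) y + 1 ≤ lev y - w := by
    intro y hy hly hny
    rcases W.cases hy hly with h | h | h
    · exact absurd (W.str_nab L hy h (by omega)) hny
    · exact h.th.le
    · exact h.th
  have hr : z ∈ rA N := by
    by_contra hz
    obtain ⟨y, hy, hup⟩ : ∃ y, y ∉ unnat N ∧ ∀ u, y < u ↔ z < u := by
      by_cases h : z ∈ unnat N
      · by_cases ht : z ∈ twA N
        · exact ⟨twT N z, W.twSys.nat z ht, W.twSys.up z ht⟩
        · exact absurd (mem_rA.mpr ⟨h, ht⟩) hz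
      · exact ⟨z, h, fun u => Iff.rfl⟩
    have el : lev y = lev z := lev_eq_of_up hup
    have en : nab w y = nab w z := nab_congr_up hup (by omega)
    have hmono : nab w x ≤ nab w z := nab_mono hzx.1.le
    have hone : 1 ≤ nab w x := one_le_nab (by omega)
    have t1 := hth y hy (by omega) (by omega)
    have hyx : y ⋖ x := (cov_of_up hup).mpr hzx
    have hyx' : y ⋖ x' := (cov_of_up hup).mpr hzx'
    have hyt : y ∈ N (topOf y) := HN.mem_iff.mpr ⟨hy, rfl⟩
    generalize topOf y = t at hyt t1
    rcases W.typ t with ⟨g1, g2, g3, g5⟩ | ⟨Nc, co, h0, g1, g2, g4⟩ |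
      ⟨Nc, co, h0, g1, g2, g3, g4, g5'⟩
    · rw [g2] at t1
      simp only at t1
      omega
    · rw [g1] at hyt
      rw [g2] at t1
      by_cases hJ : y ∈ junk (fun _ => True) Nc co ∨ y ∈ junk (fun _ => True) Nc (swp co)
      · unfold thR at t1
        rw [if_pos hJ] at t1
        omega
      · have hyN : y ∈ Nc := by
          rw [mem_natR] at hyt
          rcases hyt with h | h | h
          · exact h
          · exact absurd (Or.inl h) hJ
          · exact absurd (Or.inr h) hJ
        have hxN := h0.chart.up y hyN x hyx.1.le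
        have hcl := h0.chart.lev x hxN
        have h3 : ¬ (1 ≤ (co x).1 ∧ 1 ≤ (co x).2) := by
          rintro ⟨a1, a2⟩
          have := chart_inner_uc h0.chart H hxN a1 a2
          omega
        have h4 := rect_nab h0.chart hxN (k := 2) (by omega)
        omega
    · rw [g1] at hyt
      rw [g2] at t1
      by_cases hJ : y ∈ junk (fun c => c.1 ≤ c.2) Nc co
      · unfold thS at t1
        rw [if_pos hJ] at t1
        omega
      · have hyN : y ∈ Nc := by
          rw [mem_natS] at hyt
          rcases hyt with h | h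
          · exact h
          · exact absurd h hJ
        have hxN := h0.chart.up y hyN x hyx.1.le
        have hxN' := h0.chart.up y hyN x' hyx'.1.le
        have hcl := h0.chart.lev x hxN
        have hcl' := h0.chart.lev x' hxN'
        have hm : (co x).1 ≤ (co x).2 := h0.chart.mem x hxN
        have hm' : (co x').1 ≤ (co x').2 := h0.chart.mem x' hxN'
        have hmy : (co y).1 ≤ (co y).2 := h0.chart.mem y hyN
        have h4 := stair_nab h0.chart hxN (k := 2) (by omega)
        have h5 : ¬ (1 ≤ (co x).1 ∧ (co x).1 < (co x).2) := by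
          rintro ⟨a1, a2⟩
          have := stair_inner_uc h0.chart H hxN a1 a2
          omega
        have h6 := (chart_cov h0.chart H hyN hxN).mp hyx
        have h7 := (chart_cov h0.chart H hyN hxN').mp hyx'
        unfold Prd at h6 h7
        have h8 : ¬ (1 ≤ (co x').1 ∧ (co x').1 < (co x').2) := by
          rintro ⟨a1, a2⟩
          have := stair_inner_uc h0.chart H hxN' a1 a2
          omega
        have h9 : ¬ ((co x').1 = (co x).1 ∧ (co x').2 = (co x).2) := by
          rintro ⟨a1, a2⟩
          exact hne (h0.chart.inj x' hxN' x hxN (Prod.ext a1 a2))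
        omega
  refine ⟨hr, hlz, x, x', hzx, hzx', hne.symm, htt, ?_⟩
  have h3 := hth x hx (by omega) hnw
  omega

end

section

variable {P : Type u} [Fintype P] [PartialOrder P] [DecidableEq P] {r j : ℕ}
  {lo hi : Tops P → ℕ → ℕ} {e : Tops P → ℕ → ℕ → P}

/-- the full cost of the elements (C) at the window `3` -/
lemma cel_ful14 {K0 : ℕ} {N : Tops P → Finset P} {b : Tops P → ℕ} {θ : Tops P → P → ℕ}
    (W : Wk r 14 3 K0 N b θ) {z : P} (hz : CEl 14 3 N θ z) : ful 3 z = 12 ^ 2 + 75 := by
  obtain ⟨h1, -, h3⟩ := W.cel_nab (by norm_num) hz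
  have h4 : nab 15 z = 1 := by
    have := nab_self (z := z)
    rwa [h1] at this
  unfold ful
  rw [h1]
  simp only [Finset.sum_range_succ, Finset.sum_range_zero, h4, h3 4 (by norm_num),
    h3 5 (by norm_num), h3 6 (by norm_num), h3 7 (by norm_num), h3 8 (by norm_num),
    h3 9 (by norm_num), h3 10 (by norm_num), h3 11 (by norm_num), h3 12 (by norm_num),
    h3 13 (by norm_num), h3 14 (by norm_num)]
  norm_num

/-- **no elements (C)** from the least raised cost -/
theorem noCC_of_mnS {K0 : ℕ} {N : Tops P → Finset P} {b : Tops P → ℕ}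
    {θ : Tops P → P → ℕ} {v : ℕ} (W : Wk r 14 3 K0 N b θ) (L : Unq P 3 b)
    (M : MnS 14 3 N b θ v) (hv : 12 ^ 2 + 76 ≤ v) : NoCC P 14 := by
  intro z x x' hz hf hzx hzx' hne hu htt
  have h3 := hf.2.2 3 (by norm_num)
  have hc := W.cel_of L hz hf hzx hzx' hne hu htt (by omega)
  have h4 : v ≤ ful 3 z := min_le_ful (rA_pos W) M.bd hc.1
  have h5 := cel_ful14 W hc
  omega

/-- the numbers of a special cell -/
lemma spc_nab {w : ℕ} {N : Tops P → Finset P} {b : Tops P → ℕ} {θ : Tops P → P → ℕ}
    {x : P} {Nc : Finset P} {co : P → ℕ × ℕ} (C : SpcC j w N b θ x Nc co) (hj : 5 ≤ j) :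
    (∀ k, 4 ≤ k → k + 1 ≤ j → nab k x = 3) ∧ nab j x = 2 := by
  have hl := C.lev (by omega)
  constructor
  · intro k h1 h2
    have h3 := stair_nab C.nat.chart C.mem (k := k) (by omega)
    rw [C.co_eq] at h3
    simp only at h3
    omega
  · have h3 := stair_nab C.nat.chart C.mem (k := j) (by omega)
    rw [C.co_eq] at h3
    simp only at h3
    omega

/-- **the least cost from the least raised cost**, without twins and pendants of the special
cells and without elements (C) -/
theorem Wk.mn_noE {w K0 : ℕ} {N : Tops P → Finset P} {b : Tops P → ℕ} {θ : Tops P → P → ℕ}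
    (W : Wk r j w K0 N b θ) (hw2 : 2 ≤ w) {v : ℕ} (M : MnS j w N b θ v) (hE : NoE2 P j)
    (hP : NoP2 P j) (hC : NoCC P j) : Mn j w N θ v := by
  have hj := W.hj
  refine ⟨fun z hz => ?_, fun x hx => ?_⟩
  · have h1 := M.bd z hz
    have hp : ¬ PenS j w N b θ z := by
      rintro ⟨h2, x, h3, h4, h5, ⟨Nc, co, C⟩⟩
      obtain ⟨a1, a2⟩ := spc_nab C (by omega)
      have B := W.bs h3
      have hl := C.lev (by omega)
      have hl' : lev x = j + 1 := by rw [← B.lev]; exact hl
      have hn : ∀ k, k ≤ j → nab k x = nab k (GaussPoset.bs N x) := by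
        intro k hk
        rcases B.nab k with h | h
        · exact h.symm
        · omega
      refine hP z x hl' (fun k g1 g2 => ?_) ?_ h4 h5
      · rw [hn k (by omega)]
        exact a1 k g1 g2
      · rw [hn j le_rfl]
        exact a2
    have hS1 : hS j w N b θ z = hA N θ z := by
      rw [hS_not hp, hC_not (hC.not_cel W hw2)]
    rw [cst_const, hS1, ← cst_const] at h1
    exact h1
  · have h1 := M.tw x hx
    have hs : ¬ Spc j w N b θ (twT N x) := by
      rintro ⟨Nc, co, C⟩
      obtain ⟨a1, a2⟩ := spc_nab C (by omega)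
      have T := W.twn hx
      refine hE (twT N x) x ?_ (C.lev (by omega)) (W.twSys.up x hx) a1 a2
      rintro h
      exact W.twSys.nat x hx (by rw [h]; exact (mem_twA.mp hx).1)
    unfold tcS at h1
    rw [if_neg hs] at h1
    exact h1

end

end Pool.Agent.GaussPoset.Sm
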