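import Pool.Agent.W_448s7_h27.PpB
import Pool.Agent.W_448f6_h94.FxR

/-!
# `j = 14`: the partners of the fold ends; window `4` with expensive fold joins
(MP_448cb3_co, S7)
-/

namespace Pool.Agent.GaussPoset.Sm

set_option linter.unusedSectionVars false

open Polynomial Finset W4 Cp

universe u

variable {P : Type u} [Fintype P] [PartialOrder P] [DecidableEq P] {r j : ℕ}
  {lo hi : Tops P → ℕ → ℕ} {e : Tops P → ℕ → ℕ → P}

/-- an end with two elements above it on the level `2` is a fold end -/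
theorem Ctx.fold_of_two (K : Ctx P r 14 lo hi e) {x : P} (hl : lev x = 14)
    (hu : (Win.uc x).card = 1) (h2 : nab 2 x = 2) : Fold 14 x := by
  have hox := K.only (x := x) hl.le
  rcases K.cases hox hl.ge (fun _ => hu) (fun h => by have := h.1; omega) with h | h | ⟨a, h, h3⟩
  · exact h
  · have := h 2 (by omega)
    omega
  · obtain ⟨e1, e2⟩ := h.low 2 (by have := h3 (by omega); omega)
    have := nab_one_of_eq (K.comp (topOf x)) hox (k := 2) (by omega) (by omega) (by rw [e1, e2])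
    omega

lemma prof_nab {x : P} {p : List ℕ} (h : Fi.Prof 7 x (Fi.gD p)) {k : ℕ} (hk : k ≤ 14) :
    nab k x = 1 + p.getD (14 - k) 0 := by
  have h1 := h (14 - k) (by omega)
  rwa [show 2 * 7 - (14 - k) = k by omega] at h1

/-- the data from the profile -/
lemma prof_dt {x : P} {p : List ℕ} (h : Fi.Prof 7 x (Fi.gD p)) :
    Dt 14 x (∑ k ∈ range 14, p.getD (14 - k) 0, ∑ k ∈ range 14, p.getD (14 - k) 0 * (14 - k),
      p.getD 2 0) := by
  refine ⟨?_, ?_, ?_⟩
  · unfold mX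
    push_cast
    refine Finset.sum_congr rfl fun k hk => ?_
    rw [mem_range] at hk
    rw [prof_nab h (by omega)]
    push_cast
    ring
  · unfold cX
    push_cast
    refine Finset.sum_congr rfl fun k hk => ?_
    rw [mem_range] at hk
    rw [prof_nab h (by omega), Nat.cast_sub (by omega : k ≤ 14)]
    push_cast
    ring
  · rw [prof_nab h (by norm_num)]
    exact Nat.add_comm _ _

/-- the partners of the fold ends, without (C) -/
def EF14 : List (ℕ × ℕ × ℕ) := [(1, 5, 0), (3, 9, 1), (5, 20, 1), (5, 25, 0), (10, 60, 1)]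

/-- **the partners of the fold ends** -/
theorem Ctx.foL14 (K : Ctx P r 14 lo hi e) (hr : 15 ≤ r) (hC : NoCC P 14) :
    FoL P 14 EF14 := by
  have H := K.gt.H
  intro z x x' h
  obtain ⟨a1, a2, -⟩ := K.partner h
  have hF : Fi.Fd 7 x := ⟨h.2.2.1, h.2.2.uc H (by norm_num), by
    have := h.2.2.2.2 2 (by norm_num)
    omega⟩
  have h1 := (F6.level14 (P := P) K.gt hr K.comp K.shape (fun z x x' g1 g2 g3 g4 g5 g6 => by
    have hl := (H.covBy_iff.mp g5).2
    have hlx := g1.1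
    exact hC z x x' (by omega) (K.fold_of_two (by omega) g1.2.1 g1.2.2) g5 g6 g4.symm g2
      g3.symm)).2 z x x' hF h.1.ne h.1.cov h.1.cov'
  rcases h1 with h1 | ⟨p, hp, h1⟩
  · exact Or.inl (K.fold_of_two a1 a2 h1.2.2)
  · right
    refine ⟨_, ?_, prof_dt h1⟩
    revert hp
    have : ∀ q ∈ ([[0, 0, 1, 1, 1], [0, 0, 1, 1, 1, 1, 1], Fi.p5, [0, 0, 0, 0, 0, 1], F6.pE] :
        List (List ℕ)), ((∑ k ∈ range 14, q.getD (14 - k) 0,
          ∑ k ∈ range 14, q.getD (14 - k) 0 * (14 - k), q.getD 2 0) : ℕ × ℕ × ℕ) ∈ EF14 := by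
      decide +kernel
    exact this p

/-- the costs of the fold joins at the window `4` -/
theorem Ctx.foc14 (K : Ctx P r 14 lo hi e) (hr : 15 ≤ r) (hC : NoCC P 14) :
    FoB P 14 189 ∧ ∀ z x x' : P, FJn 14 z x x' → 188 ≤ cst 4 (fun _ => 14 - 5) z := by
  have key : ∀ z x x' : P, FJn 14 z x x' → 188 ≤ cst 4 (fun _ => 14 - 5) z := by
    intro z x x' h
    have h3 := K.fo_ge (by norm_num) le_rfl (K.foL14 hr hC) (n := 188) (by decide +kernel)
      (by decide +kernel) h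
    exact_mod_cast h3
  refine ⟨fun z x x' hz hl hf => ?_, key⟩
  have h3 := key z x x' ⟨hz, hl, hf⟩
  have h4 := Ec.cst_lt_ful (z := z) (k := 14 - 5) (by omega)
  omega

end Pool.Agent.GaussPoset.Sm

namespace Pool.Agent.GaussPoset.Ec

set_option linter.unusedSectionVars false

open Polynomial Finset Sm Wd Cp W4 Cl

universe u

variable {P : Type u} [Fintype P] [PartialOrder P] [DecidableEq P] {r j : ℕ}
  {lo hi : Tops P → ℕ → ℕ} {e : Tops P → ℕ → ℕ → P} {N : Tops P → Finset P}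
  {θ3 θ4 : Tops P → P → ℕ} {Nf : Tops P → Finset P} {θf : Tops P → (ℕ → ℕ → ℕ) → P → ℕ}
  {D : Tops P → Prop} {K3 K' V3 : ℕ} {b : Tops P → ℕ}

/-- **Elimination at window `4`**, all fold joins cost more. -/
theorem Fs.killE (F : Fs P j lo hi e N θ4 Nf θf D) (K : Ctx P r j lo hi e) (h12 : 12 ≤ j)
    (Y : Y4 r j K3 K' V3 N b θ3 θ4) (hfo3 : j % 2 = 0 → foC 3 j + foE 3 j < V3)
    {n d : ℕ} (hn : n ≤ K')
    (hFo : ∀ z x x' : P, FJn j z x x' → n < cst 4 (fun _ => j - 5) z)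
    (hjn : ∀ z x x' : P, Cg z x x' → n ≤ ful 4 z)
    {good : Tops P → (P → ℕ) → ℕ → Prop} (hdv : HDv P n d N θ4 Nf D good)
    (hK : ∀ e' F', Vd 4 e' F' → ∑ x, e' x = n → Ew.Ok (rA N) (thA N θ4) e' →
      (El.KG (ED D) Nf good e').card ≤ d) {p : ℕ}
    (hp : ∀ z x x' : P, Cg z x x' → ful 4 z = n → d + 2 ≤ nab 4 z →
      nst 4 (fun z => lev z - 4) z % 2 = p) :
    ∀ z x x' : P, Cg z x x' → ful 4 z = n → nab 4 z ≤ d + 1 := by
  obtain ⟨h1, h2, h3⟩ := Y.own_noiseF hfo3 hn hjn fun z x x' h => (hFo z x x' h).le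
  have h3' : ∀ z ∈ bdR (rA N), cst 4 (hA N θ4) z = n → SJn N θ3 θ4 z := by
    intro z hz hc
    rcases h3 z hz hc with h | ⟨⟨x, x', h4⟩, h5⟩
    · exact h
    · exfalso
      have h6 := hFo z x x' h4
      rw [cst_const, h5] at hc
      omega
  exact (F.class_par K h12 Y (d := d) (p := p) h1
    (fun z hz hc => Or.inl (h3' z hz hc))
    (fun c0 hc hle => F.gsum_gen K h12 Y hdv (fun x hx => (h2 x hx).le) h1 hK hc hle)
    hp (fun z x x' h hc _ => absurd hc (hFo z x x' h).ne')).1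

/-- **Elimination at window `4`, `j = 14`**, costs at most `191`, all fold joins cost more. -/
theorem Fs.killE14 (F : Fs P 14 lo hi e N θ4 Nf θf D) (K : Ctx P r 14 lo hi e)
    (Y : Y4 r 14 K3 K' V3 N b θ3 θ4) (hfo3 : foC 3 14 + foE 3 14 < V3)
    {n : ℕ} (hn : n ≤ K')
    (hFo : ∀ z x x' : P, FJn 14 z x x' → n < cst 4 (fun _ => 14 - 5) z) (h191 : n ≤ 191)
    (hjn : ∀ z x x' : P, Cg z x x' → n ≤ ful 4 z) {p : ℕ}
    (hp : ∀ z x x' : P, Cg z x x' → ful 4 z = n → 3 ≤ nab 4 z →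
      nst 4 (fun z => lev z - 4) z % 2 = p) :
    ∀ z x x' : P, Cg z x x' → ful 4 z = n → nab 4 z ≤ 2 := by
  obtain ⟨k1, k2, k3⟩ := cw14
  exact F.killE K (by norm_num) Y (fun _ => hfo3) hn hFo hjn (d := 1)
    (F.hdv14 K Y (fun x hx => hn.trans_lt (Y.out_tw hx)))
    (fun e' F' hV hs hok => F.card_le_one K (by norm_num) Y row5_14 (cS := 100) de_14 k2
      (Or.inl rfl) k3 (by omega) (by omega) (by omega) (Or.inr ⟨by omega, Or.inl (by omega)⟩)
      hV hs hok) hp

end Pool.Agent.GaussPoset.Ec
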