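import Pool.Agent.W_448s7_h27.PpJ14
import Pool.Agent.W_448s7_h27.PnB

/-!
# `j = 14`: the joins of level `15` (MP_448cb3_co, S7), from the joins of two ends with two
elements above on the level `12`
-/

namespace Pool.Agent.GaussPoset.Sm

set_option linter.unusedSectionVars false

open Finset Wd Ec W4

universe u

variable {P : Type u} [Fintype P] [PartialOrder P] [DecidableEq P] {r j : ℕ}
  {lo hi : Tops P → ℕ → ℕ} {e : Tops P → ℕ → ℕ → P}

/-- no join of two ends with two elements above on the level `j - 2` -/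
def NoPD (P : Type u) [Fintype P] [PartialOrder P] [DecidableEq P] (j : ℕ) : Prop :=
  ∀ z x x' : P, Cg z x x' → lev z = j + 1 → nab (j - 2) x = 2 → nab (j - 2) x' = 2 → False

lemma not_fold14 {x : P} {s : ℕ × ℕ × ℕ} (h : Dt 14 x s) (hs : s.1 ≠ 21) : ¬ Fold 14 x := by
  intro hf
  have h1 := h.1
  rw [hf.mX.1] at h1
  have h2 : (fm 14 : ℤ) = 21 := by decide +kernel
  rw [h2] at h1
  omega

/-- pairs which are not in the list -/
theorem Ctx.noPr14 (K : Ctx P r 14 lo hi e) (hr : 15 ≤ r) {s s' : ℕ × ℕ × ℕ}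
    (h1 : s.1 ≠ 21) (h2 : s'.1 ≠ 21) (h : (s, s') ∉ Rh14) : NoPr P 14 s s' := by
  intro z x x' hz hl d d'
  obtain ⟨l1, l2⟩ := hz.lev_eq K.gt.H
  have hs : Sok 14 x := ⟨fun hf => by have := hf.1; omega, fun _ => not_fold14 d h1⟩
  have hs' : Sok 14 x' := ⟨fun hf => by have := hf.1; omega, fun _ => not_fold14 d' h2⟩
  obtain ⟨t, t', h4, g, g'⟩ := lefth14 K hr hz hl hs hs'
  rw [g.uniq d, g'.uniq d'] at h4
  exact h h4

theorem Ctx.noPr14_33 (K : Ctx P r 14 lo hi e) (hr : 15 ≤ r) : NoPr P 14 (3, 9, 1) (3, 9, 1) :=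
  K.noPr14 hr (by norm_num) (by norm_num) (by decide)

theorem Ctx.noPr14_35 (K : Ctx P r 14 lo hi e) (hr : 15 ≤ r) : NoPr P 14 (3, 9, 1) (5, 20, 1) :=
  K.noPr14 hr (by norm_num) (by norm_num) (by decide)

/-- **S7 for `j = 14`**: every join of level `15` has a fold end. -/
theorem foldj14' (K : Ctx P r 14 lo hi e) (hr : 15 ≤ r) (hPD : NoPD P 14)
    {z x x' : P} (h : Cg z x x') (hl : lev z = 15) : Fold 14 x ∨ Fold 14 x' := by
  by_contra hcon
  rw [not_or] at hcon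
  obtain ⟨l1, l2⟩ := h.lev_eq K.gt.H
  have hs : Sok 14 x := ⟨fun hf => by have := hf.1; omega, fun _ => hcon.1⟩
  have hs' : Sok 14 x' := ⟨fun hf => by have := hf.1; omega, fun _ => hcon.2⟩
  obtain ⟨s, s', h4, d, d'⟩ := lefth14 K hr h hl hs hs'
  have h5 : s.2.2 = 1 ∧ s'.2.2 = 1 := by
    revert h4
    have : ∀ p ∈ Rh14, p.1.2.2 = 1 ∧ p.2.2.2 = 1 := by decide
    exact this (s, s')
  refine hPD z x x' h hl ?_ ?_
  · rw [d.2.2, h5.1]
  · rw [d'.2.2, h5.2]

/-- **S7 for `j = 14`** in the form of the fold ends -/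
theorem s7f14' (K : Ctx P r 14 lo hi e) (hr : 15 ≤ r) (hPD : NoPD P 14) : Fi.S7F P 7 := by
  have H := K.gt.H
  intro z x x' hl hx hx' ht
  have l1 := (H.covBy_iff.mp hx).2
  have l2 := (H.covBy_iff.mp hx').2
  have hc : Cg z x x' := Cg.mk' hx hx' (only_of_le H K.gt.good (le_topOf x) (by omega))
    (only_of_le H K.gt.good (le_topOf x') (by omega)) ht
  obtain ⟨u1, u2⟩ := K.ends hc (by omega)
  have key : ∀ y : P, Fold 14 y → (Win.uc y).card = 1 → Fi.Fd 7 y := by
    intro y hy hu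
    have h2 := hy.2.2 2 (by norm_num)
    exact ⟨hy.1, hu, by omega⟩
  exact (foldj14' K hr hPD hc (by omega)).imp (fun h => key x h u1) (fun h => key x' h u2)

end Pool.Agent.GaussPoset.Sm
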