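import Pool.Agent.W_448s7_h27.PoJ13
import Pool.Agent.W_448s7_h27.PoG
import Pool.Agent.W_448s7_h27.PoH
import Pool.Agent.W_448pg_h74.WuC

/-!
# S7 for `j = 13` without twins of the cells `(2, 12)` (MP_448cb3_co)
-/

namespace Pool.Agent.GaussPoset.Sm

set_option linter.unusedSectionVars false

open Finset Wd W4

universe u

variable {P : Type u} [Fintype P] [PartialOrder P] [DecidableEq P] {r : ℕ}
  {lo hi : Tops P → ℕ → ℕ} {e : Tops P → ℕ → ℕ → P}

/-- window `2` for `j = 13` without twins of the cells `(2, 12)` -/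
theorem win2e_13 (K : Ctx P r 13 lo hi e) (hE : NoE2 P 13) (hJ : ∃ z : P, Hul.Jn z) :
    ∃ V, WinB P 13 2 64 (fun V => ([] : List ℤ).elem V)
      (fun V => nz ((13 + 1 - 2 : ℕ) : ℤ) V || ([49] : List ℤ).elem V) 0 V := by
  obtain ⟨V, h⟩ := K.winT (nf_odd (by norm_num)).noFo (by norm_num) (by norm_num)
    (Or.inl rfl) (c0 := 47) (cT := 64) (LE := [49]) (LO := []) (BL := []) (lb := 0)
    chkEr13 (by decide +kernel) (by decide +kernel) (by decide +kernel) (by decide +kernel)
    (by norm_num) (fun N b θ W => W.cellsE (p := False) le_rfl (by norm_num)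
      numE_13_2 (noPT_of K.gt (by norm_num)) hE (fun h => h.elim))
    (fun _ _ _ _ _ => hkT_nil)
    { hfl := fun _ => Or.inr (Or.inl (by decide +kernel))
      hcc := fun h => absurd h (by norm_num)
      hFo := fun h => absurd h (by norm_num)
      hfv := fun h => absurd h (by norm_num) }
    (by norm_num) (by norm_num) le_rfl (by decide) (by decide) hJ
  exact ⟨V, h.mono le_rfl (fun v _ h => h) (fun v _ h => by simpa using h) le_rfl⟩

/-- window `3` for `j = 13` without twins of the cells `(2, 12)` -/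
theorem win3e_13 (K : Ctx P r 13 lo hi e) (hE : NoE2 P 13) (hJ : ∃ z : P, Hul.Jn z) :
    ∃ V, WinB P 13 3 60 (fun V => ([56] : List ℤ).elem V)
      (fun V => nz ((13 + 1 - 3 : ℕ) : ℤ) V || ([55, 39, 54] : List ℤ).elem V) 0 V := by
  obtain ⟨V, h⟩ := K.winT (nf_odd (by norm_num)).noFo (by norm_num) (by norm_num)
    (Or.inr ⟨rfl, by norm_num⟩) (c0 := 37) (cT := 60) (LE := [55, 39, 54]) (LO := [56])
    (BL := []) (lb := 0)
    chkEr13 (by decide +kernel) (by decide +kernel) (by decide +kernel) (by decide +kernel)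
    (by norm_num) (fun N b θ W => W.cellsE (p := False) (by norm_num) (by norm_num)
      (numE_13_3.mono (fun v h => List.mem_cons_of_mem _ h) (fun _ h => h))
      (noPT_of K.gt (by norm_num)) hE (fun h => h.elim))
    (fun _ _ _ _ _ => hkT_nil)
    { hfl := fun _ => Or.inr (okv_e (by decide +kernel) (by decide +kernel))
      hcc := fun h => absurd h (by norm_num)
      hFo := fun h => absurd h (by norm_num)
      hfv := fun h => absurd h (by norm_num) }
    (by norm_num) (by norm_num) le_rfl (by decide) (by decide) hJ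
  exact ⟨V, h.mono le_rfl (fun v _ h => h) (fun v _ h => by simpa using h) le_rfl⟩

/-- **S7 for `j = 13`**, without twins of the cells `(2, 12)`: no joins of level `14`. -/
theorem no_join13e (K : Ctx P r 13 lo hi e) (hE : NoE2 P 13) {z : P} (hl : lev z = 14) :
    ¬ Hul.Jn z := by
  intro hz
  obtain ⟨x, x', h⟩ := K.cross hz hl
  obtain ⟨V2, h2⟩ := win2e_13 K hE ⟨z, hz⟩
  obtain ⟨V3, h3⟩ := win3e_13 K hE ⟨z, hz⟩
  obtain ⟨V, -, -, hB⟩ := balq13 K ⟨z, hz⟩ (V2 := V2) (V3 := V3)
    (h2.mono le_rfl (fun v _ h => absurd h (by simp)) (fun v _ h => by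
      simp only [Bool.or_eq_true, List.elem_eq_mem, decide_eq_true_eq, List.mem_cons,
        List.not_mem_nil, or_false] at h ⊢
      tauto) le_rfl) h3
  obtain ⟨s, s', h4, -⟩ := leftq13 K hB h hl
  exact absurd h4 List.not_mem_nil

end Pool.Agent.GaussPoset.Sm
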