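import Pool.Agent.W_448s7_h27.PpS13

/-!
# `j = 13`: twins of the rectangle cell `(2, 12)` (MP_448cb3_co, S7)
-/

namespace Pool.Agent.GaussPoset.Sm

set_option linter.unusedSectionVars false

open Polynomial Finset W4 Cp

universe u

section

variable {P : Type u} [Fintype P] [PartialOrder P] [DecidableEq P] {r j w K0 : ℕ}
  {N : Tops P → Finset P} {b : Tops P → ℕ} {θ : Tops P → P → ℕ}

lemma cst_lt_fulw {z : P} {k : ℕ} (hk : k < lev z - w) : cst w (fun _ => k) z < ful w z := by
  obtain ⟨a, ha⟩ : ∃ a, lev z = w + a + 1 := ⟨lev z - w - 1, by omega⟩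
  have h1 : cst w (fun _ => k) z ≤ cst w (fun _ => lev z - w - 1) z := by
    rw [cst_shift (i := w) (a := a + 1) (h := fun _ => k) (by omega),
      cst_shift (i := w) (a := a + 1) (h := fun _ => lev z - w - 1) (by omega)]
    exact Finset.sum_le_sum fun n _ => Nat.mul_le_mul_right _ (by omega)
  have h2 : cst w (fun _ => lev z - w - 1) z + 1 ≤ cst w (fun _ => lev z - w) z := by
    rw [cst_shift (i := w) (a := a + 1) (h := fun _ => lev z - w - 1) (by omega),
      cst_shift (i := w) (a := a + 1) (h := fun _ => lev z - w) (by omega),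
      Finset.sum_range_succ, Finset.sum_range_succ _ (a + 1)]
    have h3 : nab (w + (a + 1)) z = 1 := by
      rw [show w + (a + 1) = lev z by omega]
      exact nab_self
    rw [h3, Finset.sum_congr rfl (g := fun n => min (lev z - w) n * nab (w + n) z) (fun n hn => by
      rw [mem_range] at hn
      rw [Nat.min_eq_right (by omega), Nat.min_eq_right (by omega)])]
    omega
  have h4 := cst_le_ful w (fun _ => lev z - w) z
  omega

/-- **a twin below a wide element bounds the least raised cost by its full cost** -/
theorem Wk.twin_ful2 (W : Wk r j w K0 N b θ) (hw2 : 2 ≤ w) (L : Unq P w b) {v : ℕ}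
    (M : MnT j w N b θ v) {x x' : P} (hne : x ≠ x') (hup : ∀ u, x < u ↔ x' < u)
    (hj : j < lev x) (h3 : 3 ≤ nab w x) : v + 3 ≤ ful w x + (lev x - w) := by
  have hj6 := W.hj
  have hw := W.hw
  have key : ∀ y : P, lev y = lev x → ful w y = ful w x → nab w y = nab w x → y ∈ unnat N →
      v + 3 ≤ ful w x + (lev x - w) := by
    intro y hly hfy hny hyu
    by_cases hyt : y ∈ twA N
    · have T := W.twn hyt
      have e0 := W.twSys.up y hyt
      have el : lev (twT N y) = lev y := lev_eq_of_up e0
      have ef : ful w (twT N y) = ful w y := ful_congr_up e0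
      have en : nab w (twT N y) = nab w y := nab_congr_up e0 (by omega)
      have hnat := W.twSys.nat y hyt
      have h5 := M.tw y hyt
      have hs : ¬ Spc j w N b θ (twT N y) := by
        rintro ⟨Nc, co, C⟩
        have h6 := stair_nab C.nat.chart C.mem (k := w) (by omega)
        rw [C.co_eq] at h6
        simp only at h6
        omega
      unfold tcS at h5
      rw [if_neg hs, tcst_cst T] at h5
      simp only at h5
      rw [W.thA_nat hnat] at h5
      have hth : θ (topOf (twT N y)) (twT N y) + 2 ≤ lev (twT N y) - w := by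
        rcases W.cases hnat (by omega) with h | h | h
        · exfalso
          have := W.str_nab L hnat h (by omega)
          omega
        · exfalso
          have := h.nab w le_rfl (by omega)
          omega
        · rcases W.dk_row1 hw2 hnat (by omega) h with h7 | h7
          · exfalso
            have := h7.nab w le_rfl (by omega)
            omega
          · exact h7
      have h8 := cst_lt_fulw (w := w) (z := twT N y) (k := θ (topOf (twT N y)) (twT N y) + 1)
        (by omega)
      omega
    · have h4 : v ≤ ful w y := min_le_ful (rA_pos W) M.bd (mem_rA.mpr ⟨hyu, hyt⟩)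
      omega
  by_cases hx : x ∈ unnat N
  · exact key x rfl rfl rfl hx
  · by_cases hx' : x' ∈ unnat N
    · have el : lev x = lev x' := lev_eq_of_up hup
      exact key x' el.symm (ful_congr_up fun u => (hup u).symm)
        (nab_congr_up (fun u => (hup u).symm) (by omega)) hx'
    · exact absurd (W.nat_up_inj L hx hx' hup hj.le (by omega)) hne

end

variable {P : Type u} [Fintype P] [PartialOrder P] [DecidableEq P] {r j : ℕ}
  {lo hi : Tops P → ℕ → ℕ} {e : Tops P → ℕ → ℕ → P}

/-- the full cost at the window `3` -/
lemma ful_three13 {x : P} (hl : lev x = 13 + 1)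
    (hn : ∀ k, 4 ≤ k → k + 1 ≤ 13 → nab k x = 3) (h2 : nab 13 x = 2) : ful 3 x = 166 := by
  have h3 : nab 14 x = 1 := by
    have := nab_self (z := x)
    rwa [hl] at this
  unfold ful
  rw [hl]
  simp only [Finset.sum_range_succ, Finset.sum_range_zero, h3, h2, hn 4 (by norm_num) (by norm_num),
    hn 5 (by norm_num) (by norm_num), hn 6 (by norm_num) (by norm_num),
    hn 7 (by norm_num) (by norm_num), hn 8 (by norm_num) (by norm_num),
    hn 9 (by norm_num) (by norm_num), hn 10 (by norm_num) (by norm_num),
    hn 11 (by norm_num) (by norm_num), hn 12 (by norm_num) (by norm_num)]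
  norm_num

/-- **no twins of the cells `(2, 12)`**, from those of the stairs -/
theorem Ctx.noE2_13_of (K : Ctx P r 13 lo hi e) (hJ : ∃ z : P, Hul.Jn z)
    (hst : ∀ x x' : P, x ≠ x' → lev x = 14 → (∀ u, x < u ↔ x' < u) →
      (∀ k, 4 ≤ k → k + 1 ≤ 13 → nab k x = 3) → nab 13 x = 2 → nab 3 x = 2 → False) :
    NoE2 P 13 := by
  intro x x' hne hl hup h3 h2
  by_cases h5 : nab 3 x = 2
  · exact hst x x' hne hl hup h3 h2 h5
  · have h6 : 1 ≤ nab 3 x := one_le_nab (by omega)
    have h7 : nab 3 x ≠ 1 := by
      intro h
      have h4 := K.nab_one_two (x := x) (k := 3) (by norm_num) (by omega) h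
      have h5 := h3 4 le_rfl (by norm_num)
      rw [h5] at h4
      omega
    obtain ⟨N, θ3, θ4, S⟩ := exists_sy K (by norm_num)
    obtain ⟨V, v, -, -, M, W, hv⟩ := ps13 K hJ S
    have h8 := W.twin_ful2 (by norm_num) S.unq3 M hne hup (by omega) (by omega)
    have h9 := ful_three13 hl h3 h2
    omega

end Pool.Agent.GaussPoset.Sm
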