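import Pool.Agent.W_448s7_h27.PpC
import Pool.Agent.W_448pg_h74.WvE
import Pool.Agent.W_448pg_h74.WuC

/-!
S7 for `j = 14`: the windows `1` up to `93`, `2` up to `89`, `3` up to `80`, `4` at `65`, `66`
(MP_448cb3_co).
-/

namespace Pool.Agent.GaussPoset.Sm

set_option linter.unusedSectionVars false

open Finset Wd Ec W4

universe u

variable {P : Type u} [Fintype P] [PartialOrder P] [DecidableEq P] {r : ℕ}

/-- caps -/
def ch14 (w : ℕ) : ℤ :=
  if w = 0 then cap0 14 else if w = 1 then 93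
  else if w = 2 then 89 else if w = 3 then 80 else 66

/-- even noise -/
def neh14 (w : ℕ) (V : ℤ) : Bool :=
  if w = 0 then false else if w = 1 then (nz ((14 + 1 - 1 : ℕ) : ℤ) V || ([] : List ℤ).elem V)
  else if w = 2 then (nz ((14 + 1 - 2 : ℕ) : ℤ) V || ([24] : List ℤ).elem V)
  else ((nz ((14 + 1 - 3 : ℕ) : ℤ) V && !(([] : List ℤ).elem V)) ||
    ([16] : List ℤ).elem V)

/-- odd noise -/
def noh14 (w : ℕ) (V : ℤ) : Bool :=
  if w = 0 then false else if w = 1 then ([] : List ℤ).elem V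
  else if w = 2 then ([] : List ℤ).elem V else ([75] : List ℤ).elem V

/-- caps as a list -/
def chl14 : List (ℕ × ℕ) := [(14, 107), (13, 93), (12, 89), (11, 80), (10, 66)]

lemma caph14 : CapL 14 4 ch14 chl14 := by decide +kernel

/-- lines with `g + 300`, two elements above on the level `4` -/
def tAh14 : List (List ℕ) :=
  [[300], [293, 294, 295, 296, 297, 298], [286, 287, 288, 289, 290, 291, 292, 293, 294, 295,
   296, 303], [291, 296, 297, 298, 299, 300, 301, 302, 303], [284, 285, 286, 287, 288, 289, 290,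
   291, 292, 293, 294, 295, 296, 297, 298, 299, 300, 301, 302, 303, 308], [275, 280, 294, 295,
   296, 297, 298, 299, 300, 301, 302, 303, 304, 305, 306, 307, 308, 309], [268, 269, 270, 271,
   272, 273, 274, 275, 276, 277, 278, 282, 287, 288, 289, 290, 291, 292, 293, 294, 295, 296,
   297, 298, 299, 300, 301, 302, 303, 304, 305, 306, 307, 308, 309, 310, 315], [278, 283, 288,
   290, 291, 292, 293, 294, 295, 296, 297, 298, 299, 300, 301, 302, 303, 304, 305, 306, 307,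
   308, 309], [266, 271, 272, 273, 274, 275, 276, 277, 278, 279, 280, 281, 282, 283, 284, 285,
   286, 287, 288, 289, 290, 291, 292, 293, 294, 295], [277, 281], [250, 255, 260, 269], [], [],
   [], [], []]

/-- lines with `g + 300`, at least three elements above on the level `4` -/
def tBh14 : List (List ℕ) :=
  [[], [], [], [], [], [], [], [], [], [], [240], [233, 234, 235, 236, 237, 238], [243], [231,
   236, 237], [], [215]]

/-- lines -/
def LAh14 : List (List ℤ) :=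
  [[0], [-7, -6, -5, -4, -3, -2], [-14, -13, -12, -11, -10, -9, -8, -7, -6, -5, -4, 3], [-9, -4,
   -3, -2, -1, 0, 1, 2, 3], [-16, -15, -14, -13, -12, -11, -10, -9, -8, -7, -6, -5, -4, -3, -2,
   -1, 0, 1, 2, 3, 8], [-25, -20, -6, -5, -4, -3, -2, -1, 0, 1, 2, 3, 4, 5, 6, 7, 8, 9], [-32,
   -31, -30, -29, -28, -27, -26, -25, -24, -23, -22, -18, -13, -12, -11, -10, -9, -8, -7, -6,
   -5, -4, -3, -2, -1, 0, 1, 2, 3, 4, 5, 6, 7, 8, 9, 10, 15], [-22, -17, -12, -10, -9, -8, -7,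
   -6, -5, -4, -3, -2, -1, 0, 1, 2, 3, 4, 5, 6, 7, 8, 9], [-34, -29, -28, -27, -26, -25, -24,
   -23, -22, -21, -20, -19, -18, -17, -16, -15, -14, -13, -12, -11, -10, -9, -8, -7, -6, -5],
   [-23, -19], [-50, -45, -40, -31], [], [], [], [], []]

/-- lines -/
def LBh14 : List (List ℤ) :=
  [[], [], [], [], [], [], [], [], [], [], [-60], [-67, -66, -65, -64, -63, -62], [-57], [-69,
   -64, -63], [], [-85]]

lemma LAh14_eq : LAh14 = tabI tAh14 := by decide +kernel

lemma LBh14_eq : LBh14 = tabI tBh14 := by decide +kernel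

lemma fh14a : fst1F chl14 tAh14 tBh14 Sf14a = true := by decide +kernel

lemma fh14b : fst2F chl14 tAh14 tBh14 Sf14b = true := by decide +kernel

theorem tabh14 : TabF 14 4 ch14 LAh14 LBh14 Ef14 Sf14a Sf14b XN := by
  refine ⟨by norm_num, by norm_num, chkEf14, chkSf14a, chkSf14b, ?_, ?_, ?_, ?_, ?_, ?_, ?_, ?_⟩
  · decide +kernel
  · decide +kernel
  · decide +kernel
  · decide +kernel
  · decide +kernel
  · rw [LAh14_eq, LBh14_eq]
    exact chk1F_of caph14 fh14a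
  · rw [LAh14_eq, LBh14_eq]
    exact chk2F_of (by norm_num) caph14 fh14b
  · decide +kernel

/-- rounds -/
def rh14 (n : ℕ) (XL : List ℤ) (u : List ℤ) : List ℤ :=
  rnds (aX LAh14 LBh14 XL ((14 : ℕ) : ℤ)) noh14 neh14 ch14 (odds LAh14.length)
    (evens LAh14.length) ((14 : ℕ) : ℤ) 300 4 n u

/-- the windows `0, …, 3` -/
lemma sh14_1 : rh14 27 [43] [0, 0, 0, 0] = [105, 94, 89, 79] := by
  decide +kernel

/-- the windows `0, …, 3` -/
lemma sh14_2 : rh14 5 [66, 65, 43] [105, 94, 89, 79] = [106, 94, 90, 81] := by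
  decide +kernel

/-- the pairs of ends which are left -/
def Rh14 : List ((ℕ × ℕ × ℕ) × (ℕ × ℕ × ℕ)) :=
    [((5, 20, 1), (10, 60, 1)), ((10, 60, 1), (5, 20, 1)), ((10, 60, 1), (10, 60, 1))]

lemma resth14 : restF 14 Ef14 XN [106, 94, 90, 81] [66, 65, 43] = Rh14 := by
  decide +kernel

lemma nmh14_65 : Nm 14 (11 ^ 2 + 65) (12 ^ 2 + 79) := by
  constructor <;> decide +kernel

lemma nmh14_66 : Nm 14 (11 ^ 2 + 66) (12 ^ 2 + 79) := by
  constructor <;> decide +kernel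

/-- lower bounds -/
def lwh14 (_ : ℕ) : ℤ := 0

section

variable {lo hi : Tops P → ℕ → ℕ} {e : Tops P → ℕ → ℕ → P}

/-- **the state for `j = 14`** from the windows `1` up to `93`, `2` up to `89`, `3` up to `80`,
`4` at `43`, `65`, `66`; there are no elements (C) -/
theorem phh14 (K : Ctx P r 14 lo hi e) (hr : 15 ≤ r) (hJ : ∃ z : P, Hul.Jn z) :
    NoCC P 14 ∧ ∃ V : ℕ → ℤ, Bals P 14 ch14 noh14 neh14 lwh14 V ∧
      StF P 14 V [106, 94, 90, 81] [66, 65, 43] := by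
  classical
  have hN := noP_XN (P := P) 14
  have T := tabh14
  obtain ⟨hE, hP⟩ := K.noEP2_14 hJ
  obtain ⟨Vg, -, sg⟩ := pg14 K hJ
  obtain ⟨N, θ3, θ4, Nf, θf, D, S, F⟩ := exists_fs K (by norm_num)
  obtain ⟨v, M, W, B3⟩ := K.sys3e_14 hE hP S hJ
  obtain ⟨N2, b2, θ2, v2, -, -, -, B2⟩ := K.sys2e_14 hE hP hJ
  obtain ⟨V1, B1⟩ := K.win1e_14 hE hP hJ
  obtain ⟨V0, B0⟩ : ∃ V, WinB P 14 0 (ch14 0) (noh14 0) (neh14 0) (lwh14 0) V := K.win0 hJ
  have key : ∀ a b c d : ℤ, ∃ V : ℕ → ℤ, V 0 = a ∧ V 1 = b ∧ V 2 = c ∧ V 3 = d :=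
    fun a b c d => ⟨fun w => if w = 0 then a else if w = 1 then b else if w = 2 then c else d,
      rfl, rfl, rfl, rfl⟩
  obtain ⟨V, hV0, hV1, hV2, hV3⟩ := key V0 V1 ((v2 : ℤ) - ((14 + 1 - 2 : ℕ) : ℤ) ^ 2)
    ((v : ℤ) - ((14 + 1 - 3 : ℕ) : ℤ) ^ 2)
  have hB : Bals P 14 ch14 noh14 neh14 lwh14 V := by
    intro w hw
    have : w = 0 ∨ w = 1 ∨ w = 2 ∨ w = 3 := by omega
    rcases this with rfl | rfl | rfl | rfl
    · rw [hV0]; exact B0
    · rw [hV1]; exact B1
    · rw [hV2]; exact B2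
    · rw [hV3]; exact B3
  have h0 : StF P 14 V [0, 0, 0, 0] [43] := by
    have h5 := (StF.start hB).bel
    rw [show ((List.range 4).map fun w => min (lwh14 w) (ch14 w + 1)) = [0, 0, 0, 0] by
      decide +kernel] at h5
    exact ⟨h5, sg.kill⟩
  have s1 : StF P 14 V [105, 94, 89, 79] [43] := sh14_1 ▸ K.sweepF hN T hB h0 300 27
  have hv : 12 ^ 2 + 79 ≤ v := s1.v3 hV3 (by norm_num)
  have hC : NoCC P 14 := noCC_of_mnS W S.unq3 M (by omega)
  have hM : Mn 14 3 N θ3 v := W.mn_noE (by norm_num) M hE hP hC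
  obtain ⟨hF1, hF2⟩ := K.foc14 hr hC
  have Y1 : Y4 r 14 (12 ^ 2 + 63) (11 ^ 2 + 65) (12 ^ 2 + 79) N _ θ3 θ4 :=
    y4_of S W hM hv nmh14_65
  have Y2 : Y4 r 14 (12 ^ 2 + 63) (11 ^ 2 + 66) (12 ^ 2 + 79) N _ θ3 θ4 :=
    y4_of S W hM hv nmh14_66
  have s2 : StF P 14 V [105, 94, 89, 79] [65, 43] :=
    K.stepF hN T hB s1 (T0 := 65) (p := 1) (hF1.mono (by norm_num))
      (by decide +kernel) (by decide +kernel) (by decide +kernel) (by decide +kernel)
      (fun _ => by decide +kernel)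
      (fun hj hp => F.killE14 K Y1 (by decide +kernel) (by norm_num)
        (fun z x x' h => lt_of_lt_of_le (by norm_num) (hF2 z x x' h)) (by norm_num) hj hp)
  have s3 : StF P 14 V [105, 94, 89, 79] [66, 65, 43] :=
    K.stepF hN T hB s2 (T0 := 66) (p := 1) (hF1.mono (by norm_num))
      (by decide +kernel) (by decide +kernel) (by decide +kernel) (by decide +kernel)
      (fun _ => by decide +kernel)
      (fun hj hp => F.killE14 K Y2 (by decide +kernel) (by norm_num)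
        (fun z x x' h => lt_of_lt_of_le (by norm_num) (hF2 z x x' h)) (by norm_num) hj hp)
  exact ⟨hC, V, hB, sh14_2 ▸ K.sweepF hN T hB s3 300 5⟩

/-- **S7 for `j = 14`**: the joins of level `15` without a fold end which are left. -/
theorem lefth14 (K : Ctx P r 14 lo hi e) (hr : 15 ≤ r) {z x x' : P} (h : Cg z x x')
    (hl : lev z = 15) (hs : Sok 14 x) (hs' : Sok 14 x') :
    ∃ s s', (s, s') ∈ Rh14 ∧ Dt 14 x s ∧ Dt 14 x' s' := by
  obtain ⟨-, V, hB, s3⟩ := phh14 K hr ⟨z, h.jn⟩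
  obtain ⟨s, s', g1, g2, g3⟩ := K.leftS (noP_XN (P := P) 14) tabh14 hB s3 h hl hs hs'
  rw [resth14] at g1
  exact ⟨s, s', g1, g2, g3⟩

end

end Pool.Agent.GaussPoset.Sm
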