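import Pool.Agent.W_448s7_h27.PpC
import Pool.Agent.W_448s8f_h76.FjE
import Pool.Agent.W_448pg_h74.WvE
import Pool.Agent.W_448pg_h74.WuC

/-!
S7, S8 for `j = 14`: the windows `1` up to `93`, `2` up to `89`, `3` up to `80`, `4` at `65`,
`66` and `67`: no joins of a fold end and an end `(1, 5, 0)` (MP_448cb3_co).
-/

namespace Pool.Agent.GaussPoset.Sm

set_option linter.unusedSectionVars false

open Finset Wd Ec W4

universe u

variable {P : Type u} [Fintype P] [PartialOrder P] [DecidableEq P] {r : ℕ}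

/-- caps -/
def ck14 (w : ℕ) : ℤ :=
  if w = 0 then cap0 14 else if w = 1 then 93
  else if w = 2 then 89 else if w = 3 then 80 else 67

/-- even noise -/
def nek14 (w : ℕ) (V : ℤ) : Bool :=
  if w = 0 then false else if w = 1 then (nz ((14 + 1 - 1 : ℕ) : ℤ) V || ([] : List ℤ).elem V)
  else if w = 2 then (nz ((14 + 1 - 2 : ℕ) : ℤ) V || ([24] : List ℤ).elem V)
  else ((nz ((14 + 1 - 3 : ℕ) : ℤ) V && !(([] : List ℤ).elem V)) ||
    ([16] : List ℤ).elem V)

/-- odd noise -/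
def nok14 (w : ℕ) (V : ℤ) : Bool :=
  if w = 0 then false else if w = 1 then ([] : List ℤ).elem V
  else if w = 2 then ([] : List ℤ).elem V else ([75] : List ℤ).elem V

/-- caps as a list -/
def ckl14 : List (ℕ × ℕ) := [(14, 107), (13, 93), (12, 89), (11, 80), (10, 67)]

lemma capk14 : CapL 14 4 ck14 ckl14 := by decide +kernel

/-- lines with `g + 300`, two elements above on the level `4` -/
def tAk14 : List (List ℕ) :=
  [[300], [293, 294, 295, 296, 297, 298], [286, 287, 288, 289, 290, 291, 292, 293, 294, 295,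
   296, 303], [291, 296, 297, 298, 299, 300, 301, 302, 303], [284, 285, 286, 287, 288, 289, 290,
   291, 292, 293, 294, 295, 296, 297, 298, 299, 300, 301, 302, 303, 308], [275, 280, 294, 295,
   296, 297, 298, 299, 300, 301, 302, 303, 304, 305, 306, 307, 308, 309], [268, 269, 270, 271,
   272, 273, 274, 275, 276, 277, 278, 282, 287, 288, 289, 290, 291, 292, 293, 294, 295, 296,
   297, 298, 299, 300, 301, 302, 303, 304, 305, 306, 307, 308, 309, 310, 315], [278, 283, 288,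
   290, 291, 292, 293, 294, 295, 296, 297, 298, 299, 300, 301, 302, 303, 304, 305, 306, 307,
   308, 309], [266, 271, 272, 273, 274, 275, 276, 277, 278, 279, 280, 281, 282, 283, 284, 285,
   286, 287, 288, 289, 290, 291, 292, 293, 294, 295], [277, 281], [250, 255, 260, 269], [], [],
   [], [], []]

/-- lines with `g + 300`, at least three elements above on the level `4` -/
def tBk14 : List (List ℕ) :=
  [[], [], [], [], [], [], [], [], [], [], [240], [233, 234, 235, 236, 237, 238], [243], [231,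
   236, 237], [], [215]]

/-- lines -/
def LAk14 : List (List ℤ) :=
  [[0], [-7, -6, -5, -4, -3, -2], [-14, -13, -12, -11, -10, -9, -8, -7, -6, -5, -4, 3], [-9, -4,
   -3, -2, -1, 0, 1, 2, 3], [-16, -15, -14, -13, -12, -11, -10, -9, -8, -7, -6, -5, -4, -3, -2,
   -1, 0, 1, 2, 3, 8], [-25, -20, -6, -5, -4, -3, -2, -1, 0, 1, 2, 3, 4, 5, 6, 7, 8, 9], [-32,
   -31, -30, -29, -28, -27, -26, -25, -24, -23, -22, -18, -13, -12, -11, -10, -9, -8, -7, -6,
   -5, -4, -3, -2, -1, 0, 1, 2, 3, 4, 5, 6, 7, 8, 9, 10, 15], [-22, -17, -12, -10, -9, -8, -7,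
   -6, -5, -4, -3, -2, -1, 0, 1, 2, 3, 4, 5, 6, 7, 8, 9], [-34, -29, -28, -27, -26, -25, -24,
   -23, -22, -21, -20, -19, -18, -17, -16, -15, -14, -13, -12, -11, -10, -9, -8, -7, -6, -5],
   [-23, -19], [-50, -45, -40, -31], [], [], [], [], []]

/-- lines -/
def LBk14 : List (List ℤ) :=
  [[], [], [], [], [], [], [], [], [], [], [-60], [-67, -66, -65, -64, -63, -62], [-57], [-69,
   -64, -63], [], [-85]]

lemma LAk14_eq : LAk14 = tabI tAk14 := by decide +kernel

lemma LBk14_eq : LBk14 = tabI tBk14 := by decide +kernel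

lemma fk14a : fst1F ckl14 tAk14 tBk14 Sf14a = true := by decide +kernel

lemma fk14b : fst2F ckl14 tAk14 tBk14 Sf14b = true := by decide +kernel

theorem tabk14 : TabF 14 4 ck14 LAk14 LBk14 Ef14 Sf14a Sf14b XN := by
  refine ⟨by norm_num, by norm_num, chkEf14, chkSf14a, chkSf14b, ?_, ?_, ?_, ?_, ?_, ?_, ?_, ?_⟩
  · decide +kernel
  · decide +kernel
  · decide +kernel
  · decide +kernel
  · decide +kernel
  · rw [LAk14_eq, LBk14_eq]
    exact chk1F_of capk14 fk14a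
  · rw [LAk14_eq, LBk14_eq]
    exact chk2F_of (by norm_num) capk14 fk14b
  · decide +kernel

/-- rounds -/
def rk14 (n : ℕ) (XL : List ℤ) (u : List ℤ) : List ℤ :=
  rnds (aX LAk14 LBk14 XL ((14 : ℕ) : ℤ)) nok14 nek14 ck14 (odds LAk14.length)
    (evens LAk14.length) ((14 : ℕ) : ℤ) 300 4 n u

/-- the windows `0, …, 3` -/
lemma sk14_1 : rk14 27 [43] [0, 0, 0, 0] = [105, 94, 89, 79] := by
  decide +kernel

/-- the windows `0, …, 3` -/
lemma sk14_2 : rk14 5 [66, 65, 43] [105, 94, 89, 79] = [106, 94, 90, 81] := by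
  decide +kernel

/-- the pairs of ends which are left -/
def Rk14 : List ((ℕ × ℕ × ℕ) × (ℕ × ℕ × ℕ)) :=
    [((5, 20, 1), (10, 60, 1)), ((10, 60, 1), (5, 20, 1)), ((10, 60, 1), (10, 60, 1))]

lemma restk14 : restF 14 Ef14 XN [106, 94, 90, 81] [66, 65, 43] = Rk14 := by
  decide +kernel

lemma nmk14_65 : Nm 14 (11 ^ 2 + 65) (12 ^ 2 + 79) := by
  constructor <;> decide +kernel

lemma nmk14_66 : Nm 14 (11 ^ 2 + 66) (12 ^ 2 + 79) := by
  constructor <;> decide +kernel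

lemma nmk14_67 : Nm 14 (11 ^ 2 + 67) (12 ^ 2 + 79) := by
  constructor <;> decide +kernel

/-- the partners of the fold ends, without `(1, 5, 0)` -/
def EG14 : List (ℕ × ℕ × ℕ) := [(3, 9, 1), (5, 20, 1), (5, 25, 0), (10, 60, 1)]

/-- lower bounds -/
def lwk14 (_ : ℕ) : ℤ := 0

section

variable {lo hi : Tops P → ℕ → ℕ} {e : Tops P → ℕ → ℕ → P}

/-- **the state for `j = 14`** from the windows `1` up to `93`, `2` up to `89`, `3` up to `80`,
`4` at `43`, `65`, `66`; there are no elements (C) -/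
theorem phk14 (K : Ctx P r 14 lo hi e) (hr : 15 ≤ r) (hJ : ∃ z : P, Hul.Jn z) :
    NoCC P 14 ∧ ∃ V : ℕ → ℤ, Bals P 14 ck14 nok14 nek14 lwk14 V ∧
      StF P 14 V [106, 94, 90, 81] [66, 65, 43] ∧ FoL P 14 EG14 := by
  classical
  have hN := noP_XN (P := P) 14
  have T := tabk14
  obtain ⟨hE, hP⟩ := K.noEP2_14 hJ
  obtain ⟨Vg, -, sg⟩ := pg14 K hJ
  obtain ⟨N, θ3, θ4, Nf, θf, D, S, F⟩ := exists_fs K (by norm_num)
  obtain ⟨v, M, W, B3⟩ := K.sys3e_14 hE hP S hJ
  obtain ⟨N2, b2, θ2, v2, -, -, -, B2⟩ := K.sys2e_14 hE hP hJ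
  obtain ⟨V1, B1⟩ := K.win1e_14 hE hP hJ
  obtain ⟨V0, B0⟩ : ∃ V, WinB P 14 0 (ck14 0) (nok14 0) (nek14 0) (lwk14 0) V := K.win0 hJ
  have key : ∀ a b c d : ℤ, ∃ V : ℕ → ℤ, V 0 = a ∧ V 1 = b ∧ V 2 = c ∧ V 3 = d :=
    fun a b c d => ⟨fun w => if w = 0 then a else if w = 1 then b else if w = 2 then c else d,
      rfl, rfl, rfl, rfl⟩
  obtain ⟨V, hV0, hV1, hV2, hV3⟩ := key V0 V1 ((v2 : ℤ) - ((14 + 1 - 2 : ℕ) : ℤ) ^ 2)
    ((v : ℤ) - ((14 + 1 - 3 : ℕ) : ℤ) ^ 2)
  have hB : Bals P 14 ck14 nok14 nek14 lwk14 V := by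
    intro w hw
    have : w = 0 ∨ w = 1 ∨ w = 2 ∨ w = 3 := by omega
    rcases this with rfl | rfl | rfl | rfl
    · rw [hV0]; exact B0
    · rw [hV1]; exact B1
    · rw [hV2]; exact B2
    · rw [hV3]; exact B3
  have h0 : StF P 14 V [0, 0, 0, 0] [43] := by
    have h5 := (StF.start hB).bel
    rw [show ((List.range 4).map fun w => min (lwk14 w) (ck14 w + 1)) = [0, 0, 0, 0] by
      decide +kernel] at h5
    exact ⟨h5, sg.kill⟩
  have s1 : StF P 14 V [105, 94, 89, 79] [43] := sk14_1 ▸ K.sweepF hN T hB h0 300 27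
  have hv : 12 ^ 2 + 79 ≤ v := s1.v3 hV3 (by norm_num)
  have hC : NoCC P 14 := noCC_of_mnS W S.unq3 M (by omega)
  have hM : Mn 14 3 N θ3 v := W.mn_noE (by norm_num) M hE hP hC
  obtain ⟨hF1, hF2⟩ := K.foc14 hr hC
  have Y1 : Y4 r 14 (12 ^ 2 + 63) (11 ^ 2 + 65) (12 ^ 2 + 79) N _ θ3 θ4 :=
    y4_of S W hM hv nmk14_65
  have Y2 : Y4 r 14 (12 ^ 2 + 63) (11 ^ 2 + 66) (12 ^ 2 + 79) N _ θ3 θ4 :=
    y4_of S W hM hv nmk14_66
  have s2 : StF P 14 V [105, 94, 89, 79] [65, 43] :=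
    K.stepF hN T hB s1 (T0 := 65) (p := 1) (hF1.mono (by norm_num))
      (by decide +kernel) (by decide +kernel) (by decide +kernel) (by decide +kernel)
      (fun _ => by decide +kernel)
      (fun hj hp => F.killE14 K Y1 (by decide +kernel) (by norm_num)
        (fun z x x' h => lt_of_lt_of_le (by norm_num) (hF2 z x x' h)) (by norm_num) hj hp)
  have s3 : StF P 14 V [105, 94, 89, 79] [66, 65, 43] :=
    K.stepF hN T hB s2 (T0 := 66) (p := 1) (hF1.mono (by norm_num))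
      (by decide +kernel) (by decide +kernel) (by decide +kernel) (by decide +kernel)
      (fun _ => by decide +kernel)
      (fun hj hp => F.killE14 K Y2 (by decide +kernel) (by norm_num)
        (fun z x x' h => lt_of_lt_of_le (by norm_num) (hF2 z x x' h)) (by norm_num) hj hp)
  have s4 : StF P 14 V [106, 94, 90, 81] [66, 65, 43] := sk14_2 ▸ K.sweepF hN T hB s3 300 5
  have h189 : ∀ z x x' : P, Cg z x x' → (14 - 3) ^ 2 + 68 ≤ ful 4 z :=
    K.costF hN T hB s4 (T0 := 68) (hF1.mono (by norm_num)) (by decide +kernel)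
      (by decide +kernel) (by decide +kernel) (fun _ => by decide +kernel)
  have Y3 : Y4 r 14 (12 ^ 2 + 63) (11 ^ 2 + 67) (12 ^ 2 + 79) N _ θ3 θ4 :=
    y4_of S W hM hv nmk14_67
  obtain ⟨k1, k2, k3⟩ := cw14
  have hL := K.foL14 hr hC
  obtain ⟨-, g2⟩ := F.killF K (by norm_num) Y3 (fun _ => by decide +kernel)
    (n := 11 ^ 2 + 67) le_rfl (fun z x x' h => le_trans (by norm_num) (h189 z x x' h)) hL
    (by decide +kernel) (by decide +kernel) (p := pFo 4 14 (1, 5, 0) % 2)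
    (fun h => absurd h (by decide +kernel)) (by decide +kernel)
    (F.hdv14 K Y3 (fun x hx => Y3.out_tw hx))
    (fun e' F' hV hs hok => F.card_le_one K (by norm_num) Y3 row5_14 (cS := 100) de_14 k2
      (Or.inl rfl) k3 (by omega) (by omega) (by omega) (Or.inr ⟨by omega, Or.inl (by omega)⟩)
      hV hs hok)
    (fun z x x' h hc _ => by
      have := h189 z x x' h
      omega)
  exact ⟨hC, V, hB, s4, K.fo_elim (by norm_num) le_rfl hL g2 (by decide +kernel)⟩

/-- **S7 for `j = 14`**: the joins of level `15` without a fold end which are left. -/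
theorem leftk14 (K : Ctx P r 14 lo hi e) (hr : 15 ≤ r) {z x x' : P} (h : Cg z x x')
    (hl : lev z = 15) (hs : Sok 14 x) (hs' : Sok 14 x') :
    ∃ s s', (s, s') ∈ Rk14 ∧ Dt 14 x s ∧ Dt 14 x' s' := by
  obtain ⟨-, V, hB, s3, -⟩ := phk14 K hr ⟨z, h.jn⟩
  obtain ⟨s, s', g1, g2, g3⟩ := K.leftS (noP_XN (P := P) 14) tabk14 hB s3 h hl hs hs'
  rw [restk14] at g1
  exact ⟨s, s', g1, g2, g3⟩

end

end Pool.Agent.GaussPoset.Sm
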