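import Pool.Agent.W_448s7_h27.PpK14
import Pool.Agent.W_448s7_h27.PpD

/-!
# `j = 14`: no joins of level `15` (MP_448cb3_co, S7, S8), from the joins of two ends with two
elements above on the level `12` and from the joins of a fold end and an end `(5, 25, 0)`
-/

namespace Pool.Agent.GaussPoset.Sm

set_option linter.unusedSectionVars false

open Finset Wd Ec W4

universe u

variable {P : Type u} [Fintype P] [PartialOrder P] [DecidableEq P] {r j : ℕ}
  {lo hi : Tops P → ℕ → ℕ} {e : Tops P → ℕ → ℕ → P}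

/-- no join of a fold end and an end `(5, 25, 0)` -/
def NoFB (P : Type u) [Fintype P] [PartialOrder P] [DecidableEq P] (j : ℕ) : Prop :=
  ∀ z x x' : P, FJn j z x x' → Dt j x' (5, 25, 0) → False

lemma fold_pd14 {x : P} (h : Fold 14 x) : nab (14 - 2) x = 2 := by
  have h1 := h.2.2 12 (by norm_num)
  show nab 12 x = 2
  omega

/-- **the fold joins for `j = 14`** -/
theorem Ctx.no_fold14 (K : Ctx P r 14 lo hi e) (hr : 15 ≤ r) (hPD : NoPD P 14)
    (hFB : NoFB P 14) {z x x' : P} (h : Cg z x x') (hl : lev z = 15) (hf : Fold 14 x) :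
    False := by
  obtain ⟨-, V, -, -, hL⟩ := phk14 K hr ⟨z, h.jn⟩
  have hF : FJn 14 z x x' := ⟨h, hl, hf⟩
  rcases hL z x x' hF with h1 | ⟨s, hs, h1⟩
  · exact hPD z x x' h hl (fold_pd14 hf) (fold_pd14 h1)
  · unfold EG14 at hs
    simp only [List.mem_cons, List.not_mem_nil, or_false] at hs
    rcases hs with rfl | rfl | rfl | rfl
    · exact hPD z x x' h hl (fold_pd14 hf) h1.2.2
    · exact hPD z x x' h hl (fold_pd14 hf) h1.2.2
    · exact hFB z x x' hF h1
    · exact hPD z x x' h hl (fold_pd14 hf) h1.2.2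

/-- **`j = 14`: no joins of level `15`** -/
theorem no_join14 (K : Ctx P r 14 lo hi e) (hr : 15 ≤ r) (hPD : NoPD P 14)
    (hFB : NoFB P 14) {z : P} (hl : lev z = 15) : ¬ Hul.Jn z := by
  intro hz
  obtain ⟨x, x', h⟩ := K.cross hz hl
  rcases foldj14' K hr hPD h hl with h1 | h1
  · exact K.no_fold14 hr hPD hFB h hl h1
  · exact K.no_fold14 hr hPD hFB h.symm hl h1

end Pool.Agent.GaussPoset.Sm
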