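import Pool.Agent.W_448s7_h27.PpE
import Pool.Agent.W_448s7_h27.EwR

/-!
S7 for `j = 13` (MP_448cb3_co): the state from the windows `2`, `3` with the system of the
window `3`; all joins cost at least `145` at the window `4`.
-/

namespace Pool.Agent.GaussPoset.Sm

set_option linter.unusedSectionVars false

open Polynomial Finset W4 Cp

universe u

section

variable {P : Type u} [Fintype P] [PartialOrder P] [DecidableEq P] {r j w : ℕ}
  {lo hi : Tops P → ℕ → ℕ} {e : Tops P → ℕ → ℕ → P}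

/-- **the balance at the window `3` for the system, with the larger labels, including flips** -/
theorem Ctx.winSyT (K : Ctx P r j lo hi e) (h12 : 12 ≤ j) {N : Tops P → Finset P}
    {θ3 θ4 : Tops P → P → ℕ} (S : Sy P j lo hi N θ3 θ4) {c0 cT : ℕ}
    {LE LO BL : List ℤ} {lb : ℤ} {E : List (ℕ × ℕ × ℕ)} (hE : ChkE j E) (h0 : (0, 0, 0) ∈ E)
    (hb : j % 2 = 1 → ∀ s ∈ E, (s.1 : ℤ) * ((j : ℤ) - 3) - s.2.1 ≤ 5 * ((j : ℤ) - 3))
    (c1 : ∀ a ∈ Finset.Icc 2 ((j + 1) / 2), (j + 1 - 3) ^ 2 + c0 + 1 < stC 3 (j + 1) a)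
    (c2 : ∀ a ∈ Finset.Icc 2 (j - 1), (j + 1 - 3) ^ 2 + c0 + 1 < reC 3 (j + 1) a)
    (hc : c0 ≤ cT)
    (hcell : ∀ (N : Tops P → Finset P) (b : Tops P → ℕ) (θ : Tops P → P → ℕ),
      Wk r j 3 ((j + 1 - 3) ^ 2 + c0) N b θ →
      CellsN P j 3 ((j + 1 - 3) ^ 2 + c0) ((j + 1 - 3) ^ 2 + cT) N b θ
        (XL (j + 1 - 3) LE) (XL (j + 1 - 3) LO))
    (hk : ∀ (N : Tops P → Finset P) (b : Tops P → ℕ) (θ : Tops P → P → ℕ),
      Wk r j 3 ((j + 1 - 3) ^ 2 + c0) N b θ → Unq P 3 b →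
      HkT P j 3 ((j + 1 - 3) ^ 2 + cT) N b θ (XL (j + 1 - 3) BL))
    (I : InT P j 3 ((j + 1 - 3) ^ 2 + cT) (XL (j + 1 - 3) LE) (XL (j + 1 - 3) LO))
    (c6 : 2 * ((j + 1 - 3) ^ 2 + cT) < 3 * (j + 1 - 3) ^ 2 + 3 * (j + 1 - 3))
    (c7 : cT < 7 * (j + 1 - 3) + 10)
    (hl0 : lb ≤ 0) (hlE : ∀ x ∈ LE, lb ≤ x) (hlO : ∀ x ∈ LO, lb ≤ x)
    (hJ : ∃ z : P, Hul.Jn z) :
    ∃ v : ℕ, MnT j 3 N (fun t => hi t 3 - lo t 3 + 1) θ3 v ∧
      Wk r j 3 ((j + 1 - 3) ^ 2 + c0) N (fun t => hi t 3 - lo t 3 + 1) θ3 ∧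
      WinB P j 3 cT (fun V => LO.elem V)
        (fun V => (nz ((j + 1 - 3 : ℕ) : ℤ) V && !(BL.elem V)) || LE.elem V)
        lb ((v : ℤ) - ((j + 1 - 3 : ℕ) : ℤ) ^ 2) := by
  have H := K.gt.H
  have h16 := K.h16
  have W : Wk r j 3 ((j + 1 - 3) ^ 2 + c0) N (fun t => hi t 3 - lo t 3 + 1) θ3 :=
    { gt := K.gt, hj := by omega, hw1 := by omega, hw := by omega, typ := S.typ3, top := S.top3
      sum_b := S.sum3
      hK := by omega
      rdeep := fun C _ hx _ h1 h2 h3 h4 => rdeep_of (by omega) (by omega) c2 C hx h1 h2 h3 h4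
      sdeep := fun _ _ _ _ C _ hx _ h1 h3 h4 => sdeep_of (by omega) (by omega) c1 C hx h1 h3 h4 }
  have L := W.lkT (by omega) (by omega) c6 S.unq3 I (hcell _ _ _ W) (hk _ _ _ W S.unq3)
  have hlow : ∀ z x x' : P, Cg z x x' → Sok j x → Sok j x' → j + 1 ≤ lev z →
      ∀ k, k < 3 → nab k z = 2 := by
    intro z x x' h hs hs' hl k hk
    obtain ⟨l1, l2⟩ := h.lev_eq H
    have hend : lev x = j → (Win.uc x).card = 1 := fun hh => (K.ends h (by omega)).1
    have hend' : lev x' = j → (Win.uc x').card = 1 := fun hh => (K.ends h (by omega)).2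
    rw [h.sum H (by omega), K.low_one h12 h.only (by omega) hend hs (by omega),
      K.low_one h12 h.only' (by omega) hend' hs' (by omega)]
  have hpen : OnePen P j (fun t => 2 ≤ hi t 3 - lo t 3 + 1) ∨ ∃ z : P, Hul.Jn z ∧
      ful 3 z ≤ (j + 1 - 3) ^ 2 + 5 * (j - 3) := by
    rcases K.pen_or with h | ⟨hodd, z, x, x', h1, h2, h3, h4⟩
    · left
      intro e e' p p' hB
      refine h e e' p p' ?_
      rcases shape_cases (K.comp (topOf e)) (by omega) (K.shape (topOf e)) with h | h | ⟨a, h, h3⟩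
      · have := h 3 (by omega)
        omega
      · exact h
      · have h4 := h.four (by omega)
        have e1 := h.low 3 (by omega)
        omega
    · right
      have hs : Sok j x := ⟨fun hf => by
        have := hf.1
        have := (h1.lev_eq H).1
        omega, fun _ hf => by
        have := hf.2.1
        omega⟩
      have hs' : Sok j x' := ⟨fun hf => by
        have := hf.1
        have := (h1.lev_eq H).2
        omega, fun _ hf => by
        have := hf.2.1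
        omega⟩
      exact ⟨z, h1.jn, K.cheap (w := 3) (by omega) hodd hE h0 (hb hodd) h1 h2 h3 h4
        (hlow z x x' h1 hs hs' h2.ge)⟩
  obtain ⟨v, M, h⟩ := W.winBF (by omega) (fun _ => h12) (by omega) L h16 (cT := (cT : ℤ))
    (lb := lb) (by push_cast; ring) (by exact_mod_cast c7) hl0 hlE hlO hlow hpen hJ
  exact ⟨v, M, W, h⟩

end

variable {P : Type u} [Fintype P] [PartialOrder P] [DecidableEq P] {r : ℕ}
  {lo hi : Tops P → ℕ → ℕ} {e : Tops P → ℕ → ℕ → P}

/-- the window `3` for `j = 13`, for a given system -/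
theorem Ctx.sys3T_13 (K : Ctx P r 13 lo hi e) {N : Tops P → Finset P}
    {θ3 θ4 : Tops P → P → ℕ} (S : Sy P 13 lo hi N θ3 θ4) (hJ : ∃ z : P, Hul.Jn z) :
    ∃ v : ℕ, MnT 13 3 N (fun t => hi t 3 - lo t 3 + 1) θ3 v ∧
      Wk r 13 3 ((13 + 1 - 3) ^ 2 + 37) N (fun t => hi t 3 - lo t 3 + 1) θ3 ∧
      WinB P 13 3 60 (fun V => ([55, 56] : List ℤ).elem V)
        (fun V => nz ((13 + 1 - 3 : ℕ) : ℤ) V || ([55, 39, 53, 54] : List ℤ).elem V) 0
        ((v : ℤ) - ((13 + 1 - 3 : ℕ) : ℤ) ^ 2) := by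
  obtain ⟨v, M, W, h⟩ := K.winSyT (by norm_num) S (c0 := 37) (cT := 60)
    (LE := [55, 39, 53, 54]) (LO := [55, 56]) (BL := []) (lb := 0)
    chkEr13 (by decide +kernel) (by decide +kernel) (by decide +kernel) (by decide +kernel)
    (by norm_num) (fun N b θ W => W.cellsF (by norm_num)
      (numF_13_3.mono (fun v h => List.mem_cons_of_mem _ h) (fun _ h => h))
      (noPT_of K.gt (by norm_num)))
    (fun _ _ _ _ _ => hkT_nil)
    { hfl := fun _ => Or.inr (okv_e (by decide +kernel) (by decide +kernel))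
      hcc := fun h => absurd h (by norm_num)
      hFo := fun h => absurd h (by norm_num)
      hfv := fun h => absurd h (by norm_num) }
    (by norm_num) (by norm_num) le_rfl (by decide) (by decide) hJ
  exact ⟨v, M, W, h.mono le_rfl (fun v _ h => h) (fun v _ h => by simpa using h) le_rfl⟩

/-- caps -/
def cs13 (w : ℕ) : ℤ := if w = 2 then 70 else if w = 3 then 60 else if w = 4 then 44 else cr13 w

/-- even noise -/
def nes13 (w : ℕ) (V : ℤ) : Bool :=
  if w = 2 then (nz ((13 + 1 - 2 : ℕ) : ℤ) V || ([68, 49] : List ℤ).elem V)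
  else if w = 3 then (nz ((13 + 1 - 3 : ℕ) : ℤ) V || ([55, 39, 53, 54] : List ℤ).elem V)
  else ner13 w V

/-- odd noise -/
def nos13 (w : ℕ) (V : ℤ) : Bool :=
  if w = 2 then ([64, 65, 66] : List ℤ).elem V
  else if w = 3 then ([55, 56] : List ℤ).elem V
  else nor13 w V

/-- lower bounds -/
def lws13 (_ : ℕ) : ℤ := 0

/-- caps as a list -/
def cls13 : List (ℕ × ℕ) := [(13, 93), (12, 77), (11, 70), (10, 60)]

lemma caps13 : CapL 13 3 cs13 cls13 := by decide +kernel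

/-- caps as a list -/
def cls13' : List (ℕ × ℕ) := [(13, 93), (12, 77), (11, 70), (10, 60), (9, 44)]

lemma caps13' : CapL 13 4 cs13 cls13' := by decide +kernel

/-- lines with `g + 300`, by `κ` -/
def ts13 : List (List ℕ) :=
  [[300], [294, 295, 296, 297, 298], [288, 289, 290, 291, 292, 293, 294, 295, 296, 303], [291,
   297, 298, 299, 300, 301, 302, 303], [285, 286, 287, 288, 289, 291, 292, 293, 294, 295, 296,
   297, 298, 299, 300, 301, 302, 303, 308], [275, 280, 294, 296, 297, 298, 299, 300, 301, 302,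
   303, 304, 305, 306, 307, 308, 309], [269, 270, 271, 272, 273, 274, 275, 276, 277, 278, 282,
   288, 289, 290, 291, 292, 293, 294, 295, 296, 297, 298, 299, 300, 301, 302, 303, 304, 305,
   306, 307, 308, 309, 310, 315], [278, 283, 288, 291, 292, 293, 294, 295, 296, 297, 298, 299,
   300, 301, 302], [266, 271, 272, 273, 274, 275, 276, 277, 278, 279, 280, 281, 282, 283, 284,
   285, 286, 287, 288, 289], [], [250, 255, 260]]

/-- lines with `g`, by `κ` -/
def Ls13 : List (List ℤ) :=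
  [[0], [-6, -5, -4, -3, -2], [-12, -11, -10, -9, -8, -7, -6, -5, -4, 3], [-9, -3, -2, -1, 0, 1,
   2, 3], [-15, -14, -13, -12, -11, -9, -8, -7, -6, -5, -4, -3, -2, -1, 0, 1, 2, 3, 8], [-25,
   -20, -6, -4, -3, -2, -1, 0, 1, 2, 3, 4, 5, 6, 7, 8, 9], [-31, -30, -29, -28, -27, -26, -25,
   -24, -23, -22, -18, -12, -11, -10, -9, -8, -7, -6, -5, -4, -3, -2, -1, 0, 1, 2, 3, 4, 5, 6,
   7, 8, 9, 10, 15], [-22, -17, -12, -9, -8, -7, -6, -5, -4, -3, -2, -1, 0, 1, 2], [-34, -29,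
   -28, -27, -26, -25, -24, -23, -22, -21, -20, -19, -18, -17, -16, -15, -14, -13, -12, -11],
   [], [-50, -45, -40]]

lemma Ls13_eq : Ls13 = tabI ts13 := by decide +kernel

lemma fs13a : fst1 cls13 ts13 Sr13a = true := by decide +kernel

lemma fs13b : fst2 cls13 ts13 Sr13b = true := by decide +kernel

lemma fs13a' : fst1 cls13' ts13 Sr13a = true := by decide +kernel

lemma fs13b' : fst2 cls13' ts13 Sr13b = true := by decide +kernel

theorem tabs13 : TabS 13 3 cs13 Ls13 Er13 Sr13a Sr13b [] X0 := by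
  refine ⟨by norm_num, chkEr13, chkTr13, chkSr13b, ?_, ?_, ?_, ?_, ?_, ?_, ?_⟩
  · decide +kernel
  · decide +kernel
  · decide +kernel
  · decide +kernel
  · rw [Ls13_eq]
    exact chk1_of caps13 fs13a
  · rw [Ls13_eq]
    exact chk2_of (by norm_num) caps13 fs13b
  · decide +kernel

theorem tabs13' : TabS 13 4 cs13 Ls13 Er13 Sr13a Sr13b [] X0 := by
  refine ⟨by norm_num, chkEr13, chkTr13, chkSr13b, ?_, ?_, ?_, ?_, ?_, ?_, ?_⟩
  · decide +kernel
  · decide +kernel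
  · decide +kernel
  · decide +kernel
  · rw [Ls13_eq]
    exact chk1_of caps13' fs13a'
  · rw [Ls13_eq]
    exact chk2_of (by norm_num) caps13' fs13b'
  · decide +kernel

lemma rnds13 : rnds (aT Ls13) nos13 nes13 cs13 (odds Ls13.length) (evens Ls13.length)
    ((13 : ℕ) : ℤ) 250 4 16 [0, 0, 0, 0] = [79, 72, 64, 55] := by decide +kernel

/-- the alive lines cost at least `45` at the window `4` -/
lemma lows13 : allT Ls13 (fun κ g => !(Chk.above κ g [79, 72, 64, 55] ((13 : ℕ) : ℤ)) ||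
    decide (45 ≤ κ * 9 + g)) = true := by decide +kernel

/-- **the state for `j = 13`**, for a given system: the larger labels of the window `3` give
least cost at least `11 ^ 2 + 55` -/
theorem ps13 (K : Ctx P r 13 lo hi e) (hJ : ∃ z : P, Hul.Jn z) {N : Tops P → Finset P}
    {θ3 θ4 : Tops P → P → ℕ} (S : Sy P 13 lo hi N θ3 θ4) :
    ∃ (V : ℕ → ℤ) (v : ℕ), Bals P 13 cs13 nos13 nes13 lws13 V ∧
      Chk.Below 3 V [79, 72, 64, 55] ∧ MnT 13 3 N (fun t => hi t 3 - lo t 3 + 1) θ3 v ∧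
      Wk r 13 3 (11 ^ 2 + 37) N (fun t => hi t 3 - lo t 3 + 1) θ3 ∧ 11 ^ 2 + 55 ≤ v := by
  have hN : NoP P 13 X0 := noP_zero 13
  have hF : NoFo P 13 := (nf_odd (by norm_num)).noFo
  obtain ⟨V0, hV0⟩ := balr13 K hF hJ 0 (by norm_num)
  obtain ⟨V1, hV1⟩ := balr13 K hF hJ 1 (by norm_num)
  obtain ⟨V2, h2⟩ := winT2_13 K hJ
  obtain ⟨v, M, W, h3⟩ := K.sys3T_13 S hJ
  have key : ∀ a b c d : ℤ, ∃ V : ℕ → ℤ, V 0 = a ∧ V 1 = b ∧ V 2 = c ∧ V 3 = d :=
    fun a b c d => ⟨fun w => if w = 0 then a else if w = 1 then b else if w = 2 then c else d,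
      rfl, rfl, rfl, rfl⟩
  obtain ⟨V, e0, e1, e2, e3⟩ := key V0 V1 V2 ((v : ℤ) - ((13 + 1 - 3 : ℕ) : ℤ) ^ 2)
  have hB : Bals P 13 cs13 nos13 nes13 lws13 V := by
    intro w hw
    have : w = 0 ∨ w = 1 ∨ w = 2 ∨ w = 3 := by omega
    rcases this with rfl | rfl | rfl | rfl
    · rw [e0]; exact hV0
    · rw [e1]; exact hV1
    · rw [e2]; exact h2
    · rw [e3]; exact h3
  have h0 : Chk.Below 3 V [0, 0, 0, 0] := by
    have h5 := (StF.start hB).bel
    rwa [show ((List.range 4).map fun w => min (lws13 w) (cs13 w + 1)) = [0, 0, 0, 0] by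
      decide +kernel] at h5
  have h5 : Chk.Below 3 V [79, 72, 64, 55] := rnds13 ▸ K.sweepS hN hF
    (fun s hs => absurd hs List.not_mem_nil) tabs13 hB h0 250 16
  refine ⟨V, v, hB, h5, M, W, ?_⟩
  have h1 := h5.2 3 le_rfl
  rw [e3] at h1
  simp only [List.getD_cons_succ, List.getD_cons_zero] at h1
  norm_num at h1
  omega

/-- **all joins cost at least `145` at the window `4`** -/
theorem low4_13 (K : Ctx P r 13 lo hi e) : ∀ z x x' : P, Cg z x x' → 145 ≤ ful 4 z := by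
  intro z0 x0 x0' h0
  have hJ : ∃ z : P, Hul.Jn z := ⟨z0, h0.jn⟩
  have hN : NoP P 13 X0 := noP_zero 13
  have hNF : NF P 13 := nf_odd (by norm_num)
  obtain ⟨N, θ3, θ4, S⟩ := exists_sy K (by norm_num)
  obtain ⟨V, v, hB, h5, -, -, -⟩ := ps13 K hJ S
  refine K.lowN (T := 45) (by norm_num) (hNF.foB _) (fun z x x' h hs hs' => ?_)
    (by decide +kernel) (fun h => absurd h (by norm_num)) z0 x0 x0' h0
  by_contra hcon
  rw [not_le] at hcon
  have hc : kapZ 13 z * (((13 : ℕ) : ℤ) - ((4 : ℕ) : ℤ)) + gZ 13 z ≤ cs13 4 := by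
    have : cs13 4 = 44 := by decide +kernel
    rw [this]
    push_cast at hcon ⊢
    linarith
  have h6 := K.mem_tabS hN hNF.noFo (fun s hs => absurd hs List.not_mem_nil) tabs13' h hs hs'
    (w := 4) le_rfl hc
  have h7 : Chk.above (kapZ 13 z) (gZ 13 z) [79, 72, 64, 55] ((13 : ℕ) : ℤ) = true := by
    refine Chk.above_of (W := 3) (v := V) _ _ fun w hw => ?_
    have hw' : w ≤ 3 := by
      have := h5.1
      omega
    exact (h5.2 w hw').trans ((hB w hw').mn z x x' h hs hs')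
  have h8 := allT_spec lows13 h6
  simp only [h7, Bool.not_true, Bool.false_or, decide_eq_true_eq] at h8
  push_cast at hcon
  linarith

end Pool.Agent.GaussPoset.Sm
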